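import Pool.Agent.Lib.MP_743d1e_nt.BD.SpecA

/-!
# Theorem BD: modules, part B (constant extensions, arcs, the regular differential, CORE)

Conventions as in `SpecA.lean`. `k₀ ⊂ k₁` fields of constants, `K₀ / k₀` a function field of one variable, `K₁ = K₀ k₁`.
-/

set_option autoImplicit false

namespace MP743d1e.BD

open scoped BigOperators TensorProduct
open Polynomial IntermediateField MP743d1e.CY MP743d1e.GX MP743d1e.Integ Filter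

/-! ## Constant extensions -/

/-- TPD. The tensor product of two fields over an algebraically closed field is a domain. Deps: none.

Proof. Let `a b = 0`, `a, b ≠ 0`, `a = ∑ r_i ⊗ c_i`, `b = ∑ s_j ⊗ d_j` with `r` linearly independent over `k`, `s` too, and
`c_0, d_0 ≠ 0`. `R ⊂ B` the finitely generated `k`-algebra generated by the `c_i`, `d_j`, `c_0⁻¹`, `d_0⁻¹`. By the
Nullstellensatz (a maximal ideal of `R`, `finite_of_finite_type_of_isJacobsonRing`, `k` algebraically closed) there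
is `χ : R →ₐ[k] k`. `A ⊗ R → A ⊗ B` is injective (flatness), so `a b = 0` already in `A ⊗ R`, and
`(id ⊗ χ) a * (id ⊗ χ) b = 0` in `A`; but `∑ χ(c_i) r_i ≠ 0` since `χ(c_0) ≠ 0`. -/
def SpecTPD : Prop := ∀ (k A B : Type) [Field k] [IsAlgClosed k] [Field A] [Field B] [Algebra k A]
  [Algebra k B], IsDomain (A ⊗[k] B)

/-- LDG. Linear disjointness. Deps: TPD.

Proof. The map `μ : E₀ ⊗ k₁ → K` is injective: a nonzero element `a` of the domain `E₀ ⊗ k₁` is algebraic over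
`k₁[x] = k₀[x] ⊗ k₁` (every element of `E₀` is algebraic over `k₀[x]`), so it has a multiple `a a' = q(x)`, `q ≠ 0` in
`k₁[X]` (the constant term of an equation of least degree), and `μ (q(x)) ≠ 0` as `x` is transcendental over `k₁`. If
the `c_i` are linearly independent and `μ (∑ r_i ⊗ c_i) = 0` then the `r_i` are zero. -/
def SpecLDG : Prop := ∀ (k₀ E₀ k₁ K : Type) [Field k₀] [Field E₀] [Field k₁] [Field K]
  [Algebra k₀ E₀] [Algebra k₀ k₁] [Algebra k₀ K] [Algebra E₀ K] [Algebra k₁ K]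
  [IsScalarTower k₀ E₀ K] [IsScalarTower k₀ k₁ K] [IsAlgClosed k₀],
  ∀ x : E₀, Algebra.IsAlgebraic k₀⟮x⟯ E₀ → Transcendental k₁ (algebraMap E₀ K x) →
    ∀ (n : ℕ) (r : Fin n → E₀) (c : Fin n → k₁), LinearIndependent k₀ c →
      ∑ i, algebraMap E₀ K (r i) * algebraMap k₁ K (c i) = 0 → ∀ i, r i = 0

/-- CES. The roles of `K₀` and `k₁` can be exchanged. Deps: none.

Proof. `μ : K₀ ⊗ k₁ → K₁` is injective (write an element as `∑ r_i ⊗ c_i` with `c` part of a basis of `k₁`), so the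
other formulation of linear disjointness holds. `Algebra.adjoin k₁ (range K₀)` and
`Algebra.adjoin K₀ (range k₁)` are the same set (the sums of products). Second and third part: representations. -/
def SpecCES : Prop := ∀ (k₀ K₀ k₁ K₁ : Type) [Field k₀] [Field K₀] [Field k₁] [Field K₁]
  [Algebra k₀ K₀] [Algebra k₀ k₁] [Algebra k₀ K₁] [Algebra K₀ K₁] [Algebra k₁ K₁]
  [IsScalarTower k₀ K₀ K₁] [IsScalarTower k₀ k₁ K₁], CExt k₀ K₀ k₁ K₁ →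
  CExt k₀ k₁ K₀ K₁ ∧
  (∀ x ∈ Algebra.adjoin k₁ (Set.range (algebraMap K₀ K₁)),
    ∃ (n : ℕ) (r : Fin n → K₀) (c : Fin n → k₁), LinearIndependent k₀ r ∧ LinearIndependent k₀ c ∧
      x = ∑ i, algebraMap K₀ K₁ (r i) * algebraMap k₁ K₁ (c i)) ∧
  ∀ (n : ℕ) (r : Fin n → K₀) (c : Fin n → k₁), ∃ (m : ℕ) (r' : Fin m → K₀) (c' : Fin m → k₁),
    LinearIndependent k₀ r' ∧ (∀ j, r' j ∈ Submodule.span k₀ (Set.range r)) ∧
    ∑ i, algebraMap K₀ K₁ (r i) * algebraMap k₁ K₁ (c i) =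
      ∑ j, algebraMap K₀ K₁ (r' j) * algebraMap k₁ K₁ (c' j)

/-- CEB. Basic facts about constant extensions. Deps: CES.

Proof. (1) The powers of `z` are linearly independent over `k₀`, hence over `k₁` (CES). (2) `K₁` is generated over
`k₁⟮z⟯` by a basis `e` of `K₀` over `k₀⟮z⟯`: their span is a ring, finite over a field, so a field containing `K₀`
and `k₁`. They are independent: clear denominators in `k₁[z]`: `∑ p_i(z) e_i = 0` with `p_i ∈ k₁[X]`; the coefficients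
with respect to a basis of `k₁ / k₀`: `∑ p_{i,l}(z) e_i = 0` with `p_{i,l} ∈ k₀[X]`. (3) is (1), (2).
(4) If `y = c` is not in `k₀` then `1, c` are linearly independent over `k₀` and `y * 1 - 1 * c = 0`. -/
def SpecCEB : Prop := ∀ (k₀ K₀ k₁ K₁ : Type) [Field k₀] [Field K₀] [Field k₁] [Field K₁]
  [Algebra k₀ K₀] [Algebra k₀ k₁] [Algebra k₀ K₁] [Algebra K₀ K₁] [Algebra k₁ K₁]
  [IsScalarTower k₀ K₀ K₁] [IsScalarTower k₀ k₁ K₁], CExt k₀ K₀ k₁ K₁ → Fun1 k₀ K₀ →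
  (∀ z : K₀, Transcendental k₀ z → Transcendental k₁ (algebraMap K₀ K₁ z)) ∧
  (∀ z : K₀, Transcendental k₀ z → ∀ (n : ℕ) (e : Module.Basis (Fin n) k₀⟮z⟯ K₀),
    ∃ e' : Module.Basis (Fin n) k₁⟮algebraMap K₀ K₁ z⟯ K₁, ∀ i, e' i = algebraMap K₀ K₁ (e i)) ∧
  Fun1 k₁ K₁ ∧
  ∀ (y : K₀) (c : k₁), algebraMap K₀ K₁ y = algebraMap k₁ K₁ c →
    ∃ c₀ : k₀, algebraMap k₀ K₀ c₀ = y ∧ algebraMap k₀ k₁ c₀ = c

/-- EXT. Extension of homomorphisms. Deps: CES.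

Proof. `ψ : K₀ ⊗ k₁ → Λ` and `μ : K₀ ⊗ k₁ → K₁` (injective, with image `R = Algebra.adjoin k₁ (range K₀)`, `K₁` = fractions of
`R`). `ψ` is injective: `a ≠ 0` in `R` is algebraic over `k₁⟮z⟯`, so (equation of least degree, denominators) there is
`a' ∈ R` with `a a' = q(z)`, `q ≠ 0`; and `ψ (q(z)) ≠ 0` by hypothesis. So `ψ` extends to the fractions. -/
def SpecEXT : Prop := ∀ (k₀ K₀ k₁ K₁ Λ : Type) [Field k₀] [Field K₀] [Field k₁] [Field K₁]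
  [Field Λ] [Algebra k₀ K₀] [Algebra k₀ k₁] [Algebra k₀ K₁] [Algebra K₀ K₁] [Algebra k₁ K₁]
  [IsScalarTower k₀ K₀ K₁] [IsScalarTower k₀ k₁ K₁], CExt k₀ K₀ k₁ K₁ →
  ∀ z : K₀, Algebra.IsAlgebraic k₀⟮z⟯ K₀ → ∀ (α : k₁ →+* Λ) (φ : K₀ →+* Λ),
    (∀ c : k₀, α (algebraMap k₀ k₁ c) = φ (algebraMap k₀ K₀ c)) →
    (∀ p : k₁[X], p ≠ 0 → p.eval₂ α (φ z) ≠ 0) →
    ∃ Φ : K₁ →+* Λ, (∀ c : k₁, Φ (algebraMap k₁ K₁ c) = α c) ∧
      ∀ y : K₀, Φ (algebraMap K₀ K₁ y) = φ y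

/-- DER. The derivation in the direction of the parameter. Deps: DR0, CES.

Proof. `D₀` from DR0 for `(k₀, k₁, t)`. On `R = K₀ ⊗ k₁` (CES: `μ` injective) `D = id ⊗ D₀`, extended to the fractions.
Kernel: `x ∈ K₁`, `D x = 0`; take `b ≠ 0` in `R` with `b x ∈ R` that is a sum of a minimal number `n` of terms `r_i c_i`,
`c_1 = 1`. `(D b) x = D (b x) ∈ R` and `D b = ∑_{i ≥ 2} r_i D₀ c_i`, so `D b = 0`; by minimality the `r_i` are linearly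
independent over `k₀`, so `D₀ c_i = 0`, `c_i ∈ k₀`, `n = 1` (the `c_i` are linearly independent too),
`b = r_1 ∈ K₀`, and `x ∈ R`: `x = ∑ r_i c_i` with independent `r_i`, `D₀ c_i = 0`, `c_i ∈ k₀`, `x ∈ K₀`. -/
def SpecDER : Prop := ∀ (k₀ K₀ k₁ K₁ : Type) [Field k₀] [Field K₀] [Field k₁] [Field K₁]
  [Algebra k₀ K₀] [Algebra k₀ k₁] [Algebra k₀ K₁] [Algebra K₀ K₁] [Algebra k₁ K₁]
  [IsScalarTower k₀ K₀ K₁] [IsScalarTower k₀ k₁ K₁] [IsAlgClosed k₀] [CharZero k₀],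
  CExt k₀ K₀ k₁ K₁ → ∀ t : k₁, Transcendental k₀ t → Algebra.IsAlgebraic k₀⟮t⟯ k₁ →
    ∃ (D : Derivation ℤ K₁ K₁) (D₀ : Derivation ℤ k₁ k₁), IsDt k₀ K₀ k₁ t D D₀ ∧
      (∀ x : K₁, D x = 0 → ∃ y : K₀, algebraMap K₀ K₁ y = x) ∧
      ∀ c : k₁, D₀ c = 0 → ∃ c₀ : k₀, algebraMap k₀ k₁ c₀ = c

/-- DZ. The derivation in the direction of `z ∈ K₀`. Deps: DER, CES.

Proof. DER for `(k₀, k₁, K₀, K₁)` (roles exchanged by CES) and `t = z`. -/
def SpecDZ : Prop := ∀ (k₀ K₀ k₁ K₁ : Type) [Field k₀] [Field K₀] [Field k₁] [Field K₁]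
  [Algebra k₀ K₀] [Algebra k₀ k₁] [Algebra k₀ K₁] [Algebra K₀ K₁] [Algebra k₁ K₁]
  [IsScalarTower k₀ K₀ K₁] [IsScalarTower k₀ k₁ K₁] [IsAlgClosed k₀] [CharZero k₀],
  CExt k₀ K₀ k₁ K₁ → Fun1 k₀ K₀ → ∀ z : K₀, Transcendental k₀ z →
    ∃ (E : Derivation ℤ K₁ K₁) (E₀ : Derivation ℤ K₀ K₀), IsDz K₀ k₁ z E E₀ ∧
      (∀ c : k₀, E₀ (algebraMap k₀ K₀ c) = 0) ∧
      (∀ y : K₀, E₀ y = 0 → ∃ c : k₀, algebraMap k₀ K₀ c = y) ∧
      ∀ x : K₁, E x = 0 → ∃ c : k₁, algebraMap k₁ K₁ c = x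

/-! ## Arcs -/

/-- CAR. Constant arcs. Deps: EXT, CEB.

Proof. `φ y = (ι₀ y).map (algebraMap k₀ k₁)` is a ring homomorphism, `α = HahnSeries.C`; EXT with `z = ϖ`: `φ ϖ = sv` is
transcendental over `k₁`, `K₀` is algebraic over `k₀⟮ϖ⟯` (`ϖ` is transcendental over `k₀`, as `ι₀ ϖ = sv` is; `fdx`). -/
def SpecCAR : Prop := ∀ (k₀ K₀ k₁ K₁ : Type) [Field k₀] [Field K₀] [Field k₁] [Field K₁]
  [Algebra k₀ K₀] [Algebra k₀ k₁] [Algebra k₀ K₁] [Algebra K₀ K₁] [Algebra k₁ K₁]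
  [IsScalarTower k₀ K₀ K₁] [IsScalarTower k₀ k₁ K₁], CExt k₀ K₀ k₁ K₁ → Fun1 k₀ K₀ →
  ∀ (ι₀ : K₀ →+* LaurentSeries k₀) (ϖ : K₀), IsOver k₀ ι₀ → ι₀ ϖ = sv k₀ →
    ∃ ι : K₁ →+* LaurentSeries k₁, IsOver k₁ ι ∧
      (∀ (y : K₀) (n : ℤ), (ι (algebraMap K₀ K₁ y)).coeff n = algebraMap k₀ k₁ ((ι₀ y).coeff n)) ∧
      ι (algebraMap K₀ K₁ ϖ) = sv k₁

/-- TAY. The Taylor expansion. Deps: none.

Proof. `T y = ∑ ρ (E₀^n y) s^n / n!` in `PowerSeries k₁`, mapped to the Laurent series; it is additive, and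
multiplicative by the Leibniz rule `E₀^n (a b) = ∑ C(n, i) E₀^i a E₀^(n-i) b` (induction). -/
def SpecTAY : Prop := ∀ (K₀ k₁ : Type) [Field K₀] [Field k₁] [CharZero k₁] (E₀ : Derivation ℤ K₀ K₀)
  (ρ : K₀ →+* k₁), ∃ T : K₀ →+* LaurentSeries k₁, (∀ y, IsO (T y)) ∧
    ∀ (y : K₀) (n : ℕ), (T y).coeff (n : ℤ) = ρ (E₀^[n] y) / (n.factorial : k₁)

/-- MAR. Moving arcs. Deps: TAY, EXT, DZ, CEB.

Proof. `E₀` from DZ, `T` from TAY, `T z = ρ z + s` is transcendental over `k₁`; `T c = c` for `c ∈ k₀`. EXT. -/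
def SpecMAR : Prop := ∀ (k₀ K₀ k₁ K₁ : Type) [Field k₀] [Field K₀] [Field k₁] [Field K₁]
  [Algebra k₀ K₀] [Algebra k₀ k₁] [Algebra k₀ K₁] [Algebra K₀ K₁] [Algebra k₁ K₁]
  [IsScalarTower k₀ K₀ K₁] [IsScalarTower k₀ k₁ K₁] [IsAlgClosed k₀] [CharZero k₀],
  CExt k₀ K₀ k₁ K₁ → Fun1 k₀ K₀ → ∀ z : K₀, Transcendental k₀ z →
    ∀ ρ : K₀ →+* k₁, (∀ c : k₀, ρ (algebraMap k₀ K₀ c) = algebraMap k₀ k₁ c) →
      ∃ ι : K₁ →+* LaurentSeries k₁, IsOver k₁ ι ∧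
        ι (algebraMap K₀ K₁ z) = HahnSeries.C (ρ z) + sv k₁ ∧
        ∀ y : K₀, IsO (ι (algebraMap K₀ K₁ y)) ∧ (ι (algebraMap K₀ K₁ y)).coeff 0 = ρ y

/-- C3. Functions without poles on the moving arcs. Deps: CEB, MAR, VDM, LSD.

Proof. `K₀ = k₀(z)(θ)` (primitive element), `r` the degree; CEB: `h = ∑_{j < r} φ_j θ ^ j` with `φ_j ∈ k₁(z)`. Let `ζ` be in `k₁` and not
in `k₀`, so transcendental over `k₀`. There are `r` embeddings `ρ_i : K₀ → k₁` over `k₀` with `ρ_i z = ζ` and different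
`ρ_i θ` (`k₁` is algebraically closed). For the arcs `ι_i` of MAR the series `F_j = ι_i φ_j = φ_j(ζ + s)` does not
depend on `i`. By VDM `IsO (F_j)`, so `φ_j` has no pole at `ζ`. So the denominator `B` of `φ_j` (coprime to the
numerator, monic) has all its roots in `k₀`, `B ∈ k₀[z]`, and `φ_j = A / B` is in `Algebra.adjoin k₁ (range K₀)`. -/
def SpecC3 : Prop := ∀ (k₀ K₀ k₁ K₁ : Type) [Field k₀] [Field K₀] [Field k₁] [Field K₁]
  [Algebra k₀ K₀] [Algebra k₀ k₁] [Algebra k₀ K₁] [Algebra K₀ K₁] [Algebra k₁ K₁]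
  [IsScalarTower k₀ K₀ K₁] [IsScalarTower k₀ k₁ K₁] [IsAlgClosed k₀] [CharZero k₀] [IsAlgClosed k₁],
  CExt k₀ K₀ k₁ K₁ → Fun1 k₀ K₀ → ∀ z : K₀, Transcendental k₀ z → ∀ h : K₁,
    (∀ (ι : K₁ →+* LaurentSeries k₁) (c : k₁), IsOver k₁ ι →
      ι (algebraMap K₀ K₁ z) = HahnSeries.C c + sv k₁ → IsO (ι h)) →
    h ∈ Algebra.adjoin k₁ (Set.range (algebraMap K₀ K₁))

/-- RGF. Functions without poles on the good arcs are constant. Deps: C3, CES, CAR, ARC, LSD.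

Proof. The arcs of C3 are good, so `h = ∑ r_i c_i` with `c` linearly independent over `k₀` (CES). If some `r_i` is not
constant it has a pole `v` (a zero of its inverse, `specFNV`); an arc `ι₀` at `v` (ARC), `ι` from CAR, a good arc (constant
zero). The coefficients of the negative powers of `ι h` are `∑ c_i * (ι₀ r_i).coeff n = 0`, so `IsO (ι₀ r_i)`,
contradiction. -/
def SpecRGF : Prop := ∀ (k₀ K₀ k₁ K₁ : Type) [Field k₀] [Field K₀] [Field k₁] [Field K₁]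
  [Algebra k₀ K₀] [Algebra k₀ k₁] [Algebra k₀ K₁] [Algebra K₀ K₁] [Algebra k₁ K₁]
  [IsScalarTower k₀ K₀ K₁] [IsScalarTower k₀ k₁ K₁] [IsAlgClosed k₀] [CharZero k₀] [IsAlgClosed k₁],
  CExt k₀ K₀ k₁ K₁ → Fun1 k₀ K₀ → ∀ h : K₁,
    (∀ ι : K₁ →+* LaurentSeries k₁, IsGood K₀ k₁ ι → IsO (ι h)) →
    ∃ c : k₁, algebraMap k₁ K₁ c = h

/-- RGD. Differentials that are regular on the good arcs. Deps: C3, CES, CAR, LSD.

Proof. For the arcs of C3 `dS (ι z) = 1`. So `h = ∑ r_i c_i` with `c` linearly independent over `k₀`. For an unramified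
arc `ι₀` of `K₀` and `ι` from CAR (good), `ι h * dS (ι z) = ∑ c_i * (ι₀ r_i * dS (ι₀ z))` coefficientwise, so
`IsO (ι₀ r_i * dS (ι₀ z))`: `IsRegD k₀ z (r_i)`. Then CES (third part): `r'` linearly independent in the span of
the `r_i`, and the set of regular `r` is a `k₀`-subspace. -/
def SpecRGD : Prop := ∀ (k₀ K₀ k₁ K₁ : Type) [Field k₀] [Field K₀] [Field k₁] [Field K₁]
  [Algebra k₀ K₀] [Algebra k₀ k₁] [Algebra k₀ K₁] [Algebra K₀ K₁] [Algebra k₁ K₁]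
  [IsScalarTower k₀ K₀ K₁] [IsScalarTower k₀ k₁ K₁] [IsAlgClosed k₀] [CharZero k₀] [IsAlgClosed k₁],
  CExt k₀ K₀ k₁ K₁ → Fun1 k₀ K₀ → ∀ z : K₀, Transcendental k₀ z → ∀ h : K₁,
    IsRegD k₁ (algebraMap K₀ K₁ z) h →
    ∃ (n : ℕ) (r : Fin n → K₀) (c : Fin n → k₁), LinearIndependent k₀ r ∧
      (∀ i, IsRegD k₀ z (r i)) ∧ h = ∑ i, algebraMap K₀ K₁ (r i) * algebraMap k₁ K₁ (c i)

/-- C6. Torsion tame symbols descend from `K₁ / k₁` to `K₀ / k₀`. Deps: ARC, AV, CAR.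

Proof. `v` a place of `K₀ / k₀`, `ι₀` an arc of `v` (ARC), `ι` from CAR, `w` the place of `ι` (AV): `e * w.ord = order`, and
`order (ι y) = v.ord y` for `y` in `K₀ˣ`; `v` has an element of order one, so `e = 1` and `w` restricts to `v`. Then
`tameUnit w (f, g) = tameUnit v (f, g)` and one-units of `w` in `K₀` are one-units of `v`. -/
def SpecC6 : Prop := ∀ (k₀ K₀ k₁ K₁ : Type) [Field k₀] [Field K₀] [Field k₁] [Field K₁]
  [Algebra k₀ K₀] [Algebra k₀ k₁] [Algebra k₀ K₁] [Algebra K₀ K₁] [Algebra k₁ K₁]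
  [IsScalarTower k₀ K₀ K₁] [IsScalarTower k₀ k₁ K₁] [IsAlgClosed k₀],
  CExt k₀ K₀ k₁ K₁ → Fun1 k₀ K₀ → ∀ f g : K₀ˣ,
    TorTameF k₁ (sym (um K₀ K₁ f) (um K₀ K₁ g)) → TorTameF k₀ (sym f g)

/-! ## The regular differential of a family -/

/-- ARD. Derivations and arcs. Deps: DUQ, LSD, CEB.

Proof. `ι ∘ D` and `(cS D₀ + ι (D ϖ) dS) ∘ ι` are derivations along `ι` that agree on `k₁` and at `ϖ`, `K₁` is algebraic over
`k₁⟮ϖ⟯` (`ϖ` is transcendental over `k₁`, since `ι ϖ = sv` is; CEB: `Fun1 k₁ K₁`). Second part: `ϖ = y - c`,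
`D ϖ = - D₀ c`. -/
def SpecARD : Prop := ∀ (k₀ K₀ k₁ K₁ : Type) [Field k₀] [Field K₀] [Field k₁] [Field K₁]
  [Algebra k₀ K₀] [Algebra k₀ k₁] [Algebra k₀ K₁] [Algebra K₀ K₁] [Algebra k₁ K₁]
  [IsScalarTower k₀ K₀ K₁] [IsScalarTower k₀ k₁ K₁] [CharZero k₀],
  CExt k₀ K₀ k₁ K₁ → Fun1 k₀ K₀ → ∀ (t : k₁) (D : Derivation ℤ K₁ K₁) (D₀ : Derivation ℤ k₁ k₁),
    IsDt k₀ K₀ k₁ t D D₀ → ∀ ι : K₁ →+* LaurentSeries k₁, IsOver k₁ ι →
      (∀ ϖ : K₁, ι ϖ = sv k₁ → ∀ x : K₁, ι (D x) = cS D₀ (ι x) + ι (D ϖ) * dS (ι x)) ∧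
      ∀ (y : K₀) (c : k₁), ι (algebraMap K₀ K₁ y) = HahnSeries.C c + sv k₁ →
        ∀ x : K₁, ι (D x) = cS D₀ (ι x) - HahnSeries.C (D₀ c) * dS (ι x)

/-- GRG. The differential `G dz` is regular. Deps: ARD, CHD, AV, CEB, LSD.

Proof. Let `ι ϖ = sv`. By ARD and CHD (`δ = E`, `x = z`) the terms with `ι (D ϖ)` cancel:
`ι G * dS (ι z) = (dS F / F) (cS D₀ H / H) - (cS D₀ F / F) (dS H / H)`, `F = ι f`, `H = ι g`. By `d_log`, `c_log` this is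
`s⁻¹` times an element of `O` with constant coefficient `a D₀(c₂) / c₂ - b D₀(c₁) / c₁`, `a`, `b` the orders and `c₁`, `c₂` the
leading coefficients of `F`, `H`. `v` = the place of `ι` (AV; `v.ord = order` since `ι ϖ = sv`); the tame symbol at `v`
is torsion: `((-1)^(a b) c₁^b / c₂^a)^N = 1`, and a derivation vanishes at roots of unity, so the coefficient is zero. -/
def SpecGRG : Prop := ∀ (k₀ K₀ k₁ K₁ : Type) [Field k₀] [Field K₀] [Field k₁] [Field K₁]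
  [Algebra k₀ K₀] [Algebra k₀ k₁] [Algebra k₀ K₁] [Algebra K₀ K₁] [Algebra k₁ K₁]
  [IsScalarTower k₀ K₀ K₁] [IsScalarTower k₀ k₁ K₁] [CharZero k₀],
  CExt k₀ K₀ k₁ K₁ → Fun1 k₀ K₀ → ∀ z : K₀, Transcendental k₀ z →
    ∀ (t : k₁) (D : Derivation ℤ K₁ K₁) (D₀ : Derivation ℤ k₁ k₁) (E : Derivation ℤ K₁ K₁)
      (E₀ : Derivation ℤ K₀ K₀), IsDt k₀ K₀ k₁ t D D₀ → IsDz K₀ k₁ z E E₀ →
      ∀ f g : K₁ˣ, TorTameF k₁ (sym f g) →
        IsRegD k₁ (algebraMap K₀ K₁ z) (gD D E (f : K₁) (g : K₁))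

/-- V1. The key estimate. Deps: EXT, CES, ARC, DUQ, DR0, LSD, L3. (`K₀` and `L` are function fields over `k₀`, `M = K₀ L`.)

Proof. `ι_b : L → k₀((s))` an arc of `b` with `π ↦ s` (ARC). EXT with the roles of `K₀` and `L` exchanged (CES), `z = π`:
`J : M → K₀((s))`, `J = C` on `K₀`, `J y = (ι_b y).map (algebraMap k₀ K₀)` on `L`. By DUQ (first part: the set where
two derivations along `J` agree is a subfield; it contains `K₀` and `L`; `gen`): `J (E x) = cS E₀ (J x)`,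
`J ((π / D π) D x) = s dS (J x)` [on `L`: `D y = D π * (dy / dπ)`, DUQ third part]. Let `F = J f`, `H = J g`, of orders `m`, `n` and
leading coefficients `f₀`, `g₀ ∈ K₀`. So `J ((π / D π) G)` is in `O` with constant coefficient
`n E₀ f₀ / f₀ - m E₀ g₀ / g₀ = E₀ P / P`, `P = f₀ ^ n / g₀ ^ m`. It is `∑ h_i J (μ_i)`, `μ_i = λ_i π / D π`, and the coefficients
of `J μ_i` are in `k₀`, the `h_i` are linearly independent over `k₀`: `J μ_i` is in `O`, and with its constant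
coefficients `m_i ∈ k₀`: `∑ h_i m_i = E₀ P / P` is regular, so `P` is constant (L3), `E₀ P = 0`, `m_i = 0`. -/
def SpecV1 : Prop := ∀ (k₀ K₀ L M : Type) [Field k₀] [Field K₀] [Field L] [Field M]
  [Algebra k₀ K₀] [Algebra k₀ L] [Algebra k₀ M] [Algebra K₀ M] [Algebra L M]
  [IsScalarTower k₀ K₀ M] [IsScalarTower k₀ L M] [IsAlgClosed k₀] [CharZero k₀],
  CExt k₀ K₀ L M → Fun1 k₀ K₀ → Fun1 k₀ L → ∀ z : K₀, Transcendental k₀ z →
    ∀ (t : L) (D : Derivation ℤ M M) (D₀ : Derivation ℤ L L) (E : Derivation ℤ M M)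
      (E₀ : Derivation ℤ K₀ K₀), Transcendental k₀ t → IsDt k₀ K₀ L t D D₀ → IsDz K₀ L z E E₀ →
      ∀ (f g : Mˣ) (n : ℕ) (h : Fin n → K₀) (lam : Fin n → L), LinearIndependent k₀ h →
        (∀ i, IsRegD k₀ z (h i)) →
        gD D E (f : M) (g : M) = ∑ i, algebraMap K₀ M (h i) * algebraMap L M (lam i) →
        ∀ b : DVal L, GeoF k₀ b → ∀ π : Lˣ, b.ord π = 1 → ∀ i, Pos b (lam i * π / D₀ π)

/-- TRD. Exchange. Deps: none.

Proof. Transcendence degree (`Algebra.trdeg`, `AlgebraicIndependent.isTranscendenceBasis_of_trdeg_le_of_finite`). -/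
def SpecTRD : Prop := ∀ (k M : Type) [Field k] [Field M] [Algebra k M] (x y f g : M),
  Algebra.IsAlgebraic (IntermediateField.adjoin k ({x, y} : Set M)) M →
  AlgebraicIndependent k ![f, g] →
    Algebra.IsAlgebraic (IntermediateField.adjoin k ({f, g} : Set M)) M

/-- JEX. An embedding with `g` constant. Deps: ARC.

Proof. `Ω` = the algebraic closure of `M`, `κ` = the algebraic closure of `k₀⟮g⟯` in `Ω`, `N = κ(M) ⊂ Ω`
(`IntermediateField.adjoin κ (range M)`). `f` is transcendental over `κ`, and `N` is generated over `κ` by the finite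
set `s` of elements algebraic over `κ(f)`: `Fun1 κ N`. `f` has a zero (`specFNV`); ARC. -/
def SpecJEX : Prop := ∀ (k₀ M : Type) [Field k₀] [Field M] [Algebra k₀ M] [IsAlgClosed k₀]
  [CharZero k₀] (f g : Mˣ), AlgebraicIndependent k₀ ![(f : M), (g : M)] →
  Algebra.IsAlgebraic (IntermediateField.adjoin k₀ ({(f : M), (g : M)} : Set M)) M →
  (∃ s : Finset M, IntermediateField.adjoin k₀ (s : Set M) = ⊤) →
  ∃ (κ : Type) (_ : Field κ) (_ : Algebra k₀ κ) (_ : IsAlgClosed κ) (γ : κ)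
    (j : M →+* LaurentSeries κ), Transcendental k₀ γ ∧ Algebra.IsAlgebraic k₀⟮γ⟯ κ ∧
      IsOver k₀ j ∧ j (g : M) = HahnSeries.C γ ∧ 0 < (j (f : M)).order

/-- IND0. `f` and `g` are algebraically dependent (over a field of two variables). Deps: V1, JEX, TRD, LSX, JRG,
DUQ, AV, DR0, LSD.

Proof. Otherwise TRD, JEX: `κ`, `γ`, `j` (`M` is algebraic over `k₀(z, t)`, and finitely generated). `δ = γ * (d / dγ)`
(DR0), `F = j f`, `X1`, `X2` from LSX. They vanish on `k₀`. On `M`: `X (j x) = X (j z) * j (E x) + X (j t) * j (D x)` (DUQ first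
part: on `K₀` and on `L` by DUQ third part). So
`1 = (X1 F / F) (X2 H / H) - (X1 H / H) (X2 F / F) = j G * (X1 (j z) X2 (j t) - X1 (j t) X2 (j z))`, `H = j g = C γ`, and
`j G = ∑ j (h_i) j (λ_i)`. By JRG on `K₀`: `j (h_i) X1 (j z)` is in `M` (the maximal ideal), `j (h_i) X2 (j z)` in `O`. If
`j` has only orders zero on `L`: `j (λ_i)`, `j t` are in `O`, `X1 (j t)` in the maximal ideal. Otherwise AV: `b`, `π` with
`b π = 1`, `j (λ_i) X (j t) = j (μ_i) X (j π) / j π`, `μ_i = λ_i π / D₀ π` of positive order (V1), `X (j π) / j π` in `O`.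
In both cases `1` is in the maximal ideal. -/
def SpecIND0 : Prop := ∀ (k₀ K₀ L M : Type) [Field k₀] [Field K₀] [Field L] [Field M]
  [Algebra k₀ K₀] [Algebra k₀ L] [Algebra k₀ M] [Algebra K₀ M] [Algebra L M]
  [IsScalarTower k₀ K₀ M] [IsScalarTower k₀ L M] [IsAlgClosed k₀] [CharZero k₀],
  CExt k₀ K₀ L M → Fun1 k₀ K₀ → Fun1 k₀ L → ∀ z : K₀, Transcendental k₀ z →
    ∀ (t : L) (D : Derivation ℤ M M) (D₀ : Derivation ℤ L L) (E : Derivation ℤ M M)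
      (E₀ : Derivation ℤ K₀ K₀), Transcendental k₀ t → IsDt k₀ K₀ L t D D₀ → IsDz K₀ L z E E₀ →
      ∀ (f g : Mˣ) (n : ℕ) (h : Fin n → K₀) (lam : Fin n → L), LinearIndependent k₀ h →
        (∀ i, IsRegD k₀ z (h i)) →
        gD D E (f : M) (g : M) = ∑ i, algebraMap K₀ M (h i) * algebraMap L M (lam i) →
        ¬ AlgebraicIndependent k₀ ![(f : M), (g : M)]

/-- MSU. Finitely many elements of `K₁` and `k₁` lie in some `M = K₀ L`, `L / k₀` a function field. Deps: none.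

Proof. Write the elements of `K₁` as fractions of sums `∑ r_i c_i` (`gen`); `L = k₀(t, the c_i, the given elements)`, an
intermediate field of `k₁ / k₀`, finite over `k₀⟮t⟯`; `M` = the subfield of `K₁` generated by `K₀` and `L`. `ld` is
inherited, `gen`: the set of fractions is a subfield. -/
def SpecMSU : Prop := ∀ (k₀ K₀ k₁ K₁ : Type) [Field k₀] [Field K₀] [Field k₁] [Field K₁]
  [Algebra k₀ K₀] [Algebra k₀ k₁] [Algebra k₀ K₁] [Algebra K₀ K₁] [Algebra k₁ K₁]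
  [IsScalarTower k₀ K₀ K₁] [IsScalarTower k₀ k₁ K₁], CExt k₀ K₀ k₁ K₁ →
  ∀ t : k₁, Transcendental k₀ t → Algebra.IsAlgebraic k₀⟮t⟯ k₁ →
  ∀ (m n : ℕ) (a : Fin m → K₁) (c : Fin n → k₁),
    ∃ (L M : Type) (_ : Field L) (_ : Field M) (_ : Algebra k₀ L) (_ : Algebra k₀ M)
      (_ : Algebra K₀ M) (_ : Algebra L M) (_ : IsScalarTower k₀ K₀ M) (_ : IsScalarTower k₀ L M)
      (iL : L →+* k₁) (iM : M →+* K₁) (t' : L) (a' : Fin m → M) (c' : Fin n → L),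
      CExt k₀ K₀ L M ∧ Fun1 k₀ L ∧ Transcendental k₀ t' ∧ iL t' = t ∧
        (∀ x : k₀, iL (algebraMap k₀ L x) = algebraMap k₀ k₁ x) ∧
        (∀ y : K₀, iM (algebraMap K₀ M y) = algebraMap K₀ K₁ y) ∧
        (∀ y : L, iM (algebraMap L M y) = algebraMap k₁ K₁ (iL y)) ∧
        (∀ i, iM (a' i) = a i) ∧ ∀ i, iL (c' i) = c i

/-- IND. `f` and `g` are algebraically dependent over `k₀`. Deps: IND0, MSU, GRG, RGD, DER, DZ, DUQ, CEB.

Proof. `G dz` is regular (GRG), `G = ∑ h_i λ_i` (RGD). MSU for `f`, `g` and the `λ_i` gives `L`, `M`; DER and DZ for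
`(k₀, K₀, L, M)` give derivations of `M` compatible with those of `K₁` (DUQ: agreement on `K₀` and on `L`, and `L` is
algebraic over `k₀⟮t'⟯`), so the equation for `G` holds in `M`; IND0 (`iM` injective). -/
def SpecIND : Prop := ∀ (k₀ K₀ k₁ K₁ : Type) [Field k₀] [Field K₀] [Field k₁] [Field K₁]
  [Algebra k₀ K₀] [Algebra k₀ k₁] [Algebra k₀ K₁] [Algebra K₀ K₁] [Algebra k₁ K₁]
  [IsScalarTower k₀ K₀ K₁] [IsScalarTower k₀ k₁ K₁] [IsAlgClosed k₀] [CharZero k₀] [IsAlgClosed k₁],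
  CExt k₀ K₀ k₁ K₁ → Fun1 k₀ K₀ → ∀ t : k₁, Transcendental k₀ t → Algebra.IsAlgebraic k₀⟮t⟯ k₁ →
    ∀ f g : K₁ˣ, TorTameF k₁ (sym f g) → ¬ AlgebraicIndependent k₀ ![(f : K₁), (g : K₁)]

/-! ## One step -/

/-- T1. Deps: JRG, RGF, ARD, LSD, CEB.

Proof. (a) `c_v = v h₀ * D (v ξ)`. For a good arc `ι` (ARD second part): `ι (c_v) = j (h₀) * X (j ξ)`, `j = ι ∘ v` over
`k₀`, `X = cS D₀ - C (D₀ c) dS`, `X O ⊂ O`, `X` vanishes on `k₀`: JRG (a): in `O`. RGF. (b) Here `c = 0`, `X = cS D₀` preserves the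
maximal ideal, JRG (c): `ι (c_v) = C c_v` is in the maximal ideal. -/
def SpecT1 : Prop := ∀ (k₀ K₀ k₁ K₁ E₀ : Type) [Field k₀] [Field K₀] [Field k₁] [Field K₁]
  [Field E₀] [Algebra k₀ K₀] [Algebra k₀ k₁] [Algebra k₀ K₁] [Algebra K₀ K₁] [Algebra k₁ K₁]
  [Algebra k₀ E₀] [IsScalarTower k₀ K₀ K₁] [IsScalarTower k₀ k₁ K₁] [IsAlgClosed k₀] [CharZero k₀]
  [IsAlgClosed k₁], CExt k₀ K₀ k₁ K₁ → Fun1 k₀ K₀ → Fun1 k₀ E₀ →
  ∀ (t : k₁) (D : Derivation ℤ K₁ K₁) (D₀ : Derivation ℤ k₁ k₁), IsDt k₀ K₀ k₁ t D D₀ →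
    ∀ (v : E₀ →+* K₁), (∀ c : k₀, v (algebraMap k₀ E₀ c) = algebraMap k₀ K₁ c) →
      ∀ ξ h₀ : E₀, IsRegD k₀ ξ h₀ →
        (∃ c : k₁, algebraMap k₁ K₁ c = v h₀ * D (v ξ)) ∧
        ∀ ι : K₁ →+* LaurentSeries k₁, IsOver k₁ ι →
          (∃ ϖ : K₀, ι (algebraMap K₀ K₁ ϖ) = sv k₁) →
          (∃ u : E₀ˣ, (ι (v (u : E₀))).order ≠ 0) → v h₀ * D (v ξ) = 0

/-- SUB. The field generated by `f` and `g`. Deps: LDG, CEB.

Proof. `E₀ = k₀(f, g) ⊂ K₁`, `E₁ = k₁(f, g)`, intermediate fields of `K₁ / k₀`, `K₁ / k₁`. `f` is transcendental over `k₁`,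
`g` is algebraic over `k₀⟮f⟯` (as `f, g` are not algebraically independent over `k₀` and `f` is transcendental over
`k₀`). LDG with `x = f`; `gen` for `E₁`: the fractions of `Algebra.adjoin k₁ (range E₀)` are a field. `K₁` is finite over
`k₁⟮f⟯` (CEB: `Fun1 k₁ K₁`), so over `E₁`. -/
def SpecSUB : Prop := ∀ (k₀ k₁ K₁ : Type) [Field k₀] [Field k₁] [Field K₁]
  [Algebra k₀ k₁] [Algebra k₀ K₁] [Algebra k₁ K₁] [IsScalarTower k₀ k₁ K₁] [IsAlgClosed k₀]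
  [CharZero k₀], Fun1 k₁ K₁ → ∀ f g : K₁ˣ, Transcendental k₁ (f : K₁) →
    ¬ AlgebraicIndependent k₀ ![(f : K₁), (g : K₁)] →
    ∃ (E₀ E₁ : Type) (_ : Field E₀) (_ : Field E₁) (_ : Algebra k₀ E₀) (_ : Algebra k₀ E₁)
      (_ : Algebra E₀ E₁) (_ : Algebra k₁ E₁) (_ : Algebra E₁ K₁) (_ : IsScalarTower k₀ E₀ E₁)
      (_ : IsScalarTower k₀ k₁ E₁) (_ : IsScalarTower k₁ E₁ K₁) (F G : E₀ˣ),
      CExt k₀ E₀ k₁ E₁ ∧ Fun1 k₀ E₀ ∧ Fun1 k₁ E₁ ∧ FiniteDimensional E₁ K₁ ∧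
      Transcendental k₀ (F : E₀) ∧
      IntermediateField.adjoin k₀ ({(F : E₀), (G : E₀)} : Set E₀) = ⊤ ∧
      um E₁ K₁ (um E₀ E₁ F) = f ∧ um E₁ K₁ (um E₀ E₁ G) = g

/-- FLX. The involution of `E₁`. Deps: T1, RGD, RRL, DGP, FLP, ARC, AV, CAR, CEB, DUQ, LSD.

Setting: `K₁ = K₀ k₁`, `E₁ = E₀ k₁ ⊂ K₁`, `D` the derivation of `K₁`, `D ξ ≠ 0`, `E₁` not rational.

Proof. `u : E₀ → K₁` the inclusion. If `IsRegD k₁ ξ h` on `E₁` then `h = ∑ r_i c_i` with regular `r_i` on `E₀` (RGD for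
`(k₀, E₀, k₁, E₁)`), so `h * D ξ ∈ k₁` (T1 (a), `v` = inclusion): any two regular `h` are proportional; as `E₁` is not rational, RRL (i)
gives a regular `h ≠ 0`, so there is `h₀ ∈ E₀`, `h₀ ≠ 0`, `IsRegD k₀ ξ h₀`. Choose a place of `K₀ / k₀` (`specFNV`), its arc `ι₀`
(ARC), `ι` from CAR: `IsOver k₁ ι`, `ι ϖ = sv`. `A` = the place of `E₁ / k₁` of `ι` restricted to `E₁` (AV: not all orders are
zero, by the second part of AV, since `E₁ ≠ k₁`). `B` = the place of `E₁` of the extension (CAR for `(k₀, E₀, k₁, E₁)`)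
of an arc of a place of `E₀ / k₀` (ARC, AV). If `A = B`: `ι` is not of order zero on `E₀`, so `h₀ * D ξ = 0` (T1 (b)),
contradiction. RRL (ii): `τ` with at most simple poles at `A`, `B`; DGP: `[E₁ : k₁(τ)] ≤ 2`, and it is not `≤ 1` as `E₁` is not
rational: so `= 2` and both are poles. FLP: `ε`, `A ∘ ε = B`. `v` = `E₀ → E₁ → E₁ → K₁`, the middle map `ε`. Take `y ∈ E₀`
with `B y > 0`: `A (ε y) > 0`, so `ι (v y)` has positive order; T1 (b): `v h₀ * D (v ξ) = 0`, `v h₀ ≠ 0`: `D (v ξ) = 0`.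
So `D ∘ v = 0` (`E₀` is algebraic over `k₀⟮ξ⟯`). -/
def SpecFLX : Prop := ∀ (k₀ K₀ k₁ K₁ E₀ E₁ : Type) [Field k₀] [Field K₀] [Field k₁] [Field K₁]
  [Field E₀] [Field E₁] [Algebra k₀ K₀] [Algebra k₀ k₁] [Algebra k₀ K₁] [Algebra K₀ K₁]
  [Algebra k₁ K₁] [Algebra k₀ E₀] [Algebra k₀ E₁] [Algebra E₀ E₁] [Algebra k₁ E₁] [Algebra E₁ K₁]
  [IsScalarTower k₀ K₀ K₁] [IsScalarTower k₀ k₁ K₁] [IsScalarTower k₀ E₀ E₁]
  [IsScalarTower k₀ k₁ E₁] [IsScalarTower k₁ E₁ K₁] [IsAlgClosed k₀] [CharZero k₀]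
  [IsAlgClosed k₁], CExt k₀ K₀ k₁ K₁ → Fun1 k₀ K₀ → CExt k₀ E₀ k₁ E₁ → Fun1 k₀ E₀ → Fun1 k₁ E₁ →
  FiniteDimensional E₁ K₁ →
  (∀ τ : E₁, Transcendental k₁ τ → k₁⟮τ⟯ ≠ ⊤) →
  ∀ (t : k₁) (D : Derivation ℤ K₁ K₁) (D₀ : Derivation ℤ k₁ k₁), IsDt k₀ K₀ k₁ t D D₀ →
    ∀ ξ : E₀, Transcendental k₀ ξ → D (algebraMap E₁ K₁ (algebraMap E₀ E₁ ξ)) ≠ 0 →
      ∃ ε : E₁ ≃+* E₁, (∀ c : k₁, ε (algebraMap k₁ E₁ c) = algebraMap k₁ E₁ c) ∧
        (∀ y : E₀, D (algebraMap E₁ K₁ (ε (algebraMap E₀ E₁ y))) = 0) ∧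
        ∀ f g : E₁ˣ, TorTameF k₁ (sym f g) → ∃ m : ℕ, 0 < m ∧ ∃ γ : K2 k₁,
          m • (sym f g + sym (Units.map (ε : E₁ →* E₁) f) (Units.map (ε : E₁ →* E₁) g)) =
            mk2 k₁ E₁ γ

/-- CORE1. One parameter. Deps: IND, SUB, FLX, C6, DER, TMD, CEB, CST. Uses `CY.mil`.

Proof. If `f` is constant (in `k₁`): for every place `v` of `K₁ / k₁` the tame symbol `f ^ (v g)` is torsion; either `g` is
constant, and `sym f g` comes from `K2 k₁`, or `g` has a zero and `f` is a root of unity, so `sym f g` is torsion; take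
`f' = g' = 1`. The same for `g`. Now let `f`, `g` be transcendental over `k₁`. IND, SUB: `E₀`, `E₁`. If `E₁ = k₁(τ)` then
`sym F G` has torsion tame symbols on `E₁` (TMD), so a multiple comes from `K2 k₁` (`mil`); `f' = g' = 1`. Otherwise `D` from
DER. If `D F = D G = 0` then `f`, `g` are in `K₀` (kernel), `f' = f`, `g' = g`, C6. If not: `ξ = F` or `G` with `D ξ ≠ 0` (it
is transcendental over `k₀`), FLX: `ε`; `ε F`, `ε G` are in the kernel of `D`, so in `K₀`; `f' = (ε F)⁻¹`, `g' = ε G`: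
`sym f' g' = - sym (ε F) (ε G)` in `K2 K₁` (`mk2 E₁ K₁`). Its tame symbols on `K₁`: `m (sym f g - sym f' g')` comes from
`K2 k₁`, where tame symbols vanish, so they are torsion; C6. -/
def SpecCORE1 : Prop := ∀ (k₀ K₀ k₁ K₁ : Type) [Field k₀] [Field K₀] [Field k₁] [Field K₁]
  [Algebra k₀ K₀] [Algebra k₀ k₁] [Algebra k₀ K₁] [Algebra K₀ K₁] [Algebra k₁ K₁]
  [IsScalarTower k₀ K₀ K₁] [IsScalarTower k₀ k₁ K₁] [IsAlgClosed k₀] [CharZero k₀] [IsAlgClosed k₁],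
  CExt k₀ K₀ k₁ K₁ → Fun1 k₀ K₀ → ∀ t : k₁, Transcendental k₀ t → Algebra.IsAlgebraic k₀⟮t⟯ k₁ →
    ∀ f g : K₁ˣ, TorTameF k₁ (sym f g) → ∃ f' g' : K₀ˣ, TorTameF k₀ (sym f' g') ∧
      EquivK k₁ (sym f g) (sym (um K₀ K₁ f') (um K₀ K₁ g'))

/-- CCH. The chain of constant extensions. Deps: LDG, CEB, CES.

Proof. `k'` = the algebraic closure of `k₀⟮c⟯` in `k₁` (an intermediate field of `k₁ / k₀`, algebraically closed), `K'` = the
subfield of `K₁` generated by `K₀` and `k'`. `CExt k₀ K₀ k' K'`: `ld` is inherited, the fractions of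
`Algebra.adjoin k' (range K₀)` are a field. `Fun1 k' K'` by CEB. `CExt k' K' k₁ K₁`: `ld` by LDG for `(k', K', k₁, K₁)` and `x = z ∈ K₀`
transcendental over `k₀`, which is transcendental over `k₁` (CEB); `gen` is clear. -/
def SpecCCH : Prop := ∀ (k₀ K₀ k₁ K₁ : Type) [Field k₀] [Field K₀] [Field k₁] [Field K₁]
  [Algebra k₀ K₀] [Algebra k₀ k₁] [Algebra k₀ K₁] [Algebra K₀ K₁] [Algebra k₁ K₁]
  [IsScalarTower k₀ K₀ K₁] [IsScalarTower k₀ k₁ K₁] [IsAlgClosed k₀] [CharZero k₀] [IsAlgClosed k₁],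
  CExt k₀ K₀ k₁ K₁ → Fun1 k₀ K₀ → ∀ c : k₁, Transcendental k₀ c →
    ∃ (k' K' : Type) (_ : Field k') (_ : Field K') (_ : Algebra k₀ k') (_ : Algebra k₀ K')
      (_ : Algebra K₀ K') (_ : Algebra k' K') (_ : Algebra k' k₁) (_ : Algebra k' K₁)
      (_ : Algebra K' K₁) (_ : IsScalarTower k₀ K₀ K') (_ : IsScalarTower k₀ k' K')
      (_ : IsScalarTower k' K' K₁) (_ : IsScalarTower k' k₁ K₁) (_ : IsAlgClosed k')
      (_ : CharZero k') (c' : k'), CExt k₀ K₀ k' K' ∧ CExt k' K' k₁ K₁ ∧ Fun1 k' K' ∧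
        algebraMap k' k₁ c' = c ∧ Transcendental k₀ c' ∧ Algebra.IsAlgebraic k₀⟮c'⟯ k' ∧
        ∀ y : K₀, algebraMap K' K₁ (algebraMap K₀ K' y) = algebraMap K₀ K₁ y

/-- CORE. The general case. Deps: CORE1, CCH, C6, CEB.

Proof. `f`, `g` are in the subfield of `K₁` generated by `K₀` and finitely many `c_1, .., c_r` of `k₁` (`gen`). Induction on
`r` (for all `k₀`, `K₀`): if `r = 0`, `f`, `g` are in `K₀`, C6. If `c_1` is in `k₀` (`con`) drop it. Otherwise CCH with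
`c = c_1`; the claim for `(k', K', k₁, K₁)` and `c_2, .., c_r` gives `f''`, `g''` in `K'` with torsion tame symbols over `k'`;
CORE1 for `(k₀, K₀, k', K')`, `t = c'`, gives `f'`, `g'`. The relation in `K2 K'` is mapped to `K2 K₁` (`mk2`). -/
def SpecCORE : Prop := ∀ (k₀ K₀ k₁ K₁ : Type) [Field k₀] [Field K₀] [Field k₁] [Field K₁]
  [Algebra k₀ K₀] [Algebra k₀ k₁] [Algebra k₀ K₁] [Algebra K₀ K₁] [Algebra k₁ K₁]
  [IsScalarTower k₀ K₀ K₁] [IsScalarTower k₀ k₁ K₁] [IsAlgClosed k₀] [CharZero k₀] [IsAlgClosed k₁],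
  CExt k₀ K₀ k₁ K₁ → Fun1 k₀ K₀ → ∀ f g : K₁ˣ, TorTameF k₁ (sym f g) →
    ∃ f' g' : K₀ˣ, TorTameF k₀ (sym f' g') ∧
      EquivK k₁ (sym f g) (sym (um K₀ K₁ f') (um K₀ K₁ g'))

end MP743d1e.BD
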