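import Pool.Agent.Lib.MP_743d1e_nt.BD.SpecB

/-!
# Theorem BD: modules, part C (ultraproducts, the theorems A, B, number fields)

Conventions as in `SpecA.lean`. `U` an ultrafilter on `ℕ`, `UP U k` the ultraproduct of the fields `k n` (`Defs.lean`:
`UP.mk`, `UP.mk_eq`, `UP.mk_eq_zero`, `UP.mk_surj`, `UP.algebraMap_mk`), `Kb U k z` the elements algebraic over
`(UP U k)⟮z*⟯`.
-/

set_option autoImplicit false

namespace MP743d1e.BD

open scoped BigOperators
open Polynomial IntermediateField MP743d1e.CY MP743d1e.GX MP743d1e.Integ Filter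

/-! ## Ultraproducts -/

/-- UAC. Deps: none.

Proof. A monic polynomial of degree `r > 0` over `UP U k` is the class of monic polynomials of degree `r` over the `k n`,
which have roots (`IsAlgClosed.of_exists_root`). If the natural number `m > 0` is zero in `UP U k` it is zero in some
`k n`. -/
def SpecUAC : Prop := ∀ (U : Ultrafilter ℕ) (k : ℕ → Type) [∀ n, Field (k n)]
  [∀ n, IsAlgClosed (k n)] [∀ n, CharZero (k n)], IsAlgClosed (UP U k) ∧ CharZero (UP U k)

/-- UTR. Deps: none.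

Proof. A polynomial relation of `UP.mk U z` over `UP U k` is the class of relations of the `z n`. -/
def SpecUTR : Prop := ∀ (U : Ultrafilter ℕ) (k K : ℕ → Type) [∀ n, Field (k n)] [∀ n, Field (K n)]
  [∀ n, Algebra (k n) (K n)] (z : ∀ n, K n),
  (∀ᶠ n in (U : Filter ℕ), Transcendental (k n) (z n)) → Transcendental (UP U k) (UP.mk U z)

/-- UPO. Ultraproducts of polynomials in two variables of bounded degrees. Deps: none.

Proof. Finite sums `∑_{i ≤ B} ∑_{j ≤ A}`. -/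
def SpecUPO : Prop := ∀ (U : Ultrafilter ℕ) (k K : ℕ → Type) [∀ n, Field (k n)] [∀ n, Field (K n)]
  [∀ n, Algebra (k n) (K n)],
  (∀ (A B : ℕ) (P : ∀ n, (k n)[X][X]), (∀ᶠ n in (U : Filter ℕ), BiDeg A B (P n)) →
    ∃ P' : (UP U k)[X][X], BiDeg A B P' ∧
      (∀ i j, (P'.coeff i).coeff j = UP.mk U fun n => ((P n).coeff i).coeff j) ∧
      ∀ x y : ∀ n, K n, evF (UP.mk U x) (UP.mk U y) P' = UP.mk U fun n => evF (x n) (y n) (P n)) ∧
  ∀ P' : (UP U k)[X][X], ∃ (A B : ℕ) (P : ∀ n, (k n)[X][X]), (∀ n, BiDeg A B (P n)) ∧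
      (∀ i j, (P'.coeff i).coeff j = UP.mk U fun n => ((P n).coeff i).coeff j) ∧
      ∀ x y : ∀ n, K n, evF (UP.mk U x) (UP.mk U y) P' = UP.mk U fun n => evF (x n) (y n) (P n)

/-- UAL. Functions of bounded degree are algebraic over each other. Deps: BID, UPO, UTR.

Proof. If `x n` is constant for almost all `n`, `UP.mk U x` is in the image of `UP U k`. Otherwise BID: `P n ≠ 0` with
`evF (x n) (z n) (P n) = 0`, `BiDeg d d`; UPO: `P' ≠ 0` (some coefficient `i, j ≤ d` is nonzero for almost all `n`) and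
`evF x* z* P' = 0`; as `z*` is transcendental, `P'(X, z*) ≠ 0`. -/
def SpecUAL : Prop := ∀ (U : Ultrafilter ℕ) (k K : ℕ → Type) [∀ n, Field (k n)] [∀ n, Field (K n)]
  [∀ n, Algebra (k n) (K n)] [∀ n, IsAlgClosed (k n)], (∀ n, Fun1 (k n) (K n)) →
  ∀ (d : ℕ) (x z : ∀ n, K n), (∀ᶠ n in (U : Filter ℕ), Transcendental (k n) (z n)) →
    (∀ n, DegLE (k n) d (z n)) → (∀ n, DegLE (k n) d (x n)) →
    IsAlgebraic (UP U k)⟮UP.mk U z⟯ (UP.mk U x)

/-- UMP. The degree over `z*` is bounded. Deps: MPB, BDV, UPO, UTR.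

Proof. `Q' ≠ 0` over `UP U k` with `evF z* h* Q' = 0`; `Q n` from UPO, `P n` from MPB for `(z n, h n)`: `P n ∣ Q n`, so BDV
bounds its degrees, and its degree in `Y` is `≤ [K n : k n (z n)] ≤ r`. UPO: `P' ≠ 0`, `evF z* h* P' = 0`, of degree
`≤ r` in `Y`, and `P'(z*, Y) ≠ 0`. -/
def SpecUMP : Prop := ∀ (U : Ultrafilter ℕ) (k K : ℕ → Type) [∀ n, Field (k n)] [∀ n, Field (K n)]
  [∀ n, Algebra (k n) (K n)], (∀ n, Fun1 (k n) (K n)) →
  ∀ (r : ℕ) (z h : ∀ n, K n), (∀ᶠ n in (U : Filter ℕ), Transcendental (k n) (z n)) →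
    (∀ n, DegLE (k n) r (z n)) → IsAlgebraic (UP U k)⟮UP.mk U z⟯ (UP.mk U h) →
    (minpoly (UP U k)⟮UP.mk U z⟯ (UP.mk U h)).natDegree ≤ r

/-- UKB. `Kb U k z` is a function field and degrees do not increase. Deps: UAC, UTR, UAL, UMP, BDF.

Proof. UMP, BDF: `Kb U k z` is finite over `(UP U k)⟮z*⟯`. For `x`: `x*` is in `Kb U k z` (UAL). If `x n` is constant for almost
all `n`, then `x*` is in `UP U k`, over which `Kb U k z` is not finite: `finrank = 0`. Otherwise `z*` is algebraic over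
`(UP U k)⟮x*⟯` (UAL), all elements of `Kb U k z` are, of degree `≤ d` by UMP with `x` for `z`; BDF. -/
def SpecUKB : Prop := ∀ (U : Ultrafilter ℕ) (k K : ℕ → Type) [∀ n, Field (k n)] [∀ n, Field (K n)]
  [∀ n, Algebra (k n) (K n)] [∀ n, IsAlgClosed (k n)] [∀ n, CharZero (k n)],
  (∀ n, Fun1 (k n) (K n)) →
  ∀ (d : ℕ) (z : ∀ n, K n), (∀ᶠ n in (U : Filter ℕ), Transcendental (k n) (z n)) →
    (∀ n, DegLE (k n) d (z n)) →
    Fun1 (UP U k) (Kb U k z) ∧
    ∀ x : ∀ n, K n, (∀ n, DegLE (k n) d (x n)) →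
      ∃ x' : Kb U k z, (x' : UP U K) = UP.mk U x ∧ DegLE (UP U k) d x'

/-- UPL. Places of `Kb U k z` come from places of the `K n`. Deps: ING, UPO, UTR, UAL, UAC.

Proof. If `h n = c n` for almost all `n`: `x n` has a zero (`specFNV`). Otherwise suppose that for almost all `n` there is no such
`w`: `w n = (h n - c n)⁻¹` has no poles at the zeros of `x n`, `RC (k n) (x n) 0 (w n)`. `w*` is in `Kb U k z`, algebraic over
`(UP U k)⟮z*⟯`, so over `(UP U k)⟮x*⟯` (UAL for `(z, x)`): `evF x* w* Q' = 0`, `Q' ≠ 0`, `Q n` from UPO. ING: `P n` with bounded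
degrees, of constant degree `r` in `Y` for almost all `n`, leading coefficient with constant coefficient `1`. UPO: `P'`,
`evF x* w* P' = 0`, the coefficient of `Y ^ r` has constant coefficient `1` and the higher ones are zero (`r > 0`, since
`x*` is transcendental). So, as `Pos v x'`, `w'` is integral over the valuation ring of `v`, `NN v w'`; but
`Pos v (h' - c*)`, `h' ≠ c*`: contradiction. -/
def SpecUPL : Prop := ∀ (U : Ultrafilter ℕ) (k K : ℕ → Type) [∀ n, Field (k n)] [∀ n, Field (K n)]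
  [∀ n, Algebra (k n) (K n)] [∀ n, IsAlgClosed (k n)] [∀ n, CharZero (k n)],
  (∀ n, Fun1 (k n) (K n)) →
  ∀ (d : ℕ) (z x h : ∀ n, K n) (c : ∀ n, k n),
    (∀ᶠ n in (U : Filter ℕ), Transcendental (k n) (z n)) → (∀ n, DegLE (k n) d (z n)) →
    (∀ᶠ n in (U : Filter ℕ), Transcendental (k n) (x n)) → (∀ n, DegLE (k n) d (x n)) →
    ∀ x' h' : Kb U k z, (x' : UP U K) = UP.mk U x → (h' : UP U K) = UP.mk U h →
      ∀ v : DVal (Kb U k z), GeoF (UP U k) v → Pos v x' →
        Pos v (h' - algebraMap (UP U k) (Kb U k z) (UP.mk U c)) →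
        ∀ᶠ n in (U : Filter ℕ), ∃ w : DVal (K n), GeoF (k n) w ∧ Pos w (x n) ∧
          Pos w (h n - algebraMap (k n) (K n) (c n))

/-- UTM. Transfer of the tame symbols. Deps: UPL, UKB, UAC, VDG, RES.

Proof. `v` a place of `Kb U k z`, `a = v F`, `b = v G`, not both zero, `m = gcd(a, b)`, `H = F ^ (b / m) G ^ (-a / m)`, `v H = 0`,
`c* = [c n]` its residue (RES), not zero; the tame unit is `± H ^ m`. `X` = one of `F ^ (±1)`, `G ^ (±1)` with
`v X > 0`; it is not in `UP U k`, so `x n` (`= f n ^ (±1)` or `g n ^ (±1)`) is transcendental for almost all `n`, of degree `≤ d`.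
UPL: for almost all `n` there is `w` with `w (x n) > 0`, `Pos w (h n - c n)`, `h n = f n ^ (b / m) g n ^ (-a / m)`. So `w (h n) = 0`,
`(w (f n), w (g n)) = e (a / m, b / m)`, `e ≠ 0`, `|e| ≤ d` (VDG), the tame unit at `w` is `± (h n) ^ e`, and
`(c n) ^ (2 N e) = 1`, `(c n) ^ (2 N d!) = 1`. So `c* ^ (2 N d!) = 1`. -/
def SpecUTM : Prop := ∀ (U : Ultrafilter ℕ) (k K : ℕ → Type) [∀ n, Field (k n)] [∀ n, Field (K n)]
  [∀ n, Algebra (k n) (K n)] [∀ n, IsAlgClosed (k n)] [∀ n, CharZero (k n)],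
  (∀ n, Fun1 (k n) (K n)) →
  ∀ (d N : ℕ) (z : ∀ n, K n), (∀ᶠ n in (U : Filter ℕ), Transcendental (k n) (z n)) →
    (∀ n, DegLE (k n) d (z n)) →
    ∀ (f g : ∀ n, (K n)ˣ), (∀ n, DegLE (k n) d (f n : K n)) → (∀ n, DegLE (k n) d (g n : K n)) →
      (∀ n, TameN (k n) N (f n) (g n)) →
      ∀ F G : (Kb U k z)ˣ, ((F : Kb U k z) : UP U K) = UP.mk U (fun n => (f n : K n)) →
        ((G : Kb U k z) : UP U K) = UP.mk U (fun n => (g n : K n)) →
        TameN (UP U k) (2 * N * d.factorial) F G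

/-- UK2. Transfer of relations in `K2`. Deps: none.

Proof. `F ↦ (f n)` gives a homomorphism from `K2 (UP U K)` to the quotient of `∀ n, K2 (K n)` by the sequences that are
almost everywhere zero, `sym F G ↦ (sym (f n) (g n))` (`K2.lift`; a unit of `UP U K` is the class of a sequence of units, unique
almost everywhere). The image of `mk2 γ` is the class of some `(mk2 (γ n))`. -/
def SpecUK2 : Prop := ∀ (U : Ultrafilter ℕ) (k K : ℕ → Type) [∀ n, Field (k n)] [∀ n, Field (K n)]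
  [∀ n, Algebra (k n) (K n)] (m : ℕ) (f g f' g' : ∀ n, (K n)ˣ) (F G F' G' : (UP U K)ˣ),
  (F : UP U K) = UP.mk U (fun n => (f n : K n)) → (G : UP U K) = UP.mk U (fun n => (g n : K n)) →
  (F' : UP U K) = UP.mk U (fun n => (f' n : K n)) →
  (G' : UP U K) = UP.mk U (fun n => (g' n : K n)) →
  (∃ γ : K2 (UP U k), m • (sym F G - sym F' G') = mk2 (UP U k) (UP U K) γ) →
  ∀ᶠ n in (U : Filter ℕ), ∃ γ : K2 (k n),
    m • (sym (f n) (g n) - sym (f' n) (g' n)) = mk2 (k n) (K n) γ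

/-- UCE. The ultrapower. Deps: UKB, UTR, UAC.

Proof. `ld`: let `∑ r_i c_i = 0`, `e` a basis of the `k`-space spanned by the `r_i ∈ K`: `∑ λ_j e_j = 0` with
`λ_j = ∑ a_ij c_i ∈ UP`; for almost all `n` `∑ λ_{j,n} e_j = 0` in `K`, so `λ_j = 0`, so all `a_ij = 0`. `gen`: a basis `e` of
`K / k⟮z⟯` is linearly independent over `(UP)⟮z*⟯` (clear denominators, almost all `n`), and
`[Kb : (UP)⟮z*⟯] ≤ [K : k(z)]` (UKB with `d = [K : k(z)]`), so it is a basis of `Kb`; every element of `Kb` is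
`∑ p_i(z) e_i / q(z)`. -/
def SpecUCE : Prop := ∀ (U : Ultrafilter ℕ) (k K : Type) [Field k] [Field K] [Algebra k K]
  [IsAlgClosed k] [CharZero k], Fun1 k K → ∀ z : K, Transcendental k z →
    ∃ (_ : Algebra k (UP U fun _ => k)) (_ : Algebra k (Kb U (fun _ => k) fun _ => z))
      (_ : Algebra K (Kb U (fun _ => k) fun _ => z))
      (_ : IsScalarTower k K (Kb U (fun _ => k) fun _ => z))
      (_ : IsScalarTower k (UP U fun _ => k) (Kb U (fun _ => k) fun _ => z)),
      (∀ c : k, algebraMap k (UP U fun _ => k) c = UP.mk U fun _ => c) ∧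
      (∀ y : K, ((algebraMap K (Kb U (fun _ => k) fun _ => z) y :
        Kb U (fun _ => k) fun _ => z) : UP U fun _ => K) = UP.mk U fun _ => y) ∧
      CExt k K (UP U fun _ => k) (Kb U (fun _ => k) fun _ => z)

/-- ULP. The limit of a sequence of pairs on one curve. Deps: UAC, UCE, UKB, UTM, UK2.

Proof. `U = hyperfilter ℕ`, `z` any transcendental element, `d' = max d [K : k(z)]`. `k₁ = UP U (fun _ => k)`,
`K₁ = Kb U (fun _ => z)` with the instances of UCE, `F`, `G` the classes of `f`, `g` (UKB), UTM. A relation in `K2 K₁` is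
mapped to `K2 (UP U K)` and UK2 applies; a set of the ultrafilter is infinite. -/
def SpecULP : Prop := ∀ (k K : Type) [Field k] [Field K] [Algebra k K] [IsAlgClosed k] [CharZero k],
  Fun1 k K → ∀ (d N : ℕ), 0 < N → ∀ f g : ℕ → Kˣ, (∀ n, DegLE k d (f n : K)) →
    (∀ n, DegLE k d (g n : K)) → (∀ n, TameN k N (f n) (g n)) →
    ∃ (k₁ K₁ : Type) (_ : Field k₁) (_ : Field K₁) (_ : Algebra k k₁) (_ : Algebra k K₁)
      (_ : Algebra K K₁) (_ : Algebra k₁ K₁) (_ : IsScalarTower k K K₁) (_ : IsScalarTower k k₁ K₁)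
      (_ : IsAlgClosed k₁) (F G : K₁ˣ), CExt k K k₁ K₁ ∧ TorTameF k₁ (sym F G) ∧
        ∀ f' g' : Kˣ, EquivK k₁ (sym F G) (sym (um K K₁ f') (um K K₁ g')) →
          ∀ n₀ : ℕ, ∃ n, n₀ ≤ n ∧ EquivK k (sym (f n) (g n)) (sym f' g')

/-- TA. Theorem A. Deps: ULP, CORE.

Proof. CORE gives `f'`, `g'`, and two different members of the sequence are equivalent to `sym f' g'`. -/
def SpecTA : Prop := ∀ (k K : Type) [Field k] [Field K] [Algebra k K] [IsAlgClosed k] [CharZero k],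
  Fun1 k K → ∀ (d N : ℕ), 0 < N → ∀ f g : ℕ → Kˣ, (∀ n, DegLE k d (f n : K)) →
    (∀ n, DegLE k d (g n : K)) → (∀ n, TameN k N (f n) (g n)) →
    ∃ i j : ℕ, i ≠ j ∧ EquivK k (sym (f i) (g i)) (sym (f j) (g j))

/-- ULB. The limit of a sequence of curves. Deps: UAC, UTR, UKB, UTM, UK2.

Proof. `U = hyperfilter ℕ`, `z n = f n 0`, `k' = UP U k`, `K' = Kb U z`, `F i` the class of `n ↦ f n i`. -/
def SpecULB : Prop := ∀ (k K : ℕ → Type) [∀ n, Field (k n)] [∀ n, Field (K n)]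
  [∀ n, Algebra (k n) (K n)] [∀ n, IsAlgClosed (k n)] [∀ n, CharZero (k n)],
  (∀ n, Fun1 (k n) (K n)) → ∀ (d N : ℕ) (f g : ∀ n, ℕ → (K n)ˣ),
    (∀ n i, DegLE (k n) d (f n i : K n)) → (∀ n i, DegLE (k n) d (g n i : K n)) →
    (∀ n i, TameN (k n) N (f n i) (g n i)) → (∀ n, Transcendental (k n) (f n 0 : K n)) →
    ∃ (k' K' : Type) (_ : Field k') (_ : Field K') (_ : Algebra k' K') (_ : IsAlgClosed k')
      (_ : CharZero k') (F G : ℕ → K'ˣ), Fun1 k' K' ∧ (∀ i, DegLE k' d (F i : K')) ∧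
        (∀ i, DegLE k' d (G i : K')) ∧ (∀ i, TameN k' (2 * N * d.factorial) (F i) (G i)) ∧
        ∀ i j, EquivK k' (sym (F i) (G i)) (sym (F j) (G j)) →
          ∀ n₀ : ℕ, ∃ n, n₀ ≤ n ∧ EquivK (k n) (sym (f n i) (g n i)) (sym (f n j) (g n j))

/-- TB. Theorem B. Deps: TA, ULB, CST.

Proof. Otherwise for every `n` there are `k n`, `K n` and `n + 2` pairwise inequivalent pairs. One of the first two has `f` not
constant (CST: otherwise both symbols are equivalent to zero); exchange so that it is the pair `0`; extend to all `i` by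
repeating the pair `0`. ULB, TA: `i ≠ j` and `n ≥ i, j` with equivalent pairs, contradiction. -/
def SpecTB : Prop := ∀ d N : ℕ, 0 < N → ∃ C : ℕ, ∀ (k K : Type) [Field k] [Field K] [Algebra k K]
  [IsAlgClosed k] [CharZero k], Fun1 k K → ∀ f g : Fin (C + 1) → Kˣ, (∀ i, DegLE k d (f i : K)) →
    (∀ i, DegLE k d (g i : K)) → (∀ i, TameN k N (f i) (g i)) →
    ∃ i j, i ≠ j ∧ EquivK k (sym (f i) (g i)) (sym (f j) (g j))

/-! ## Number fields -/

/-- PHB. Deps: none.

Proof. `φ(p ^ a) ∣ φ(n)` for `p ^ a ∥ n`, so `p ≤ B + 1` and `p ^ a ≤ 2 B`; `n ≤ (2 B) ^ (B + 1)`. -/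
def SpecPHB : Prop := ∀ B : ℕ, ∃ n₀ : ℕ, ∀ n : ℕ, 0 < n → n.totient ≤ B → n ≤ n₀

/-- NFM. The order of a torsion residue class is bounded. Deps: PHB.

Proof. `N = n₀ !`, `n₀` for `B = d D`. `f` is transcendental over `F`; let `v f > 0` (or take `f⁻¹`). `1, u, .., u ^ d` are dependent over
`F⟮f⟯`: `∑ φ_i(f) u ^ i = 0`, `φ_i ∈ F[X]` not all divisible by `X`; so `P = ∑ φ_i(0) T ^ i ≠ 0` has `Pos v (P(u))`. The
`P ∈ F[T]` with `Pos v (P(u))` form a prime ideal `(p)`, `p` irreducible of degree `≤ d`, and it contains `T ^ M - 1`. The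
class `ζ` of `T` in `F' = F[T] / (p)` is a root of unity of some order `n`, `φ(n) = [ℚ(ζ) : ℚ] ≤ [F' : ℚ] ≤ d D`, so
`n ∣ N`, `p ∣ T ^ N - 1`. -/
def SpecNFM : Prop := ∀ D d : ℕ, ∃ N : ℕ, 0 < N ∧ ∀ (F K : Type) [Field F] [NumberField F] [Field K]
  [Algebra F K], Module.finrank ℚ F ≤ D → Fun1 F K → ∀ v : DVal K, GeoF F v → ∀ f u : Kˣ,
    v.ord f ≠ 0 → DegLE F d (f : K) → v.ord u = 0 → (∃ M : ℕ, 0 < M ∧ v.IsOne (u ^ M)) →
    v.IsOne (u ^ N)

/-- NFD. Degrees over the algebraic closure. Deps: none.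

Proof. `f` transcendental over `F`: it is transcendental over `k`; a basis `e` of `K / F⟮f⟯` (`fdx`) spans a ring over `k⟮f⟯`
that contains `K` and `k`, so it is a field, `L`. `f` algebraic over `F`: it is algebraic over `k`, in `k`, and `L` is not finite
over `k` (`finrank = 0`). -/
def SpecNFD : Prop := ∀ (F K k L : Type) [Field F] [Field K] [Field k] [Field L] [Algebra F K]
  [Algebra F k] [Algebra F L] [Algebra K L] [Algebra k L] [IsScalarTower F K L]
  [IsScalarTower F k L] [IsAlgClosure F k], Fun1 F K →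
  IntermediateField.adjoin k (Set.range (algebraMap K L)) = ⊤ →
  Fun1 k L ∧ ∀ (d : ℕ) (f : K), DegLE F d f → DegLE k d (algebraMap K L f)

/-- NFT. Tame symbols over the algebraic closure. Deps: NFM.

Proof. `w` a place of `L / k`. If `w f = w g = 0` the tame unit is `1`. Otherwise `u ↦ w.ord u` on `Kˣ` has image `e ℤ`, `e > 0`, and
`w = e v` on `Kˣ` for a place `v` of `K / F`. `u = tameUnit v (f, g)` has `v u = 0`, `IsOne v (u ^ M)`, so
`IsOne v (u ^ N)` (NFM); the tame unit at `w` is `u ^ e` (up to sign). -/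
def SpecNFT : Prop := ∀ D d : ℕ, ∃ N : ℕ, 0 < N ∧ ∀ (F K k L : Type) [Field F] [NumberField F]
  [Field K] [Field k] [Field L] [Algebra F K] [Algebra F k] [Algebra F L] [Algebra K L]
  [Algebra k L] [IsScalarTower F K L] [IsScalarTower F k L], Module.finrank ℚ F ≤ D → Fun1 F K →
    ∀ f g : Kˣ, DegLE F d (f : K) → DegLE F d (g : K) → TorTameF F (sym f g) →
      TameN k N (um K L f) (um K L g)

end MP743d1e.BD
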