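import Pool.Agent.Lib.MP_743d1e_nt.BD.SpecA
import Pool.Agent.Lib.MP_743d1e_nt.CY.PUK
import Pool.Agent.Lib.MP_743d1e_nt.BD.SpecB
import Pool.Agent.Lib.MP_743d1e_nt.BD.SpecC

section
/-!
# Unramified symbols of functions of bounded degree, module APX: two different places
-/
set_option autoImplicit false

namespace MP743d1e.BD

open MP743d1e MP743d1e.CY MP743d1e.GX MP743d1e.Integ

namespace APXM

/-- a place is determined by its valuation ring -/
theorem sub {K : Type} [Field K] (A B : DVal K) (h : ∀ u : Kˣ, 0 ≤ A.ord u → 0 ≤ B.ord u) :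
    A = B := by
  have h0 : ∀ u : Kˣ, A.ord u = 0 → B.ord u = 0 := by
    intro u hu
    have h1 := h u hu.ge
    have h2 := h u⁻¹ (by rw [A.ord_inv, hu, neg_zero])
    rw [B.ord_inv] at h2
    omega
  obtain ⟨ϖ, hϖ⟩ := A.surj 1
  have hm : 0 ≤ B.ord ϖ := h ϖ (by rw [hϖ]; norm_num)
  have hu : ∀ u : Kˣ, B.ord u = B.ord ϖ * A.ord u := by
    intro u
    have h1 : A.ord (u * ϖ ^ (-A.ord u)) = 0 := by
      rw [A.ord_mul, A.ord_zpow, hϖ]
      ring
    have h2 := h0 _ h1
    rw [B.ord_mul, B.ord_zpow] at h2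
    linarith
  obtain ⟨x, hx⟩ := B.surj 1
  have h1 := hu x
  rw [hx] at h1
  have h2 : B.ord ϖ = 1 := by
    have h3 : B.ord ϖ ∣ 1 := ⟨A.ord x, h1⟩
    rcases Int.isUnit_iff.1 (isUnit_of_dvd_one h3) with h4 | h4
    · exact h4
    · omega
  have h3 : A.ord = B.ord := by
    funext u
    rw [hu u, h2, one_mul]
  cases A
  cases B
  cases h3
  rfl

end APXM

open APXM in
theorem specAPX : SpecAPX := by
  intro K _ A B hAB
  obtain ⟨a, ha, ha'⟩ : ∃ a : Kˣ, 0 ≤ A.ord a ∧ B.ord a < 0 := by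
    by_contra hcon
    push Not at hcon
    exact hAB (sub A B hcon)
  obtain ⟨b, hb, hb'⟩ : ∃ b : Kˣ, 0 ≤ B.ord b ∧ A.ord b < 0 := by
    by_contra hcon
    push Not at hcon
    exact hAB (sub B A hcon).symm
  obtain ⟨w, hw⟩ : ∃ w : Kˣ, w = a * b⁻¹ := ⟨_, rfl⟩
  have hA : 0 < A.ord w := by
    rw [hw, A.ord_mul, A.ord_inv]
    omega
  have hB : B.ord w < 0 := by
    rw [hw, B.ord_mul, B.ord_inv]
    omega
  have hne : (1 : K) + (w : K) ≠ 0 := by
    intro h
    have h1 : w = -1 := by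
      apply Units.ext
      rw [Units.val_neg, Units.val_one]
      linear_combination h
    rw [h1, A.ord_neg_one] at hA
    exact lt_irrefl _ hA
  obtain ⟨y, hy⟩ : ∃ y : Kˣ, (y : K) = 1 + w := ⟨Units.mk0 _ hne, rfl⟩
  have hA1 : A.ord y = 0 := by
    have h1 := A.ord_add 1 w y (by rw [hy, Units.val_one])
    have h2 := A.ord_add y (-w) 1 (by rw [hy, Units.val_neg, Units.val_one]; ring)
    rw [A.ord_one] at h1 h2
    rw [A.ord_neg] at h2
    rcases min_le_iff.1 h2 with h3 | h3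
    · rw [min_eq_left hA.le] at h1
      omega
    · omega
  have hB1 : B.ord y = B.ord w := by
    have h1 := B.ord_add 1 w y (by rw [hy, Units.val_one])
    have h2 := B.ord_add y (-1) w (by rw [hy, Units.val_neg, Units.val_one]; ring)
    rw [B.ord_one, min_eq_right hB.le] at h1
    rw [B.ord_neg, B.ord_one] at h2
    rcases min_le_iff.1 h2 with h3 | h3
    · omega
    · omega
  refine ⟨w * y⁻¹, ?_, ?_⟩
  · rw [A.ord_mul, A.ord_inv, hA1]
    omega
  · rw [B.ord_mul, B.ord_inv, hB1]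
    omega

end MP743d1e.BD
end

section
/-!
# Unramified symbols of functions of bounded degree, module ARC: the expansion at a place
-/
set_option autoImplicit false

namespace MP743d1e.BD

open MP743d1e MP743d1e.CY MP743d1e.GX MP743d1e.Integ Polynomial

namespace ARCM

variable {k K : Type} [Field k] [Field K] [Algebra k K]

/-- `f` is the expansion of `x` in powers of `ϖ` -/
def Rel (v : DVal K) (ϖ : K) (x : K) (f : PowerSeries k) : Prop :=
  ∀ N : ℕ, ∃ (p : k[X]) (y : K), NN v y ∧ x = aeval ϖ p + ϖ ^ N * y ∧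
    (PowerSeries.X : PowerSeries k) ^ N ∣ f - (p : PowerSeries k)

theorem nn_aeval {v : DVal K} (hg : GeoF k v) {ϖ : K} (h : NN v ϖ) (p : k[X]) :
    NN v (aeval ϖ p) := by
  have h1 : aeval ϖ p ∈ Algebra.adjoin k ({ϖ} : Set K) := aeval_mem_adjoin_singleton k ϖ
  exact FNVM.nn_adjoin hg h ⟨_, h1⟩

theorem rel_add {v : DVal K} {ϖ x x' : K} {f f' : PowerSeries k} (h : Rel v ϖ x f)
    (h' : Rel v ϖ x' f') : Rel v ϖ (x + x') (f + f') := by
  intro N
  obtain ⟨p, y, hy, hx, hd⟩ := h N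
  obtain ⟨p', y', hy', hx', hd'⟩ := h' N
  refine ⟨p + p', y + y', nn_add hy hy', ?_, ?_⟩
  · rw [hx, hx', map_add]
    ring
  · rw [Polynomial.coe_add]
    have := dvd_add hd hd'
    convert this using 1
    ring

theorem rel_neg {v : DVal K} {ϖ x : K} {f : PowerSeries k} (h : Rel v ϖ x f) :
    Rel v ϖ (-x) (-f) := by
  intro N
  obtain ⟨p, y, hy, hx, hd⟩ := h N
  refine ⟨-p, -y, nn_neg hy, ?_, ?_⟩
  · rw [hx, map_neg]
    ring
  · rw [Polynomial.coe_neg]
    have := hd.neg_right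
    convert this using 1
    ring

theorem rel_mul {v : DVal K} (hg : GeoF k v) {ϖ x x' : K} (hϖ : NN v ϖ) {f f' : PowerSeries k}
    (h : Rel v ϖ x f) (h' : Rel v ϖ x' f') : Rel v ϖ (x * x') (f * f') := by
  intro N
  obtain ⟨p, y, hy, hx, hd⟩ := h N
  obtain ⟨p', y', hy', hx', hd'⟩ := h' N
  refine ⟨p * p', y * aeval ϖ p' + y' * aeval ϖ p + ϖ ^ N * (y * y'), ?_, ?_, ?_⟩
  · refine nn_add (nn_add (nn_mul hy (nn_aeval hg hϖ _)) (nn_mul hy' (nn_aeval hg hϖ _)))
      (nn_mul ?_ (nn_mul hy hy'))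
    have := nn_prod (v := v) (Finset.range N) (fun _ => ϖ) (fun _ _ => hϖ)
    rwa [Finset.prod_const, Finset.card_range] at this
  · rw [hx, hx', map_mul]
    ring
  · rw [Polynomial.coe_mul]
    have h1 := (hd.mul_right f').add (hd'.mul_left (p : PowerSeries k))
    convert h1 using 1
    ring

theorem rel_C (v : DVal K) (ϖ : K) (c : k) : Rel v ϖ (algebraMap k K c) (PowerSeries.C c) := by
  intro N
  refine ⟨C c, 0, nn_zero, ?_, ?_⟩
  · rw [aeval_C, mul_zero, add_zero]
  · rw [Polynomial.coe_C, sub_self]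
    exact dvd_zero _

theorem rel_X (v : DVal K) (ϖ : K) : Rel (k := k) v ϖ ϖ PowerSeries.X := by
  intro N
  refine ⟨X, 0, nn_zero, ?_, ?_⟩
  · rw [aeval_X, mul_zero, add_zero]
  · rw [Polynomial.coe_X, sub_self]
    exact dvd_zero _

/-- a constant of positive order is zero -/
theorem const_zero {v : DVal K} (hg : GeoF k v) {ϖ : Kˣ} (hϖ : v.ord ϖ = 1) (c : k) (z : K)
    (hz : NN v z) (h : algebraMap k K c = ϖ * z) : c = 0 := by
  by_contra hc
  have h0 : algebraMap k K c ≠ 0 := by rwa [Ne, map_eq_zero]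
  have h1 : v.ord (Units.mk0 _ h0) = 0 := hg _ ⟨c, rfl⟩
  rcases hz with rfl | ⟨u, rfl, hu⟩
  · rw [mul_zero] at h
    exact h0 h
  · have h2 : Units.mk0 _ h0 = ϖ * u := by
      apply Units.ext
      rw [Units.val_mk0, Units.val_mul, h]
    rw [h2, v.ord_mul, hϖ] at h1
    omega

/-- the lowest coefficient -/
theorem coeff_zero_of {v : DVal K} (hg : GeoF k v) {ϖ : Kˣ} (hϖ : v.ord ϖ = 1) (p : k[X]) (z : K)
    (hz : NN v z) (h : aeval (ϖ : K) p = ϖ * z) : p.coeff 0 = 0 := by
  have hn : NN v (ϖ : K) := nn_unit.2 (by rw [hϖ]; norm_num)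
  have h1 := congrArg (aeval (ϖ : K)) (divX_mul_X_add p)
  rw [map_add, map_mul, aeval_X, aeval_C, h] at h1
  refine const_zero hg hϖ (p.coeff 0) (z - aeval (ϖ : K) p.divX) (nn_sub hz (nn_aeval hg hn _)) ?_
  linear_combination h1

theorem uniq0 {v : DVal K} (hg : GeoF k v) {ϖ : Kˣ} (hϖ : v.ord ϖ = 1) (f : PowerSeries k)
    (h : Rel v (ϖ : K) 0 f) : f = 0 := by
  have key : ∀ n, (PowerSeries.X : PowerSeries k) ^ n ∣ f := by
    intro n
    induction n with
    | zero => exact one_dvd _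
    | succ n ih =>
      obtain ⟨p, y, hy, hx, hd⟩ := h (n + 1)
      have h1 : (PowerSeries.X : PowerSeries k) ^ n ∣ (p : PowerSeries k) := by
        have h2 := (pow_dvd_pow (PowerSeries.X : PowerSeries k) (Nat.le_succ n)).trans hd
        have h3 := dvd_sub ih h2
        rwa [sub_sub_cancel] at h3
      have h2 : (X : k[X]) ^ n ∣ p := by
        rw [Polynomial.X_pow_dvd_iff]
        intro m hm
        have := (PowerSeries.X_pow_dvd_iff.1 h1) m hm
        rwa [Polynomial.coeff_coe] at this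
      obtain ⟨q, rfl⟩ := h2
      have h3 : aeval (ϖ : K) q = ϖ * (-y) := by
        rw [map_mul, map_pow, aeval_X] at hx
        have h4 : (ϖ : K) ^ n * (aeval (ϖ : K) q + ϖ * y) = 0 := by
          rw [hx]
          ring
        have h5 := (mul_eq_zero.1 h4).resolve_left (pow_ne_zero _ ϖ.ne_zero)
        linear_combination h5
      have h4 := coeff_zero_of hg hϖ q (-y) (nn_neg hy) h3
      rw [PowerSeries.X_pow_dvd_iff]
      intro m hm
      rcases Nat.lt_succ_iff_lt_or_eq.1 hm with hm' | hm'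
      · exact (PowerSeries.X_pow_dvd_iff.1 ih) m hm'
      · subst hm'
        have h5 := (PowerSeries.X_pow_dvd_iff.1 hd) m hm
        rw [map_sub, Polynomial.coeff_coe, sub_eq_zero] at h5
        rw [h5, Polynomial.coeff_X_pow_mul', if_pos le_rfl, Nat.sub_self, h4]
  ext n
  have := (PowerSeries.X_pow_dvd_iff.1 (key (n + 1))) n (Nat.lt_succ_self n)
  rw [this, map_zero]

theorem uniq {v : DVal K} (hg : GeoF k v) {ϖ : Kˣ} (hϖ : v.ord ϖ = 1) {x : K}
    {f g : PowerSeries k} (h : Rel v (ϖ : K) x f) (h' : Rel v (ϖ : K) x g) : f = g := by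
  have h1 := rel_add h (rel_neg h')
  rw [add_neg_cancel] at h1
  have h2 := uniq0 hg hϖ _ h1
  exact sub_eq_zero.1 (by rw [sub_eq_add_neg]; exact h2)

/-- existence of the expansion -/
theorem exi {v : DVal K} {ϖ : Kˣ} (hϖ : v.ord ϖ = 1)
    (hres : ∀ u : K, NN v u → ∃ c : k, Pos v (u - algebraMap k K c)) (x : K) (hx : NN v x) :
    ∃ f : PowerSeries k, Rel v (ϖ : K) x f := by
  -- one step
  have hstep : ∀ u : {u : K // NN v u}, ∃ (c : k) (u' : {u : K // NN v u}),
      (u : K) = algebraMap k K c + ϖ * u' := by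
    rintro ⟨u, hu⟩
    obtain ⟨c, hc⟩ := hres u hu
    rcases hc with hc | ⟨w, hw, hw1⟩
    · refine ⟨c, ⟨0, nn_zero⟩, ?_⟩
      change u = algebraMap k K c + ϖ * 0
      linear_combination hc
    · refine ⟨c, ⟨((w * ϖ⁻¹ : Kˣ) : K), nn_unit.2 ?_⟩, ?_⟩
      · rw [v.ord_mul, v.ord_inv, hϖ]
        omega
      · change u = algebraMap k K c + ϖ * ((w * ϖ⁻¹ : Kˣ) : K)
        have h1 : (ϖ : K) * ((w * ϖ⁻¹ : Kˣ) : K) = w := by
          rw [← Units.val_mul]
          congr 1
          rw [mul_comm w, mul_inv_cancel_left]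
        rw [h1, hw]
        ring
  choose c nx hnx using hstep
  obtain ⟨s, hs⟩ : ∃ s : ℕ → {u : K // NN v u}, s = fun n => nx^[n] ⟨x, hx⟩ := ⟨_, rfl⟩
  have hs1 : ∀ n, ((s n : {u : K // NN v u}) : K) = algebraMap k K (c (s n)) + ϖ * s (n + 1) := by
    intro n
    have : s (n + 1) = nx (s n) := by
      rw [hs]
      exact Function.iterate_succ_apply' nx n ⟨x, hx⟩
    rw [this]
    exact hnx (s n)
  refine ⟨PowerSeries.mk fun n => c (s n), fun N => ?_⟩
  have hsum : ∀ N, x = aeval (ϖ : K) (∑ i ∈ Finset.range N, C (c (s i)) * X ^ i)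
      + (ϖ : K) ^ N * (s N : K) := by
    intro N
    induction N with
    | zero =>
      have : s 0 = ⟨x, hx⟩ := by rw [hs]; rfl
      rw [this]
      simp
    | succ N ih =>
      rw [Finset.sum_range_succ, map_add, map_mul, map_pow, aeval_X, aeval_C]
      have h1 := hs1 N
      rw [pow_succ]
      linear_combination ih + (ϖ : K) ^ N * h1
  refine ⟨∑ i ∈ Finset.range N, C (c (s i)) * X ^ i, s N, (s N).2, hsum N, ?_⟩
  rw [PowerSeries.X_pow_dvd_iff]
  intro m hm
  rw [map_sub, PowerSeries.coeff_mk, Polynomial.coeff_coe, Polynomial.finsetSum_coeff,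
    Finset.sum_eq_single m]
  · rw [Polynomial.coeff_C_mul, Polynomial.coeff_X_pow, if_pos rfl, mul_one, sub_self]
  · intro j _ hj
    rw [Polynomial.coeff_C_mul, Polynomial.coeff_X_pow, if_neg (fun h => hj h.symm), mul_zero]
  · intro h
    exact absurd (Finset.mem_range.2 hm) h

/-- `0` is the only element with expansion `0` -/
theorem zero_of {v : DVal K} (hg : GeoF k v) {ϖ : Kˣ} (hϖ : v.ord ϖ = 1) (x : K)
    (h : Rel (k := k) v (ϖ : K) x 0) : x = 0 := by
  by_contra hx
  obtain ⟨u, rfl⟩ : ∃ u : Kˣ, (u : K) = x := ⟨Units.mk0 x hx, rfl⟩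
  have hn : NN v (ϖ : K) := nn_unit.2 (by rw [hϖ]; norm_num)
  obtain ⟨p, y, hy, hx1, hd⟩ := h ((v.ord u).toNat + 1)
  have h2 : (X : k[X]) ^ ((v.ord u).toNat + 1) ∣ p := by
    rw [Polynomial.X_pow_dvd_iff]
    intro m hm
    have := (PowerSeries.X_pow_dvd_iff.1 hd) m hm
    rw [zero_sub, map_neg, neg_eq_zero] at this
    rwa [Polynomial.coeff_coe] at this
  obtain ⟨q, rfl⟩ := h2
  rw [map_mul, map_pow, aeval_X, ← mul_add] at hx1
  have h3 : NN v (aeval (ϖ : K) q + y) := nn_add (nn_aeval hg hn _) hy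
  rcases h3 with h3 | ⟨w, hw, hw0⟩
  · rw [h3, mul_zero] at hx1
    exact hx hx1
  · rw [← hw, ← Units.val_pow_eq_pow_val, ← Units.val_mul] at hx1
    have h4 := Units.ext hx1
    have h5 := congrArg v.ord h4
    rw [v.ord_mul, v.ord_pow, hϖ] at h5
    have h6 := Int.self_le_toNat (v.ord u)
    push_cast at h5
    omega

end ARCM

open ARCM in
theorem specARC (hRES : SpecRES) : SpecARC := by
  intro k K _ _ _ _ hF v hg ϖ hϖ
  have hres := hRES k K hF v hg
  have hn : NN v (ϖ : K) := nn_unit.2 (by rw [hϖ]; norm_num)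
  have hex : ∀ x : FNVM.vsub v, ∃ f : PowerSeries k, Rel v (ϖ : K) (x : K) f :=
    fun x => exi hϖ hres x x.2
  choose G hG using hex
  obtain ⟨g, hgG⟩ : ∃ g : FNVM.vsub v →+* PowerSeries k, ∀ x, g x = G x := by
    refine ⟨{ toFun := G, map_one' := ?_, map_mul' := ?_, map_zero' := ?_, map_add' := ?_ },
      fun x => rfl⟩
    · refine uniq hg hϖ (hG 1) ?_
      have := rel_C v (ϖ : K) (1 : k)
      rw [map_one, map_one] at this
      exact this
    · intro x y
      exact uniq hg hϖ (hG (x * y)) (rel_mul hg hn (hG x) (hG y))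
    · refine uniq hg hϖ (hG 0) ?_
      have := rel_C v (ϖ : K) (0 : k)
      rw [map_zero, map_zero] at this
      exact this
    · intro x y
      exact uniq hg hϖ (hG (x + y)) (rel_add (hG x) (hG y))
  have hinj : Function.Injective ((HahnSeries.ofPowerSeries ℤ k).comp g) := by
    rw [injective_iff_map_eq_zero]
    intro x hx
    rw [RingHom.comp_apply] at hx
    have h1 : g x = 0 := HahnSeries.ofPowerSeries_injective (hx.trans (map_zero _).symm)
    have h2 := hG x
    rw [← hgG, h1] at h2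
    exact Subtype.ext (zero_of hg hϖ x h2)
  obtain ⟨ι, hι⟩ : ∃ ι : K →+* LaurentSeries k, ∀ x : FNVM.vsub v,
      ι (x : K) = HahnSeries.ofPowerSeries ℤ k (g x) :=
    ⟨IsFractionRing.lift hinj, fun x => IsFractionRing.lift_algebraMap hinj x⟩
  have hval : ∀ (x : K) (f : PowerSeries k), NN v x → Rel v (ϖ : K) x f →
      ι x = HahnSeries.ofPowerSeries ℤ k f := by
    intro x f hx hf
    have h1 := hι ⟨x, hx⟩
    rw [hgG, uniq hg hϖ (hG ⟨x, hx⟩) hf] at h1
    exact h1
  have hιϖ : ι (ϖ : K) = sv k := by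
    rw [hval _ _ hn (rel_X v (ϖ : K)), HahnSeries.ofPowerSeries_X]
    rfl
  -- units of the valuation ring
  have hun : ∀ w : Kˣ, v.ord w = 0 → (ι (w : K)).order = 0 := by
    intro w hw
    have hwn : NN v (w : K) := nn_unit.2 hw.ge
    obtain ⟨f, hf⟩ := exi hϖ hres (w : K) hwn
    rw [hval _ _ hwn hf]
    have hc : PowerSeries.coeff 0 f ≠ 0 := by
      intro h0
      obtain ⟨p, y, hy, hx, hd⟩ := hf 1
      rw [pow_one] at hx hd
      have h1 : p.coeff 0 = 0 := by
        have hd' : (PowerSeries.X : PowerSeries k) ^ 1 ∣ f - (p : PowerSeries k) := by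
          rw [pow_one]
          exact hd
        have := (PowerSeries.X_pow_dvd_iff.1 hd') 0 Nat.one_pos
        rw [map_sub, Polynomial.coeff_coe, h0, zero_sub, neg_eq_zero] at this
        exact this
      have h2 := congrArg (aeval (ϖ : K)) (divX_mul_X_add p)
      rw [map_add, map_mul, aeval_X, aeval_C, h1, map_zero, add_zero] at h2
      have h3 : (w : K) = ϖ * (aeval (ϖ : K) p.divX + y) := by
        rw [hx, ← h2]
        ring
      have h4 : Pos v (ϖ : K) := pos_unit.2 hϖ.ge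
      have h5 := pos_mul_nn h4 (nn_add (nn_aeval hg hn p.divX) hy)
      rw [← h3, pos_unit, hw] at h5
      omega
    have hcoe : (HahnSeries.ofPowerSeries ℤ k f).coeff 0 ≠ 0 := by
      have := HahnSeries.ofPowerSeries_apply_coeff (Γ := ℤ) f 0
      rw [Nat.cast_zero] at this
      rw [this]
      exact hc
    apply le_antisymm
    · exact HahnSeries.order_le_of_coeff_ne_zero hcoe
    · by_contra hlt
      push Not at hlt
      have h1 : (HahnSeries.ofPowerSeries ℤ k f).coeff (HahnSeries.ofPowerSeries ℤ k f).order = 0 := by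
        rw [HahnSeries.ofPowerSeries_apply]
        apply HahnSeries.embDomain_of_notMem_range
        rintro ⟨n, hn⟩
        have h2 : ((n : ℕ) : ℤ) = (HahnSeries.ofPowerSeries ℤ k f).order := hn
        omega
      rw [HahnSeries.coeff_order_eq_zero] at h1
      rw [h1] at hcoe
      exact hcoe HahnSeries.coeff_zero
  have hne : ∀ w : Kˣ, ι (w : K) ≠ 0 := fun w => by
    rw [Ne, map_eq_zero]
    exact w.ne_zero
  have hsv : (sv k).order = 1 := HahnSeries.order_single one_ne_zero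
  have hpow : ∀ n : ℕ, (ι ((ϖ ^ n : Kˣ) : K)).order = n := by
    intro n
    rw [Units.val_pow_eq_pow_val, map_pow, hιϖ, HahnSeries.order_pow, hsv]
    simp
  refine ⟨ι, ?_, hιϖ, ?_⟩
  · intro c
    rw [hval _ _ (FNVM.nn_const hg c) (rel_C v (ϖ : K) c), HahnSeries.ofPowerSeries_C]
    rfl
  · intro u
    rcases le_total 0 (v.ord u) with h0 | h0
    · obtain ⟨n, hn'⟩ := Int.eq_ofNat_of_zero_le h0
      have h1 : v.ord (u * (ϖ ^ n)⁻¹) = 0 := by
        rw [v.ord_mul, v.ord_inv, v.ord_pow, hϖ, hn']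
        simp
      have h2 := hun _ h1
      have h3 : u = (u * (ϖ ^ n)⁻¹) * ϖ ^ n := by rw [inv_mul_cancel_right]
      rw [h3, Units.val_mul, map_mul, HahnSeries.order_mul (hne _) (hne _), h2, hpow, zero_add,
        ← h3, hn']
    · obtain ⟨n, hn'⟩ := Int.eq_ofNat_of_zero_le (neg_nonneg.2 h0)
      have h1 : v.ord (u * ϖ ^ n) = 0 := by
        rw [v.ord_mul, v.ord_pow, hϖ, ← hn']
        ring
      have h2 := hun _ h1
      rw [Units.val_mul, map_mul, HahnSeries.order_mul (hne _) (hne _), hpow] at h2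
      have h3 : (n : ℤ) = - v.ord u := hn'.symm
      omega

end MP743d1e.BD
end

section
/-!
# Unramified symbols of functions of bounded degree, module CAR: constant arcs
-/
set_option autoImplicit false

namespace MP743d1e.BD

open MP743d1e MP743d1e.CY MP743d1e.GX MP743d1e.Integ Polynomial IntermediateField

namespace CARM

/-- the variable of the Laurent series is transcendental over the constants -/
theorem eval_sv {k : Type} [Field k] (p : k[X]) (hp : p ≠ 0) :
    p.eval₂ (HahnSeries.C : k →+* LaurentSeries k) (sv k) ≠ 0 := by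
  have h : (Polynomial.eval₂RingHom (HahnSeries.C : k →+* LaurentSeries k) (sv k))
      = (HahnSeries.ofPowerSeries ℤ k).comp (Polynomial.coeToPowerSeries.ringHom (R := k)) := by
    apply Polynomial.ringHom_ext
    · intro a
      rw [Polynomial.coe_eval₂RingHom, Polynomial.eval₂_C, RingHom.comp_apply,
        Polynomial.coeToPowerSeries.ringHom_apply, Polynomial.coe_C, HahnSeries.ofPowerSeries_C]
    · rw [Polynomial.coe_eval₂RingHom, Polynomial.eval₂_X, RingHom.comp_apply,
        Polynomial.coeToPowerSeries.ringHom_apply, Polynomial.coe_X, HahnSeries.ofPowerSeries_X]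
      rfl
  have h1 := congrArg (fun f : k[X] →+* LaurentSeries k => f p) h
  have h2 : p.eval₂ (HahnSeries.C : k →+* LaurentSeries k) (sv k)
      = HahnSeries.ofPowerSeries ℤ k (p : PowerSeries k) := h1
  rw [h2]
  intro h3
  have h4 : (p : PowerSeries k) = 0 :=
    HahnSeries.ofPowerSeries_injective (h3.trans (map_zero _).symm)
  exact hp (Polynomial.coe_injective k (h4.trans Polynomial.coe_zero.symm))

theorem trans_of_sv {k K : Type} [Field k] [Field K] [Algebra k K] {ι : K →+* LaurentSeries k}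
    (hι : IsOver k ι) {ϖ : K} (hϖ : ι ϖ = sv k) : Transcendental k ϖ := by
  rw [transcendental_iff]
  intro p hp
  by_contra hp0
  refine eval_sv p hp0 ?_
  have h1 := congrArg ι hp
  rw [Polynomial.aeval_def, Polynomial.hom_eval₂, map_zero, hϖ] at h1
  have h2 : ι.comp (algebraMap k K) = (HahnSeries.C : k →+* LaurentSeries k) := by
    ext1 c
    exact hι c
  rw [h2] at h1
  exact h1

/-- a ring homomorphism applied to the coefficients -/
noncomputable def mapR {k k' : Type} [Field k] [Field k'] (f : k →+* k') :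
    LaurentSeries k →+* LaurentSeries k' where
  toFun a := a.map f
  map_one' := by
    have h := HahnSeries.map_one (Γ := ℤ) (RingHom.toMonoidWithZeroHom f)
    exact h
  map_mul' a b := HahnSeries.map_mul (f : k →ₙ+* k') (x := a) (y := b)
  map_zero' := HahnSeries.map_zero (f : ZeroHom k k')
  map_add' a b := HahnSeries.map_add (f : k →+ k')

end CARM

open CARM in
theorem specCAR (hEXT : SpecEXT) (_ : SpecCEB) : SpecCAR := by
  intro k₀ K₀ k₁ K₁ _ _ _ _ _ _ _ _ _ _ _ hC hF ι₀ ϖ hι hϖ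
  have hfd : FiniteDimensional k₀⟮ϖ⟯ K₀ := fdx hF (trans_of_sv hι hϖ)
  have hϖ1 : mapR (algebraMap k₀ k₁) (ι₀ ϖ) = sv k₁ := by
    rw [hϖ]
    have h1 : mapR (algebraMap k₀ k₁) (sv k₀)
        = HahnSeries.single (1 : ℤ) (algebraMap k₀ k₁ 1) :=
      HahnSeries.map_single ((algebraMap k₀ k₁ : k₀ →+* k₁) : ZeroHom k₀ k₁)
    rw [h1, map_one]
    rfl
  obtain ⟨Φ, h1, h2⟩ := hEXT k₀ K₀ k₁ K₁ (LaurentSeries k₁) hC ϖ
    (Algebra.IsAlgebraic.of_finite _ _) HahnSeries.C ((mapR (algebraMap k₀ k₁)).comp ι₀)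
    (by
      intro c
      rw [RingHom.comp_apply, hι c]
      have h1 : mapR (algebraMap k₀ k₁) (HahnSeries.C (algebraMap k₀ k₀ c))
          = HahnSeries.single (0 : ℤ) (algebraMap k₀ k₁ (algebraMap k₀ k₀ c)) :=
        HahnSeries.map_single ((algebraMap k₀ k₁ : k₀ →+* k₁) : ZeroHom k₀ k₁)
      rw [h1]
      rfl)
    (by
      intro p hp
      rw [RingHom.comp_apply, hϖ1]
      exact eval_sv p hp)
  refine ⟨Φ, fun c => h1 c, fun y n => ?_, ?_⟩
  · rw [h2]
    rfl
  · rw [h2]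
    exact hϖ1

end MP743d1e.BD
end

section
/-!
# Unramified symbols of functions of bounded degree, module ARD: derivations and arcs
-/
set_option autoImplicit false

namespace MP743d1e.BD

open MP743d1e MP743d1e.CY MP743d1e.GX MP743d1e.Integ Polynomial IntermediateField

theorem specARD (hDUQ : SpecDUQ) (hLSD : SpecLSD) (hCEB : SpecCEB) : SpecARD := by
  intro k₀ K₀ k₁ K₁ _ _ _ _ _ _ _ _ _ _ _ _ hC hF t D D₀ hD ι hι
  have hc1 : CharZero k₁ := charZero_of_injective_algebraMap (algebraMap k₀ k₁).injective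
  have hF1 : Fun1 k₁ K₁ := (hCEB k₀ K₀ k₁ K₁ hC hF).2.2.1
  have hL := hLSD k₁
  have key : ∀ ϖ : K₁, ι ϖ = sv k₁ → ∀ x : K₁,
      ι (D x) = cS D₀ (ι x) + ι (D ϖ) * dS (ι x) := by
    intro ϖ hϖ
    have hfd : FiniteDimensional k₁⟮ϖ⟯ K₁ := fdx hF1 (CARM.trans_of_sv hι hϖ)
    refine hDUQ.2.2 k₁ K₁ (LaurentSeries k₁) ι (fun x => ι (D x))
      (fun x => cS D₀ (ι x) + ι (D ϖ) * dS (ι x)) ?_ ?_ ?_ ϖ
      (Algebra.IsAlgebraic.of_finite _ _) ?_
    · refine ⟨fun a b => ?_, fun a b => ?_⟩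
      · beta_reduce
        rw [map_add, map_add]
      · beta_reduce
        rw [Derivation.leibniz, smul_eq_mul, smul_eq_mul, map_add, map_mul, map_mul]
    · obtain ⟨c1, c2⟩ := hL.c_along D₀
      obtain ⟨d1, d2⟩ := hL.d_along
      refine ⟨fun a b => ?_, fun a b => ?_⟩
      · beta_reduce
        rw [map_add, c1, d1]
        ring
      · beta_reduce
        rw [map_mul, c2, d2]
        simp only [RingHom.id_apply]
        ring
    · intro c
      rw [hD.onk, hι, hι, hL.c_C, hL.d_C, mul_zero, add_zero]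
      rfl
    · rw [hϖ, hL.c_sv, hL.d_sv, mul_one, zero_add]
  refine ⟨key, fun y c hy x => ?_⟩
  have h1 : ι (algebraMap K₀ K₁ y - algebraMap k₁ K₁ c) = sv k₁ := by
    rw [map_sub, hy, hι]
    exact add_sub_cancel_left _ _
  rw [key _ h1 x, map_sub, hD.onK, hD.onk, zero_sub, map_neg, hι, neg_mul, ← sub_eq_add_neg]
  rfl

end MP743d1e.BD
end

section
/-!
# Theorem BD, module AV: the order of an embedding into a field of Laurent series
-/
set_option autoImplicit false

namespace MP743d1e.BD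

open MP743d1e.CY MP743d1e.GX MP743d1e.Integ

namespace AVM

variable {K κ : Type} [Field K] [Field κ] (j : K →+* LaurentSeries κ)

theorem ne (u : Kˣ) : j (u : K) ≠ 0 := by
  rw [Ne, map_eq_zero]; exact u.ne_zero

theorem order_mul (u w : Kˣ) :
    (j ((u * w : Kˣ) : K)).order = (j (u : K)).order + (j (w : K)).order := by
  rw [Units.val_mul, map_mul, HahnSeries.order_mul (ne j u) (ne j w)]

/-- the order as a homomorphism -/
noncomputable def oh : Additive Kˣ →+ ℤ :=
  AddMonoidHom.mk' (fun u => (j ((Additive.toMul u : Kˣ) : K)).order)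
    (fun u w => order_mul j (Additive.toMul u) (Additive.toMul w))

theorem exists_e (h : ¬ ∀ u : Kˣ, (j (u : K)).order = 0) :
    ∃ e : ℤ, 0 < e ∧ (∀ u : Kˣ, e ∣ (j (u : K)).order) ∧
      ∀ n : ℤ, ∃ u : Kˣ, (j (u : K)).order = e * n := by
  obtain ⟨a, ha⟩ := Int.subgroup_cyclic (oh j).range
  have hmem : ∀ n : ℤ, (∃ u : Kˣ, (j (u : K)).order = n) ↔ a ∣ n := by
    intro n
    have h1 : n ∈ (oh j).range ↔ n ∈ AddSubgroup.closure {a} := by rw [ha]
    rw [AddSubgroup.mem_closure_singleton] at h1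
    constructor
    · rintro ⟨u, hu⟩
      obtain ⟨m, hm⟩ := h1.1 ⟨Additive.ofMul u, hu⟩
      exact ⟨m, by rw [← hm, smul_eq_mul, mul_comm]⟩
    · rintro ⟨m, hm⟩
      obtain ⟨u, hu⟩ := h1.2 ⟨m, by rw [hm, smul_eq_mul, mul_comm]⟩
      exact ⟨Additive.toMul u, hu⟩
  have ha0 : a ≠ 0 := by
    rintro rfl
    apply h
    intro u
    have := (hmem _).1 ⟨u, rfl⟩
    exact zero_dvd_iff.1 this
  refine ⟨|a|, abs_pos.2 ha0, fun u => ?_, fun n => ?_⟩
  · rw [abs_dvd]
    exact (hmem _).1 ⟨u, rfl⟩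
  · refine (hmem _).2 ?_
    exact Dvd.dvd.mul_right ((dvd_abs a a).2 dvd_rfl) n

end AVM

open AVM in
theorem specAV : SpecAV := by
  refine ⟨?_, ?_⟩
  · intro k K κ _ _ _ _ _ j hj
    by_cases h : ∀ u : Kˣ, (j (u : K)).order = 0
    · exact Or.inl h
    right
    obtain ⟨e, he, hdvd, hsurj⟩ := exists_e j h
    have hmul : ∀ u : Kˣ, (j (u : K)).order = e * ((j (u : K)).order / e) := fun u =>
      (Int.mul_ediv_cancel' (hdvd u)).symm
    refine ⟨⟨fun u => (j (u : K)).order / e, ?_, ?_, ?_⟩, e, he, ?_, hmul⟩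
    · intro f g
      rw [order_mul, Int.add_ediv_of_dvd_left (hdvd f)]
    · intro n
      obtain ⟨u, hu⟩ := hsurj n
      exact ⟨u, by simp only [hu]; exact Int.mul_ediv_cancel_left n he.ne'⟩
    · intro f g l hl
      have h1 : j (f : K) + j (g : K) ≠ 0 := by
        rw [← map_add, hl]; exact ne j l
      have h2 := HahnSeries.min_order_le_order_add h1
      rw [← map_add, hl, hmul f, hmul g, hmul l] at h2
      rcases le_total ((j (f : K)).order / e) ((j (g : K)).order / e) with h3 | h3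
      · rw [min_eq_left (mul_le_mul_of_nonneg_left h3 he.le)] at h2
        rw [min_eq_left h3]
        exact le_of_mul_le_mul_left h2 he
      · rw [min_eq_right (mul_le_mul_of_nonneg_left h3 he.le)] at h2
        rw [min_eq_right h3]
        exact le_of_mul_le_mul_left h2 he
    · rintro c ⟨r, hr⟩
      show (j (c : K)).order / e = 0
      rw [hr, hj r, HahnSeries.order_C, Int.zero_ediv]
  · intro k K _ _ _ j hj h x
    refine ⟨(j x).coeff 0, ?_⟩
    by_contra hne
    have h0 : x - algebraMap k K ((j x).coeff 0) ≠ 0 := fun h1 => hne (sub_eq_zero.1 h1).symm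
    have h1 := h (Units.mk0 _ h0)
    have h2 : j (x - algebraMap k K ((j x).coeff 0)) ≠ 0 := by
      rw [Ne, map_eq_zero]; exact h0
    have h3 := HahnSeries.coeff_order_eq_zero.not.2 h2
    rw [Units.val_mk0] at h1
    rw [h1] at h3
    apply h3
    rw [map_sub, hj, HahnSeries.coeff_sub]
    simp

end MP743d1e.BD
end

section
/-!
# Theorem BD, module BDF: algebraic extensions with bounded degrees
-/
set_option autoImplicit false

namespace MP743d1e.BD

open scoped BigOperators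
open Polynomial IntermediateField MP743d1e.CY MP743d1e.GX MP743d1e.Integ Filter

theorem specBDF : SpecBDF := by
  intro F E _ _ _ _ r h
  have hne : (Set.range fun α : E => (minpoly F α).natDegree).Nonempty := ⟨_, 0, rfl⟩
  have hbd : BddAbove (Set.range fun α : E => (minpoly F α).natDegree) :=
    ⟨r, by rintro _ ⟨α, rfl⟩; exact (h α).2⟩
  obtain ⟨α, hα⟩ := Nat.sSup_mem hne hbd
  have hmax : ∀ β : E, (minpoly F β).natDegree ≤ (minpoly F α).natDegree := fun β => by
    have := le_csSup hbd ⟨β, rfl⟩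
    rw [← hα] at this
    exact this
  have hint : ∀ β : E, IsIntegral F β := fun β => (h β).1.isIntegral
  have htop : F⟮α⟯ = ⊤ := by
    rw [eq_top_iff]
    intro β _
    have hfd : FiniteDimensional F F⟮α, β⟯ :=
      IntermediateField.finiteDimensional_adjoin fun x _ => hint x
    obtain ⟨γ, hγ⟩ := Field.exists_primitive_element F F⟮α, β⟯
    have h1 : (minpoly F γ).natDegree = Module.finrank F F⟮α, β⟯ :=
      (Field.primitive_element_iff_minpoly_natDegree_eq F γ).1 hγ
    have h2 : minpoly F (γ : E) = minpoly F γ :=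
      minpoly.algebraMap_eq (algebraMap F⟮α, β⟯ E).injective γ
    have h3 : Module.finrank F F⟮α, β⟯ ≤ Module.finrank F F⟮α⟯ := by
      rw [← h1, ← h2, IntermediateField.adjoin.finrank (hint α)]
      exact hmax _
    have h4 : F⟮α⟯ ≤ F⟮α, β⟯ := IntermediateField.adjoin.mono _ _ _ (by simp)
    have h5 : F⟮α⟯ = F⟮α, β⟯ := IntermediateField.eq_of_le_of_finrank_le h4 h3
    rw [h5]
    exact IntermediateField.subset_adjoin F _ (by simp)
  have hfd : FiniteDimensional F E := by
    have : FiniteDimensional F F⟮α⟯ := IntermediateField.adjoin.finiteDimensional (hint α)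
    rw [htop] at this
    exact Module.Finite.equiv (IntermediateField.topEquiv (F := F) (E := E)).toLinearEquiv
  refine ⟨hfd, ?_⟩
  have h1 := IntermediateField.adjoin.finrank (hint α)
  rw [htop, IntermediateField.finrank_top'] at h1
  rw [h1]
  exact (h α).2

end MP743d1e.BD
end

section
/-!
# Theorem BD, module BDV: degrees of divisors
-/
set_option autoImplicit false

namespace MP743d1e.BD

open scoped BigOperators
open Polynomial IntermediateField MP743d1e.CY MP743d1e.GX MP743d1e.Integ Filter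

namespace BDVM

theorem coeff_swap {R : Type} [CommRing R] (P : R[X][X]) (i j : ℕ) :
    ((Bivariate.swap P).coeff j).coeff i = (P.coeff i).coeff j := by
  induction P using Polynomial.induction_on' with
  | add p q hp hq => rw [map_add, coeff_add, coeff_add, coeff_add, coeff_add, hp, hq]
  | monomial n f =>
    induction f using Polynomial.induction_on' with
    | add p q hp hq =>
      rw [map_add, map_add, coeff_add, coeff_add, coeff_add, coeff_add, hp, hq]
    | monomial m r =>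
      rw [Bivariate.swap_monomial_monomial]
      simp only [coeff_monomial]
      by_cases h1 : n = i <;> by_cases h2 : m = j <;> simp [h1, h2, coeff_monomial]

theorem natDegree_swap_le {R : Type} [CommRing R] (P : R[X][X]) (A : ℕ) :
    (Bivariate.swap P).natDegree ≤ A ↔ ∀ i, (P.coeff i).natDegree ≤ A := by
  constructor
  · intro h i
    rw [natDegree_le_iff_coeff_eq_zero]
    intro N hN
    rw [← coeff_swap, coeff_eq_zero_of_natDegree_lt (lt_of_le_of_lt h hN), coeff_zero]
  · intro h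
    rw [natDegree_le_iff_coeff_eq_zero]
    intro N hN
    ext i
    rw [coeff_swap, coeff_zero, coeff_eq_zero_of_natDegree_lt (lt_of_le_of_lt (h i) hN)]

end BDVM

theorem specBDV : SpecBDV := by
  intro k _ A B P Q hQ hPQ hdeg
  obtain ⟨h0, h0'⟩ := hdeg
  refine ⟨(natDegree_le_of_dvd hPQ hQ).trans h0, ?_⟩
  have h3 := (BDVM.natDegree_swap_le Q A).2 h0'
  apply (BDVM.natDegree_swap_le P A).1
  have h1 : Bivariate.swap Q ≠ 0 := by
    intro h
    apply hQ
    rw [← Bivariate.swap_swap_apply Q, h, map_zero]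
  obtain ⟨R, hR⟩ := hPQ
  have h2 : Bivariate.swap P ∣ Bivariate.swap Q := by
    refine ⟨Bivariate.swap R, ?_⟩
    rw [← map_mul, hR]
  exact (natDegree_le_of_dvd h2 h1).trans h3

end MP743d1e.BD
end

section
/-!
# Theorem BD, module BID: an equation between two functions of bounded degree
-/
set_option autoImplicit false

namespace MP743d1e.BD

open scoped BigOperators
open Polynomial IntermediateField MP743d1e.CY MP743d1e.GX MP743d1e.Integ Filter

namespace BIDM

theorem evF_add {F L : Type} [Field F] [Field L] [Algebra F L] (h y : L) (a b : F[X][X]) :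
    evF h y (a + b) = evF h y a + evF h y b := eval₂_add _ _

theorem evF_swap {k K : Type} [Field k] [Field K] [Algebra k K] (x z : K) (P : k[X][X]) :
    evF x z (Bivariate.swap (R := k) P) = evF z x P := by
  induction P using Polynomial.induction_on' with
  | add a b ha hb => rw [map_add, evF_add, evF_add, ha, hb]
  | monomial n f =>
    induction f using Polynomial.induction_on' with
    | add a b ha hb =>
      rw [map_add, map_add, evF_add, evF_add, ha, hb]
    | monomial m r =>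
      rw [Bivariate.swap_monomial_monomial]
      simp only [evF, eval₂_monomial, AlgHom.toRingHom_eq_coe, RingHom.coe_coe, aeval_monomial]
      ring

theorem coeff_swap {k : Type} [Field k] (P : k[X][X]) (i j : ℕ) :
    ((Bivariate.swap (R := k) P).coeff i).coeff j = (P.coeff j).coeff i := by
  induction P using Polynomial.induction_on' with
  | add a b ha hb => rw [map_add, coeff_add, coeff_add, coeff_add, coeff_add, ha, hb]
  | monomial n f =>
    induction f using Polynomial.induction_on' with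
    | add a b ha hb =>
      rw [map_add, map_add, coeff_add, coeff_add, coeff_add, coeff_add, ha, hb]
    | monomial m r =>
      rw [Bivariate.swap_monomial_monomial]
      simp only [coeff_monomial]
      by_cases h1 : m = i <;> by_cases h2 : n = j <;> simp [h1, h2, coeff_monomial]

theorem natDegree_coeff_swap {k : Type} [Field k] (P : k[X][X]) (i : ℕ) :
    ((Bivariate.swap (R := k) P).coeff i).natDegree ≤ P.natDegree := by
  rw [natDegree_le_iff_coeff_eq_zero]
  intro N hN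
  rw [coeff_swap, coeff_eq_zero_of_natDegree_lt hN, coeff_zero]

end BIDM

open BIDM in
theorem specBID (hMPB : SpecMPB) (hBDV : SpecBDV) : SpecBID := by
  intro k K _ _ _ hK d x z hx hz hdx hdz
  have := fdx hK hx
  have := fdx hK hz
  obtain ⟨P, hP0, hPe, hPd, hPdvd⟩ := hMPB k K x z hx
    (Algebra.IsAlgebraic.isAlgebraic (R := k⟮x⟯) z)
  obtain ⟨P', hP'0, hP'e, hP'd, -⟩ := hMPB k K z x hz
    (Algebra.IsAlgebraic.isAlgebraic (R := k⟮z⟯) x)
  have h1 : P.natDegree ≤ d := by
    rw [hPd]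
    exact (minpoly.natDegree_le (A := k⟮x⟯) z).trans hdx
  have h2 : P'.natDegree ≤ d := by
    rw [hP'd]
    exact (minpoly.natDegree_le (A := k⟮z⟯) x).trans hdz
  have h3 : P ∣ Bivariate.swap (R := k) P' := by
    apply hPdvd
    rw [evF_swap]
    exact hP'e
  have h4 : Bivariate.swap (R := k) P' ≠ 0 := by
    intro h
    apply hP'0
    have h5 := congrArg (Bivariate.swap (R := k)) h
    rwa [Bivariate.swap_swap_apply, map_zero] at h5
  have h5 : BiDeg d (Bivariate.swap (R := k) P').natDegree (Bivariate.swap (R := k) P') :=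
    ⟨le_rfl, fun i => (natDegree_coeff_swap P' i).trans h2⟩
  exact ⟨P, hP0, hPe, h1, (hBDV k d _ P _ h4 h3 h5).2⟩

end MP743d1e.BD
end

section
/-!
# Theorem BD: module C6

Torsion tame symbols descend from `K₁ / k₁` to `K₀ / k₀`.
-/
set_option autoImplicit false

namespace MP743d1e.BD.C6M

open Polynomial IntermediateField MP743d1e.CY MP743d1e.GX

/-- The order only depends on the set of the nonzero coefficients. -/
theorem order_congr {κ κ' : Type} [Field κ] [Field κ'] (a : LaurentSeries κ)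
    (b : LaurentSeries κ') (ha : a ≠ 0) (h : ∀ n : ℤ, a.coeff n = 0 ↔ b.coeff n = 0) :
    b.order = a.order := by
  have hb : b ≠ 0 := by
    intro hb
    apply ha
    ext n
    exact (h n).2 (by rw [hb]; rfl)
  apply le_antisymm
  · apply HahnSeries.order_le_of_coeff_ne_zero
    intro h1
    exact ha (HahnSeries.coeff_order_eq_zero.1 ((h _).2 h1))
  · apply HahnSeries.order_le_of_coeff_ne_zero
    intro h1
    exact hb (HahnSeries.coeff_order_eq_zero.1 ((h _).1 h1))

section

variable {K₀ K₁ : Type} [Field K₀] [Field K₁] [Algebra K₀ K₁] {v : DVal K₀} {w : DVal K₁}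

theorem um_tameUnit (hw : ∀ u : K₀ˣ, w.ord (um K₀ K₁ u) = v.ord u) (f g : K₀ˣ) :
    w.tameUnit (um K₀ K₁ f) (um K₀ K₁ g) = um K₀ K₁ (v.tameUnit f g) := by
  unfold DVal.tameUnit
  rw [hw, hw, map_mul, map_mul, map_zpow, map_zpow, map_zpow]
  congr 3
  apply Units.ext
  simp

theorem isOne_of_um (hw : ∀ u : K₀ˣ, w.ord (um K₀ K₁ u) = v.ord u) (x : K₀ˣ)
    (h : w.IsOne (um K₀ K₁ x)) : v.IsOne x := by
  rcases h with h | ⟨u, hu, h1⟩
  · left
    apply Units.ext
    apply (algebraMap K₀ K₁).injective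
    have := congrArg (Units.val) h
    simpa using this
  · right
    have hu' : algebraMap K₀ K₁ ((x : K₀) - 1) = (u : K₁) := by
      rw [← hu, map_sub, map_one]
      rfl
    have hne : (x : K₀) - 1 ≠ 0 := by
      intro h0
      rw [h0, map_zero] at hu'
      exact u.ne_zero hu'.symm
    refine ⟨Units.mk0 _ hne, rfl, ?_⟩
    rw [← hw]
    have : um K₀ K₁ (Units.mk0 _ hne) = u := Units.ext hu'
    rw [this]
    exact h1

theorem smul_tame {F : Type} [Field F] (v : DVal F) (f g : Fˣ) (N : ℕ) :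
    N • tame v (sym f g) = 0 ↔ v.IsOne (v.tameUnit f g ^ N) := by
  rw [tame_sym, ← DVal.mem_U1, ← QuotientGroup.eq_one_iff, ← ofMul_pow, ← QuotientGroup.mk_pow]
  rfl

end

end MP743d1e.BD.C6M

namespace MP743d1e.BD

open Polynomial IntermediateField MP743d1e.CY MP743d1e.GX
open C6M

theorem specC6 (hARC : SpecARC) (hAV : SpecAV) (hCAR : SpecCAR) : SpecC6 := by
  intro k₀ K₀ k₁ K₁ _ _ _ _ _ _ _ _ _ _ _ _ hE hF f g ht v hv
  obtain ⟨ϖ, hϖ⟩ := v.surj 1
  obtain ⟨ι₀, hι₀, hι₀ϖ, hord⟩ := hARC k₀ K₀ hF v hv ϖ hϖ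
  obtain ⟨ι, hι, hcoeff, hιϖ⟩ := hCAR k₀ K₀ k₁ K₁ hE hF ι₀ (ϖ : K₀) hι₀ hι₀ϖ
  have hord1 : ∀ u : K₀ˣ, (ι ((um K₀ K₁ u : K₁ˣ) : K₁)).order = v.ord u := by
    intro u
    rw [← hord u]
    apply order_congr
    · intro h
      have h2 : (u : K₀) = 0 := by
        apply ι₀.injective
        rw [h, map_zero]
      exact u.ne_zero h2
    · intro n
      show _ ↔ (ι (algebraMap K₀ K₁ (u : K₀))).coeff n = 0
      rw [hcoeff, map_eq_zero]
  rcases hAV.1 k₁ K₁ k₁ ι hι with h0 | ⟨w, e, he, hwG, hw⟩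
  · exfalso
    have h1 := h0 (um K₀ K₁ ϖ)
    rw [hord1, hϖ] at h1
    exact one_ne_zero h1
  · have he1 : e = 1 := by
      have h1 := hw (um K₀ K₁ ϖ)
      rw [hord1, hϖ] at h1
      have h2 : e ∣ 1 := ⟨_, h1⟩
      exact Int.eq_one_of_dvd_one he.le h2
    have hwv : ∀ u : K₀ˣ, w.ord (um K₀ K₁ u) = v.ord u := by
      intro u
      have h1 := hw (um K₀ K₁ u)
      rw [hord1, he1, one_mul] at h1
      exact h1.symm
    obtain ⟨N, hN, hN0⟩ := ht w hwG
    refine ⟨N, hN, ?_⟩
    rw [smul_tame] at hN0 ⊢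
    rw [um_tameUnit hwv, ← map_pow] at hN0
    exact isOne_of_um hwv _ hN0

end MP743d1e.BD
end

section
/-!
# Theorem BD: module CCH (the chain of constant extensions)
-/
set_option autoImplicit false

namespace MP743d1e.BD

open scoped BigOperators TensorProduct
open Polynomial IntermediateField MP743d1e.CY MP743d1e.GX MP743d1e.Integ Filter

namespace CCHM

/-- the field generated by `K₀` and `k'` -/
theorem field (hLDG : SpecLDG) (hCEB : SpecCEB) (k₀ K₀ k₁ K₁ k' : Type) [Field k₀] [Field K₀]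
    [Field k₁] [Field K₁] [Field k'] [Algebra k₀ K₀] [Algebra k₀ k₁] [Algebra k₀ K₁]
    [Algebra K₀ K₁] [Algebra k₁ K₁] [Algebra k₀ k'] [Algebra k' k₁] [Algebra k' K₁]
    [IsScalarTower k₀ K₀ K₁] [IsScalarTower k₀ k₁ K₁] [IsScalarTower k₀ k' k₁]
    [IsScalarTower k' k₁ K₁] [IsAlgClosed k'] (h : CExt k₀ K₀ k₁ K₁) (hF : Fun1 k₀ K₀) :
    ∃ (K' : Type) (_ : Field K') (_ : Algebra k₀ K') (_ : Algebra K₀ K') (_ : Algebra k' K')
      (_ : Algebra K' K₁) (_ : IsScalarTower k₀ K₀ K') (_ : IsScalarTower k₀ k' K')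
      (_ : IsScalarTower k' K' K₁), CExt k₀ K₀ k' K' ∧ CExt k' K' k₁ K₁ ∧ Fun1 k' K' ∧
        ∀ y : K₀, algebraMap K' K₁ (algebraMap K₀ K' y) = algebraMap K₀ K₁ y := by
  let S : Set K₁ := Set.range (algebraMap K₀ K₁)
  let K' : IntermediateField k' K₁ := IntermediateField.adjoin k' S
  have hS : ∀ y : K₀, algebraMap K₀ K₁ y ∈ K' := fun y =>
    IntermediateField.subset_adjoin k' S ⟨y, rfl⟩
  let φ : K₀ →+* K' := (algebraMap K₀ K₁).codRestrict K'.toSubfield hS
  have hφ : ∀ y : K₀, ((φ y : K') : K₁) = algebraMap K₀ K₁ y := fun y => rfl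
  let ψ : k₀ →+* K' := (algebraMap k' K').comp (algebraMap k₀ k')
  have hψ : ∀ y : k₀, ((ψ y : K') : K₁) = algebraMap k₀ K₁ y := by
    intro y
    show algebraMap k' K₁ (algebraMap k₀ k' y) = _
    rw [IsScalarTower.algebraMap_apply k' k₁ K₁, ← IsScalarTower.algebraMap_apply k₀ k' k₁,
      ← IsScalarTower.algebraMap_apply k₀ k₁ K₁]
  let a1 : Algebra K₀ K' := φ.toAlgebra
  let a2 : Algebra k₀ K' := ψ.toAlgebra
  have t1 : IsScalarTower k₀ K₀ K' := by
    refine IsScalarTower.of_algebraMap_eq fun y => ?_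
    apply Subtype.ext
    show ((ψ y : K') : K₁) = ((φ (algebraMap k₀ K₀ y) : K') : K₁)
    rw [hψ, hφ, ← IsScalarTower.algebraMap_apply]
  have t2 : IsScalarTower k₀ k' K' := IsScalarTower.of_algebraMap_eq fun y => rfl
  have hcoe : ∀ y : K', algebraMap K' K₁ y = (y : K₁) := fun y => rfl
  have hk' : ∀ c : k', ((algebraMap k' K' c : K') : K₁) = algebraMap k' K₁ c := fun c => rfl
  have e1 : CExt k₀ K₀ k' K' := by
    constructor
    · intro n r c hc hsum
      have hc' : LinearIndependent k₀ (fun i => algebraMap k' k₁ (c i)) := by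
        have := hc.map' (IsScalarTower.toAlgHom k₀ k' k₁).toLinearMap
          (LinearMap.ker_eq_bot.mpr (algebraMap k' k₁).injective)
        exact this
      refine h.ld n r _ hc' ?_
      have h1 := congrArg (fun x : K' => (x : K₁)) hsum
      simp only [ZeroMemClass.coe_zero] at h1
      rw [← h1]
      show _ = K'.val (∑ i, algebraMap K₀ K' (r i) * algebraMap k' K' (c i))
      rw [map_sum]
      refine Finset.sum_congr rfl fun i _ => ?_
      rw [map_mul]
      show _ = ((φ (r i) : K') : K₁) * ((algebraMap k' K' (c i) : K') : K₁)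
      rw [hφ, hk', IsScalarTower.algebraMap_apply k' k₁ K₁]
    · intro x
      obtain ⟨r, hr, s, hs, hx⟩ := IntermediateField.mem_adjoin_iff_div.mp x.2
      have hlift : ∀ y ∈ Algebra.adjoin k' S, ∃ y' ∈ Algebra.adjoin k'
          (Set.range (algebraMap K₀ K')), ((y' : K') : K₁) = y := by
        intro y hy
        have h1 : Algebra.adjoin k' S = (Algebra.adjoin k'
            (Set.range (algebraMap K₀ K'))).map (K'.val) := by
          rw [AlgHom.map_adjoin]
          congr 1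
          ext z
          constructor
          · rintro ⟨w, rfl⟩
            exact ⟨φ w, ⟨w, rfl⟩, rfl⟩
          · rintro ⟨_, ⟨w, rfl⟩, rfl⟩
            exact ⟨w, rfl⟩
        rw [h1] at hy
        obtain ⟨y', hy', rfl⟩ := hy
        exact ⟨y', hy', rfl⟩
      obtain ⟨r', hr', er⟩ := hlift r hr
      obtain ⟨s', hs', es⟩ := hlift s hs
      by_cases h0 : s = 0
      · refine ⟨0, Subalgebra.zero_mem _, 1, Subalgebra.one_mem _, one_ne_zero, ?_⟩
        apply Subtype.ext
        rw [mul_one, hx, h0, div_zero]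
        rfl
      · refine ⟨r', hr', s', hs', ?_, ?_⟩
        · intro h1
          apply h0
          rw [← es, h1]
          rfl
        · apply Subtype.ext
          show (x : K₁) * (s' : K₁) = (r' : K₁)
          rw [er, es, hx, div_mul_cancel₀ _ h0]
  have hFun : Fun1 k' K' := (hCEB k₀ K₀ k' K' e1 hF).2.2.1
  refine ⟨K', inferInstance, a2, a1, inferInstance, inferInstance, t1, t2, inferInstance, e1,
    ?_, hFun, fun y => rfl⟩
  have hF' : Fun1 k₀ K₀ := hF
  obtain ⟨z, hz, -⟩ := hF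
  have hz1 : Transcendental k' (algebraMap K₀ K' z) := (hCEB k₀ K₀ k' K' e1 hF').1 z hz
  have hz2 : Transcendental k₁ (algebraMap K₀ K₁ z) := (hCEB k₀ K₀ k₁ K₁ h hF').1 z hz
  constructor
  · have := fdx hFun hz1
    exact hLDG k' K' k₁ K₁ (algebraMap K₀ K' z) inferInstance hz2
  · intro x
    obtain ⟨a, ha, b, hb, hb0, hx⟩ := h.gen x
    have hsub : Algebra.adjoin k₁ (Set.range (algebraMap K₀ K₁))
        ≤ Algebra.adjoin k₁ (Set.range (algebraMap K' K₁)) := by
      apply Algebra.adjoin_mono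
      rintro _ ⟨y, rfl⟩
      exact ⟨φ y, rfl⟩
    exact ⟨a, hsub ha, b, hsub hb, hb0, hx⟩

/-- the algebraic closure of `k₀(c)` -/
theorem const (k₀ k₁ : Type) [Field k₀] [Field k₁] [Algebra k₀ k₁] [CharZero k₀]
    [IsAlgClosed k₁] (c : k₁) (hc : Transcendental k₀ c) :
    ∃ (k' : Type) (_ : Field k') (_ : Algebra k₀ k') (_ : Algebra k' k₁)
      (_ : IsScalarTower k₀ k' k₁) (_ : IsAlgClosed k') (_ : CharZero k') (c' : k'),
      algebraMap k' k₁ c' = c ∧ Transcendental k₀ c' ∧ Algebra.IsAlgebraic k₀⟮c'⟯ k' := by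
  let F : IntermediateField k₀ k₁ := k₀⟮c⟯
  let A : IntermediateField F k₁ := algebraicClosure F k₁
  have hcl : IsAlgClosed A := (algebraicClosure.isAlgClosure (F := F) (E := k₁)).isAlgClosed
  have hch : CharZero A := charZero_of_injective_algebraMap (algebraMap k₀ A).injective
  have hst : IsScalarTower k₀ A k₁ := IsScalarTower.of_algebraMap_eq fun y => rfl
  let cF : F := ⟨c, IntermediateField.mem_adjoin_simple_self k₀ c⟩
  let c' : A := algebraMap F A cF
  have hc' : algebraMap A k₁ c' = c := rfl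
  refine ⟨A, inferInstance, inferInstance, inferInstance, inferInstance, hcl, hch, c', hc', ?_, ?_⟩
  · intro halg
    apply hc
    have := halg.algebraMap (A := k₁)
    rwa [hc'] at this
  · let ι : A →ₐ[k₀] k₁ := IsScalarTower.toAlgHom k₀ A k₁
    have hι : Function.Injective ι := (algebraMap A k₁).injective
    have hmem : ∀ f : F, algebraMap F A f ∈ k₀⟮c'⟯ := by
      intro f
      have h1 : (k₀⟮c'⟯).map ι = k₀⟮c⟯ := by
        rw [IntermediateField.adjoin_map, Set.image_singleton]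
        rfl
      have h2 : (f : k₁) ∈ (k₀⟮c'⟯).map ι := by rw [h1]; exact f.2
      obtain ⟨y, hy, hyf⟩ := h2
      have h3 : y = algebraMap F A f := hι (by rw [show ι y = (f : k₁) from hyf]; rfl)
      rw [← h3]
      exact hy
    let φ : F →+* k₀⟮c'⟯ := (algebraMap F A).codRestrict (k₀⟮c'⟯).toSubfield hmem
    constructor
    intro x
    obtain ⟨p, hp, hpx⟩ := (Algebra.IsAlgebraic.isAlgebraic (R := F) x)
    refine ⟨p.map φ, (Polynomial.map_ne_zero_iff φ.injective).mpr hp, ?_⟩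
    rw [aeval_def, eval₂_map]
    exact hpx

end CCHM

theorem specCCH (hLDG : SpecLDG) (hCEB : SpecCEB) (_hCES : SpecCES) : SpecCCH := by
  intro k₀ K₀ k₁ K₁ _ _ _ _ _ _ _ _ _ _ _ _ _ _ h hF c hc
  obtain ⟨k', i1, i2, i3, i4, i5, i6, c', hc1, hc2, hc3⟩ := CCHM.const k₀ k₁ c hc
  let a1 : Algebra k' K₁ := ((algebraMap k₁ K₁).comp (algebraMap k' k₁)).toAlgebra
  have t1 : IsScalarTower k' k₁ K₁ := IsScalarTower.of_algebraMap_eq fun y => rfl
  obtain ⟨K', j1, j2, j3, j4, j5, j6, j7, j8, h1, h2, h3, h4⟩ :=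
    CCHM.field hLDG hCEB k₀ K₀ k₁ K₁ k' h hF
  exact ⟨k', K', i1, j1, i2, j2, j3, j4, i3, a1, j5, j6, j7, j8, t1, i5, i6, c', h1, h2, h3, hc1,
    hc2, hc3, h4⟩

end MP743d1e.BD
end

section
/-!
# Theorem BD: module EXT (extension of homomorphisms)
-/
set_option autoImplicit false

namespace MP743d1e.BD

namespace EXTM

open scoped BigOperators TensorProduct
open Polynomial IntermediateField

variable {k₀ K₀ k₁ K₁ : Type} [Field k₀] [Field K₀] [Field k₁] [Field K₁]
  [Algebra k₀ K₀] [Algebra k₀ k₁] [Algebra k₀ K₁] [Algebra K₀ K₁] [Algebra k₁ K₁]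
  [IsScalarTower k₀ K₀ K₁] [IsScalarTower k₀ k₁ K₁]

variable (k₀ K₀ k₁ K₁) in
/-- The multiplication map. -/
noncomputable def mu : K₀ ⊗[k₀] k₁ →ₐ[k₀] K₁ :=
  Algebra.TensorProduct.productMap (IsScalarTower.toAlgHom k₀ K₀ K₁)
    (IsScalarTower.toAlgHom k₀ k₁ K₁)

theorem mu_tmul (a : K₀) (b : k₁) :
    mu k₀ K₀ k₁ K₁ (a ⊗ₜ b) = algebraMap K₀ K₁ a * algebraMap k₁ K₁ b := rfl

theorem mu_inj (h : CExt k₀ K₀ k₁ K₁) : Function.Injective (mu k₀ K₀ k₁ K₁) := by
  classical
  rw [injective_iff_map_eq_zero]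
  intro x hx
  let b := Module.Basis.ofVectorSpace k₀ k₁
  let bb := b.baseChange K₀
  have h1 : x = ∑ i ∈ (bb.repr x).support, (bb.repr x i) ⊗ₜ[k₀] (b i) := by
    have h0 := (bb.linearCombination_repr x).symm
    rw [Finsupp.linearCombination_apply, Finsupp.sum] at h0
    refine h0.trans (Finset.sum_congr rfl fun i _ => ?_)
    rw [Module.Basis.baseChange_apply, TensorProduct.smul_tmul', smul_eq_mul, mul_one]
  have h2 : ∑ i ∈ (bb.repr x).support, algebraMap K₀ K₁ (bb.repr x i) *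
      algebraMap k₁ K₁ (b i) = 0 := by
    rw [← hx]
    conv_rhs => rw [h1]
    rw [map_sum]
    exact Finset.sum_congr rfl fun i _ => (mu_tmul _ _).symm
  let e := (bb.repr x).support.equivFin
  let g : Fin _ → _ := fun j => (e.symm j).1
  have hg : Function.Injective g := Subtype.val_injective.comp e.symm.injective
  have h3 := h.ld _ (fun j => bb.repr x (g j)) (fun j => b (g j)) (b.linearIndependent.comp g hg)
    ((Equiv.sum_comp e.symm (fun i => algebraMap K₀ K₁ (bb.repr x i.1) *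
      algebraMap k₁ K₁ (b i.1))).trans ((Finset.sum_coe_sort (bb.repr x).support
      (fun i => algebraMap K₀ K₁ (bb.repr x i) * algebraMap k₁ K₁ (b i))).trans h2))
  rw [h1]
  refine Finset.sum_eq_zero fun i hi => ?_
  have h4 := h3 (e ⟨i, hi⟩)
  simp only [g, Equiv.symm_apply_apply] at h4
  rw [h4, TensorProduct.zero_tmul]

theorem mu_mem (a : K₀ ⊗[k₀] k₁) :
    mu k₀ K₀ k₁ K₁ a ∈ Algebra.adjoin k₁ (Set.range (algebraMap K₀ K₁)) := by
  induction a using TensorProduct.induction_on with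
  | zero => rw [map_zero]; exact zero_mem _
  | tmul x y =>
    rw [mu_tmul]
    exact mul_mem (Algebra.subset_adjoin ⟨x, rfl⟩) (Subalgebra.algebraMap_mem _ y)
  | add x y hx hy =>
    rw [map_add]
    exact add_mem hx hy

theorem mu_range : ∀ x ∈ Algebra.adjoin k₁ (Set.range (algebraMap K₀ K₁)),
    ∃ s : K₀ ⊗[k₀] k₁, mu k₀ K₀ k₁ K₁ s = x := by
  intro x hx
  induction hx using Algebra.adjoin_induction with
  | mem x hx =>
    obtain ⟨y, rfl⟩ := hx
    exact ⟨y ⊗ₜ 1, by rw [mu_tmul, map_one, mul_one]⟩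
  | algebraMap c => exact ⟨1 ⊗ₜ c, by rw [mu_tmul, map_one, one_mul]⟩
  | add x y _ _ hx hy =>
    obtain ⟨s, hs⟩ := hx
    obtain ⟨t, ht⟩ := hy
    exact ⟨s + t, by rw [map_add, hs, ht]⟩
  | mul x y _ _ hx hy =>
    obtain ⟨s, hs⟩ := hx
    obtain ⟨t, ht⟩ := hy
    exact ⟨s * t, by rw [map_mul, hs, ht]⟩

theorem mem_up (z : K₀) {x : K₀} (hx : x ∈ k₀⟮z⟯) :
    algebraMap K₀ K₁ x ∈ k₁⟮algebraMap K₀ K₁ z⟯ := by
  have h1 : k₀⟮z⟯ ≤ ((k₁⟮algebraMap K₀ K₁ z⟯).restrictScalars k₀).comap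
      (IsScalarTower.toAlgHom k₀ K₀ K₁) := by
    rw [adjoin_simple_le_iff]
    exact mem_adjoin_simple_self k₁ (algebraMap K₀ K₁ z)
  exact h1 hx

variable (k₀ K₀ k₁ K₁) in
/-- The map of the fields generated by `z`. -/
noncomputable def sg (z : K₀) : k₀⟮z⟯ →+* k₁⟮algebraMap K₀ K₁ z⟯ where
  toFun x := ⟨algebraMap K₀ K₁ x, mem_up z x.2⟩
  map_one' := Subtype.ext (map_one _)
  map_zero' := Subtype.ext (map_zero _)
  map_add' _ _ := Subtype.ext (map_add _ _ _)
  map_mul' _ _ := Subtype.ext (map_mul _ _ _)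

theorem alg_up (z : K₀) (hz : Algebra.IsAlgebraic k₀⟮z⟯ K₀) (y : K₀) :
    IsAlgebraic k₁⟮algebraMap K₀ K₁ z⟯ (algebraMap K₀ K₁ y) :=
  (hz.isAlgebraic y).ringHom_of_comp_eq (sg k₀ K₀ k₁ K₁ z) (algebraMap K₀ K₁)
    (RingHom.injective _) (by ext x; rfl)

theorem alg_R (z : K₀) (hz : Algebra.IsAlgebraic k₀⟮z⟯ K₀) :
    ∀ x ∈ Algebra.adjoin k₁ (Set.range (algebraMap K₀ K₁)),
      IsAlgebraic k₁⟮algebraMap K₀ K₁ z⟯ x := by
  intro x hx
  induction hx using Algebra.adjoin_induction with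
  | mem x hx =>
    obtain ⟨y, rfl⟩ := hx
    exact alg_up z hz y
  | algebraMap c =>
    exact isAlgebraic_algebraMap (A := K₁) (algebraMap k₁ k₁⟮algebraMap K₀ K₁ z⟯ c)
  | add x y _ _ hx hy => exact hx.add hy
  | mul x y _ _ hx hy => exact hx.mul hy

open scoped IntermediateField.algebraAdjoinAdjoin in
theorem alg_A {k K : Type} [Field k] [Field K] [Algebra k K] (w x : K) (h : IsAlgebraic k⟮w⟯ x) :
    IsAlgebraic (Algebra.adjoin k {w}) x :=
  (IsFractionRing.isAlgebraic_iff (Algebra.adjoin k {w}) k⟮w⟯ K).2 h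

/-- A nonzero element of the ring has a nonzero multiple in `k₁[z]`. -/
theorem mult (z : K₀) (hz : Algebra.IsAlgebraic k₀⟮z⟯ K₀) (x : K₁)
    (hx : x ∈ Algebra.adjoin k₁ (Set.range (algebraMap K₀ K₁))) (hx0 : x ≠ 0) :
    ∃ x' ∈ Algebra.adjoin k₁ (Set.range (algebraMap K₀ K₁)), ∃ q : k₁[X], q ≠ 0 ∧
      x * x' = aeval (algebraMap K₀ K₁ z) q := by
  have h1 : IsAlgebraic (Algebra.adjoin k₁ {algebraMap K₀ K₁ z}) x := alg_A _ x (alg_R z hz x hx)
  obtain ⟨x', hx', r, hr, he⟩ := h1.exists_nonzero_eq_adjoin_mul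
    (mem_nonZeroDivisors_of_ne_zero hx0)
  have h2 : ∀ a ∈ Algebra.adjoin k₁ {algebraMap K₀ K₁ z},
      a ∈ Algebra.adjoin k₁ (Set.range (algebraMap K₀ K₁)) := by
    intro a ha
    refine Algebra.adjoin_mono ?_ ha
    rintro _ rfl
    exact ⟨z, rfl⟩
  refine ⟨x', ?_, ?_⟩
  · clear he
    induction hx' using Algebra.adjoin_induction with
    | mem y hy =>
      rw [Set.mem_singleton_iff] at hy
      rw [hy]
      exact hx
    | algebraMap c => exact h2 _ c.2
    | add a b _ _ ha hb => exact add_mem ha hb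
    | mul a b _ _ ha hb => exact mul_mem ha hb
  · obtain ⟨q, hq⟩ := (Algebra.adjoin_singleton_eq_range_aeval k₁ (algebraMap K₀ K₁ z) ▸ r.2 :
      (r : K₁) ∈ (aeval (R := k₁) (algebraMap K₀ K₁ z)).range)
    refine ⟨q, ?_, ?_⟩
    · rintro rfl
      apply hr
      apply Subtype.ext
      rw [← hq]
      exact map_zero _
    · rw [he]
      exact hq.symm

end EXTM

open EXTM TensorProduct Polynomial in
/-- EXT. -/
theorem specEXT (_hCES : SpecCES) : SpecEXT := by
  intro k₀ K₀ k₁ K₁ Λ _ _ _ _ _ _ _ _ _ _ _ _ h z hz α φ hαφ hp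
  let _ : Algebra k₀ Λ := (φ.comp (algebraMap k₀ K₀)).toAlgebra
  let φ' : K₀ →ₐ[k₀] Λ := { φ with commutes' := fun c => rfl }
  let α' : k₁ →ₐ[k₀] Λ := { α with commutes' := fun c => hαφ c }
  let ψ : K₀ ⊗[k₀] k₁ →ₐ[k₀] Λ := Algebra.TensorProduct.productMap φ' α'
  have hψ : ∀ (a : K₀) (b : k₁), ψ (a ⊗ₜ[k₀] b) = φ a * α b := fun a b => rfl
  have hmu := mu_inj h
  -- polynomials in `z`
  have hpol : ∀ q : k₁[X], ∃ s : K₀ ⊗[k₀] k₁,
      mu k₀ K₀ k₁ K₁ s = aeval (algebraMap K₀ K₁ z) q ∧ ψ s = q.eval₂ α (φ z) := by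
    intro q
    induction q using Polynomial.induction_on' with
    | add p q hp hq =>
      obtain ⟨s, hs, hs'⟩ := hp
      obtain ⟨t, ht, ht'⟩ := hq
      exact ⟨s + t, by rw [map_add, map_add, hs, ht], by rw [map_add, eval₂_add, hs', ht']⟩
    | monomial n a =>
      refine ⟨(z ^ n) ⊗ₜ a, ?_, ?_⟩
      · rw [mu_tmul, aeval_monomial, map_pow, mul_comm]
      · rw [hψ, eval₂_monomial, map_pow, mul_comm]
  have hψi : Function.Injective ψ := by
    rw [injective_iff_map_eq_zero]
    intro a ha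
    by_contra hne
    have h1 : mu k₀ K₀ k₁ K₁ a ≠ 0 := fun h0 => hne (hmu (by rw [h0, map_zero]))
    obtain ⟨x', hx', q, hq, he⟩ := mult z hz _ (mu_mem a) h1
    obtain ⟨s, hs⟩ := mu_range (k₀ := k₀) x' hx'
    obtain ⟨t, ht, ht'⟩ := hpol q
    have h3 : a * s = t := hmu (by rw [map_mul, hs, he, ht])
    apply hp q hq
    rw [← ht', ← h3, map_mul, ha, zero_mul]
  have hdom : IsDomain (K₀ ⊗[k₀] k₁) :=
    Function.Injective.isDomain (mu k₀ K₀ k₁ K₁).toRingHom hmu
  let _ : Algebra (K₀ ⊗[k₀] k₁) K₁ := (mu k₀ K₀ k₁ K₁).toRingHom.toAlgebra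
  have halg : ∀ s : K₀ ⊗[k₀] k₁, algebraMap (K₀ ⊗[k₀] k₁) K₁ s = mu k₀ K₀ k₁ K₁ s := fun s => rfl
  have hfr : IsFractionRing (K₀ ⊗[k₀] k₁) K₁ := by
    have : FaithfulSMul (K₀ ⊗[k₀] k₁) K₁ :=
      (faithfulSMul_iff_algebraMap_injective _ _).2 hmu
    refine IsFractionRing.of_field _ _ fun x => ?_
    obtain ⟨a, ha, b, hb, hb0, he⟩ := h.gen x
    obtain ⟨s, hs⟩ := mu_range (k₀ := k₀) a ha
    obtain ⟨t, ht⟩ := mu_range (k₀ := k₀) b hb
    refine ⟨s, t, ?_⟩
    rw [halg, halg, hs, ht, eq_div_iff hb0, he]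
  refine ⟨IsFractionRing.lift (g := ψ.toRingHom) hψi, ?_, ?_⟩
  · intro c
    have h1 : algebraMap k₁ K₁ c = algebraMap (K₀ ⊗[k₀] k₁) K₁ (1 ⊗ₜ c) := by
      rw [halg, mu_tmul, map_one, one_mul]
    rw [h1, IsFractionRing.lift_algebraMap]
    show ψ (1 ⊗ₜ c) = α c
    rw [hψ, map_one, one_mul]
  · intro y
    have h1 : algebraMap K₀ K₁ y = algebraMap (K₀ ⊗[k₀] k₁) K₁ (y ⊗ₜ 1) := by
      rw [halg, mu_tmul, map_one, mul_one]
    rw [h1, IsFractionRing.lift_algebraMap]
    show ψ (y ⊗ₜ 1) = φ y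
    rw [hψ, map_one, mul_one]

end MP743d1e.BD
end

section
/-!
# Theorem BD: module CEB (basic facts about constant extensions)
-/
set_option autoImplicit false

namespace MP743d1e.BD

namespace CEBM

open scoped BigOperators
open Polynomial IntermediateField EXTM

theorem li_pow {k K : Type} [Field k] [Field K] [Algebra k K] {z : K} (hz : Transcendental k z) :
    LinearIndependent k (fun n : ℕ => z ^ n) := by
  have h1 := (Polynomial.basisMonomials k).linearIndependent.map' (aeval z).toLinearMap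
    (LinearMap.ker_eq_bot.2 (transcendental_iff_injective.1 hz))
  have h2 : (fun n : ℕ => z ^ n) = (aeval (R := k) z).toLinearMap ∘ (Polynomial.basisMonomials k) := by
    funext n
    rw [Function.comp_apply, Polynomial.coe_basisMonomials, AlgHom.toLinearMap_apply,
      aeval_monomial, map_one, one_mul]
  rw [h2]
  exact h1

theorem tr_pow {k K : Type} [Field k] [Field K] [Algebra k K] {z : K}
    (h : LinearIndependent k (fun n : ℕ => z ^ n)) : Transcendental k z := by
  rw [transcendental_iff]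
  intro p hp
  rw [aeval_eq_sum_range] at hp
  have h1 := linearIndependent_iff'.1 h _ _ hp
  ext i
  by_cases hi : i ∈ Finset.range (p.natDegree + 1)
  · rw [h1 i hi, coeff_zero]
  · rw [Finset.mem_range, not_lt] at hi
    rw [coeff_eq_zero_of_natDegree_lt (by omega), coeff_zero]

open scoped IntermediateField.algebraAdjoinAdjoin in
theorem li_F {k K : Type} [Field k] [Field K] [Algebra k K] (w : K) (n : ℕ) (v : Fin n → K)
    (h : LinearIndependent k (fun p : ℕ × Fin n => w ^ p.1 * v p.2)) :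
    LinearIndependent k⟮w⟯ v := by
  classical
  rw [← LinearIndependent.iff_fractionRing (Algebra.adjoin k {w}) k⟮w⟯,
    Fintype.linearIndependent_iff]
  intro g hg
  have h0 : ∀ i, ∃ p : k[X], aeval w p = (g i : K) := fun i =>
    (Algebra.adjoin_singleton_eq_range_aeval k w ▸ (g i).2 :
      (g i : K) ∈ (aeval (R := k) w).range)
  choose p hp using h0
  let N := (Finset.univ.sup fun i => (p i).natDegree) + 1
  have hN : ∀ i, (p i).natDegree < N := fun i =>
    Nat.lt_succ_of_le (Finset.le_sup (f := fun i => (p i).natDegree) (Finset.mem_univ i))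
  have h1 : ∑ q ∈ Finset.range N ×ˢ Finset.univ, (p q.2).coeff q.1 • (w ^ q.1 * v q.2) = 0 := by
    rw [Finset.sum_product_right, ← hg]
    refine Finset.sum_congr rfl fun i _ => ?_
    have h2 : g i • v i = aeval w (p i) * v i := by rw [hp]; rfl
    rw [h2, aeval_eq_sum_range' (hN i), Finset.sum_mul]
    exact Finset.sum_congr rfl fun j _ => (smul_mul_assoc _ _ _).symm
  have h2 := linearIndependent_iff'.1 h _ _ h1
  intro i
  have h3 : p i = 0 := by
    ext j
    by_cases hj : j < N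
    · exact h2 (j, i) (Finset.mem_product.2 ⟨Finset.mem_range.2 hj, Finset.mem_univ _⟩)
    · rw [coeff_eq_zero_of_natDegree_lt (by have := hN i; omega), coeff_zero]
  apply Subtype.ext
  rw [← hp, h3]
  exact map_zero _

variable {k₀ K₀ k₁ K₁ : Type} [Field k₀] [Field K₀] [Field k₁] [Field K₁]
  [Algebra k₀ K₀] [Algebra k₀ k₁] [Algebra k₀ K₁] [Algebra K₀ K₁] [Algebra k₁ K₁]
  [IsScalarTower k₀ K₀ K₁] [IsScalarTower k₀ k₁ K₁]

theorem li_up (h : CExt k₀ k₁ K₀ K₁) {ι : Type} (c : ι → K₀) (hc : LinearIndependent k₀ c) :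
    LinearIndependent k₁ (fun i => algebraMap K₀ K₁ (c i)) := by
  classical
  rw [linearIndependent_iff']
  intro s g hg i hi
  let e := s.equivFin
  let f : Fin _ → ι := fun j => (e.symm j).1
  have hf : Function.Injective f := Subtype.val_injective.comp e.symm.injective
  have h1 := h.ld _ (fun j => g (f j)) (fun j => c (f j)) (hc.comp f hf)
    ((Equiv.sum_comp e.symm (fun i => algebraMap k₁ K₁ (g i.1) *
      algebraMap K₀ K₁ (c i.1))).trans ((Finset.sum_coe_sort s
      (fun i => algebraMap k₁ K₁ (g i) * algebraMap K₀ K₁ (c i))).trans (by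
        rw [← hg]
        exact Finset.sum_congr rfl fun i _ => (Algebra.smul_def _ _).symm)))
  have h2 := h1 (e ⟨i, hi⟩)
  simp only [f, Equiv.symm_apply_apply] at h2
  exact h2

theorem tr_up (h : CExt k₀ k₁ K₀ K₁) {z : K₀} (hz : Transcendental k₀ z) :
    Transcendental k₁ (algebraMap K₀ K₁ z) := by
  apply tr_pow
  have h1 := li_up h _ (li_pow hz)
  simp only [map_pow] at h1
  exact h1

theorem li_e (h : CExt k₀ k₁ K₀ K₁) {z : K₀} (hz : Transcendental k₀ z) {n : ℕ} (e : Fin n → K₀)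
    (he : LinearIndependent k₀⟮z⟯ e) :
    LinearIndependent k₁⟮algebraMap K₀ K₁ z⟯ (fun i => algebraMap K₀ K₁ (e i)) := by
  apply li_F
  have h1 : LinearIndependent k₀ (fun j : ℕ => (⟨z, mem_adjoin_simple_self k₀ z⟩ : k₀⟮z⟯) ^ j) := by
    apply LinearIndependent.of_comp (k₀⟮z⟯.val).toLinearMap
    exact li_pow hz
  have h2 := li_up h _ (linearIndependent_smul h1 he)
  have h3 : (fun p : ℕ × Fin n => (algebraMap K₀ K₁ z) ^ p.1 * algebraMap K₀ K₁ (e p.2)) =
      fun i : ℕ × Fin n => algebraMap K₀ K₁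
        ((⟨z, mem_adjoin_simple_self k₀ z⟩ : k₀⟮z⟯) ^ i.1 • e i.2) := by
    funext p
    rw [Algebra.smul_def, map_mul, map_pow, map_pow]
    rfl
  rw [h3]
  exact h2

theorem span_e (h : CExt k₀ K₀ k₁ K₁) {z : K₀} {n : ℕ} (e : Module.Basis (Fin n) k₀⟮z⟯ K₀) :
    ⊤ ≤ Submodule.span k₁⟮algebraMap K₀ K₁ z⟯ (Set.range fun i => algebraMap K₀ K₁ (e i)) := by
  have hfin : Module.Finite k₀⟮z⟯ K₀ := Module.Finite.of_basis e
  have halg : Algebra.IsAlgebraic k₀⟮z⟯ K₀ := Algebra.IsAlgebraic.of_finite _ _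
  have h1 : ∀ y : K₀, algebraMap K₀ K₁ y ∈
      Submodule.span k₁⟮algebraMap K₀ K₁ z⟯ (Set.range fun i => algebraMap K₀ K₁ (e i)) := by
    intro y
    rw [← e.sum_repr y, map_sum]
    refine Submodule.sum_mem _ fun i _ => ?_
    have h2 : algebraMap K₀ K₁ (e.repr y i • e i) =
        (sg k₀ K₀ k₁ K₁ z (e.repr y i)) • algebraMap K₀ K₁ (e i) := by
      rw [Algebra.smul_def, map_mul]
      rfl
    rw [h2]
    exact Submodule.smul_mem _ _ (Submodule.subset_span ⟨i, rfl⟩)
  set B := Algebra.adjoin k₁⟮algebraMap K₀ K₁ z⟯ (Set.range (algebraMap K₀ K₁)) with hB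
  have h2 : Subalgebra.toSubmodule B ≤
      Submodule.span k₁⟮algebraMap K₀ K₁ z⟯ (Set.range fun i => algebraMap K₀ K₁ (e i)) := by
    rw [hB, Algebra.adjoin_eq_span, Submodule.span_le]
    intro x hx
    have h3 : x ∈ MonoidHom.mrange (algebraMap K₀ K₁ : K₀ →* K₁) := by
      refine (Submonoid.closure_le.2 ?_) hx
      rintro _ ⟨y, rfl⟩
      exact ⟨y, rfl⟩
    obtain ⟨y, rfl⟩ := h3
    exact h1 y
  have h3 : ∀ x ∈ Algebra.adjoin k₁ (Set.range (algebraMap K₀ K₁)), x ∈ B := by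
    intro x hx
    induction hx using Algebra.adjoin_induction with
    | mem x hx => exact Algebra.subset_adjoin hx
    | algebraMap c =>
      exact Subalgebra.algebraMap_mem B (algebraMap k₁ k₁⟮algebraMap K₀ K₁ z⟯ c)
    | add x y _ _ hx hy => exact add_mem hx hy
    | mul x y _ _ hx hy => exact mul_mem hx hy
  intro x _
  obtain ⟨a, ha, b, hb, hb0, he⟩ := h.gen x
  apply h2
  have h4 : b⁻¹ ∈ B := by
    have h5 := Subalgebra.inv_mem_of_algebraic (A := B) (x := ⟨b, h3 b hb⟩) (alg_R z halg b hb)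
    exact h5
  have h5 : x = a * b⁻¹ := by
    rw [← he, mul_assoc, mul_inv_cancel₀ hb0, mul_one]
  have h6 : a * b⁻¹ ∈ B := mul_mem (h3 a ha) h4
  rw [h5]
  exact h6

end CEBM

open CEBM IntermediateField in
/-- CEB. -/
theorem specCEB (hCES : SpecCES) : SpecCEB := by
  intro k₀ K₀ k₁ K₁ _ _ _ _ _ _ _ _ _ _ _ h hK
  have h' := (hCES k₀ K₀ k₁ K₁ h).1
  have h2 : ∀ z : K₀, Transcendental k₀ z → ∀ (n : ℕ) (e : Module.Basis (Fin n) k₀⟮z⟯ K₀),
      ∃ e' : Module.Basis (Fin n) k₁⟮algebraMap K₀ K₁ z⟯ K₁, ∀ i, e' i = algebraMap K₀ K₁ (e i) := by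
    intro z hz n e
    refine ⟨Module.Basis.mk (li_e h' hz _ e.linearIndependent) (span_e h e), fun i => ?_⟩
    rw [Module.Basis.mk_apply]
  refine ⟨fun z hz => tr_up h' hz, h2, ?_, ?_⟩
  · obtain ⟨x, hx, hfin⟩ := hK
    obtain ⟨e', -⟩ := h2 x hx _ (Module.finBasis k₀⟮x⟯ K₀)
    exact ⟨algebraMap K₀ K₁ x, tr_up h' hx, Module.Finite.of_basis e'⟩
  · intro y c hyc
    by_cases hc : ∃ c₀ : k₀, algebraMap k₀ k₁ c₀ = c
    · obtain ⟨c₀, rfl⟩ := hc
      refine ⟨c₀, ?_, rfl⟩
      apply (algebraMap K₀ K₁).injective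
      rw [hyc, ← IsScalarTower.algebraMap_apply, ← IsScalarTower.algebraMap_apply]
    · exfalso
      have h3 : LinearIndependent k₀ ![(1 : k₁), c] := by
        rw [LinearIndependent.pair_iff' one_ne_zero]
        intro a ha
        exact hc ⟨a, by rw [← ha, Algebra.smul_def, mul_one]⟩
      have h4 := h.ld 2 ![y, -1] ![1, c] h3 (by
        simp [Fin.sum_univ_two, hyc]) 1
      simp at h4

end MP743d1e.BD
end

section
/-!
# Theorem BD, module CES: the roles of `K₀` and `k₁` can be exchanged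
-/
set_option autoImplicit false

namespace MP743d1e.BD.CESM

open scoped BigOperators
open Polynomial IntermediateField MP743d1e.CY MP743d1e.GX MP743d1e.Integ Filter

section

variable {k₀ K₀ k₁ K₁ : Type} [Field k₀] [Field K₀] [Field k₁] [Field K₁]
  [Algebra k₀ K₀] [Algebra k₀ k₁] [Algebra k₀ K₁] [Algebra K₀ K₁] [Algebra k₁ K₁]
  [IsScalarTower k₀ K₀ K₁] [IsScalarTower k₀ k₁ K₁]

/-- Every family in a vector space is a combination of linearly independent vectors of its span. -/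
theorem span_rep {V : Type} [AddCommGroup V] [Module k₀ V] {n : ℕ} (v : Fin n → V) :
    ∃ (m : ℕ) (w : Fin m → V) (a : Fin n → Fin m → k₀), LinearIndependent k₀ w ∧
      (∀ j, w j ∈ Submodule.span k₀ (Set.range v)) ∧ ∀ i, v i = ∑ j, a i j • w j := by
  classical
  have hfd : FiniteDimensional k₀ (Submodule.span k₀ (Set.range v)) :=
    FiniteDimensional.span_of_finite k₀ (Set.finite_range v)
  have hmem : ∀ i, v i ∈ Submodule.span k₀ (Set.range v) :=
    fun i => Submodule.subset_span ⟨i, rfl⟩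
  let b := Module.finBasis k₀ (Submodule.span k₀ (Set.range v))
  refine ⟨_, fun j => (b j : V), fun i j => b.repr ⟨v i, hmem i⟩ j, ?_, fun j => (b j).2, ?_⟩
  · exact b.linearIndependent.map' (Submodule.subtype _) (Submodule.ker_subtype _)
  · intro i
    have h1 := congrArg (Submodule.subtype (Submodule.span k₀ (Set.range v)))
      (b.sum_repr ⟨v i, hmem i⟩)
    rw [map_sum] at h1
    simp only [map_smul, Submodule.subtype_apply] at h1
    exact h1.symm

/-- Elements of `Algebra.adjoin` are sums of products. -/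
theorem rep0 {x : K₁} (hx : x ∈ Algebra.adjoin k₁ (Set.range (algebraMap K₀ K₁))) :
    ∃ (ι : Type) (_ : Fintype ι) (r : ι → K₀) (c : ι → k₁),
      x = ∑ i, algebraMap K₀ K₁ (r i) * algebraMap k₁ K₁ (c i) := by
  classical
  induction hx using Algebra.adjoin_induction with
  | mem x hx =>
    obtain ⟨y, rfl⟩ := hx
    exact ⟨Unit, inferInstance, fun _ => y, fun _ => 1, by simp⟩
  | algebraMap c =>
    exact ⟨Unit, inferInstance, fun _ => 1, fun _ => c, by simp⟩
  | add x y _ _ hx hy =>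
    obtain ⟨ι, _, r, c, rfl⟩ := hx
    obtain ⟨κ, _, r', c', rfl⟩ := hy
    exact ⟨ι ⊕ κ, inferInstance, Sum.elim r r', Sum.elim c c', by simp⟩
  | mul x y _ _ hx hy =>
    obtain ⟨ι, _, r, c, rfl⟩ := hx
    obtain ⟨κ, _, r', c', rfl⟩ := hy
    refine ⟨ι × κ, inferInstance, fun p => r p.1 * r' p.2, fun p => c p.1 * c' p.2, ?_⟩
    rw [Finset.sum_mul_sum, Fintype.sum_prod_type]
    refine Finset.sum_congr rfl fun i _ => Finset.sum_congr rfl fun j _ => ?_
    rw [map_mul, map_mul]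
    ring

/-- The same with `Fin n`. -/
theorem rep1 {x : K₁} (hx : x ∈ Algebra.adjoin k₁ (Set.range (algebraMap K₀ K₁))) :
    ∃ (n : ℕ) (r : Fin n → K₀) (c : Fin n → k₁),
      x = ∑ i, algebraMap K₀ K₁ (r i) * algebraMap k₁ K₁ (c i) := by
  obtain ⟨ι, _, r, c, rfl⟩ := rep0 hx
  refine ⟨Fintype.card ι, fun i => r ((Fintype.equivFin ι).symm i),
    fun i => c ((Fintype.equivFin ι).symm i), ?_⟩
  exact (Equiv.sum_comp (Fintype.equivFin ι).symm
    fun i => algebraMap K₀ K₁ (r i) * algebraMap k₁ K₁ (c i)).symm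

/-- A linear relation between the first factors shortens the sum. -/
theorem shorten {n : ℕ} (r : Fin (n + 1) → K₀) (c : Fin (n + 1) → k₁)
    (h : ¬ LinearIndependent k₀ r) : ∃ (r' : Fin n → K₀) (c' : Fin n → k₁),
      ∑ i, algebraMap K₀ K₁ (r i) * algebraMap k₁ K₁ (c i) =
        ∑ i, algebraMap K₀ K₁ (r' i) * algebraMap k₁ K₁ (c' i) := by
  classical
  obtain ⟨g, hg, i₀, hi⟩ := Fintype.not_linearIndependent_iff.1 h
  have h1 : r i₀ = ∑ i : Fin n, (-(g i₀)⁻¹ * g (i₀.succAbove i)) • r (i₀.succAbove i) := by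
    rw [Fin.sum_univ_succAbove _ i₀] at hg
    have h2 : g i₀ • r i₀ = - ∑ i : Fin n, g (i₀.succAbove i) • r (i₀.succAbove i) :=
      eq_neg_of_add_eq_zero_left hg
    have h3 : r i₀ = (g i₀)⁻¹ • (g i₀ • r i₀) := by
      rw [smul_smul, inv_mul_cancel₀ hi, one_smul]
    rw [h3, h2, smul_neg, Finset.smul_sum, ← Finset.sum_neg_distrib]
    refine Finset.sum_congr rfl fun i _ => ?_
    rw [smul_smul, neg_mul, neg_smul]
  refine ⟨fun i => r (i₀.succAbove i), fun i => c (i₀.succAbove i) +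
    (-(g i₀)⁻¹ * g (i₀.succAbove i)) • c i₀, ?_⟩
  rw [Fin.sum_univ_succAbove _ i₀, h1, map_sum, Finset.sum_mul, ← Finset.sum_add_distrib]
  refine Finset.sum_congr rfl fun i _ => ?_
  have e1 : ∀ (a : k₀) (y : K₀), algebraMap K₀ K₁ (a • y) =
      algebraMap k₀ K₁ a * algebraMap K₀ K₁ y := by
    intro a y
    rw [Algebra.smul_def, map_mul, ← IsScalarTower.algebraMap_apply]
  have e2 : ∀ (a : k₀) (y : k₁), algebraMap k₁ K₁ (a • y) =
      algebraMap k₀ K₁ a * algebraMap k₁ K₁ y := by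
    intro a y
    rw [Algebra.smul_def, map_mul, ← IsScalarTower.algebraMap_apply]
  rw [e1, map_add, e2]
  ring

/-- The same for the second factors. -/
theorem shorten' {n : ℕ} (r : Fin (n + 1) → K₀) (c : Fin (n + 1) → k₁)
    (h : ¬ LinearIndependent k₀ c) : ∃ (r' : Fin n → K₀) (c' : Fin n → k₁),
      ∑ i, algebraMap K₀ K₁ (r i) * algebraMap k₁ K₁ (c i) =
        ∑ i, algebraMap K₀ K₁ (r' i) * algebraMap k₁ K₁ (c' i) := by
  obtain ⟨c', r', h'⟩ := shorten (k₀ := k₀) (K₀ := k₁) (k₁ := K₀) (K₁ := K₁) c r h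
  refine ⟨r', c', ?_⟩
  simpa only [mul_comm] using h'

theorem rep {x : K₁} (hx : x ∈ Algebra.adjoin k₁ (Set.range (algebraMap K₀ K₁))) :
    ∃ (n : ℕ) (r : Fin n → K₀) (c : Fin n → k₁), LinearIndependent k₀ r ∧ LinearIndependent k₀ c ∧
      x = ∑ i, algebraMap K₀ K₁ (r i) * algebraMap k₁ K₁ (c i) := by
  classical
  have hex := rep1 hx
  obtain ⟨r, c, h⟩ := Nat.find_spec hex
  have hmin := fun m (hm : m < Nat.find hex) => Nat.find_min hex hm
  generalize Nat.find hex = n at r c h hmin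
  refine ⟨n, r, c, ?_, ?_, h⟩
  · by_contra h1
    rcases n with _ | n
    · exact h1 (linearIndependent_empty_type)
    · obtain ⟨r', c', h2⟩ := shorten (k₀ := k₀) (K₁ := K₁) r c h1
      exact hmin n (Nat.lt_succ_self n) ⟨r', c', h.trans h2⟩
  · by_contra h1
    rcases n with _ | n
    · exact h1 (linearIndependent_empty_type)
    · obtain ⟨r', c', h2⟩ := shorten' (k₀ := k₀) (K₁ := K₁) r c h1
      exact hmin n (Nat.lt_succ_self n) ⟨r', c', h.trans h2⟩

theorem third (n : ℕ) (r : Fin n → K₀) (c : Fin n → k₁) :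
    ∃ (m : ℕ) (r' : Fin m → K₀) (c' : Fin m → k₁),
    LinearIndependent k₀ r' ∧ (∀ j, r' j ∈ Submodule.span k₀ (Set.range r)) ∧
    ∑ i, algebraMap K₀ K₁ (r i) * algebraMap k₁ K₁ (c i) =
      ∑ j, algebraMap K₀ K₁ (r' j) * algebraMap k₁ K₁ (c' j) := by
  obtain ⟨m, w, a, hw, hws, hr⟩ := span_rep (k₀ := k₀) r
  refine ⟨m, w, fun j => ∑ i, a i j • c i, hw, hws, ?_⟩
  have h1 : ∀ i, algebraMap K₀ K₁ (r i) * algebraMap k₁ K₁ (c i) =
      ∑ j, algebraMap k₀ K₁ (a i j) * algebraMap K₀ K₁ (w j) * algebraMap k₁ K₁ (c i) := by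
    intro i
    rw [hr i, map_sum, Finset.sum_mul]
    refine Finset.sum_congr rfl fun j _ => ?_
    rw [Algebra.smul_def, map_mul, ← IsScalarTower.algebraMap_apply]
  rw [Finset.sum_congr rfl fun i _ => h1 i, Finset.sum_comm]
  refine Finset.sum_congr rfl fun j _ => ?_
  rw [map_sum, Finset.mul_sum]
  refine Finset.sum_congr rfl fun i _ => ?_
  rw [Algebra.smul_def, map_mul, ← IsScalarTower.algebraMap_apply]
  ring

theorem ld' (h : CExt k₀ K₀ k₁ K₁) (n : ℕ) (r : Fin n → k₁) (c : Fin n → K₀)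
    (hc : LinearIndependent k₀ c)
    (h0 : ∑ i, algebraMap k₁ K₁ (r i) * algebraMap K₀ K₁ (c i) = 0) : ∀ i, r i = 0 := by
  obtain ⟨m, w, a, hw, -, hr⟩ := span_rep (k₀ := k₀) r
  have h1 : ∑ j, algebraMap K₀ K₁ (∑ i, a i j • c i) * algebraMap k₁ K₁ (w j) = 0 := by
    rw [← h0]
    have h2 : ∀ i, algebraMap k₁ K₁ (r i) * algebraMap K₀ K₁ (c i) =
        ∑ j, algebraMap k₀ K₁ (a i j) * algebraMap k₁ K₁ (w j) * algebraMap K₀ K₁ (c i) := by
      intro i
      rw [hr i, map_sum, Finset.sum_mul]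
      refine Finset.sum_congr rfl fun j _ => ?_
      rw [Algebra.smul_def, map_mul, ← IsScalarTower.algebraMap_apply]
    rw [Finset.sum_congr rfl fun i _ => h2 i, Finset.sum_comm]
    refine Finset.sum_congr rfl fun j _ => ?_
    rw [map_sum, Finset.sum_mul]
    refine Finset.sum_congr rfl fun i _ => ?_
    rw [Algebra.smul_def, map_mul, ← IsScalarTower.algebraMap_apply]
    ring
  have h2 := h.ld m (fun j => ∑ i, a i j • c i) w hw h1
  intro i
  rw [hr i]
  refine Finset.sum_eq_zero fun j _ => ?_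
  rw [Fintype.linearIndependent_iff.1 hc (fun i => a i j) (h2 j) i, zero_smul]

theorem mem' {x : K₁} (hx : x ∈ Algebra.adjoin k₁ (Set.range (algebraMap K₀ K₁))) :
    x ∈ Algebra.adjoin K₀ (Set.range (algebraMap k₁ K₁)) := by
  obtain ⟨n, r, c, rfl⟩ := rep1 hx
  refine Subalgebra.sum_mem _ fun i _ => ?_
  exact Subalgebra.mul_mem _ (Subalgebra.algebraMap_mem _ _)
    (Algebra.subset_adjoin ⟨c i, rfl⟩)

end

end MP743d1e.BD.CESM

namespace MP743d1e.BD

theorem specCES : SpecCES := by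
  intro k₀ K₀ k₁ K₁ _ _ _ _ _ _ _ _ _ _ _ h
  refine ⟨⟨CESM.ld' h, ?_⟩, fun x hx => CESM.rep hx, CESM.third⟩
  intro x
  obtain ⟨a, ha, b, hb, hb0, hab⟩ := h.gen x
  exact ⟨a, CESM.mem' ha, b, CESM.mem' hb, hb0, hab⟩

end MP743d1e.BD
end

section
/-! # Module CHD: change of the variable -/
set_option autoImplicit false

namespace MP743d1e.BD

open scoped BigOperators
open Polynomial IntermediateField MP743d1e.CY MP743d1e.GX MP743d1e.Integ Filter

theorem CHDM.key (hDUQ : SpecDUQ) (hLSD : SpecLSD) (k K : Type) [Field k] [Field K] [Algebra k K]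
    [CharZero k] (hF : Fun1 k K) (x z : K) (δ : Derivation ℤ K K) (hx : Transcendental k x)
    (hδ : ∀ c : k, δ (algebraMap k K c) = 0) (hδx : δ x = 1)
    (ι : K →+* LaurentSeries k) (hι : IsOver k ι) : dS (ι z) = ι (δ z) * dS (ι x) := by
  have L := hLSD k
  have hfd : FiniteDimensional k⟮x⟯ K := fdx hF hx
  have hA : AlongD ι (fun y => dS (ι y)) := by
    refine ⟨fun a b => ?_, fun a b => ?_⟩
    · show dS (ι (a + b)) = dS (ι a) + dS (ι b)
      rw [map_add]
      exact L.d_along.1 _ _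
    · show dS (ι (a * b)) = ι a * dS (ι b) + ι b * dS (ι a)
      rw [map_mul]
      have := L.d_along.2 (ι a) (ι b)
      simpa using this
  have hB : AlongD ι (fun y => ι (δ y) * dS (ι x)) := by
    refine ⟨fun a b => ?_, fun a b => ?_⟩
    · show ι (δ (a + b)) * dS (ι x) = ι (δ a) * dS (ι x) + ι (δ b) * dS (ι x)
      rw [map_add, map_add, add_mul]
    · show ι (δ (a * b)) * dS (ι x) = ι a * (ι (δ b) * dS (ι x)) + ι b * (ι (δ a) * dS (ι x))
      rw [Derivation.leibniz, smul_eq_mul, smul_eq_mul, map_add, map_mul, map_mul]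
      ring
  refine hDUQ.2.2 k K (LaurentSeries k) ι (fun y => dS (ι y)) (fun y => ι (δ y) * dS (ι x)) hA hB
    (fun c => ?_) x (Algebra.IsAlgebraic.of_finite _ _) ?_ z
  · show dS (ι (algebraMap k K c)) = ι (δ (algebraMap k K c)) * dS (ι x)
    rw [hδ c, hι c, L.d_C, map_zero, zero_mul]
  · show dS (ι x) = ι (δ x) * dS (ι x)
    rw [hδx, map_one, one_mul]

theorem specCHD (hDUQ : SpecDUQ) (hLSD : SpecLSD) : SpecCHD := by
  intro k K _ _ _ _ hF x z h δ hx hδ hδx
  have key : ∀ ι : K →+* LaurentSeries k, IsOver k ι → dS (ι z) = ι (δ z) * dS (ι x) :=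
    fun ι hι => CHDM.key hDUQ hLSD k K hF x z δ hx hδ hδx ι hι
  refine ⟨key, ⟨fun H ι hι hu => ?_, fun H ι hι hu => ?_⟩⟩
  · have := H ι hι hu
    rw [key ι hι] at this
    rw [map_mul, mul_assoc]
    exact this
  · have := H ι hι hu
    rw [map_mul, mul_assoc, ← key ι hι] at this
    exact this

end MP743d1e.BD
end

section
/-!
# Theorem BD: module CORE (the general case)
-/
set_option autoImplicit false

namespace MP743d1e.BD

open scoped BigOperators TensorProduct
open Polynomial IntermediateField MP743d1e.CY MP743d1e.GX MP743d1e.Integ Filter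

namespace COREM

theorem um_um {A B C : Type} [Field A] [Field B] [Field C] [Algebra A B] [Algebra B C]
    [Algebra A C] (h : ∀ x : A, algebraMap B C (algebraMap A B x) = algebraMap A C x) (u : Aˣ) :
    um B C (um A B u) = um A C u := by
  apply Units.ext
  exact h (u : A)

theorem mk2_sym {A B : Type} [Field A] [Field B] [Algebra A B] (f g : Aˣ) :
    mk2 A B (sym f g) = sym (um A B f) (um A B g) := ConstM.mapK_sym _ f g

theorem mk2_mk2 {A B C : Type} [Field A] [Field B] [Field C] [Algebra A B] [Algebra B C]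
    [Algebra A C] (h : ∀ x : A, algebraMap B C (algebraMap A B x) = algebraMap A C x) (β : K2 A) :
    mk2 B C (mk2 A B β) = mk2 A C β := by
  have : (mk2 B C).comp (mk2 A B) = mk2 A C := by
    apply K2.hom_ext
    intro f g
    show mk2 B C (mk2 A B (sym f g)) = mk2 A C (sym f g)
    rw [mk2_sym, mk2_sym, mk2_sym, um_um h, um_um h]
  exact DFunLike.congr_fun this β

/-- the field generated by `K₀` and finitely many constants -/
noncomputable def gf (K₀ k₁ K₁ : Type) [Field K₀] [Field k₁] [Field K₁] [Algebra K₀ K₁]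
    [Algebra k₁ K₁] (s : List k₁) : IntermediateField K₀ K₁ :=
  IntermediateField.adjoin K₀ ((fun c => algebraMap k₁ K₁ c) '' {c | c ∈ s})

theorem gf_mono {K₀ k₁ K₁ : Type} [Field K₀] [Field k₁] [Field K₁] [Algebra K₀ K₁]
    [Algebra k₁ K₁] {s s' : List k₁} (h : ∀ c ∈ s, c ∈ s') : gf K₀ k₁ K₁ s ≤ gf K₀ k₁ K₁ s' := by
  apply IntermediateField.adjoin.mono
  apply Set.image_mono
  intro c hc
  exact h c hc

theorem exists_list {k₀ K₀ k₁ K₁ : Type} [Field k₀] [Field K₀] [Field k₁] [Field K₁]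
    [Algebra k₀ K₀] [Algebra k₀ k₁] [Algebra k₀ K₁] [Algebra K₀ K₁] [Algebra k₁ K₁]
    [IsScalarTower k₀ K₀ K₁] [IsScalarTower k₀ k₁ K₁] (h : CExt k₀ K₀ k₁ K₁) (x : K₁) :
    ∃ s : List k₁, x ∈ gf K₀ k₁ K₁ s := by
  have key : ∀ a ∈ Algebra.adjoin k₁ (Set.range (algebraMap K₀ K₁)),
      ∃ s : List k₁, a ∈ gf K₀ k₁ K₁ s := by
    intro a ha
    induction ha using Algebra.adjoin_induction with
    | mem x hx =>
      obtain ⟨y, rfl⟩ := hx
      exact ⟨[], IntermediateField.algebraMap_mem _ y⟩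
    | algebraMap c =>
      refine ⟨[c], IntermediateField.subset_adjoin K₀ _ ⟨c, ?_, rfl⟩⟩
      exact List.mem_singleton_self c
    | add x y _ _ hx hy =>
      obtain ⟨s, hs⟩ := hx
      obtain ⟨s', hs'⟩ := hy
      exact ⟨s ++ s', add_mem (gf_mono (fun c hc => List.mem_append_left s' hc) hs)
        (gf_mono (fun c hc => List.mem_append_right s hc) hs')⟩
    | mul x y _ _ hx hy =>
      obtain ⟨s, hs⟩ := hx
      obtain ⟨s', hs'⟩ := hy
      exact ⟨s ++ s', mul_mem (gf_mono (fun c hc => List.mem_append_left s' hc) hs)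
        (gf_mono (fun c hc => List.mem_append_right s hc) hs')⟩
  obtain ⟨a, ha, b, hb, hb0, hx⟩ := h.gen x
  obtain ⟨s, hs⟩ := key a ha
  obtain ⟨s', hs'⟩ := key b hb
  refine ⟨s ++ s', ?_⟩
  have : x = a / b := by rw [← hx, mul_div_cancel_right₀ _ hb0]
  rw [this]
  exact div_mem (gf_mono (fun c hc => List.mem_append_left s' hc) hs)
    (gf_mono (fun c hc => List.mem_append_right s hc) hs')

theorem ind (hCORE1 : SpecCORE1) (hCCH : SpecCCH) (hC6 : SpecC6) (k₁ K₁ : Type) [Field k₁]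
    [Field K₁] [Algebra k₁ K₁] [IsAlgClosed k₁] (f g : K₁ˣ) (hT : TorTameF k₁ (sym f g))
    (s : List k₁) : ∀ (k₀ K₀ : Type) [Field k₀] [Field K₀]
    [Algebra k₀ K₀] [Algebra k₀ k₁] [Algebra k₀ K₁] [Algebra K₀ K₁]
    [IsScalarTower k₀ K₀ K₁] [IsScalarTower k₀ k₁ K₁] [IsAlgClosed k₀] [CharZero k₀],
    CExt k₀ K₀ k₁ K₁ → Fun1 k₀ K₀ → (f : K₁) ∈ gf K₀ k₁ K₁ s → (g : K₁) ∈ gf K₀ k₁ K₁ s →
    ∃ f' g' : K₀ˣ, TorTameF k₀ (sym f' g') ∧
      EquivK k₁ (sym f g) (sym (um K₀ K₁ f') (um K₀ K₁ g')) := by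
  induction s with
  | nil =>
    intro k₀ K₀ _ _ _ _ _ _ _ _ _ _ h hF hf hg
    have hbot : gf K₀ k₁ K₁ ([] : List k₁) = ⊥ := by
      unfold gf
      have : ((fun c => algebraMap k₁ K₁ c) '' {c | c ∈ ([] : List k₁)}) = ∅ := by
        rw [Set.image_eq_empty]
        ext c
        simp
      rw [this, IntermediateField.adjoin_empty]
    rw [hbot] at hf hg
    obtain ⟨f0, hf0⟩ := IntermediateField.mem_bot.mp hf
    obtain ⟨g0, hg0⟩ := IntermediateField.mem_bot.mp hg
    have hf1 : f0 ≠ 0 := by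
      rintro rfl
      rw [map_zero] at hf0
      exact f.ne_zero hf0.symm
    have hg1 : g0 ≠ 0 := by
      rintro rfl
      rw [map_zero] at hg0
      exact g.ne_zero hg0.symm
    have ef : um K₀ K₁ (Units.mk0 f0 hf1) = f := Units.ext hf0
    have eg : um K₀ K₁ (Units.mk0 g0 hg1) = g := Units.ext hg0
    refine ⟨Units.mk0 f0 hf1, Units.mk0 g0 hg1, ?_, ?_⟩
    · apply hC6 k₀ K₀ k₁ K₁ h hF
      rw [ef, eg]
      exact hT
    · rw [ef, eg]
      exact ⟨1, Nat.one_pos, 0, by rw [sub_self, smul_zero, map_zero]⟩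
  | cons c s ih =>
    intro k₀ K₀ _ _ _ _ _ _ _ _ _ _ h hF hf hg
    rcases con (k := k₀) c with hc | ⟨c0, hc0⟩
    · obtain ⟨k', K', _, _, _, _, _, _, _, _, _, _, _, _, _, _, _, c', h1, h2, h3, hc1, hc2, hc3,
        hcomp⟩ := hCCH k₀ K₀ k₁ K₁ h hF c hc
      have hle : ∀ x : K₁, x ∈ gf K₀ k₁ K₁ (c :: s) → x ∈ gf K' k₁ K₁ s := by
        intro x hx
        unfold gf at hx
        induction hx using IntermediateField.adjoin_induction with
        | mem y hy =>
          obtain ⟨d, hd, rfl⟩ := hy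
          rcases List.mem_cons.mp hd with rfl | hd
          · have : algebraMap k₁ K₁ d = algebraMap K' K₁ (algebraMap k' K' c') := by
              rw [← IsScalarTower.algebraMap_apply k' K' K₁, IsScalarTower.algebraMap_apply k' k₁ K₁,
                hc1]
            show algebraMap k₁ K₁ d ∈ _
            rw [this]
            exact IntermediateField.algebraMap_mem _ _
          · exact IntermediateField.subset_adjoin K' _ ⟨d, hd, rfl⟩
        | algebraMap y =>
          rw [← hcomp y]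
          exact IntermediateField.algebraMap_mem _ _
        | add x y _ _ hx hy => exact add_mem hx hy
        | inv x _ hx => exact inv_mem hx
        | mul x y _ _ hx hy => exact mul_mem hx hy
      obtain ⟨f'', g'', hT'', m, hm, γ, hγ⟩ := ih k' K' h2 h3 (hle _ hf) (hle _ hg)
      obtain ⟨f', g', hT', m', hm', γ', hγ'⟩ := hCORE1 k₀ K₀ k' K' h1 hF c' hc2 hc3 f'' g'' hT''
      refine ⟨f', g', hT', m' * m, Nat.mul_pos hm' hm, m' • γ + m • mk2 k' k₁ γ', ?_⟩
      have e1 := congrArg (mk2 K' K₁) hγ'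
      rw [map_nsmul, map_sub, mk2_sym, mk2_sym, um_um hcomp, um_um hcomp] at e1
      have e2 : mk2 K' K₁ (mk2 k' K' γ') = mk2 k₁ K₁ (mk2 k' k₁ γ') := by
        rw [mk2_mk2 (fun x => (IsScalarTower.algebraMap_apply k' K' K₁ x).symm),
          mk2_mk2 (fun x => (IsScalarTower.algebraMap_apply k' k₁ K₁ x).symm)]
      rw [e2] at e1
      rw [map_add, map_nsmul, map_nsmul, ← hγ, ← e1, ← mul_smul, ← mul_smul, mul_comm m m',
        ← nsmul_add, sub_add_sub_cancel]
    · have hle : gf K₀ k₁ K₁ (c :: s) ≤ gf K₀ k₁ K₁ s := by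
        unfold gf
        rw [IntermediateField.adjoin_le_iff]
        rintro _ ⟨d, hd, rfl⟩
        rcases List.mem_cons.mp hd with rfl | hd
        · show algebraMap k₁ K₁ d ∈ _
          rw [← hc0, ← IsScalarTower.algebraMap_apply k₀ k₁ K₁,
            IsScalarTower.algebraMap_apply k₀ K₀ K₁]
          exact IntermediateField.algebraMap_mem _ _
        · exact IntermediateField.subset_adjoin K₀ _ ⟨d, hd, rfl⟩
      exact ih k₀ K₀ h hF (hle hf) (hle hg)

end COREM

theorem specCORE (hCORE1 : SpecCORE1) (hCCH : SpecCCH) (hC6 : SpecC6) (_hCEB : SpecCEB) :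
    SpecCORE := by
  intro k₀ K₀ k₁ K₁ _ _ _ _ _ _ _ _ _ _ _ _ _ _ h hF f g hT
  obtain ⟨s, hs⟩ := COREM.exists_list h (f : K₁)
  obtain ⟨s', hs'⟩ := COREM.exists_list h (g : K₁)
  exact COREM.ind hCORE1 hCCH hC6 k₁ K₁ f g hT (s ++ s') k₀ K₀ h hF
    (COREM.gf_mono (fun c hc => List.mem_append_left s' hc) hs)
    (COREM.gf_mono (fun c hc => List.mem_append_right s hc) hs')

end MP743d1e.BD
end

section
/-!
# CRT: approximation at finitely many places
-/
set_option autoImplicit false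

namespace MP743d1e.BD

open scoped BigOperators
open Polynomial IntermediateField MP743d1e.CY MP743d1e.GX MP743d1e.Integ Filter

namespace CRTM

variable {K : Type} [Field K]

theorem one_add_ne {v : DVal K} {a : Kˣ} (h : v.ord a ≠ 0) : (1 : K) + (a : K) ≠ 0 := by
  intro h0
  have h1 : a = -1 := by
    apply Units.ext
    push_cast
    linear_combination h0
  rw [h1, v.ord_neg_one] at h
  exact h rfl

theorem ord_one_add_neg {v : DVal K} {a t : Kˣ} (ht : (t : K) = 1 + (a : K)) (h : v.ord a < 0) :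
    v.ord t = v.ord a := by
  have h1 := v.ord_add 1 a t (by rw [ht, Units.val_one])
  have h2 := v.ord_add t (-1) a (by rw [ht]; push_cast; ring)
  rw [v.ord_one] at h1
  rw [v.ord_neg_one] at h2
  omega

theorem ord_one_add_pos {v : DVal K} {a t : Kˣ} (ht : (t : K) = 1 + (a : K)) (h : 0 < v.ord a) :
    v.ord t = 0 := by
  have h1 := v.ord_add 1 a t (by rw [ht, Units.val_one])
  have h2 := v.ord_add t (-a) 1 (by rw [ht]; push_cast; ring)
  rw [v.ord_one] at h1
  rw [v.ord_neg, v.ord_one] at h2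
  omega

theorem exists_y (hAPX : SpecAPX) {v w : DVal K} (h : v ≠ w) :
    ∃ y : Kˣ, v.ord y < 0 ∧ 0 < w.ord y := by
  obtain ⟨a, ha, ha'⟩ := hAPX K v w h
  obtain ⟨b, hb, hb'⟩ := hAPX K w v h.symm
  refine ⟨b * a⁻¹, ?_, ?_⟩
  · rw [v.ord_mul, v.ord_inv, hb']; omega
  · rw [w.ord_mul, w.ord_inv, ha']; omega

/-- A bound for finitely many orders. -/
theorem exists_bound (S : Finset (DVal K)) (y : Kˣ) :
    ∃ m : ℕ, 0 < m ∧ ∀ w ∈ S, -(m : ℤ) < w.ord y := by
  classical
  induction S using Finset.induction_on with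
  | empty => exact ⟨1, one_pos, by simp⟩
  | insert a s ha ih =>
    obtain ⟨m, hm, h⟩ := ih
    refine ⟨m + (a.ord y).natAbs + 1, by omega, ?_⟩
    intro w hw
    rcases Finset.mem_insert.1 hw with rfl | hw
    · omega
    · have := h w hw
      omega

theorem exists_z (hAPX : SpecAPX) (v : DVal K) (S : Finset (DVal K)) (hS : v ∉ S) :
    ∃ z : Kˣ, v.ord z < 0 ∧ ∀ w ∈ S, 0 < w.ord z := by
  classical
  induction S using Finset.induction_on with
  | empty =>
    obtain ⟨z, hz⟩ := v.surj (-1)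
    exact ⟨z, by omega, by simp⟩
  | insert v₁ s ha ih =>
    have hvs : v ∉ s := fun h => hS (Finset.mem_insert_of_mem h)
    have hv1 : v ≠ v₁ := fun h => hS (h ▸ Finset.mem_insert_self _ _)
    obtain ⟨z, hz, hzs⟩ := ih hvs
    obtain ⟨y, hy, hy1⟩ := exists_y hAPX hv1
    obtain ⟨m, hm, hmb⟩ := exists_bound s y
    have hmz : ∀ w ∈ s, 0 < (m : ℤ) * w.ord z + w.ord y := by
      intro w hw
      have h1 := hmb w hw
      have h2 := hzs w hw
      have h3 : (m : ℤ) ≤ (m : ℤ) * w.ord z := le_mul_of_one_le_right (by omega) (by omega)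
      omega
    rcases lt_or_ge (v₁.ord z) 0 with hz1 | hz1
    · have hmv : (m : ℤ) * v.ord z < 0 := mul_neg_of_pos_of_neg (by omega) hz
      have hmv1 : (m : ℤ) * v₁.ord z < 0 := mul_neg_of_pos_of_neg (by omega) hz1
      have hne : (1 : K) + ((z ^ m : Kˣ) : K) ≠ 0 :=
        one_add_ne (v := v) (by rw [v.ord_pow]; omega)
      let t : Kˣ := Units.mk0 _ hne
      have ht : (t : K) = 1 + ((z ^ m : Kˣ) : K) := rfl
      refine ⟨z ^ m * t⁻¹ * y, ?_, ?_⟩
      · rw [v.ord_mul, v.ord_mul, v.ord_inv,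
          ord_one_add_neg ht (by rw [v.ord_pow]; exact hmv)]
        omega
      · intro w hw
        rcases Finset.mem_insert.1 hw with rfl | hw
        · rw [w.ord_mul, w.ord_mul, w.ord_inv,
            ord_one_add_neg ht (by rw [w.ord_pow]; exact hmv1)]
          omega
        · have h4 : 0 < (m : ℤ) * w.ord z := mul_pos (by omega) (hzs w hw)
          rw [w.ord_mul, w.ord_mul, w.ord_inv,
            ord_one_add_pos ht (by rw [w.ord_pow]; exact h4), w.ord_pow]
          have := hmz w hw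
          omega
    · refine ⟨z ^ m * y, ?_, ?_⟩
      · rw [v.ord_mul, v.ord_pow]
        have : (m : ℤ) * v.ord z < 0 := mul_neg_of_pos_of_neg (by omega) hz
        omega
      · intro w hw
        rw [w.ord_mul, w.ord_pow]
        rcases Finset.mem_insert.1 hw with rfl | hw
        · have : 0 ≤ (m : ℤ) * w.ord z := mul_nonneg (by omega) hz1
          omega
        · exact hmz w hw

end CRTM

open CRTM

theorem specCRT (hAPX : SpecAPX) : SpecCRT := by
  intro K _ v S N hS
  obtain ⟨z, hz, hzs⟩ := exists_z hAPX v S hS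
  let m : ℕ := N.natAbs + 1
  have hm : 0 < m := by omega
  have hmN : N < (m : ℤ) := by
    show N < ((N.natAbs + 1 : ℕ) : ℤ)
    omega
  have hmv : (m : ℤ) * v.ord z ≤ -(m : ℤ) := by nlinarith
  have hne : (1 : K) + ((z ^ m : Kˣ) : K) ≠ 0 :=
    one_add_ne (v := v) (by rw [v.ord_pow]; omega)
  let t : Kˣ := Units.mk0 _ hne
  have ht : (t : K) = 1 + ((z ^ m : Kˣ) : K) := rfl
  refine ⟨((z ^ m * t⁻¹ : Kˣ) : K), ?_, ?_⟩
  · right
    refine ⟨-t⁻¹, ?_, ?_⟩
    · have ht0 : (t : K) ≠ 0 := t.ne_zero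
      have h5 : (z : K) ^ m = (t : K) - 1 := by
        rw [ht]; push_cast; ring
      push_cast
      rw [h5]
      field_simp
      ring
    · rw [v.ord_neg, v.ord_inv, ord_one_add_neg ht (by rw [v.ord_pow]; omega), v.ord_pow]
      omega
  · intro w hw
    right
    refine ⟨_, rfl, ?_⟩
    have h4 : (m : ℤ) ≤ (m : ℤ) * w.ord z :=
      le_mul_of_one_le_right (by omega) (by have := hzs w hw; omega)
    rw [w.ord_mul, w.ord_inv, ord_one_add_pos ht (by rw [w.ord_pow]; omega), w.ord_pow]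
    omega

end MP743d1e.BD
end

section
/-!
# Theorem BD, module CST: symbols with a constant entry
-/
set_option autoImplicit false

namespace MP743d1e.BD

open scoped BigOperators
open Polynomial IntermediateField MP743d1e.CY MP743d1e.GX MP743d1e.Integ Filter

theorem specCST : SpecCST := by
  intro k K _ _ _ _ _ hK f g ht hc
  obtain ⟨c, hc⟩ := hc
  have hc0 : c ≠ 0 := by
    rintro rfl
    rw [map_zero] at hc
    exact f.ne_zero hc.symm
  rcases con (k := k) (g : K) with hg | ⟨e, he⟩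
  · obtain ⟨x, -, hx⟩ := hK
    obtain ⟨v, hv, hpos⟩ := (specFNV k K x hx g hg).2
    have hf0 : v.ord f = 0 := hv f ⟨c, hc.symm⟩
    obtain ⟨n, hn, h1⟩ := ASMM.pos_of_tame_const hf0 hpos.ne' (ht v hv)
    have hck : c ^ n = 1 := by
      by_contra h0
      have h2 : c ^ n - 1 ≠ 0 := sub_ne_zero.2 h0
      apply ASMM.not_pos_const hv h2
      rw [map_sub, map_pow, map_one, hc]
      exact h1
    have hfk : f ^ n = 1 := by
      apply Units.ext
      rw [Units.val_pow_eq_pow_val, ← hc, ← map_pow, hck, map_one, Units.val_one]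
    refine ⟨n, hn, 0, ?_⟩
    rw [sub_zero, map_zero, ← ASMM.sym_pow_left, hfk, ConstM.sym_one_left]
  · have he0 : e ≠ 0 := by
      rintro rfl
      rw [map_zero] at he
      exact g.ne_zero he.symm
    refine ⟨1, one_pos, sym (Units.mk0 c hc0) (Units.mk0 e he0), ?_⟩
    rw [one_smul, sub_zero, ConstM.mapK_sym]
    congr 1
    · apply Units.ext
      rw [← hc]
      rfl
    · apply Units.ext
      rw [← he]
      rfl

end MP743d1e.BD
end

section
/-!
# DER: the derivation of a constant extension in the direction of the parameter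
-/
set_option autoImplicit false

namespace MP743d1e.BD

open scoped BigOperators TensorProduct
open Polynomial IntermediateField MP743d1e.CY MP743d1e.GX MP743d1e.Integ Filter

namespace DERM

/-- The Kähler differentials of an algebraic extension of `F(t)` are free on `dt`. -/
theorem exists_equiv (F K : Type) [Field F] [CharZero F] [Field K] [Algebra F K] (t : K)
    (ht : Transcendental F t) (halg : Algebra.IsAlgebraic F⟮t⟯ K) :
    ∃ e : Ω[K⁄F] ≃ₗ[K] K, e (KaehlerDifferential.D F K t) = 1 := by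
  let _ : Algebra F[X] K := (aeval t : F[X] →ₐ[F] K).toRingHom.toAlgebra
  have hmap : ∀ p : F[X], algebraMap F[X] K p = aeval t p := fun _ => rfl
  have : IsScalarTower F F[X] K := IsScalarTower.of_algebraMap_eq fun c => by
    rw [hmap, Polynomial.algebraMap_eq, aeval_C]
  let φ : RatFunc F ≃ₐ[F] F⟮t⟯ := RatFunc.algEquivOfTranscendental t ht
  let _ : Algebra (RatFunc F) K := ((algebraMap F⟮t⟯ K).comp (φ : RatFunc F →+* F⟮t⟯)).toAlgebra
  have hmap2 : ∀ u : RatFunc F, algebraMap (RatFunc F) K u = (φ u : K) := fun _ => rfl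
  have : IsScalarTower F[X] (RatFunc F) K := IsScalarTower.of_algebraMap_eq fun p => by
    rw [hmap, hmap2]
    simp only [φ, RatFunc.algEquivOfTranscendental_algebraMap]
    exact aeval_algHom_apply (F⟮t⟯).val (IntermediateField.AdjoinSimple.gen F t) p
  have : Algebra.IsAlgebraic (RatFunc F) K := ⟨fun a =>
    (halg.isAlgebraic a).of_ringHom_of_comp_eq (φ : RatFunc F →+* F⟮t⟯) (RingHom.id K)
      φ.surjective Function.injective_id rfl⟩
  have : CharZero (RatFunc F) := charZero_of_injective_algebraMap (algebraMap F (RatFunc F)).injective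
  have : Algebra.FormallyEtale (RatFunc F) K := Algebra.FormallyEtale.of_isSeparable _ _
  have : Algebra.FormallyEtale F[X] (RatFunc F) :=
    Algebra.FormallyEtale.of_isLocalization (nonZeroDivisors F[X])
  have : Algebra.FormallyEtale F[X] K := Algebra.FormallyEtale.comp _ (RatFunc F) _
  let e1 : K ⊗[F[X]] Ω[F[X]⁄F] ≃ₗ[K] Ω[K⁄F] :=
    KaehlerDifferential.tensorKaehlerEquivOfFormallyEtale F F[X] K
  let e2 : K ⊗[F[X]] Ω[F[X]⁄F] ≃ₗ[K] K ⊗[F[X]] F[X] :=
    TensorProduct.AlgebraTensorModule.congr (LinearEquiv.refl K K)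
      (KaehlerDifferential.polynomialEquiv F)
  let e3 : K ⊗[F[X]] F[X] ≃ₗ[K] K := TensorProduct.AlgebraTensorModule.rid F[X] K K
  refine ⟨e1.symm.trans (e2.trans e3), ?_⟩
  have h1 : e1.symm (KaehlerDifferential.D F K t) =
      1 ⊗ₜ[F[X]] KaehlerDifferential.D F F[X] X := by
    have := KaehlerDifferential.tensorKaehlerEquivOfFormallyEtale_symm_D_algebraMap F F[X] K X
    rw [hmap, aeval_X] at this
    exact this
  rw [LinearEquiv.trans_apply, LinearEquiv.trans_apply, h1]
  simp [e2, e3]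

theorem eq_smul {F K : Type} [Field F] [Field K] [Algebra F K] {t : K} (e : Ω[K⁄F] ≃ₗ[K] K)
    (he : e (KaehlerDifferential.D F K t) = 1) (ω : Ω[K⁄F]) :
    ω = e ω • KaehlerDifferential.D F K t := by
  apply e.injective
  rw [map_smul, he, smul_eq_mul, mul_one]

/-- Derivations are determined by their value at `t`. -/
theorem apply_eq {F K : Type} [Field F] [Field K] [Algebra F K] {t : K} (e : Ω[K⁄F] ≃ₗ[K] K)
    (he : e (KaehlerDifferential.D F K t) = 1) {N : Type} [AddCommGroup N] [Module F N]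
    [Module K N] [IsScalarTower F K N] (D : Derivation F K N) (f : K) :
    D f = e (KaehlerDifferential.D F K f) • D t := by
  have h := eq_smul e he (KaehlerDifferential.D F K f)
  have h2 := congrArg D.liftKaehlerDifferential h
  rw [map_smul, Derivation.liftKaehlerDifferential_comp_D,
    Derivation.liftKaehlerDifferential_comp_D] at h2
  exact h2

/-- A derivation that vanishes on `F` is `F`-linear. -/
def linDer {F K : Type} [Field F] [Field K] [Algebra F K] (D : Derivation ℤ K K)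
    (h : ∀ c : F, D (algebraMap F K c) = 0) : Derivation F K K where
  toFun := D
  map_add' := D.map_add
  map_smul' := by
    intro c x
    show D (c • x) = c • D x
    have e : ∀ y : K, c • y = algebraMap F K c * y := fun y => Algebra.smul_def c y
    rw [e, e, D.leibniz, h, smul_zero, add_zero, smul_eq_mul]
  map_one_eq_zero' := D.map_one_eq_zero
  leibniz' := D.leibniz

section

variable {k₀ K₀ k₁ K₁ : Type} [Field k₀] [Field K₀] [Field k₁] [Field K₁]
  [Algebra k₀ K₀] [Algebra k₀ k₁] [Algebra k₀ K₁] [Algebra K₀ K₁] [Algebra k₁ K₁]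
  [IsScalarTower k₀ K₀ K₁] [IsScalarTower k₀ k₁ K₁]

theorem transc (hC : CExt k₀ K₀ k₁ K₁) {t : k₁} (ht : Transcendental k₀ t) :
    Transcendental K₀ (algebraMap k₁ K₁ t) := by
  rw [transcendental_iff]
  intro p hp
  have h1 : LinearIndependent k₀ (fun i : Fin (p.natDegree + 1) => t ^ (i : ℕ)) := by
    rw [Fintype.linearIndependent_iff]
    intro g hg
    have h2 : aeval t (∑ i : Fin (p.natDegree + 1), C (g i) * X ^ (i : ℕ) : k₀[X]) = 0 := by
      rw [map_sum, ← hg]
      refine Finset.sum_congr rfl fun i _ => ?_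
      rw [map_mul, aeval_C, map_pow, aeval_X, Algebra.smul_def]
    have h3 := transcendental_iff.1 ht _ h2
    intro i
    have h4 := congrArg (fun q : k₀[X] => q.coeff (i : ℕ)) h3
    simp only [finsetSum_coeff, coeff_C_mul_X_pow, coeff_zero] at h4
    rw [Finset.sum_eq_single i] at h4
    · simpa using h4
    · intro j _ hji
      rw [if_neg]
      exact fun h => hji (Fin.ext h.symm)
    · intro h; exact absurd (Finset.mem_univ i) h
  have h5 := hC.ld (p.natDegree + 1) (fun i => p.coeff i) (fun i => t ^ (i : ℕ)) h1 (by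
    rw [aeval_eq_sum_range, ← Fin.sum_univ_eq_sum_range
      (fun i => p.coeff i • algebraMap k₁ K₁ t ^ i)] at hp
    rw [← hp]
    refine Finset.sum_congr rfl fun i _ => ?_
    rw [Algebra.smul_def, map_pow])
  ext i
  rw [coeff_zero]
  by_cases hi : i < p.natDegree + 1
  · exact h5 ⟨i, hi⟩
  · exact coeff_eq_zero_of_natDegree_lt (by omega)

theorem alg (hC : CExt k₀ K₀ k₁ K₁) {t : k₁} (halg : Algebra.IsAlgebraic k₀⟮t⟯ k₁) :
    Algebra.IsAlgebraic K₀⟮algebraMap k₁ K₁ t⟯ K₁ := by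
  set T := K₀⟮algebraMap k₁ K₁ t⟯ with hT
  have hTt : algebraMap k₁ K₁ t ∈ T := IntermediateField.mem_adjoin_simple_self K₀ _
  -- the elements of `k₀⟮t⟯`
  have h0 : ∀ c ∈ k₀⟮t⟯, algebraMap k₁ K₁ c ∈ T := by
    intro c hc
    induction hc using IntermediateField.adjoin_induction with
    | mem x hx => rw [Set.mem_singleton_iff] at hx; rwa [hx]
    | algebraMap x =>
      rw [← IsScalarTower.algebraMap_apply, IsScalarTower.algebraMap_apply k₀ K₀ K₁]
      exact T.algebraMap_mem _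
    | add x y _ _ hx hy => rw [map_add]; exact T.add_mem hx hy
    | inv x _ hx => rw [map_inv₀]; exact T.inv_mem hx
    | mul x y _ _ hx hy => rw [map_mul]; exact T.mul_mem hx hy
  let j : k₀⟮t⟯ →+* T := ((algebraMap k₁ K₁).comp (algebraMap k₀⟮t⟯ k₁)).codRestrict T
    (fun c => h0 c.1 c.2)
  have h1 : ∀ c : k₁, IsAlgebraic T (algebraMap k₁ K₁ c) := by
    intro c
    obtain ⟨p, hp, hpc⟩ := halg.isAlgebraic c
    refine ⟨p.map j, (Polynomial.map_ne_zero_iff j.injective).2 hp, ?_⟩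
    rw [aeval_def, eval₂_map]
    have e : (algebraMap T K₁).comp j = (algebraMap k₁ K₁).comp (algebraMap k₀⟮t⟯ k₁) := by
      ext x; rfl
    rw [e, ← hom_eval₂, ← aeval_def, hpc, map_zero]
  refine ⟨fun x => ?_⟩
  obtain ⟨a, ha, b, hb, hb0, hab⟩ := hC.gen x
  have h2 : ∀ y ∈ Algebra.adjoin k₁ (Set.range (algebraMap K₀ K₁)), IsAlgebraic T y := by
    intro y hy
    induction hy using Algebra.adjoin_induction with
    | mem x hx =>
      obtain ⟨z, rfl⟩ := hx
      have : algebraMap K₀ K₁ z = algebraMap T K₁ (algebraMap K₀ T z) := rfl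
      rw [this]
      exact isAlgebraic_algebraMap _
    | algebraMap r => exact h1 r
    | add x y _ _ hx hy => exact hx.add hy
    | mul x y _ _ hx hy => exact hx.mul hy
  have h3 : x = a * b⁻¹ := by
    rw [← hab, mul_assoc, mul_inv_cancel₀ hb0, mul_one]
  rw [h3]
  exact (h2 a ha).mul (h2 b hb).inv

end

end DERM

open DERM

theorem specDER (hDR0 : SpecDR0) (hCES : SpecCES) : SpecDER := by
  classical
  intro k₀ K₀ k₁ K₁ _ _ _ _ _ _ _ _ _ _ _ _ _ hC t ht halg
  have hc0 : CharZero K₀ := charZero_of_injective_algebraMap (algebraMap k₀ K₀).injective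
  obtain ⟨D₀, hD1, hD2, hD3⟩ := hDR0 k₀ k₁ t ht halg
  obtain ⟨e, he⟩ := exists_equiv K₀ K₁ (algebraMap k₁ K₁ t) (transc hC ht) (alg hC halg)
  obtain ⟨e', he'⟩ := exists_equiv k₀ k₁ t ht halg
  let D' : Derivation K₀ K₁ K₁ :=
    (e : Ω[K₁⁄K₀] →ₗ[K₁] K₁).compDer (KaehlerDifferential.D K₀ K₁)
  have hD't : D' (algebraMap k₁ K₁ t) = 1 := he
  let D : Derivation ℤ K₁ K₁ := D'.restrictScalars ℤ
  have hDD : ∀ x, D x = D' x := fun _ => rfl
  have hDK : ∀ y : K₀, D (algebraMap K₀ K₁ y) = 0 := fun y => D'.map_algebraMap y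
  -- `D` on `k₁`
  have hDk : ∀ c : k₁, D (algebraMap k₁ K₁ c) = algebraMap k₁ K₁ (D₀ c) := by
    intro c
    let δ : Derivation k₀ k₁ K₁ := (D'.restrictScalars k₀).compAlgebraMap k₁
    let δ' : Derivation k₀ k₁ K₁ := (Algebra.linearMap k₁ K₁).compDer (linDer D₀ hD1)
    have h1 := apply_eq e' he' δ c
    have h2 := apply_eq e' he' δ' c
    have h3 : δ t = 1 := hD't
    have h4 : δ' t = 1 := by
      show algebraMap k₁ K₁ (D₀ t) = 1
      rw [hD2, map_one]
    rw [h3] at h1
    rw [h4, ← h1] at h2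
    exact h2.symm
  have hDt : IsDt k₀ K₀ k₁ t D D₀ := ⟨hDK, hDk, hD1, hD2⟩
  refine ⟨D, D₀, hDt, ?_, hD3⟩
  -- the kernel
  obtain ⟨hC', hrep, -⟩ := hCES k₀ K₀ k₁ K₁ hC
  let bs := Module.Basis.ofVectorSpace k₀ K₀
  set ι := Module.Basis.ofVectorSpaceIndex k₀ K₀ with hι
  let E : ι → K₁ := fun i => algebraMap K₀ K₁ (bs i)
  have hE : LinearIndependent k₁ E := by
    rw [linearIndependent_iff']
    intro s g hg i hi
    let eq := s.equivFin
    have h1 := hC'.ld s.card (fun j => g (eq.symm j)) (fun j => bs (eq.symm j)) (by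
      exact bs.linearIndependent.comp (fun j => ((eq.symm j : s) : ι))
        (Subtype.val_injective.comp eq.symm.injective)) (by
      rw [← hg, ← Finset.sum_coe_sort s (fun i => g i • E i)]
      rw [← Equiv.sum_comp eq.symm (fun i : s => g i • E i)]
      refine Finset.sum_congr rfl fun j _ => ?_
      rw [Algebra.smul_def])
    have h2 := h1 (eq ⟨i, hi⟩)
    simpa using h2
  let S : (ι →₀ k₁) →ₗ[k₁] K₁ := Finsupp.linearCombination k₁ E
  have hS : ∀ f : ι →₀ k₁, S f = f.sum fun i c => algebraMap k₁ K₁ c * E i := by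
    intro f
    show Finsupp.linearCombination k₁ E f = _
    rw [Finsupp.linearCombination_apply]
    exact Finsupp.sum_congr fun i _ => Algebra.smul_def _ _
  have hSinj : Function.Injective S := hE
  let m : (ι →₀ k₁) → (ι →₀ k₁) := Finsupp.mapRange D₀ (map_zero D₀)
  have hDS : ∀ f : ι →₀ k₁, D (S f) = S (m f) := by
    intro f
    rw [hS, hS, Finsupp.sum_mapRange_index (fun i => by rw [map_zero, zero_mul]), Finsupp.sum,
      Finsupp.sum, map_sum]
    refine Finset.sum_congr rfl fun i _ => ?_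
    rw [D.leibniz, hDk]
    have : D (E i) = 0 := hDK _
    rw [this, smul_zero, zero_add, smul_eq_mul, mul_comm]
  have hspan : ∀ x ∈ Algebra.adjoin k₁ (Set.range (algebraMap K₀ K₁)), ∃ f, S f = x := by
    intro x hx
    obtain ⟨n, r, c, -, -, h1⟩ := hrep x hx
    have h2 : x ∈ LinearMap.range S := by
      rw [h1]
      refine Submodule.sum_mem _ fun i _ => ?_
      rw [mul_comm, ← Algebra.smul_def]
      refine Submodule.smul_mem _ _ ?_
      refine ⟨(bs.repr (r i)).mapRange (algebraMap k₀ k₁) (map_zero _), ?_⟩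
      rw [hS, Finsupp.sum_mapRange_index (fun i => by rw [map_zero, zero_mul])]
      conv_rhs => rw [← bs.linearCombination_repr (r i)]
      rw [Finsupp.linearCombination_apply, Finsupp.sum, Finsupp.sum, map_sum]
      refine Finset.sum_congr rfl fun j _ => ?_
      rw [Algebra.smul_def, map_mul, ← IsScalarTower.algebraMap_apply,
        ← IsScalarTower.algebraMap_apply]
    exact h2
  have hconst : ∀ f : ι →₀ k₁, m f = 0 → ∃ y : K₀, algebraMap K₀ K₁ y = S f := by
    intro f hf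
    have h1 : ∀ i, ∃ c : k₀, algebraMap k₀ k₁ c = f i := by
      intro i
      apply hD3
      have := congrArg (fun g : ι →₀ k₁ => g i) hf
      simpa [m] using this
    choose c hc using h1
    refine ⟨∑ i ∈ f.support, c i • bs i, ?_⟩
    rw [hS, map_sum, Finsupp.sum]
    refine Finset.sum_congr rfl fun i _ => ?_
    rw [Algebra.smul_def, map_mul, ← hc i, ← IsScalarTower.algebraMap_apply,
      ← IsScalarTower.algebraMap_apply]
  intro x hx
  obtain ⟨f, hf0, g, hfg, hmin⟩ : ∃ f : ι →₀ k₁, f ≠ 0 ∧ ∃ g : ι →₀ k₁, S f * x = S g ∧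
      ∀ f' g' : ι →₀ k₁, f' ≠ 0 → S f' * x = S g' → f.support.card ≤ f'.support.card := by
    obtain ⟨a, ha, b, hb, hb0, hab⟩ := hC.gen x
    obtain ⟨fa, hfa⟩ := hspan a ha
    obtain ⟨fb, hfb⟩ := hspan b hb
    have hne : ∃ n : ℕ, ∃ f : ι →₀ k₁, f.support.card = n ∧ f ≠ 0 ∧ ∃ g, S f * x = S g := by
      refine ⟨_, fb, rfl, ?_, fa, ?_⟩
      · intro h
        rw [h, map_zero] at hfb
        exact hb0 hfb.symm
      · rw [hfa, hfb, mul_comm, hab]
    obtain ⟨f, hf1, hf2, g, hg⟩ := Nat.find_spec hne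
    refine ⟨f, hf2, g, hg, ?_⟩
    intro f' g' hf' hg'
    rw [hf1]
    exact Nat.find_min' hne ⟨f', rfl, hf', g', hg'⟩
  obtain ⟨i₀, hi₀⟩ := Finsupp.support_nonempty_iff.2 hf0
  have hfi : f i₀ ≠ 0 := Finsupp.mem_support_iff.1 hi₀
  set f' := (f i₀)⁻¹ • f with hf'
  set g' := (f i₀)⁻¹ • g with hg'
  have h1 : S f' * x = S g' := by
    rw [hf', hg', map_smul, map_smul, smul_mul_assoc, hfg]
  have hf'0 : f' ≠ 0 := by
    intro h
    have := congrArg (fun q : ι →₀ k₁ => q i₀) h
    simp only [hf', Finsupp.smul_apply, smul_eq_mul, Finsupp.coe_zero, Pi.zero_apply] at this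
    rw [inv_mul_cancel₀ hfi] at this
    exact one_ne_zero this
  have h2 : S (m f') * x = S (m g') := by
    have h3 := congrArg D h1
    rw [D.leibniz, hx, smul_zero, zero_add, hDS, hDS, smul_eq_mul, mul_comm] at h3
    exact h3
  have h3 : m f' = 0 := by
    by_contra h4
    have h5 := hmin _ _ h4 h2
    have h6 : (m f').support ⊆ f.support.erase i₀ := by
      intro i hi
      rw [Finsupp.mem_support_iff] at hi
      rw [Finset.mem_erase, Finsupp.mem_support_iff]
      have h7 : m f' i = D₀ ((f i₀)⁻¹ * f i) := rfl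
      rw [h7] at hi
      refine ⟨?_, ?_⟩
      · intro h8
        rw [h8, inv_mul_cancel₀ hfi, D₀.map_one_eq_zero] at hi
        exact hi rfl
      · intro h8
        rw [h8, mul_zero, map_zero] at hi
        exact hi rfl
    have h7 := Finset.card_le_card h6
    rw [Finset.card_erase_of_mem hi₀] at h7
    have h8 : 0 < f.support.card := Finset.card_pos.2 ⟨i₀, hi₀⟩
    omega
  obtain ⟨y, hy⟩ := hconst f' h3
  have h4 : m g' = 0 := by
    rw [h3, map_zero, zero_mul] at h2
    apply hSinj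
    rw [← h2, map_zero]
  obtain ⟨y', hy'⟩ := hconst g' h4
  refine ⟨y' * y⁻¹, ?_⟩
  have hy0 : algebraMap K₀ K₁ y ≠ 0 := by
    rw [hy]
    intro h
    apply hf'0
    apply hSinj
    rw [h, map_zero]
  rw [map_mul, map_inv₀, hy', ← h1, ← hy]
  field_simp

end MP743d1e.BD
end
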