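import Pool.Agent.Lib.MP_743d1e_nt.BD.SpecA
import Pool.Agent.Lib.MP_743d1e_nt.CY.MIL
import Pool.Agent.Lib.MP_743d1e_nt.CY.PUK

/-!
# FLP: the involution of a quadratic extension of `k(τ)`
-/

set_option autoImplicit false

namespace MP743d1e.BD

open scoped BigOperators
open Polynomial IntermediateField MP743d1e.CY MP743d1e.GX MP743d1e.Integ Filter

namespace FLPM

section Place

variable {K : Type} [Field K]

/-- The place `v ∘ ε`. -/
def comp (v : DVal K) (ε : K ≃+* K) : DVal K where
  ord u := v.ord (Units.map (ε : K →* K) u)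
  ord_mul f g := by rw [map_mul, v.ord_mul]
  surj n := by
    obtain ⟨u, hu⟩ := v.surj n
    refine ⟨Units.map (ε.symm : K →* K) u, ?_⟩
    rw [← hu]
    show v.ord (Units.map (ε : K →* K) (Units.map (ε.symm : K →* K) u)) = v.ord u
    congr 1
    apply Units.ext
    simp
  ord_add f g h e := by
    apply v.ord_add
    simp only [Units.coe_map, MonoidHom.coe_coe]
    rw [← map_add, e]

theorem comp_ord (v : DVal K) (ε : K ≃+* K) (u : Kˣ) :
    (comp v ε).ord u = v.ord (Units.map (ε : K →* K) u) := rfl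

theorem comp_isOne (v : DVal K) (ε : K ≃+* K) (u : Kˣ) (h : (comp v ε).IsOne u) :
    v.IsOne (Units.map (ε : K →* K) u) := by
  rcases h with h | ⟨w, hw, h1⟩
  · left
    rw [h, map_one]
  · right
    refine ⟨Units.map (ε : K →* K) w, ?_, h1⟩
    simp only [Units.coe_map, MonoidHom.coe_coe]
    rw [← hw, map_sub, map_one]

theorem comp_tameUnit (v : DVal K) (ε : K ≃+* K) (f g : Kˣ) :
    Units.map (ε : K →* K) ((comp v ε).tameUnit f g) =
      v.tameUnit (Units.map (ε : K →* K) f) (Units.map (ε : K →* K) g) := by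
  unfold DVal.tameUnit
  rw [map_mul, map_mul, map_zpow, map_zpow, map_zpow, comp_ord, comp_ord]
  congr 3
  apply Units.ext
  simp

theorem nsmul_tame (v : DVal K) (N : ℕ) (f g : Kˣ) :
    N • tame v (sym f g) = 0 ↔ v.IsOne (v.tameUnit f g ^ N) := by
  rw [tame_sym, ← DVal.mem_U1, ← QuotientGroup.eq_one_iff]
  rfl

theorem tor_comp (v : DVal K) (ε : K ≃+* K) (N : ℕ) (f g : Kˣ)
    (h : N • tame (comp v ε) (sym f g) = 0) :
    N • tame v (sym (Units.map (ε : K →* K) f) (Units.map (ε : K →* K) g)) = 0 := by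
  rw [nsmul_tame] at h ⊢
  rw [← comp_tameUnit, ← map_pow]
  exact comp_isOne v ε _ h

end Place

section Ord

variable {k K : Type} [Field k] [Field K] [Algebra k K] [IsAlgClosed k]

omit [IsAlgClosed k] in
theorem ord_lin (v : DVal K) (hv : GeoF k v) (T : Kˣ) (hT : v.ord T = -1) (r : k) (w : Kˣ)
    (hw : (w : K) = T - algebraMap k K r) : v.ord w = -1 := by
  by_cases hr : r = 0
  · have : w = T := by
      apply Units.ext
      rw [hw, hr, map_zero, sub_zero]
    rw [this, hT]
  · have hr' : algebraMap k K r ≠ 0 := by rwa [Ne, map_eq_zero]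
    set R : Kˣ := Units.mk0 _ hr' with hR
    have hR0 : v.ord R = 0 := hv R ⟨r, rfl⟩
    have h1 := v.ord_add T (-R) w (by rw [hw, hR]; simp [sub_eq_add_neg])
    have h2 := v.ord_add w R T (by rw [hw, hR]; simp)
    rw [v.ord_neg, hR0, hT] at h1
    rw [hR0, hT] at h2
    rcases min_cases (v.ord w) 0 with h3 | h3 <;> omega

theorem ord_poly (v : DVal K) (hv : GeoF k v) (T : Kˣ) (hT : v.ord T = -1) :
    ∀ (n : ℕ) (p : k[X]), p.natDegree = n → ∀ u : Kˣ, (u : K) = aeval (T : K) p →
      v.ord u = -(n : ℤ) := by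
  intro n
  induction n with
  | zero =>
    intro p hp u hu
    rw [Polynomial.eq_C_of_natDegree_eq_zero hp, aeval_C] at hu
    rw [hv u ⟨_, hu⟩]
    simp
  | succ n ih =>
    intro p hp u hu
    have hd : p.degree ≠ 0 := by
      intro h0
      rw [Polynomial.natDegree_eq_zero_iff_degree_le_zero.2 h0.le] at hp
      omega
    obtain ⟨r, hr⟩ := IsAlgClosed.exists_root p hd
    obtain ⟨q, hq⟩ := Polynomial.dvd_iff_isRoot.2 hr
    have hq0 : q ≠ 0 := by
      rintro rfl
      rw [mul_zero] at hq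
      rw [hq] at hp
      simp at hp
    have hdq : q.natDegree = n := by
      have h1 := congrArg Polynomial.natDegree hq
      rw [Polynomial.natDegree_mul (Polynomial.X_sub_C_ne_zero r) hq0, hp,
        Polynomial.natDegree_X_sub_C] at h1
      omega
    have e1 : (u : K) = (T - algebraMap k K r) * aeval (T : K) q := by
      rw [hu, hq, map_mul, map_sub, aeval_X, aeval_C]
    have n1 : (T : K) - algebraMap k K r ≠ 0 := fun h0 => u.ne_zero (by rw [e1, h0, zero_mul])
    have n2 : aeval (T : K) q ≠ 0 := fun h0 => u.ne_zero (by rw [e1, h0, mul_zero])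
    have e2 : u = Units.mk0 _ n1 * Units.mk0 _ n2 := by
      apply Units.ext
      rw [Units.val_mul, Units.val_mk0, Units.val_mk0, e1]
    rw [e2, v.ord_mul, ord_lin v hv T hT r (Units.mk0 _ n1) rfl, ih q hdq (Units.mk0 _ n2) rfl]
    push_cast
    ring

/-- The orders at `A` and `B` of a function in `k(τ)` agree. -/
theorem ord_eq (A B : DVal K) (hA : GeoF k A) (hB : GeoF k B) (T : Kˣ) (hAT : A.ord T = -1)
    (hBT : B.ord T = -1) (u : Kˣ) (hu : (u : K) ∈ k⟮(T : K)⟯) : A.ord u = B.ord u := by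
  obtain ⟨p, q, e⟩ := IntermediateField.mem_adjoin_simple_iff k (u : K) |>.1 hu
  have hq : aeval (T : K) q ≠ 0 := by
    intro h0
    rw [h0, div_zero] at e
    exact u.ne_zero e
  have hp : aeval (T : K) p ≠ 0 := by
    intro h0
    rw [h0, zero_div] at e
    exact u.ne_zero e
  have e1 : u = Units.mk0 _ hp * (Units.mk0 _ hq)⁻¹ := by
    rw [eq_mul_inv_iff_mul_eq]
    apply Units.ext
    rw [Units.val_mul, Units.val_mk0, Units.val_mk0, e, div_mul_cancel₀ _ hq]
  rw [e1, A.ord_mul, B.ord_mul, A.ord_inv, B.ord_inv,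
    ord_poly A hA T hAT _ p rfl (Units.mk0 _ hp) rfl,
    ord_poly B hB T hBT _ p rfl (Units.mk0 _ hp) rfl,
    ord_poly A hA T hAT _ q rfl (Units.mk0 _ hq) rfl,
    ord_poly B hB T hBT _ q rfl (Units.mk0 _ hq) rfl]

end Ord

theorem ord_of_GE {K : Type} [Field K] (v : DVal K) (T : Kˣ) (h1 : GE v (-1) (T : K))
    (h2 : ¬ NN v (T : K)) : v.ord T = -1 := by
  have h3 : ¬ 0 ≤ v.ord T := fun h => h2 (nn_unit.2 h)
  rcases h1 with h | ⟨w, hw, h⟩
  · exact absurd h T.ne_zero
  · have : w = T := Units.ext hw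
    rw [this] at h
    omega

theorem mk2_mk2 (k F K : Type) [Field k] [Field F] [Field K] [Algebra k F] [Algebra F K]
    [Algebra k K] [IsScalarTower k F K] (β : K2 k) : mk2 F K (mk2 k F β) = mk2 k K β := by
  have h : (mk2 F K).comp (mk2 k F) = mk2 k K := by
    apply K2.hom_ext
    intro f g
    rw [AddMonoidHom.comp_apply, ConstM.mapK_sym, ConstM.mapK_sym, ConstM.mapK_sym]
    congr 1
    · apply Units.ext
      simp [← IsScalarTower.algebraMap_apply k F K]
    · apply Units.ext
      simp [← IsScalarTower.algebraMap_apply k F K]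
  exact DFunLike.congr_fun h β

end FLPM

open FLPM in
/-- **FLP.** -/
theorem specFLP (hAPX : SpecAPX) (hINV : SpecINV) (hTMD : SpecTMD) : SpecFLP := by
  intro k K _ _ _ _ _ hF τ A B hτ h2 hA hB hAB hv gA gB nA nB
  classical
  have : CharZero K := charZero_of_injective_algebraMap (algebraMap k K).injective
  have hfd : FiniteDimensional k⟮τ⟯ K := fdx hF hτ
  have : Algebra.IsQuadraticExtension k⟮τ⟯ K := { finrank_eq_two' := h2 }
  have : CharZero k⟮τ⟯ := charZero_of_injective_algebraMap (algebraMap k k⟮τ⟯).injective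
  have : IsGalois k⟮τ⟯ K := inferInstance
  have hcard : Nat.card Gal(K/k⟮τ⟯) = 2 := by rw [IsGalois.card_aut_eq_finrank, h2]
  have : Finite Gal(K/k⟮τ⟯) := Nat.finite_of_card_ne_zero (by omega)
  -- the nontrivial automorphism
  obtain ⟨e, he1, he⟩ : ∃ e : Gal(K/k⟮τ⟯), e ≠ 1 ∧ ∀ σ : Gal(K/k⟮τ⟯), σ = 1 ∨ σ = e := by
    rw [Nat.card_eq_two_iff' (1 : Gal(K/k⟮τ⟯))] at hcard
    obtain ⟨e, he1, he⟩ := hcard
    refine ⟨e, he1, fun σ => ?_⟩
    by_cases h : σ = 1
    · exact Or.inl h
    · exact Or.inr (he σ h)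
  have hee : ∀ x : K, e (e x) = x := by
    intro x
    rcases he (e * e) with h | h
    · exact DFunLike.congr_fun h x
    · exact absurd (mul_eq_left.1 h) he1
  have hfix : ∀ x : K, e x = x → x ∈ Set.range (algebraMap k⟮τ⟯ K) := by
    intro x hx
    rw [IsGalois.mem_range_algebraMap_iff_fixed]
    intro σ
    rcases he σ with rfl | rfl
    · rfl
    · exact hx
  have hnorm : ∀ x : K, x * e x ∈ Set.range (algebraMap k⟮τ⟯ K) := by
    intro x
    apply hfix
    rw [map_mul, hee, mul_comm]
  set ε : K ≃+* K := (e : K ≃+* K) with hε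
  have hεe : ∀ x : K, ε x = e x := fun x => rfl
  have hτε : ε τ = τ := by
    have := e.commutes ⟨τ, mem_adjoin_simple_self k τ⟩
    exact this
  have hkε : ∀ c : k, ε (algebraMap k K c) = algebraMap k K c := by
    intro c
    have := e.commutes (algebraMap k k⟮τ⟯ c)
    rw [← IsScalarTower.algebraMap_apply k k⟮τ⟯ K] at this
    exact this
  have hτ0 : τ ≠ 0 := by
    rintro rfl
    exact hτ isAlgebraic_zero
  set T : Kˣ := Units.mk0 τ hτ0 with hT
  have hTe : Units.map (ε : K →* K) T = T := by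
    apply Units.ext
    simp [hT, hτε]
  have oA : A.ord T = -1 := ord_of_GE A T gA nA
  have oB : B.ord T = -1 := ord_of_GE B T gB nB
  have hgeo : ∀ v : DVal K, GeoF k v → GeoF k (comp v ε) := by
    intro v hv c hc
    obtain ⟨r, hr⟩ := hc
    rw [comp_ord]
    apply hv
    refine ⟨r, ?_⟩
    simp [hr, hkε]
  have hpole : ∀ v : DVal K, GeoF k v → v.ord T = -1 → comp v ε = A ∨ comp v ε = B := by
    intro v hgv hvT
    by_contra h
    rw [not_or] at h
    have h3 := hv (comp v ε) (hgeo v hgv) h.1 h.2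
    have h4 : NN (comp v ε) (T : K) := h3
    rw [nn_unit, comp_ord, hTe, hvT] at h4
    omega
  have hcc : ∀ v : DVal K, comp (comp v ε) ε = v := by
    intro v
    apply FNVM.dval_ext
    funext u
    rw [comp_ord, comp_ord]
    congr 1
    apply Units.ext
    simp [hεe, hee]
  have hAB' : comp A ε = B := by
    rcases hpole A hA oA with h | h
    · exfalso
      have hB' : comp B ε = B := by
        rcases hpole B hB oB with h' | h'
        · exfalso
          apply hAB
          rw [← h, ← h', hcc]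
        · exact h'
      obtain ⟨u, hu1, hu2⟩ := hAPX K A B hAB
      have e1 : A.ord (Units.map (ε : K →* K) u) = A.ord u := by
        rw [← comp_ord, h]
      have e2 : B.ord (Units.map (ε : K →* K) u) = B.ord u := by
        rw [← comp_ord, hB']
      have e3 : A.ord (u * Units.map (ε : K →* K) u) = B.ord (u * Units.map (ε : K →* K) u) := by
        apply ord_eq A B hA hB T oA oB
        obtain ⟨c, hc⟩ := hnorm (u : K)
        rw [Units.val_mul, Units.coe_map]
        show (u : K) * e (u : K) ∈ k⟮τ⟯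
        rw [← hc]
        exact c.2
      rw [A.ord_mul, B.ord_mul, e1, e2, hu2] at e3
      omega
    · exact h
  refine ⟨ε, hkε, ?_, ?_⟩
  · intro u
    rw [← comp_ord, hAB']
  · intro f g hfg
    obtain ⟨γ, hγ⟩ := hINV k⟮τ⟯ K h2 (e : K →ₐ[k⟮τ⟯] K) (by
      intro x
      obtain ⟨c, hc⟩ := hnorm x
      exact ⟨c, hc.symm⟩) f g
    have e0 : ConstM.mapK ((e : K →ₐ[k⟮τ⟯] K) : K →+* K) (sym f g) =
        sym (Units.map (ε : K →* K) f) (Units.map (ε : K →* K) g) := by
      rw [ConstM.mapK_sym]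
      congr 1
    rw [e0] at hγ
    have htor : TorTameF k (mk2 k⟮τ⟯ K γ) := by
      intro v hgv
      rw [← hγ]
      obtain ⟨N, hN, hN0⟩ := hfg v hgv
      obtain ⟨M, hM, hM0⟩ := hfg (comp v ε) (hgeo v hgv)
      refine ⟨N * M, Nat.mul_pos hN hM, ?_⟩
      have a1 : tame v (N • sym f g) = 0 := by
        rw [map_nsmul]
        exact hN0
      have a2 : tame v (M • sym (Units.map (ε : K →* K) f) (Units.map (ε : K →* K) g)) = 0 := by
        rw [map_nsmul]
        exact tor_comp v ε M f g hM0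
      rw [← map_nsmul, nsmul_add]
      refine (tame v).ker.add_mem ?_ ?_
      · rw [mul_nsmul]
        exact (tame v).ker.nsmul_mem a1 M
      · rw [mul_comm, mul_nsmul]
        exact (tame v).ker.nsmul_mem a2 N
    have htor' := hTMD k k⟮τ⟯ K hfd γ htor
    have hrat : IsRat k k⟮τ⟯ (AdjoinSimple.gen k τ) := by
      refine ⟨?_, ?_⟩
      · intro h0
        apply hτ
        have := h0.algebraMap (A := K)
        exact this
      · rw [eq_top_iff]
        intro x _
        obtain ⟨p, q, e'⟩ := IntermediateField.mem_adjoin_simple_iff k (x : K) |>.1 x.2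
        have hc : ∀ r : k[X], ((aeval (AdjoinSimple.gen k τ) r : k⟮τ⟯) : K) = aeval τ r := by
          intro r
          have := (Polynomial.aeval_algebraMap_apply K (AdjoinSimple.gen k τ) r).symm
          exact this
        refine (IntermediateField.mem_adjoin_simple_iff k x).2 ⟨p, q, ?_⟩
        apply Subtype.ext
        rw [e']
        show _ = ((aeval (AdjoinSimple.gen k τ) p / aeval (AdjoinSimple.gen k τ) q : k⟮τ⟯) : K)
        push_cast
        rw [hc, hc]
    obtain ⟨N, hN, β, hβ⟩ := mil k k⟮τ⟯ (AdjoinSimple.gen k τ) hrat γ htor'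
    refine ⟨N, hN, β, ?_⟩
    rw [hγ, ← map_nsmul, ← hβ, mk2_mk2]

end MP743d1e.BD
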