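import Pool.Agent.Lib.MP_743d1e_nt.BD.SpecC

/-!
# INV: the transfer for quadratic extensions
-/

set_option autoImplicit false

namespace MP743d1e.BD

open scoped BigOperators
open MP743d1e.GX

namespace INVM

variable {F E : Type} [Field F] [Field E] [Algebra F E]

theorem mk2_sym' (a b : Fˣ) : mk2 F E (sym a b) = sym (um F E a) (um F E b) :=
  ConstM.mapK_sym _ a b

/-- The symbols whose sum with the conjugate comes from `F`. -/
noncomputable def G (ε : E →ₐ[F] E) : AddSubgroup (K2 E) :=
  AddSubgroup.comap (AddMonoidHom.id (K2 E) + ConstM.mapK (ε : E →+* E)) (mk2 F E).range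

theorem mem_G (ε : E →ₐ[F] E) (α : K2 E) :
    α ∈ G ε ↔ ∃ γ : K2 F, mk2 F E γ = α + ConstM.mapK (ε : E →+* E) α := Iff.rfl

/-- The conjugate of a unit. -/
abbrev cj (ε : E →ₐ[F] E) : Eˣ →* Eˣ := Units.map ((ε : E →+* E) : E →* E)

theorem cj_um (ε : E →ₐ[F] E) (a : Fˣ) : cj ε (um F E a) = um F E a := by
  apply Units.ext
  show ε (algebraMap F E a) = algebraMap F E a
  exact ε.commutes _

theorem norm_um (ε : E →ₐ[F] E) (hε : ∀ x : E, ∃ c : F, x * ε x = algebraMap F E c) (g : Eˣ) :
    ∃ c : Fˣ, g * cj ε g = um F E c := by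
  obtain ⟨c, hc⟩ := hε (g : E)
  have hne : c ≠ 0 := by
    rintro rfl
    rw [map_zero] at hc
    have h2 : (g : E) * ε g ≠ 0 :=
      mul_ne_zero g.ne_zero (by
        intro h0
        apply g.ne_zero
        have h3 : Function.Injective ε := (ε : E →+* E).injective
        apply h3
        rw [h0, map_zero])
    exact h2 hc
  refine ⟨Units.mk0 c hne, Units.ext ?_⟩
  show (g : E) * ε g = algebraMap F E c
  exact hc

theorem left_mem (ε : E →ₐ[F] E) (hε : ∀ x : E, ∃ c : F, x * ε x = algebraMap F E c)
    (a : Fˣ) (g : Eˣ) : sym (um F E a) g ∈ G ε := by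
  obtain ⟨c, hc⟩ := norm_um ε hε g
  refine ⟨sym a c, ?_⟩
  show mk2 F E (sym a c) = sym (um F E a) g + ConstM.mapK (ε : E →+* E) (sym (um F E a) g)
  rw [mk2_sym', ConstM.mapK_sym, ← hc]
  show _ = _ + sym (cj ε (um F E a)) (cj ε g)
  rw [cj_um, ConstM.sym_mul_right]

theorem right_mem (ε : E →ₐ[F] E) (hε : ∀ x : E, ∃ c : F, x * ε x = algebraMap F E c)
    (a : Fˣ) (g : Eˣ) : sym g (um F E a) ∈ G ε := by
  obtain ⟨c, hc⟩ := norm_um ε hε g
  refine ⟨sym c a, ?_⟩
  show mk2 F E (sym c a) = sym g (um F E a) + ConstM.mapK (ε : E →+* E) (sym g (um F E a))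
  rw [mk2_sym', ConstM.mapK_sym, ← hc]
  show _ = _ + sym (cj ε g) (cj ε (um F E a))
  rw [cj_um, ConstM.sym_mul_left]

theorem mem_of_val {f : Eˣ} {c : F} (h : (f : E) = algebraMap F E c) :
    ∃ a : Fˣ, f = um F E a := by
  have hne : c ≠ 0 := by
    rintro rfl
    rw [map_zero] at h
    exact f.ne_zero h
  exact ⟨Units.mk0 c hne, Units.ext h⟩

theorem neg_self (g : Eˣ) : sym (-g) g = 0 := by
  by_cases hf : (g : E) = -1
  · have : -g = 1 := Units.ext (by simp [hf])
    rw [this, ConstM.sym_one_left]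
  · have hg0 : (g : E) ≠ 0 := g.ne_zero
    have h1 : (1 : E) + g ≠ 0 := by
      intro h; apply hf; linear_combination h
    have h2 : (1 : E) + (g : E)⁻¹ ≠ 0 := by
      intro h; apply hf
      have h3 : (g : E)⁻¹ = -1 := by linear_combination h
      rw [inv_eq_iff_eq_inv, inv_neg, inv_one] at h3
      exact h3
    -- `g = (1 + g) / (1 + g⁻¹)`
    have e : Units.mk0 _ h1 = g * Units.mk0 _ h2 := by
      apply Units.ext
      rw [Units.val_mul, Units.val_mk0, Units.val_mk0]
      field_simp
      ring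
    have e1 : sym (-g) (Units.mk0 _ h1) = 0 := ConstM.sym_steinberg _ _ (by
      rw [Units.val_neg, Units.val_mk0]; ring)
    have e2 : sym (-g)⁻¹ (Units.mk0 _ h2) = 0 := ConstM.sym_steinberg _ _ (by
      rw [Units.val_inv_eq_inv_val, Units.val_neg, Units.val_mk0, inv_neg]; ring)
    rw [ConstM.sym_inv_left, neg_eq_zero] at e2
    rw [e, ConstM.sym_mul_right, e2, add_zero] at e1
    exact e1

theorem rel (h2 : Module.finrank F E = 2) (f g : E) :
    ∃ a b c : F, algebraMap F E a + algebraMap F E b * f + algebraMap F E c * g = 0 ∧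
      (a ≠ 0 ∨ b ≠ 0 ∨ c ≠ 0) := by
  have h : ¬ LinearIndependent F ![(1 : E), f, g] := by
    intro hli
    have : FiniteDimensional F E := Module.finite_of_finrank_pos (by rw [h2]; norm_num)
    have := hli.fintype_card_le_finrank
    rw [h2, Fintype.card_fin] at this
    omega
  rw [Fintype.not_linearIndependent_iff] at h
  obtain ⟨c, hc, i, hi⟩ := h
  rw [Fin.sum_univ_three] at hc
  refine ⟨c 0, c 1, c 2, ?_, ?_⟩
  · simp only [Matrix.cons_val_zero, Matrix.cons_val_one, Matrix.cons_val_two,
      Algebra.smul_def] at hc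
    simpa using hc
  · fin_cases i
    · exact Or.inl hi
    · exact Or.inr (Or.inl hi)
    · exact Or.inr (Or.inr hi)

end INVM

open INVM in
theorem specINV : SpecINV := by
  intro F E _ _ _ h2 ε hε f g
  suffices h : sym f g ∈ G ε by
    obtain ⟨γ, hγ⟩ := h
    exact ⟨γ, hγ.symm⟩
  obtain ⟨a, b, c, hrel, hne⟩ := rel h2 (f : E) (g : E)
  have inj := (algebraMap F E).injective
  by_cases hb : b = 0
  · subst hb
    rw [map_zero, zero_mul, add_zero] at hrel
    by_cases hc : c = 0
    · subst hc
      rw [map_zero, zero_mul, add_zero] at hrel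
      have ha : a = 0 := inj (by rw [hrel, map_zero])
      subst ha
      simp at hne
    · have hc' : algebraMap F E c ≠ 0 := by
        rw [Ne, map_eq_zero]
        exact hc
      obtain ⟨u, rfl⟩ := mem_of_val (f := g) (c := -(a / c)) (by
        rw [map_neg, map_div₀]
        field_simp
        linear_combination hrel)
      exact right_mem ε hε u f
  by_cases hc : c = 0
  · subst hc
    rw [map_zero, zero_mul, add_zero] at hrel
    have hb' : algebraMap F E b ≠ 0 := by
      rw [Ne, map_eq_zero]
      exact hb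
    obtain ⟨u, rfl⟩ := mem_of_val (f := f) (c := -(a / b)) (by
      rw [map_neg, map_div₀]
      field_simp
      linear_combination hrel)
    exact left_mem ε hε u g
  have hc' : algebraMap F E c ≠ 0 := by
    rw [Ne, map_eq_zero]
    exact hc
  have hb' : algebraMap F E b ≠ 0 := by
    rw [Ne, map_eq_zero]
    exact hb
  by_cases ha : a = 0
  · subst ha
    rw [map_zero, zero_add] at hrel
    have hcb : c / b ≠ 0 := div_ne_zero hc hb
    have e : f = um F E (Units.mk0 (c / b) hcb) * (-g) := by
      apply Units.ext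
      show (f : E) = algebraMap F E (c / b) * (-(g : E))
      rw [map_div₀]
      field_simp
      linear_combination hrel
    have e2 : sym f g = sym (um F E (Units.mk0 (c / b) hcb)) g := by
      rw [e, ConstM.sym_mul_left]
      have h0 : sym (-g) g = 0 := by
        exact neg_self g
      rw [h0, add_zero]
    rw [e2]
    exact left_mem ε hε _ g
  · have ha' : algebraMap F E a ≠ 0 := by
      rw [Ne, map_eq_zero]
      exact ha
    have hba : -(b / a) ≠ 0 := neg_ne_zero.2 (div_ne_zero hb ha)
    have hca : -(c / a) ≠ 0 := neg_ne_zero.2 (div_ne_zero hc ha)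
    have hst : sym (um F E (Units.mk0 _ hba) * f) (um F E (Units.mk0 _ hca) * g) = 0 := by
      apply ConstM.sym_steinberg
      show algebraMap F E (-(b / a)) * (f : E) + algebraMap F E (-(c / a)) * (g : E) = 1
      rw [map_neg, map_neg, map_div₀, map_div₀]
      field_simp
      linear_combination -hrel
    rw [ConstM.sym_mul_left, ConstM.sym_mul_right f] at hst
    have e : sym f g = -(sym (um F E (Units.mk0 _ hba)) (um F E (Units.mk0 _ hca) * g))
        - sym f (um F E (Units.mk0 _ hca)) := by
      rw [eq_sub_iff_add_eq, eq_neg_iff_add_eq_zero, ← hst]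
      abel
    rw [e]
    exact sub_mem (neg_mem (left_mem ε hε _ _)) (right_mem ε hε _ _)

end MP743d1e.BD
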