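import Pool.Agent.Lib.MP_743d1e_nt.BD.SpecB
import Pool.Agent.Lib.MP_743d1e_nt.CY.PUK

/-!
# MP_743d1e_nt, theorem BD, module JEX: an embedding with `g` constant
-/

set_option autoImplicit false

namespace MP743d1e.BD

open scoped BigOperators
open Polynomial IntermediateField MP743d1e.CY MP743d1e.GX MP743d1e.Integ Filter

namespace JEXM

section

variable {k₀ M : Type} [Field k₀] [Field M] [Algebra k₀ M]

/-- the algebraic closure of `k₀(g)` in the algebraic closure of `M` -/
noncomputable def kap (k₀ : Type) {M : Type} [Field k₀] [Field M] [Algebra k₀ M] (g : M) :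
    IntermediateField k₀ (AlgebraicClosure M) :=
  (algebraicClosure k₀⟮algebraMap M (AlgebraicClosure M) g⟯ (AlgebraicClosure M)).restrictScalars k₀

theorem mem_kap (g : M) (y : AlgebraicClosure M) :
    y ∈ kap k₀ g ↔ IsAlgebraic k₀⟮algebraMap M (AlgebraicClosure M) g⟯ y :=
  mem_algebraicClosure_iff

instance kap_closed (g : M) : IsAlgClosed (kap k₀ g) := by
  have h : IsAlgClosed (algebraicClosure k₀⟮algebraMap M (AlgebraicClosure M) g⟯
    (AlgebraicClosure M)) := IsAlgClosure.isAlgClosed k₀⟮algebraMap M (AlgebraicClosure M) g⟯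
  exact h

/-- `g` as an element of `kap` -/
noncomputable def gam (k₀ : Type) {M : Type} [Field k₀] [Field M] [Algebra k₀ M] (g : M) :
    kap k₀ g :=
  ⟨algebraMap M (AlgebraicClosure M) g, (mem_kap g _).2 (by
    have h1 : algebraMap M (AlgebraicClosure M) g ∈ k₀⟮algebraMap M (AlgebraicClosure M) g⟯ :=
      mem_adjoin_simple_self k₀ _
    exact isAlgebraic_algebraMap
      (⟨_, h1⟩ : k₀⟮algebraMap M (AlgebraicClosure M) g⟯))⟩

theorem kap_alg (g : M) : Algebra.IsAlgebraic k₀⟮gam k₀ g⟯ (kap k₀ g) := by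
  have hl : lift k₀⟮gam k₀ g⟯ = k₀⟮algebraMap M (AlgebraicClosure M) g⟯ :=
    lift_adjoin_simple k₀ (kap k₀ g) (gam k₀ g)
  refine ⟨fun y => ?_⟩
  have hy : IsAlgebraic k₀⟮algebraMap M (AlgebraicClosure M) g⟯ (y : AlgebraicClosure M) :=
    (mem_kap g _).1 y.2
  let e := (liftAlgEquiv k₀⟮gam k₀ g⟯).trans (equivOfEq hl)
  refine hy.of_ringHom_of_comp_eq (R := k₀⟮gam k₀ g⟯) (e : k₀⟮gam k₀ g⟯ →+* _)
    (g := (algebraMap (kap k₀ g) (AlgebraicClosure M))) ?_ ?_ ?_
  · exact e.surjective
  · exact Subtype.val_injective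
  · ext z
    rfl

open scoped IntermediateField.algebraAdjoinAdjoin in
theorem f_tr0 {k₀ Ω : Type} [Field k₀] [Field Ω] [Algebra k₀ Ω] (f g : Ω)
    (h3 : Transcendental (Algebra.adjoin k₀ {g}) f) : Transcendental k₀⟮g⟯ f := by
  intro h4
  apply h3
  exact (IsFractionRing.isAlgebraic_iff (Algebra.adjoin k₀ {g}) k₀⟮g⟯ Ω).2 h4

theorem f_tr (f g : M) (h : AlgebraicIndependent k₀ ![f, g]) :
    Transcendental k₀⟮algebraMap M (AlgebraicClosure M) g⟯ (algebraMap M (AlgebraicClosure M) f) := by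
  have h1 : AlgebraicIndependent k₀ (algebraMap M (AlgebraicClosure M) ∘ ![f, g]) :=
    h.map' (f := IsScalarTower.toAlgHom k₀ M (AlgebraicClosure M))
      (algebraMap M (AlgebraicClosure M)).injective
  have h2 := h1.transcendental_adjoin (s := {1}) (i := 0) (by simp)
  rw [Set.image_singleton] at h2
  have h3 : Transcendental (Algebra.adjoin k₀ {algebraMap M (AlgebraicClosure M) g})
    (algebraMap M (AlgebraicClosure M) f) := h2
  exact f_tr0 _ _ h3

theorem f_tr2 (f g : M) (h : AlgebraicIndependent k₀ ![f, g]) :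
    Transcendental (kap k₀ g) (algebraMap M (AlgebraicClosure M) f) := by
  intro h1
  apply f_tr f g h
  have h2 : IsAlgebraic (algebraicClosure k₀⟮algebraMap M (AlgebraicClosure M) g⟯
    (AlgebraicClosure M)) (algebraMap M (AlgebraicClosure M) f) := h1
  exact h2.restrictScalars k₀⟮algebraMap M (AlgebraicClosure M) g⟯

/-- the image of `M` in its algebraic closure, with constants `kap` -/
noncomputable def NN0 (k₀ : Type) {M : Type} [Field k₀] [Field M] [Algebra k₀ M] (g : M) (s : Set M) :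
    IntermediateField (kap k₀ g) (AlgebraicClosure M) :=
  IntermediateField.adjoin (kap k₀ g) (algebraMap M (AlgebraicClosure M) '' s)

theorem mem_NN0 (g : M) (s : Set M) (hs : IntermediateField.adjoin k₀ s = ⊤) (m : M) :
    algebraMap M (AlgebraicClosure M) m ∈ NN0 k₀ g s := by
  have hm : m ∈ IntermediateField.adjoin k₀ s := by rw [hs]; exact mem_top
  induction hm using IntermediateField.adjoin_induction with
  | mem x hx => exact subset_adjoin _ _ ⟨x, hx, rfl⟩
  | algebraMap x =>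
    have h1 : algebraMap M (AlgebraicClosure M) (algebraMap k₀ M x) =
        algebraMap (kap k₀ g) (AlgebraicClosure M) (algebraMap k₀ (kap k₀ g) x) := by
      rw [← IsScalarTower.algebraMap_apply, ← IsScalarTower.algebraMap_apply]
    rw [h1]
    exact IntermediateField.algebraMap_mem _ _
  | add x y _ _ hx hy => rw [map_add]; exact add_mem hx hy
  | inv x _ hx => rw [map_inv₀]; exact inv_mem hx
  | mul x y _ _ hx hy => rw [map_mul]; exact mul_mem hx hy

/-- the embedding of `M` -/
noncomputable def jN (g : M) (s : Set M) (hs : IntermediateField.adjoin k₀ s = ⊤) :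
    M →+* NN0 k₀ g s :=
  (algebraMap M (AlgebraicClosure M)).codRestrict (NN0 k₀ g s).toSubring (mem_NN0 g s hs)

theorem jN_coe (g : M) (s : Set M) (hs : IntermediateField.adjoin k₀ s = ⊤) (m : M) :
    (jN g s hs m : AlgebraicClosure M) = algebraMap M (AlgebraicClosure M) m := rfl

theorem jN_const (g : M) (s : Set M) (hs : IntermediateField.adjoin k₀ s = ⊤) (c : k₀) :
    jN g s hs (algebraMap k₀ M c) = algebraMap (kap k₀ g) (NN0 k₀ g s) (algebraMap k₀ (kap k₀ g) c) := by
  apply Subtype.ext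
  rw [jN_coe]
  show _ = algebraMap (kap k₀ g) (AlgebraicClosure M) (algebraMap k₀ (kap k₀ g) c)
  rw [← IsScalarTower.algebraMap_apply, ← IsScalarTower.algebraMap_apply]

theorem jN_g (g : M) (s : Set M) (hs : IntermediateField.adjoin k₀ s = ⊤) :
    jN g s hs g = algebraMap (kap k₀ g) (NN0 k₀ g s) (gam k₀ g) := rfl

theorem gen (g : M) (s : Set M) (hs : IntermediateField.adjoin k₀ s = ⊤) :
    IntermediateField.adjoin (kap k₀ g) (jN g s hs '' s) = ⊤ := by
  apply lift_injective (NN0 k₀ g s)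
  rw [lift_adjoin, IntermediateField.lift_top, Set.image_image]
  rfl

theorem alg (f g : M) (s : Set M) (hs : IntermediateField.adjoin k₀ s = ⊤)
    (h : Algebra.IsAlgebraic (IntermediateField.adjoin k₀ ({f, g} : Set M)) M) (m : M) :
    IsAlgebraic (kap k₀ g)⟮jN g s hs f⟯ (jN g s hs m) := by
  have hmem : ∀ c : IntermediateField.adjoin k₀ ({f, g} : Set M),
      jN g s hs c ∈ (kap k₀ g)⟮jN g s hs f⟯ := by
    rintro ⟨c, hc⟩
    show jN g s hs c ∈ (kap k₀ g)⟮jN g s hs f⟯
    induction hc using IntermediateField.adjoin_induction with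
    | mem x hx =>
      rcases hx with rfl | hx
      · exact mem_adjoin_simple_self _ _
      · rw [Set.mem_singleton_iff] at hx
        subst hx
        rw [jN_g]
        exact IntermediateField.algebraMap_mem _ _
    | algebraMap x =>
      rw [jN_const]
      exact IntermediateField.algebraMap_mem _ _
    | add x y _ _ hx hy => rw [map_add]; exact add_mem hx hy
    | inv x _ hx => rw [map_inv₀]; exact inv_mem hx
    | mul x y _ _ hx hy => rw [map_mul]; exact mul_mem hx hy
  let τ : IntermediateField.adjoin k₀ ({f, g} : Set M) →+* (kap k₀ g)⟮jN g s hs f⟯ :=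
    ((jN g s hs).comp (algebraMap (IntermediateField.adjoin k₀ ({f, g} : Set M)) M)).codRestrict
      ((kap k₀ g)⟮jN g s hs f⟯).toSubring hmem
  exact (h.isAlgebraic m).ringHom_of_comp_eq τ (jN g s hs) τ.injective rfl

theorem fin (f g : M) (s : Finset M) (hs : IntermediateField.adjoin k₀ (s : Set M) = ⊤)
    (h : Algebra.IsAlgebraic (IntermediateField.adjoin k₀ ({f, g} : Set M)) M) :
    FiniteDimensional (kap k₀ g)⟮jN g s hs f⟯ (NN0 k₀ g (s : Set M)) := by
  have hfin : Finite (jN g s hs '' (s : Set M)) := (s.finite_toSet.image _).to_subtype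
  have h1 : FiniteDimensional (kap k₀ g)⟮jN g s hs f⟯
      (IntermediateField.adjoin (kap k₀ g)⟮jN g s hs f⟯ (jN g s hs '' (s : Set M))) := by
    apply finiteDimensional_adjoin
    rintro _ ⟨m, _, rfl⟩
    exact (alg f g s hs h m).isIntegral
  have h2 : IntermediateField.adjoin (kap k₀ g)⟮jN g s hs f⟯ (jN g s hs '' (s : Set M)) = ⊤ := by
    rw [eq_top_iff]
    intro y _
    have h3 : y ∈ IntermediateField.adjoin (kap k₀ g) (jN g s hs '' (s : Set M)) := by
      rw [gen]; exact mem_top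
    have h4 : IntermediateField.adjoin (kap k₀ g) (jN g s hs '' (s : Set M)) ≤
        (IntermediateField.adjoin (kap k₀ g)⟮jN g s hs f⟯
          (jN g s hs '' (s : Set M))).restrictScalars (kap k₀ g) := by
      rw [adjoin_le_iff]
      exact subset_adjoin _ _
    exact h4 h3
  rw [h2] at h1
  exact Module.Finite.equiv (topEquiv (F := (kap k₀ g)⟮jN g s hs f⟯)
    (E := NN0 k₀ g (s : Set M))).toLinearEquiv

end

end JEXM

/-- JEX -/
theorem specJEX (hARC : SpecARC) : SpecJEX := by
  intro k₀ M _ _ _ _ _ f g hfg halg hs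
  obtain ⟨s, hs⟩ := hs
  obtain ⟨N, hN⟩ : ∃ N, N = JEXM.NN0 k₀ (g : M) (s : Set M) := ⟨_, rfl⟩
  have hchar : CharZero (JEXM.kap k₀ (g : M)) :=
    charZero_of_injective_algebraMap (algebraMap k₀ (JEXM.kap k₀ (g : M))).injective
  let j₀ := JEXM.jN (k₀ := k₀) (g : M) (s : Set M) hs
  have hfin : FiniteDimensional (JEXM.kap k₀ (g : M))⟮j₀ (f : M)⟯ (JEXM.NN0 k₀ (g : M) (s : Set M)) :=
    JEXM.fin (f : M) (g : M) s hs halg
  have htr : Transcendental (JEXM.kap k₀ (g : M)) (j₀ (f : M)) := by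
    have h1 := JEXM.f_tr2 (k₀ := k₀) (f : M) (g : M) hfg
    have h2 : algebraMap (JEXM.NN0 k₀ (g : M) (s : Set M)) (AlgebraicClosure M) (j₀ (f : M)) =
      algebraMap M (AlgebraicClosure M) (f : M) := rfl
    rw [← h2] at h1
    exact (transcendental_algebraMap_iff
      (algebraMap (JEXM.NN0 k₀ (g : M) (s : Set M)) (AlgebraicClosure M)).injective).1 h1
  let uf : (JEXM.NN0 k₀ (g : M) (s : Set M))ˣ :=
    Units.map (j₀ : M →* JEXM.NN0 k₀ (g : M) (s : Set M)) f
  obtain ⟨-, v, hv, hvf⟩ := specFNV (JEXM.kap k₀ (g : M)) (JEXM.NN0 k₀ (g : M) (s : Set M))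
    (j₀ (f : M)) hfin uf htr
  obtain ⟨ϖ, hϖ⟩ := v.surj 1
  obtain ⟨ι, hι1, hι2, hι3⟩ := hARC (JEXM.kap k₀ (g : M)) (JEXM.NN0 k₀ (g : M) (s : Set M))
    ⟨j₀ (f : M), htr, hfin⟩ v hv ϖ hϖ
  refine ⟨JEXM.kap k₀ (g : M), inferInstance, inferInstance, inferInstance, JEXM.gam k₀ (g : M),
    ι.comp j₀, ?_, JEXM.kap_alg (g : M), ?_, ?_, ?_⟩
  · have h1 : Transcendental k₀ (g : M) := hfg.transcendental 1
    have h2 : Transcendental k₀ (algebraMap M (AlgebraicClosure M) (g : M)) :=
      (transcendental_algebraMap_iff (algebraMap M (AlgebraicClosure M)).injective).2 h1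
    exact (transcendental_algebraMap_iff
      (algebraMap (JEXM.kap k₀ (g : M)) (AlgebraicClosure M)).injective).1 h2
  · intro c
    rw [RingHom.comp_apply]
    have h1 : j₀ (algebraMap k₀ M c) = _ := JEXM.jN_const (g : M) (s : Set M) hs c
    rw [h1]
    exact hι1 _
  · rw [RingHom.comp_apply]
    have h1 : j₀ (g : M) = _ := JEXM.jN_g (g : M) (s : Set M) hs
    rw [h1]
    exact hι1 _
  · have h1 := hι3 uf
    rw [RingHom.comp_apply]
    have h2 : (ι (j₀ (f : M))).order = v.ord uf := h1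
    rw [h2]
    exact hvf

end MP743d1e.BD
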