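import Pool.Agent.Lib.MP_743d1e_nt.BD.SpecC
import Pool.Agent.Lib.MP_743d1e_nt.Reg

/-!
# Theorem BD: modules, part D (regulators)

`Loop K` (`MP_743d1e_nt/Defs.lean`): closed paths of complex embeddings of `K`; `reg γ : K2 K →+ ℝ` (`Reg.lean`).
-/

set_option autoImplicit false

namespace MP743d1e.BD

open scoped BigOperators
open Polynomial IntermediateField MP743d1e.CY MP743d1e.GX MP743d1e.Integ Filter

/-- LDK. `K` and `k` are linearly disjoint over `F` if `F` is algebraically closed in `K`. Deps: none.

Proof. `ld`: let `c_1, .., c_n ∈ k` be linearly independent over `F`. They are in `F⟮α⟯` (primitive element). The minimal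
polynomial of `α` over `F` is irreducible over `K`: the coefficients of a monic factor over `K` are algebraic over
`F` (they are in the field generated by the roots), so they are in `F`. So `1, α, .., α ^ (m - 1)` are linearly
independent over `K`, hence every `F`-basis of `F⟮α⟯` is, and `∑ r_i c_i = 0` implies `r_i = 0`. `gen`: the set of the
fractions of `Algebra.adjoin k (range K)` is a subfield containing `k` and `K`. -/
def SpecLDK : Prop := ∀ (F K k L : Type) [Field F] [CharZero F] [Field K] [Field k] [Field L]
  [Algebra F K] [Algebra F k] [Algebra F L] [Algebra K L] [Algebra k L] [IsScalarTower F K L]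
  [IsScalarTower F k L] [IsAlgClosure F k],
  (∀ z : K, IsAlgebraic F z → ∃ c : F, z = algebraMap F K c) →
  IntermediateField.adjoin k (Set.range (algebraMap K L)) = ⊤ → CExt F K k L

/-- LPX. Extension of paths. Deps: EXT.

Proof. For `c ∈ F` the function `θ ↦ γ.ev θ c` is continuous with values in a finite set (the roots of the minimal polynomial
over `ℚ`), so it is constant. So there is `σ : k →+* ℂ` with `σ c = γ.ev θ c` for `c ∈ F` and all `θ` (`k / F` algebraic,
`IsAlgClosed.lift`). EXT for `(F, K, k, L)`, `Λ = ℂ`, `α = σ`, `φ = γ.ev θ`, `z` transcendental over `F`: `γ.ev θ z` is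
transcendental over `ℚ`, hence over the image of `σ`, which is algebraic over `ℚ`. So there are `ev' θ : L →+* ℂ`.
For `x ∈ L`, `x b = a` (`gen`) with `a`, `b` in `Algebra.adjoin k (range K)`; on this algebra `θ ↦ ev' θ a` is `C¹`
(`Algebra.adjoin_induction`) and periodic, and `ev' θ b ≠ 0`. -/
def SpecLPX : Prop := ∀ (F K k L : Type) [Field F] [NumberField F] [Field K] [Field k] [Field L]
  [Algebra F K] [Algebra F k] [Algebra F L] [Algebra K L] [Algebra k L] [IsScalarTower F K L]
  [IsScalarTower F k L] [IsAlgClosure F k], CExt F K k L → Fun1 F K → ∀ γ : Loop K,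
  ∃ γ' : Loop L, ∀ (θ : ℝ) (y : K), γ'.ev θ (algebraMap K L y) = γ.ev θ y

/-- RCO. The regulator of constants. Deps: none.

Proof. For `c ∈ k` the function `θ ↦ γ.ev θ c` is continuous with values in a finite set (the roots of a polynomial over `ℚ`),
so it is constant, its derivative is zero and `regInt = 0` for symbols of constants. Use `reg_eq`, `regOf_sym`,
`K2.hom_ext`. Second part: the same integrals. -/
def SpecRCO : Prop :=
  (∀ (k L : Type) [Field k] [Field L] [Algebra k L] [CharZero k], Algebra.IsAlgebraic ℚ k →
    ∀ (γ : Loop L) (c : K2 k), reg γ (mk2 k L c) = 0) ∧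
  ∀ (K L : Type) [Field K] [Field L] [Algebra K L] (γ : Loop K) (γ' : Loop L),
    (∀ (θ : ℝ) (y : K), γ'.ev θ (algebraMap K L y) = γ.ev θ y) →
      ∀ β : K2 K, reg γ' (mk2 K L β) = reg γ β

end MP743d1e.BD
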