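import Pool.Agent.Lib.MP_743d1e_nt.BD.SpecA
import Pool.Agent.Lib.MP_743d1e_nt.CY.PUK
import Pool.Agent.Lib.MP_743d1e_nt.BD.SpecB
import Pool.Agent.Lib.MP_743d1e_nt.BD.SpecC
import Pool.Agent.Lib.MP_743d1e_nt.BD.SpecD

section
/-!
# DGP: the degree of a function with at most two simple poles
-/
set_option autoImplicit false

namespace MP743d1e.BD

open scoped BigOperators
open Polynomial IntermediateField MP743d1e.CY MP743d1e.GX MP743d1e.Integ Filter

namespace DGPM

open MP743d1e.CY.FNVM

theorem pos_add {K : Type} [Field K] {v : DVal K} {f g : K} (hf : Pos v f) (hg : Pos v g) :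
    Pos v (f + g) := by
  rcases hf with hf | ⟨u, hu, h1⟩
  · rw [hf, zero_add]; exact hg
  rcases hg with hg | ⟨w, hw, h2⟩
  · rw [hg, add_zero]; exact Or.inr ⟨u, hu, h1⟩
  by_cases h0 : f + g = 0
  · left; exact h0
  · refine Or.inr ⟨Units.mk0 _ h0, rfl, ?_⟩
    have := v.ord_add u w (Units.mk0 _ h0) (by rw [hu, hw]; rfl)
    have h3 : 1 ≤ min (v.ord u) (v.ord w) := le_min h1 h2
    omega

theorem pos_sum {K ι : Type} [Field K] {v : DVal K} (s : Finset ι) (f : ι → K)
    (h : ∀ i ∈ s, Pos v (f i)) : Pos v (∑ i ∈ s, f i) := by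
  classical
  induction s using Finset.induction_on with
  | empty => left; simp
  | insert a s ha ih =>
    rw [Finset.sum_insert ha]
    exact pos_add (h a (Finset.mem_insert_self a s))
      (ih fun i hi => h i (Finset.mem_insert_of_mem hi))

theorem repr_aux {A M : Type} [CommRing A] [AddCommGroup M] [Module A M] {n : ℕ}
    (b : Module.Basis (Fin n) A M) (c : Fin n → A) (y : A) (z : M) (h : ∑ i, c i • b i = y • z)
    (i : Fin n) : c i = y * b.repr z i := by
  have h1 : b.repr (∑ i, c i • b i) i = c i := by rw [b.repr_sum_self]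
  rw [← h1, h, map_smul, Finsupp.smul_apply, smul_eq_mul]

open scoped IntermediateField.algebraAdjoinAdjoin

theorem main (hRES : SpecRES) (hINC : SpecINC) {k K : Type} [Field k] [Field K] [Algebra k K]
    [IsAlgClosed k] [CharZero k] (hK : Fun1 k K) (τ : K) (hτ : Transcendental k τ) (m : ℕ)
    (S : Fin m → DVal K) (hS : ∀ j, GeoF k (S j))
    (hv : ∀ v : DVal K, GeoF k v → (∀ j, v ≠ S j) → NN v τ)
    (hge : ∀ j, GE (S j) (-1) τ) : Module.finrank k⟮τ⟯ K ≤ m := by
  have hτ0 : τ ≠ 0 := by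
    rintro rfl
    exact hτ (isAlgebraic_zero)
  set y : K := τ⁻¹ with hy
  have hytr : Transcendental k y := fun h => hτ (by
    have := h.inv
    rwa [hy, inv_inv] at this)
  have hkk : k⟮τ⟯ = k⟮y⟯ := by
    apply le_antisymm
    · rw [adjoin_simple_le_iff]
      have : y⁻¹ ∈ k⟮y⟯ := inv_mem (mem_adjoin_simple_self k y)
      rwa [hy, inv_inv] at this
    · rw [adjoin_simple_le_iff]
      exact inv_mem (mem_adjoin_simple_self k τ)
  rw [hkk]
  have hfiny : FiniteDimensional k⟮y⟯ K := fdx hK hytr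
  let A := Algebra.adjoin k ({y} : Set K)
  let e : Polynomial k ≃ₐ[k] A := Polynomial.algEquivOfTranscendental k y hytr
  have hpid : IsPrincipalIdealRing A :=
    IsPrincipalIdealRing.of_surjective (e : Polynomial k →+* A) e.surjective
  have hchar : CharZero k⟮y⟯ := inferInstance
  have hsep : Algebra.IsSeparable k⟮y⟯ K := inferInstance
  have hfree : Module.Free A (integralClosure A K) :=
    IsIntegralClosure.module_free A k⟮y⟯ K (integralClosure A K)
  have hfin : Module.Finite A (integralClosure A K) :=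
    IsIntegralClosure.finite A k⟮y⟯ K (integralClosure A K)
  have hrk : Module.finrank A (integralClosure A K) = Module.finrank k⟮y⟯ K :=
    IsIntegralClosure.rank A k⟮y⟯ K (integralClosure A K)
  by_contra hlt
  rw [not_le, ← hrk] at hlt
  set n := Module.finrank A (integralClosure A K) with hn
  let b : Module.Basis (Fin n) A (integralClosure A K) := Module.finBasis A (integralClosure A K)
  -- the residues
  have hA : ∀ v : DVal K, GeoF k v → NN v y → ∀ a : A, NN v (algebraMap A K a) :=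
    fun v hg h a => nn_adjoin hg h a
  have hO : ∀ v : DVal K, GeoF k v → NN v y → ∀ c : integralClosure A K, NN v (c : K) :=
    fun v hg h c => nn_of_isIntegral (hA v hg h) c.2
  have hres : ∀ j i, ∃ r : k, NN (S j) y → Pos (S j) ((b i : K) - algebraMap k K r) := by
    intro j i
    by_cases h : NN (S j) y
    · obtain ⟨c, hc⟩ := hRES k K hK (S j) (hS j) (b i : K) (hO _ (hS j) h _)
      exact ⟨c, fun _ => hc⟩
    · exact ⟨0, fun h' => absurd h' h⟩
  choose r hr using hres
  let φ : (Fin n → k) →ₗ[k] (Fin m → k) :=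
    LinearMap.pi fun j => ∑ i, r j i • LinearMap.proj i
  have hφ : ∀ c j, φ c j = ∑ i, r j i * c i := by
    intro c j
    simp [φ]
  have hker : LinearMap.ker φ ≠ ⊥ := LinearMap.ker_ne_bot_of_finrank_lt (by simpa using hlt)
  obtain ⟨c, hc, hc0⟩ := (Submodule.ne_bot_iff _).1 hker
  rw [LinearMap.mem_ker] at hc
  let z : integralClosure A K := ∑ i, algebraMap k A (c i) • b i
  have hzK : (z : K) = ∑ i, algebraMap k K (c i) * (b i : K) := by
    have h1 : (z : K) = algebraMap (integralClosure A K) K z := rfl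
    rw [h1, map_sum]
    refine Finset.sum_congr rfl fun i _ => ?_
    rw [Algebra.smul_def, map_mul]
    rfl
  have hpos : ∀ j, NN (S j) y → Pos (S j) (z : K) := by
    intro j hj
    have h1 : (z : K) = ∑ i, algebraMap k K (c i) * ((b i : K) - algebraMap k K (r j i)) := by
      have h2 : ∑ i, algebraMap k K (c i) * algebraMap k K (r j i) = 0 := by
        have h3 := congrFun hc j
        rw [hφ, Pi.zero_apply] at h3
        have h4 := congrArg (algebraMap k K) h3
        rw [map_sum, map_zero] at h4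
        rw [← h4]
        refine Finset.sum_congr rfl fun i _ => ?_
        rw [map_mul, mul_comm]
      rw [hzK]
      simp_rw [mul_sub]
      rw [Finset.sum_sub_distrib, h2, sub_zero]
    rw [h1]
    refine pos_sum _ _ fun i _ => ?_
    rw [mul_comm]
    exact pos_mul_nn (hr j i hj) (nn_const (hS j) _)
  have hRR : RR k y ((z : K) * τ) := by
    intro v hg hvy
    by_cases hex : ∃ j, v = S j
    · obtain ⟨j, rfl⟩ := hex
      rcases hpos j hvy with h | ⟨u, hu, h1⟩
      · rw [h, zero_mul]; exact nn_zero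
      · rcases hge j with h | ⟨w, hw, h2⟩
        · exact absurd h hτ0
        · rw [← hu, ← hw, ← Units.val_mul, nn_unit, DVal.ord_mul]
          omega
    · exact nn_mul (hO v hg hvy z) (hv v hg fun j hj => hex ⟨j, hj⟩)
  have hint := (hINC k K hK y hytr).1 _ hRR
  let z' : integralClosure A K := ⟨(z : K) * τ, hint⟩
  let yA : A := ⟨y, Algebra.self_mem_adjoin_singleton k y⟩
  have hyz : z = yA • z' := by
    apply Subtype.ext
    show (z : K) = y * ((z : K) * τ)
    have hyτ : y * τ = 1 := inv_mul_cancel₀ hτ0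
    rw [mul_left_comm, hyτ, mul_one]
  have hcoef : ∀ i, algebraMap k A (c i) = yA * b.repr z' i := by
    intro i
    exact repr_aux b (fun i => algebraMap k A (c i)) yA z' hyz i
  apply hc0
  funext i
  have h1 := congrArg e.symm (hcoef i)
  have h2 : e Polynomial.X = yA := Polynomial.algEquivOfTranscendental_apply_X k y hytr
  rw [map_mul, ← h2, e.symm_apply_apply, AlgEquiv.commutes] at h1
  have h3 := congrArg (fun p : k[X] => p.coeff 0) h1
  simpa using h3

end DGPM

theorem specDGP (hRES : SpecRES) (hINC : SpecINC) : SpecDGP := by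
  intro k K _ _ _ _ _ hK τ A B hτ hA hB hv hgA hgB
  refine ⟨?_, ?_⟩
  · refine DGPM.main hRES hINC hK τ hτ 2 ![A, B] ?_ ?_ ?_
    · intro j; fin_cases j
      · exact hA
      · exact hB
    · intro v hg h
      exact hv v hg (h 0) (h 1)
    · intro j; fin_cases j
      · exact hgA
      · exact hgB
  · rintro (h | h | h)
    · subst h
      refine DGPM.main hRES hINC hK τ hτ 1 ![A] ?_ ?_ ?_
      · intro j; fin_cases j; exact hA
      · intro v hg h
        exact hv v hg (h 0) (h 0)
      · intro j; fin_cases j; exact hgA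
    · refine DGPM.main hRES hINC hK τ hτ 1 ![B] ?_ ?_ ?_
      · intro j; fin_cases j; exact hB
      · intro v hg h'
        by_cases hvA : v = A
        · rw [hvA]; exact h
        · exact hv v hg hvA (h' 0)
      · intro j; fin_cases j; exact hgB
    · refine DGPM.main hRES hINC hK τ hτ 1 ![A] ?_ ?_ ?_
      · intro j; fin_cases j; exact hA
      · intro v hg h'
        by_cases hvB : v = B
        · rw [hvB]; exact h
        · exact hv v hg (h' 0) hvB
      · intro j; fin_cases j; exact hgA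

end MP743d1e.BD
end

section
/-!
# Theorem BD: module DIF (the regular differentials given by a reduced basis)
-/
set_option autoImplicit false

namespace MP743d1e.BD

open scoped BigOperators
open Polynomial IntermediateField MP743d1e.CY MP743d1e.GX MP743d1e.Integ Filter

namespace DIFM

theorem degX_mul {k K : Type} [Field k] [Field K] [Algebra k K] {x φ : K} {m : ℤ} (l : ℕ)
    (h : DegX k x m φ) : DegX k x (l + m) (x ^ l * φ) := by
  obtain ⟨p, q, hq, h1, h2⟩ := h
  refine ⟨X ^ l * p, q, hq, ?_, ?_⟩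
  · rw [map_mul, map_pow, aeval_X, mul_assoc, h1]
  · have h3 : (X ^ l * p).natDegree ≤ l + p.natDegree := by
      refine natDegree_mul_le.trans ?_
      rw [natDegree_X_pow]
    have h4 : ((X ^ l * p).natDegree : ℤ) ≤ l + p.natDegree := by exact_mod_cast h3
    linarith

theorem degX_mono {k K : Type} [Field k] [Field K] [Algebra k K] {x φ : K} {m m' : ℤ}
    (hm : m ≤ m') (h : DegX k x m φ) : DegX k x m' φ := by
  obtain ⟨p, q, hq, h1, h2⟩ := h
  exact ⟨p, q, hq, h1, h2.trans hm⟩

end DIFM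

open DIFM

/-- DIF. The regular differentials given by a reduced basis. -/
theorem specDIF (hTRG : SpecTRG) : SpecDIF := by
  intro k K _ _ _ _ _ hK x hx n b a hR hI
  have : FiniteDimensional k⟮x⟯ K := fdx hK hx
  have : CharZero k⟮x⟯ := charZero_of_injective_algebraMap (algebraMap k k⟮x⟯).injective
  have : Algebra.IsSeparable k⟮x⟯ K := inferInstance
  have hnd := traceForm_nondegenerate k⟮x⟯ K
  set b' := (Algebra.traceForm k⟮x⟯ K).dualBasis hnd b with hb'
  have key : ∀ (i : Fin n) (r : K), Algebra.trace k⟮x⟯ K (b' i * r) = b.repr r i := by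
    intro i r
    have h1 : Algebra.trace k⟮x⟯ K (b' i * r) = Algebra.traceForm k⟮x⟯ K (b' i) r :=
      (Algebra.traceForm_apply k⟮x⟯ (b' i) r).symm
    rw [h1]
    conv_lhs => rw [← b.sum_repr r]
    rw [map_sum, Finset.sum_eq_single i]
    · rw [map_smul, hb', LinearMap.BilinForm.apply_dualBasis_left, if_pos rfl, smul_eq_mul, mul_one]
    · intro j _ hj
      rw [map_smul, hb', LinearMap.BilinForm.apply_dualBasis_left, if_neg hj, smul_zero]
    · intro h
      exact absurd (Finset.mem_univ i) h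
  refine ⟨b', fun i l hl => ?_⟩
  have key2 : ∀ r : K, algebraMap k⟮x⟯ K (Algebra.trace k⟮x⟯ K (x ^ l * b' i * r)) =
      x ^ l * algebraMap k⟮x⟯ K (b.repr r i) := by
    intro r
    have h1 : x ^ l * b' i * r = (AdjoinSimple.gen k x) ^ l • (b' i * r) := by
      rw [Algebra.smul_def, map_pow, AdjoinSimple.algebraMap_gen, mul_assoc]
    rw [h1, map_smul, key, smul_eq_mul, map_mul, map_pow, AdjoinSimple.algebraMap_gen]
  refine hTRG k K hK x _ hx ?_ ?_
  · intro r hr
    obtain ⟨p, hp⟩ := (hR r).1 hr i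
    refine ⟨X ^ l * p, ?_⟩
    rw [key2, hp, map_mul, map_pow, aeval_X]
  · intro r hr
    rw [key2]
    exact degX_mono (by linarith) (degX_mul l ((hI r).1 hr i))

end MP743d1e.BD
end

section
/-! # DR0: the derivation `d / dt` -/
set_option autoImplicit false

namespace MP743d1e.BD

open Polynomial IntermediateField TensorProduct

namespace DR0Aux

open scoped IntermediateField.algebraAdjoinAdjoin in
/-- exchange -/
theorem exch {k K : Type} [Field k] [Field K] [Algebra k K] {t x : K}
    (halg : Algebra.IsAlgebraic k⟮t⟯ K) (hx : Transcendental k x) :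
    Algebra.IsAlgebraic k⟮x⟯ K := by
  have h1 : AlgebraicIndependent k (fun _ : Unit => x) :=
    algebraicIndependent_unique_type_iff.mpr hx
  have h2 : Algebra.IsAlgebraic (Algebra.adjoin k ({t} : Set K)) K := by
    have := IsFractionRing.comap_isAlgebraic_iff (A := Algebra.adjoin k ({t} : Set K))
      (K := IntermediateField.adjoin k ({t} : Set K)) (C := K)
    exact this.2 halg
  have h3 : Algebra.trdeg k K ≤ Cardinal.mk Unit := by
    have := Algebra.IsAlgebraic.trdeg_le_cardinalMk k ({t} : Set K)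
    simpa using this
  have h4 := (h1.isTranscendenceBasis_of_trdeg_le_of_finite h3).isAlgebraic_field
  have h5 : Set.range (fun _ : Unit => x) = {x} := by simp
  rw [h5] at h4
  exact h4

/-- the Kähler differentials of an algebraic extension of `k(t)` are free on `dt` -/
theorem exists_equiv (k K : Type) [Field k] [Field K] [Algebra k K] [CharZero k] (t : K)
    (ht : Transcendental k t) (halg : Algebra.IsAlgebraic k⟮t⟯ K) :
    ∃ e : Ω[K⁄k] ≃ₗ[K] K, e (KaehlerDifferential.D k K t) = 1 := by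
  let _ : Algebra k[X] K := (aeval t : k[X] →ₐ[k] K).toRingHom.toAlgebra
  have hmap : ∀ p : k[X], algebraMap k[X] K p = aeval t p := fun _ => rfl
  have : IsScalarTower k k[X] K := IsScalarTower.of_algebraMap_eq fun c => by
    rw [hmap, Polynomial.algebraMap_eq, aeval_C]
  let φ : RatFunc k ≃ₐ[k] k⟮t⟯ := RatFunc.algEquivOfTranscendental t ht
  let _ : Algebra (RatFunc k) K := ((algebraMap k⟮t⟯ K).comp (φ : RatFunc k →+* k⟮t⟯)).toAlgebra
  have hmap2 : ∀ u : RatFunc k, algebraMap (RatFunc k) K u = (φ u : K) := fun _ => rfl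
  have : IsScalarTower k[X] (RatFunc k) K := IsScalarTower.of_algebraMap_eq fun p => by
    rw [hmap, hmap2]
    simp only [φ, RatFunc.algEquivOfTranscendental_algebraMap]
    exact aeval_algHom_apply (k⟮t⟯).val (IntermediateField.AdjoinSimple.gen k t) p
  have : Algebra.IsAlgebraic (RatFunc k) K := ⟨fun a =>
    (halg.isAlgebraic a).of_ringHom_of_comp_eq (φ : RatFunc k →+* k⟮t⟯) (RingHom.id K)
      φ.surjective Function.injective_id rfl⟩
  have : CharZero (RatFunc k) := charZero_of_injective_algebraMap (algebraMap k (RatFunc k)).injective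
  have : Algebra.FormallyEtale (RatFunc k) K := Algebra.FormallyEtale.of_isSeparable _ _
  have : Algebra.FormallyEtale k[X] (RatFunc k) :=
    Algebra.FormallyEtale.of_isLocalization (nonZeroDivisors k[X])
  have : Algebra.FormallyEtale k[X] K := Algebra.FormallyEtale.comp _ (RatFunc k) _
  let e1 : K ⊗[k[X]] Ω[k[X]⁄k] ≃ₗ[K] Ω[K⁄k] :=
    KaehlerDifferential.tensorKaehlerEquivOfFormallyEtale k k[X] K
  let e2 : K ⊗[k[X]] Ω[k[X]⁄k] ≃ₗ[K] K ⊗[k[X]] k[X] :=
    AlgebraTensorModule.congr (LinearEquiv.refl K K) (KaehlerDifferential.polynomialEquiv k)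
  let e3 : K ⊗[k[X]] k[X] ≃ₗ[K] K := AlgebraTensorModule.rid k[X] K K
  refine ⟨e1.symm.trans (e2.trans e3), ?_⟩
  have h1 : e1.symm (KaehlerDifferential.D k K t) =
      1 ⊗ₜ[k[X]] KaehlerDifferential.D k k[X] X := by
    have := KaehlerDifferential.tensorKaehlerEquivOfFormallyEtale_symm_D_algebraMap k k[X] K X
    rw [hmap, aeval_X] at this
    exact this
  rw [LinearEquiv.trans_apply, LinearEquiv.trans_apply, h1]
  simp [e2, e3]

/-- derivations are determined by their value at `t` -/
theorem apply_eq {k K : Type} [Field k] [Field K] [Algebra k K] {t : K} (e : Ω[K⁄k] ≃ₗ[K] K)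
    (he : e (KaehlerDifferential.D k K t) = 1) (D : Derivation k K K) (f : K) :
    D f = e (KaehlerDifferential.D k K f) • D t := by
  have h : KaehlerDifferential.D k K f =
      e (KaehlerDifferential.D k K f) • KaehlerDifferential.D k K t := by
    apply e.injective
    rw [map_smul, he, smul_eq_mul, mul_one]
  have h2 := congrArg D.liftKaehlerDifferential h
  rw [map_smul, Derivation.liftKaehlerDifferential_comp_D,
    Derivation.liftKaehlerDifferential_comp_D] at h2
  exact h2

end DR0Aux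

theorem specDR0 : SpecDR0 := by
  intro k K _ _ _ _ _ t ht halg
  obtain ⟨e, he⟩ := DR0Aux.exists_equiv k K t ht halg
  let D : Derivation k K K := (e : Ω[K⁄k] →ₗ[K] K).compDer (KaehlerDifferential.D k K)
  refine ⟨D.restrictScalars ℤ, ?_, ?_, ?_⟩
  · intro c
    exact D.map_algebraMap c
  · exact he
  · intro x hx
    rcases con (k := k) x with h | h
    · exfalso
      obtain ⟨e', he'⟩ := DR0Aux.exists_equiv k K x h (DR0Aux.exch halg h)
      have h1 := DR0Aux.apply_eq e' he' D t
      have h2 : D x = 0 := hx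
      have h3 : D t = 1 := he
      rw [h2, h3, smul_zero] at h1
      exact one_ne_zero h1
    · exact h

end MP743d1e.BD
end

section
/-!
# Module DUQ: uniqueness of derivations along a homomorphism
-/
set_option autoImplicit false

namespace MP743d1e.BD

open scoped BigOperators
open Polynomial IntermediateField

namespace DUQM

variable {K V : Type} [Field K] [Field V] {j : K →+* V} {A B : K → V}

theorem zero (h : AlongD j A) : A 0 = 0 := by
  have := h.1 0 0
  rw [add_zero] at this
  exact left_eq_add.1 this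

theorem one (h : AlongD j A) : A 1 = 0 := by
  have := h.2 1 1
  rw [mul_one, map_one, one_mul] at this
  exact left_eq_add.1 this

theorem neg (h : AlongD j A) (x : K) : A (-x) = - A x := by
  have := h.1 (-x) x
  rw [neg_add_cancel, zero h] at this
  exact eq_neg_of_add_eq_zero_left this.symm

theorem inv (h : AlongD j A) {x : K} (hx : x ≠ 0) : A x⁻¹ = -(j x⁻¹ * A x) / j x := by
  have := h.2 x x⁻¹
  rw [mul_inv_cancel₀ hx, one h] at this
  rw [eq_div_iff (by rw [Ne, map_eq_zero]; exact hx), mul_comm]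
  exact eq_neg_of_add_eq_zero_left this.symm

theorem pow (h : AlongD j A) (x : K) (n : ℕ) :
    A (x ^ (n + 1)) = ((n + 1 : ℕ) : V) * j x ^ n * A x := by
  induction n with
  | zero => rw [zero_add, pow_one, pow_zero, Nat.cast_one, one_mul, one_mul]
  | succ n ih =>
    rw [pow_succ, h.2, ih, map_pow]
    push_cast
    ring

/-- The set where two derivations agree is a field. -/
def eqF (hA : AlongD j A) (hB : AlongD j B) : Subfield K where
  carrier := {x | A x = B x}
  mul_mem' := by
    intro a b ha hb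
    show A (a * b) = B (a * b)
    rw [hA.2, hB.2, show A a = B a from ha, show A b = B b from hb]
  one_mem' := by
    show A 1 = B 1
    rw [one hA, one hB]
  add_mem' := by
    intro a b ha hb
    show A (a + b) = B (a + b)
    rw [hA.1, hB.1, show A a = B a from ha, show A b = B b from hb]
  zero_mem' := by
    show A 0 = B 0
    rw [zero hA, zero hB]
  neg_mem' := by
    intro a ha
    show A (-a) = B (-a)
    rw [neg hA, neg hB, show A a = B a from ha]
  inv_mem' := by
    intro a ha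
    show A a⁻¹ = B a⁻¹
    by_cases h : a = 0
    · rw [h, inv_zero, zero hA, zero hB]
    · rw [inv hA h, inv hB h, show A a = B a from ha]

theorem along_sub (hA : AlongD j A) (hB : AlongD j B) : AlongD j (fun x => A x - B x) := by
  refine ⟨fun a b => ?_, fun a b => ?_⟩
  · show A (a + b) - B (a + b) = (A a - B a) + (A b - B b)
    rw [hA.1, hB.1]
    ring
  · show A (a * b) - B (a * b) = j a * (A b - B b) + j b * (A a - B a)
    rw [hA.2, hB.2]
    ring

theorem aev {C : K → V} (hC : AlongD j C) (F : Subfield K) (hF : ∀ x ∈ F, C x = 0) (x : K)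
    (p : F[X]) : C (aeval x p) = j (aeval x (derivative p)) * C x := by
  induction p using Polynomial.induction_on with
  | C a =>
    rw [aeval_C, derivative_C, map_zero, map_zero, zero_mul]
    exact hF _ a.2
  | add p q hp hq =>
    rw [map_add, hC.1, hp, hq, derivative_add, map_add, map_add]
    ring
  | monomial n a _ =>
    have h1 : aeval x (Polynomial.C a * X ^ (n + 1) : F[X]) = (a : K) * x ^ (n + 1) := by
      rw [map_mul, aeval_C, map_pow, aeval_X]
      rfl
    have h2 : aeval x (derivative (Polynomial.C a * X ^ (n + 1) : F[X]))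
        = (a : K) * (((n + 1 : ℕ) : K) * x ^ n) := by
      rw [derivative_C_mul_X_pow, map_mul, aeval_C, map_pow, aeval_X, Nat.add_sub_cancel]
      rw [map_mul, map_natCast]
      show (a : K) * _ * _ = _
      ring
    rw [h1, h2, hC.2, pow hC, hF _ a.2, mul_zero, add_zero, map_mul, map_mul, map_natCast,
      map_pow]
    ring

end DUQM

theorem specDUQ : SpecDUQ := by
  have part2 : ∀ (K V : Type) [Field K] [Field V] [CharZero K] (j : K →+* V) (A B : K → V),
      AlongD j A → AlongD j B → ∀ F : Subfield K, (∀ x ∈ F, A x = B x) →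
      ∀ x, IsAlgebraic F x → A x = B x := by
    intro K V _ _ _ j A B hA hB F hF x hx
    have hC := DUQM.along_sub hA hB
    have h1 := DUQM.aev hC F (fun x hx => sub_eq_zero.2 (hF x hx)) x (minpoly F x)
    rw [minpoly.aeval] at h1
    have h2 : A 0 - B 0 = 0 := DUQM.zero hC
    rw [h2] at h1
    have hsep : (minpoly F x).Separable := (minpoly.irreducible hx.isIntegral).separable
    have h3 : aeval x (derivative (minpoly F x)) ≠ 0 :=
      hsep.aeval_derivative_ne_zero (minpoly.aeval F x)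
    rcases mul_eq_zero.1 h1.symm with h4 | h4
    · exact absurd ((map_eq_zero j).1 h4) h3
    · exact sub_eq_zero.1 h4
  refine ⟨fun K V _ _ j A B hA hB => ⟨DUQM.eqF hA hB, fun x => Iff.rfl⟩, part2, ?_⟩
  intro k K V _ _ _ _ _ j A B hA hB hk y halg hy x
  have : CharZero K := charZero_of_injective_algebraMap (algebraMap k K).injective
  refine part2 K V j A B hA hB (k⟮y⟯).toSubfield ?_ x (halg.isAlgebraic x)
  intro z hz
  have h1 : k⟮y⟯.toSubfield ≤ DUQM.eqF hA hB := by
    rw [IntermediateField.adjoin_toSubfield, Subfield.closure_le]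
    rintro w (⟨c, rfl⟩ | hw)
    · exact hk c
    · rw [Set.mem_singleton_iff.1 hw]
      exact hy
  exact h1 hz

end MP743d1e.BD
end

section
/-!
# DZ: the derivation in the direction of `z ∈ K₀`
-/
set_option autoImplicit false

namespace MP743d1e.BD

open scoped BigOperators
open Polynomial IntermediateField MP743d1e.CY MP743d1e.GX MP743d1e.Integ Filter

theorem specDZ (hDER : SpecDER) (hCES : SpecCES) : SpecDZ := by
  intro k₀ K₀ k₁ K₁ _ _ _ _ _ _ _ _ _ _ _ _ _ hC hFun z hz
  have hC' := (hCES k₀ K₀ k₁ K₁ hC).1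
  have hfin : FiniteDimensional k₀⟮z⟯ K₀ := fdx hFun hz
  have halg : Algebra.IsAlgebraic k₀⟮z⟯ K₀ := inferInstance
  obtain ⟨E, E₀, hE, h1, h2⟩ := hDER k₀ k₁ K₀ K₁ hC' z hz halg
  exact ⟨E, E₀, ⟨hE.onK, hE.onk, hE.one⟩, hE.on0, h2, h1⟩

end MP743d1e.BD
end

section
/-!
# FIN: Theorem BD from the modules
-/
set_option autoImplicit false

namespace MP743d1e.BD

open IntermediateField MP743d1e.CY MP743d1e.GX

theorem finBD (hTB : SpecTB) (hNFD : SpecNFD) (hNFT : SpecNFT) (d D : ℕ) : ∃ C : ℕ,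
    ∀ (F K k L : Type) [Field F] [NumberField F] [Field K] [Field k] [Field L] [Algebra F K]
      [Algebra F k] [Algebra F L] [Algebra K L] [Algebra k L] [IsScalarTower F K L]
      [IsScalarTower F k L] [IsAlgClosure F k], Module.finrank ℚ F ≤ D → Fun1 F K →
      IntermediateField.adjoin k (Set.range (algebraMap K L)) = ⊤ →
      ∀ f g : Fin (C + 1) → Kˣ,
        (∀ i, DegLE F d (f i : K) ∧ DegLE F d (g i : K) ∧ TorTameF F (sym (f i) (g i))) →
        ∃ i j, i ≠ j ∧ EquivK k (sym (um K L (f i)) (um K L (g i)))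
          (sym (um K L (f j)) (um K L (g j))) := by
  obtain ⟨N, hN, h1⟩ := hNFT D d
  obtain ⟨C, hC⟩ := hTB d N hN
  refine ⟨C, ?_⟩
  intro F K k L _ _ _ _ _ _ _ _ _ _ _ _ _ hD hFun hgen f g h
  obtain ⟨h2, h3⟩ := hNFD F K k L hFun hgen
  have : IsAlgClosed k := IsAlgClosure.isAlgClosed F
  have : CharZero k := charZero_of_injective_algebraMap (algebraMap F k).injective
  exact hC k L h2 (fun i => um K L (f i)) (fun i => um K L (g i))
    (fun i => h3 d _ (h i).1) (fun i => h3 d _ (h i).2.1)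
    (fun i => h1 F K k L hD hFun (f i) (g i) (h i).1 (h i).2.1 (h i).2.2)

end MP743d1e.BD
end

section
/-!
# FINR: Theorem BD with regulators from the modules
-/
set_option autoImplicit false

namespace MP743d1e.BD

open IntermediateField MP743d1e.CY MP743d1e.GX

theorem finBDR (hTB : SpecTB) (hNFD : SpecNFD) (hNFT : SpecNFT) (hLDK : SpecLDK) (hLPX : SpecLPX)
    (hRCO : SpecRCO) (d D : ℕ) : ∃ C : ℕ,
    ∀ (F K k L : Type) [Field F] [NumberField F] [Field K] [Field k] [Field L] [Algebra F K]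
      [Algebra F k] [Algebra F L] [Algebra K L] [Algebra k L] [IsScalarTower F K L]
      [IsScalarTower F k L] [IsAlgClosure F k], Module.finrank ℚ F ≤ D → Fun1 F K →
      (∀ z : K, IsAlgebraic F z → ∃ c : F, z = algebraMap F K c) →
      IntermediateField.adjoin k (Set.range (algebraMap K L)) = ⊤ →
      ∀ f g : Fin (C + 1) → Kˣ,
        (∀ i, DegLE F d (f i : K) ∧ DegLE F d (g i : K) ∧ TorTameF F (sym (f i) (g i))) →
        ∃ i j, i ≠ j ∧ EquivK k (sym (um K L (f i)) (um K L (g i)))
          (sym (um K L (f j)) (um K L (g j))) ∧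
          ∀ γ : Loop K, regInt (fun θ => γ.ev θ (f i)) (fun θ => γ.ev θ (g i)) =
            regInt (fun θ => γ.ev θ (f j)) (fun θ => γ.ev θ (g j)) := by
  obtain ⟨C, hC⟩ := finBD hTB hNFD hNFT d D
  refine ⟨C, ?_⟩
  intro F K k L _ _ _ _ _ _ _ _ _ _ _ _ _ hD hFun hcl hgen f g h
  obtain ⟨i, j, hij, hE⟩ := hC F K k L hD hFun hgen f g h
  refine ⟨i, j, hij, hE, ?_⟩
  intro γ
  obtain ⟨m, hm, c, hc⟩ := hE
  have : CharZero k := charZero_of_injective_algebraMap (algebraMap F k).injective
  have halgF : Algebra.IsAlgebraic F k := IsAlgClosure.isAlgebraic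
  have halg : Algebra.IsAlgebraic ℚ k := Algebra.IsAlgebraic.trans ℚ F k
  obtain ⟨γ', hγ'⟩ := hLPX F K k L (hLDK F K k L hcl hgen) hFun γ
  have h1 : ∀ l, reg γ' (sym (um K L (f l)) (um K L (g l))) =
      regInt (fun θ => γ.ev θ (f l)) (fun θ => γ.ev θ (g l)) := by
    intro l
    have h2 := hRCO.2 K L γ γ' hγ' (sym (f l) (g l))
    rw [mk2, ConstM.mapK_sym] at h2
    rw [← regOf_sym (specStein specBW) γ (f l) (g l), ← reg_eq γ]
    exact h2
  have h3 : (m : ℝ) * (reg γ' (sym (um K L (f i)) (um K L (g i))) -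
      reg γ' (sym (um K L (f j)) (um K L (g j)))) = 0 := by
    rw [← map_sub, ← nsmul_eq_mul, ← map_nsmul, hc]
    exact hRCO.1 k L halg γ' c
  have h4 : (m : ℝ) ≠ 0 := by exact_mod_cast hm.ne'
  have h5 := (mul_eq_zero.1 h3).resolve_left h4
  rw [h1, h1] at h5
  linarith

end MP743d1e.BD
end

section
/-!
# FLX: the involution of `E₁` (MP_743d1e_nt, hive BD)
-/
set_option autoImplicit false

namespace MP743d1e.BD

open scoped BigOperators TensorProduct
open Polynomial IntermediateField MP743d1e.CY MP743d1e.GX MP743d1e.Integ Filter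

namespace FLXM

/-- Every function field of one variable has a place. -/
theorem exists_place {k K : Type} [Field k] [CharZero k] [Field K] [Algebra k K]
    (h : Fun1 k K) : ∃ v : DVal K, GeoF k v := by
  obtain ⟨x, hx, hfin⟩ := h
  have hx0 : x ≠ 0 := by
    rintro rfl
    exact hx isAlgebraic_zero
  obtain ⟨-, v, hv, -⟩ := specFNV k K x hfin (Units.mk0 x hx0) hx
  exact ⟨v, hv⟩

theorem order_sv (κ : Type) [Field κ] : (sv κ).order = 1 := by
  unfold sv
  exact HahnSeries.order_single one_ne_zero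

/-- An arc of a function field. -/
theorem exists_arc (hARC : SpecARC) {k K : Type} [Field k] [CharZero k] [Field K] [Algebra k K]
    [IsAlgClosed k] (h : Fun1 k K) : ∃ (ι : K →+* LaurentSeries k) (ϖ : Kˣ), IsOver k ι ∧
      ι (ϖ : K) = sv k := by
  obtain ⟨v, hv⟩ := exists_place h
  obtain ⟨ϖ, hϖ⟩ := v.surj 1
  obtain ⟨ι, h1, h2, -⟩ := hARC k K h v hv ϖ hϖ
  exact ⟨ι, ϖ, h1, h2⟩

/-- The place of an arc. -/
theorem place_of (hAV : SpecAV) {k K : Type} [Field k] [Field K] [Algebra k K]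
    (h : Fun1 k K) (j : K →+* LaurentSeries k) (hj : IsOver k j) :
    ∃ (v : DVal K) (e : ℤ), 0 < e ∧ GeoF k v ∧ ∀ u : Kˣ, (j (u : K)).order = e * v.ord u := by
  rcases hAV.1 k K k j hj with h0 | h1
  · obtain ⟨x, hx, -⟩ := h
    obtain ⟨c, hc⟩ := hAV.2 k K j hj h0 x
    exact absurd (hc ▸ isAlgebraic_algebraMap c) hx
  · exact h1

end FLXM

open FLXM in
theorem specFLX (hT1 : SpecT1) (hRGD : SpecRGD) (hRRL : SpecRRL) (hDGP : SpecDGP)
    (hFLP : SpecFLP) (hARC : SpecARC) (hAV : SpecAV) (hCAR : SpecCAR) (hCEB : SpecCEB)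
    (hDUQ : SpecDUQ) (hLSD : SpecLSD) : SpecFLX := by
  intro k₀ K₀ k₁ K₁ E₀ E₁ _ _ _ _ _ _ _ _ _ _ _ _ _ _ _ _ _ _ _ _ _ _ _ _ hK fK₀ hE fE₀ fE₁
    hfin hnr t D D₀ hD ξ hξ hDξ
  have hc1 : CharZero k₁ := charZero_of_injective_algebraMap (algebraMap k₀ k₁).injective
  have hc2 : CharZero K₀ := charZero_of_injective_algebraMap (algebraMap k₀ K₀).injective
  have hc3 : CharZero E₀ := charZero_of_injective_algebraMap (algebraMap k₀ E₀).injective
  have hξ₁ : Transcendental k₁ (algebraMap E₀ E₁ ξ) := (hCEB k₀ E₀ k₁ E₁ hE fE₀).1 ξ hξ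
  -- homomorphisms `E₀ → K₁` over `k₀`
  have hover : ∀ ε : E₁ →+* E₁, (∀ c : k₁, ε (algebraMap k₁ E₁ c) = algebraMap k₁ E₁ c) →
      ∀ c : k₀, algebraMap E₁ K₁ (ε (algebraMap E₀ E₁ (algebraMap k₀ E₀ c))) =
        algebraMap k₁ K₁ (algebraMap k₀ k₁ c) := by
    intro ε hε c
    rw [← IsScalarTower.algebraMap_apply k₀ E₀ E₁, IsScalarTower.algebraMap_apply k₀ k₁ E₁, hε,
      ← IsScalarTower.algebraMap_apply k₁ E₁ K₁]
  let incl : E₀ →+* K₁ := (algebraMap E₁ K₁).comp (algebraMap E₀ E₁)
  have hincl : ∀ c : k₀, incl (algebraMap k₀ E₀ c) = algebraMap k₀ K₁ c := by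
    intro c
    rw [IsScalarTower.algebraMap_apply k₀ k₁ K₁]
    exact hover (RingHom.id E₁) (fun _ => rfl) c
  -- regular differentials of `E₁`
  have hreg : ∀ h : E₁, IsRegD k₁ (algebraMap E₀ E₁ ξ) h →
      ∃ c : k₁, algebraMap k₁ K₁ c = algebraMap E₁ K₁ h * D (incl ξ) := by
    intro h hh
    obtain ⟨n, r, c, -, hr, rfl⟩ := hRGD k₀ E₀ k₁ E₁ hE fE₀ ξ hξ h hh
    have h1 : ∀ i, ∃ c' : k₁, algebraMap k₁ K₁ c' = incl (r i) * D (incl ξ) := fun i =>
      (hT1 k₀ K₀ k₁ K₁ E₀ hK fK₀ fE₀ t D D₀ hD incl hincl ξ (r i) (hr i)).1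
    choose c' hc' using h1
    refine ⟨∑ i, c' i * c i, ?_⟩
    rw [map_sum, map_sum, Finset.sum_mul]
    refine Finset.sum_congr rfl fun i _ => ?_
    rw [map_mul, hc' i, map_mul, ← IsScalarTower.algebraMap_apply k₁ E₁ K₁]
    show algebraMap E₁ K₁ (algebraMap E₀ E₁ (r i)) * _ * _ = _
    ring
  have hprop : ∀ h h' : E₁, IsRegD k₁ (algebraMap E₀ E₁ ξ) h →
      IsRegD k₁ (algebraMap E₀ E₁ ξ) h' →
        ∃ a b : k₁, (a ≠ 0 ∨ b ≠ 0) ∧ algebraMap k₁ E₁ a * h + algebraMap k₁ E₁ b * h' = 0 := by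
    intro h h' hh hh'
    obtain ⟨c, hc⟩ := hreg h hh
    obtain ⟨c', hc'⟩ := hreg h' hh'
    by_cases h0 : c = 0
    · refine ⟨1, 0, Or.inl one_ne_zero, ?_⟩
      rw [h0, map_zero] at hc
      rcases mul_eq_zero.1 hc.symm with h1 | h1
      · have h2 : h = 0 := (algebraMap E₁ K₁).injective (by rw [h1, map_zero])
        rw [h2]
        simp
      · exact absurd h1 hDξ
    · refine ⟨c', -c, Or.inr (neg_ne_zero.2 h0), ?_⟩
      apply (algebraMap E₁ K₁).injective
      rw [map_zero, map_add, map_mul, map_mul, ← IsScalarTower.algebraMap_apply k₁ E₁ K₁,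
        ← IsScalarTower.algebraMap_apply k₁ E₁ K₁, map_neg, hc, hc']
      ring
  obtain ⟨hR1, hR2⟩ := hRRL k₁ E₁ fE₁ (algebraMap E₀ E₁ ξ) hξ₁
  -- a regular differential of `E₀`
  have hh₀ : ∃ h₀ : E₀, h₀ ≠ 0 ∧ IsRegD k₀ ξ h₀ := by
    by_contra hno
    push Not at hno
    obtain ⟨τ, hτ, h1⟩ := hR1 (by
      intro h hh
      obtain ⟨n, r, c, -, hr, rfl⟩ := hRGD k₀ E₀ k₁ E₁ hE fE₀ ξ hξ h hh
      refine Finset.sum_eq_zero fun i _ => ?_
      by_cases h2 : r i = 0
      · rw [h2, map_zero, zero_mul]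
      · exact absurd (hr i) (hno _ h2))
    exact hnr τ hτ h1
  obtain ⟨h₀, h₀0, hh₀⟩ := hh₀
  -- the place `A`
  obtain ⟨ι₀, ϖ, hι₀, hι₀ϖ⟩ := exists_arc hARC fK₀
  obtain ⟨ι, hι, -, hιϖ⟩ := hCAR k₀ K₀ k₁ K₁ hK fK₀ ι₀ ϖ hι₀ hι₀ϖ
  have hj : IsOver k₁ (ι.comp (algebraMap E₁ K₁)) := by
    intro c
    rw [RingHom.comp_apply, ← IsScalarTower.algebraMap_apply k₁ E₁ K₁]
    exact hι c
  obtain ⟨A, e, he, hA, hAo⟩ := place_of hAV fE₁ (ι.comp (algebraMap E₁ K₁)) hj
  -- the place `B`
  obtain ⟨ι₁, ϖ', hι₁, hι₁ϖ⟩ := exists_arc hARC fE₀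
  obtain ⟨ι', hι', -, hι'ϖ⟩ := hCAR k₀ E₀ k₁ E₁ hE fE₀ ι₁ ϖ' hι₁ hι₁ϖ
  obtain ⟨B, e', he', hB, hBo⟩ := place_of hAV fE₁ ι' hι'
  have hBϖ : 0 < B.ord (Units.map (algebraMap E₀ E₁ : E₀ →* E₁) ϖ') := by
    have h1 := hBo (Units.map (algebraMap E₀ E₁ : E₀ →* E₁) ϖ')
    have h2 : ι' ((Units.map (algebraMap E₀ E₁ : E₀ →* E₁) ϖ' : E₁ˣ) : E₁) = sv k₁ := hι'ϖ
    rw [h2, order_sv] at h1
    by_contra h3
    have h4 : B.ord (Units.map (algebraMap E₀ E₁ : E₀ →* E₁) ϖ') ≤ 0 := not_lt.1 h3
    nlinarith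
  -- T1 (b)
  have hϖex : ∃ ϖ : K₀, ι (algebraMap K₀ K₁ ϖ) = sv k₁ := ⟨_, hιϖ⟩
  have hAB : A ≠ B := by
    rintro rfl
    have h1 := (hT1 k₀ K₀ k₁ K₁ E₀ hK fK₀ fE₀ t D D₀ hD incl hincl ξ h₀ hh₀).2 ι hι hϖex
      ⟨ϖ', by
        have h2 := hAo (Units.map (algebraMap E₀ E₁ : E₀ →* E₁) ϖ')
        have h3 : (ι.comp (algebraMap E₁ K₁))
            ((Units.map (algebraMap E₀ E₁ : E₀ →* E₁) ϖ' : E₁ˣ) : E₁) = ι (incl (ϖ' : E₀)) := rfl
        rw [h3] at h2
        rw [h2]
        exact (mul_pos he hBϖ).ne'⟩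
    rcases mul_eq_zero.1 h1 with h2 | h2
    · exact h₀0 (incl.injective (by rw [h2, map_zero]))
    · exact hDξ h2
  obtain ⟨τ, hτ, hτ1, hτA, hτB⟩ := hR2 hprop A B hA hB hAB
  obtain ⟨hd1, hd2⟩ := hDGP k₁ E₁ fE₁ τ A B hτ hA hB hτ1 hτA hτB
  have hfτ : FiniteDimensional k₁⟮τ⟯ E₁ := fdx fE₁ hτ
  have hpos : 0 < Module.finrank k₁⟮τ⟯ E₁ := Module.finrank_pos
  have hne1 : ¬ Module.finrank k₁⟮τ⟯ E₁ ≤ 1 := by
    intro h1
    have h2 : Module.finrank k₁⟮τ⟯ E₁ = 1 := by omega
    exact hnr τ hτ (finrank_eq_one_iff_eq_top.1 h2)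
  have hd : Module.finrank k₁⟮τ⟯ E₁ = 2 := by omega
  obtain ⟨ε, hε, hεAB, hεs⟩ := hFLP k₁ E₁ fE₁ τ A B hτ hd hA hB hAB hτ1 hτA hτB
    (fun h => hne1 (hd2 (Or.inr (Or.inl h)))) (fun h => hne1 (hd2 (Or.inr (Or.inr h))))
  refine ⟨ε, hε, ?_, hεs⟩
  -- the second embedding
  let v : E₀ →+* K₁ := (algebraMap E₁ K₁).comp ((ε : E₁ →+* E₁).comp (algebraMap E₀ E₁))
  have hv₁ : ∀ c : k₀, v (algebraMap k₀ E₀ c) = algebraMap k₁ K₁ (algebraMap k₀ k₁ c) :=
    hover (ε : E₁ →+* E₁) hε
  have hv : ∀ c : k₀, v (algebraMap k₀ E₀ c) = algebraMap k₀ K₁ c := by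
    intro c
    rw [IsScalarTower.algebraMap_apply k₀ k₁ K₁]
    exact hv₁ c
  have hDv : D (v ξ) = 0 := by
    have h1 := (hT1 k₀ K₀ k₁ K₁ E₀ hK fK₀ fE₀ t D D₀ hD v hv ξ h₀ hh₀).2 ι hι hϖex
      ⟨ϖ', by
        have h2 := hAo (Units.map (ε : E₁ →* E₁) (Units.map (algebraMap E₀ E₁ : E₀ →* E₁) ϖ'))
        rw [hεAB] at h2
        have h3 : (ι.comp (algebraMap E₁ K₁)) ((Units.map (ε : E₁ →* E₁)
            (Units.map (algebraMap E₀ E₁ : E₀ →* E₁) ϖ') : E₁ˣ) : E₁) = ι (v (ϖ' : E₀)) := rfl
        rw [h3] at h2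
        rw [h2]
        exact (mul_pos he hBϖ).ne'⟩
    rcases mul_eq_zero.1 h1 with h2 | h2
    · exact absurd (v.injective (by rw [h2, map_zero])) h₀0
    · exact h2
  have hfξ : FiniteDimensional k₀⟮ξ⟯ E₀ := fdx fE₀ hξ
  have halg : Algebra.IsAlgebraic k₀⟮ξ⟯ E₀ := inferInstance
  intro y
  exact hDUQ.2.2 k₀ E₀ K₁ v (fun x => D (v x)) (fun _ => 0)
    ⟨fun a b => by simp only [map_add], fun a b => by
      simp only [map_mul, Derivation.leibniz, smul_eq_mul]⟩
    ⟨fun a b => by simp, fun a b => by simp⟩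
    (fun c => by
      show D (v (algebraMap k₀ E₀ c)) = 0
      rw [hv₁, hD.onk, hD.on0, map_zero]) ξ halg hDv y

end MP743d1e.BD
end

section
/-!
# LOC: local trace criterion for regularity
-/
set_option autoImplicit false

namespace MP743d1e.BD

open scoped BigOperators
open Polynomial IntermediateField MP743d1e.CY MP743d1e.GX MP743d1e.Integ Filter

namespace LOCM

variable {K : Type} [Field K] {v : DVal K}

theorem ge_unit {n : ℤ} {u : Kˣ} : GE v n (u : K) ↔ n ≤ v.ord u := by
  constructor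
  · rintro (h | ⟨w, hw, h⟩)
    · exact absurd h u.ne_zero
    · rwa [Units.ext hw] at h
  · intro h
    exact Or.inr ⟨u, rfl, h⟩

theorem ge_mul {m n : ℤ} {a b : K} (ha : GE v m a) (hb : GE v n b) : GE v (m + n) (a * b) := by
  rcases ha with rfl | ⟨u, rfl, hu⟩
  · left; ring
  rcases hb with rfl | ⟨w, rfl, hw⟩
  · left; ring
  refine Or.inr ⟨u * w, by simp, ?_⟩
  rw [v.ord_mul]; omega

theorem nn_of_ge {n : ℤ} (h : 0 ≤ n) {a : K} (ha : GE v n a) : NN v a := by
  rcases ha with h0 | ⟨u, hu, hu'⟩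
  · exact Or.inl h0
  · exact Or.inr ⟨u, hu, le_trans h hu'⟩

theorem ge_of_nn {a : K} (ha : NN v a) : GE v 0 a := ha

/-- The order of the derivative. -/
theorem order_dS {k : Type} [Field k] [CharZero k] (L : LSF k) (a : LaurentSeries k) (ha : a ≠ 0)
    (hpos : 0 < a.order) : dS a ≠ 0 ∧ (dS a).order = a.order - 1 := by
  have hsv : sv k ≠ 0 := by
    unfold sv; exact HahnSeries.single_ne_zero one_ne_zero
  have hsvo : (sv k).order = 1 := HahnSeries.order_single one_ne_zero
  obtain ⟨h1, h2⟩ := L.d_log _ ha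
  obtain ⟨b, hb⟩ : ∃ b, b = sv k * (dS a / a) := ⟨_, rfl⟩
  rw [← hb] at h1 h2
  have hne : b.coeff 0 ≠ 0 := by
    rw [h2]; exact Int.cast_ne_zero.2 hpos.ne'
  have hb0 : b ≠ 0 := by
    intro h0
    rw [h0] at hne
    exact hne rfl
  have hbo : b.order = 0 := by
    apply le_antisymm
    · exact HahnSeries.order_le_of_coeff_ne_zero hne
    · exact (L.o_iff b hb0).1 h1
  have hd0 : dS a ≠ 0 := by
    intro h0
    apply hb0
    rw [hb, h0]
    simp
  refine ⟨hd0, ?_⟩
  have e1 : sv k * dS a = b * a := by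
    rw [hb]; field_simp
  have e2 := congrArg HahnSeries.order e1
  rw [HahnSeries.order_mul hsv hd0, HahnSeries.order_mul hb0 ha, hsvo, hbo] at e2
  omega

/-- The place of an arc with a uniformizer. -/
theorem place {k K : Type} [Field k] [Field K] [Algebra k K] (hAV : SpecAV)
    (ι : K →+* LaurentSeries k) (hι : IsOver k ι) (hunr : IsUnr ι) :
    ∃ v : DVal K, GeoF k v ∧ ∀ u : Kˣ, (ι (u : K)).order = v.ord u := by
  obtain ⟨ϖ, hϖ⟩ := hunr
  have hsv : sv k ≠ 0 := by
    unfold sv; exact HahnSeries.single_ne_zero one_ne_zero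
  have hsvo : (sv k).order = 1 := HahnSeries.order_single one_ne_zero
  have hϖ0 : ϖ ≠ 0 := by
    rintro rfl
    rw [map_zero] at hϖ
    exact hsv hϖ.symm
  rcases hAV.1 k K k ι hι with h0 | ⟨v, e, he, hg, ho⟩
  · have := h0 (Units.mk0 ϖ hϖ0)
    rw [Units.val_mk0, hϖ, hsvo] at this
    exact absurd this one_ne_zero
  · have h1 := ho (Units.mk0 ϖ hϖ0)
    rw [Units.val_mk0, hϖ, hsvo] at h1
    have he1 : e = 1 := Int.eq_one_of_dvd_one he.le ⟨_, h1⟩
    refine ⟨v, hg, fun u => ?_⟩
    rw [ho u, he1, one_mul]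

end LOCM

open LOCM

theorem specLOC (hARC : SpecARC) (hAV : SpecAV) (hCRT : SpecCRT) (hIDT : SpecIDT)
    (hLSD : SpecLSD) : SpecLOC := by
  classical
  intro k K _ _ _ _ _ hF x c h hx hyp ι hι hunr hM
  have L := hLSD k
  have hxc : algebraMap k K c ≠ x := by
    rintro rfl
    exact hx (isAlgebraic_algebraMap c)
  have ht0 : x - algebraMap k K c ≠ 0 := sub_ne_zero.2 hxc.symm
  obtain ⟨T, hT⟩ : ∃ T : Kˣ, (T : K) = x - algebraMap k K c := ⟨Units.mk0 _ ht0, rfl⟩
  obtain ⟨v, hvg, hvo⟩ := place hAV ι hι hunr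
  have hxt : ι x = ι (T : K) + HahnSeries.C c := by
    have h1 : x = (T : K) + algebraMap k K c := by rw [hT]; ring
    have h2 := congrArg ι h1
    rw [map_add, hι c] at h2
    exact h2
  have hdx : dS (ι x) = dS (ι (T : K)) := by
    rw [hxt, L.d_along.1, L.d_C, add_zero]
  have hιT : ι (T : K) ≠ 0 := (map_ne_zero ι).2 T.ne_zero
  have hTpos : 0 < v.ord T := by
    rw [← hvo T]
    exact (L.m_iff _ hιT).1 (by rwa [hT])
  have hdo := order_dS L (ι (T : K)) hιT (by rw [hvo T]; exact hTpos)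
  rw [hvo T] at hdo
  by_contra hcon
  rw [hdx] at hcon
  have hh0 : h ≠ 0 := by
    rintro rfl
    apply hcon
    intro n hn
    simp
  obtain ⟨H, hH⟩ : ∃ H : Kˣ, (H : K) = h := ⟨Units.mk0 _ hh0, rfl⟩
  have hιh : ι h ≠ 0 := (map_ne_zero ι).2 hh0
  have hHv : v.ord H ≤ - v.ord T := by
    by_contra hlt
    push Not at hlt
    apply hcon
    rw [L.o_iff _ (mul_ne_zero hιh hdo.1), HahnSeries.order_mul hιh hdo.1, hdo.2]
    have h1 : (ι h).order = v.ord H := by rw [← hH]; exact hvo H
    rw [h1]; omega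
  have hTt : Transcendental k (T : K) := by
    intro h1
    apply hx
    have h2 : x = (T : K) + algebraMap k K c := by rw [hT]; ring
    rw [h2]
    exact h1.add (isAlgebraic_algebraMap c)
  have hfin : Set.Finite {w : DVal K | GeoF k w ∧ 0 < w.ord T} := by
    obtain ⟨x0, -, hx0⟩ := hF
    exact (specFNV k K x0 hx0 T hTt).1
  obtain ⟨S, hS⟩ : ∃ S : Finset (DVal K), S = hfin.toFinset.erase v := ⟨_, rfl⟩
  have hvS : v ∉ S := by rw [hS]; exact Finset.notMem_erase v _
  have hmem : ∀ w : DVal K, GeoF k w → Pos w (x - algebraMap k K c) → w = v ∨ w ∈ S := by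
    intro w hw hp
    by_cases h1 : w = v
    · exact Or.inl h1
    · right
      rw [hS, Finset.mem_erase, Set.Finite.mem_toFinset]
      refine ⟨h1, hw, ?_⟩
      rw [← hT, pos_unit] at hp
      omega
  obtain ⟨N, hN⟩ : ∃ N : ℤ, N = v.ord T + ∑ w ∈ S, (|w.ord T| + |w.ord H|) + 1 := ⟨_, rfl⟩
  have hsum : 0 ≤ ∑ w ∈ S, (|w.ord T| + |w.ord H|) :=
    Finset.sum_nonneg fun w _ => add_nonneg (abs_nonneg _) (abs_nonneg _)
  have hNw : ∀ w ∈ S, |w.ord T| + |w.ord H| ≤ N := by
    intro w hw
    have h1 := Finset.single_le_sum (f := fun w : DVal K => |w.ord T| + |w.ord H|)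
      (fun w _ => add_nonneg (abs_nonneg _) (abs_nonneg _)) hw
    omega
  obtain ⟨u, hu1, hu2⟩ := hCRT K v S N hvS
  have hu0 : u ≠ 0 := by
    rintro rfl
    rw [zero_sub] at hu1
    have h1 : GE v N ((-1 : Kˣ) : K) := by simpa using hu1
    rw [ge_unit, v.ord_neg_one] at h1
    omega
  obtain ⟨W, hW⟩ : ∃ W : Kˣ, (W : K) = u := ⟨Units.mk0 _ hu0, rfl⟩
  have hWv : v.ord W = 0 := by
    apply v.ord_eq_zero_of_isOne
    apply isOne_of_pos
    rw [hW]
    rcases hu1 with h1 | ⟨w, hw, h1⟩
    · exact Or.inl h1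
    · exact Or.inr ⟨w, hw, by omega⟩
  have hWw : ∀ w ∈ S, N ≤ w.ord W := by
    intro w hw
    have := hu2 w hw
    rwa [← hW, ge_unit] at this
  -- the quotient
  have hq : RC k x c (((W * T⁻¹ * H⁻¹ : Kˣ)) : K) := by
    intro w hw hp
    rw [nn_unit, w.ord_mul, w.ord_mul, w.ord_inv, w.ord_inv]
    rcases hmem w hw hp with rfl | h1
    · omega
    · have h2 := hWw w h1
      have h3 := hNw w h1
      have h4 := le_abs_self (w.ord T)
      have h5 := le_abs_self (w.ord H)
      omega
  have hreg := hyp _ hq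
  have e1 : h * (((W * T⁻¹ * H⁻¹ : Kˣ)) : K) = u / (x - algebraMap k K c) := by
    rw [← hT, ← hH, ← hW]
    push_cast
    field_simp
  -- the trace
  obtain ⟨t', ht'⟩ : ∃ t' : k⟮x⟯, (t' : K) = x - algebraMap k K c :=
    ⟨⟨x - algebraMap k K c, sub_mem (mem_adjoin_simple_self k x) (IntermediateField.algebraMap_mem _ c)⟩, rfl⟩
  have e2 : u / (x - algebraMap k K c) = t'⁻¹ • u := by
    rw [Algebra.smul_def, map_inv₀, div_eq_inv_mul]
    congr 2
    exact ht'.symm
  have e3 : algebraMap k⟮x⟯ K (Algebra.trace k⟮x⟯ K (u / (x - algebraMap k K c))) =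
      (algebraMap k⟮x⟯ K (Algebra.trace k⟮x⟯ K u)) / (x - algebraMap k K c) := by
    rw [e2, map_smul, smul_eq_mul, map_mul, map_inv₀, div_eq_inv_mul]
    congr 2
  rw [e1, e3] at hreg
  refine hIDT k K hF x c u hx ?_ ?_ ?_ hreg
  · intro w hw hp
    rw [← hW, nn_unit]
    rcases hmem w hw hp with rfl | h1
    · omega
    · have h2 := hWw w h1
      omega
  · intro w hw hp
    have e4 : (u ^ 2 - u) / (x - algebraMap k K c) =
        (W : K) * (u - 1) * ((T⁻¹ : Kˣ) : K) := by
      rw [← hT, hW]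
      push_cast
      field_simp
    rw [e4]
    rcases hmem w hw hp with rfl | h1
    · have h2 : GE w 0 (W : K) := ge_unit.2 (by omega)
      have h3 : GE w (-(w.ord T)) ((T⁻¹ : Kˣ) : K) := ge_unit.2 (by rw [w.ord_inv])
      exact nn_of_ge (by omega) (ge_mul (ge_mul h2 hu1) h3)
    · have h2 := hWw w h1
      have h3 : GE w (w.ord W) (W : K) := ge_unit.2 le_rfl
      have h4 : NN w (u - 1) := by
        refine nn_sub ?_ nn_one
        rw [← hW, nn_unit]
        omega
      have h5 : GE w (-(w.ord T)) ((T⁻¹ : Kˣ) : K) := ge_unit.2 (by rw [w.ord_inv])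
      have h6 := hNw w h1
      have h7 := le_abs_self (w.ord T)
      have h8 := abs_nonneg (w.ord H)
      exact nn_of_ge (by omega) (ge_mul (ge_mul h3 (ge_of_nn h4)) h5)
  · intro hrc
    have hpv : Pos v (x - algebraMap k K c) := by
      rw [← hT, pos_unit]; omega
    have h1 := hrc v hvg hpv
    have e5 : u / (x - algebraMap k K c) = ((W * T⁻¹ : Kˣ) : K) := by
      rw [← hT, ← hW]
      push_cast
      rw [div_eq_mul_inv]
    rw [e5, nn_unit, v.ord_mul, v.ord_inv] at h1
    omega

end MP743d1e.BD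
end

section
/-!
# GRG: the differential `G dz` is regular
-/
set_option autoImplicit false

namespace MP743d1e.BD

open scoped BigOperators
open Polynomial IntermediateField MP743d1e.CY MP743d1e.GX MP743d1e.Integ Filter

namespace GRGM

/-- Division by the variable. -/
theorem o_of_m {κ : Type} [Field κ] (L : LSF κ) {X Y : LaurentSeries κ} (h : sv κ * Y = X)
    (hX : IsM X) : IsO Y := by
  by_cases hY : Y = 0
  · intro n _
    rw [hY]
    rfl
  · have hsv : sv κ ≠ 0 := by
      unfold sv; exact HahnSeries.single_ne_zero one_ne_zero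
    have hsvo : (sv κ).order = 1 := HahnSeries.order_single one_ne_zero
    have hX0 : X ≠ 0 := by
      rw [← h]; exact mul_ne_zero hsv hY
    have h1 := (L.m_iff X hX0).1 hX
    rw [← h, HahnSeries.order_mul hsv hY, hsvo] at h1
    exact (L.o_iff Y hY).2 (by omega)

/-- The leading coefficient at an arc. -/
noncomputable def lc {k K : Type} [Field k] [Field K] (ι : K →+* LaurentSeries k) : Kˣ →* kˣ where
  toFun u := Units.mk0 (ι (u : K)).leadingCoeff
    (HahnSeries.leadingCoeff_ne_zero.2 ((map_ne_zero ι).2 u.ne_zero))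
  map_one' := by
    apply Units.ext
    simp
  map_mul' := by
    intro a b
    apply Units.ext
    simp [HahnSeries.leadingCoeff_mul]

theorem lc_neg_one {k K : Type} [Field k] [Field K] (ι : K →+* LaurentSeries k) :
    lc ι (-1) = -1 := by
  apply Units.ext
  show (ι ((-1 : Kˣ) : K)).leadingCoeff = ((-1 : kˣ) : k)
  rw [Units.val_neg, Units.val_one, map_neg, map_one, HahnSeries.leadingCoeff_neg,
    HahnSeries.leadingCoeff_one, Units.val_neg, Units.val_one]

theorem lc_isOne {k K : Type} [Field k] [Field K] (ι : K →+* LaurentSeries k) (v : DVal K)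
    (hvo : ∀ u : Kˣ, (ι (u : K)).order = v.ord u) (y : Kˣ) (hy : v.IsOne y) : lc ι y = 1 := by
  have h0 := v.ord_eq_zero_of_isOne hy
  rcases hy with rfl | ⟨u, hu, h1⟩
  · exact map_one _
  · apply Units.ext
    show (ι (y : K)).leadingCoeff = 1
    have h2 : ι (y : K) = 1 + ι (u : K) := by
      have h3 : (y : K) = 1 + u := by rw [← hu]; ring
      rw [h3, map_add, map_one]
    rw [HahnSeries.leadingCoeff_eq, hvo y, h0, h2, HahnSeries.coeff_add, HahnSeries.coeff_one,
      if_pos rfl, HahnSeries.coeff_eq_zero_of_lt_order (by rw [hvo u]; omega), add_zero]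

/-- The logarithmic derivative. -/
noncomputable def ld {k : Type} [Field k] (δ : Derivation ℤ k k) : kˣ →* Multiplicative k where
  toFun u := Multiplicative.ofAdd (δ (u : k) / (u : k))
  map_one' := by
    simp
  map_mul' := by
    intro a b
    rw [← ofAdd_add]
    congr 1
    have ha := a.ne_zero
    have hb := b.ne_zero
    rw [Units.val_mul, Derivation.leibniz, smul_eq_mul, smul_eq_mul]
    field_simp
    ring

theorem ld_neg_one {k : Type} [Field k] [CharZero k] (δ : Derivation ℤ k k) : ld δ (-1) = 1 := by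
  show Multiplicative.ofAdd (δ ((-1 : kˣ) : k) / ((-1 : kˣ) : k)) = 1
  have : δ ((-1 : kˣ) : k) = 0 := by
    rw [Units.val_neg, Units.val_one, map_neg, Derivation.map_one_eq_zero, neg_zero]
  rw [this, zero_div]
  rfl

end GRGM

open GRGM LOCM

theorem specGRG (hARD : SpecARD) (hCHD : SpecCHD) (hAV : SpecAV) (hCEB : SpecCEB)
    (hLSD : SpecLSD) : SpecGRG := by
  intro k₀ K₀ k₁ K₁ _ _ _ _ _ _ _ _ _ _ _ _ hC hF z hz t D D₀ E E₀ hDt hDz f g htor ι hι hunr
  have hch : CharZero k₁ := charZero_of_injective_algebraMap (algebraMap k₀ k₁).injective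
  have L := hLSD k₁
  obtain ⟨hceb1, -, hceb3, -⟩ := hCEB k₀ K₀ k₁ K₁ hC hF
  obtain ⟨v, hvg, hvo⟩ := place hAV ι hι hunr
  obtain ⟨ϖ, hϖ⟩ := hunr
  have hD := (hARD k₀ K₀ k₁ K₁ hC hF t D D₀ hDt ι hι).1 ϖ hϖ
  have hE : ∀ w : K₁, dS (ι w) = ι (E w) * dS (ι (algebraMap K₀ K₁ z)) := by
    intro w
    refine (hCHD k₁ K₁ hceb3 (algebraMap K₀ K₁ z) w 0 E (hceb1 z hz) hDz.onk ?_).1 ι hι
    rw [hDz.onK, hDz.one, map_one]
  obtain ⟨F, hF'⟩ : ∃ F, F = ι (f : K₁) := ⟨_, rfl⟩
  obtain ⟨H, hH'⟩ : ∃ H, H = ι (g : K₁) := ⟨_, rfl⟩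
  have hF0 : F ≠ 0 := by rw [hF']; exact (map_ne_zero ι).2 f.ne_zero
  have hH0 : H ≠ 0 := by rw [hH']; exact (map_ne_zero ι).2 g.ne_zero
  have hsv : sv k₁ ≠ 0 := by
    unfold sv; exact HahnSeries.single_ne_zero one_ne_zero
  -- the formula
  have key : sv k₁ * (ι (gD D E (f : K₁) (g : K₁)) * dS (ι (algebraMap K₀ K₁ z))) =
      (sv k₁ * (dS F / F)) * (cS D₀ H / H) - (cS D₀ F / F) * (sv k₁ * (dS H / H)) := by
    have e1 : ι (gD D E (f : K₁) (g : K₁)) =
        ι (E (f : K₁)) / F * (ι (D (g : K₁)) / H) - ι (D (f : K₁)) / F * (ι (E (g : K₁)) / H) := by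
      unfold gD
      rw [map_sub, map_mul, map_mul, map_div₀, map_div₀, map_div₀, map_div₀, hF', hH']
    have e2 := hE (f : K₁)
    have e3 := hE (g : K₁)
    have e4 := hD (f : K₁)
    have e5 := hD (g : K₁)
    rw [← hF'] at e2 e4
    rw [← hH'] at e3 e5
    rw [e1, e4, e5, e2, e3]
    field_simp
    ring
  obtain ⟨hA1, hA2⟩ := L.d_log F hF0
  obtain ⟨hC1, hC2⟩ := L.d_log H hH0
  obtain ⟨hB1, hB2⟩ := L.c_log D₀ H hH0
  obtain ⟨hG1, hG2⟩ := L.c_log D₀ F hF0
  refine o_of_m L key ?_
  have hp1 := L.o_mul _ _ hA1 hB1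
  have hp2 := L.o_mul _ _ hG1 hC1
  -- the torsion of the tame symbol
  obtain ⟨N, hN, htN⟩ := htor v hvg
  have h1 : v.IsOne ((v.tameUnit f g) ^ N) := by
    rw [tame_sym, ← ofMul_pow, ← QuotientGroup.mk_pow] at htN
    rw [← DVal.mem_U1, ← QuotientGroup.eq_one_iff]
    exact htN
  have h3 : (ld D₀ (lc ι (v.tameUnit f g))) ^ N = 1 := by
    rw [← map_pow, ← map_pow, lc_isOne ι v hvo _ h1, map_one]
  have h4 : ld D₀ (lc ι (v.tameUnit f g)) =
      (ld D₀ (lc ι f)) ^ (v.ord g) * (ld D₀ (lc ι g)) ^ (-(v.ord f)) := by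
    unfold DVal.tameUnit
    rw [map_mul, map_mul, map_mul, map_mul, map_zpow, map_zpow, map_zpow, map_zpow, map_zpow,
      map_zpow, lc_neg_one, ld_neg_one, one_zpow, one_mul]
  have hNk : (N : k₁) ≠ 0 := Nat.cast_ne_zero.2 hN.ne'
  have h5 : (v.ord g : k₁) * (D₀ (F.coeff F.order) / F.coeff F.order) =
      (v.ord f : k₁) * (D₀ (H.coeff H.order) / H.coeff H.order) := by
    rw [h4] at h3
    have h6 := congrArg Multiplicative.toAdd h3
    rw [toAdd_pow, toAdd_mul, toAdd_zpow, toAdd_zpow, toAdd_one, nsmul_eq_mul, zsmul_eq_mul,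
      zsmul_eq_mul, mul_eq_zero] at h6
    have h7 := h6.resolve_left hNk
    have e1 : Multiplicative.toAdd (ld D₀ (lc ι f)) = D₀ (F.coeff F.order) / F.coeff F.order := by
      rw [← HahnSeries.leadingCoeff_eq, hF']
      rfl
    have e2 : Multiplicative.toAdd (ld D₀ (lc ι g)) = D₀ (H.coeff H.order) / H.coeff H.order := by
      rw [← HahnSeries.leadingCoeff_eq, hH']
      rfl
    rw [e1, e2] at h7
    push_cast at h7
    linear_combination h7
  have hFo : F.order = v.ord f := by rw [hF']; exact hvo f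
  have hHo : H.order = v.ord g := by rw [hH']; exact hvo g
  intro n hn
  rcases lt_or_eq_of_le hn with hn | hn
  · rw [HahnSeries.coeff_sub, hp1 n hn, hp2 n hn, sub_zero]
  · rw [hn, HahnSeries.coeff_sub, L.coeff_mul _ _ hA1 hB1, L.coeff_mul _ _ hG1 hC1, hA2, hB2, hG2,
      hC2, hFo, hHo]
    rw [hFo, hHo] at h5
    linear_combination -h5

end MP743d1e.BD
end

section
/-!
# Theorem BD: module IDT (the trace of an element that is idempotent modulo `x - c`)

Proof used here: a place `v` with `v (x - c) > 0` and `v (u - 1) > 0`; a valuation ring `W` of the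
algebraic closure of `K` above it; every conjugate of `u` over `k⟮x⟯` is `0` or `1` modulo the
maximal ideal of `W` and the conjugate `u` is `1`; so the trace of `u` is a positive integer modulo
the maximal ideal.
-/
set_option autoImplicit false

namespace MP743d1e.BD

open scoped BigOperators
open Polynomial IntermediateField MP743d1e.CY MP743d1e.GX MP743d1e.Integ Filter

namespace IDTM

/-- A valuation of the algebraic closure above a place. -/
theorem exists_val {K : Type} [Field K] (v : DVal K) (L : Type) [Field L] [Algebra K L] :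
    ∃ W : ValuationSubring L, (∀ f : K, NN v f → W.valuation (algebraMap K L f) ≤ 1) ∧
      ∀ f : K, Pos v f → W.valuation (algebraMap K L f) < 1 := by
  obtain ⟨W, h, hW⟩ := IsLocalRing.exists_factor_valuationRing
    ((algebraMap K L).comp (FNVM.vsub v).subtype)
  refine ⟨W, ?_, ?_⟩
  · intro f hf
    rw [ValuationSubring.valuation_le_one_iff]
    exact h ⟨f, hf⟩
  · intro f hf
    have hnn : NN v f := by
      rcases hf with hf | ⟨u, hu, h1⟩
      · exact Or.inl hf
      · exact Or.inr ⟨u, hu, by omega⟩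
    have hm : algebraMap K L f ∈ W := h ⟨f, hnn⟩
    by_contra hlt
    have hle : W.valuation (algebraMap K L f) ≤ 1 := by
      rw [ValuationSubring.valuation_le_one_iff]; exact hm
    have h1 : W.valuation (algebraMap K L f) = 1 := le_antisymm hle (not_lt.1 hlt)
    have hu : IsUnit (⟨algebraMap K L f, hm⟩ : W) :=
      (ValuationSubring.valuation_eq_one_iff W _).2 h1
    have hu2 : IsUnit (⟨f, hnn⟩ : FNVM.vsub v) := by
      apply hW.map_nonunit
      exact hu
    obtain ⟨g, hg⟩ := hu2.exists_right_inv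
    have hg1 : f * (g : K) = 1 := congrArg Subtype.val hg
    have hp : Pos v (f * (g : K)) := pos_mul_nn hf g.2
    rw [hg1] at hp
    have := (pos_unit (v := v) (u := 1)).1 (by simpa using hp)
    rw [v.ord_one] at this
    omega

end IDTM

open IDTM in
theorem specIDT (hINC : SpecINC) : SpecIDT := by
  intro k K _ _ _ _ _ hK x c u hx hu hy hnu hreg
  have : CharZero K := charZero_of_injective_algebraMap (algebraMap k K).injective
  set y : K := (u ^ 2 - u) / (x - algebraMap k K c) with hydef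
  have hxc : x - algebraMap k K c ≠ 0 := by
    intro h
    apply hx
    rw [sub_eq_zero.1 h]
    exact isAlgebraic_algebraMap c
  -- the place
  unfold RC at hnu
  push Not at hnu
  obtain ⟨v, hg, hpos, hnn⟩ := hnu
  have hnnx : NN v x := by
    have h1 : NN v (x - algebraMap k K c) := by
      rcases hpos with h | ⟨w, hw, h1⟩
      · exact Or.inl h
      · exact Or.inr ⟨w, hw, by omega⟩
    have h2 := nn_add h1 (FNVM.nn_const hg c)
    rwa [sub_add_cancel] at h2
  have hu0 : u ≠ 0 := by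
    rintro rfl
    exact hnn (Or.inl (by rw [zero_div]))
  have hpu : Pos v (u - 1) := by
    by_cases h1 : u - 1 = 0
    · exact Or.inl h1
    · refine Or.inr ⟨Units.mk0 _ h1, rfl, ?_⟩
      obtain ⟨e, he, he1⟩ : ∃ e : Kˣ, (e : K) = x - algebraMap k K c ∧ 1 ≤ v.ord e := by
        rcases hpos with h | h
        · exact absurd h hxc
        · exact h
      have h2 : v.ord (Units.mk0 u hu0) - v.ord e < 0 := by
        by_contra h3
        apply hnn
        refine Or.inr ⟨Units.mk0 u hu0 * e⁻¹, ?_, ?_⟩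
        · rw [Units.val_mul, Units.val_inv_eq_inv_val, he, Units.val_mk0, div_eq_mul_inv]
        · rw [v.ord_mul, v.ord_inv]; omega
      have h4 : NN v y := hy v hg hpos
      have h5 : y = ((Units.mk0 u hu0 * Units.mk0 _ h1 * e⁻¹ : Kˣ) : K) := by
        rw [hydef, Units.val_mul, Units.val_mul, Units.val_inv_eq_inv_val, he, Units.val_mk0,
          Units.val_mk0, div_eq_mul_inv]
        ring
      rw [h5, nn_unit, v.ord_mul, v.ord_mul, v.ord_inv] at h4
      omega
  -- the valuation of the algebraic closure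
  obtain ⟨W, hW1, hW2⟩ := exists_val v (AlgebraicClosure K)
  set w := W.valuation with hw
  have hone : ∀ a : k, a ≠ 0 →
      w (algebraMap K (AlgebraicClosure K) (algebraMap k K a)) = 1 := by
    intro a ha
    have h1 := hW1 _ (FNVM.nn_const hg a)
    have h2 := hW1 _ (FNVM.nn_const hg a⁻¹)
    rw [map_inv₀, map_inv₀, map_inv₀] at h2
    refine le_antisymm h1 ?_
    have h0 : w (algebraMap K (AlgebraicClosure K) (algebraMap k K a)) ≠ 0 := by
      rw [Ne, map_eq_zero, map_eq_zero, map_eq_zero]; exact ha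
    exact (inv_le_one₀ (zero_lt_iff.2 h0)).1 h2
  have hev : ∀ p : k[X], w (algebraMap K (AlgebraicClosure K) (aeval x p)) ≤ 1 := by
    intro p
    apply hW1
    exact FNVM.nn_adjoin hg hnnx ⟨aeval x p, by
      rw [Algebra.adjoin_singleton_eq_range_aeval]; exact ⟨p, rfl⟩⟩
  have hxw : w (algebraMap K (AlgebraicClosure K) (x - algebraMap k K c)) < 1 := hW2 _ hpos
  have hq1 : ∀ q : k[X], q.eval c ≠ 0 →
      w (algebraMap K (AlgebraicClosure K) (aeval x q)) = 1 := by
    intro q hq
    obtain ⟨r, hr⟩ := (X_sub_C_dvd_sub_C_eval (p := q) (a := c))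
    have h1 : aeval x q = algebraMap k K (q.eval c) + (x - algebraMap k K c) * aeval x r := by
      have := congrArg (aeval x) hr
      simp only [map_sub, map_mul, aeval_X, aeval_C] at this
      rw [← this]; ring
    rw [h1, map_add]
    have h2 : w (algebraMap K (AlgebraicClosure K) ((x - algebraMap k K c) * aeval x r)) < 1 := by
      rw [map_mul, map_mul]
      exact mul_lt_one_of_lt_of_le hxw (hev r)
    rw [Valuation.map_add_eq_of_lt_left w (by rw [hone _ hq]; exact h2)]
    exact hone _ hq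
  -- conjugates
  have : FiniteDimensional k⟮x⟯ K := fdx hK hx
  have hsx : ∀ (σ : K →ₐ[k⟮x⟯] AlgebraicClosure K) (a : K), a ∈ k⟮x⟯ →
      σ a = algebraMap K (AlgebraicClosure K) a := by
    intro σ a ha
    have h1 := σ.commutes ⟨a, ha⟩
    rw [IsScalarTower.algebraMap_apply k⟮x⟯ K (AlgebraicClosure K)] at h1
    exact h1
  have hsub : ∀ a : K, a ∈ Algebra.adjoin k ({x} : Set K) → a ∈ k⟮x⟯ := by
    intro a ha
    exact (IntermediateField.algebra_adjoin_le_adjoin k {x}) ha
  have hint : ∀ (σ : K →ₐ[k⟮x⟯] AlgebraicClosure K) (b : K),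
      IsIntegral (Algebra.adjoin k ({x} : Set K)) b → w (σ b) ≤ 1 := by
    intro σ b hb
    obtain ⟨p, hp, hpb⟩ := hb
    have hj : ∀ a : Algebra.adjoin k ({x} : Set K),
        algebraMap K (AlgebraicClosure K) (a : K) ∈ W.toSubring := by
      intro a
      exact (ValuationSubring.valuation_le_one_iff W _).1 (hW1 _ (FNVM.nn_adjoin hg hnnx a))
    let j : Algebra.adjoin k ({x} : Set K) →+* W :=
      ((algebraMap K (AlgebraicClosure K)).comp
        (algebraMap (Algebra.adjoin k ({x} : Set K)) K)).codRestrict W.toSubring hj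
    have h1 : IsIntegral W (σ b) := by
      refine ⟨p.map j, hp.map j, ?_⟩
      rw [eval₂_map]
      have h2 : (algebraMap W (AlgebraicClosure K)).comp j =
          (σ : K →+* AlgebraicClosure K).comp (algebraMap (Algebra.adjoin k ({x} : Set K)) K) := by
        ext a
        exact (hsx σ _ (hsub _ a.2)).symm
      rw [h2, show σ b = (σ : K →+* AlgebraicClosure K) b from rfl, ← hom_eval₂, hpb, map_zero]
    obtain ⟨z, hz⟩ := IsIntegrallyClosed.isIntegral_iff.mp h1
    rw [← hz]
    exact (ValuationSubring.valuation_le_one_iff W _).2 z.2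
  have hsRC : ∀ (σ : K →ₐ[k⟮x⟯] AlgebraicClosure K) (b : K), RC k x c b → w (σ b) ≤ 1 := by
    intro σ b hb
    obtain ⟨q, hq, -, hqi⟩ := (hINC k K hK x hx).2 b c hb
    have h1 := hint σ _ hqi
    have h2 : aeval x q ∈ k⟮x⟯ := hsub _ (by
      rw [Algebra.adjoin_singleton_eq_range_aeval]; exact ⟨q, rfl⟩)
    rw [map_mul, map_mul, hsx σ _ h2, hq1 q hq, one_mul] at h1
    exact h1
  have hxmem : x - algebraMap k K c ∈ k⟮x⟯ :=
    sub_mem (mem_adjoin_simple_self k x) (IntermediateField.algebraMap_mem _ c)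
  have hdich : ∀ σ : K →ₐ[k⟮x⟯] AlgebraicClosure K, ∃ n : ℕ,
      w (σ u - (n : AlgebraicClosure K)) < 1 ∧
      (σ = IsScalarTower.toAlgHom k⟮x⟯ K (AlgebraicClosure K) → 1 ≤ n) := by
    intro σ
    by_cases hσ : σ = IsScalarTower.toAlgHom k⟮x⟯ K (AlgebraicClosure K)
    · refine ⟨1, ?_, fun _ => le_rfl⟩
      have h1 := hW2 _ hpu
      rw [hσ, Nat.cast_one]
      rw [map_sub, map_one] at h1
      exact h1
    · have h1 : σ u * (σ u - 1) = σ y * algebraMap K (AlgebraicClosure K) (x - algebraMap k K c) := by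
        rw [← hsx σ _ hxmem, ← map_mul, hydef, div_mul_cancel₀ _ hxc, map_sub, map_pow]
        ring
      have h2 : w (σ u) * w (σ u - 1) < 1 := by
        rw [← map_mul, h1, map_mul, mul_comm]
        exact mul_lt_one_of_lt_of_le hxw (hsRC σ y hy)
      by_cases h3 : w (σ u) < 1
      · exact ⟨0, by rw [Nat.cast_zero, sub_zero]; exact h3, fun h => absurd h hσ⟩
      · refine ⟨1, ?_, fun h => absurd h hσ⟩
        rw [Nat.cast_one]
        by_contra h4
        exact absurd h2 (not_lt.2 (one_le_mul (not_lt.1 h3) (not_lt.1 h4)))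
  choose n hn hn1 using hdich
  have hsum : w (∑ σ : K →ₐ[k⟮x⟯] AlgebraicClosure K, (σ u - (n σ : AlgebraicClosure K))) < 1 :=
    Valuation.map_sum_lt w one_ne_zero fun σ _ => hn σ
  rw [Finset.sum_sub_distrib, ← trace_eq_sum_embeddings (AlgebraicClosure K), ← Nat.cast_sum] at hsum
  have hNpos : (∑ σ, n σ) ≠ 0 := by
    have h1 : 1 ≤ ∑ σ, n σ := by
      refine (hn1 (IsScalarTower.toAlgHom k⟮x⟯ K (AlgebraicClosure K)) rfl).trans ?_
      exact Finset.single_le_sum (fun _ _ => Nat.zero_le _) (Finset.mem_univ _)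
    omega
  have hN1 : w (((∑ σ, n σ : ℕ)) : AlgebraicClosure K) = 1 := by
    have h1 := hone ((∑ σ, n σ : ℕ) : k) (by exact_mod_cast hNpos)
    rwa [map_natCast, map_natCast] at h1
  have hT1 : w (algebraMap k⟮x⟯ (AlgebraicClosure K) (Algebra.trace k⟮x⟯ K u)) = 1 := by
    have h1 : algebraMap k⟮x⟯ (AlgebraicClosure K) (Algebra.trace k⟮x⟯ K u) =
        (algebraMap k⟮x⟯ (AlgebraicClosure K) (Algebra.trace k⟮x⟯ K u) -
          ((∑ σ, n σ : ℕ) : AlgebraicClosure K)) + ((∑ σ, n σ : ℕ) : AlgebraicClosure K) := by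
      ring
    rw [h1, Valuation.map_add_eq_of_lt_right w (by rw [hN1]; exact hsum)]
    exact hN1
  obtain ⟨p, q, hq, hpq⟩ := hreg
  have h5 : algebraMap k⟮x⟯ K (Algebra.trace k⟮x⟯ K u) * aeval x q =
      aeval x p * (x - algebraMap k K c) := by
    rw [← hpq]
    field_simp
  have h6 := congrArg (fun z => w (algebraMap K (AlgebraicClosure K) z)) h5
  simp only [map_mul] at h6
  rw [← IsScalarTower.algebraMap_apply k⟮x⟯ K (AlgebraicClosure K), hT1, hq1 q hq, one_mul] at h6
  have h7 := mul_lt_one_of_lt_of_le hxw (hev p)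
  rw [mul_comm, ← h6] at h7
  exact lt_irrefl _ h7

end MP743d1e.BD
end

section
/-!
# Theorem BD, module INC: functions without poles are integral
-/
set_option autoImplicit false

namespace MP743d1e.BD

open scoped BigOperators
open Polynomial IntermediateField MP743d1e.CY MP743d1e.GX MP743d1e.Integ Filter

namespace INCM

open FNVM

open scoped IntermediateField.algebraAdjoinAdjoin

theorem geo_dval {k O K : Type} [Field k] [CommRing O] [IsDedekindDomain O] [Field K]
    [Algebra O K] [IsFractionRing O K] [Algebra k O] [Algebra k K] [IsScalarTower k O K]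
    (P : IsDedekindDomain.HeightOneSpectrum O) : GeoF k (PlaceQ.dval (K := K) P) := by
  intro c hc
  obtain ⟨r, hr⟩ := hc
  have hle : ∀ s : k, P.valuation K (algebraMap k K s) ≤ 1 := by
    intro s
    rw [IsScalarTower.algebraMap_apply k O K]
    exact P.valuation_le_one _
  have hr0 : r ≠ 0 := by
    intro h
    rw [h, map_zero] at hr
    exact c.ne_zero hr
  have h1 := hle r
  have h2 := hle r⁻¹
  rw [map_inv₀, map_inv₀] at h2
  have hv0 : P.valuation K (algebraMap k K r) ≠ 0 := by
    rw [← hr]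
    exact (Valuation.ne_zero_iff _).mpr c.ne_zero
  have h3 : P.valuation K (algebraMap k K r) = 1 := by
    apply le_antisymm h1
    rwa [inv_le_one₀ (zero_lt_iff.mpr hv0)] at h2
  show -(WithZero.log (P.valuation K (c : K))) = 0
  rw [hr, h3, WithZero.log_one, neg_zero]

theorem nn_dval {O K : Type} [CommRing O] [IsDedekindDomain O] [Field K]
    [Algebra O K] [IsFractionRing O K] (P : IsDedekindDomain.HeightOneSpectrum O) (w : K) :
    NN (PlaceQ.dval (K := K) P) w ↔ P.valuation K w ≤ 1 := by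
  by_cases hw : w = 0
  · rw [hw, map_zero]
    exact ⟨fun _ => zero_le, fun _ => nn_zero⟩
  · obtain ⟨u, hu⟩ : ∃ u : Kˣ, (u : K) = w := ⟨Units.mk0 w hw, rfl⟩
    rw [← hu, nn_unit]
    have h0 : P.valuation K (u : K) ≠ 0 := (Valuation.ne_zero_iff _).mpr u.ne_zero
    show 0 ≤ -(WithZero.log (P.valuation K (u : K))) ↔ _
    rw [← WithZero.log_le_log h0 one_ne_zero, WithZero.log_one]
    omega

theorem partA {k K : Type} [Field k] [Field K] [Algebra k K] [IsAlgClosed k] [CharZero k]
    (hF : Fun1 k K) {x : K} (hx : Transcendental k x) {w : K} (hw : RR k x w) :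
    IsIntegral (Algebra.adjoin k ({x} : Set K)) w := by
  have hfinu : FiniteDimensional k⟮x⟯ K := fdx hF hx
  let A := Algebra.adjoin k ({x} : Set K)
  let e : Polynomial k ≃ₐ[k] A := Polynomial.algEquivOfTranscendental k x hx
  have hpid : IsPrincipalIdealRing A :=
    IsPrincipalIdealRing.of_surjective (e : Polynomial k →+* A) e.surjective
  have hdedA : IsDedekindDomain A := inferInstance
  have hchar : CharZero k⟮x⟯ := inferInstance
  have hsep : Algebra.IsSeparable k⟮x⟯ K := inferInstance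
  have hded : IsDedekindDomain (integralClosure A K) :=
    IsIntegralClosure.isDedekindDomain A k⟮x⟯ K (integralClosure A K)
  have hfrac : IsFractionRing (integralClosure A K) K :=
    integralClosure.isFractionRing_of_finite_extension k⟮x⟯ K
  let a : A := ⟨x, Algebra.self_mem_adjoin_singleton k x⟩
  have hbu : algebraMap (integralClosure A K) K (algebraMap A (integralClosure A K) a) = x := rfl
  have h1 : ∀ P : IsDedekindDomain.HeightOneSpectrum (integralClosure A K),
      P.valuation K w ≤ 1 := by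
    intro P
    rw [← nn_dval]
    refine hw _ (geo_dval P) ?_
    rw [nn_dval]
    exact P.valuation_le_one (K := K) (algebraMap A (integralClosure A K) a)
  obtain ⟨b, hb⟩ := IsDedekindDomain.HeightOneSpectrum.mem_integers_of_valuation_le_one K w h1
  rw [← hb]
  exact b.2

end INCM

open FNVM INCM in
theorem specINC (hRES : SpecRES) : SpecINC := by
  intro k K _ _ _ _ _ hF x hx
  refine ⟨fun w hw => partA hF hx hw, ?_⟩
  intro w c hw
  classical
  have hxc : ∀ d : k, x - algebraMap k K d ≠ 0 := by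
    intro d h
    rw [sub_eq_zero] at h
    apply hx
    rw [h]
    exact isAlgebraic_algebraMap d
  have key : ∃ q : k[X], q.eval c ≠ 0 ∧ RR k x (aeval x q * w) := by
    rcases con (k := k) w with hwt | ⟨d, hd⟩
    · have hw0 : w ≠ 0 := by
        rintro rfl
        exact hwt isAlgebraic_zero
      let u : Kˣ := (Units.mk0 w hw0)⁻¹
      have hu : (u : K) = w⁻¹ := rfl
      have hut : Transcendental k (u : K) := by
        rw [hu]
        intro h
        apply hwt
        have := h.inv
        rwa [inv_inv] at this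
      have hou : ∀ v : DVal K, v.ord u = - v.ord (Units.mk0 w hw0) := fun v => v.ord_inv _
      have hfin : Set.Finite {v : DVal K | GeoF k v ∧ 0 < v.ord u} :=
        (specFNV k K x (fdx hF hx) u hut).1
      have hres : ∀ v : DVal K, ∃ d : k, (GeoF k v → NN v x → Pos v (x - algebraMap k K d)) := by
        intro v
        by_cases h : GeoF k v ∧ NN v x
        · obtain ⟨d, hd⟩ := hRES k K hF v h.1 x h.2
          exact ⟨d, fun _ _ => hd⟩
        · exact ⟨0, fun h1 h2 => absurd ⟨h1, h2⟩ h⟩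
      choose cv hcv using hres
      let S : Finset (DVal K) := hfin.toFinset.filter fun v => NN v x
      have hS : ∀ v, v ∈ S ↔ (GeoF k v ∧ 0 < v.ord u) ∧ NN v x := by
        intro v
        rw [Finset.mem_filter, Set.Finite.mem_toFinset]
        rfl
      let N : DVal K → ℕ := fun v => (v.ord u).toNat
      refine ⟨∏ v ∈ S, (X - C (cv v)) ^ N v, ?_, ?_⟩
      · rw [eval_prod, Finset.prod_ne_zero_iff]
        intro v hv
        rw [hS] at hv
        rw [eval_pow, eval_sub, eval_X, eval_C]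
        refine pow_ne_zero _ ?_
        intro h
        rw [sub_eq_zero] at h
        have h1 := hcv v hv.1.1 hv.2
        rw [← h] at h1
        have h2 := hw v hv.1.1 h1
        have h3 : NN v ((Units.mk0 w hw0 : Kˣ) : K) := h2
        rw [nn_unit] at h3
        have h4 := hou v
        have h5 := hv.1.2
        omega
      · intro v hg hnx
        have hval : aeval x (∏ v ∈ S, (X - C (cv v)) ^ N v) =
            ∏ v ∈ S, (x - algebraMap k K (cv v)) ^ N v := by
          rw [map_prod]
          refine Finset.prod_congr rfl fun v _ => ?_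
          rw [map_pow, map_sub, aeval_X, aeval_C]
        rw [hval]
        have hfac : ∀ v' : DVal K, NN v ((x - algebraMap k K (cv v')) ^ N v') := by
          intro v'
          have h1 : NN v (x - algebraMap k K (cv v')) := nn_sub hnx (nn_const hg _)
          induction N v' with
          | zero => rw [pow_zero]; exact nn_one
          | succ n ih => rw [pow_succ]; exact nn_mul ih h1
        by_cases hvS : v ∈ S
        · rw [← Finset.mul_prod_erase S _ hvS]
          have h1 : NN v ((x - algebraMap k K (cv v)) ^ N v * w) := by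
            have h2 : Pos v ((Units.mk0 _ (hxc (cv v)) : Kˣ) : K) := hcv v hg hnx
            rw [pos_unit] at h2
            have h3 : (x - algebraMap k K (cv v)) ^ N v * w =
                (((Units.mk0 _ (hxc (cv v))) ^ N v * Units.mk0 w hw0 : Kˣ) : K) := by
              rw [Units.val_mul, Units.val_pow_eq_pow_val, Units.val_mk0, Units.val_mk0]
            rw [h3, nn_unit, v.ord_mul]
            have h4 : v.ord ((Units.mk0 _ (hxc (cv v))) ^ N v) =
                (N v : ℤ) * v.ord (Units.mk0 _ (hxc (cv v))) := by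
              rw [← zpow_natCast, v.ord_zpow]
            rw [h4]
            have h5 := hou v
            have h6 := (hS v).1 hvS
            have h7 : (N v : ℤ) = v.ord u := Int.toNat_of_nonneg h6.1.2.le
            rw [h7]
            have h8 := h6.1.2
            nlinarith
          have h2 := nn_mul h1 (nn_prod (v := v) (S.erase v)
            (fun v => (x - algebraMap k K (cv v)) ^ N v) fun v' _ => hfac v')
          have h3 : (x - algebraMap k K (cv v)) ^ N v *
              (∏ v ∈ S.erase v, (x - algebraMap k K (cv v)) ^ N v) * w =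
              (x - algebraMap k K (cv v)) ^ N v * w *
              (∏ v ∈ S.erase v, (x - algebraMap k K (cv v)) ^ N v) := by ring
          rw [h3]
          exact h2
        · refine nn_mul (nn_prod (v := v) S _ fun v' _ => hfac v') ?_
          have h1 : ¬ 0 < v.ord u := fun h => hvS ((hS v).2 ⟨⟨hg, h⟩, hnx⟩)
          have h2 : NN v ((Units.mk0 w hw0 : Kˣ) : K) := by
            rw [nn_unit]
            have := hou v
            omega
          exact h2
    · refine ⟨1, by rw [eval_one]; exact one_ne_zero, ?_⟩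
      intro v hg _
      rw [map_one, one_mul, ← hd]
      exact nn_const hg d
  obtain ⟨q, hq1, hq2⟩ := key
  exact ⟨q, hq1, hq2, partA hF hx hq2⟩

end MP743d1e.BD
end

section
/-!
# BD/IND: `f` and `g` are algebraically dependent over `k₀`
-/
set_option autoImplicit false

namespace MP743d1e.BD

open scoped BigOperators
open Polynomial IntermediateField MP743d1e.CY MP743d1e.GX MP743d1e.Integ Filter

namespace INDM

theorem along_left {M V : Type} [Field M] [Field V] (j : M →+* V) (D : Derivation ℤ M M) :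
    AlongD j (fun x => j (D x)) := by
  refine ⟨fun a b => ?_, fun a b => ?_⟩
  · beta_reduce
    rw [map_add, map_add]
  · beta_reduce
    rw [Derivation.leibniz, smul_eq_mul, smul_eq_mul, map_add, map_mul, map_mul]

theorem along_right {M V : Type} [Field M] [Field V] (j : M →+* V) (D : Derivation ℤ V V) :
    AlongD j (fun x => D (j x)) := by
  refine ⟨fun a b => ?_, fun a b => ?_⟩
  · beta_reduce
    rw [map_add, map_add]
  · beta_reduce
    rw [map_mul, Derivation.leibniz, smul_eq_mul, smul_eq_mul]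

/-- Two derivations along `j` that agree on `K₀` and on `L` agree on `M = K₀ L`. -/
theorem agree (hDUQ : SpecDUQ) {k₀ K₀ L M V : Type} [Field k₀] [Field K₀] [Field L] [Field M]
    [Field V] [Algebra k₀ K₀] [Algebra k₀ L] [Algebra k₀ M] [Algebra K₀ M] [Algebra L M]
    [IsScalarTower k₀ K₀ M] [IsScalarTower k₀ L M] (hC : CExt k₀ K₀ L M) (j : M →+* V)
    (A B : M → V) (hA : AlongD j A) (hB : AlongD j B)
    (h1 : ∀ y : K₀, A (algebraMap K₀ M y) = B (algebraMap K₀ M y))
    (h2 : ∀ c : L, A (algebraMap L M c) = B (algebraMap L M c)) : ∀ x, A x = B x := by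
  obtain ⟨F, hF⟩ := hDUQ.1 M V j A B hA hB
  have h3 : ∀ x ∈ Algebra.adjoin L (Set.range (algebraMap K₀ M)), x ∈ F := by
    intro x hx
    induction hx using Algebra.adjoin_induction with
    | mem x hx =>
      obtain ⟨y, rfl⟩ := hx
      exact (hF _).2 (h1 y)
    | algebraMap c => exact (hF _).2 (h2 c)
    | add x y _ _ hx hy => exact F.add_mem hx hy
    | mul x y _ _ hx hy => exact F.mul_mem hx hy
  intro x
  obtain ⟨a, ha, b, hb, hb0, hab⟩ := hC.gen x
  have h4 : x = a / b := by
    rw [← hab, mul_div_assoc, div_self hb0, mul_one]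
  rw [← hF, h4]
  exact F.div_mem (h3 a ha) (h3 b hb)

theorem map_gD {M V : Type} [Field M] [Field V] (j : M →+* V) (D E : Derivation ℤ M M)
    (D' E' : Derivation ℤ V V) (hD : ∀ x, j (D x) = D' (j x)) (hE : ∀ x, j (E x) = E' (j x))
    (f g : M) : j (gD D E f g) = gD D' E' (j f) (j g) := by
  unfold gD
  rw [map_sub, map_mul, map_mul, map_div₀, map_div₀, map_div₀, map_div₀, hD, hD, hE, hE]

end INDM

theorem specIND (hIND0 : SpecIND0) (hMSU : SpecMSU) (hGRG : SpecGRG) (hRGD : SpecRGD)
    (hDER : SpecDER) (hDZ : SpecDZ) (hDUQ : SpecDUQ) (_hCEB : SpecCEB) : SpecIND := by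
  intro k₀ K₀ k₁ K₁ _ _ _ _ _ _ _ _ _ _ _ _ _ _ hC hF t ht hta f g htor hind
  obtain ⟨z, hz, hzf⟩ := id hF
  obtain ⟨D, D₀, hD, -, -⟩ := hDER k₀ K₀ k₁ K₁ hC t ht hta
  obtain ⟨E, E₀, hE, hE0, -, -⟩ := hDZ k₀ K₀ k₁ K₁ hC hF z hz
  have hreg := hGRG k₀ K₀ k₁ K₁ hC hF z hz t D D₀ E E₀ hD hE f g htor
  obtain ⟨n, r, c, hr, hrr, hG⟩ := hRGD k₀ K₀ k₁ K₁ hC hF z hz _ hreg
  obtain ⟨L, M, iFL, iFM, iA1, iA2, iA3, iA4, iS1, iS2, iL, iM, t', a', c', hC', hFL, ht', hiLt,
    hL0, hM0, hML, ha, hc⟩ := hMSU k₀ K₀ k₁ K₁ hC t ht hta 2 n ![(f : K₁), (g : K₁)] c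
  have hfin : FiniteDimensional k₀⟮t'⟯ L := fdx hFL ht'
  have hLa : Algebra.IsAlgebraic k₀⟮t'⟯ L := inferInstance
  have hK0a : Algebra.IsAlgebraic k₀⟮z⟯ K₀ := inferInstance
  have hcL : CharZero L := charZero_of_injective_algebraMap (algebraMap k₀ L).injective
  have hcK : CharZero K₀ := charZero_of_injective_algebraMap (algebraMap k₀ K₀).injective
  obtain ⟨D', D₀', hD', -, -⟩ := hDER k₀ K₀ L M hC' t' ht' hLa
  obtain ⟨E', E₀', hE', hE0', -, -⟩ := hDZ k₀ K₀ L M hC' hF z hz
  -- the derivations agree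
  have e1 : ∀ x : L, iL (D₀' x) = D₀ (iL x) := by
    refine hDUQ.2.2 k₀ L k₁ iL (fun x => iL (D₀' x)) (fun x => D₀ (iL x))
      (INDM.along_left iL D₀') (INDM.along_right iL D₀) (fun x => ?_) t' hLa ?_
    · rw [hD'.on0, hL0, hD.on0, map_zero]
    · rw [hD'.one, hiLt, hD.one, map_one]
  have e2 : ∀ x : K₀, E₀' x = E₀ x := by
    refine hDUQ.2.2 k₀ K₀ K₀ (RingHom.id K₀) (fun x => E₀' x) (fun x => E₀ x)
      (INDM.along_right (RingHom.id K₀) E₀') (INDM.along_right (RingHom.id K₀) E₀)
      (fun x => ?_) z hK0a ?_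
    · rw [hE0, hE0']
    · rw [hE.one, hE'.one]
  have e3 : ∀ x : M, iM (D' x) = D (iM x) := by
    refine INDM.agree hDUQ hC' iM (fun x => iM (D' x)) (fun x => D (iM x))
      (INDM.along_left iM D') (INDM.along_right iM D) (fun y => ?_) (fun y => ?_)
    · rw [hD'.onK, hM0, hD.onK, map_zero]
    · rw [hD'.onk, hML, hML, hD.onk, e1]
  have e4 : ∀ x : M, iM (E' x) = E (iM x) := by
    refine INDM.agree hDUQ hC' iM (fun x => iM (E' x)) (fun x => E (iM x))
      (INDM.along_left iM E') (INDM.along_right iM E) (fun y => ?_) (fun y => ?_)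
    · rw [hE'.onK, hM0, hM0, hE.onK, e2]
    · rw [hE'.onk, hML, hE.onk, map_zero]
  -- the units of `M`
  have hf0 : a' 0 ≠ 0 := by
    intro h0
    have h1 := ha 0
    rw [h0, map_zero] at h1
    exact f.ne_zero h1.symm
  have hg0 : a' 1 ≠ 0 := by
    intro h0
    have h1 := ha 1
    rw [h0, map_zero] at h1
    exact g.ne_zero h1.symm
  have hG' : gD D' E' ((Units.mk0 (a' 0) hf0 : Mˣ) : M) ((Units.mk0 (a' 1) hg0 : Mˣ) : M) =
      ∑ i, algebraMap K₀ M (r i) * algebraMap L M (c' i) := by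
    apply iM.injective
    rw [INDM.map_gD iM D' E' D E e3 e4, map_sum]
    have h1 : iM ((Units.mk0 (a' 0) hf0 : Mˣ) : M) = (f : K₁) := ha 0
    have h2 : iM ((Units.mk0 (a' 1) hg0 : Mˣ) : M) = (g : K₁) := ha 1
    rw [h1, h2, hG]
    refine Finset.sum_congr rfl fun i _ => ?_
    rw [map_mul, hM0, hML, hc]
  have hdep := hIND0 k₀ K₀ L M hC' hF hFL z hz t' D' D₀' E' E₀' ht' hD' hE'
    (Units.mk0 (a' 0) hf0) (Units.mk0 (a' 1) hg0) n r c' hr hrr hG'
  apply hdep
  let φ : M →ₐ[k₀] K₁ := { iM with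
    commutes' := fun x => by
      show iM (algebraMap k₀ M x) = algebraMap k₀ K₁ x
      rw [IsScalarTower.algebraMap_apply k₀ K₀ M, hM0, ← IsScalarTower.algebraMap_apply] }
  apply AlgebraicIndependent.of_comp φ
  have h1 : (φ ∘ ![((Units.mk0 (a' 0) hf0 : Mˣ) : M), ((Units.mk0 (a' 1) hg0 : Mˣ) : M)]) =
      ![(f : K₁), (g : K₁)] := by
    funext i
    fin_cases i
    · exact ha 0
    · exact ha 1
  rw [h1]
  exact hind

end MP743d1e.BD
end

section
/-!
# Theorem BD: module IND0
-/
set_option autoImplicit false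

namespace MP743d1e.BD

open scoped BigOperators TensorProduct
open Polynomial IntermediateField MP743d1e.CY MP743d1e.GX MP743d1e.Integ Filter

namespace IND0M

theorem genS {k₀ K₀ L M : Type} [Field k₀] [Field K₀] [Field L] [Field M]
    [Algebra k₀ K₀] [Algebra k₀ L] [Algebra k₀ M] [Algebra K₀ M] [Algebra L M]
    [IsScalarTower k₀ K₀ M] [IsScalarTower k₀ L M] (hCE : CExt k₀ K₀ L M) (S : Subfield M)
    (h1 : ∀ y : K₀, algebraMap K₀ M y ∈ S) (h2 : ∀ y : L, algebraMap L M y ∈ S) (x : M) :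
    x ∈ S := by
  have hA : ∀ a ∈ Algebra.adjoin L (Set.range (algebraMap K₀ M)), a ∈ S := by
    intro a ha
    induction ha using Algebra.adjoin_induction with
    | mem y hy =>
      obtain ⟨w, rfl⟩ := hy
      exact h1 w
    | algebraMap r => exact h2 r
    | add y w _ _ hy hw => exact S.add_mem hy hw
    | mul y w _ _ hy hw => exact S.mul_mem hy hw
  obtain ⟨a, ha, b, hb, hb0, hab⟩ := hCE.gen x
  have : x = a * b⁻¹ := by
    rw [← hab, mul_assoc, mul_inv_cancel₀ hb0, mul_one]
  rw [this]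
  exact S.mul_mem (hA a ha) (S.inv_mem (hA b hb))

theorem int_map {k₀ K₀ M : Type} [Field k₀] [Field K₀] [Field M]
    [Algebra k₀ K₀] [Algebra k₀ M] [Algebra K₀ M] [IsScalarTower k₀ K₀ M] (z : K₀)
    (F : IntermediateField k₀ M) (hzF : algebraMap K₀ M z ∈ F) (y : K₀)
    (hy : IsIntegral k₀⟮z⟯ y) : IsIntegral F (algebraMap K₀ M y) := by
  have hle : k₀⟮z⟯ ≤ F.comap (IsScalarTower.toAlgHom k₀ K₀ M) := by
    rw [IntermediateField.adjoin_simple_le_iff]
    exact hzF
  let φ : k₀⟮z⟯ →+* F :=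
    ((algebraMap K₀ M).comp (algebraMap k₀⟮z⟯ K₀)).codRestrict F.toSubalgebra.toSubsemiring
      (fun x => hle x.2)
  have hφ : (algebraMap F M).comp φ = (algebraMap K₀ M).comp (algebraMap k₀⟮z⟯ K₀) :=
    RingHom.ext fun x => rfl
  obtain ⟨p, hp, hpy⟩ := hy
  refine ⟨p.map φ, hp.map φ, ?_⟩
  rw [Polynomial.eval₂_map, hφ, ← Polynomial.hom_eval₂, hpy, map_zero]

theorem alg {k₀ K₀ L M : Type} [Field k₀] [Field K₀] [Field L] [Field M]
    [Algebra k₀ K₀] [Algebra k₀ L] [Algebra k₀ M] [Algebra K₀ M] [Algebra L M]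
    [IsScalarTower k₀ K₀ M] [IsScalarTower k₀ L M] (hCE : CExt k₀ K₀ L M) (z : K₀)
    (hz : Algebra.IsAlgebraic k₀⟮z⟯ K₀) (t : L) (ht : Algebra.IsAlgebraic k₀⟮t⟯ L) :
    Algebra.IsAlgebraic (IntermediateField.adjoin k₀
      ({algebraMap K₀ M z, algebraMap L M t} : Set M)) M := by
  set F := IntermediateField.adjoin k₀ ({algebraMap K₀ M z, algebraMap L M t} : Set M) with hF
  refine ⟨fun x => ?_⟩
  have hx : x ∈ (algebraicClosure F M).toSubfield := by
    apply genS hCE
    · intro y
      show algebraMap K₀ M y ∈ algebraicClosure F M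
      rw [mem_algebraicClosure_iff]
      exact (int_map z F (IntermediateField.subset_adjoin _ _ (by simp)) y
        (hz.isAlgebraic y).isIntegral).isAlgebraic
    · intro y
      show algebraMap L M y ∈ algebraicClosure F M
      rw [mem_algebraicClosure_iff]
      exact (int_map t F (IntermediateField.subset_adjoin _ _ (by simp)) y
        (ht.isAlgebraic y).isIntegral).isAlgebraic
  exact mem_algebraicClosure_iff.mp hx

theorem fg1 {k₀ K₀ : Type} [Field k₀] [Field K₀] [Algebra k₀ K₀] (h : Fun1 k₀ K₀) :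
    ∃ s : Finset K₀, IntermediateField.adjoin k₀ (s : Set K₀) = ⊤ := by
  classical
  obtain ⟨x, -, hx⟩ := h
  obtain ⟨T, hT⟩ := (Module.finite_def (R := k₀⟮x⟯) (M := K₀)).mp hx
  refine ⟨insert x T, ?_⟩
  rw [eq_top_iff]
  intro y _
  have hy : y ∈ Submodule.span k₀⟮x⟯ (T : Set K₀) := by rw [hT]; trivial
  have hle : k₀⟮x⟯ ≤ IntermediateField.adjoin k₀ ((insert x T : Finset K₀) : Set K₀) := by
    rw [IntermediateField.adjoin_simple_le_iff]
    exact IntermediateField.subset_adjoin _ _ (by simp)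
  induction hy using Submodule.span_induction with
  | mem w hw => exact IntermediateField.subset_adjoin _ _ (by simp [Finset.mem_coe.mp hw])
  | zero => exact zero_mem _
  | add a b _ _ ha hb => exact add_mem (ha trivial) (hb trivial)
  | smul c a _ ha =>
    have : c • a = (c : K₀) * a := rfl
    rw [this]
    exact mul_mem (hle c.2) (ha trivial)

theorem fg {k₀ K₀ L M : Type} [Field k₀] [Field K₀] [Field L] [Field M]
    [Algebra k₀ K₀] [Algebra k₀ L] [Algebra k₀ M] [Algebra K₀ M] [Algebra L M]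
    [IsScalarTower k₀ K₀ M] [IsScalarTower k₀ L M] (hCE : CExt k₀ K₀ L M)
    (hK : Fun1 k₀ K₀) (hL : Fun1 k₀ L) :
    ∃ s : Finset M, IntermediateField.adjoin k₀ (s : Set M) = ⊤ := by
  classical
  obtain ⟨s₁, h₁⟩ := fg1 hK
  obtain ⟨s₂, h₂⟩ := fg1 hL
  refine ⟨s₁.image (algebraMap K₀ M) ∪ s₂.image (algebraMap L M), ?_⟩
  set F := IntermediateField.adjoin k₀
    ((s₁.image (algebraMap K₀ M) ∪ s₂.image (algebraMap L M) : Finset M) : Set M) with hF
  rw [eq_top_iff]
  intro x _
  apply genS hCE F.toSubfield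
  · intro y
    have hle : IntermediateField.adjoin k₀ (s₁ : Set K₀) ≤
        F.comap (IsScalarTower.toAlgHom k₀ K₀ M) := by
      rw [IntermediateField.adjoin_le_iff]
      intro w hw
      exact IntermediateField.subset_adjoin _ _ (by
        rw [Finset.coe_union, Finset.coe_image, Finset.coe_image]
        exact Or.inl ⟨w, hw, rfl⟩)
    rw [h₁] at hle
    exact hle (trivial : y ∈ (⊤ : IntermediateField k₀ K₀))
  · intro y
    have hle : IntermediateField.adjoin k₀ (s₂ : Set L) ≤
        F.comap (IsScalarTower.toAlgHom k₀ L M) := by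
      rw [IntermediateField.adjoin_le_iff]
      intro w hw
      exact IntermediateField.subset_adjoin _ _ (by
        rw [Finset.coe_union, Finset.coe_image, Finset.coe_image]
        exact Or.inr ⟨w, hw, rfl⟩)
    rw [h₂] at hle
    exact hle (trivial : y ∈ (⊤ : IntermediateField k₀ L))

/-- The chain rule along `j`. -/
theorem chain {k₀ K₀ L M κ : Type} [Field k₀] [Field K₀] [Field L] [Field M] [Field κ]
    [Algebra k₀ K₀] [Algebra k₀ L] [Algebra k₀ M] [Algebra K₀ M] [Algebra L M] [Algebra k₀ κ]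
    [IsScalarTower k₀ K₀ M] [IsScalarTower k₀ L M] [CharZero k₀] (hDUQ : SpecDUQ)
    (hCE : CExt k₀ K₀ L M) (z : K₀)
    (hz : Algebra.IsAlgebraic k₀⟮z⟯ K₀) (t : L) (ht : Algebra.IsAlgebraic k₀⟮t⟯ L)
    (D : Derivation ℤ M M) (D₀ : Derivation ℤ L L) (E : Derivation ℤ M M)
    (E₀ : Derivation ℤ K₀ K₀) (hDt : IsDt k₀ K₀ L t D D₀) (hDz : IsDz K₀ L z E E₀)
    (j : M →+* LaurentSeries κ) (hj : IsOver k₀ j) (X : LaurentSeries κ → LaurentSeries κ)
    (hX : AlongD (RingHom.id _) X)
    (hX0 : ∀ c : k₀, X (HahnSeries.C (algebraMap k₀ κ c)) = 0) (x : M) :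
    X (j x) = X (j (algebraMap K₀ M z)) * j (E x) + X (j (algebraMap L M t)) * j (D x) := by
  have hXj : ∀ {N : Type} [Field N] (i : N →+* LaurentSeries κ), AlongD i (fun x => X (i x)) := by
    intro N _ i
    constructor
    · intro a b
      show X (i (a + b)) = _
      rw [map_add, hX.1]
    · intro a b
      show X (i (a * b)) = _
      rw [map_mul, hX.2]
      rfl
  have hE0 : ∀ c : k₀, E₀ (algebraMap k₀ K₀ c) = 0 := by
    intro c
    apply (algebraMap K₀ M).injective
    rw [← hDz.onK, ← IsScalarTower.algebraMap_apply, IsScalarTower.algebraMap_apply k₀ L M,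
      hDz.onk, map_zero]
  obtain ⟨F, hF⟩ := hDUQ.1 M (LaurentSeries κ) j (fun x => X (j x))
    (fun x => X (j (algebraMap K₀ M z)) * j (E x) + X (j (algebraMap L M t)) * j (D x))
    (hXj j) (by
      constructor
      · intro a b
        simp only [map_add]
        ring
      · intro a b
        simp only [Derivation.leibniz, map_add, smul_eq_mul, map_mul]
        ring)
  have key : x ∈ F := by
    apply genS hCE F
    · intro y
      rw [hF]
      have h3 := hDUQ.2.2 k₀ K₀ (LaurentSeries κ) (j.comp (algebraMap K₀ M))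
        (fun y => X ((j.comp (algebraMap K₀ M)) y))
        (fun y => X (j (algebraMap K₀ M z)) * j (algebraMap K₀ M (E₀ y)))
        (hXj _) (by
          constructor
          · intro a b
            simp only [map_add]
            ring
          · intro a b
            simp only [Derivation.leibniz, map_add, smul_eq_mul, map_mul, RingHom.comp_apply]
            ring) (by
          intro c
          show X (j (algebraMap K₀ M (algebraMap k₀ K₀ c))) =
            X (j (algebraMap K₀ M z)) * j (algebraMap K₀ M (E₀ (algebraMap k₀ K₀ c)))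
          rw [← IsScalarTower.algebraMap_apply, hj, hX0, hE0, map_zero, map_zero, mul_zero])
        z hz (by
          show X (j (algebraMap K₀ M z)) = X (j (algebraMap K₀ M z)) * j (algebraMap K₀ M (E₀ z))
          rw [hDz.one, map_one, map_one, mul_one]) y
      have h4 : X (j (algebraMap K₀ M y)) =
          X (j (algebraMap K₀ M z)) * j (algebraMap K₀ M (E₀ y)) := h3
      rw [h4, hDz.onK, hDt.onK, map_zero, mul_zero, add_zero]
    · intro y
      rw [hF]
      have h3 := hDUQ.2.2 k₀ L (LaurentSeries κ) (j.comp (algebraMap L M))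
        (fun y => X ((j.comp (algebraMap L M)) y))
        (fun y => X (j (algebraMap L M t)) * j (algebraMap L M (D₀ y)))
        (hXj _) (by
          constructor
          · intro a b
            simp only [map_add]
            ring
          · intro a b
            simp only [Derivation.leibniz, map_add, smul_eq_mul, map_mul, RingHom.comp_apply]
            ring) (by
          intro c
          show X (j (algebraMap L M (algebraMap k₀ L c))) =
            X (j (algebraMap L M t)) * j (algebraMap L M (D₀ (algebraMap k₀ L c)))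
          rw [← IsScalarTower.algebraMap_apply, hj, hX0, hDt.on0, map_zero, map_zero, mul_zero])
        t ht (by
          show X (j (algebraMap L M t)) = X (j (algebraMap L M t)) * j (algebraMap L M (D₀ t))
          rw [hDt.one, map_one, map_one, mul_one]) y
      have h4 : X (j (algebraMap L M y)) =
          X (j (algebraMap L M t)) * j (algebraMap L M (D₀ y)) := h3
      rw [h4, hDz.onk, hDt.onk, map_zero, mul_zero, zero_add]
  exact (hF x).mp key

end IND0M

open IND0M in
theorem specIND0 (hV1 : SpecV1) (hJEX : SpecJEX) (hTRD : SpecTRD) (hLSX : SpecLSX)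
    (hJRG : SpecJRG) (hDUQ : SpecDUQ) (hAV : SpecAV) (hDR0 : SpecDR0) (hLSD : SpecLSD) :
    SpecIND0 := by
  intro k₀ K₀ L M _ _ _ _ _ _ _ _ _ _ _ _ _ hCE hK hL z hz t D D₀ E E₀ ht hDt hDz f g n h lam
    hlin hreg hG hind
  have hzalg : Algebra.IsAlgebraic k₀⟮z⟯ K₀ := by
    have := fdx hK hz
    infer_instance
  have htalg : Algebra.IsAlgebraic k₀⟮t⟯ L := by
    have := fdx hL ht
    infer_instance
  have halg := hTRD k₀ M (algebraMap K₀ M z) (algebraMap L M t) f g
    (alg hCE z hzalg t htalg) hind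
  obtain ⟨κ, _, _, _, γ, j, hγ, hκ, hj, hjg, hjf⟩ := hJEX k₀ M f g hind halg (fg hCE hK hL)
  have : CharZero κ := charZero_of_injective_algebraMap (algebraMap k₀ κ).injective
  obtain ⟨δ', hδ0, hδ1, -⟩ := hDR0 k₀ κ γ hγ hκ
  obtain ⟨X1, X2, hX1, hX2, hX1C, hX2C, hX1F, hX2F, hX1O, hX2O, hX1L, hX2L⟩ :=
    hLSX κ (γ • δ') (j (f : M)) hjf
  have hδγ : (γ • δ') γ = γ := by
    rw [Derivation.smul_apply, hδ1, smul_eq_mul, mul_one]
  have hX1k : ∀ c : k₀, X1 (HahnSeries.C (algebraMap k₀ κ c)) = 0 := fun c => hX1C _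
  have hX2k : ∀ c : k₀, X2 (HahnSeries.C (algebraMap k₀ κ c)) = 0 := by
    intro c
    rw [hX2C, Derivation.smul_apply, hδ0, smul_zero, map_zero]
  have hLS := hLSD κ
  set p1 := X1 (j (algebraMap K₀ M z)) with hp1
  set q1 := X1 (j (algebraMap L M t)) with hq1
  set p2 := X2 (j (algebraMap K₀ M z)) with hp2
  set q2 := X2 (j (algebraMap L M t)) with hq2
  have c1 : ∀ x, X1 (j x) = p1 * j (E x) + q1 * j (D x) :=
    chain hDUQ hCE z hzalg t htalg D D₀ E E₀ hDt hDz j hj X1 hX1 hX1k
  have c2 : ∀ x, X2 (j x) = p2 * j (E x) + q2 * j (D x) :=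
    chain hDUQ hCE z hzalg t htalg D D₀ E E₀ hDt hDz j hj X2 hX2 hX2k
  have hjf0 : j (f : M) ≠ 0 := by
    rw [Ne, map_eq_zero]; exact f.ne_zero
  have hjg0 : j (g : M) ≠ 0 := by
    rw [Ne, map_eq_zero]; exact g.ne_zero
  have i1 := c1 (f : M)
  have i2 := c1 (g : M)
  have i3 := c2 (f : M)
  have i4 := c2 (g : M)
  rw [hX1F] at i1
  rw [hX2F] at i3
  have hX1g : X1 (j (g : M)) = 0 := by rw [hjg, hX1C]
  have hX2g : X2 (j (g : M)) = j (g : M) := by rw [hjg, hX2C, hδγ]
  rw [hX1g] at i2
  rw [hX2g] at i4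
  have hone : j (gD D E (f : M) (g : M)) * (p1 * q2 - q1 * p2) = 1 := by
    unfold gD
    rw [map_sub, map_mul, map_mul, map_div₀, map_div₀, map_div₀, map_div₀]
    field_simp
    linear_combination (-(j (g : M))) * i1 - (p1 * j (E (f : M)) + q1 * j (D (f : M))) * i4 +
      (p2 * j (E (f : M)) + q2 * j (D (f : M))) * i2
  -- the terms
  have hneg : ∀ a : LaurentSeries κ, IsM a → IsM (-a) := by
    intro a ha m hm
    rw [HahnSeries.coeff_neg, ha m hm, neg_zero]
  have hmulM : ∀ a b : LaurentSeries κ, IsO a → IsM b → IsM (a * b) := by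
    intro a b ha hb
    rw [mul_comm]
    exact hLS.m_mul b a hb ha
  have hjK : IsOver k₀ (j.comp (algebraMap K₀ M)) := by
    intro c
    show j (algebraMap K₀ M (algebraMap k₀ K₀ c)) = _
    rw [← IsScalarTower.algebraMap_apply, hj]
  have hjL : IsOver k₀ (j.comp (algebraMap L M)) := by
    intro c
    show j (algebraMap L M (algebraMap k₀ L c)) = _
    rw [← IsScalarTower.algebraMap_apply, hj]
  have hh1 : ∀ i, IsM (j (algebraMap K₀ M (h i)) * p1) := fun i =>
    (hJRG k₀ K₀ κ hK _ hjK z (h i) (hreg i) X1 hX1 hX1k).2.1 hX1O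
  have hh2 : ∀ i, IsO (j (algebraMap K₀ M (h i)) * p2) := fun i =>
    (hJRG k₀ K₀ κ hK _ hjK z (h i) (hreg i) X2 hX2 hX2k).1 hX2O
  have hterm : ∀ i, IsM (j (algebraMap L M (lam i)) *
      (j (algebraMap K₀ M (h i)) * p1 * q2 - q1 * (j (algebraMap K₀ M (h i)) * p2))) := by
    intro i
    rcases hAV.1 k₀ L κ (j.comp (algebraMap L M)) hjL with h0 | ⟨b, e, he, hb, hbe⟩
    · have hO : ∀ y : L, IsO (j (algebraMap L M y)) := by
        intro y
        by_cases hy : y = 0
        · rw [hy, map_zero, map_zero]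
          intro m _
          rfl
        · have hne : j (algebraMap L M y) ≠ 0 := by
            rw [Ne, map_eq_zero, map_eq_zero]; exact hy
          rw [hLS.o_iff _ hne]
          exact (h0 (Units.mk0 y hy)).ge
      apply hmulM _ _ (hO _)
      rw [sub_eq_add_neg]
      apply hLS.m_add
      · exact hLS.m_mul _ _ (hh1 i) (hX2O _ (hO t))
      · exact hneg _ (hLS.m_mul _ _ (hX1O _ (hO t)) (hh2 i))
    · obtain ⟨π, hπ⟩ := b.surj 1
      have hpos := hV1 k₀ K₀ L M hCE hK hL z hz t D D₀ E E₀ ht hDt hDz f g n h lam hlin hreg hG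
        b hb π hπ i
      -- `D₀ π ≠ 0`
      have hDπ : D₀ (π : L) ≠ 0 := by
        intro h00
        obtain ⟨D', hD'0, hD'1, hD'k⟩ := hDR0 k₀ L t ht htalg
        have hAl : ∀ Dx : Derivation ℤ L L, AlongD (RingHom.id L) (fun x => Dx x) := by
          intro Dx
          constructor
          · intro a c; exact map_add Dx a c
          · intro a c
            show Dx (a * c) = a * Dx c + c * Dx a
            rw [Derivation.leibniz]; rfl
        have hDD := hDUQ.2.2 k₀ L L (RingHom.id L) (fun x => D' x) (fun x => D₀ x) (hAl D')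
          (hAl D₀) (fun c => by
            show D' _ = D₀ _
            rw [hD'0, hDt.on0]) t htalg (by
            show D' t = D₀ t
            rw [hD'1, hDt.one]) (π : L)
        have hDD' : D' (π : L) = D₀ (π : L) := hDD
        obtain ⟨c, hc⟩ := hD'k (π : L) (by rw [hDD', h00])
        have h1 := hb π ⟨c, hc.symm⟩
        rw [hπ] at h1
        exact one_ne_zero h1
      set μ : L := lam i * π / D₀ π with hμ
      have hjπ0 : j (algebraMap L M (π : L)) ≠ 0 := by
        rw [Ne, map_eq_zero, map_eq_zero]; exact π.ne_zero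
      have hμM : IsM (j (algebraMap L M μ)) := by
        rcases hpos with h1 | ⟨u, hu, hu1⟩
        · rw [h1, map_zero, map_zero]
          intro m _
          rfl
        · have hne : j (algebraMap L M μ) ≠ 0 := by
            rw [← hu, Ne, map_eq_zero, map_eq_zero]; exact u.ne_zero
          rw [hLS.m_iff _ hne, ← hu]
          have h2 := hbe u
          have h3 : (j (algebraMap L M (u : L))).order = e * b.ord u := h2
          rw [h3]
          nlinarith
      have hXt : ∀ (X : LaurentSeries κ → LaurentSeries κ) (p q : LaurentSeries κ),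
          (∀ x, X (j x) = p * j (E x) + q * j (D x)) →
          (∀ a, a ≠ 0 → IsO (X a / a)) → IsM (j (algebraMap L M (lam i)) * q) := by
        intro X p q hc hL'
        have h1 := hc (algebraMap L M (π : L))
        rw [hDz.onk, hDt.onk, map_zero, mul_zero, zero_add] at h1
        have h2 : j (algebraMap L M (lam i)) * q = j (algebraMap L M μ) *
            (X (j (algebraMap L M (π : L))) / j (algebraMap L M (π : L))) := by
          rw [h1, hμ, map_div₀, map_div₀, map_mul, map_mul]
          have h3 : j (algebraMap L M (D₀ (π : L))) ≠ 0 := by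
            rw [Ne, map_eq_zero, map_eq_zero]; exact hDπ
          field_simp
        rw [h2]
        exact hLS.m_mul _ _ hμM (hL' _ hjπ0)
      have ht1 := hXt X1 p1 q1 c1 hX1L
      have ht2 := hXt X2 p2 q2 c2 hX2L
      have hsplit : j (algebraMap L M (lam i)) *
          (j (algebraMap K₀ M (h i)) * p1 * q2 - q1 * (j (algebraMap K₀ M (h i)) * p2)) =
          (j (algebraMap L M (lam i)) * q2) * (j (algebraMap K₀ M (h i)) * p1) +
          -((j (algebraMap L M (lam i)) * q1) * (j (algebraMap K₀ M (h i)) * p2)) := by ring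
      rw [hsplit]
      apply hLS.m_add
      · exact hLS.m_mul _ _ ht2 (hLS.m_o _ (hh1 i))
      · exact hneg _ (hLS.m_mul _ _ ht1 (hh2 i))
  have hsum : IsM (∑ i, j (algebraMap L M (lam i)) *
      (j (algebraMap K₀ M (h i)) * p1 * q2 - q1 * (j (algebraMap K₀ M (h i)) * p2))) := by
    intro m hm
    rw [HahnSeries.coeff_sum]
    exact Finset.sum_eq_zero fun i _ => hterm i m hm
  have hsum1 : ∑ i, j (algebraMap L M (lam i)) *
      (j (algebraMap K₀ M (h i)) * p1 * q2 - q1 * (j (algebraMap K₀ M (h i)) * p2)) = 1 := by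
    rw [← hone, hG, map_sum, Finset.sum_mul]
    refine Finset.sum_congr rfl fun i _ => ?_
    rw [map_mul]
    ring
  rw [hsum1] at hsum
  have h1 : (1 : LaurentSeries κ) = HahnSeries.C 1 := (map_one _).symm
  rw [h1] at hsum
  exact one_ne_zero (hLS.not_m 1 hsum)

end MP743d1e.BD
end

section
/-!
# ING
-/
set_option autoImplicit false

namespace MP743d1e.BD

open Polynomial IntermediateField MP743d1e.CY MP743d1e.GX MP743d1e.Integ

namespace INGM

variable {k K : Type} [Field k] [Field K] [Algebra k K]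

theorem evF_mul (x w : K) (P Q : k[X][X]) : evF x w (P * Q) = evF x w P * evF x w Q :=
  eval₂_mul _ _

/-- The monic equation of an integral element lifts to `k[X][X]`. -/
theorem lift_monic (x z : K) (hz : IsIntegral (Algebra.adjoin k ({x} : Set K)) z) :
    ∃ P : k[X][X], P.Monic ∧ evF x z P = 0 := by
  obtain ⟨g, hg, hg0⟩ := hz
  let f : k[X] →+* Algebra.adjoin k ({x} : Set K) :=
    ((aeval x : k[X] →ₐ[k] K).codRestrict (Algebra.adjoin k ({x} : Set K)) (fun p => by
      rw [Algebra.adjoin_singleton_eq_range_aeval]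
      exact ⟨p, rfl⟩)).toRingHom
  have hf : Function.Surjective f := by
    rintro ⟨y, hy⟩
    have hy2 := hy
    rw [Algebra.adjoin_singleton_eq_range_aeval] at hy2
    obtain ⟨p, hp⟩ := hy2
    exact ⟨p, Subtype.ext hp⟩
  have hl : g ∈ Polynomial.lifts f := by
    rw [Polynomial.lifts_iff_coeff_lifts]
    intro n
    exact hf _
  obtain ⟨P, hP, -, hPm⟩ := Polynomial.lifts_and_natDegree_eq_and_monic hl hg
  refine ⟨P, hPm, ?_⟩
  rw [← hP, eval₂_map] at hg0
  exact hg0

end INGM

open INGM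

theorem specING (hINC : SpecINC) (hMPB : SpecMPB) (hBDV : SpecBDV) : SpecING := by
  intro k K _ _ _ _ _ hF x w A B Q hx hw hQ0 hQ hb
  obtain ⟨q, hq0, -, hq⟩ := (hINC k K hF x hx).2 w 0 hw
  obtain ⟨P₀, hP₀, hP₀0⟩ := lift_monic x _ hq
  have : FiniteDimensional k⟮x⟯ K := fdx hF hx
  obtain ⟨P, hP0, hPe, -, hPd⟩ := hMPB k K x w hx (Algebra.IsAlgebraic.isAlgebraic w)
  have hqne : q ≠ 0 := by
    rintro rfl
    exact hq0 (by rw [eval_zero])
  have hd : (C q * X : k[X][X]).natDegree = 1 := by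
    rw [natDegree_C_mul hqne, natDegree_X]
  have hl : (C q * X : k[X][X]).leadingCoeff = q := by
    rw [leadingCoeff_mul, leadingCoeff_C, leadingCoeff_X, mul_one]
  have h1 : evF x w (P₀.comp (C q * X)) = 0 := by
    have h2 : evF x w (P₀.comp (C q * X)) = evF x (aeval x q * w) P₀ := by
      unfold evF
      rw [eval₂_comp, eval₂_mul, eval₂_C, eval₂_X]
      rfl
    rw [h2]
    exact hP₀0
  have h2 : P.leadingCoeff ∣ q ^ P₀.natDegree := by
    obtain ⟨R, hR⟩ := hPd _ h1
    have h3 : (P₀.comp (C q * X)).leadingCoeff = q ^ P₀.natDegree := by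
      rw [leadingCoeff_comp (by rw [hd]; exact one_ne_zero), hP₀.leadingCoeff, one_mul, hl]
    rw [← h3, hR, leadingCoeff_mul]
    exact dvd_mul_right _ _
  have h3 : P.leadingCoeff.coeff 0 ≠ 0 := by
    rw [coeff_zero_eq_eval_zero]
    intro h4
    obtain ⟨r, hr⟩ := h2
    have h5 := congrArg (eval (0 : k)) hr
    rw [eval_pow, eval_mul, h4, zero_mul] at h5
    exact hq0 (eq_zero_of_pow_eq_zero h5)
  have hc : (C (C (P.leadingCoeff.coeff 0)⁻¹) : k[X][X]) ≠ 0 := by
    rw [Ne, C_eq_zero, C_eq_zero]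
    exact inv_ne_zero h3
  refine ⟨C (C (P.leadingCoeff.coeff 0)⁻¹) * P, ?_, ?_, ?_⟩
  · rw [evF_mul, hPe, mul_zero]
  · refine hBDV k A B _ Q hQ0 ?_ hb
    obtain ⟨R, hR⟩ := hPd Q hQ
    refine ⟨C (C (P.leadingCoeff.coeff 0)) * R, ?_⟩
    rw [hR]
    have h6 : (C (C (P.leadingCoeff.coeff 0)⁻¹) : k[X][X]) * C (C (P.leadingCoeff.coeff 0)) = 1 := by
      rw [← C_mul, ← C_mul, inv_mul_cancel₀ h3, C_1, C_1]
    calc P * R = ((C (C (P.leadingCoeff.coeff 0)⁻¹) : k[X][X]) * C (C (P.leadingCoeff.coeff 0))) *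
          (P * R) := by rw [h6, one_mul]
      _ = _ := by ring
  · rw [leadingCoeff_mul, leadingCoeff_C, coeff_C_mul, inv_mul_cancel₀ h3]

end MP743d1e.BD
end

section
/-!
# Theorem BD, module JRG: regular differentials and derivations of Laurent series
-/
set_option autoImplicit false

namespace MP743d1e.BD

open scoped BigOperators
open Polynomial IntermediateField MP743d1e.CY MP743d1e.GX MP743d1e.Integ Filter

namespace JRGM

theorem along_zero {K V : Type} [Field K] [Field V] {j : K →+* V} {A : K → V}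
    (h : AlongD j A) : A 0 = 0 := by
  have h1 := h.1 0 0
  rw [add_zero] at h1
  have h2 : A 0 + A 0 = A 0 + 0 := by rw [add_zero]; exact h1.symm
  exact add_left_cancel h2

theorem isO_zero {κ : Type} [Field κ] : IsO (0 : LaurentSeries κ) := fun _ _ => rfl

theorem isM_zero {κ : Type} [Field κ] : IsM (0 : LaurentSeries κ) := fun _ _ => rfl

/-- A derivation of the Laurent series composed with a homomorphism. -/
theorem comp {K κ : Type} [Field K] [Field κ] (j : K →+* LaurentSeries κ)
    (X : LaurentSeries κ → LaurentSeries κ) (hX : AlongD (RingHom.id _) X) :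
    AlongD j (fun y => X (j y)) := by
  refine ⟨fun a b => ?_, fun a b => ?_⟩
  · show X (j (a + b)) = X (j a) + X (j b)
    rw [map_add, hX.1]
  · show X (j (a * b)) = j a * X (j b) + j b * X (j a)
    rw [map_mul, hX.2]
    rfl

/-- A derivation of `K` composed with a homomorphism, times a constant. -/
theorem post {K κ : Type} [Field K] [Field κ] (j : K →+* LaurentSeries κ)
    (P : Derivation ℤ K K) (w : LaurentSeries κ) :
    AlongD j (fun y => j (P y) * w) := by
  refine ⟨fun a b => ?_, fun a b => ?_⟩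
  · show j (P (a + b)) * w = j (P a) * w + j (P b) * w
    rw [map_add, map_add, add_mul]
  · show j (P (a * b)) * w = j a * (j (P b) * w) + j b * (j (P a) * w)
    rw [Derivation.leibniz, map_add, smul_eq_mul, smul_eq_mul, map_mul, map_mul]
    ring

end JRGM

theorem specJRG (hARC : SpecARC) (hAV : SpecAV) (hDR0 : SpecDR0) (hDUQ : SpecDUQ)
    (hLSD : SpecLSD) : SpecJRG := by
  intro k K κ _ _ _ _ _ _ _ hF j hj z h hreg X hX hXc
  classical
  have L := hLSD κ
  have Lk := hLSD k
  rcases (hAV.1 k K κ j hj) with h0 | ⟨v, e, he, hv, hord⟩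
  · -- all orders are zero
    have hO : ∀ y : K, IsO (j y) := by
      intro y
      by_cases hy : y = 0
      · rw [hy, map_zero]; exact JRGM.isO_zero
      · have hjy : j y ≠ 0 := (map_ne_zero j).2 hy
        have := h0 (Units.mk0 y hy)
        rw [Units.val_mk0] at this
        exact (L.o_iff _ hjy).2 this.ge
    refine ⟨fun hXO => L.o_mul _ _ (hO h) (hXO _ (hO z)), fun hXM => ?_, fun _ hu => ?_⟩
    · rw [mul_comm]; exact L.m_mul _ _ (hXM _ (hO z)) (hO h)
    · obtain ⟨u, hu⟩ := hu
      exact absurd (h0 u) hu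
  · obtain ⟨ϖ, hϖ⟩ := v.surj 1
    have hϖt : Transcendental k (ϖ : K) := by
      rcases con (k := k) (ϖ : K) with h1 | ⟨c, hc⟩
      · exact h1
      · exfalso
        have := hv ϖ ⟨c, hc.symm⟩
        omega
    haveI : FiniteDimensional k⟮(ϖ : K)⟯ K := fdx hF hϖt
    have halg : Algebra.IsAlgebraic k⟮(ϖ : K)⟯ K := Algebra.IsAlgebraic.of_finite _ _
    obtain ⟨P, hP0, hP1, -⟩ := hDR0 k K (ϖ : K) hϖt halg
    -- the formula for `X`
    have key : ∀ y : K, X (j y) = j (P y) * X (j (ϖ : K)) := by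
      have := hDUQ.2.2 k K (LaurentSeries κ) j (fun y => X (j y))
        (fun y => j (P y) * X (j (ϖ : K))) (JRGM.comp j X hX) (JRGM.post j P _)
        (fun c => by
          show X (j (algebraMap k K c)) = j (P (algebraMap k K c)) * X (j (ϖ : K))
          rw [hj c, hXc c, hP0 c, map_zero, zero_mul]) (ϖ : K) halg
        (by
          show X (j (ϖ : K)) = j (P (ϖ : K)) * X (j (ϖ : K))
          rw [hP1, map_one, one_mul])
      exact this
    obtain ⟨ι, hι, hιϖ, hιord⟩ := hARC k K hF v hv ϖ hϖ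
    have key2 : ∀ y : K, dS (ι y) = ι (P y) := by
      have := hDUQ.2.2 k K (LaurentSeries k) ι (fun y => dS (ι y))
        (fun y => ι (P y) * 1) (JRGM.comp ι dS Lk.d_along) (JRGM.post ι P _)
        (fun c => by
          show dS (ι (algebraMap k K c)) = ι (P (algebraMap k K c)) * 1
          rw [hι c, Lk.d_C, hP0 c, map_zero, zero_mul]) (ϖ : K) halg
        (by
          show dS (ι (ϖ : K)) = ι (P (ϖ : K)) * 1
          rw [hιϖ, Lk.d_sv, hP1, map_one, one_mul])
      intro y
      have h1 := this y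
      rw [mul_one] at h1
      exact h1
    have hreg1 : IsO (ι (h * P z)) := by
      have h1 := hreg ι hι ⟨(ϖ : K), hιϖ⟩
      rw [key2 z, ← map_mul] at h1
      exact h1
    have hO : IsO (j (h * P z)) := by
      by_cases hz : h * P z = 0
      · rw [hz, map_zero]; exact JRGM.isO_zero
      · have h1 : ι (h * P z) ≠ 0 := (map_ne_zero ι).2 hz
        have h2 : j (h * P z) ≠ 0 := (map_ne_zero j).2 hz
        have h3 := (Lk.o_iff _ h1).1 hreg1
        have h4 := hιord (Units.mk0 _ hz)
        have h5 := hord (Units.mk0 _ hz)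
        rw [Units.val_mk0] at h4 h5
        rw [L.o_iff _ h2, h5, ← h4]
        positivity
    have hM : IsM (j (ϖ : K)) := by
      have h2 : j (ϖ : K) ≠ 0 := (map_ne_zero j).2 ϖ.ne_zero
      rw [L.m_iff _ h2, hord ϖ, hϖ]
      linarith
    have hfin : j h * X (j z) = j (h * P z) * X (j (ϖ : K)) := by
      rw [key z, map_mul, mul_assoc]
    rw [hfin]
    refine ⟨fun hXO => L.o_mul _ _ hO (hXO _ (L.m_o _ hM)), fun hXM => ?_, fun hXM _ => ?_⟩
    · rw [mul_comm]; exact L.m_mul _ _ (hXM _ (L.m_o _ hM)) hO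
    · rw [mul_comm]; exact L.m_mul _ _ (hXM _ hM) hO

end MP743d1e.BD
end

section
/-! # Module L3: a regular logarithmic differential is zero -/
set_option autoImplicit false

namespace MP743d1e.BD

open scoped BigOperators
open Polynomial IntermediateField MP743d1e.CY MP743d1e.GX MP743d1e.Integ Filter

theorem specL3 (hARC : SpecARC) (hCHD : SpecCHD) (hLSD : SpecLSD) : SpecL3 := by
  intro k K _ _ _ _ _ hF z E hz hE hEz H hreg
  by_contra hcon
  have L := hLSD k
  have : CharZero K := charZero_of_injective_algebraMap (algebraMap k K).injective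
  have hHt : Transcendental k (H : K) := (con (H : K)).resolve_right hcon
  have hfd : FiniteDimensional k⟮z⟯ K := fdx hF hz
  obtain ⟨-, v, hv, hvH⟩ := specFNV k K z hfd H hHt
  obtain ⟨ϖ, hϖ⟩ := v.surj 1
  obtain ⟨ι, hι, hιϖ, hord⟩ := hARC k K hF v hv ϖ hϖ
  have h1 : IsO (ι (E (H : K) / (H : K)) * dS (ι z)) := hreg ι hι ⟨ϖ, hιϖ⟩
  have h2 : dS (ι (H : K)) = ι (E (H : K)) * dS (ι z) :=
    (hCHD k K hF z (H : K) 0 E hz hE hEz).1 ι hι
  have hne : ι (H : K) ≠ 0 := (map_ne_zero ι).2 H.ne_zero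
  have h3 : ι (E (H : K) / (H : K)) * dS (ι z) = dS (ι (H : K)) / ι (H : K) := by
    rw [h2, map_div₀]
    field_simp
  rw [h3] at h1
  have h4 : IsM (sv k * (dS (ι (H : K)) / ι (H : K))) := L.m_mul _ _ L.m_sv h1
  have h5 := (L.d_log (ι (H : K)) hne).2
  rw [h4 0 le_rfl, hord H] at h5
  have h6 : (v.ord H : k) = 0 := h5.symm
  have h7 : v.ord H = 0 := by exact_mod_cast h6
  omega

end MP743d1e.BD
end
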