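import Pool.Agent.Lib.MP_743d1e_nt.BD.SpecB

/-!
# Theorem BD, module T1
-/

set_option autoImplicit false
set_option linter.all false

namespace MP743d1e.BD

open MP743d1e.CY MP743d1e.GX MP743d1e.Integ

namespace T1M

theorem o_sub' {κ : Type} [Field κ] {a b : LaurentSeries κ} (ha : IsO a) (hb : IsO b) :
    IsO (a - b) := by
  intro n hn
  rw [HahnSeries.coeff_sub, ha n hn, hb n hn, sub_zero]

/-- the derivation `cS D₀ - C d * dS` -/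
noncomputable def X {κ : Type} [Field κ] (D₀ : Derivation ℤ κ κ) (d : κ) (a : LaurentSeries κ) :
    LaurentSeries κ := cS D₀ a - HahnSeries.C d * dS a

theorem along {κ : Type} [Field κ] (h : LSF κ) (D₀ : Derivation ℤ κ κ) (d : κ) :
    AlongD (RingHom.id (LaurentSeries κ)) (X D₀ d) := by
  obtain ⟨h1, h2⟩ := h.c_along D₀
  obtain ⟨h3, h4⟩ := h.d_along
  refine ⟨fun a b => ?_, fun a b => ?_⟩
  · rw [X, X, X, h1, h3]; ring
  · rw [X, X, X, h2, h4]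
    simp only [RingHom.id_apply]
    ring

theorem XC {κ : Type} [Field κ] (h : LSF κ) (D₀ : Derivation ℤ κ κ) (d c : κ) (hc : D₀ c = 0) :
    X D₀ d (HahnSeries.C c) = 0 := by
  rw [X, h.c_C, h.d_C, hc, map_zero, mul_zero, sub_zero]

end T1M

open T1M in
theorem specT1 (hJRG : SpecJRG) (hRGF : SpecRGF) (hARD : SpecARD) (hLSD : SpecLSD)
    (hCEB : SpecCEB) : SpecT1 := by
  intro k₀ K₀ k₁ K₁ E₀ _ _ _ _ _ _ _ _ _ _ _ _ _ _ _ _ hCE hFK hFE t D D₀ hD v hv ξ h₀ hreg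
  have hL := hLSD k₁
  have hcomp : ∀ ι : K₁ →+* LaurentSeries k₁, IsOver k₁ ι → IsOver k₀ (ι.comp v) := by
    intro ι hι c
    rw [RingHom.comp_apply, hv, IsScalarTower.algebraMap_apply k₀ k₁ K₁, hι]
    rfl
  have hval : ∀ ι : K₁ →+* LaurentSeries k₁, IsOver k₁ ι → ∀ (y : K₀) (c : k₁),
      ι (algebraMap K₀ K₁ y) = HahnSeries.C c + sv k₁ →
      ι (v h₀ * D (v ξ)) = (ι.comp v) h₀ * X D₀ (D₀ c) ((ι.comp v) ξ) := by
    intro ι hι y c hy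
    rw [map_mul, (hARD k₀ K₀ k₁ K₁ hCE hFK t D D₀ hD ι hι).2 y c hy]
    rfl
  have hmain : ∃ c : k₁, algebraMap k₁ K₁ c = v h₀ * D (v ξ) := by
    refine hRGF k₀ K₀ k₁ K₁ hCE hFK _ ?_
    rintro ι ⟨hι, y, c, hy⟩
    rw [hval ι hι y c hy]
    refine (hJRG k₀ E₀ k₁ hFE (ι.comp v) (hcomp ι hι) ξ h₀ hreg (X D₀ (D₀ c))
      (along hL D₀ _) (fun r => XC hL D₀ _ _ (hD.on0 r))).1 ?_
    intro a ha
    exact o_sub' (hL.c_o D₀ a ha) (hL.o_mul _ _ (hL.o_C _) (hL.d_o a ha))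
  refine ⟨hmain, ?_⟩
  rintro ι hι ⟨ϖ, hϖ⟩ hu
  obtain ⟨c, hc⟩ := hmain
  have hϖ' : ι (algebraMap K₀ K₁ ϖ) = HahnSeries.C 0 + sv k₁ := by
    rw [hϖ, map_zero, zero_add]
  have h1 := hval ι hι ϖ 0 hϖ'
  have h2 : IsM ((ι.comp v) h₀ * X D₀ (D₀ 0) ((ι.comp v) ξ)) := by
    refine (hJRG k₀ E₀ k₁ hFE (ι.comp v) (hcomp ι hι) ξ h₀ hreg (X D₀ (D₀ 0))
      (along hL D₀ _) (fun r => XC hL D₀ _ _ (hD.on0 r))).2.2 ?_ hu
    intro a ha
    have : X D₀ (D₀ 0) a = cS D₀ a := by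
      rw [X, map_zero, map_zero, zero_mul, sub_zero]
    rw [this]
    exact hL.c_m D₀ a ha
  rw [← h1, ← hc, hι] at h2
  have h3 := hL.not_m _ h2
  rw [← hc]
  have h4 : c = 0 := h3
  rw [h4, map_zero]

end MP743d1e.BD
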