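import Pool.Agent.Lib.MP_743d1e_nt.BD.SpecC

/-!
# TMD: torsion of tame symbols descends
-/

set_option autoImplicit false

namespace MP743d1e.BD

open scoped BigOperators
open MP743d1e.GX MP743d1e.CY

namespace TMDM

variable {E K : Type} [Field E] [Field K] [Algebra E K]

theorem isOne_iff {v : DVal E} {w : DVal K} {e : ℤ} (he : 0 < e)
    (hw : ∀ u : Eˣ, w.ord (um E K u) = e * v.ord u) (f : Eˣ) :
    w.IsOne (um E K f) ↔ v.IsOne f := by
  have inj : Function.Injective (um E K) := Units.map_injective (algebraMap E K).injective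
  constructor
  · rintro (h | ⟨u, hu, h1⟩)
    · left
      apply inj
      rw [h, map_one]
    · right
      have hne : (f : E) - 1 ≠ 0 := by
        intro h0
        apply u.ne_zero
        rw [← hu]
        show algebraMap E K (f : E) - 1 = 0
        rw [← map_one (algebraMap E K), ← map_sub, h0, map_zero]
      refine ⟨Units.mk0 _ hne, rfl, ?_⟩
      have e1 : u = um E K (Units.mk0 _ hne) := by
        apply Units.ext
        rw [← hu]
        show algebraMap E K (f : E) - 1 = algebraMap E K ((f : E) - 1)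
        rw [map_sub, map_one]
      rw [e1, hw] at h1
      by_contra h2
      have h3 : v.ord (Units.mk0 _ hne) ≤ 0 := by omega
      nlinarith
  · rintro (h | ⟨u, hu, h1⟩)
    · left
      rw [h, map_one]
    · right
      refine ⟨um E K u, ?_, ?_⟩
      · show algebraMap E K (f : E) - 1 = algebraMap E K (u : E)
        rw [← hu, map_sub, map_one]
      · rw [hw]
        nlinarith

/-- The class of a unit. -/
abbrev cl {F : Type} [Field F] (v : DVal F) (f : Fˣ) : Additive (Fˣ ⧸ v.U1) :=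
  Additive.ofMul (QuotientGroup.mk (s := v.U1) f)

theorem cl_eq_zero {F : Type} [Field F] (v : DVal F) (f : Fˣ) : cl v f = 0 ↔ v.IsOne f := by
  rw [← DVal.mem_U1, ← QuotientGroup.eq_one_iff]
  rfl

theorem nsmul_cl {F : Type} [Field F] (v : DVal F) (f : Fˣ) (n : ℕ) :
    n • cl v f = cl v (f ^ n) := rfl

theorem sign (e a b : ℤ) : ((-1 : Kˣ)) ^ (e * a * (e * b)) = ((-1 : Kˣ) ^ (a * b)) ^ e := by
  rw [← zpow_mul]
  rcases Int.even_or_odd e with h | h
  · rw [((h.mul_right a).mul_right (e * b)).neg_one_zpow, (h.mul_left (a * b)).neg_one_zpow]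
  · obtain ⟨m, hm⟩ := h
    have e1 : e * a * (e * b) = a * b * e + 2 * (m * (a * b * e)) := by
      have : e * a * (e * b) = a * b * e * e := by ring
      rw [this]
      nth_rewrite 2 [hm]
      ring
    rw [e1, zpow_add, (even_two_mul _).neg_one_zpow, mul_one]

theorem tameUnit_map {v : DVal E} {w : DVal K} {e : ℤ}
    (hw : ∀ u : Eˣ, w.ord (um E K u) = e * v.ord u) (f g : Eˣ) :
    w.tameUnit (um E K f) (um E K g) = (um E K (v.tameUnit f g)) ^ e := by
  have hneg : um E K (-1) = -1 := by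
    apply Units.ext
    show algebraMap E K (-1) = -1
    rw [map_neg, map_one]
  unfold DVal.tameUnit
  rw [hw, hw, map_mul, map_mul, map_zpow, map_zpow, map_zpow, hneg, mul_zpow, mul_zpow, sign,
    ← zpow_mul (um E K f), ← zpow_mul (um E K g), mul_comm e (v.ord g),
    show -(e * v.ord f) = -v.ord f * e by ring]

theorem k2_ind {p : K2 E → Prop} (h0 : p 0) (hs : ∀ f g : Eˣ, p (sym f g))
    (ha : ∀ a b, p a → p b → p (a + b)) (hn : ∀ a, p a → p (-a)) (a : K2 E) : p a := by
  obtain ⟨x, rfl⟩ := QuotientAddGroup.mk'_surjective (AddSubgroup.closure (relSet E)) a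
  induction x using FreeAbelianGroup.induction_on with
  | zero => exact h0
  | of z => exact hs z.1 z.2
  | neg z _ => exact hn _ (hs z.1 z.2)
  | add x y hx hy =>
    rw [map_add]
    exact ha _ _ hx hy

theorem tame_map {v : DVal E} {w : DVal K} {e : ℤ}
    (hw : ∀ u : Eˣ, w.ord (um E K u) = e * v.ord u) (β : K2 E) :
    ∃ f : Eˣ, tame v β = cl v f ∧ tame w (mk2 E K β) = cl w (um E K f ^ e) := by
  refine k2_ind (p := fun β => ∃ f : Eˣ, tame v β = cl v f ∧
    tame w (mk2 E K β) = cl w (um E K f ^ e)) ?_ ?_ ?_ ?_ β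
  · refine ⟨1, ?_, ?_⟩
    · rw [map_zero]; rfl
    · rw [map_zero, map_zero, map_one, one_zpow]; rfl
  · intro f g
    refine ⟨v.tameUnit f g, tame_sym v f g, ?_⟩
    rw [show mk2 E K (sym f g) = sym (um E K f) (um E K g) from ConstM.mapK_sym _ f g,
      tame_sym, tameUnit_map hw]
  · rintro a b ⟨f, h1, h2⟩ ⟨g, h3, h4⟩
    refine ⟨f * g, ?_, ?_⟩
    · rw [map_add, h1, h3]; rfl
    · rw [map_add, map_add, h2, h4, map_mul, mul_zpow]; rfl
  · rintro a ⟨f, h1, h2⟩
    refine ⟨f⁻¹, ?_, ?_⟩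
    · rw [map_neg, h1]; rfl
    · rw [map_neg, map_neg, h2, map_inv, inv_zpow]; rfl

end TMDM

open TMDM in
theorem specTMD (hPEX : SpecPEX) : SpecTMD := by
  intro k E K _ _ _ _ _ _ _ _ hfin β hβ v hv
  obtain ⟨w, e, he, hwk, hw⟩ := hPEX k E K hfin v hv
  obtain ⟨N, hN, h0⟩ := hβ w hwk
  obtain ⟨n, rfl⟩ := Int.eq_ofNat_of_zero_le he.le
  have hn : 0 < n := by exact_mod_cast he
  obtain ⟨f, h1, h2⟩ := tame_map hw β
  refine ⟨n * N, Nat.mul_pos hn hN, ?_⟩
  rw [h1, nsmul_cl, cl_eq_zero, ← isOne_iff he hw, map_pow, pow_mul, ← zpow_natCast _ n,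
    ← cl_eq_zero, ← nsmul_cl, ← h2, h0]

end MP743d1e.BD
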