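import Pool.Agent.Lib.MP_743d1e_nt.BD.SpecC

/-!
# Theorem BD, module UK2: transfer of relations in `K2` of an ultraproduct
-/

set_option autoImplicit false

namespace MP743d1e.BD

open scoped BigOperators
open Polynomial IntermediateField MP743d1e.CY MP743d1e.GX MP743d1e.Integ Filter

namespace UK2M

section Q

variable (U : Ultrafilter ℕ) (A : ℕ → Type) [∀ n, AddCommGroup (A n)]

/-- The sequences that are almost everywhere zero. -/
def NS : AddSubgroup (∀ n, A n) where
  carrier := {a | ∀ᶠ n in (U : Filter ℕ), a n = 0}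
  zero_mem' := Filter.Eventually.of_forall fun _ => rfl
  add_mem' := by
    intro a b ha hb
    filter_upwards [ha, hb] with n h1 h2
    rw [Pi.add_apply, h1, h2, add_zero]
  neg_mem' := by
    intro a ha
    filter_upwards [ha] with n h1
    rw [Pi.neg_apply, h1, neg_zero]

/-- The quotient. -/
abbrev Qt : Type := (∀ n, A n) ⧸ NS U A

variable {A} in
/-- The class. -/
def qm : (∀ n, A n) →+ Qt U A := QuotientAddGroup.mk' (NS U A)

variable {A} in
theorem qm_eq {a b : ∀ n, A n} : qm U a = qm U b ↔ ∀ᶠ n in (U : Filter ℕ), a n = b n := by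
  rw [← sub_eq_zero, ← map_sub]
  have h : qm U (a - b) = 0 ↔ a - b ∈ NS U A := QuotientAddGroup.eq_zero_iff _
  rw [h]
  constructor
  · intro h1
    have h2 : ∀ᶠ n in (U : Filter ℕ), (a - b) n = 0 := h1
    filter_upwards [h2] with n hn
    exact sub_eq_zero.1 hn
  · intro h1
    show ∀ᶠ n in (U : Filter ℕ), (a - b) n = 0
    filter_upwards [h1] with n hn
    rw [Pi.sub_apply, hn, sub_self]

theorem qm_surj : Function.Surjective (qm U (A := A)) := QuotientAddGroup.mk'_surjective _

end Q

section K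

variable (U : Ultrafilter ℕ) (X : ℕ → Type) [∀ n, Field (X n)]

variable {X} in
theorem exists_rep (F : (UP U X)ˣ) : ∃ f : ∀ n, (X n)ˣ,
    (F : UP U X) = UP.mk U (fun n => (f n : X n)) := by
  classical
  obtain ⟨x, hx⟩ := UP.mk_surj U X (F : UP U X)
  refine ⟨fun n => if h : x n = 0 then 1 else Units.mk0 (x n) h, ?_⟩
  rw [← hx, UP.mk_eq]
  have h0 : ¬ ∀ᶠ n in (U : Filter ℕ), x n = 0 := by
    intro h
    apply F.ne_zero
    rw [← hx, UP.mk_eq_zero]
    exact h
  have h1 : ∀ᶠ n in (U : Filter ℕ), x n ≠ 0 := Ultrafilter.eventually_not.2 h0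
  filter_upwards [h1] with n hn
  rw [dif_neg hn, Units.val_mk0]

variable {X} in
/-- A representing sequence of units. -/
noncomputable def rep (F : (UP U X)ˣ) : ∀ n, (X n)ˣ := (exists_rep U F).choose

variable {X} in
theorem rep_spec (F : (UP U X)ˣ) : (F : UP U X) = UP.mk U (fun n => (rep U F n : X n)) :=
  (exists_rep U F).choose_spec

variable {X} in
theorem units_ae {F : UP U X} {f g : ∀ n, (X n)ˣ} (hf : F = UP.mk U (fun n => (f n : X n)))
    (hg : F = UP.mk U (fun n => (g n : X n))) : ∀ᶠ n in (U : Filter ℕ), f n = g n := by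
  have h := hf.symm.trans hg
  rw [UP.mk_eq] at h
  filter_upwards [h] with n hn
  exact Units.ext hn

variable {X} in
theorem mk_mul (f g : ∀ n, (X n)ˣ) : UP.mk U (fun n => (f n : X n)) * UP.mk U (fun n => (g n : X n))
    = UP.mk U (fun n => ((f n * g n : (X n)ˣ) : X n)) := by
  rw [← map_mul]
  rfl

/-- The homomorphism to the ultraproduct of the groups `K2`. -/
noncomputable def psi : K2 (UP U X) →+ Qt U (fun n => K2 (X n)) :=
  K2.lift (fun F G => qm U (fun n => sym (rep U F n) (rep U G n)))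
    (by
      intro f f' g
      rw [← map_add, qm_eq]
      have h1 : ((f * f' : (UP U X)ˣ) : UP U X) =
          UP.mk U (fun n => ((rep U f n * rep U f' n : (X n)ˣ) : X n)) := by
        rw [← mk_mul, ← rep_spec, ← rep_spec, Units.val_mul]
      filter_upwards [units_ae U (rep_spec U (f * f')) h1] with n hn
      rw [hn, ConstM.sym_mul_left]
      rfl)
    (by
      intro f g g'
      rw [← map_add, qm_eq]
      have h1 : ((g * g' : (UP U X)ˣ) : UP U X) =
          UP.mk U (fun n => ((rep U g n * rep U g' n : (X n)ˣ) : X n)) := by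
        rw [← mk_mul, ← rep_spec, ← rep_spec, Units.val_mul]
      filter_upwards [units_ae U (rep_spec U (g * g')) h1] with n hn
      rw [hn, ConstM.sym_mul_right]
      rfl)
    (by
      intro f g hfg
      have h0 : (qm U (0 : ∀ n, K2 (X n)) : Qt U (fun n => K2 (X n))) = 0 := map_zero _
      rw [← h0, qm_eq]
      rw [rep_spec U f, rep_spec U g, ← map_add, ← map_one (UP.mk U (X := X)), UP.mk_eq] at hfg
      filter_upwards [hfg] with n hn
      exact ConstM.sym_steinberg _ _ hn)

variable {X} in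
theorem psi_sym {F G : (UP U X)ˣ} {f g : ∀ n, (X n)ˣ}
    (hf : (F : UP U X) = UP.mk U (fun n => (f n : X n)))
    (hg : (G : UP U X) = UP.mk U (fun n => (g n : X n))) :
    psi U X (sym F G) = qm U (fun n => sym (f n) (g n)) := by
  have h1 : psi U X (sym F G) = qm U (fun n => sym (rep U F n) (rep U G n)) := K2.lift_sym _ _ _ _ F G
  rw [h1, qm_eq]
  filter_upwards [units_ae U (rep_spec U F) hf, units_ae U (rep_spec U G) hg] with n h2 h3
  rw [h2, h3]

variable {X} (Y : ℕ → Type) [∀ n, Field (Y n)] [∀ n, Algebra (X n) (Y n)]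

/-- The ultraproduct of the maps `mk2`. -/
noncomputable def mq : Qt U (fun n => K2 (X n)) →+ Qt U (fun n => K2 (Y n)) :=
  QuotientAddGroup.map (NS U (fun n => K2 (X n))) (NS U (fun n => K2 (Y n)))
    (AddMonoidHom.mk' (fun a n => mk2 (X n) (Y n) (a n)) (by
      intro a b
      funext n
      exact map_add _ _ _)) (by
      intro a ha
      have h1 : ∀ᶠ n in (U : Filter ℕ), a n = 0 := ha
      show ∀ᶠ n in (U : Filter ℕ), mk2 (X n) (Y n) (a n) = 0
      filter_upwards [h1] with n hn
      rw [hn, map_zero])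

theorem mq_qm (a : ∀ n, K2 (X n)) : mq U Y (qm U a) = qm U (fun n => mk2 (X n) (Y n) (a n)) := rfl

theorem psi_mk2 (γ : K2 (UP U X)) : psi U Y (mk2 (UP U X) (UP U Y) γ) = mq U Y (psi U X γ) := by
  have h : (psi U Y).comp (mk2 (UP U X) (UP U Y)) = (mq U Y).comp (psi U X) := by
    refine K2.hom_ext (A := Qt U fun n => K2 (Y n)) fun F G => ?_
    rw [AddMonoidHom.comp_apply, AddMonoidHom.comp_apply]
    have h1 : mk2 (UP U X) (UP U Y) (sym F G) = sym (um (UP U X) (UP U Y) F) (um (UP U X) (UP U Y) G) :=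
      ConstM.mapK_sym _ F G
    rw [h1, psi_sym U (rep_spec U F) (rep_spec U G), mq_qm]
    have h2 : ∀ H : (UP U X)ˣ, ((um (UP U X) (UP U Y) H : (UP U Y)ˣ) : UP U Y) =
        UP.mk U (fun n => ((um (X n) (Y n) (rep U H n) : (Y n)ˣ) : Y n)) := by
      intro H
      have h3 : ((um (UP U X) (UP U Y) H : (UP U Y)ˣ) : UP U Y) = algebraMap (UP U X) (UP U Y) H := rfl
      rw [h3, rep_spec U H, UP.algebraMap_mk]
      rfl
    rw [psi_sym U (h2 F) (h2 G)]
    rfl
  exact DFunLike.congr_fun h γ

end K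

end UK2M

open UK2M in
/-- module UK2 -/
theorem specUK2 : SpecUK2 := by
  intro U k K _ _ _ m f g f' g' F G F' G' hF hG hF' hG' ⟨γ, hγ⟩
  obtain ⟨c, hc⟩ := qm_surj U (fun n => K2 (k n)) (psi U k γ)
  have h1 := congrArg (psi U K) hγ
  rw [psi_mk2, ← hc, mq_qm, map_nsmul, map_sub, psi_sym U hF hG, psi_sym U hF' hG', ← map_sub,
    ← map_nsmul, qm_eq] at h1
  filter_upwards [h1] with n hn
  exact ⟨c n, hn⟩

end MP743d1e.BD
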