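import Pool.Agent.Lib.MP_743d1e_nt.BD.Defs

/-!
# Theorem BD: modules, part A (places, Laurent series, derivations, mini Riemann-Roch, quadratic extensions)

Module `XXX` = `BD/XXX.lean`, theorem `MP743d1e.BD.specXXX : SpecXXX`, auxiliary lemmas in the
namespace `MP743d1e.BD.XXXM`. Dependencies are hypotheses: `theorem specXXX (h1 : SpecYYY) : SpecXXX`,
in the order of the list Deps of the docstring.

In `Defs.lean`: `fdx` (a function field is finite over `k⟮y⟯`, `y` transcendental) and `con` (`k` algebraically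
closed: every element is transcendental or in `k`). In the library: `CY/FNV.lean` (`specFNV`: a nonconstant
function has finitely many zeros, and at least one; `FNVM.nn_of_isIntegral`, `nn_adjoin`, `nn_const`, `vsub`,
`eq_dval`, `pr`), `PlaceQ.lean` (`PlaceQ.dval`), `Integ.lean` (`NN`, `Pos`), `Basic.lean` (`DVal`, `K2.lift`,
`K2.hom_ext`, `tame_sym`), `Const.lean` (`sym_mul_left`, `mapK_sym`), `CY/MIL.lean` (`mil`), `Der.lean`.
`CharZero K` follows from `CharZero k` (`charZero_of_injective_algebraMap`).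
-/

set_option autoImplicit false

namespace MP743d1e.BD

open scoped BigOperators
open Polynomial IntermediateField MP743d1e.CY MP743d1e.GX MP743d1e.Integ Filter

/-! ## Places -/

/-- RES. Residues are constants. Deps: none.

Proof. If `u` is constant it is its own residue. Otherwise `K` is finite over `k⟮u⟯` (`fdx`). `v` is nonnegative on
`A = Algebra.adjoin k {u}`; if `v` had order zero on all nonzero elements of `A` it would be trivial on
`k⟮u⟯` and (`nn_of_isIntegral` for `x` and `x⁻¹`) on `K`, but `v` is surjective. So `Pos v (aeval u p)` for some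
`p ≠ 0`; `p` splits: `Pos v (u - c)` for a root `c`. -/
def SpecRES : Prop := ∀ (k K : Type) [Field k] [Field K] [Algebra k K] [IsAlgClosed k],
  Fun1 k K → ∀ v : DVal K, GeoF k v → ∀ u : K, NN v u → ∃ c : k, Pos v (u - algebraMap k K c)

/-- ARC. The expansion at a place. Deps: RES.

Proof. For every `x : K` and `N : ℕ` there is a finite sum `p = ∑_{-M ≤ i < N} c_i ϖ^i` with `v (x - p) ≥ N` (RES
repeatedly, after multiplication by a power of `ϖ`), and the `c_i` are unique (`v (∑ c_i ϖ^i)` is the least `i` with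
`c_i ≠ 0`, as `GeoF`). So there is a unique Laurent series `a = ι x` such that for all `N` its truncation `p_N`
has `GE v N (x - p_N(ϖ))`. The set of pairs `(x, a)` such that for all `N` there is a Laurent polynomial `p` with
`GE v N (x - p(ϖ))` and `a - p` without coefficients below `N` is closed under sums and products, so `ι` is a ring
homomorphism. -/
def SpecARC : Prop := ∀ (k K : Type) [Field k] [Field K] [Algebra k K] [IsAlgClosed k],
  Fun1 k K → ∀ v : DVal K, GeoF k v → ∀ ϖ : Kˣ, v.ord ϖ = 1 →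
    ∃ ι : K →+* LaurentSeries k, IsOver k ι ∧ ι (ϖ : K) = sv k ∧
      ∀ u : Kˣ, (ι (u : K)).order = v.ord u

/-- AV. The order of an embedding into a field of Laurent series. Deps: none.

Proof. First part: `u ↦ (j u).order` is a homomorphism (`HahnSeries.order_mul`), its image is `eℤ`, `e ≥ 0`. If `e = 0`
the orders are zero; otherwise divide by `e`. Constants have order zero. Second part: `c` = the constant coefficient
of `j x`; if `x ≠ c` then `j (x - c) ≠ 0` has positive order. -/
def SpecAV : Prop :=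
  (∀ (k K κ : Type) [Field k] [Field K] [Field κ] [Algebra k K] [Algebra k κ]
    (j : K →+* LaurentSeries κ), IsOver k j →
    (∀ u : Kˣ, (j (u : K)).order = 0) ∨
      ∃ (v : DVal K) (e : ℤ), 0 < e ∧ GeoF k v ∧ ∀ u : Kˣ, (j (u : K)).order = e * v.ord u) ∧
  ∀ (k K : Type) [Field k] [Field K] [Algebra k K] (j : K →+* LaurentSeries k), IsOver k j →
    (∀ u : Kˣ, (j (u : K)).order = 0) → ∀ x : K, ∃ c : k, algebraMap k K c = x

/-- PEX. Places extend to finite extensions. Deps: none.

Proof. `O = {u | NN v u}` (a `ValuationSubring`, `FNVM.vsub`) is a discrete valuation ring (it is principal: an ideal is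
generated by an element of least order), in particular Dedekind; `B = integralClosure O K` is Dedekind
(`IsIntegralClosure.isDedekindDomain`, `K / E` separable) with fraction field `K`; take a prime of `B` above the
maximal ideal (`exists_max_ideal_of_mem_nonunits` for the image of a uniformizer, as in `CY/FNV.lean`), `w = PlaceQ.dval` of
it, `e = w ϖ > 0`, units of `O` have order zero. -/
def SpecPEX : Prop := ∀ (k E K : Type) [Field k] [Field E] [Field K] [Algebra k E] [Algebra k K]
  [Algebra E K] [IsScalarTower k E K] [CharZero E], FiniteDimensional E K →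
  ∀ v : DVal E, GeoF k v → ∃ (w : DVal K) (e : ℤ), 0 < e ∧ GeoF k w ∧
    ∀ u : Eˣ, w.ord (Units.map (algebraMap E K : E →* K) u) = e * v.ord u

/-- VDG. The order of a function is at most its degree. Deps: none.

Proof. `f` constant: the order is zero. Otherwise let `v f = ± e`, `e > 0`, `v ϖ = 1`. The orders of the nonzero elements of
`k⟮f⟯` are multiples of `e` (`v (p(f)) = ± e * (order of p at zero, or degree)`). So `1, ϖ, .., ϖ^(e-1)` are linearly
independent over `k⟮f⟯`: the orders of the terms are different modulo `e`. -/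
def SpecVDG : Prop := ∀ (k K : Type) [Field k] [Field K] [Algebra k K], Fun1 k K →
  ∀ v : DVal K, GeoF k v → ∀ f : Kˣ,
    |v.ord f| ≤ (Module.finrank k⟮(f : K)⟯ K : ℤ)

/-- INC. Functions without poles are integral. Deps: RES.

Proof. (a) `A = Algebra.adjoin k {x}`, `B = integralClosure A K` is Dedekind with fraction field `K` (`CY/FNV.lean`), for
each prime `P` of `B` the place `PlaceQ.dval P` is over `k` and `NN` on `B`; by hypothesis `w` is integral at all
primes, so it is in `B` (`IsDedekindDomain.HeightOneSpectrum.mem_integers_of_valuation_le_one`). (b) `w ≠ 0`. The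
poles of `w` are the zeros of `1 / w`, finitely many (`specFNV`); at each pole `v` with `NN v x` the residue `c_v` of
`x` (`RES`) is not `c`; take for `q` a product of powers of the `X - c_v`, and (a) for `q(x) w`. If `w` is a
constant: `q = 1`. -/
def SpecINC : Prop := ∀ (k K : Type) [Field k] [Field K] [Algebra k K] [IsAlgClosed k] [CharZero k],
  Fun1 k K → ∀ x : K, Transcendental k x →
    (∀ w : K, RR k x w → IsIntegral (Algebra.adjoin k ({x} : Set K)) w) ∧
    ∀ (w : K) (c : k), RC k x c w → ∃ q : k[X], q.eval c ≠ 0 ∧ RR k x (aeval x q * w) ∧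
      IsIntegral (Algebra.adjoin k ({x} : Set K)) (aeval x q * w)

/-- MPB. The primitive minimal polynomial. Deps: none.

Proof. `x` transcendental: `k[X] ≃ Algebra.adjoin k {x}`. The kernel of `Q ↦ evF x w Q` is a prime ideal of
`k[X][X]` without constants `≠ 0` of `k[X]`. `P` = the primitive part of the polynomial obtained from
`minpoly k⟮x⟯ w` by clearing denominators, Gauss's lemma
(`Polynomial.IsPrimitive.dvd_iff_fraction_map_dvd_fraction_map` or so, for `RatFunc k`). -/
def SpecMPB : Prop := ∀ (k K : Type) [Field k] [Field K] [Algebra k K] (x w : K),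
  Transcendental k x → IsAlgebraic k⟮x⟯ w →
    ∃ P : k[X][X], P ≠ 0 ∧ evF x w P = 0 ∧ P.natDegree = (minpoly k⟮x⟯ w).natDegree ∧
      ∀ Q : k[X][X], evF x w Q = 0 → P ∣ Q

/-- BDV. Degrees of divisors. Deps: none.

Proof. `natDegree` is additive; the same for the other variable (`Polynomial.Bivariate.swap`). -/
def SpecBDV : Prop := ∀ (k : Type) [Field k] (A B : ℕ) (P Q : k[X][X]), Q ≠ 0 → P ∣ Q →
  BiDeg A B Q → BiDeg A B P

/-- BID. An equation between two functions of degree at most `d`. Deps: MPB, BDV.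

Proof. `P` = MPB for `(x, z)`, of degree `[k(x)(z) : k(x)] ≤ [K : k(x)] ≤ d` in `Y`; `P'` = MPB for `(z, x)`; `swap P'`
vanishes at `(x, z)`, so `P ∣ swap P'`, and the degree of `P` in the first variable is at most the degree of `P'` in
`Y`, which is at most `[K : k(z)] ≤ d`. -/
def SpecBID : Prop := ∀ (k K : Type) [Field k] [Field K] [Algebra k K], Fun1 k K →
  ∀ (d : ℕ) (x z : K), Transcendental k x → Transcendental k z → DegLE k d x → DegLE k d z →
    ∃ P : k[X][X], P ≠ 0 ∧ evF x z P = 0 ∧ BiDeg d d P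

/-- ING. A function `w` without poles at the zeros of `x` satisfies an equation with bounded degrees, whose
leading coefficient does not vanish at `0`. Deps: INC, MPB, BDV.

Proof. INC (b) with `c = 0`: `q(x) w` is integral over `k[x]`, so `evF x w P₁ = 0` with `P₁` of leading coefficient `q ^ r`.
Let `P` be the polynomial of MPB for `(x, w)`. `P ∣ P₁`, so the leading coefficient of `P` divides `q ^ r` and does not
vanish at `0`; divide by the constant. `P ∣ Q`: BDV. -/
def SpecING : Prop := ∀ (k K : Type) [Field k] [Field K] [Algebra k K] [IsAlgClosed k] [CharZero k],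
  Fun1 k K → ∀ (x w : K) (A B : ℕ) (Q : k[X][X]), Transcendental k x → RC k x 0 w → Q ≠ 0 →
    evF x w Q = 0 → BiDeg A B Q →
    ∃ P : k[X][X], evF x w P = 0 ∧ BiDeg A B P ∧ P.leadingCoeff.coeff 0 = 1

/-- BDF. Bounded degrees. Deps: none.

Proof. Take `α` of maximal degree over `F`; for `β` in `E` the field `F⟮α, β⟯` is generated by one element (primitive
element theorem), so it is `F⟮α⟯`. Hence `E = F⟮α⟯`. -/
def SpecBDF : Prop := ∀ (F E : Type) [Field F] [Field E] [Algebra F E] [CharZero F] (r : ℕ),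
  (∀ α : E, IsAlgebraic F α ∧ (minpoly F α).natDegree ≤ r) →
    FiniteDimensional F E ∧ Module.finrank F E ≤ r

/-! ## Approximation and the mini Riemann-Roch theorem -/

/-- APX. Two different places. Deps: none.

Proof. If `NN A u` implied `NN B u` then `Pos B` would be a prime ideal in the discrete valuation ring of `A`, so units of
`A` are units of `B` and `B.ord = m * A.ord`, `m = 1` by surjectivity. So there are `a` with `0 ≤ A a`, `B a < 0` and `b`
with `0 ≤ B b`, `A b < 0`; `u = a / b` has `A u > 0`, `B u < 0`, and `u / (1 + u)` is as required. -/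
def SpecAPX : Prop := ∀ (K : Type) [Field K] (A B : DVal K), A ≠ B →
  ∃ u : Kˣ, 0 < A.ord u ∧ B.ord u = 0

/-- CRT. Approximation at finitely many places. Deps: APX.

Proof. First there is `z` with `v z < 0` and `v' z > 0` for all `v'` in `S`, by induction on `S`: `z` for `S`, `v₁` a new place,
`y` with `v y < 0`, `v₁ y > 0` (APX twice: `y = w' / w` with `v w > 0`, `v₁ w = 0`, `v₁ w' > 0`, `v w' = 0`). If `v₁ z ≥ 0` take
`z ^ m * y`, otherwise `z ^ m / (1 + z ^ m) * y`, `m` large. Then `u = z ^ m / (1 + z ^ m)` with `m` large: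
`v (u - 1) = - m v z`, `v' u = m v' z`. -/
def SpecCRT : Prop := ∀ (K : Type) [Field K] (v : DVal K) (S : Finset (DVal K)) (N : ℤ), v ∉ S →
  ∃ u : K, GE v N (u - 1) ∧ ∀ v' ∈ S, GE v' N u

/-- IDT. The trace of an element that is idempotent modulo `x - c`. Deps: INC.

Proof. `A` = the local ring of `k⟮x⟯` at `x = c` (e.g. the valuation ring, or the localization of
`Algebra.adjoin k {x}`), a discrete valuation ring; `S = {w | RC k x c w}` is the integral closure of `A` in `K`
(INC (b) and `nn_of_isIntegral`), a free `A`-module of rank `[K : k(x)]`; the trace of `u` in `A / (x - c) = k` is the trace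
of the multiplication by `u` on `S / (x - c) S` (`Algebra.trace_quotient_mk` or so), which is an idempotent
(`(u ^ 2 - u) / (x - c)` is in `S`), so it is the dimension of its image (`LinearMap.IsProj.trace`), not zero
because `u / (x - c)` is not in `S`. -/
def SpecIDT : Prop := ∀ (k K : Type) [Field k] [Field K] [Algebra k K] [IsAlgClosed k] [CharZero k],
  Fun1 k K → ∀ (x : K) (c : k) (u : K), Transcendental k x → RC k x c u →
    RC k x c ((u ^ 2 - u) / (x - algebraMap k K c)) → ¬ RC k x c (u / (x - algebraMap k K c)) →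
    ¬ RegX k x c ((algebraMap k⟮x⟯ K (Algebra.trace k⟮x⟯ K u)) / (x - algebraMap k K c))

/-- LOC. Local trace criterion for regularity. Deps: ARC, AV, CRT, IDT, LSD.

Proof. `v` = the place of the unramified arc `ι` (AV: the orders are `v.ord`, as `ι ϖ = s`; they are not all zero),
`e = v (x - c) > 0`, the order of `dS (ι x)` is `e - 1`. If the claim is false then `v h ≤ -e`. `S` = the other
zeros of `x - c` (`specFNV`). CRT: `u` with `GE v N (u - 1)`, `GE v' N u` for the `v'` in `S`, `N` large. `q = u / ((x - c) h)`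
has `RC k x c q`, so by hypothesis the trace of `h q = u / (x - c)`, which is `Tr u / (x - c)`, is regular at `c`.
But `u` satisfies the hypotheses of IDT: contradiction. -/
def SpecLOC : Prop := ∀ (k K : Type) [Field k] [Field K] [Algebra k K] [IsAlgClosed k] [CharZero k],
  Fun1 k K → ∀ (x : K) (c : k) (h : K), Transcendental k x →
    (∀ r : K, RC k x c r → RegX k x c (algebraMap k⟮x⟯ K (Algebra.trace k⟮x⟯ K (h * r)))) →
    ∀ ι : K →+* LaurentSeries k, IsOver k ι → IsUnr ι → IsM (ι (x - algebraMap k K c)) →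
      IsO (ι h * dS (ι x))

/-- TRG. Trace criterion for regularity. Deps: RES, AV, INC, LOC, LSD.

Proof. Let `ι` be an unramified arc, `v` its place. If `NN v x` let `c` be the residue (RES): LOC for `(x, c, h)`: if `RC k x c r`,
INC (b) gives `q` with `q(c) ≠ 0`, `RR k x (q(x) r)`, so `q(x) Tr (h r)` is a polynomial. If not, LOC for
`(x⁻¹, 0, - h * x ^ 2)` (`k⟮x⁻¹⟯ = k⟮x⟯`, the traces are equal): `RC k x⁻¹ 0 r` is `RI k x r`, and
`DegX k x (-2) (Tr (h r))` means that `x ^ 2 * Tr (h r)` is regular at `x⁻¹ = 0`;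
`dS (ι x⁻¹) = - dS (ι x) / (ι x) ^ 2`. -/
def SpecTRG : Prop := ∀ (k K : Type) [Field k] [Field K] [Algebra k K] [IsAlgClosed k] [CharZero k],
  Fun1 k K → ∀ x h : K, Transcendental k x →
    (∀ r : K, RR k x r → ∃ p : k[X],
      algebraMap k⟮x⟯ K (Algebra.trace k⟮x⟯ K (h * r)) = aeval x p) →
    (∀ r : K, RI k x r → DegX k x (-2) (algebraMap k⟮x⟯ K (Algebra.trace k⟮x⟯ K (h * r)))) →
    IsRegD k x h

/-- RED. A reduced basis. Deps: INC.

Proof. `R = {h | RR k x h}` is the integral closure of `Algebra.adjoin k {x} ≅ k[X]` (INC (a), `nn_of_isIntegral`), a free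
module of rank `n = [K : k(x)]` (`IsIntegralClosure.module_free`, principal ideal domain), and a basis of `R` is a basis
of `K` over `k⟮x⟯`. For `y ≠ 0` let `deg y` be the least `m : ℤ` with `RI k x (y / x ^ m)`; for `y ∈ R`, `y ≠ 0` it is
`≥ 0` (otherwise `x y` has no poles, so it is constant, and `y` has a zero but no pole, `specFNV`). Choose a basis
`e` of `R` with minimal `∑ deg e_i`, `a i = deg e_i`. Claim (*): if `RI k x (x * ∑ c_i x ^ (-a i) e_i)` with `c_i ∈ k` then all
`c_i = 0`. Otherwise let `c_j ≠ 0` with `a j` maximal: `e_j' = ∑ c_i x ^ (a j - a i) e_i` has smaller degree and can replace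
`e_j`. Let `h = ∑ φ_i e_i`, `RI k x h`, and suppose `μ = max (deg φ_i + a i) > 0`, `c_i` = the coefficient of
`x ^ (μ - a i)` in the expansion of `φ_i` at infinity; then `x ^ (-μ) h - ∑ c_i x ^ (-a i) e_i = x⁻¹ * (RI element)`, contradiction to
(*). The converse is clear: `DegX k x 0 ψ` implies `RI k x ψ`. -/
def SpecRED : Prop := ∀ (k K : Type) [Field k] [Field K] [Algebra k K] [IsAlgClosed k] [CharZero k],
  Fun1 k K → ∀ x : K, Transcendental k x →
    ∃ (n : ℕ) (b : Module.Basis (Fin n) k⟮x⟯ K) (a : Fin n → ℤ),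
      (∀ h : K, RR k x h ↔ ∀ i, ∃ p : k[X], algebraMap k⟮x⟯ K (b.repr h i) = aeval x p) ∧
      ∀ h : K, RI k x h ↔ ∀ i, DegX k x (-(a i)) (algebraMap k⟮x⟯ K (b.repr h i))

/-- DIF. The regular differentials given by a reduced basis. Deps: TRG.

Proof. `b'` = the dual basis for the trace form (`Algebra.traceForm_nondegenerate`, `LinearMap.BilinForm.dualBasis`):
`Tr (b'_i * r) = b.repr r i`. TRG for `h = x ^ l * b'_i`: `Tr (h r) = x ^ l * (b.repr r i)`, for `RR k x r` a polynomial, for
`RI k x r` of degree at most `l - a i ≤ -2`. -/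
def SpecDIF : Prop := ∀ (k K : Type) [Field k] [Field K] [Algebra k K] [IsAlgClosed k] [CharZero k],
  Fun1 k K → ∀ x : K, Transcendental k x →
    ∀ (n : ℕ) (b : Module.Basis (Fin n) k⟮x⟯ K) (a : Fin n → ℤ),
      (∀ h : K, RR k x h ↔ ∀ i, ∃ p : k[X], algebraMap k⟮x⟯ K (b.repr h i) = aeval x p) →
      (∀ h : K, RI k x h ↔ ∀ i, DegX k x (-(a i)) (algebraMap k⟮x⟯ K (b.repr h i))) →
      ∃ b' : Module.Basis (Fin n) k⟮x⟯ K, ∀ (i : Fin n) (l : ℕ), (l : ℤ) + 2 ≤ a i →
        IsRegD k x (x ^ l * b' i)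

/-- UPA. A function with a simple pole at `A`. Deps: RES, CRT.

Proof. `c` = the residue of `x` at `A`, `S` = the other zeros of `x - c` (`specFNV`), `ϖ` with `A ϖ = 1`; CRT: `u` with
`GE A 1 (u - 1)`, `GE v N u` for `v` in `S`, `N` large, so `u / ϖ` has order `-1` at `A` and no poles in `S`. Its other
poles with `NN v x` are finitely many and have `Pos v (x - c_v)`, `c_v ≠ c`: multiply by `∏ (x - c_v) ^ N`. -/
def SpecUPA : Prop := ∀ (k K : Type) [Field k] [Field K] [Algebra k K] [IsAlgClosed k] [CharZero k],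
  Fun1 k K → ∀ (x : K) (A : DVal K), Transcendental k x → GeoF k A → NN A x →
    ∃ u : Kˣ, A.ord u = -1 ∧ ∀ v : DVal K, GeoF k v → NN v x → v ≠ A → NN v (u : K)

/-- RDP. Reduction modulo `R`. Deps: UPA.

Proof. `u` from UPA, `u = ∑ φ_i b_i`, `φ_i = p_i + ψ_i` (division with remainder), `p_i` a polynomial, `deg ψ_i < 0`. Take
`u' = ∑ ψ_i b_i = u - ∑ p_i b_i`; the sum `∑ p_i b_i` satisfies `RR`. -/
def SpecRDP : Prop := ∀ (k K : Type) [Field k] [Field K] [Algebra k K] [IsAlgClosed k] [CharZero k],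
  Fun1 k K → ∀ x : K, Transcendental k x → ∀ (n : ℕ) (b : Module.Basis (Fin n) k⟮x⟯ K),
    (∀ h : K, RR k x h ↔ ∀ i, ∃ p : k[X], algebraMap k⟮x⟯ K (b.repr h i) = aeval x p) →
    ∀ A : DVal K, GeoF k A → NN A x →
      ∃ u : Kˣ, A.ord u = -1 ∧ (∀ v : DVal K, GeoF k v → NN v x → v ≠ A → NN v (u : K)) ∧
        ∀ i, DegX k x (-1) (algebraMap k⟮x⟯ K (b.repr (u : K) i))

/-- DGP. The degree of a function with at most two simple poles. Deps: RES, INC.

Proof. `y = τ⁻¹`, `A₀ = Algebra.adjoin k {y}`, `B₀` its integral closure, Dedekind; `∑ e_P f_P = [K : k(y)] = [K : k(τ)]` over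
the primes `P` of `B₀` above `y` (`Ideal.sum_ramification_inertia`), `f_P = 1` (`RES`, `k` algebraically closed),
`e_P = ord_P y = 1`, and the places `PlaceQ.dval P` are poles of `τ`, so they are `A` or `B`. (Or directly:
`B₀ / (y)` has dimension `[K : k(y)]` over `k`, and it embeds into `k × k` by the residues at `A` and `B`: an element
of `B₀` with residues zero is divisible by `y`, INC (b) or (a).) In the second part there is only one place. -/
def SpecDGP : Prop := ∀ (k K : Type) [Field k] [Field K] [Algebra k K] [IsAlgClosed k] [CharZero k],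
  Fun1 k K → ∀ (τ : K) (A B : DVal K), Transcendental k τ → GeoF k A → GeoF k B →
    (∀ v : DVal K, GeoF k v → v ≠ A → v ≠ B → NN v τ) → GE A (-1) τ → GE B (-1) τ →
    Module.finrank k⟮τ⟯ K ≤ 2 ∧ ((A = B ∨ NN A τ ∨ NN B τ) → Module.finrank k⟮τ⟯ K ≤ 1)

/-- CHD. Change of the variable. Deps: DUQ, LSD.

Proof. `dS ∘ ι` and `y ↦ ι (δ y) * dS (ι x)` are derivations along `ι` that agree on `k` and at `x`. So
`dS (ι z) = ι (δ z) * dS (ι x)`. -/
def SpecCHD : Prop := ∀ (k K : Type) [Field k] [Field K] [Algebra k K] [CharZero k],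
  Fun1 k K → ∀ (x z h : K) (δ : Derivation ℤ K K), Transcendental k x →
    (∀ c : k, δ (algebraMap k K c) = 0) → δ x = 1 →
    (∀ ι : K →+* LaurentSeries k, IsOver k ι → dS (ι z) = ι (δ z) * dS (ι x)) ∧
    (IsRegD k z h ↔ IsRegD k x (h * δ z))

/-- RRL. The mini Riemann-Roch theorem. Deps: RES, RED, DIF, RDP, DGP, CHD, DR0.

Proof. (i) `K` has a place `A` (`specFNV`), let `x` be transcendental with `NN A x` (`x` or `x⁻¹`). By CHD (`δ` from DR0 for
`(k, K, x)`, `δ z ≠ 0` since `z` is transcendental) the only regular `h dx` is zero. RED, DIF: all `a i ≤ 1`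
(`l = 0`). RDP: `u` with `DegX (-1) ≤ -a i`, so `RI k x u`: `u` has exactly one pole, which is simple; DGP with
`A = B`: `[K : k(u)] ≤ 1`. (ii) `x = 1 / (x' - c)` with `c ∈ k` avoiding the residues of `x'` at `A`, `B` (`x'` or `1 / x'`), so
`NN A x`, `NN B x`. By CHD any two regular `h dx` are proportional. By DIF at most one pair `(i, l)` with
`l + 2 ≤ a i`, so `a i ≤ 2` and `a i = 2` for at most one `i = i₀`. `u_A`, `u_B` from RDP, `α`, `β` the coefficients of
`x⁻¹` in the expansion at infinity of their `i₀`-th coordinates; `τ = β u_A - α u_B`, or `u_A` if `α = 0`, or `u_B` if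
`β = 0`: the `i₀`-th coordinate of `τ` has `DegX (-2)`, so `RI k x τ`; `τ` has a pole (at `A` or `B`), so it is
transcendental. -/
def SpecRRL : Prop := ∀ (k K : Type) [Field k] [Field K] [Algebra k K] [IsAlgClosed k] [CharZero k],
  Fun1 k K → ∀ z : K, Transcendental k z →
    ((∀ h : K, IsRegD k z h → h = 0) → ∃ τ : K, Transcendental k τ ∧ k⟮τ⟯ = ⊤) ∧
    ((∀ h h' : K, IsRegD k z h → IsRegD k z h' →
        ∃ a b : k, (a ≠ 0 ∨ b ≠ 0) ∧ algebraMap k K a * h + algebraMap k K b * h' = 0) →
      ∀ A B : DVal K, GeoF k A → GeoF k B → A ≠ B →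
        ∃ τ : K, Transcendental k τ ∧ (∀ v : DVal K, GeoF k v → v ≠ A → v ≠ B → NN v τ) ∧
          GE A (-1) τ ∧ GE B (-1) τ)

/-! ## Laurent series -/

/-- The facts about Laurent series. -/
structure LSF (κ : Type) [Field κ] : Prop where
  o_add : ∀ a b : LaurentSeries κ, IsO a → IsO b → IsO (a + b)
  o_mul : ∀ a b : LaurentSeries κ, IsO a → IsO b → IsO (a * b)
  o_C : ∀ c : κ, IsO (HahnSeries.C c : LaurentSeries κ)
  m_add : ∀ a b : LaurentSeries κ, IsM a → IsM b → IsM (a + b)
  m_mul : ∀ a b : LaurentSeries κ, IsM a → IsO b → IsM (a * b)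
  m_o : ∀ a : LaurentSeries κ, IsM a → IsO a
  o_iff : ∀ a : LaurentSeries κ, a ≠ 0 → (IsO a ↔ 0 ≤ a.order)
  m_iff : ∀ a : LaurentSeries κ, a ≠ 0 → (IsM a ↔ 0 < a.order)
  o_sub : ∀ a : LaurentSeries κ, IsO a → IsM (a - HahnSeries.C (a.coeff 0))
  m_sv : IsM (sv κ)
  not_m : ∀ c : κ, IsM (HahnSeries.C c : LaurentSeries κ) → c = 0
  coeff_mul : ∀ a b : LaurentSeries κ, IsO a → IsO b → (a * b).coeff 0 = a.coeff 0 * b.coeff 0
  d_along : AlongD (RingHom.id (LaurentSeries κ)) dS
  d_C : ∀ c : κ, dS (HahnSeries.C c : LaurentSeries κ) = 0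
  d_sv : dS (sv κ) = 1
  d_o : ∀ a : LaurentSeries κ, IsO a → IsO (dS a)
  d_log : ∀ a : LaurentSeries κ, a ≠ 0 → IsO (sv κ * (dS a / a)) ∧
    (sv κ * (dS a / a)).coeff 0 = (a.order : κ)
  c_along : ∀ δ : Derivation ℤ κ κ, AlongD (RingHom.id (LaurentSeries κ)) (cS δ)
  c_C : ∀ (δ : Derivation ℤ κ κ) (c : κ), cS δ (HahnSeries.C c : LaurentSeries κ) = HahnSeries.C (δ c)
  c_sv : ∀ δ : Derivation ℤ κ κ, cS δ (sv κ) = 0
  c_o : ∀ (δ : Derivation ℤ κ κ) (a : LaurentSeries κ), IsO a → IsO (cS δ a)
  c_m : ∀ (δ : Derivation ℤ κ κ) (a : LaurentSeries κ), IsM a → IsM (cS δ a)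
  c_log : ∀ (δ : Derivation ℤ κ κ) (a : LaurentSeries κ), a ≠ 0 → IsO (cS δ a / a) ∧
    (cS δ a / a).coeff 0 = δ (a.coeff a.order) / a.coeff a.order

/-- LSD. Deps: none.

Proof. Coefficients. `(dS a).coeff n = (n + 1) * a.coeff (n + 1)` (`LaurentSeries.derivative_apply`, `hasseDeriv_coeff`);
Leibniz: check it for `single n c` and use additivity and truncation, or compare coefficients of products
(`HahnSeries.coeff_mul`), or `LaurentSeries` = fractions of power series with `PowerSeries.derivative`. `d_log`: write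
`a = single n c * (1 + m)`, `n = a.order`. -/
def SpecLSD : Prop := ∀ (κ : Type) [Field κ], LSF κ

/-- LSX. Two derivations. Deps: LSD.

Proof. `X1 = (F / dS F) dS`, `X2 = cS δ - (cS δ F / dS F) dS`. By `d_log`, `dS F` has order `F.order - 1` (characteristic
zero), so `F / dS F` and `cS δ F / dS F` have positive order. `X1 a = (F / dS F) dS a` and
`X1 a / a = (F / (sv * dS F)) * (sv * dS a / a)`, similarly for `X2`. -/
def SpecLSX : Prop := ∀ (κ : Type) [Field κ] [CharZero κ] (δ : Derivation ℤ κ κ)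
  (F : LaurentSeries κ), 0 < F.order →
  ∃ X1 X2 : LaurentSeries κ → LaurentSeries κ, AlongD (RingHom.id _) X1 ∧ AlongD (RingHom.id _) X2 ∧
    (∀ c : κ, X1 (HahnSeries.C c) = 0) ∧ (∀ c : κ, X2 (HahnSeries.C c) = HahnSeries.C (δ c)) ∧
    X1 F = F ∧ X2 F = 0 ∧ (∀ a, IsO a → IsM (X1 a)) ∧ (∀ a, IsO a → IsO (X2 a)) ∧
    (∀ a, a ≠ 0 → IsO (X1 a / a)) ∧ (∀ a, a ≠ 0 → IsO (X2 a / a))

/-- VDM. Deps: LSD.

Proof. The determinant of the Vandermonde matrix `(a_i ^ j)` is `∏ (a_i - a_j)`, of order zero; multiply by the adjugate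
matrix, which has entries in `O`. -/
def SpecVDM : Prop := ∀ (κ : Type) [Field κ] (r : ℕ) (a F : Fin r → LaurentSeries κ),
  (∀ i, IsO (a i)) → (∀ i j, i ≠ j → (a i).coeff 0 ≠ (a j).coeff 0) →
  (∀ i, IsO (∑ j, F j * a i ^ (j : ℕ))) → ∀ j, IsO (F j)

/-! ## Derivations -/

/-- DR0. The derivation `d / dt`. Deps: none.

Proof. As in `Der.lean` (there for `ℂ`): `k⟮t⟯` is the rational function field, `d / dt`, and it extends uniquely to the
algebraic (separable) extension `K` (`Algebra.FormallyEtale`, or Kähler differentials, or Zorn's lemma with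
`differentialFiniteDimensional`). Kernel: if `D₀ c = 0` and `c` is not in `k`, it is transcendental (`con`), `t` is algebraic
over `k⟮c⟯` (exchange), `D₀ = 0` on `k⟮c⟯`, and so `D₀ t = 0` (minimal polynomial). -/
def SpecDR0 : Prop := ∀ (k K : Type) [Field k] [Field K] [Algebra k K] [IsAlgClosed k] [CharZero k]
  (t : K), Transcendental k t → Algebra.IsAlgebraic k⟮t⟯ K →
    ∃ D₀ : Derivation ℤ K K, (∀ c : k, D₀ (algebraMap k K c) = 0) ∧ D₀ t = 1 ∧
      ∀ x : K, D₀ x = 0 → ∃ c : k, algebraMap k K c = x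

/-- DUQ. Uniqueness of derivations along a homomorphism. Deps: none.

Proof. First part: `{x | A x = B x}` is closed under sums, products, inverses. Second part: `C = A - B`; if `p` is the
minimal polynomial of `x` over `F` then `0 = C (p(x)) = j (p'(x)) * C x`. Third part: `F` contains `k` and `y`. -/
def SpecDUQ : Prop :=
  (∀ (K V : Type) [Field K] [Field V] (j : K →+* V) (A B : K → V), AlongD j A → AlongD j B →
    ∃ F : Subfield K, ∀ x, x ∈ F ↔ A x = B x) ∧
  (∀ (K V : Type) [Field K] [Field V] [CharZero K] (j : K →+* V) (A B : K → V), AlongD j A →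
    AlongD j B → ∀ F : Subfield K, (∀ x ∈ F, A x = B x) → ∀ x, IsAlgebraic F x → A x = B x) ∧
  ∀ (k K V : Type) [Field k] [Field K] [Field V] [Algebra k K] [CharZero k] (j : K →+* V)
    (A B : K → V), AlongD j A → AlongD j B →
    (∀ c : k, A (algebraMap k K c) = B (algebraMap k K c)) →
    ∀ y : K, Algebra.IsAlgebraic k⟮y⟯ K → A y = B y → ∀ x, A x = B x

/-- JRG. Regular differentials and derivations of Laurent series. Deps: ARC, AV, DR0, DUQ, LSD.

Proof. If all orders of `j` are zero, `j h` and `j z` are in `O`. Otherwise AV: the orders are `e * v.ord`; `ϖ` with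
`v ϖ = 1`, `P = d / dϖ` (DR0). `X ∘ j` and `y ↦ j (P y) * X (j ϖ)` are derivations along `j` that agree on `k` and at
`ϖ` (DUQ), so `j h * X (j z) = j (h * P z) * X (j ϖ)`. Similarly for an arc `ι` of `v` with `ι ϖ = sv` (ARC):
`ι h * dS (ι z) = ι (h * P z)`, so `v (h * P z) ≥ 0` by regularity. `j ϖ` has positive order. -/
def SpecJRG : Prop := ∀ (k K κ : Type) [Field k] [Field K] [Field κ] [Algebra k K] [Algebra k κ]
  [IsAlgClosed k] [CharZero k], Fun1 k K → ∀ (j : K →+* LaurentSeries κ), IsOver k j →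
  ∀ z h : K, IsRegD k z h → ∀ X : LaurentSeries κ → LaurentSeries κ,
    AlongD (RingHom.id _) X → (∀ c : k, X (HahnSeries.C (algebraMap k κ c)) = 0) →
    ((∀ a, IsO a → IsO (X a)) → IsO (j h * X (j z))) ∧
    ((∀ a, IsO a → IsM (X a)) → IsM (j h * X (j z))) ∧
    ((∀ a, IsM a → IsM (X a)) → (∃ u : Kˣ, (j (u : K)).order ≠ 0) → IsM (j h * X (j z)))

/-- L3. A regular logarithmic differential is zero. Deps: ARC, CHD, LSD.

Proof. If `H` is not constant it has a zero `v` (`specFNV`); for an arc `ι` of `v` (ARC),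
`ι (E H / H) * dS (ι z) = dS (ι H) / ι H` (CHD), of order `-1` (`d_log`). -/
def SpecL3 : Prop := ∀ (k K : Type) [Field k] [Field K] [Algebra k K] [IsAlgClosed k] [CharZero k],
  Fun1 k K → ∀ (z : K) (E : Derivation ℤ K K), Transcendental k z →
    (∀ c : k, E (algebraMap k K c) = 0) → E z = 1 →
    ∀ H : Kˣ, IsRegD k z (E (H : K) / (H : K)) → ∃ c : k, algebraMap k K c = (H : K)

/-! ## Quadratic extensions and tame symbols -/

/-- INV. The transfer for quadratic extensions. Deps: none.

Proof. If `f ∈ F` then `{f, g} + {f, ε g} = {f, g * ε g}`; similarly for `g`. Otherwise `a + b f + c g = 0` with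
`a, b, c ∈ F`, `b, c ≠ 0`. If `a ≠ 0`, the Steinberg relation `{-(b / a) f, -(c / a) g} = 0` writes `{f, g}` as a sum of
symbols with an entry in `F`; if `a = 0`, `{f, g} = {-(c / b) g, g} = {c / b, g}` (`{-g, g} = 0`). -/
def SpecINV : Prop := ∀ (F E : Type) [Field F] [Field E] [Algebra F E],
  Module.finrank F E = 2 → ∀ ε : E →ₐ[F] E, (∀ x : E, ∃ c : F, x * ε x = algebraMap F E c) →
    ∀ f g : Eˣ, ∃ γ : K2 F, sym f g + ConstM.mapK (ε : E →+* E) (sym f g) = mk2 F E γ

/-- TMD. Torsion of tame symbols descends. Deps: PEX.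

Proof. `v` a place of `E`, `w`, `e` from PEX. The inclusion induces an injective map `φ : Eˣ / U1 v → Kˣ / U1 w`
(`w (u - 1) = e v (u - 1)`), and `tame w (mk2 β) = e • φ (tame v β)` (`K2.hom_ext`; `tameUnit w (f, g) =
(tameUnit v (f, g)) ^ e`, the sign: `(-1) ^ (e ^ 2 a b) = (-1) ^ (e a b)`). -/
def SpecTMD : Prop := ∀ (k E K : Type) [Field k] [Field E] [Field K] [Algebra k E] [Algebra k K]
  [Algebra E K] [IsScalarTower k E K] [CharZero E], FiniteDimensional E K → ∀ β : K2 E,
    TorTameF k (mk2 E K β) → TorTameF k β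

/-- FLP. The involution of a quadratic extension of `k(τ)`. Deps: APX, INV, TMD. Uses `CY.mil`.

Proof. `K / k⟮τ⟯` is Galois of degree two; `ε` the nontrivial automorphism, `x * ε x` and `x + ε x` are in `k⟮τ⟯`.
Places: for `φ ∈ k⟮τ⟯` of degree `m` in `τ`, `A φ = -m = B φ` if `A τ = B τ = -1`. `A ∘ ε` is a pole of `τ`, so it is `A` or
`B`; if it is `A` then `B ∘ ε = B`; APX: `u` with `A u > 0`, `B u = 0`: `N u = u * ε u ∈ k⟮τ⟯` has `A (N u) > 0`,
`B (N u) = 0`, contradiction. Symbols: INV: `β + ε β = mk2 γ`; its tame symbols are torsion (those of `ε β` at `v` are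
those of `β` at `v ∘ ε`), so those of `γ` are (TMD), and `N γ` comes from `K2 k` (`mil`). -/
def SpecFLP : Prop := ∀ (k K : Type) [Field k] [Field K] [Algebra k K] [IsAlgClosed k] [CharZero k],
  Fun1 k K → ∀ (τ : K) (A B : DVal K), Transcendental k τ → Module.finrank k⟮τ⟯ K = 2 →
    GeoF k A → GeoF k B → A ≠ B → (∀ v : DVal K, GeoF k v → v ≠ A → v ≠ B → NN v τ) →
    GE A (-1) τ → GE B (-1) τ → ¬ NN A τ → ¬ NN B τ →
    ∃ ε : K ≃+* K, (∀ c : k, ε (algebraMap k K c) = algebraMap k K c) ∧
      (∀ u : Kˣ, A.ord (Units.map (ε : K →* K) u) = B.ord u) ∧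
      ∀ f g : Kˣ, TorTameF k (sym f g) → ∃ m : ℕ, 0 < m ∧ ∃ γ : K2 k,
        m • (sym f g + sym (Units.map (ε : K →* K) f) (Units.map (ε : K →* K) g)) = mk2 k K γ

/-- CST. Symbols with a constant entry. Deps: none.

Proof. `f ∈ k`. If `g` is constant, `sym f g` comes from `K2 k`. Otherwise `g` has a zero `v` (`specFNV`), the tame unit is
`f ^ (v g)`, so `f` is a root of unity. -/
def SpecCST : Prop := ∀ (k K : Type) [Field k] [Field K] [Algebra k K] [IsAlgClosed k] [CharZero k],
  Fun1 k K → ∀ f g : Kˣ, TorTameF k (sym f g) → (∃ c : k, algebraMap k K c = (f : K)) →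
    EquivK k (sym f g) 0

end MP743d1e.BD
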