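import Pool.Agent.Lib.MP_743d1e_nt.BD.SpecC
import Pool.Agent.Lib.MP_743d1e_nt.BD.SpecD
import Pool.Agent.Lib.MP_743d1e_nt.BD.SpecA
import Pool.Agent.Lib.MP_743d1e_nt.BD.SpecB
import Pool.Agent.Lib.MP_743d1e_nt.CY.PUK

section
/-!
# Theorem BD, module LDG: linear disjointness
-/
set_option autoImplicit false
set_option linter.all false

namespace MP743d1e.BD.LDGM

open scoped BigOperators TensorProduct
open Polynomial IntermediateField

/-- A field algebraic over `k⟮x⟯` is algebraic over `k[x]`. -/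
theorem alg_poly {k E : Type} [Field k] [Field E] [Algebra k E] (x : E)
    (h : Algebra.IsAlgebraic k⟮x⟯ E) (hx : Function.Injective (aeval x : k[X] →ₐ[k] E)) (r : E) :
    ∃ P : k[X][X], P ≠ 0 ∧ P.eval₂ (aeval x : k[X] →ₐ[k] E).toRingHom r = 0 := by
  classical
  letI : Algebra k[X] E := (aeval x : k[X] →ₐ[k] E).toRingHom.toAlgebra
  letI : Algebra k[X] k⟮x⟯ :=
    (aeval (AdjoinSimple.gen k x) : k[X] →ₐ[k] k⟮x⟯).toRingHom.toAlgebra
  haveI : IsScalarTower k[X] k⟮x⟯ E := by
    refine IsScalarTower.of_algebraMap_eq ?_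
    intro p
    show aeval x p = algebraMap k⟮x⟯ E (aeval (AdjoinSimple.gen k x) p)
    rw [← Polynomial.aeval_algebraMap_apply, AdjoinSimple.algebraMap_gen]
  have h1 : Algebra.IsAlgebraic k[X] k⟮x⟯ := by
    constructor
    rintro ⟨y, hy⟩
    obtain ⟨a, b, hab⟩ := (IntermediateField.mem_adjoin_simple_iff k y).1 hy
    by_cases hb : b = 0
    · subst hb
      rw [map_zero, div_zero] at hab
      have : (⟨y, hy⟩ : k⟮x⟯) = 0 := Subtype.ext hab
      rw [this]
      exact isAlgebraic_zero
    · refine ⟨C b * X - C a, ?_, ?_⟩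
      · intro h0
        have h1 := congrArg (fun p : k[X][X] => p.coeff 1) h0
        simp at h1
        exact hb h1
      · have hbx : aeval x b ≠ 0 := fun h0 => hb (hx (by rw [h0, map_zero]))
        rw [map_sub, map_mul, aeval_X, aeval_C, aeval_C]
        apply Subtype.ext
        show (algebraMap k⟮x⟯ E (aeval (AdjoinSimple.gen k x) b)) * y -
          (algebraMap k⟮x⟯ E (aeval (AdjoinSimple.gen k x) a)) = 0
        rw [← Polynomial.aeval_algebraMap_apply, ← Polynomial.aeval_algebraMap_apply,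
          AdjoinSimple.algebraMap_gen, hab, mul_div_cancel₀ _ hbx, sub_self]
  haveI : FaithfulSMul k[X] E := by
    rw [faithfulSMul_iff_algebraMap_injective]
    exact hx
  have h2 : Algebra.IsAlgebraic k[X] E := Algebra.IsAlgebraic.trans k[X] k⟮x⟯ E
  obtain ⟨P, hP, h3⟩ := h2.isAlgebraic r
  exact ⟨P, hP, h3⟩



/-- A relation with linearly independent second factors. -/
theorem tmul_zero {k E L : Type} [Field k] [Field E] [Field L] [Algebra k E] [Algebra k L] {n : ℕ}
    (r : Fin n → E) (c : Fin n → L) (hc : LinearIndependent k c)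
    (h : ∑ i, r i ⊗ₜ[k] c i = 0) (i : Fin n) : r i = 0 := by
  classical
  obtain ⟨g, hg⟩ := LinearMap.exists_extend hc.repr
  let f : L →ₗ[k] k := (Finsupp.lapply i).comp (g.restrictScalars k)
  have hf : ∀ j, f (c j) = if j = i then 1 else 0 := by
    intro j
    have h1 : g (c j) = Finsupp.single j 1 := by
      have h2 := LinearMap.congr_fun hg ⟨c j, Submodule.subset_span ⟨j, rfl⟩⟩
      rw [LinearMap.comp_apply, Submodule.subtype_apply] at h2
      rw [h2]
      exact hc.repr_eq_single j _ rfl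
    show (g (c j)) i = _
    rw [h1, Finsupp.single_apply]
  have h3 := congrArg (TensorProduct.rid k E) (congrArg (LinearMap.lTensor E f) h)
  rw [map_sum, map_sum, map_zero, map_zero] at h3
  simp only [LinearMap.lTensor_tmul, TensorProduct.rid_tmul, hf] at h3
  simpa using h3

/-- Linear disjointness. -/
theorem main (hT : SpecTPD) (k₀ E₀ k₁ K : Type) [Field k₀] [Field E₀] [Field k₁] [Field K]
    [Algebra k₀ E₀] [Algebra k₀ k₁] [Algebra k₀ K] [Algebra E₀ K] [Algebra k₁ K]
    [IsScalarTower k₀ E₀ K] [IsScalarTower k₀ k₁ K] [IsAlgClosed k₀] (x : E₀)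
    (hx : Algebra.IsAlgebraic k₀⟮x⟯ E₀) (htr : Transcendental k₁ (algebraMap E₀ K x)) :
    Function.Injective
      (Algebra.TensorProduct.productMap (IsScalarTower.toAlgHom k₀ E₀ K)
        (IsScalarTower.toAlgHom k₀ k₁ K)) := by
  classical
  have hdom : IsDomain (E₀ ⊗[k₀] k₁) := hT k₀ E₀ k₁
  set μ : E₀ ⊗[k₀] k₁ →ₐ[k₀] K := Algebra.TensorProduct.productMap (IsScalarTower.toAlgHom k₀ E₀ K)
        (IsScalarTower.toAlgHom k₀ k₁ K) with hμ
  have hμt : ∀ (r : E₀) (c : k₁), μ (r ⊗ₜ c) = algebraMap E₀ K r * algebraMap k₁ K c := by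
    intro r c
    rw [hμ, Algebra.TensorProduct.productMap_apply_tmul]
    rfl
  -- the structure of algebra over `k₁[X]`
  let ρ : k₁[X] →+* E₀ ⊗[k₀] k₁ := eval₂RingHom
    (Algebra.TensorProduct.includeRight : k₁ →ₐ[k₀] E₀ ⊗[k₀] k₁).toRingHom (x ⊗ₜ 1)
  have hρμ : ∀ q : k₁[X], μ (ρ q) = aeval (algebraMap E₀ K x) q := by
    intro q
    induction q using Polynomial.induction_on' with
    | add p q hp hq => rw [map_add, map_add, map_add, hp, hq]
    | monomial n c =>
      show μ (eval₂ _ _ (monomial n c)) = _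
      rw [eval₂_monomial, aeval_monomial, map_mul, map_pow, hμt, map_one, mul_one]
      congr 1
      show μ ((1 : E₀) ⊗ₜ c) = _
      rw [hμt, map_one, one_mul]
  have hρinj : Function.Injective ρ := by
    intro p q hpq
    have h1 : aeval (algebraMap E₀ K x) p = aeval (algebraMap E₀ K x) q := by
      rw [← hρμ, ← hρμ, hpq]
    exact (transcendental_iff_injective.1 htr) h1
  letI : Algebra k₁[X] (E₀ ⊗[k₀] k₁) := ρ.toAlgebra
  haveI : FaithfulSMul k₁[X] (E₀ ⊗[k₀] k₁) := by
    rw [faithfulSMul_iff_algebraMap_injective]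
    exact hρinj
  have hx0 : Function.Injective (aeval x : k₀[X] →ₐ[k₀] E₀) := by
    rw [← transcendental_iff_injective]
    intro h0
    obtain ⟨p, hp, hpx⟩ := h0
    apply htr
    refine ⟨p.map (algebraMap k₀ k₁), ?_, ?_⟩
    · rwa [Ne, Polynomial.map_eq_zero]
    · rw [aeval_map_algebraMap, aeval_algebraMap_apply, hpx, map_zero]
  have halg1 : ∀ r : E₀, IsAlgebraic k₁[X] (r ⊗ₜ[k₀] (1 : k₁)) := by
    intro r
    obtain ⟨P, hP, hPr⟩ := alg_poly x hx hx0 r
    let φ : k₀[X] →+* k₁[X] := mapRingHom (algebraMap k₀ k₁)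
    have hφ : Function.Injective φ := Polynomial.map_injective _ (algebraMap k₀ k₁).injective
    refine ⟨P.map φ, ?_, ?_⟩
    · rwa [Ne, Polynomial.map_eq_zero_iff hφ]
    · have h1 : (algebraMap k₁[X] (E₀ ⊗[k₀] k₁)).comp φ =
          (Algebra.TensorProduct.includeLeft : E₀ →ₐ[k₀] E₀ ⊗[k₀] k₁).toRingHom.comp
            (aeval x : k₀[X] →ₐ[k₀] E₀).toRingHom := by
        apply Polynomial.ringHom_ext
        · intro c
          show ρ (map (algebraMap k₀ k₁) (C c)) = (aeval x (C c)) ⊗ₜ 1
          rw [map_C, aeval_C]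
          show eval₂ _ _ (C _) = _
          rw [eval₂_C]
          show (1 : E₀) ⊗ₜ (algebraMap k₀ k₁ c) = _
          rw [Algebra.algebraMap_eq_smul_one, Algebra.algebraMap_eq_smul_one,
            TensorProduct.smul_tmul]
        · show ρ (map (algebraMap k₀ k₁) X) = (aeval x X) ⊗ₜ 1
          rw [map_X, aeval_X]
          show eval₂ _ _ X = _
          rw [eval₂_X]
      show eval₂ (algebraMap k₁[X] (E₀ ⊗[k₀] k₁)) (r ⊗ₜ 1) (P.map φ) = 0
      rw [eval₂_map, h1]
      have h2 := congrArg (Algebra.TensorProduct.includeLeft : E₀ →ₐ[k₀] E₀ ⊗[k₀] k₁) hPr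
      rw [map_zero] at h2
      rw [← h2]
      exact (Polynomial.hom_eval₂ P (aeval x : k₀[X] →ₐ[k₀] E₀).toRingHom
        (Algebra.TensorProduct.includeLeft : E₀ →ₐ[k₀] E₀ ⊗[k₀] k₁).toRingHom r).symm
  have halg : ∀ t : E₀ ⊗[k₀] k₁, IsAlgebraic k₁[X] t := by
    intro t
    induction t using TensorProduct.induction_on with
    | zero => exact isAlgebraic_zero
    | add a b ha hb => exact ha.add hb
    | tmul r c =>
      have h1 : r ⊗ₜ[k₀] c = (r ⊗ₜ 1) * (1 ⊗ₜ c) := by
        rw [Algebra.TensorProduct.tmul_mul_tmul, mul_one, one_mul]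
      rw [h1]
      refine (halg1 r).mul ?_
      have h2 : (1 : E₀) ⊗ₜ[k₀] c = algebraMap k₁[X] (E₀ ⊗[k₀] k₁) (C c) := by
        show _ = eval₂ _ _ (C c)
        rw [eval₂_C]
        rfl
      rw [h2]
      exact isAlgebraic_algebraMap _
  rw [injective_iff_map_eq_zero]
  intro a ha
  by_contra hne
  obtain ⟨q, hq, y, hy⟩ := (halg a).exists_nonzero_dvd (mem_nonZeroDivisors_of_ne_zero hne)
  have h1 : aeval (algebraMap E₀ K x) q = 0 := by
    rw [← hρμ]
    show μ (algebraMap k₁[X] (E₀ ⊗[k₀] k₁) q) = 0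
    rw [hy, map_mul, ha, zero_mul]
  exact hq ((transcendental_iff_injective.1 htr) (by rw [h1, map_zero]))

end MP743d1e.BD.LDGM

namespace MP743d1e.BD

open scoped BigOperators TensorProduct
open Polynomial IntermediateField

theorem specLDG (hTPD : SpecTPD) : SpecLDG := by
  intro k₀ E₀ k₁ K _ _ _ _ _ _ _ _ _ _ _ _ x hx htr n r c hc h0
  have hinj := LDGM.main hTPD k₀ E₀ k₁ K x hx htr
  have h1 : ∑ i, r i ⊗ₜ[k₀] c i = 0 := by
    apply hinj
    rw [map_zero, map_sum, ← h0]
    refine Finset.sum_congr rfl fun i _ => ?_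
    rw [Algebra.TensorProduct.productMap_apply_tmul]
    rfl
  exact LDGM.tmul_zero r c hc h1

end MP743d1e.BD
end

section
/-!
# LDK: linear disjointness of the algebraic closure of the field of constants
-/
set_option autoImplicit false

namespace MP743d1e.BD

open scoped BigOperators
open Polynomial IntermediateField MP743d1e.CY MP743d1e.GX MP743d1e.Integ Filter

namespace LDKM

/-- the minimal polynomial of an algebraic element stays irreducible over `K` -/
theorem natDegree_le {F K k L : Type} [Field F] [Field K] [Field k] [Field L]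
    [Algebra F K] [Algebra F k] [Algebra F L] [Algebra K L] [Algebra k L] [IsScalarTower F K L]
    [IsScalarTower F k L]
    (h : ∀ z : K, IsAlgebraic F z → ∃ c : F, z = algebraMap F K c) (α : k) (hα : IsIntegral F α) :
    (minpoly F α).natDegree ≤ (minpoly K (algebraMap k L α)).natDegree := by
  have h1 : aeval (algebraMap k L α) (minpoly F α) = 0 := by
    rw [aeval_algebraMap_apply, minpoly.aeval, map_zero]
  have h2 : aeval (algebraMap k L α) ((minpoly F α).map (algebraMap F K)) = 0 := by
    rw [aeval_map_algebraMap, h1]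
  have hint : IsIntegral K (algebraMap k L α) :=
    ⟨(minpoly F α).map (algebraMap F K), (minpoly.monic hα).map _, by
      rw [← aeval_def]; exact h2⟩
  have hd : minpoly K (algebraMap k L α) ∣ (minpoly F α).map (algebraMap F K) := minpoly.dvd _ _ h2
  have h3 := integralClosure.mem_lifts_of_monic_of_dvd_map K (minpoly.monic hα)
    (minpoly.monic hint) hd
  -- all coefficients are in `F`
  have h4 : ∃ q : F[X], q.map (algebraMap F K) = minpoly K (algebraMap k L α) := by
    rw [← mem_lifts, lifts_iff_coeff_lifts]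
    intro n
    rw [lifts_iff_coeff_lifts] at h3
    obtain ⟨y, hy⟩ := h3 n
    obtain ⟨c, hc⟩ := h _ (show IsAlgebraic F ((minpoly K (algebraMap k L α)).coeff n) by
      rw [← hy]
      exact (y.2 : IsIntegral F (y : K)).isAlgebraic)
    exact ⟨c, hc.symm⟩
  obtain ⟨q, hq⟩ := h4
  have h5 : aeval α q = 0 := by
    apply (algebraMap k L).injective
    rw [map_zero, ← aeval_algebraMap_apply, ← aeval_map_algebraMap K, hq, minpoly.aeval]
  have hq0 : q ≠ 0 := by
    rintro rfl
    rw [Polynomial.map_zero] at hq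
    exact minpoly.ne_zero hint hq.symm
  have h6 := natDegree_le_of_dvd (minpoly.dvd F α h5) hq0
  rwa [← hq, natDegree_map]

end LDKM

theorem specLDK : SpecLDK := by
  classical
  intro F K k L _ _ _ _ _ _ _ _ _ _ _ _ _ hK htop
  have halg : Algebra.IsAlgebraic F k := IsAlgClosure.isAlgebraic
  refine ⟨?_, ?_⟩
  · intro n r c hc hsum i₀
    by_contra hr
    -- the field generated by the `c i`
    have hfin : FiniteDimensional F (IntermediateField.adjoin F (Set.range c)) :=
      IntermediateField.finiteDimensional_adjoin fun x _ => (halg.isAlgebraic x).isIntegral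
    let pb := Field.powerBasisOfFiniteOfSeparable F (IntermediateField.adjoin F (Set.range c))
    set α : k := (pb.gen : k) with hα
    have hmin : minpoly F α = minpoly F pb.gen := by
      rw [hα]
      exact minpoly.algebraMap_eq
        (algebraMap (IntermediateField.adjoin F (Set.range c)) k).injective pb.gen
    have hc' : ∀ i, ∃ p : F[X], p.natDegree < pb.dim ∧ c i = aeval α p := by
      intro i
      obtain ⟨p, hp, hp2⟩ := pb.exists_eq_aeval
        ⟨c i, IntermediateField.subset_adjoin F _ ⟨i, rfl⟩⟩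
      refine ⟨p, hp, ?_⟩
      have h1 := congrArg (algebraMap (IntermediateField.adjoin F (Set.range c)) k) hp2
      rw [← aeval_algebraMap_apply] at h1
      exact h1
    choose p hp1 hp2 using hc'
    have hdim : pb.dim ≤ (minpoly K (algebraMap k L α)).natDegree := by
      rw [← pb.natDegree_minpoly, ← hmin]
      exact LDKM.natDegree_le hK α (halg.isAlgebraic α).isIntegral
    set R : K[X] := ∑ i, C (r i) * (p i).map (algebraMap F K) with hR
    have hR0 : aeval (algebraMap k L α) R = 0 := by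
      rw [hR, map_sum, ← hsum]
      refine Finset.sum_congr rfl fun i _ => ?_
      rw [map_mul, aeval_C, aeval_map_algebraMap, aeval_algebraMap_apply, ← hp2 i]
    have hRdeg : R.natDegree < pb.dim := by
      refine lt_of_le_of_lt (natDegree_sum_le_of_forall_le (n := pb.dim - 1) _ _ fun i _ => ?_) ?_
      · refine (natDegree_C_mul_le _ _).trans ?_
        rw [natDegree_map]
        have := hp1 i
        omega
      · have := hp1 i₀
        omega
    have hRz : R = 0 := by
      by_contra hne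
      have h1 := natDegree_le_of_dvd (minpoly.dvd K _ hR0) hne
      omega
    -- a linear functional
    obtain ⟨ℓ, hℓ⟩ : ∃ ℓ : Module.Dual F K, ℓ (r i₀) ≠ 0 := by
      by_contra hno
      push Not at hno
      exact hr ((Module.forall_dual_apply_eq_zero_iff F (r i₀)).1 hno)
    have hcoef : ∀ j, ∑ i, ℓ (r i) * (p i).coeff j = 0 := by
      intro j
      have h1 := congrArg (fun f : K[X] => ℓ (f.coeff j)) hRz
      simp only [hR, finsetSum_coeff, coeff_C_mul, coeff_map, coeff_zero, map_zero, map_sum] at h1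
      rw [← h1]
      refine Finset.sum_congr rfl fun i _ => ?_
      rw [mul_comm (r i), ← Algebra.smul_def, ℓ.map_smul, smul_eq_mul, mul_comm]
    have hz : ∑ i, ℓ (r i) • c i = 0 := by
      have h1 : ∑ i, C (ℓ (r i)) * p i = 0 := by
        ext j
        rw [finsetSum_coeff, coeff_zero, ← hcoef j]
        exact Finset.sum_congr rfl fun i _ => by rw [coeff_C_mul]
      have h2 := congrArg (aeval α) h1
      rw [map_sum, map_zero] at h2
      rw [← h2]
      refine Finset.sum_congr rfl fun i _ => ?_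
      rw [map_mul, aeval_C, ← hp2 i, Algebra.smul_def]
    exact hℓ (Fintype.linearIndependent_iff.1 hc (fun i => ℓ (r i)) hz i₀)
  · intro x
    have hx : x ∈ IntermediateField.adjoin k (Set.range (algebraMap K L)) := by
      rw [htop]
      trivial
    obtain ⟨a, ha, b, hb, hab⟩ := IntermediateField.mem_adjoin_iff_div.1 hx
    by_cases hb0 : b = 0
    · refine ⟨0, Subalgebra.zero_mem _, 1, Subalgebra.one_mem _, one_ne_zero, ?_⟩
      rw [hab, hb0]
      simp
    · refine ⟨a, ha, b, hb, hb0, ?_⟩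
      rw [hab, div_mul_cancel₀ _ hb0]

end MP743d1e.BD
end

section
/-!
# Theorem BD: module LPX (extension of paths)
-/
set_option autoImplicit false

namespace MP743d1e.BD

open scoped BigOperators
open Polynomial IntermediateField MP743d1e.CY MP743d1e.GX MP743d1e.Integ Filter

namespace LPXM

/-- A continuous function on the line with values among the roots of a polynomial is constant. -/
theorem const_of_roots (P : ℚ[X]) (hP : P ≠ 0) (f : ℝ → ℂ) (hf : Continuous f)
    (h : ∀ θ, aeval (f θ) P = 0) (θ : ℝ) : f θ = f 0 := by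
  have h1 : (Set.range f).Finite := by
    refine Set.Finite.subset (Polynomial.rootSet_finite P ℂ) ?_
    rintro _ ⟨t, rfl⟩
    rw [Polynomial.mem_rootSet]
    exact ⟨hP, h t⟩
  have h2 : IsTotallyDisconnected (Set.range f) := h1.countable.isTotallyDisconnected
  have h3 : IsPreconnected (Set.range f) := isPreconnected_range hf
  exact h2 _ subset_rfl h3 ⟨θ, rfl⟩ ⟨0, rfl⟩

/-- On the elements algebraic over `ℚ` a path of embeddings is constant. -/
theorem const_alg {K : Type} [Field K] [CharZero K] (γ : Loop K) (c : K) (hc : IsAlgebraic ℚ c)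
    (θ : ℝ) : γ.ev θ c = γ.ev 0 c := by
  obtain ⟨P, hP, h0⟩ := hc
  refine const_of_roots P hP (fun θ => γ.ev θ c) (γ.smooth c).continuous (fun t => ?_) θ
  have h1 := (Polynomial.aeval_algHom_apply (γ.ev t).toRatAlgHom c P)
  rw [h0, map_zero] at h1
  exact h1

end LPXM

open LPXM in
/-- LPX. -/
theorem specLPX (hEXT : SpecEXT) : SpecLPX := by
  intro F K k L _ _ _ _ _ _ _ _ _ _ _ _ _ hC hF γ
  obtain ⟨z, hz, hfin⟩ := hF
  have : CharZero K := charZero_of_injective_algebraMap (algebraMap F K).injective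
  have : CharZero k := charZero_of_injective_algebraMap (algebraMap F k).injective
  have : Algebra.IsAlgebraic F k := IsAlgClosure.isAlgebraic
  -- the constants of `F`
  have hconst : ∀ (θ : ℝ) (c : F), γ.ev θ (algebraMap F K c) = γ.ev 0 (algebraMap F K c) := by
    intro θ c
    refine const_alg γ _ ?_ θ
    have h1 : IsAlgebraic ℚ c := Algebra.IsAlgebraic.isAlgebraic c
    exact h1.algHom (algebraMap F K).toRatAlgHom
  let _ : Algebra F ℂ := ((γ.ev 0).comp (algebraMap F K)).toAlgebra
  let σ : k →ₐ[F] ℂ := IsAlgClosed.lift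
  have hσ : ∀ c : F, σ (algebraMap F k c) = γ.ev 0 (algebraMap F K c) := fun c => σ.commutes c
  -- `γ.ev θ z` is transcendental over the constants
  have htr : ∀ (θ : ℝ) (p : k[X]), p ≠ 0 → p.eval₂ (σ : k →+* ℂ) (γ.ev θ z) ≠ 0 := by
    intro θ p hp h0
    let _ : Algebra k ℂ := (σ : k →+* ℂ).toAlgebra
    have h1 : IsAlgebraic k (γ.ev θ z) := ⟨p, hp, h0⟩
    have : Algebra.IsAlgebraic ℚ k := Algebra.IsAlgebraic.trans ℚ F k
    have h2 : IsAlgebraic ℚ (γ.ev θ z) := h1.restrictScalars ℚ
    have h3 : IsAlgebraic ℚ z :=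
      (isAlgebraic_algHom_iff (γ.ev θ).toRatAlgHom (γ.ev θ).injective).1 h2
    exact hz (h3.tower_top F)
  have hex : ∀ θ : ℝ, ∃ Φ : L →+* ℂ, (∀ c : k, Φ (algebraMap k L c) = σ c) ∧
      ∀ y : K, Φ (algebraMap K L y) = γ.ev θ y := by
    intro θ
    refine hEXT F K k L ℂ hC z inferInstance (σ : k →+* ℂ) (γ.ev θ) ?_ (htr θ)
    intro c
    rw [hconst θ c]
    exact hσ c
  choose Φ hΦ1 hΦ2 using hex
  -- the ring generated by `k` and `K`
  have hring : ∀ a ∈ Algebra.adjoin k (Set.range (algebraMap K L)),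
      ContDiff ℝ 1 (fun θ => Φ θ a) ∧ ∀ θ, Φ (θ + 2 * Real.pi) a = Φ θ a := by
    intro a ha
    induction ha using Algebra.adjoin_induction with
    | mem x hx =>
      obtain ⟨y, rfl⟩ := hx
      refine ⟨?_, fun θ => ?_⟩
      · simp only [hΦ2]
        exact γ.smooth y
      · rw [hΦ2, hΦ2, γ.periodic]
    | algebraMap c =>
      refine ⟨?_, fun θ => ?_⟩
      · simp only [hΦ1]
        exact contDiff_const
      · rw [hΦ1, hΦ1]
    | add x y _ _ hx hy =>
      refine ⟨?_, fun θ => ?_⟩
      · simp only [map_add]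
        exact hx.1.add hy.1
      · rw [map_add, map_add, hx.2, hy.2]
    | mul x y _ _ hx hy =>
      refine ⟨?_, fun θ => ?_⟩
      · simp only [map_mul]
        exact hx.1.mul hy.1
      · rw [map_mul, map_mul, hx.2, hy.2]
  have hall : ∀ x : L, ContDiff ℝ 1 (fun θ => Φ θ x) ∧ ∀ θ, Φ (θ + 2 * Real.pi) x = Φ θ x := by
    intro x
    obtain ⟨a, ha, b, hb, hb0, he⟩ := hC.gen x
    have hb1 : ∀ θ, Φ θ b ≠ 0 := fun θ h => hb0 ((map_eq_zero (Φ θ)).1 h)
    have hx : ∀ θ, Φ θ x = Φ θ a * (Φ θ b)⁻¹ := by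
      intro θ
      rw [← he, map_mul, mul_assoc, mul_inv_cancel₀ (hb1 θ), mul_one]
    refine ⟨?_, fun θ => ?_⟩
    · simp only [hx]
      exact (hring a ha).1.mul ((hring b hb).1.inv hb1)
    · rw [hx, hx, (hring a ha).2, (hring b hb).2]
  exact ⟨⟨Φ, fun x => (hall x).1, fun θ x => (hall x).2 θ⟩, hΦ2⟩

end MP743d1e.BD
end

section
/-!
# Theorem BD, module LSD: facts about Laurent series
-/
set_option autoImplicit false

namespace MP743d1e.BD

open scoped BigOperators

namespace LSDM

variable {κ : Type} [Field κ]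

theorem mulO (a b : LaurentSeries κ) (ha : IsO a) (hb : IsO b) : IsO (a * b) := by
  intro n hn
  rw [HahnSeries.coeff_mul]
  refine Finset.sum_eq_zero fun ij hij => ?_
  have h : ij.1 + ij.2 = n := by
    simp at hij
    exact hij.2.2
  rcases lt_or_ge ij.1 0 with h1 | h1
  · rw [ha _ h1, zero_mul]
  · rw [hb ij.2 (by omega), mul_zero]

theorem mulM (a b : LaurentSeries κ) (ha : IsM a) (hb : IsO b) : IsM (a * b) := by
  intro n hn
  rw [HahnSeries.coeff_mul]
  refine Finset.sum_eq_zero fun ij hij => ?_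
  have h : ij.1 + ij.2 = n := by
    simp at hij
    exact hij.2.2
  rcases le_or_gt ij.1 0 with h1 | h1
  · rw [ha _ h1, zero_mul]
  · rw [hb ij.2 (by omega), mul_zero]

theorem addO (a b : LaurentSeries κ) (ha : IsO a) (hb : IsO b) : IsO (a + b) := by
  intro n hn
  rw [HahnSeries.coeff_add, ha n hn, hb n hn, add_zero]

theorem addM (a b : LaurentSeries κ) (ha : IsM a) (hb : IsM b) : IsM (a + b) := by
  intro n hn
  rw [HahnSeries.coeff_add, ha n hn, hb n hn, add_zero]

theorem coC (c : κ) (n : ℤ) : (HahnSeries.C c : LaurentSeries κ).coeff n = if n = 0 then c else 0 := by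
  rw [HahnSeries.C_apply, HahnSeries.coeff_single]
  congr

theorem co_sv (n : ℤ) : (sv κ).coeff n = if n = 1 then 1 else 0 := by
  unfold sv
  rw [HahnSeries.coeff_single]
  congr

theorem oC (c : κ) : IsO (HahnSeries.C c : LaurentSeries κ) := by
  intro n hn
  rw [coC, if_neg (by omega)]

theorem mO (a : LaurentSeries κ) (h : IsM a) : IsO a := fun n hn => h n hn.le

theorem sv_ne : (sv κ) ≠ 0 := by
  intro h
  have h1 := congrArg (fun a : LaurentSeries κ => a.coeff 1) h
  simp only [co_sv, HahnSeries.coeff_zero] at h1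
  simp at h1

theorem o_iff (a : LaurentSeries κ) (ha : a ≠ 0) : IsO a ↔ 0 ≤ a.order := by
  constructor
  · intro h
    by_contra hcon
    push Not at hcon
    exact ha (HahnSeries.coeff_order_eq_zero.1 (h _ hcon))
  · intro h n hn
    exact HahnSeries.coeff_eq_zero_of_lt_order (by omega)

theorem m_iff (a : LaurentSeries κ) (ha : a ≠ 0) : IsM a ↔ 0 < a.order := by
  constructor
  · intro h
    by_contra hcon
    push Not at hcon
    exact ha (HahnSeries.coeff_order_eq_zero.1 (h _ hcon))
  · intro h n hn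
    exact HahnSeries.coeff_eq_zero_of_lt_order (by omega)

theorem o_sub (a : LaurentSeries κ) (ha : IsO a) : IsM (a - HahnSeries.C (a.coeff 0)) := by
  intro n hn
  rw [HahnSeries.coeff_sub, coC]
  rcases hn.lt_or_eq with h | h
  · rw [ha n h, if_neg (by omega), sub_zero]
  · rw [h, if_pos rfl, sub_self]

theorem co_mul (a b : LaurentSeries κ) (ha : IsO a) (hb : IsO b) :
    (a * b).coeff 0 = a.coeff 0 * b.coeff 0 := by
  have h1 : a * b = HahnSeries.C (a.coeff 0 * b.coeff 0) +
      ((a - HahnSeries.C (a.coeff 0)) * b +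
        (b - HahnSeries.C (b.coeff 0)) * HahnSeries.C (a.coeff 0)) := by
    rw [map_mul]
    ring
  have h2 := addM _ _ (mulM _ _ (o_sub a ha) hb) (mulM _ _ (o_sub b hb) (oC (a.coeff 0)))
  rw [h1, HahnSeries.coeff_add, h2 0 le_rfl, add_zero, coC, if_pos rfl]

/-- Leibniz rule for coefficientwise maps. -/
theorem leib (D : LaurentSeries κ → LaurentSeries κ) (φ : ℤ → κ →+ κ)
    (hmul : ∀ i j x y, φ (i + j) (x * y) = x * φ j y + y * φ i x)
    (hD : ∀ a n, (D a).coeff n = φ n (a.coeff n)) (a b : LaurentSeries κ) :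
    D (a * b) = a * D b + b * D a := by
  have hs : ∀ a, (D a).support ⊆ a.support := by
    intro a n hn
    rw [HahnSeries.mem_support] at hn ⊢
    intro h
    rw [hD, h, map_zero] at hn
    exact hn rfl
  ext n
  rw [hD, HahnSeries.coeff_mul, map_sum, HahnSeries.coeff_add, mul_comm b (D a),
    HahnSeries.coeff_mul_right' b.isPWO_support (hs b),
    HahnSeries.coeff_mul_left' a.isPWO_support (hs a), ← Finset.sum_add_distrib]
  refine Finset.sum_congr rfl fun ij hij => ?_
  have h : ij.1 + ij.2 = n := by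
    simp at hij
    exact hij.2.2
  rw [← h, hmul, hD, hD]
  ring

/-- `n ↦ (x ↦ n x)` -/
noncomputable def mulInt (n : ℤ) : κ →+ κ := AddMonoidHom.mulLeft (n : κ)

/-- Euler operator. -/
noncomputable def th (a : LaurentSeries κ) : LaurentSeries κ := sv κ * dS a

theorem co_dS (a : LaurentSeries κ) (n : ℤ) : (dS a).coeff n = ((n + 1 : ℤ) : κ) * a.coeff (n + 1) := by
  unfold dS
  rw [LaurentSeries.derivative_apply, LaurentSeries.hasseDeriv_coeff]
  simp

theorem co_th (a : LaurentSeries κ) (n : ℤ) : (th a).coeff n = (n : κ) * a.coeff n := by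
  unfold th sv
  rw [HahnSeries.coeff_single_mul, co_dS, one_mul]
  simp

theorem th_mul (a b : LaurentSeries κ) : th (a * b) = a * th b + b * th a :=
  leib th mulInt (by
    intro i j x y
    show ((i + j : ℤ) : κ) * (x * y) = x * ((j : κ) * y) + y * ((i : κ) * x)
    push_cast
    ring) (by
    intro a n
    rw [co_th]
    rfl) a b

theorem dS_mul (a b : LaurentSeries κ) : dS (a * b) = a * dS b + b * dS a := by
  have h := th_mul a b
  unfold th at h
  have h2 : sv κ * dS (a * b) = sv κ * (a * dS b + b * dS a) := by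
    rw [h]
    ring
  exact mul_left_cancel₀ sv_ne h2

theorem cS_mul (δ : Derivation ℤ κ κ) (a b : LaurentSeries κ) :
    cS δ (a * b) = a * cS δ b + b * cS δ a :=
  leib (cS δ) (fun _ => (δ : κ →+ κ)) (by
    intro i j x y
    show δ (x * y) = x * δ y + y * δ x
    rw [Derivation.leibniz]
    simp only [smul_eq_mul]) (fun a n => rfl) a b

/-- A quotient `x / a`, where the order of `x` is at least that of `a`. -/
theorem quo (a x : LaurentSeries κ) (ha : a ≠ 0) (hx : ∀ n, n < a.order → x.coeff n = 0) :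
    IsO (x / a) ∧ (x / a).coeff 0 = x.coeff a.order / a.coeff a.order := by
  have hac : a.coeff a.order ≠ 0 := fun h => ha (HahnSeries.coeff_order_eq_zero.1 h)
  rcases eq_or_ne x 0 with h0 | h0
  · rw [h0, zero_div]
    refine ⟨fun n _ => HahnSeries.coeff_zero, ?_⟩
    simp
  obtain ⟨y, hy⟩ : ∃ y, y = x / a := ⟨_, rfl⟩
  have hyx : x = y * a := by rw [hy, div_mul_cancel₀ _ ha]
  have hy0 : y ≠ 0 := by
    rintro h
    rw [h, zero_mul] at hyx
    exact h0 hyx
  have ho : x.order = y.order + a.order := by rw [hyx, HahnSeries.order_mul hy0 ha]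
  have hxo : a.order ≤ x.order := by
    by_contra hcon
    push Not at hcon
    exact h0 (HahnSeries.coeff_order_eq_zero.1 (hx _ hcon))
  have hyo : 0 ≤ y.order := by omega
  rw [← hy]
  refine ⟨(o_iff y hy0).2 hyo, ?_⟩
  rcases hyo.lt_or_eq with h1 | h1
  · rw [HahnSeries.coeff_eq_zero_of_lt_order h1,
      HahnSeries.coeff_eq_zero_of_lt_order (show a.order < x.order by omega), zero_div]
  · have h2 := HahnSeries.coeff_mul_order_add_order y a
    rw [← hyx, ← h1, zero_add, HahnSeries.leadingCoeff_eq, HahnSeries.leadingCoeff_eq, ← h1] at h2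
    rw [h2, mul_div_cancel_right₀ _ hac]

theorem lsf : LSF κ where
  o_add := addO
  o_mul := mulO
  o_C := oC
  m_add := addM
  m_mul := mulM
  m_o := mO
  o_iff := o_iff
  m_iff := m_iff
  o_sub := o_sub
  m_sv := by
    intro n hn
    rw [co_sv, if_neg (by omega)]
  not_m := by
    intro c h
    have h1 := h 0 le_rfl
    rwa [coC, if_pos rfl] at h1
  coeff_mul := co_mul
  d_along := ⟨fun a b => by unfold dS; rw [map_add], fun a b => by
    rw [RingHom.id_apply, RingHom.id_apply, dS_mul]⟩
  d_C := by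
    intro c
    ext n
    rw [co_dS, coC]
    by_cases h : n + 1 = 0
    · rw [h]
      simp
    · rw [if_neg h, mul_zero, HahnSeries.coeff_zero]
  d_sv := by
    ext n
    rw [co_dS, co_sv, HahnSeries.coeff_one]
    by_cases h : n = 0
    · rw [h]
      simp
    · rw [if_neg (by omega), if_neg h, mul_zero]
  d_o := by
    intro a ha n hn
    rw [co_dS]
    by_cases h : n + 1 = 0
    · rw [h]
      simp
    · rw [ha _ (by omega), mul_zero]
  d_log := by
    intro a ha
    have hac : a.coeff a.order ≠ 0 := fun h => ha (HahnSeries.coeff_order_eq_zero.1 h)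
    have h := quo a (th a) ha (by
      intro n hn
      rw [co_th, HahnSeries.coeff_eq_zero_of_lt_order hn, mul_zero])
    have e : sv κ * (dS a / a) = th a / a := by
      unfold th
      rw [mul_div_assoc]
    rw [e]
    refine ⟨h.1, ?_⟩
    rw [h.2, co_th, mul_div_cancel_right₀ _ hac]
  c_along := by
    intro δ
    refine ⟨fun a b => ?_, fun a b => ?_⟩
    · ext n
      show δ ((a + b).coeff n) = δ (a.coeff n) + δ (b.coeff n)
      rw [HahnSeries.coeff_add, map_add]
    · rw [RingHom.id_apply, RingHom.id_apply, cS_mul]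
  c_C := by
    intro δ c
    ext n
    show δ ((HahnSeries.C c : LaurentSeries κ).coeff n) = _
    rw [coC, coC]
    split_ifs
    · rfl
    · rw [map_zero]
  c_sv := by
    intro δ
    ext n
    show δ ((sv κ).coeff n) = _
    rw [co_sv, HahnSeries.coeff_zero]
    split_ifs
    · exact δ.map_one_eq_zero
    · rw [map_zero]
  c_o := by
    intro δ a ha n hn
    show δ (a.coeff n) = 0
    rw [ha n hn, map_zero]
  c_m := by
    intro δ a ha n hn
    show δ (a.coeff n) = 0
    rw [ha n hn, map_zero]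
  c_log := by
    intro δ a ha
    exact quo a (cS δ a) ha (by
      intro n hn
      show δ (a.coeff n) = 0
      rw [HahnSeries.coeff_eq_zero_of_lt_order hn, map_zero])

end LSDM

theorem specLSD : SpecLSD := fun _ _ => LSDM.lsf

end MP743d1e.BD
end

section
/-!
# Theorem BD: module LSX (two derivations of the field of Laurent series)
-/
set_option autoImplicit false

namespace MP743d1e.BD

open scoped BigOperators
open Polynomial IntermediateField MP743d1e.CY MP743d1e.GX MP743d1e.Integ Filter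

namespace LSXM

variable {κ : Type} [Field κ]

theorem isO_sub (a b : LaurentSeries κ) (ha : IsO a) (hb : IsO b) : IsO (a - b) := by
  intro n hn
  rw [HahnSeries.coeff_sub, ha n hn, hb n hn, sub_zero]

theorem isO_inv (L : LSF κ) (u : LaurentSeries κ) (hu : IsO u) (h0 : u.coeff 0 ≠ 0) :
    u ≠ 0 ∧ IsO u⁻¹ := by
  have hu0 : u ≠ 0 := by
    rintro rfl
    exact h0 HahnSeries.coeff_zero
  refine ⟨hu0, ?_⟩
  have h1 : 0 ≤ u.order := (L.o_iff u hu0).1 hu
  have h2 : ¬ 0 < u.order := fun h => h0 ((L.m_iff u hu0).2 h 0 le_rfl)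
  have h3 : u.order = 0 := le_antisymm (not_lt.1 h2) h1
  have h4 : (u * u⁻¹).order = u.order + u⁻¹.order :=
    HahnSeries.order_mul hu0 (inv_ne_zero hu0)
  rw [mul_inv_cancel₀ hu0, HahnSeries.order_one, h3, zero_add] at h4
  exact (L.o_iff u⁻¹ (inv_ne_zero hu0)).2 (by rw [← h4])

end LSXM

open LSXM

/-- LSX. Two derivations. -/
theorem specLSX (hLSD : SpecLSD) : SpecLSX := by
  intro κ _ _ δ F hF
  have L := hLSD κ
  have hF0 : F ≠ 0 := by
    rintro rfl
    rw [HahnSeries.order_zero] at hF
    exact lt_irrefl _ hF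
  obtain ⟨hu, hc⟩ := L.d_log F hF0
  obtain ⟨hcF, -⟩ := L.c_log δ F hF0
  set s := sv κ with hs
  set u := s * (dS F / F) with hudef
  have hc0 : u.coeff 0 ≠ 0 := by
    rw [hc]
    exact_mod_cast hF.ne'
  obtain ⟨hu0, hui⟩ := isO_inv L u hu hc0
  have hs0 : s ≠ 0 := by
    intro h
    rw [hudef, h, zero_mul] at hu0
    exact hu0 rfl
  have hdF : dS F ≠ 0 := by
    intro h
    rw [hudef, h, zero_div, mul_zero] at hu0
    exact hu0 rfl
  have hq : F / dS F = s * u⁻¹ := by
    rw [hudef]
    field_simp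
  have hqM : IsM (F / dS F) := by
    rw [hq]
    exact L.m_mul _ _ L.m_sv hui
  have hq' : cS δ F / dS F = F / dS F * (cS δ F / F) := by
    field_simp
  have hrM : IsM (cS δ F / dS F) := by
    rw [hq']
    exact L.m_mul _ _ hqM hcF
  have hlog : ∀ a : LaurentSeries κ, a ≠ 0 → IsO (F / dS F * dS a / a) := by
    intro a ha
    have h : F / dS F * dS a / a = u⁻¹ * (s * (dS a / a)) := by
      rw [hq]
      ring
    rw [h]
    exact L.o_mul _ _ hui (L.d_log a ha).1
  obtain ⟨da, dm⟩ := L.d_along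
  obtain ⟨ca, cm⟩ := L.c_along δ
  refine ⟨fun a => F / dS F * dS a, fun a => cS δ a - cS δ F / dS F * dS a, ⟨?_, ?_⟩, ⟨?_, ?_⟩,
    ?_, ?_, ?_, ?_, ?_, ?_, ?_, ?_⟩
  · intro a b
    simp only [da]
    ring
  · intro a b
    simp only [dm, RingHom.id_apply]
    ring
  · intro a b
    simp only [da, ca]
    ring
  · intro a b
    simp only [dm, cm, RingHom.id_apply]
    ring
  · intro c
    simp only [L.d_C, mul_zero]
  · intro c
    simp only [L.d_C, L.c_C, mul_zero, sub_zero]
  · show F / dS F * dS F = F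
    exact div_mul_cancel₀ F hdF
  · show cS δ F - cS δ F / dS F * dS F = 0
    rw [div_mul_cancel₀ _ hdF, sub_self]
  · intro a ha
    exact L.m_mul _ _ hqM (L.d_o a ha)
  · intro a ha
    exact isO_sub _ _ (L.c_o δ a ha) (L.m_o _ (L.m_mul _ _ hrM (L.d_o a ha)))
  · exact hlog
  · intro a ha
    show IsO ((cS δ a - cS δ F / dS F * dS a) / a)
    have h : (cS δ a - cS δ F / dS F * dS a) / a =
        cS δ a / a - cS δ F / F * (F / dS F * dS a / a) := by
      rw [hq']
      ring
    rw [h]
    exact isO_sub _ _ (L.c_log δ a ha).1 (L.o_mul _ _ hcF (hlog a ha))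

end MP743d1e.BD
end

section
/-!
# MAR: moving arcs
-/
set_option autoImplicit false
set_option linter.unusedVariables false

namespace MP743d1e.BD

open scoped BigOperators
open Polynomial IntermediateField MP743d1e.CY MP743d1e.GX MP743d1e.Integ Filter

namespace MARM

/-- polynomials as Laurent series -/
noncomputable def pol (κ : Type) [Field κ] : κ[X] →+* LaurentSeries κ :=
  (HahnSeries.ofPowerSeries ℤ κ).comp Polynomial.coeToPowerSeries.ringHom

theorem pol_C (κ : Type) [Field κ] (c : κ) : pol κ (C c) = HahnSeries.C c := by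
  simp [pol]

theorem pol_X (κ : Type) [Field κ] : pol κ X = sv κ := by
  simp [pol, sv]

theorem pol_inj (κ : Type) [Field κ] : Function.Injective (pol κ) := by
  intro p q h
  have h1 := HahnSeries.ofPowerSeries_injective (Γ := ℤ) (R := κ) h
  exact Polynomial.coe_injective κ h1

theorem eval_ne_zero {κ : Type} [Field κ] (a : κ) (p : κ[X]) (hp : p ≠ 0) :
    p.eval₂ HahnSeries.C (HahnSeries.C a + sv κ) ≠ 0 := by
  have h1 : eval₂RingHom (HahnSeries.C : κ →+* LaurentSeries κ) (HahnSeries.C a + sv κ) =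
      (pol κ).comp (compRingHom (X + C a)) := by
    refine Polynomial.ringHom_ext (fun c => ?_) ?_
    · simp [pol_C]
    · simp only [coe_eval₂RingHom, eval₂_X, RingHom.comp_apply, coe_compRingHom_apply, X_comp,
        map_add, pol_C, pol_X]
      rw [add_comm]
  have h2 : p.eval₂ HahnSeries.C (HahnSeries.C a + sv κ) = pol κ (taylor a p) := by
    rw [taylor_apply]
    exact RingHom.congr_fun h1 p
  rw [h2]
  intro h3
  have h4 : taylor a p = 0 := pol_inj κ (by rw [h3, map_zero])
  exact hp (taylor_injective a (by rw [h4, map_zero]))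

end MARM

theorem specMAR (hTAY : SpecTAY) (hEXT : SpecEXT) (hDZ : SpecDZ) (hCEB : SpecCEB) : SpecMAR := by
  intro k₀ K₀ k₁ K₁ _ _ _ _ _ _ _ _ _ _ _ _ _ hC hF z hz ρ hρ
  have : CharZero k₁ := charZero_of_injective_algebraMap (algebraMap k₀ k₁).injective
  obtain ⟨E, E₀, hE, hE1, -, -⟩ := hDZ k₀ K₀ k₁ K₁ hC hF z hz
  obtain ⟨T, hT1, hT2⟩ := hTAY K₀ k₁ E₀ ρ
  have : FiniteDimensional k₀⟮z⟯ K₀ := fdx hF hz
  have hneg : ∀ (y : K₀) (n : ℤ), n < 0 → (T y).coeff n = 0 := fun y n hn => hT1 y n hn
  have it0 : ∀ n : ℕ, E₀^[n] (0 : K₀) = 0 := fun n => by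
    induction n with
    | zero => rfl
    | succ n ih => rw [Function.iterate_succ_apply, map_zero, ih]
  have hTz : T z = HahnSeries.C (ρ z) + sv k₁ := by
    ext m
    rcases lt_or_ge m 0 with hm | hm
    · rw [hneg z m hm, HahnSeries.coeff_add, HahnSeries.C_apply, sv,
        HahnSeries.coeff_single_of_ne (by omega), HahnSeries.coeff_single_of_ne (by omega),
        add_zero]
    · obtain ⟨n, rfl⟩ := Int.eq_ofNat_of_zero_le hm
      rw [hT2, HahnSeries.coeff_add, HahnSeries.C_apply, sv]
      match n with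
      | 0 => simp
      | 1 =>
        rw [HahnSeries.coeff_single_of_ne (by norm_num), Function.iterate_one, hE.one]
        simp
      | n + 2 =>
        rw [HahnSeries.coeff_single_of_ne (by omega), HahnSeries.coeff_single_of_ne (by omega),
          Function.iterate_succ_apply, Function.iterate_succ_apply, hE.one]
        simp [it0]
  have hTc : ∀ c : k₀, T (algebraMap k₀ K₀ c) = HahnSeries.C (algebraMap k₀ k₁ c) := by
    intro c
    ext m
    rcases lt_or_ge m 0 with hm | hm
    · rw [hneg _ m hm, HahnSeries.C_apply, HahnSeries.coeff_single_of_ne (by omega)]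
    · obtain ⟨n, rfl⟩ := Int.eq_ofNat_of_zero_le hm
      rw [hT2, HahnSeries.C_apply]
      match n with
      | 0 => simp [hρ]
      | n + 1 =>
        rw [HahnSeries.coeff_single_of_ne (by omega), Function.iterate_succ_apply, hE1, it0]
        simp
  obtain ⟨Φ, h1, h2⟩ := hEXT k₀ K₀ k₁ K₁ (LaurentSeries k₁) hC z inferInstance HahnSeries.C T
    (fun c => (hTc c).symm) (fun p hp => by
      rw [hTz]
      exact MARM.eval_ne_zero (ρ z) p hp)
  refine ⟨Φ, fun c => ?_, ?_, fun y => ⟨?_, ?_⟩⟩
  · rw [h1]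
    rfl
  · rw [h2, hTz]
  · rw [h2]
    exact hT1 y
  · rw [h2]
    have := hT2 y 0
    simpa using this

end MP743d1e.BD
end

section
/-!
# MPB: the primitive minimal polynomial
-/
set_option autoImplicit false

namespace MP743d1e.BD

open scoped BigOperators
open Polynomial IntermediateField MP743d1e.CY MP743d1e.GX MP743d1e.Integ Filter

namespace MPBM

section

variable {k K : Type} [Field k] [Field K] [Algebra k K] (x : K)

/-- `k[X] → k⟮x⟯`. -/
noncomputable def al : k[X] →+* k⟮x⟯ := (aeval (AdjoinSimple.gen k x) : k[X] →ₐ[k] k⟮x⟯).toRingHom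

theorem coe_al (p : k[X]) : ((al x p : k⟮x⟯) : K) = aeval x p := by
  show algebraMap k⟮x⟯ K (aeval (AdjoinSimple.gen k x) p) = aeval x p
  rw [← aeval_algebraMap_apply, AdjoinSimple.algebraMap_gen]

theorem al_inj (hx : Transcendental k x) : Function.Injective (al (k := k) x) := by
  rw [injective_iff_map_eq_zero]
  intro p hp
  have h1 : aeval x p = 0 := by rw [← coe_al, hp]; rfl
  by_contra h0
  exact hx ⟨p, h0, h1⟩

theorem evF_eq (w : K) (Q : k[X][X]) : evF x w Q = aeval w (Q.map (al x)) := by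
  have h : (algebraMap k⟮x⟯ K).comp (al (k := k) x) = (aeval x : k[X] →ₐ[k] K).toRingHom := by
    ext p
    · exact coe_al x _
    · exact coe_al x _
  rw [evF, aeval_def, eval₂_map, h]

end

end MPBM

open MPBM

theorem specMPB : SpecMPB := by
  intro k K _ _ _ x w hx hw
  let : Algebra k[X] k⟮x⟯ := (al x).toAlgebra
  have hal : algebraMap k[X] k⟮x⟯ = al x := rfl
  have : FaithfulSMul k[X] k⟮x⟯ :=
    (faithfulSMul_iff_algebraMap_injective _ _).2 (al_inj x hx)
  have hfr : IsFractionRing k[X] k⟮x⟯ := by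
    apply IsFractionRing.of_field
    intro z
    obtain ⟨r, s, h⟩ := (mem_adjoin_simple_iff k (z : K)).1 z.2
    refine ⟨r, s, ?_⟩
    apply Subtype.ext
    rw [h]
    show aeval x r / aeval x s = ((al x r / al x s : k⟮x⟯) : K)
    rw [IntermediateField.coe_div, coe_al, coe_al]
  let : NormalizedGCDMonoid k[X] := Classical.arbitrary _
  set m := minpoly k⟮x⟯ w with hm
  have hmint : IsIntegral k⟮x⟯ w := hw.isIntegral
  have hm0 : m ≠ 0 := minpoly.ne_zero hmint
  set P1 := IsLocalization.integerNormalization (nonZeroDivisors k[X]) m with hP1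
  obtain ⟨b, hb, hb1⟩ := IsLocalization.integerNormalization_spec (nonZeroDivisors k[X]) m
  rw [← hP1] at hb1
  have hb0 : b ≠ 0 := nonZeroDivisors.ne_zero hb
  have hab0 : algebraMap k[X] k⟮x⟯ b ≠ 0 := by
    intro h
    exact hb0 (al_inj x hx (by rw [map_zero]; exact h))
  have hb2 : P1.map (algebraMap k[X] k⟮x⟯) = C (algebraMap k[X] k⟮x⟯ b) * m := by
    rw [hb1, Algebra.smul_def]; rfl
  have hP10 : P1 ≠ 0 := by
    intro h
    rw [h, Polynomial.map_zero] at hb2
    rcases mul_eq_zero.1 hb2.symm with h1 | h1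
    · exact hab0 (C_eq_zero.1 h1)
    · exact hm0 h1
  set P := P1.primPart with hP
  have hPprim : P.IsPrimitive := P1.isPrimitive_primPart
  have hc0 : P1.content ≠ 0 := by
    rwa [Ne, content_eq_zero_iff]
  have hPc : P1 = C P1.content * P := P1.eq_C_content_mul_primPart
  have hac0 : algebraMap k[X] k⟮x⟯ P1.content ≠ 0 := by
    intro h
    exact hc0 (al_inj x hx (by rw [map_zero]; exact h))
  have hPmap : C (algebraMap k[X] k⟮x⟯ P1.content) * P.map (algebraMap k[X] k⟮x⟯) =
      C (algebraMap k[X] k⟮x⟯ b) * m := by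
    rw [← hb2]
    conv_rhs => rw [hPc]
    rw [Polynomial.map_mul, map_C]
  have hdvd : P.map (algebraMap k[X] k⟮x⟯) ∣ m := by
    have h1 : P.map (algebraMap k[X] k⟮x⟯) ∣ C (algebraMap k[X] k⟮x⟯ b) * m := by
      rw [← hPmap]; exact dvd_mul_left _ _
    exact ((isUnit_C.2 (isUnit_iff_ne_zero.2 hab0)).dvd_mul_left).1 h1
  have hdeg : P.natDegree = m.natDegree := by
    have h1 : (P.map (algebraMap k[X] k⟮x⟯)).natDegree = P.natDegree :=
      natDegree_map_eq_of_injective (al_inj x hx) P
    have h2 := congrArg natDegree hPmap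
    rw [natDegree_C_mul hac0, natDegree_C_mul hab0, h1] at h2
    exact h2
  refine ⟨P, ?_, ?_, hdeg, ?_⟩
  · exact hPprim.ne_zero
  · rw [evF_eq, ← hal]
    have h2 := congrArg (aeval w) hPmap
    rw [map_mul, map_mul, hm, minpoly.aeval, mul_zero, aeval_C] at h2
    rcases mul_eq_zero.1 h2 with h3 | h3
    · exfalso
      exact hac0 ((map_eq_zero_iff _ (algebraMap k⟮x⟯ K).injective).1 h3)
    · exact h3
  · intro Q hQ
    rw [evF_eq, ← hal] at hQ
    exact hPprim.dvd_of_fraction_map_dvd_fraction_map (K := k⟮x⟯)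
      (hdvd.trans (minpoly.dvd _ _ hQ))

end MP743d1e.BD
end

section
/-!
# Theorem BD: module MSU

Finitely many elements of `K₁` and `k₁` lie in some `M = K₀ L`, `L / k₀` a function field.
-/
set_option autoImplicit false
set_option linter.unusedSectionVars false

namespace MP743d1e.BD.MSUM

open Polynomial IntermediateField

section FG

variable {k E : Type} [Field k] [Field E] [Algebra k E]

/-- A finitely generated subfield that is algebraic over `k⟮t⟯` is finite over `k⟮t⟯`. -/
theorem fun1_adjoin (t : E) (hta : Algebra.IsAlgebraic k⟮t⟯ E) (ht : Transcendental k t)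
    (S : Finset E) (htS : t ∈ S) : ∃ t' : IntermediateField.adjoin k (S : Set E),
      (t' : E) = t ∧ Transcendental k t' ∧
      FiniteDimensional k⟮t'⟯ (IntermediateField.adjoin k (S : Set E)) := by
  classical
  let L : IntermediateField k E := IntermediateField.adjoin k (S : Set E)
  have htL : t ∈ L := IntermediateField.subset_adjoin k (S : Set E) htS
  let t' : L := ⟨t, htL⟩
  refine ⟨t', rfl, ?_, ?_⟩
  · intro h
    exact ht (h.algHom L.val)
  · have hm : k⟮t'⟯.map L.val = k⟮t⟯ := by
      rw [IntermediateField.adjoin_map, Set.image_singleton]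
      rfl
    have hmem : ∀ y : k⟮t'⟯, L.val (y : L) ∈ k⟮t⟯ := by
      intro y
      rw [← hm]
      exact ⟨(y : L), y.2, rfl⟩
    let f : k⟮t'⟯ →+* k⟮t⟯ := (L.val.toRingHom.comp (algebraMap k⟮t'⟯ L)).codRestrict k⟮t⟯ hmem
    have hf : Function.Surjective f := by
      rintro ⟨y, hy⟩
      rw [← hm] at hy
      obtain ⟨z, hz, hzy⟩ := hy
      exact ⟨⟨z, hz⟩, Subtype.ext hzy⟩
    have halg : Algebra.IsAlgebraic k⟮t'⟯ L := by
      refine ⟨fun x => ?_⟩
      exact (hta.isAlgebraic (L.val x)).of_ringHom_of_comp_eq f L.val hf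
        (RingHom.injective L.val.toRingHom) rfl
    have hess : Algebra.EssFiniteType k L := by
      rw [IntermediateField.essFiniteType_iff]
      exact ⟨S, rfl⟩
    have hess3 : Algebra.EssFiniteType k⟮t'⟯ L := Algebra.EssFiniteType.of_comp k k⟮t'⟯ L
    exact Algebra.finite_of_essFiniteType_of_isAlgebraic

end FG

section

variable {k₀ K₀ k₁ K₁ : Type} [Field k₀] [Field K₀] [Field k₁] [Field K₁]
  [Algebra k₀ K₀] [Algebra k₀ k₁] [Algebra k₀ K₁] [Algebra K₀ K₁] [Algebra k₁ K₁]
  [IsScalarTower k₀ K₀ K₁] [IsScalarTower k₀ k₁ K₁]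

/-- The subfield generated by `K₀` and the intermediate field `L` of `k₁ / k₀`. -/
abbrev MF (K₀ : Type) {k₀ k₁ : Type} (K₁ : Type) [Field k₀] [Field K₀] [Field k₁] [Field K₁]
    [Algebra k₀ k₁] [Algebra K₀ K₁] [Algebra k₁ K₁] (L : IntermediateField k₀ k₁) :
    IntermediateField K₀ K₁ :=
  IntermediateField.adjoin K₀ (algebraMap k₁ K₁ '' (L : Set k₁))

theorem mem_MF (L : IntermediateField k₀ k₁) (c : k₁) (hc : c ∈ L) :
    algebraMap k₁ K₁ c ∈ MF K₀ K₁ L :=
  IntermediateField.subset_adjoin _ _ ⟨c, hc, rfl⟩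

theorem MF_mono {L L' : IntermediateField k₀ k₁} (h : L ≤ L') : MF K₀ K₁ L ≤ MF K₀ K₁ L' :=
  IntermediateField.adjoin.mono _ _ _ (Set.image_mono h)

/-- Every element of `k₁[K₀]` is in `K₀ k₀(S)` for some finite subset `S` of `k₁`. -/
theorem exists_fin (x : K₁) (hx : x ∈ Algebra.adjoin k₁ (Set.range (algebraMap K₀ K₁))) :
    ∃ S : Finset k₁, x ∈ MF K₀ K₁ (IntermediateField.adjoin k₀ (S : Set k₁)) := by
  classical
  induction hx using Algebra.adjoin_induction with
  | mem x hx =>
    obtain ⟨y, rfl⟩ := hx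
    exact ⟨∅, IntermediateField.algebraMap_mem _ y⟩
  | algebraMap r =>
    exact ⟨{r}, mem_MF _ _ (IntermediateField.subset_adjoin _ _ (by simp))⟩
  | add x y _ _ hx hy =>
    obtain ⟨S, hS⟩ := hx
    obtain ⟨T, hT⟩ := hy
    refine ⟨S ∪ T, add_mem (MF_mono (IntermediateField.adjoin.mono _ _ _ ?_) hS)
      (MF_mono (IntermediateField.adjoin.mono _ _ _ ?_) hT)⟩
    · rw [Finset.coe_union]; exact Set.subset_union_left
    · rw [Finset.coe_union]; exact Set.subset_union_right
  | mul x y _ _ hx hy =>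
    obtain ⟨S, hS⟩ := hx
    obtain ⟨T, hT⟩ := hy
    refine ⟨S ∪ T, mul_mem (MF_mono (IntermediateField.adjoin.mono _ _ _ ?_) hS)
      (MF_mono (IntermediateField.adjoin.mono _ _ _ ?_) hT)⟩
    · rw [Finset.coe_union]; exact Set.subset_union_left
    · rw [Finset.coe_union]; exact Set.subset_union_right

/-- Every element of `K₁` is in `K₀ k₀(S)` for some finite subset `S` of `k₁`. -/
theorem exists_fin' (h : CExt k₀ K₀ k₁ K₁) (x : K₁) :
    ∃ S : Finset k₁, x ∈ MF K₀ K₁ (IntermediateField.adjoin k₀ (S : Set k₁)) := by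
  classical
  obtain ⟨a, ha, b, hb, hb0, hxb⟩ := h.gen x
  obtain ⟨S, hS⟩ := exists_fin (k₀ := k₀) a ha
  obtain ⟨T, hT⟩ := exists_fin (k₀ := k₀) b hb
  refine ⟨S ∪ T, ?_⟩
  have hx : x = a / b := by rw [← hxb, mul_div_cancel_right₀ _ hb0]
  rw [hx]
  refine div_mem (MF_mono (IntermediateField.adjoin.mono _ _ _ ?_) hS)
    (MF_mono (IntermediateField.adjoin.mono _ _ _ ?_) hT)
  · rw [Finset.coe_union]; exact Set.subset_union_left
  · rw [Finset.coe_union]; exact Set.subset_union_right

/-- The inclusion of `L` in `K₀ L`. -/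
noncomputable def incl (L : IntermediateField k₀ k₁) : L →+* MF K₀ K₁ L :=
  ((algebraMap k₁ K₁).comp L.val.toRingHom).codRestrict (MF K₀ K₁ L) fun c => mem_MF L _ c.2

theorem incl_coe (L : IntermediateField k₀ k₁) (c : L) :
    ((incl (K₀ := K₀) (K₁ := K₁) L c : MF K₀ K₁ L) : K₁) = algebraMap k₁ K₁ (c : k₁) := rfl

/-- The fractions of `L[K₀]` are all of `K₀ L`. -/
theorem gen_MF (L : IntermediateField k₀ k₁) [Algebra L (MF K₀ K₁ L)]
    (hL : ∀ c : L, algebraMap L (MF K₀ K₁ L) c = incl L c) (x : MF K₀ K₁ L) :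
    ∃ a ∈ Algebra.adjoin L (Set.range (algebraMap K₀ (MF K₀ K₁ L))),
      ∃ b ∈ Algebra.adjoin L (Set.range (algebraMap K₀ (MF K₀ K₁ L))), b ≠ 0 ∧ x * b = a := by
  obtain ⟨x, hx⟩ := x
  suffices hs : ∃ a ∈ Algebra.adjoin L (Set.range (algebraMap K₀ (MF K₀ K₁ L))),
      ∃ b ∈ Algebra.adjoin L (Set.range (algebraMap K₀ (MF K₀ K₁ L))), b ≠ 0 ∧
        x * (b : K₁) = (a : K₁) by
    obtain ⟨a, ha, b, hb, hb0, hab⟩ := hs
    exact ⟨a, ha, b, hb, hb0, Subtype.ext hab⟩
  induction hx using IntermediateField.adjoin_induction with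
  | mem y hy =>
    obtain ⟨c, hc, rfl⟩ := hy
    refine ⟨algebraMap L _ ⟨c, hc⟩, Subalgebra.algebraMap_mem _ _, 1, one_mem _, one_ne_zero, ?_⟩
    rw [hL, incl_coe]
    exact mul_one _
  | algebraMap y =>
    refine ⟨algebraMap K₀ _ y, Algebra.subset_adjoin ⟨y, rfl⟩, 1, one_mem _, one_ne_zero, ?_⟩
    exact mul_one _
  | add y z _ _ hy hz =>
    obtain ⟨a, ha, b, hb, hb0, hab⟩ := hy
    obtain ⟨c, hc, d, hd, hd0, hcd⟩ := hz
    refine ⟨a * d + c * b, add_mem (mul_mem ha hd) (mul_mem hc hb), b * d, mul_mem hb hd,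
      mul_ne_zero hb0 hd0, ?_⟩
    push_cast
    rw [← hab, ← hcd]
    ring
  | inv y _ hy =>
    obtain ⟨a, ha, b, hb, hb0, hab⟩ := hy
    by_cases hy0 : y = 0
    · exact ⟨0, zero_mem _, 1, one_mem _, one_ne_zero, by rw [hy0]; simp⟩
    · have hb0' : (b : K₁) ≠ 0 := fun h => hb0 (Subtype.ext h)
      have ha0 : (a : K₁) ≠ 0 := by
        rw [← hab]; exact mul_ne_zero hy0 hb0'
      refine ⟨b, hb, a, ha, fun h => ha0 (by rw [h]; rfl), ?_⟩
      rw [← hab]
      field_simp
  | mul y z _ _ hy hz =>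
    obtain ⟨a, ha, b, hb, hb0, hab⟩ := hy
    obtain ⟨c, hc, d, hd, hd0, hcd⟩ := hz
    refine ⟨a * c, mul_mem ha hc, b * d, mul_mem hb hd, mul_ne_zero hb0 hd0, ?_⟩
    push_cast
    rw [← hab, ← hcd]
    ring

end

end MP743d1e.BD.MSUM

namespace MP743d1e.BD

open Polynomial IntermediateField
open MSUM

theorem specMSU : SpecMSU := by
  intro k₀ K₀ k₁ K₁ _ _ _ _ _ _ _ _ _ _ _ h t ht hta m n a c
  classical
  have hfin : ∀ i, ∃ S : Finset k₁,
      a i ∈ MF K₀ K₁ (IntermediateField.adjoin k₀ (S : Set k₁)) := fun i => exists_fin' h (a i)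
  choose S hS using hfin
  let T : Finset k₁ := Finset.univ.biUnion S ∪ Finset.univ.image c ∪ {t}
  have htT : t ∈ T := by simp [T]
  obtain ⟨t', ht1, ht2, ht3⟩ := fun1_adjoin t hta ht T htT
  let L : IntermediateField k₀ k₁ := IntermediateField.adjoin k₀ (T : Set k₁)
  let _ : Algebra L (MF K₀ K₁ L) := (incl (K₀ := K₀) (K₁ := K₁) L).toAlgebra
  have hL : ∀ c : L, algebraMap L (MF K₀ K₁ L) c = incl L c := fun c => rfl
  have hst : IsScalarTower k₀ L (MF K₀ K₁ L) := by
    apply IsScalarTower.of_algebraMap_eq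
    intro x
    apply Subtype.ext
    rw [hL, incl_coe]
    show algebraMap k₀ K₁ x = algebraMap k₁ K₁ (algebraMap k₀ k₁ x)
    exact IsScalarTower.algebraMap_apply k₀ k₁ K₁ x
  have haM : ∀ i, a i ∈ MF K₀ K₁ L := by
    intro i
    refine MF_mono (IntermediateField.adjoin.mono _ _ _ ?_) (hS i)
    intro y hy
    simp only [T, Finset.coe_union, Set.mem_union, Finset.mem_coe, Finset.mem_biUnion]
    exact Or.inl (Or.inl ⟨i, Finset.mem_univ i, hy⟩)
  have hcL : ∀ i, c i ∈ L := by
    intro i
    apply IntermediateField.subset_adjoin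
    simp only [T, Finset.coe_union, Set.mem_union, Finset.mem_coe, Finset.mem_image]
    exact Or.inl (Or.inr ⟨i, Finset.mem_univ i, rfl⟩)
  refine ⟨L, MF K₀ K₁ L, inferInstance, inferInstance, inferInstance, inferInstance,
    inferInstance, inferInstance, inferInstance, hst, L.val.toRingHom, (MF K₀ K₁ L).val.toRingHom,
    t', fun i => ⟨a i, haM i⟩, fun i => ⟨c i, hcL i⟩, ⟨?_, ?_⟩, ⟨t', ht2, ht3⟩, ht2, ht1,
    fun x => rfl, fun y => rfl, fun y => rfl, fun i => rfl, fun i => rfl⟩
  · intro n r c hc hsum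
    apply h.ld n r (fun i => (c i : k₁))
    · exact hc.map' L.val.toLinearMap (LinearMap.ker_eq_bot.2 Subtype.val_injective)
    · have := congrArg (MF K₀ K₁ L).val hsum
      rw [map_sum, map_zero] at this
      rw [← this]
      refine Finset.sum_congr rfl fun i _ => ?_
      rw [map_mul]
      rfl
  · exact gen_MF L hL

end MP743d1e.BD
end

section
/-!
# NFD: degrees over the algebraic closure
-/
set_option autoImplicit false

namespace MP743d1e.BD.NFDM

open scoped BigOperators
open Polynomial IntermediateField MP743d1e.CY MP743d1e.GX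

variable {F K k L : Type} [Field F] [Field K] [Field k] [Field L] [Algebra F K] [Algebra F k]
  [Algebra F L] [Algebra K L] [Algebra k L] [IsScalarTower F K L] [IsScalarTower F k L]

theorem transc [Algebra.IsAlgebraic F k] {f : K} (hf : Transcendental F f) :
    Transcendental k (algebraMap K L f) := by
  intro h
  apply hf
  have h1 : IsAlgebraic F (algebraMap K L f) := h.restrictScalars F
  exact (isAlgebraic_algebraMap_iff (algebraMap K L).injective).1 h1

/-- `F(f)` is mapped to `k(f)`. -/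
theorem mem (f : K) (c : K) (hc : c ∈ F⟮f⟯) : algebraMap K L c ∈ k⟮algebraMap K L f⟯ := by
  induction hc using IntermediateField.adjoin_induction with
  | mem x hx =>
    rw [Set.mem_singleton_iff] at hx
    rw [hx]
    exact IntermediateField.mem_adjoin_simple_self k _
  | algebraMap x =>
    rw [← IsScalarTower.algebraMap_apply F K L, IsScalarTower.algebraMap_apply F k L]
    exact (k⟮algebraMap K L f⟯).algebraMap_mem _
  | add x y _ _ hx hy => rw [map_add]; exact add_mem hx hy
  | inv x _ hx => rw [map_inv₀]; exact inv_mem hx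
  | mul x y _ _ hx hy => rw [map_mul]; exact mul_mem hx hy

/-- A basis of `K / F(f)` spans `L` over `k(f)`. -/
theorem gen (f : K) {ι : Type} [Fintype ι] (e : Module.Basis ι F⟮f⟯ K)
    (h : IntermediateField.adjoin k (Set.range (algebraMap K L)) = ⊤) :
    Submodule.span k⟮algebraMap K L f⟯ (Set.range fun i => algebraMap K L (e i)) = ⊤ := by
  classical
  set R := k⟮algebraMap K L f⟯ with hR
  set W := Submodule.span R (Set.range fun i => algebraMap K L (e i)) with hW
  have hK : ∀ z : K, algebraMap K L z ∈ W := by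
    intro z
    rw [← e.sum_repr z, map_sum]
    refine Submodule.sum_mem _ fun i _ => ?_
    have h1 : algebraMap K L (e.repr z i • e i) =
        (⟨algebraMap K L (e.repr z i : K), mem f _ (e.repr z i).2⟩ : R) • algebraMap K L (e i) := by
      rw [Algebra.smul_def, map_mul, Algebra.smul_def]
      rfl
    rw [h1]
    exact W.smul_mem _ (Submodule.subset_span ⟨i, rfl⟩)
  have hone : (1 : L) ∈ W := by
    have := hK 1
    rwa [map_one] at this
  have hmul : ∀ x ∈ W, ∀ y ∈ W, x * y ∈ W := by
    intro x hx y hy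
    induction hx using Submodule.span_induction with
    | mem x hx =>
      obtain ⟨i, rfl⟩ := hx
      induction hy using Submodule.span_induction with
      | mem y hy =>
        obtain ⟨j, rfl⟩ := hy
        dsimp only
        rw [← map_mul]
        exact hK _
      | zero => rw [mul_zero]; exact W.zero_mem
      | add y y' _ _ hy hy' => rw [mul_add]; exact W.add_mem hy hy'
      | smul c y _ hy => rw [mul_smul_comm]; exact W.smul_mem c hy
    | zero => rw [zero_mul]; exact W.zero_mem
    | add x x' _ _ hx hx' => rw [add_mul]; exact W.add_mem hx hx'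
    | smul c x _ hx => rw [smul_mul_assoc]; exact W.smul_mem c hx
  let A : Subalgebra R L :=
    { carrier := W
      mul_mem' := fun {x y} hx hy => hmul x hx y hy
      add_mem' := fun {x y} hx hy => W.add_mem hx hy
      algebraMap_mem' := fun r => by
        show algebraMap R L r ∈ W
        rw [Algebra.algebraMap_eq_smul_one]
        exact W.smul_mem r hone }
  have hfin : FiniteDimensional R W := FiniteDimensional.span_of_finite R (Set.finite_range _)
  have hfinA : FiniteDimensional R A := hfin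
  have hinv : ∀ x ∈ W, x⁻¹ ∈ W := by
    intro x hx
    have h1 : IsAlgebraic R ((⟨x, hx⟩ : A) : L) := by
      have h2 : IsAlgebraic R (⟨x, hx⟩ : A) := Algebra.IsAlgebraic.isAlgebraic _
      exact h2.algebraMap
    exact A.inv_mem_of_algebraic h1
  rw [eq_top_iff]
  rintro z -
  have hz : z ∈ IntermediateField.adjoin k (Set.range (algebraMap K L)) := by
    rw [h]
    exact IntermediateField.mem_top
  induction hz using IntermediateField.adjoin_induction with
  | mem x hx =>
    obtain ⟨y, rfl⟩ := hx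
    exact hK y
  | algebraMap x =>
    have h1 : algebraMap k L x = (algebraMap k R x) • (1 : L) := by
      rw [Algebra.smul_def, mul_one]
      rfl
    rw [h1]
    exact W.smul_mem _ hone
  | add x y _ _ hx hy => exact W.add_mem hx hy
  | inv x _ hx => exact hinv x hx
  | mul x y _ _ hx hy => exact hmul x hx y hy

end MP743d1e.BD.NFDM

namespace MP743d1e.BD

open Polynomial IntermediateField MP743d1e.CY MP743d1e.GX

theorem specNFD : SpecNFD := by
  intro F K k L _ _ _ _ _ _ _ _ _ _ _ _ hFun hgen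
  have halg : Algebra.IsAlgebraic F k := IsAlgClosure.isAlgebraic
  obtain ⟨x, hx, hxf⟩ := id hFun
  refine ⟨⟨algebraMap K L x, NFDM.transc hx, ?_⟩, ?_⟩
  · have h1 := NFDM.gen (k := k) (L := L) x (Module.finBasis F⟮x⟯ K) hgen
    exact Module.finite_def.2 ⟨Set.Finite.toFinset (Set.finite_range _), by
      rw [Set.Finite.coe_toFinset]; exact h1⟩
  · intro d f hf
    by_cases hft : Transcendental F f
    · have hfin : FiniteDimensional F⟮f⟯ K := fdx hFun hft
      have h1 := NFDM.gen (k := k) (L := L) f (Module.finBasis F⟮f⟯ K) hgen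
      have h2 := finrank_range_le_card (R := k⟮algebraMap K L f⟯)
        (fun i => algebraMap K L (Module.finBasis F⟮f⟯ K i))
      unfold Set.finrank at h2
      rw [h1, finrank_top, Fintype.card_fin] at h2
      exact h2.trans hf
    · have hfa : IsAlgebraic F f := not_not.1 hft
      have h1 : IsAlgebraic k (algebraMap K L f) := by
        have h2 : IsAlgebraic F (algebraMap K L f) := hfa.algebraMap
        exact h2.tower_top k
      have h2 : ¬ FiniteDimensional k⟮algebraMap K L f⟯ L := by
        intro h3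
        have h4 : Algebra.IsAlgebraic k k⟮algebraMap K L f⟯ :=
          IntermediateField.isAlgebraic_adjoin_simple h1.isIntegral
        have h5 : Algebra.IsAlgebraic k L := Algebra.IsAlgebraic.trans k k⟮algebraMap K L f⟯ L
        exact NFDM.transc (k := k) (L := L) hx (h5.isAlgebraic _)
      show Module.finrank k⟮algebraMap K L f⟯ L ≤ d
      rw [Module.finrank_of_not_finite h2]
      exact Nat.zero_le _

end MP743d1e.BD
end

section
/-!
# NFM: the order of a torsion residue class is bounded (MP_743d1e_nt, hive BD)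
-/
set_option autoImplicit false

namespace MP743d1e.BD

open Polynomial IntermediateField MP743d1e.CY MP743d1e.GX MP743d1e.Integ

namespace NFMM

variable {K : Type} [Field K] {v : DVal K}

theorem pos_nn {f : K} (h : Pos v f) : NN v f := by
  rcases h with h | ⟨u, h, h1⟩
  · exact Or.inl h
  · exact Or.inr ⟨u, h, by omega⟩

theorem pos_zero : Pos v (0 : K) := Or.inl rfl

theorem pos_add {f g : K} (hf : Pos v f) (hg : Pos v g) : Pos v (f + g) := by
  rcases hf with rfl | ⟨u, rfl, hu⟩
  · rwa [zero_add]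
  rcases hg with rfl | ⟨w, rfl, hw⟩
  · rw [add_zero]; exact Or.inr ⟨u, rfl, hu⟩
  by_cases h : (u : K) + (w : K) = 0
  · exact Or.inl h
  refine Or.inr ⟨Units.mk0 _ h, rfl, ?_⟩
  have := v.ord_add u w (Units.mk0 _ h) rfl
  omega

theorem pos_neg {f : K} (hf : Pos v f) : Pos v (-f) := by
  have := pos_mul_nn hf (nn_neg (nn_one (v := v)))
  simpa using this

theorem not_pos_one : ¬ Pos v (1 : K) := by
  have h : Pos v ((1 : Kˣ) : K) → False := by
    rw [pos_unit, v.ord_one]
    omega
  simpa using h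

theorem nn_pow {f : K} (hf : NN v f) (n : ℕ) : NN v (f ^ n) := by
  induction n with
  | zero => rw [pow_zero]; exact nn_one
  | succ n ih => rw [pow_succ]; exact nn_mul ih hf

theorem nn_sum {ι : Type} (s : Finset ι) (f : ι → K) (h : ∀ i ∈ s, NN v (f i)) :
    NN v (∑ i ∈ s, f i) := by
  classical
  induction s using Finset.induction_on with
  | empty => simpa using nn_zero
  | insert a s ha ih =>
    rw [Finset.sum_insert ha]
    exact nn_add (h a (Finset.mem_insert_self a s))
      (ih fun i hi => h i (Finset.mem_insert_of_mem hi))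

theorem pos_sum {ι : Type} (s : Finset ι) (f : ι → K) (h : ∀ i ∈ s, Pos v (f i)) :
    Pos v (∑ i ∈ s, f i) := by
  classical
  induction s using Finset.induction_on with
  | empty => simpa using pos_zero
  | insert a s ha ih =>
    rw [Finset.sum_insert ha]
    exact pos_add (h a (Finset.mem_insert_self a s))
      (ih fun i hi => h i (Finset.mem_insert_of_mem hi))

variable {F : Type} [Field F] [Algebra F K]

theorem nn_const (hv : GeoF F v) (c : F) : NN v (algebraMap F K c) := by
  by_cases h : c = 0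
  · rw [h, map_zero]; exact nn_zero
  · have h1 : algebraMap F K c ≠ 0 := by simpa using h
    refine Or.inr ⟨Units.mk0 _ h1, rfl, ?_⟩
    rw [hv _ ⟨c, rfl⟩]

theorem const_pos (hv : GeoF F v) {c : F} (h : Pos v (algebraMap F K c)) : c = 0 := by
  by_contra h0
  have h1 : algebraMap F K c ≠ 0 := by simpa using h0
  have h2 : Pos v ((Units.mk0 _ h1 : Kˣ) : K) := h
  rw [pos_unit, hv _ ⟨c, rfl⟩] at h2
  omega

theorem nn_aeval (hv : GeoF F v) {y : K} (hy : NN v y) (P : F[X]) : NN v (aeval y P) := by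
  rw [aeval_eq_sum_range]
  refine nn_sum _ _ fun i _ => ?_
  rw [Algebra.smul_def]
  exact nn_mul (nn_const hv _) (nn_pow hy _)

/-- The value at an element of positive order is the constant coefficient. -/
theorem aeval_pos (hv : GeoF F v) {y : K} (hy : Pos v y) (P : F[X]) :
    Pos v (aeval y P - algebraMap F K (P.coeff 0)) := by
  have h : aeval y P - algebraMap F K (P.coeff 0) = y * aeval y P.divX := by
    conv_lhs => rw [← divX_mul_X_add P]
    simp
    ring
  rw [h]
  exact pos_mul_nn hy (nn_aeval hv (pos_nn hy) _)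

theorem transc_of_pos (hv : GeoF F v) (f : Kˣ) (hf : 1 ≤ v.ord f) : Transcendental F (f : K) := by
  intro halg
  have h1 : Pos v (f : K) := pos_unit.2 hf
  have h2 := aeval_pos hv h1 (minpoly F (f : K))
  rw [minpoly.aeval, zero_sub] at h2
  have h3 := const_pos hv (by simpa using pos_neg h2)
  have h4 := (minpoly.coeff_zero_eq_zero halg.isIntegral).1 h3
  exact f.ne_zero h4

open scoped IntermediateField.algebraAdjoinAdjoin in
/-- A relation with coefficients in `F[X]`. -/
theorem rel {d : ℕ} (f u : K) (hf : FiniteDimensional F⟮f⟯ K) (hd : Module.finrank F⟮f⟯ K ≤ d) :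
    ∃ Φ : F[X][X], Φ ≠ 0 ∧ Φ.natDegree ≤ d ∧ evF f u Φ = 0 := by
  classical
  have h1 : ¬ LinearIndependent F⟮f⟯ (fun i : Fin (d + 1) => u ^ (i : ℕ)) := by
    intro h
    have := h.fintype_card_le_finrank
    rw [Fintype.card_fin] at this
    omega
  have h2 : ¬ LinearIndependent (Algebra.adjoin F ({f} : Set K))
      (fun i : Fin (d + 1) => u ^ (i : ℕ)) := by
    rwa [LinearIndependent.iff_fractionRing (Algebra.adjoin F ({f} : Set K)) F⟮f⟯]
  rw [Fintype.not_linearIndependent_iff] at h2
  obtain ⟨g, hg, i, hi⟩ := h2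
  have h3 : ∀ j, ∃ p : F[X], aeval f p = (g j : K) := by
    intro j
    obtain ⟨y, hy⟩ := g j
    have h : y ∈ (aeval f : F[X] →ₐ[F] K).range := by
      rwa [← Algebra.adjoin_singleton_eq_range_aeval]
    exact h
  choose p hp using h3
  refine ⟨∑ j : Fin (d + 1), C (p j) * X ^ (j : ℕ), ?_, ?_, ?_⟩
  · intro h
    have h4 := congrArg (fun Q => Q.coeff (i : ℕ)) h
    simp only [finset_sum_coeff, coeff_C_mul, coeff_X_pow, coeff_zero] at h4
    rw [Finset.sum_eq_single i] at h4
    · rw [if_pos rfl, mul_one] at h4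
      have h5 := hp i
      rw [h4, map_zero] at h5
      exact hi (Subtype.ext h5.symm)
    · intro j _ hj
      rw [if_neg (fun h => hj (Fin.ext h.symm)), mul_zero]
    · intro h
      exact absurd (Finset.mem_univ i) h
  · refine natDegree_sum_le_of_forall_le _ _ fun j _ => ?_
    exact (natDegree_C_mul_X_pow_le _ _).trans (by have := j.2; omega)
  · unfold evF
    rw [eval₂_finset_sum]
    rw [← hg]
    refine Finset.sum_congr rfl fun j _ => ?_
    rw [eval₂_mul, eval₂_C, eval₂_pow, eval₂_X]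
    show aeval f (p j) * u ^ (j : ℕ) = _
    rw [hp j]
    rfl

/-- A nonzero polynomial over `F` of degree at most `d` whose value at `u` has positive order. -/
theorem exists_P (hv : GeoF F v) {d : ℕ} (f u : Kˣ) (hf : 1 ≤ v.ord f) (hu : v.ord u = 0)
    (hfd : FiniteDimensional F⟮(f : K)⟯ K) (hd : Module.finrank F⟮(f : K)⟯ K ≤ d) :
    ∃ P : F[X], P ≠ 0 ∧ P.natDegree ≤ d ∧ Pos v (aeval (u : K) P) := by
  obtain ⟨Φ, hΦ, hdeg, hev⟩ := rel (F := F) (f : K) (u : K) hfd hd
  have hX : ¬ IsUnit (C (X : F[X]) : F[X][X]) := by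
    rw [isUnit_C]
    exact not_isUnit_X
  obtain ⟨Ψ, h1, h2⟩ := (FiniteMultiplicity.of_not_isUnit hX hΦ).exists_eq_pow_mul_and_not_dvd
  have hf1 : Pos v (f : K) := pos_unit.2 hf
  have hu1 : NN v (u : K) := nn_unit.2 (by omega)
  have hev2 : evF (f : K) (u : K) Ψ = 0 := by
    unfold evF at hev ⊢
    rw [h1, eval₂_mul, eval₂_pow, eval₂_C] at hev
    have h3 : (aeval (f : K) : F[X] →ₐ[F] K).toRingHom X = (f : K) := by
      show aeval (f : K) (X : F[X]) = _
      rw [aeval_X]
    rw [h3] at hev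
    rcases mul_eq_zero.1 hev with h | h
    · exact absurd h (pow_ne_zero _ f.ne_zero)
    · exact h
  have hΨ0 : Ψ ≠ 0 := by
    rintro rfl
    exact h2 (dvd_zero _)
  have hdeg2 : Ψ.natDegree ≤ d := by
    refine le_trans ?_ hdeg
    rw [h1]
    refine (natDegree_le_of_dvd (Dvd.intro_left _ rfl) ?_)
    rw [← h1]
    exact hΦ
  refine ⟨Ψ.map constantCoeff, ?_, natDegree_map_le.trans hdeg2, ?_⟩
  · intro h
    apply h2
    rw [C_dvd_iff_dvd_coeff]
    intro i
    have h4 := congrArg (fun Q => Q.coeff i) h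
    simp only [coeff_map, coeff_zero, constantCoeff_apply] at h4
    exact X_dvd_iff.2 h4
  · have h5 : aeval (u : K) (Ψ.map constantCoeff) =
        ∑ i ∈ Finset.range (Ψ.natDegree + 1), (algebraMap F K ((Ψ.coeff i).coeff 0)) * (u : K) ^ i := by
      rw [aeval_eq_sum_range' (n := Ψ.natDegree + 1) (by
        have := natDegree_map_le (f := (constantCoeff : F[X] →+* F)) (p := Ψ)
        omega)]
      refine Finset.sum_congr rfl fun i _ => ?_
      rw [Algebra.smul_def, coeff_map, constantCoeff_apply]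
    have h6 : evF (f : K) (u : K) Ψ =
        ∑ i ∈ Finset.range (Ψ.natDegree + 1), (aeval (f : K) (Ψ.coeff i)) * (u : K) ^ i := by
      unfold evF
      rw [eval₂_eq_sum_range]
      rfl
    have h7 : aeval (u : K) (Ψ.map constantCoeff) = - ∑ i ∈ Finset.range (Ψ.natDegree + 1),
        (aeval (f : K) (Ψ.coeff i) - algebraMap F K ((Ψ.coeff i).coeff 0)) * (u : K) ^ i := by
      rw [h5, eq_neg_iff_add_eq_zero, ← Finset.sum_add_distrib, ← hev2, h6]
      refine Finset.sum_congr rfl fun i _ => ?_
      ring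
    rw [h7]
    refine pos_neg (pos_sum _ _ fun i _ => ?_)
    exact pos_mul_nn (aeval_pos hv hf1 _) (nn_pow hu1 i)

/-- The polynomials over `F` whose value at `u` has positive order. -/
def idl (hv : GeoF F v) (u : K) (hu : NN v u) : Ideal F[X] where
  carrier := {P | Pos v (aeval u P)}
  add_mem' := by
    intro a b ha hb
    show Pos v (aeval u (a + b))
    rw [map_add]
    exact pos_add ha hb
  zero_mem' := by
    show Pos v (aeval u 0)
    rw [map_zero]
    exact pos_zero
  smul_mem' := by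
    intro c x hx
    show Pos v (aeval u (c • x))
    rw [smul_eq_mul, map_mul, mul_comm]
    exact pos_mul_nn hx (nn_aeval hv hu c)

theorem mem_idl (hv : GeoF F v) (u : K) (hu : NN v u) (P : F[X]) :
    P ∈ idl hv u hu ↔ Pos v (aeval u P) := Iff.rfl

theorem idl_prime (hv : GeoF F v) (u : K) (hu : NN v u) : (idl hv u hu).IsPrime := by
  constructor
  · rw [Ne, Ideal.eq_top_iff_one]
    intro h
    rw [mem_idl, map_one] at h
    exact not_pos_one h
  · intro a b hab
    rw [mem_idl, map_mul] at hab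
    rcases nn_aeval hv hu a with ha | ⟨x, hx, hx0⟩
    · exact Or.inl (Or.inl ha)
    rcases nn_aeval hv hu b with hb | ⟨y, hy, hy0⟩
    · exact Or.inr (Or.inl hb)
    rw [← hx, ← hy, ← Units.val_mul, pos_unit, v.ord_mul] at hab
    rcases le_or_gt 1 (v.ord x) with h | h
    · exact Or.inl (Or.inr ⟨x, hx, h⟩)
    · exact Or.inr (Or.inr ⟨y, hy, by omega⟩)

/-- Roots of unity in a finite extension of `F`. -/
theorem totient_le (F : Type) [Field F] [NumberField F] {D d : ℕ} (hD : Module.finrank ℚ F ≤ D)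
    (p : F[X]) (hp : Irreducible p) (hd : p.natDegree ≤ d) (M : ℕ) (hM : 0 < M)
    (h : p ∣ X ^ M - 1) :
    ∃ n : ℕ, 0 < n ∧ n.totient ≤ D * d ∧ p ∣ X ^ n - 1 := by
  have : Fact (Irreducible p) := ⟨hp⟩
  have : FiniteDimensional F (AdjoinRoot p) := (AdjoinRoot.powerBasis hp.ne_zero).finite
  have : CharZero (AdjoinRoot p) := charZero_of_injective_algebraMap (algebraMap F _).injective
  have : FiniteDimensional ℚ (AdjoinRoot p) := Module.Finite.trans F (AdjoinRoot p)
  have h1 : (AdjoinRoot.root p) ^ M = 1 := by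
    have h2 : AdjoinRoot.mk p (X ^ M - 1) = 0 := AdjoinRoot.mk_eq_zero.2 h
    rw [map_sub, map_pow, map_one, AdjoinRoot.mk_X, sub_eq_zero] at h2
    exact h2
  have h3 : 0 < orderOf (AdjoinRoot.root p) := by
    rw [orderOf_pos_iff]
    exact isOfFinOrder_iff_pow_eq_one.2 ⟨M, hM, h1⟩
  have h4 : IsPrimitiveRoot (AdjoinRoot.root p) (orderOf (AdjoinRoot.root p)) :=
    IsPrimitiveRoot.orderOf _
  refine ⟨orderOf (AdjoinRoot.root p), h3, ?_, ?_⟩
  · have h5 := cyclotomic_eq_minpoly_rat h4 h3
    have h6 : (orderOf (AdjoinRoot.root p)).totient =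
        (minpoly ℚ (AdjoinRoot.root p)).natDegree := by
      rw [← h5, natDegree_cyclotomic]
    rw [h6]
    refine (minpoly.natDegree_le _).trans ?_
    rw [← Module.finrank_mul_finrank ℚ F (AdjoinRoot p)]
    refine Nat.mul_le_mul hD ?_
    rw [(AdjoinRoot.powerBasis hp.ne_zero).finrank, AdjoinRoot.powerBasis_dim]
    exact hd
  · rw [← AdjoinRoot.mk_eq_zero, map_sub, map_pow, map_one, AdjoinRoot.mk_X, sub_eq_zero]
    exact pow_orderOf_eq_one _

theorem core (hv : GeoF F v) [NumberField F] {D d n₀ : ℕ} (hD : Module.finrank ℚ F ≤ D)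
    (hn₀ : ∀ n : ℕ, 0 < n → n.totient ≤ D * d → n ≤ n₀) (f u : Kˣ) (hf : 1 ≤ v.ord f)
    (hu : v.ord u = 0) (hfd : FiniteDimensional F⟮(f : K)⟯ K)
    (hd : Module.finrank F⟮(f : K)⟯ K ≤ d) (M : ℕ) (hM : 0 < M) (hM1 : v.IsOne (u ^ M)) :
    v.IsOne (u ^ n₀.factorial) := by
  obtain ⟨P, hP0, hPd, hP⟩ := exists_P hv f u hf hu hfd hd
  have hu1 : NN v (u : K) := nn_unit.2 (by omega)
  have hpr := idl_prime hv (u : K) hu1
  have hne : idl hv (u : K) hu1 ≠ ⊥ := by
    intro h
    have h1 : P ∈ idl hv (u : K) hu1 := hP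
    rw [h, Ideal.mem_bot] at h1
    exact hP0 h1
  obtain ⟨p, hp⟩ := (IsPrincipalIdealRing.principal (idl hv (u : K) hu1)).principal
  rw [Ideal.submodule_span_eq] at hp
  have hp0 : p ≠ 0 := by
    rintro rfl
    apply hne
    rw [hp]
    simp
  have hirr : Irreducible p := by
    rw [hp, Ideal.span_singleton_prime hp0] at hpr
    exact hpr.irreducible
  have hmem : ∀ Q : F[X], p ∣ Q ↔ Pos v (aeval (u : K) Q) := by
    intro Q
    rw [← Ideal.mem_span_singleton, ← hp]
    rfl
  have hpd : p.natDegree ≤ d := (natDegree_le_of_dvd ((hmem P).2 hP) hP0).trans hPd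
  have hpM : p ∣ X ^ M - 1 := by
    rw [hmem, map_sub, map_pow, map_one, aeval_X]
    rcases hM1 with h | ⟨w, h, h1⟩
    · left
      rw [← Units.val_pow_eq_pow_val, h, Units.val_one, sub_self]
    · right
      refine ⟨w, ?_, h1⟩
      rw [← h, Units.val_pow_eq_pow_val]
  obtain ⟨n, hn, hn1, hn2⟩ := totient_le F hD p hirr hpd M hM hpM
  have h8 : p ∣ X ^ n₀.factorial - 1 := by
    refine hn2.trans ?_
    obtain ⟨c, hc⟩ := Nat.dvd_factorial hn (hn₀ n hn hn1)
    rw [hc, pow_mul]
    exact sub_one_dvd_pow_sub_one _ _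
  rw [hmem, map_sub, map_pow, map_one, aeval_X] at h8
  apply isOne_of_pos
  rwa [Units.val_pow_eq_pow_val]

end NFMM

open NFMM in
theorem specNFM (hPHB : SpecPHB) : SpecNFM := by
  intro D d
  obtain ⟨n₀, hn₀⟩ := hPHB (D * d)
  refine ⟨n₀.factorial, Nat.factorial_pos _, ?_⟩
  intro F K _ _ _ _ hD hFun v hv f u hf hdeg hu ⟨M, hM, hM1⟩
  rcases lt_or_gt_of_ne hf with h | h
  · have h1 : 1 ≤ v.ord f⁻¹ := by
      rw [v.ord_inv]
      omega
    have h2 : F⟮((f⁻¹ : Kˣ) : K)⟯ = F⟮(f : K)⟯ := by
      rw [Units.val_inv_eq_inv_val]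
      apply le_antisymm
      · rw [adjoin_simple_le_iff]
        exact inv_mem (mem_adjoin_simple_self F _)
      · rw [adjoin_simple_le_iff]
        have := inv_mem (mem_adjoin_simple_self F ((f : K)⁻¹))
        rwa [inv_inv] at this
    have h3 := transc_of_pos hv _ h1
    have h4 := fdx hFun h3
    refine core hv hD hn₀ f⁻¹ u h1 hu h4 ?_ M hM hM1
    rw [h2]
    exact hdeg
  · exact core hv hD hn₀ f u h hu (fdx hFun (transc_of_pos hv _ h)) hdeg M hM hM1

end MP743d1e.BD
end

section
/-!
# NFT: tame symbols over the algebraic closure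
-/
set_option autoImplicit false

namespace MP743d1e.BD.NFTM

open scoped BigOperators
open Polynomial IntermediateField MP743d1e.CY MP743d1e.GX

theorem nsmul_tame {K : Type} [Field K] (v : DVal K) (n : ℕ) (f g : Kˣ) :
    n • tame v (sym f g) = 0 ↔ v.IsOne (v.tameUnit f g ^ n) := by
  rw [tame_sym, ← DVal.mem_U1, ← QuotientGroup.eq_one_iff, ← ofMul_pow, QuotientGroup.mk_pow]
  rfl

/-- The restriction of a valuation which is not trivial. -/
theorem restr {K L : Type} [Field K] [Field L] [Algebra K L] (w : DVal L)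
    (h : ∃ u : Kˣ, w.ord (um K L u) ≠ 0) :
    ∃ (v : DVal K) (e : ℕ), 0 < e ∧ ∀ u : Kˣ, w.ord (um K L u) = e * v.ord u := by
  let ψ : Additive Kˣ →+ ℤ :=
    { toFun := fun u => w.ord (um K L (Additive.toMul u))
      map_zero' := by
        rw [toMul_zero, map_one, w.ord_one]
      map_add' := fun a b => by
        rw [toMul_add, map_mul, w.ord_mul] }
  have hψ : ∀ u : Kˣ, ψ (Additive.ofMul u) = w.ord (um K L u) := fun u => rfl
  obtain ⟨a, ha⟩ := Int.subgroup_cyclic ψ.range
  have hdvd : ∀ u : Kˣ, a ∣ w.ord (um K L u) := by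
    intro u
    have h1 : w.ord (um K L u) ∈ ψ.range := ⟨Additive.ofMul u, rfl⟩
    rw [ha, AddSubgroup.mem_closure_singleton] at h1
    obtain ⟨n, hn⟩ := h1
    exact ⟨n, by rw [← hn, smul_eq_mul, mul_comm]⟩
  have ha0 : a ≠ 0 := by
    rintro rfl
    obtain ⟨u, hu⟩ := h
    exact hu (zero_dvd_iff.1 (hdvd u))
  have hpos : 0 < a.natAbs := Int.natAbs_pos.2 ha0
  have hmul : ∀ u : Kˣ, w.ord (um K L u) = (a.natAbs : ℤ) * (w.ord (um K L u) / a.natAbs) := by
    intro u
    exact (Int.mul_ediv_cancel' (Int.natAbs_dvd.2 (hdvd u))).symm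
  have hposz : (0 : ℤ) < (a.natAbs : ℤ) := by exact_mod_cast hpos
  refine ⟨{ ord := fun u => w.ord (um K L u) / a.natAbs
            ord_mul := ?_
            surj := ?_
            ord_add := ?_ }, a.natAbs, hpos, hmul⟩
  · intro f g
    have h1 := hmul f
    have h2 := hmul g
    have h3 := hmul (f * g)
    rw [map_mul, w.ord_mul] at h3
    apply mul_left_cancel₀ hposz.ne'
    rw [map_mul, w.ord_mul]
    rw [← h3, mul_add, ← h1, ← h2]
  · intro n
    have h1 : (a.natAbs : ℤ) * n ∈ ψ.range := by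
      rw [ha, AddSubgroup.mem_closure_singleton]
      obtain ⟨c, hc⟩ : a ∣ (a.natAbs : ℤ) * n := Dvd.dvd.mul_right (Int.dvd_natAbs.2 dvd_rfl) n
      exact ⟨c, by rw [hc, smul_eq_mul, mul_comm]⟩
    obtain ⟨u, hu⟩ := h1
    refine ⟨Additive.toMul u, ?_⟩
    have h2 : w.ord (um K L (Additive.toMul u)) = (a.natAbs : ℤ) * n := hu
    dsimp only
    rw [h2, Int.mul_ediv_cancel_left _ hposz.ne']
  · intro f g h hfg
    have h1 := w.ord_add (um K L f) (um K L g) (um K L h) (by
      show algebraMap K L f + algebraMap K L g = algebraMap K L h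
      rw [← map_add, hfg])
    rcases le_total (w.ord (um K L f)) (w.ord (um K L g)) with h2 | h2
    · rw [min_eq_left h2] at h1
      exact (min_le_left _ _).trans (Int.ediv_le_ediv hposz h1)
    · rw [min_eq_right h2] at h1
      exact (min_le_right _ _).trans (Int.ediv_le_ediv hposz h1)

theorem sign (e : ℕ) (a b : ℤ) :
    ((-1 : ℤˣ) ^ ((e * a) * (e * b))) = ((-1) ^ (a * b)) ^ e := by
  have h1 : (e * a) * (e * b) = (a * b) * e * e := by ring
  rw [h1, zpow_mul, zpow_mul, zpow_natCast, zpow_natCast]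
  rcases Nat.even_or_odd e with he | he
  · rw [← pow_mul]
    have h2 : Even (e * e) := he.mul_right e
    rcases Int.units_eq_one_or ((-1 : ℤˣ) ^ (a * b)) with h | h
    · rw [h, one_pow, one_pow]
    · rw [h, h2.neg_one_pow, he.neg_one_pow]
  · rw [← pow_mul]
    have h2 : Odd (e * e) := he.mul he
    rcases Int.units_eq_one_or ((-1 : ℤˣ) ^ (a * b)) with h | h
    · rw [h, one_pow, one_pow]
    · rw [h, h2.neg_one_pow, he.neg_one_pow]

theorem negone_map {L : Type} [Field L] (n : ℤ) :
    ((-1 : Lˣ) ^ n) = Units.map (Int.castRingHom L).toMonoidHom ((-1 : ℤˣ) ^ n) := by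
  rw [map_zpow]
  congr 1
  ext
  simp

/-- The tame units of `v` and of `w = e v`. -/
theorem tameUnit_eq {K L : Type} [Field K] [Field L] [Algebra K L] (w : DVal L) (v : DVal K)
    (e : ℕ) (h : ∀ u : Kˣ, w.ord (um K L u) = e * v.ord u) (f g : Kˣ) :
    w.tameUnit (um K L f) (um K L g) = um K L (v.tameUnit f g) ^ e := by
  unfold DVal.tameUnit
  rw [h f, h g, map_mul, map_mul, map_zpow, map_zpow, map_zpow, mul_pow, mul_pow]
  have h1 : um K L (-1) = -1 := by
    ext
    simp
  rw [h1]
  congr 1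
  · congr 1
    · rw [negone_map, negone_map, sign, map_pow]
    · rw [← zpow_natCast, ← zpow_mul, mul_comm (e : ℤ)]
  · rw [← zpow_natCast, ← zpow_mul]
    congr 1
    ring

end MP743d1e.BD.NFTM

namespace MP743d1e.BD

open Polynomial IntermediateField MP743d1e.CY MP743d1e.GX

theorem specNFT (hNFM : SpecNFM) : SpecNFT := by
  intro D d
  obtain ⟨N, hN, h⟩ := hNFM D d
  refine ⟨N, hN, ?_⟩
  intro F K k L _ _ _ _ _ _ _ _ _ _ _ _ hD hFun f g hf hg htor w hw
  rw [NFTM.nsmul_tame]
  by_cases h0 : w.ord (um K L f) = 0 ∧ w.ord (um K L g) = 0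
  · have h1 : w.tameUnit (um K L f) (um K L g) = 1 := by
      unfold DVal.tameUnit
      rw [h0.1, h0.2]
      simp
    rw [h1, one_pow]
    exact Or.inl rfl
  obtain ⟨v, e, he, hv⟩ := NFTM.restr (K := K) w (by
    by_cases hf0 : w.ord (um K L f) = 0
    · exact ⟨g, fun hg0 => h0 ⟨hf0, hg0⟩⟩
    · exact ⟨f, hf0⟩)
  have he0 : (e : ℤ) ≠ 0 := by exact_mod_cast he.ne'
  have hgeo : GeoF F v := by
    rintro c ⟨r, hr⟩
    have h1 : w.ord (um K L c) = 0 := by
      refine hw _ ⟨algebraMap F k r, ?_⟩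
      show algebraMap K L c = _
      rw [hr, ← IsScalarTower.algebraMap_apply F K L, ← IsScalarTower.algebraMap_apply F k L]
    rw [hv c] at h1
    exact (mul_eq_zero.1 h1).resolve_left he0
  obtain ⟨M, hM, hM1⟩ := htor v hgeo
  rw [NFTM.nsmul_tame] at hM1
  have key : v.IsOne (v.tameUnit f g ^ N) := by
    by_cases hf0 : v.ord f = 0
    · have hg0 : v.ord g ≠ 0 := by
        intro hg0
        apply h0
        rw [hv f, hv g, hf0, hg0, mul_zero]
        exact ⟨rfl, rfl⟩
      exact h F K hD hFun v hgeo g _ hg0 hg (v.ord_tameUnit f g) ⟨M, hM, hM1⟩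
    · exact h F K hD hFun v hgeo f _ hf0 hf (v.ord_tameUnit f g) ⟨M, hM, hM1⟩
  have key2 : w.IsOne (um K L (v.tameUnit f g ^ N)) := by
    rcases key with h1 | ⟨u, hu, h1⟩
    · left
      rw [h1, map_one]
    · right
      refine ⟨um K L u, ?_, ?_⟩
      · show algebraMap K L _ - 1 = algebraMap K L u
        rw [← hu, map_sub, map_one]
      · rw [hv u]
        have : (1 : ℤ) ≤ e := by exact_mod_cast he
        nlinarith
  rw [NFTM.tameUnit_eq w v e hv, ← pow_mul, mul_comm e N, pow_mul, ← map_pow]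
  rw [← DVal.mem_U1] at key2 ⊢
  exact Subgroup.pow_mem _ key2 e

end MP743d1e.BD
end

section
/-!
# PEX: places extend to finite extensions
-/
set_option autoImplicit false

namespace MP743d1e.BD

open scoped BigOperators
open Polynomial IntermediateField MP743d1e.CY MP743d1e.GX MP743d1e.Integ Filter

namespace PEXM

section

variable {E : Type} [Field E] (v : DVal E)

/-- The valuation ring, as a subring. -/
def rg : Subring E := (FNVM.vsub v).toSubring

theorem mem_rg {x : E} : x ∈ rg v ↔ NN v x := Iff.rfl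

theorem frac_rg : IsFractionRing (rg v) E :=
  inferInstanceAs (IsFractionRing (FNVM.vsub v) E)

theorem pid_rg : IsPrincipalIdealRing (rg v) := by
  classical
  refine ⟨fun I => ?_⟩
  by_cases hI : I = ⊥
  · rw [hI]; exact bot_isPrincipal
  · obtain ⟨a, haI, ha0⟩ := Submodule.exists_mem_ne_zero_of_ne_bot hI
    have hex : ∃ n : ℕ, ∃ (u : Eˣ) (h : (u : E) ∈ rg v), (⟨u, h⟩ : rg v) ∈ I ∧ v.ord u = n := by
      have ha1 : (a : E) ≠ 0 := fun h => ha0 (Subtype.ext h)
      have hnn : NN v ((Units.mk0 (a : E) ha1 : Eˣ) : E) := a.2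
      have h0 : 0 ≤ v.ord (Units.mk0 (a : E) ha1) := nn_unit.1 hnn
      exact ⟨(v.ord (Units.mk0 (a : E) ha1)).toNat, Units.mk0 (a : E) ha1, hnn, haI,
        (Int.toNat_of_nonneg h0).symm⟩
    obtain ⟨u, hu, huI, hord⟩ := Nat.find_spec hex
    have hmin := fun m (hm : m < Nat.find hex) => Nat.find_min hex hm
    refine ⟨⟨⟨u, hu⟩, ?_⟩⟩
    apply le_antisymm
    · intro c hc
      rw [Submodule.mem_span_singleton]
      by_cases hc0 : (c : E) = 0
      · refine ⟨0, ?_⟩
        rw [zero_smul]
        exact Subtype.ext hc0.symm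
      · have hnn : NN v ((Units.mk0 (c : E) hc0 : Eˣ) : E) := c.2
        have h0 : 0 ≤ v.ord (Units.mk0 (c : E) hc0) := nn_unit.1 hnn
        have h1 : v.ord u ≤ v.ord (Units.mk0 (c : E) hc0) := by
          by_contra hlt
          rw [not_le] at hlt
          refine hmin (v.ord (Units.mk0 (c : E) hc0)).toNat (by omega)
            ⟨Units.mk0 (c : E) hc0, hnn, hc, (Int.toNat_of_nonneg h0).symm⟩
        have h2 : NN v ((Units.mk0 (c : E) hc0 * u⁻¹ : Eˣ) : E) := by
          rw [nn_unit, v.ord_mul, v.ord_inv]; omega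
        refine ⟨⟨_, h2⟩, ?_⟩
        apply Subtype.ext
        show ((Units.mk0 (c : E) hc0 * u⁻¹ : Eˣ) : E) * (u : E) = (c : E)
        rw [← Units.val_mul, inv_mul_cancel_right, Units.val_mk0]
    · rw [Submodule.span_singleton_le_iff_mem]
      exact huI

end

end PEXM

open PEXM

theorem specPEX : SpecPEX := by
  intro k E K _ _ _ _ _ _ _ _ hfin v hg
  have hpid : IsPrincipalIdealRing (rg v) := pid_rg v
  have hfr : IsFractionRing (rg v) E := frac_rg v
  have hdedO : IsDedekindDomain (rg v) := inferInstance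
  have hsep : Algebra.IsSeparable E K := inferInstance
  have hded : IsDedekindDomain (integralClosure (rg v) K) :=
    IsIntegralClosure.isDedekindDomain (rg v) E K (integralClosure (rg v) K)
  have hfrac : IsFractionRing (integralClosure (rg v) K) K :=
    integralClosure.isFractionRing_of_finite_extension E K
  obtain ⟨π, hπ⟩ := v.surj 1
  have hπO : NN v (π : E) := by rw [nn_unit, hπ]; norm_num
  let a : rg v := ⟨(π : E), hπO⟩
  let b : integralClosure (rg v) K := algebraMap (rg v) (integralClosure (rg v) K) a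
  have hbu : algebraMap (integralClosure (rg v) K) K b = algebraMap E K (π : E) := rfl
  have hb0 : b ≠ 0 := by
    intro h
    rw [h, map_zero] at hbu
    exact π.ne_zero ((map_eq_zero _).1 hbu.symm)
  have ha : ¬ IsUnit a := by
    intro h
    obtain ⟨c, hc⟩ := h.exists_right_inv
    have hc1 : (π : E) * (c : E) = 1 := congrArg Subtype.val hc
    have hc2 : (c : E) = ((π⁻¹ : Eˣ) : E) := by
      rw [Units.val_inv_eq_inv_val]
      exact eq_inv_of_mul_eq_one_right hc1
    have hc3 : NN v ((π⁻¹ : Eˣ) : E) := by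
      rw [← hc2]; exact c.2
    rw [nn_unit, v.ord_inv, hπ] at hc3
    omega
  have hint : Algebra.IsIntegral (rg v) (integralClosure (rg v) K) := inferInstance
  have hfs : FaithfulSMul (rg v) (integralClosure (rg v) K) := by
    rw [faithfulSMul_iff_algebraMap_injective, injective_iff_map_eq_zero]
    intro c hc
    have h1 : algebraMap E K (c : E) = algebraMap (integralClosure (rg v) K) K
          (algebraMap (rg v) (integralClosure (rg v) K) c) := rfl
    rw [hc, map_zero, map_eq_zero] at h1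
    exact Subtype.ext h1
  have hloc : IsLocalHom (algebraMap (rg v) (integralClosure (rg v) K)) := inferInstance
  have hnu : b ∈ nonunits (integralClosure (rg v) K) := fun h => ha (hloc.map_nonunit a h)
  obtain ⟨P, hP, hmem⟩ := exists_max_ideal_of_mem_nonunits hnu
  have hPbot : P ≠ ⊥ := by
    intro h
    rw [h, Ideal.mem_bot] at hmem
    exact hb0 hmem
  let p : IsDedekindDomain.HeightOneSpectrum (integralClosure (rg v) K) := ⟨P, hP.isPrime, hPbot⟩
  set w : DVal K := PlaceQ.dval p with hw
  have hnn : ∀ u : Eˣ, 0 ≤ v.ord u → 0 ≤ w.ord (Units.map (algebraMap E K : E →* K) u) := by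
    intro u hu
    have hle : p.valuation K (algebraMap E K (u : E)) ≤ 1 := by
      let c : rg v := ⟨(u : E), nn_unit.2 hu⟩
      have : algebraMap E K (u : E) = algebraMap (integralClosure (rg v) K) K
          (algebraMap (rg v) (integralClosure (rg v) K) c) := rfl
      rw [this]
      exact p.valuation_le_one _
    have hne : p.valuation K (algebraMap E K (u : E)) ≠ 0 :=
      (Valuation.ne_zero_iff _).mpr ((_root_.map_ne_zero _).2 u.ne_zero)
    have h3 := (WithZero.log_le_log hne one_ne_zero).mpr hle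
    rw [WithZero.log_one] at h3
    show 0 ≤ -(WithZero.log (p.valuation K (algebraMap E K (u : E))))
    omega
  have h0 : ∀ u : Eˣ, v.ord u = 0 → w.ord (Units.map (algebraMap E K : E →* K) u) = 0 := by
    intro u hu
    have h1 := hnn u hu.ge
    have h2 := hnn u⁻¹ (by rw [v.ord_inv]; omega)
    rw [map_inv, w.ord_inv] at h2
    omega
  have he : ∀ u : Eˣ, w.ord (Units.map (algebraMap E K : E →* K) u) =
      w.ord (Units.map (algebraMap E K : E →* K) π) * v.ord u := by
    intro u
    have h1 := h0 (u * π ^ (-(v.ord u))) (by rw [v.ord_mul, v.ord_zpow, hπ]; ring)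
    rw [map_mul, map_zpow, w.ord_mul, w.ord_zpow] at h1
    linarith
  refine ⟨w, w.ord (Units.map (algebraMap E K : E →* K) π), ?_, ?_, he⟩
  · show 0 < -(WithZero.log (p.valuation K (algebraMap E K (π : E))))
    have h1 : p.valuation K (algebraMap (integralClosure (rg v) K) K b) < 1 :=
      (p.valuation_lt_one_iff_mem _).mpr hmem
    rw [hbu] at h1
    have h3 := (WithZero.log_lt_log ((Valuation.ne_zero_iff (p.valuation K)).mpr
      ((_root_.map_ne_zero (algebraMap E K)).2 π.ne_zero)) one_ne_zero).mpr h1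
    rw [WithZero.log_one] at h3
    omega
  · intro c hc
    obtain ⟨r, hr⟩ := hc
    have hr0 : algebraMap k E r ≠ 0 := by
      intro h
      rw [IsScalarTower.algebraMap_apply k E K, h, map_zero] at hr
      exact c.ne_zero hr
    have h1 : v.ord (Units.mk0 _ hr0) = 0 := hg _ ⟨r, rfl⟩
    have h2 : c = Units.map (algebraMap E K : E →* K) (Units.mk0 _ hr0) := by
      apply Units.ext
      rw [hr, IsScalarTower.algebraMap_apply k E K]
      rfl
    rw [h2, h0 _ h1]

end MP743d1e.BD
end

section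
/-!
# PHB
-/
set_option autoImplicit false

namespace MP743d1e.BD

theorem specPHB : SpecPHB := by
  intro B
  refine ⟨(2 * B).factorial, ?_⟩
  intro n hn hB
  refine Nat.le_of_dvd (Nat.factorial_pos _) ?_
  rw [Nat.dvd_iff_prime_pow_dvd_dvd]
  intro p k hp hk
  rcases Nat.eq_zero_or_pos k with rfl | hk0
  · rw [pow_zero]
    exact one_dvd _
  apply Nat.dvd_factorial (pow_pos hp.pos k)
  have h1 : (p ^ k).totient ≤ B :=
    (Nat.le_of_dvd (Nat.totient_pos.2 hn) (Nat.totient_dvd_of_dvd hk)).trans hB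
  rw [Nat.totient_prime_pow hp hk0] at h1
  have h2 : p ≤ 2 * (p - 1) := by
    have := hp.two_le
    omega
  calc p ^ k = p ^ (k - 1) * p := by
        rw [← pow_succ, Nat.sub_add_cancel hk0]
    _ ≤ p ^ (k - 1) * (2 * (p - 1)) := Nat.mul_le_mul_left _ h2
    _ = 2 * (p ^ (k - 1) * (p - 1)) := by ring
    _ ≤ 2 * B := Nat.mul_le_mul_left _ h1

end MP743d1e.BD
end

section
/-!
# RCO: the regulator of constants
-/
set_option autoImplicit false

namespace MP743d1e.BD

open scoped BigOperators
open Polynomial IntermediateField MP743d1e.CY MP743d1e.GX MP743d1e.Integ Filter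

namespace RCOM

/-- a continuous family of embeddings is constant on algebraic elements -/
theorem const_ev {k L : Type} [Field k] [Field L] [Algebra k L] [CharZero k]
    (h : Algebra.IsAlgebraic ℚ k) (γ : Loop L) (c : k) (θ θ' : ℝ) :
    γ.ev θ (algebraMap k L c) = γ.ev θ' (algebraMap k L c) := by
  have hp : minpoly ℚ c ≠ 0 := minpoly.ne_zero (h.isAlgebraic c).isIntegral
  set T : Set ℂ := (minpoly ℚ c).rootSet ℂ with hT
  have hfin : T.Finite := Polynomial.rootSet_finite _ _
  have hmem : ∀ t : ℝ, γ.ev t (algebraMap k L c) ∈ T := by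
    intro t
    rw [hT, Polynomial.mem_rootSet_of_ne hp]
    have h1 := Polynomial.aeval_algHom_apply
      (((γ.ev t).comp (algebraMap k L)).toRatAlgHom) c (minpoly ℚ c)
    rw [minpoly.aeval, map_zero] at h1
    exact h1
  exact isPreconnected_univ.constant_of_mapsTo (T := T)
    (f := fun t : ℝ => γ.ev t (algebraMap k L c)) hfin.isDiscrete
    (γ.smooth _).continuous.continuousOn (fun t _ => hmem t) (Set.mem_univ _) (Set.mem_univ _)

end RCOM

theorem specRCO : SpecRCO := by
  constructor
  · intro k L _ _ _ _ h γ c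
    have h1 : (reg γ).comp (mk2 k L) = 0 := by
      apply K2.hom_ext
      intro f g
      rw [AddMonoidHom.comp_apply, AddMonoidHom.zero_apply, ConstM.mapK_sym, reg_eq, regOf_sym]
      have hf : (fun θ => γ.ev θ ((Units.map (algebraMap k L : k →* L) f : Lˣ) : L)) =
          fun _ => γ.ev 0 (algebraMap k L f) := by
        funext θ
        exact RCOM.const_ev h γ f θ 0
      have hg : (fun θ => γ.ev θ ((Units.map (algebraMap k L : k →* L) g : Lˣ) : L)) =
          fun _ => γ.ev 0 (algebraMap k L g) := by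
        funext θ
        exact RCOM.const_ev h γ g θ 0
      rw [hf, hg]
      unfold regInt
      simp
    exact DFunLike.congr_fun h1 c
  · intro K L _ _ _ γ γ' h β
    have h1 : (reg γ').comp (mk2 K L) = reg γ := by
      apply K2.hom_ext
      intro f g
      rw [AddMonoidHom.comp_apply, ConstM.mapK_sym, reg_eq, reg_eq, regOf_sym, regOf_sym]
      have hf : ∀ u : Kˣ, (fun θ => γ'.ev θ ((Units.map (algebraMap K L : K →* L) u : Lˣ) : L)) =
          fun θ => γ.ev θ (u : K) := by
        intro u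
        funext θ
        exact h θ u
      rw [hf f, hf g]
    exact DFunLike.congr_fun h1 β

end MP743d1e.BD
end

section
/-!
# RDP: reduction modulo the functions without poles at finite distance
-/
set_option autoImplicit false

namespace MP743d1e.BD

open scoped BigOperators
open Polynomial IntermediateField MP743d1e.CY MP743d1e.GX MP743d1e.Integ Filter

namespace RDPM

/-- division with remainder of a rational function of `x` -/
theorem split (k K : Type) [Field k] [Field K] [Algebra k K] (x : K) (φ : k⟮x⟯) :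
    ∃ s : k[X], DegX k x (-1) (algebraMap k⟮x⟯ K φ - aeval x s) := by
  obtain ⟨r, q, hφ⟩ := (mem_adjoin_simple_iff k (φ : K)).1 φ.2
  have hφ' : algebraMap k⟮x⟯ K φ = aeval x r / aeval x q := hφ
  by_cases hq : aeval x q = 0
  · refine ⟨0, 0, X, X_ne_zero, ?_, ?_⟩
    · rw [hφ', hq]
      simp
    · simp
  · have hq0 : q ≠ 0 := by
      rintro rfl
      exact hq (by simp)
    refine ⟨r / q, ?_⟩
    have h1 : q * (r / q) + r % q = r := EuclideanDomain.div_add_mod r q
    have h2 : algebraMap k⟮x⟯ K φ * aeval x q = aeval x q * aeval x (r / q) + aeval x (r % q) := by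
      rw [← map_mul, ← map_add, h1, hφ', div_mul_cancel₀ _ hq]
    by_cases h0 : r % q = 0
    · refine ⟨0, X, X_ne_zero, ?_, by simp⟩
      rw [h0, map_zero, add_zero, mul_comm (aeval x q)] at h2
      have h3 := mul_right_cancel₀ hq h2
      rw [h3, sub_self, zero_mul, map_zero]
    · refine ⟨r % q, q, hq0, ?_, ?_⟩
      · rw [sub_mul, h2]
        ring
      · have h3 : (r % q).degree < q.degree := EuclideanDomain.mod_lt r hq0
        have h4 : (r % q).natDegree < q.natDegree := natDegree_lt_natDegree h0 h3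
        omega

end RDPM

theorem specRDP (hUPA : SpecUPA) : SpecRDP := by
  intro k K _ _ _ _ _ hF x hx n b hb A hA hAx
  classical
  obtain ⟨u, hu, hv⟩ := hUPA k K hF x A hx hA hAx
  choose s hs using fun i => RDPM.split k K x (b.repr (u : K) i)
  have hg : ∀ p : k[X], algebraMap k⟮x⟯ K (aeval (AdjoinSimple.gen k x) p) = aeval x p := by
    intro p
    rw [← Polynomial.aeval_algebraMap_apply, AdjoinSimple.algebraMap_gen]
  set h : K := ∑ i, (aeval (AdjoinSimple.gen k x) (s i) : k⟮x⟯) • b i with hh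
  have hrep : ∀ i, b.repr h i = aeval (AdjoinSimple.gen k x) (s i) := fun i => by
    rw [hh, b.repr_sum_self]
  have hRR : RR k x h := (hb h).2 fun i => ⟨s i, by rw [hrep, hg]⟩
  have hAh : NN A h := hRR A hA hAx
  have hne : (u : K) - h ≠ 0 := by
    intro h0
    rw [← sub_eq_zero.1 h0, nn_unit] at hAh
    omega
  refine ⟨Units.mk0 _ hne, ?_, ?_, ?_⟩
  · rcases hAh with h0 | ⟨w, hw, hw0⟩
    · have : Units.mk0 _ hne = u := Units.ext (by rw [Units.val_mk0, h0, sub_zero])
      rw [this, hu]
    · have h1 := A.ord_add (Units.mk0 _ hne) w u (by rw [Units.val_mk0, hw, sub_add_cancel])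
      have h2 := A.ord_add u (-w) (Units.mk0 _ hne) (by
        rw [Units.val_mk0, Units.val_neg, hw, sub_eq_add_neg])
      rw [A.ord_neg] at h2
      rw [hu] at h1 h2
      omega
  · intro v hGv hxv hvA
    rw [Units.val_mk0]
    exact nn_sub (hv v hGv hxv hvA) (hRR v hGv hxv)
  · intro i
    rw [Units.val_mk0, map_sub, Finsupp.sub_apply, map_sub, hrep, hg]
    exact hs i

end MP743d1e.BD
end

section
/-!
# Theorem BD: module UCE (the ultrapower of a function field)
-/
set_option autoImplicit false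

namespace MP743d1e.BD

open scoped BigOperators
open Polynomial IntermediateField MP743d1e.CY MP743d1e.GX MP743d1e.Integ Filter

namespace UCEM

/-- The diagonal embedding in the ultrapower. -/
noncomputable def diag (U : Ultrafilter ℕ) (X : Type) [Field X] : X →+* UP U (fun _ => X) :=
  (UP.mk U).comp (Pi.constRingHom ℕ X)

theorem diag_apply (U : Ultrafilter ℕ) (X : Type) [Field X] (x : X) :
    diag U X x = UP.mk U fun _ => x := rfl

/-- A polynomial over the ultraproduct comes from a sequence of polynomials. -/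
theorem exists_poly (U : Ultrafilter ℕ) (k K : ℕ → Type) [∀ n, Field (k n)] [∀ n, Field (K n)]
    [∀ n, Algebra (k n) (K n)] (P : (UP U k)[X]) :
    ∃ p : ∀ n, (k n)[X], ∀ x : ∀ n, K n,
      aeval (UP.mk U x) P = UP.mk U fun n => aeval (x n) (p n) := by
  induction P using Polynomial.induction_on' with
  | add P Q hP hQ =>
    obtain ⟨p, hp⟩ := hP
    obtain ⟨q, hq⟩ := hQ
    refine ⟨fun n => p n + q n, fun x => ?_⟩
    rw [map_add, hp, hq, ← map_add]
    congr 1
    funext n
    rw [Pi.add_apply, map_add]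
  | monomial j a =>
    obtain ⟨a, rfl⟩ := UP.mk_surj U k a
    refine ⟨fun n => monomial j (a n), fun x => ?_⟩
    rw [aeval_monomial, UP.algebraMap_mk, ← map_pow, ← map_mul]
    congr 1
    funext n
    rw [Pi.mul_apply, Pi.pow_apply, aeval_monomial]

theorem li_use (k M : Type) [Field k] [Field M] [Algebra k M] {n : ℕ} (c : Fin n → M)
    (hc : LinearIndependent k c) (a : Fin n → k) (h : ∑ i, algebraMap k M (a i) * c i = 0)
    (i : Fin n) : a i = 0 := by
  refine Fintype.linearIndependent_iff.1 hc a ?_ i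
  simpa only [Algebra.smul_def] using h

theorem ld_aux (U : Ultrafilter ℕ) (k K : Type) [Field k] [Field K] [Algebra k K]
    [Algebra k (UP U fun _ => k)]
    (hk : ∀ c : k, algebraMap k (UP U fun _ => k) c = UP.mk U fun _ => c)
    (n : ℕ) (r : Fin n → K) (c : Fin n → UP U fun _ => k) (hc : LinearIndependent k c)
    (h : ∑ i, (UP.mk U fun _ => r i : UP U fun _ => K) *
      algebraMap (UP U fun _ => k) (UP U fun _ => K) (c i) = 0) : ∀ i, r i = 0 := by
  classical
  let V : Submodule k K := Submodule.span k (Set.range r)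
  have : FiniteDimensional k V := FiniteDimensional.span_of_finite k (Set.finite_range r)
  let e := Module.finBasis k V
  have hr : ∀ i, r i ∈ V := fun i => Submodule.subset_span ⟨i, rfl⟩
  let a : Fin n → Fin (Module.finrank k V) → k := fun i j => e.repr ⟨r i, hr i⟩ j
  have hra : ∀ i, r i = ∑ j, a i j • (e j : K) := by
    intro i
    have h1 := e.sum_repr ⟨r i, hr i⟩
    have h2 := congrArg (Subtype.val) h1
    simp only [AddSubmonoidClass.coe_finsetSum, Submodule.coe_smul] at h2
    exact h2.symm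
  choose cc hcc using fun i => UP.mk_surj U (fun _ => k) (c i)
  have hli : LinearIndependent k fun j => (e j : K) :=
    e.linearIndependent.map' V.subtype (Submodule.ker_subtype V)
  -- the coefficients
  have h1 : UP.mk U (fun m => ∑ j, (∑ i, a i j * cc i m) • (e j : K)) = (0 : UP U fun _ => K) := by
    rw [← h]
    simp only [← hcc]
    simp only [UP.algebraMap_mk, ← map_mul, ← map_sum]
    congr 1
    funext m
    rw [Finset.sum_apply]
    simp only [Pi.mul_apply]
    simp only [hra]
    simp only [Finset.sum_mul, Finset.sum_smul]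
    rw [Finset.sum_comm]
    refine Finset.sum_congr rfl fun i _ => Finset.sum_congr rfl fun j _ => ?_
    rw [Algebra.smul_def, Algebra.smul_def, map_mul]
    ring
  rw [UP.mk_eq_zero] at h1
  have h2 : ∀ᶠ m in (U : Filter ℕ), ∀ j, ∑ i, a i j * cc i m = 0 := by
    filter_upwards [h1] with m hm
    exact Fintype.linearIndependent_iff.1 hli _ hm
  have h3 : ∀ j, ∑ i, algebraMap k (UP U fun _ => k) (a i j) * c i = 0 := by
    intro j
    have h4 : ∑ i, algebraMap k (UP U fun _ => k) (a i j) * c i =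
        UP.mk U fun m => ∑ i, a i j * cc i m := by
      have h5 : ∀ i, algebraMap k (UP U fun _ => k) (a i j) * c i =
          UP.mk U fun m => a i j * cc i m := by
        intro i
        rw [hk, ← hcc i, ← map_mul]
        rfl
      rw [Finset.sum_congr rfl fun i _ => h5 i, ← map_sum]
      congr 1
      funext m
      rw [Finset.sum_apply]
    rw [h4, UP.mk_eq_zero]
    filter_upwards [h2] with m hm using hm j
  intro i
  rw [hra i]
  refine Finset.sum_eq_zero fun j _ => ?_
  have h6 : a i j = 0 := li_use k _ c hc (fun i => a i j) (h3 j) i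
  rw [h6, zero_smul]

open scoped IntermediateField.algebraAdjoinAdjoin in
theorem li_aux (U : Ultrafilter ℕ) (k K : Type) [Field k] [Field K] [Algebra k K] (z : K)
    [FiniteDimensional k⟮z⟯ K] (z' : Kb U (fun _ => k) fun _ => z)
    (hz' : (z' : UP U fun _ => K) = UP.mk U fun _ => z)
    (φ : K → Kb U (fun _ => k) fun _ => z)
    (hφ : ∀ y, (φ y : UP U fun _ => K) = UP.mk U fun _ => y) :
    LinearIndependent (UP U fun _ => k)⟮z'⟯ fun i => φ (Module.finBasis k⟮z⟯ K i) := by
  rw [← LinearIndependent.iff_fractionRing (Algebra.adjoin (UP U fun _ => k) {z'})]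
  rw [Fintype.linearIndependent_iff]
  intro g hg
  have h1 : ∀ i, ∃ P : (UP U fun _ => k)[X], aeval z' P = (g i : Kb U (fun _ => k) fun _ => z) := by
    intro i
    have h := Algebra.adjoin_singleton_eq_range_aeval (UP U fun _ => k) z'
    have h' : (g i : Kb U (fun _ => k) fun _ => z) ∈ (aeval z' : (UP U fun _ => k)[X] →ₐ[UP U fun _ => k]
        Kb U (fun _ => k) fun _ => z).range := h ▸ (g i).2
    exact h'
  choose P hP using h1
  choose p hp using fun i => exists_poly U (fun _ => k) (fun _ => K) (P i)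
  have h2 : ∀ i, ((g i : Kb U (fun _ => k) fun _ => z) : UP U fun _ => K) =
      UP.mk U fun n => aeval z (p i n) := by
    intro i
    rw [← hp i fun _ => z, ← hz', ← hP i]
    exact (Polynomial.aeval_algebraMap_apply (UP U fun _ => K) z' (P i)).symm
  have h3 : (UP.mk U fun n => ∑ i, aeval z (p i n) * Module.finBasis k⟮z⟯ K i : UP U fun _ => K)
      = 0 := by
    have h4 := congrArg (Subtype.val) hg
    simp only [AddSubmonoidClass.coe_finsetSum] at h4
    have h5 : (UP.mk U fun n => ∑ i, aeval z (p i n) * Module.finBasis k⟮z⟯ K i :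
        UP U fun _ => K) = ∑ i, ((g i • φ (Module.finBasis k⟮z⟯ K i) :
          Kb U (fun _ => k) fun _ => z) : UP U fun _ => K) := by
      have h6 : ∀ i, ((g i • φ (Module.finBasis k⟮z⟯ K i) :
          Kb U (fun _ => k) fun _ => z) : UP U fun _ => K) =
          UP.mk U fun n => aeval z (p i n) * Module.finBasis k⟮z⟯ K i := by
        intro i
        have h7 : ((g i • φ (Module.finBasis k⟮z⟯ K i) :
          Kb U (fun _ => k) fun _ => z) : UP U fun _ => K) =
          ((g i : Kb U (fun _ => k) fun _ => z) : UP U fun _ => K) *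
            (φ (Module.finBasis k⟮z⟯ K i) : UP U fun _ => K) := rfl
        rw [h7, h2, hφ, ← map_mul]
        rfl
      rw [Finset.sum_congr rfl fun i _ => h6 i, ← map_sum]
      congr 1
      funext n
      rw [Finset.sum_apply]
    rw [h5, h4]
    rfl
  rw [UP.mk_eq_zero] at h3
  intro i
  apply Subtype.ext
  apply Subtype.ext
  rw [h2 i]
  show _ = (0 : UP U fun _ => K)
  rw [UP.mk_eq_zero]
  filter_upwards [h3] with n hn
  have hmem : ∀ i, aeval z (p i n) ∈ k⟮z⟯ := by
    intro i
    exact IntermediateField.algebra_adjoin_le_adjoin _ _ (Polynomial.aeval_mem_adjoin_singleton k z)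
  have h8 := Fintype.linearIndependent_iff.1 (Module.finBasis k⟮z⟯ K).linearIndependent
    (fun i => (⟨aeval z (p i n), hmem i⟩ : k⟮z⟯)) hn i
  exact congrArg Subtype.val h8

theorem gen_aux (U : Ultrafilter ℕ) (k K : Type) [Field k] [Field K] [Algebra k K] (z : K)
    [FiniteDimensional k⟮z⟯ K] (z' : Kb U (fun _ => k) fun _ => z)
    [FiniteDimensional (UP U fun _ => k)⟮z'⟯ (Kb U (fun _ => k) fun _ => z)]
    (hz' : (z' : UP U fun _ => K) = UP.mk U fun _ => z)
    (φ : K → Kb U (fun _ => k) fun _ => z)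
    (hφ : ∀ y, (φ y : UP U fun _ => K) = UP.mk U fun _ => y)
    (hd : DegLE (UP U fun _ => k) (Module.finrank k⟮z⟯ K) z') :
    Submodule.span (UP U fun _ => k)⟮z'⟯ (Set.range fun i => φ (Module.finBasis k⟮z⟯ K i)) = ⊤ := by
  have h1 := li_aux U k K z z' hz' φ hφ
  refine h1.span_eq_top_of_card_eq_finrank' (le_antisymm h1.fintype_card_le_finrank ?_)
  rw [Fintype.card_fin]
  exact hd

end UCEM

open UCEM in
theorem specUCE (hUKB : SpecUKB) (hUTR : SpecUTR) (_hUAC : SpecUAC) : SpecUCE := by
  intro U k K _ _ _ _ _ hF z hz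
  classical
  have hfz : FiniteDimensional k⟮z⟯ K := fdx hF hz
  have htr : ∀ᶠ n in (U : Filter ℕ), Transcendental k z := Filter.Eventually.of_forall fun _ => hz
  -- membership
  have hmem : ∀ y : K, (UP.mk U (fun _ => y) : UP U fun _ => K) ∈ Kb U (fun _ => k) (fun _ => z) := by
    intro y
    obtain ⟨-, h2⟩ := hUKB U (fun _ => k) (fun _ => K) (fun _ => hF)
      (max (Module.finrank k⟮z⟯ K) (Module.finrank k⟮y⟯ K)) (fun _ => z) htr
      (fun _ => le_max_left _ _)
    obtain ⟨x', hx', -⟩ := h2 (fun _ => y) (fun _ => le_max_right _ _)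
    rw [← hx']
    exact x'.2
  obtain ⟨hFun, hdeg⟩ := hUKB U (fun _ => k) (fun _ => K) (fun _ => hF)
      (Module.finrank k⟮z⟯ K) (fun _ => z) htr (fun _ => le_refl _)
  let φ : K →+* Kb U (fun _ => k) (fun _ => z) := (diag U K).codRestrict _ hmem
  let A1 : Algebra k (UP U fun _ => k) := (diag U k).toAlgebra
  let A2 : Algebra k (Kb U (fun _ => k) fun _ => z) :=
    ((algebraMap (UP U fun _ => k) (Kb U (fun _ => k) fun _ => z)).comp (diag U k)).toAlgebra
  let A3 : Algebra K (Kb U (fun _ => k) fun _ => z) := φ.toAlgebra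
  have T1 : IsScalarTower k K (Kb U (fun _ => k) fun _ => z) := by
    refine IsScalarTower.of_algebraMap_eq fun c => ?_
    apply Subtype.ext
    rfl
  have T2 : IsScalarTower k (UP U fun _ => k) (Kb U (fun _ => k) fun _ => z) :=
    IsScalarTower.of_algebraMap_eq fun c => rfl
  refine ⟨A1, A2, A3, T1, T2, fun c => rfl, fun y => rfl, ?_, ?_⟩
  · intro n r c hc h
    refine ld_aux U k K (fun c => rfl) n r c hc ?_
    have h1 := congrArg (Subtype.val) h
    simp only [AddSubmonoidClass.coe_finsetSum] at h1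
    exact h1
  · -- the degree of `Kb` over the field generated by `z`
    obtain ⟨z', hz', hd⟩ := hdeg (fun _ => z) (fun _ => le_refl _)
    have hzt : Transcendental (UP U fun _ => k) (UP.mk U fun _ => z : UP U fun _ => K) :=
      hUTR U (fun _ => k) (fun _ => K) (fun _ => z) htr
    have hzt' : Transcendental (UP U fun _ => k) z' := by
      intro hal
      apply hzt
      rw [← hz']
      exact hal.algebraMap
    have hfz' : FiniteDimensional (UP U fun _ => k)⟮z'⟯ (Kb U (fun _ => k) fun _ => z) :=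
      fdx hFun hzt'
    have hsp := gen_aux U k K z z' hz' (fun y => φ y) (fun y => rfl) hd
    intro x
    have hx : x ∈ IntermediateField.adjoin (UP U fun _ => k)
        (Set.range (algebraMap K (Kb U (fun _ => k) fun _ => z))) := by
      have h1 : x ∈ Submodule.span (UP U fun _ => k)⟮z'⟯ (Set.range fun i => φ (Module.finBasis k⟮z⟯ K i)) := by
        rw [hsp]
        exact Submodule.mem_top
      have hle : (UP U fun _ => k)⟮z'⟯ ≤ IntermediateField.adjoin (UP U fun _ => k)
          (Set.range (algebraMap K (Kb U (fun _ => k) fun _ => z))) := by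
        rw [IntermediateField.adjoin_simple_le_iff]
        apply IntermediateField.subset_adjoin
        refine ⟨z, ?_⟩
        apply Subtype.ext
        rw [hz']
        rfl
      induction h1 using Submodule.span_induction with
      | mem y hy =>
        obtain ⟨i, rfl⟩ := hy
        exact IntermediateField.subset_adjoin _ _ ⟨_, rfl⟩
      | zero => exact zero_mem _
      | add a b _ _ ha hb => exact add_mem ha hb
      | smul a b _ hb =>
        rw [Algebra.smul_def]
        exact mul_mem (hle a.2) hb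
    obtain ⟨a, ha, b, hb, hab⟩ := IntermediateField.mem_adjoin_iff_div.1 hx
    by_cases hb0 : b = 0
    · refine ⟨0, zero_mem _, 1, one_mem _, one_ne_zero, ?_⟩
      rw [hab, hb0, div_zero, zero_mul]
    · refine ⟨a, ha, b, hb, hb0, ?_⟩
      rw [hab, div_mul_cancel₀ _ hb0]

end MP743d1e.BD
end

section
/-!
# Theorem BD, module ULP: the limit of a sequence of pairs on one curve
-/
set_option autoImplicit false

namespace MP743d1e.BD

open scoped BigOperators
open Polynomial IntermediateField MP743d1e.CY MP743d1e.GX MP743d1e.Integ Filter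

namespace ULPM

theorem mapK_comp {A B C : Type} [Field A] [Field B] [Field C] (φ : A →+* B) (ψ : B →+* C)
    (γ : K2 A) : ConstM.mapK ψ (ConstM.mapK φ γ) = ConstM.mapK (ψ.comp φ) γ := by
  have h : (ConstM.mapK ψ).comp (ConstM.mapK φ) = ConstM.mapK (ψ.comp φ) := by
    apply K2.hom_ext
    intro f g
    rw [AddMonoidHom.comp_apply, ConstM.mapK_sym, ConstM.mapK_sym, ConstM.mapK_sym]
    rfl
  exact DFunLike.congr_fun h γ

/-- Almost all `n` for the hyperfilter are at least `n₀`. -/
theorem ev_ge (n₀ : ℕ) : ∀ᶠ n in ((hyperfilter ℕ : Ultrafilter ℕ) : Filter ℕ), n₀ ≤ n := by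
  have h : ∀ᶠ n in (cofinite : Filter ℕ), n₀ ≤ n := by
    rw [Nat.cofinite_eq_atTop]
    exact eventually_ge_atTop n₀
  exact hyperfilter_le_cofinite h

end ULPM

open ULPM

theorem specULP (hUAC : SpecUAC) (hUCE : SpecUCE) (hUKB : SpecUKB) (hUTM : SpecUTM)
    (hUK2 : SpecUK2) : SpecULP := by
  intro k K _ _ _ _ _ hF d N hN f g hf hg ht
  obtain ⟨z, hz, hfin⟩ := hF
  have hF : Fun1 k K := ⟨z, hz, hfin⟩
  let U : Ultrafilter ℕ := hyperfilter ℕ
  let d' : ℕ := max d (Module.finrank k⟮z⟯ K)
  have hd : ∀ x : K, DegLE k d x → DegLE k d' x := fun x hx => le_trans hx (le_max_left _ _)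
  have hzt : ∀ᶠ n in (U : Filter ℕ), Transcendental k z := Filter.Eventually.of_forall fun _ => hz
  have hzd : ∀ n : ℕ, DegLE k d' z := fun n => le_max_right _ _
  obtain ⟨hac, hcz⟩ := hUAC U fun _ => k
  obtain ⟨hfun, hdeg⟩ := hUKB U (fun _ => k) (fun _ => K) (fun _ => hF) d' (fun _ => z) hzt hzd
  obtain ⟨a1, a2, a3, a4, a5, e1, e2, hC⟩ := hUCE U k K hF z hz
  have hex : ∀ u : ℕ → Kˣ, (∀ n, DegLE k d' (u n : K)) →
      ∃ F : (Kb U (fun _ => k) fun _ => z)ˣ,
      ((F : Kb U (fun _ => k) fun _ => z) : UP U fun _ => K) = UP.mk U (fun n => (u n : K)) ∧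
        DegLE (UP U fun _ => k) d' (F : Kb U (fun _ => k) fun _ => z) := by
    intro u hu
    obtain ⟨x', hx1, hx2⟩ := hdeg (fun n => (u n : K)) hu
    have hne : x' ≠ 0 := by
      intro h
      rw [h] at hx1
      have h1 : UP.mk U (fun n => (u n : K)) = 0 := by
        rw [← hx1]; rfl
      rw [UP.mk_eq_zero] at h1
      obtain ⟨n, hn⟩ := h1.exists
      exact (u n).ne_zero hn
    exact ⟨Units.mk0 x' hne, hx1, hx2⟩
  obtain ⟨F, hF1, hF2⟩ := hex f fun n => hd _ (hf n)
  obtain ⟨G, hG1, hG2⟩ := hex g fun n => hd _ (hg n)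
  have hT := hUTM U (fun _ => k) (fun _ => K) (fun _ => hF) d' N (fun _ => z) hzt hzd f g
    (fun n => hd _ (hf n)) (fun n => hd _ (hg n)) ht F G hF1 hG1
  refine ⟨UP U fun _ => k, Kb U (fun _ => k) fun _ => z, inferInstance, inferInstance, a1, a2, a3,
    inferInstance, a4, a5, hac, F, G, hC, ?_, ?_⟩
  · intro v hv
    exact ⟨2 * N * d'.factorial, by positivity, hT v hv⟩
  · rintro f' g' ⟨m, hm, γ, hγ⟩ n₀
    have key := hUK2 U (fun _ => k) (fun _ => K) m f g (fun _ => f') (fun _ => g')
      (um (Kb U (fun _ => k) fun _ => z) (UP U fun _ => K) F)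
      (um (Kb U (fun _ => k) fun _ => z) (UP U fun _ => K) G)
      (um (Kb U (fun _ => k) fun _ => z) (UP U fun _ => K)
        (um K (Kb U (fun _ => k) fun _ => z) f'))
      (um (Kb U (fun _ => k) fun _ => z) (UP U fun _ => K)
        (um K (Kb U (fun _ => k) fun _ => z) g'))
      hF1 hG1 (e2 f') (e2 g') ⟨γ, by
        have h1 := congrArg
          (ConstM.mapK (algebraMap (Kb U (fun _ => k) fun _ => z) (UP U fun _ => K))) hγ
        rw [map_nsmul, map_sub, ConstM.mapK_sym, ConstM.mapK_sym, mapK_comp] at h1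
        exact h1⟩
    obtain ⟨n, hn⟩ := (key.and (ev_ge n₀)).exists
    exact ⟨n, hn.2, m, hm, hn.1⟩

end MP743d1e.BD
end
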