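import Pool.Agent.Lib.MP_743d1e_nt.BD.SpecA
import Pool.Agent.Lib.MP_743d1e_nt.CY.PUK
import Pool.Agent.Lib.MP_743d1e_nt.BD.SpecC
import Pool.Agent.Lib.MP_743d1e_nt.BD.SpecB

section
/-!
# RED: a reduced basis
-/
set_option autoImplicit false

namespace MP743d1e.BD

open scoped BigOperators
open Polynomial IntermediateField MP743d1e.CY MP743d1e.GX MP743d1e.Integ Filter

namespace REDM

open FNVM

section val

variable {k K : Type} [Field k] [Field K] [Algebra k K] {v : DVal K}

theorem pos_add {f g : K} (hf : Pos v f) (hg : Pos v g) : Pos v (f + g) := by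
  rcases hf with rfl | ⟨u, rfl, hu⟩
  · rwa [zero_add]
  rcases hg with rfl | ⟨w, rfl, hw⟩
  · rw [add_zero]; exact Or.inr ⟨u, rfl, hu⟩
  by_cases h : (u : K) + (w : K) = 0
  · exact Or.inl h
  refine Or.inr ⟨Units.mk0 _ h, rfl, ?_⟩
  have := v.ord_add u w (Units.mk0 _ h) rfl
  have h3 : 1 ≤ min (v.ord u) (v.ord w) := le_min hu hw
  omega

theorem pos_neg {f : K} (hf : Pos v f) : Pos v (-f) := by
  rcases hf with rfl | ⟨u, rfl, hu⟩
  · left; ring
  refine Or.inr ⟨-u, by simp, ?_⟩
  rwa [v.ord_neg]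

theorem nn_of_pos {f : K} (hf : Pos v f) : NN v f := by
  rcases hf with rfl | ⟨u, rfl, hu⟩
  · exact nn_zero
  · exact Or.inr ⟨u, rfl, by omega⟩

theorem nn_pow {f : K} (hf : NN v f) (n : ℕ) : NN v (f ^ n) := by
  induction n with
  | zero => rw [pow_zero]; exact nn_one
  | succ n ih => rw [pow_succ]; exact nn_mul ih hf

theorem nn_sum {ι : Type} (s : Finset ι) (f : ι → K) (h : ∀ i ∈ s, NN v (f i)) :
    NN v (∑ i ∈ s, f i) := by
  classical
  induction s using Finset.induction_on with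
  | empty => rw [Finset.sum_empty]; exact nn_zero
  | insert a s ha ih =>
    rw [Finset.sum_insert ha]
    exact nn_add (h a (Finset.mem_insert_self a s))
      (ih fun i hi => h i (Finset.mem_insert_of_mem hi))

theorem nn_aeval (hg : GeoF k v) {t : K} (ht : NN v t) (p : k[X]) : NN v (aeval t p) :=
  nn_adjoin hg ht ⟨aeval t p, aeval_mem_adjoin_singleton k t⟩

/-- A polynomial with nonzero constant term at an element of positive order. -/
theorem ord_coeff0 (hg : GeoF k v) {t : K} (ht : Pos v t) (p : k[X]) (h0 : p.coeff 0 ≠ 0) :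
    ∃ u : Kˣ, (u : K) = aeval t p ∧ v.ord u = 0 := by
  have hnn := nn_aeval hg (nn_of_pos ht) p
  refine ord_of_nn_not_pos hnn ?_
  intro hpos
  have e : aeval t p = algebraMap k K (p.coeff 0) + t * aeval t (divX p) := by
    conv_lhs => rw [← divX_mul_X_add p]
    rw [map_add, map_mul, aeval_X, aeval_C]
    ring
  have h1 : Pos v (algebraMap k K (p.coeff 0)) := by
    have e2 : algebraMap k K (p.coeff 0) = aeval t p + -(t * aeval t (divX p)) := by
      rw [e]; ring
    rw [e2]
    exact pos_add hpos (pos_neg (pos_mul_nn ht (nn_aeval hg (nn_of_pos ht) _)))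
  have h2 : algebraMap k K (p.coeff 0) ≠ 0 := by
    rwa [Ne, map_eq_zero]
  rcases h1 with h1 | ⟨u, hu, h1⟩
  · exact h2 h1
  · have := hg u ⟨_, hu⟩
    omega

/-- The order of a polynomial in `x` at a pole of `x`. -/
theorem ord_aeval (hg : GeoF k v) (x : Kˣ) (hx : ¬ NN v (x : K)) (p : k[X]) (hp : p ≠ 0) :
    ∃ u : Kˣ, (u : K) = aeval (x : K) p ∧ v.ord u = p.natDegree * v.ord x := by
  have hpos : Pos v ((x : K))⁻¹ := pos_inv_of_not_nn hx
  have h0 : (reverse p).coeff 0 ≠ 0 := by
    rw [coeff_zero_reverse]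
    exact leadingCoeff_ne_zero.2 hp
  obtain ⟨u, hu, hu0⟩ := ord_coeff0 hg hpos (reverse p) h0
  have hinv : Invertible (x : K) := invertibleOfNonzero x.ne_zero
  have e := eval₂_reverse_mul_pow (algebraMap k K) (x : K) p
  rw [invOf_eq_inv] at e
  refine ⟨u * x ^ p.natDegree, ?_, ?_⟩
  · rw [Units.val_mul, Units.val_pow_eq_pow_val, hu]
    exact e
  · rw [v.ord_mul, hu0, zero_add]
    have := v.ord_zpow x (p.natDegree : ℤ)
    rw [zpow_natCast] at this
    exact this

/-- D3 -/
theorem nn_of_degX (hg : GeoF k v) (x : Kˣ) (hx : ¬ NN v (x : K)) {m : ℤ} {φ : K}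
    (h : DegX k (x : K) m φ) : NN v (φ * (x : K) ^ (-m)) := by
  obtain ⟨p, q, hq, e, hd⟩ := h
  obtain ⟨w, hw, hw1⟩ := ord_aeval hg x hx q hq
  by_cases hp : p = 0
  · rw [hp, map_zero, ← hw] at e
    have : φ = 0 := (mul_eq_zero.1 e).resolve_right w.ne_zero
    rw [this, zero_mul]
    exact nn_zero
  obtain ⟨u, hu, hu1⟩ := ord_aeval hg x hx p hp
  have e2 : φ = ((u * w⁻¹ : Kˣ) : K) := by
    rw [Units.val_mul, hu, Units.val_inv_eq_inv_val, hw]
    rw [← hw] at e ⊢
    have := w.ne_zero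
    field_simp
    rw [e]
  have e3 : φ * (x : K) ^ (-m) = ((u * w⁻¹ * x ^ (-m) : Kˣ) : K) := by
    rw [Units.val_mul, Units.val_zpow_eq_zpow_val, e2]
  rw [e3, nn_unit, v.ord_mul, v.ord_mul, v.ord_inv, v.ord_zpow, hu1, hw1]
  have h2 : v.ord x < 0 := by
    by_contra h3
    exact hx (nn_unit.2 (by omega))
  nlinarith

end val

section deg

variable {k K : Type} [Field k] [Field K] [Algebra k K]

theorem degX_mono {x : K} {m n : ℤ} (hmn : m ≤ n) {φ : K} (h : DegX k x m φ) : DegX k x n φ := by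
  obtain ⟨p, q, hq, e, hd⟩ := h
  exact ⟨p, q, hq, e, hd.trans hmn⟩

theorem degX_zero (x : K) (m : ℤ) : DegX k x m (0 : K) := by
  refine ⟨0, X ^ (-m).toNat, pow_ne_zero _ X_ne_zero, by simp, ?_⟩
  rw [natDegree_zero, natDegree_X_pow]
  have := Int.self_le_toNat (-m)
  push_cast
  omega

theorem degX_exists {x : K} (φ : k⟮x⟯) : ∃ m : ℤ, DegX k x m (algebraMap k⟮x⟯ K φ) := by
  obtain ⟨φ, hφ⟩ := φ
  show ∃ m : ℤ, DegX k x m φ
  rw [IntermediateField.mem_adjoin_simple_iff] at hφ
  obtain ⟨r, s, hrs⟩ := hφ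
  by_cases hs : aeval x s = 0
  · rw [hs, div_zero] at hrs
    rw [hrs]
    exact ⟨0, degX_zero x 0⟩
  · refine ⟨_, r, s, ?_, ?_, le_rfl⟩
    · rintro rfl
      exact hs (map_zero _)
    · rw [hrs]
      field_simp

/-- LC -/
theorem degX_lead {x : K} (hx : Transcendental k x) {m : ℤ} {φ : K} (h : DegX k x m φ) :
    ∃ c : k, DegX k x (m - 1) (φ - algebraMap k K c * x ^ m) := by
  obtain ⟨p, q, hq, e, hd⟩ := h
  have hx0 : x ≠ 0 := by
    rintro rfl
    exact hx (isAlgebraic_zero)
  obtain ⟨r, s, hm⟩ : ∃ r s : ℕ, m = r - s := by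
    rcases le_total 0 m with h0 | h0
    · exact ⟨m.toNat, 0, by omega⟩
    · exact ⟨0, (-m).toNat, by omega⟩
  have hQ : X ^ r * q ≠ 0 := mul_ne_zero (pow_ne_zero _ X_ne_zero) hq
  have hQs : X ^ s * q ≠ 0 := mul_ne_zero (pow_ne_zero _ X_ne_zero) hq
  have hQd : (X ^ r * q).natDegree = r + q.natDegree := by
    rw [natDegree_mul (pow_ne_zero _ X_ne_zero) hq, natDegree_X_pow]
  have hQsd : (X ^ s * q).natDegree = s + q.natDegree := by
    rw [natDegree_mul (pow_ne_zero _ X_ne_zero) hq, natDegree_X_pow]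
  set D : ℕ := r + q.natDegree with hD
  have hPd : (X ^ s * p).natDegree ≤ D := by
    refine natDegree_mul_le.trans ?_
    rw [natDegree_X_pow]
    omega
  set c : k := (X ^ s * p).coeff D / (X ^ r * q).leadingCoeff with hc
  have hlead : (X ^ r * q).leadingCoeff ≠ 0 := leadingCoeff_ne_zero.2 hQ
  set W : k[X] := X ^ s * p - C c * (X ^ r * q) with hW
  have hWD : W.coeff D = 0 := by
    have h1 : (X ^ r * q).coeff D = (X ^ r * q).leadingCoeff := by
      rw [leadingCoeff, hQd]
    rw [hW, coeff_sub, coeff_C_mul, h1, hc, div_mul_cancel₀ _ hlead, sub_self]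
  have hWd : W.natDegree ≤ D := by
    rw [hW]
    refine (natDegree_sub_le _ _).trans (max_le hPd ?_)
    refine (natDegree_C_mul_le _ _).trans ?_
    rw [hQd]
  refine ⟨c, ?_⟩
  have e2 : (φ - algebraMap k K c * x ^ m) * aeval x (X ^ s * q) = aeval x W := by
    have h1 : x ^ m * x ^ s = x ^ r := by
      rw [hm, zpow_sub₀ hx0, zpow_natCast, zpow_natCast]
      field_simp
    rw [hW]
    simp only [map_sub, map_mul, map_pow, aeval_X, aeval_C]
    rw [← e]
    linear_combination (-algebraMap k K c * aeval x q) * h1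
  by_cases hW0 : W = 0
  · have h3 : φ - algebraMap k K c * x ^ m = 0 := by
      rw [hW0, map_zero] at e2
      refine (mul_eq_zero.1 e2).resolve_right ?_
      intro h5
      exact hQs (transcendental_iff.1 hx _ h5)
    rw [h3]
    exact degX_zero x _
  · refine ⟨W, X ^ s * q, hQs, e2, ?_⟩
    have h4 : W.natDegree < D := by
      rcases hWd.lt_or_eq with h5 | h5
      · exact h5
      · exfalso
        rw [← h5] at hWD
        exact hW0 (leadingCoeff_eq_zero.1 hWD)
    rw [hQsd]
    push_cast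
    omega

end deg

section main

open scoped IntermediateField.algebraAdjoinAdjoin

variable {k K : Type} [Field k] [Field K] [Algebra k K] [IsAlgClosed k] [CharZero k]

/-- F2 -/
theorem eq_zero_of (hF : Fun1 k K) {x : K} (hx : Transcendental k x) {y : K} (h1 : RR k x y)
    (h2 : RI k x (x * y)) : y = 0 := by
  by_contra hy
  have hchar : CharZero K := charZero_of_injective_algebraMap (algebraMap k K).injective
  have hx0 : x ≠ 0 := by
    rintro rfl
    exact hx (isAlgebraic_zero)
  have hfin := fdx hF hx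
  set z : Kˣ := Units.mk0 (x * y) (mul_ne_zero hx0 hy) with hz
  have hzn : ∀ v : DVal K, GeoF k v → NN v (z : K) := by
    intro v hv
    by_cases h : NN v x
    · exact nn_mul h (h1 v hv h)
    · exact h2 v hv h
  have hnt : ¬ Transcendental k ((z⁻¹ : Kˣ) : K) := by
    intro h
    obtain ⟨-, v, hv, h3⟩ := specFNV k K x hfin z⁻¹ h
    have := nn_unit.1 (hzn v hv)
    rw [v.ord_inv] at h3
    omega
  obtain ⟨c, hc⟩ := (con (k := k) ((z⁻¹ : Kˣ) : K)).resolve_left hnt
  obtain ⟨-, v, hv, h3⟩ := specFNV k K x hfin (Units.mk0 x hx0) hx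
  have h4 : NN v x := by
    have : NN v ((Units.mk0 x hx0 : Kˣ) : K) := nn_unit.2 h3.le
    exact this
  have h5 := h1 v hv h4
  have h6 : NN v ((Units.mk0 y hy : Kˣ) : K) := h5
  rw [nn_unit] at h6
  have h7 : z = Units.mk0 x hx0 * Units.mk0 y hy := by
    apply Units.ext
    rfl
  have h8 := hv z⁻¹ ⟨c, hc.symm⟩
  rw [v.ord_inv, h7, v.ord_mul] at h8
  omega

/-- F3 -/
theorem bound_poles (hF : Fun1 k K) {x : K} (hx : Transcendental k x) (y : K) :
    ∃ a : ℕ, RI k x (x⁻¹ ^ a * y) := by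
  have hchar : CharZero K := charZero_of_injective_algebraMap (algebraMap k K).injective
  have hx0 : x ≠ 0 := by
    rintro rfl
    exact hx (isAlgebraic_zero)
  have hfin := fdx hF hx
  by_cases hy : y = 0
  · refine ⟨0, fun v hv h => ?_⟩
    rw [hy, mul_zero]
    exact nn_zero
  set u : Kˣ := Units.mk0 y hy with hu
  rcases con (k := k) ((u⁻¹ : Kˣ) : K) with h | ⟨c, hc⟩
  · obtain ⟨hS, -⟩ := specFNV k K x hfin u⁻¹ h
    set a : ℕ := hS.toFinset.sup (fun v => (v.ord u⁻¹).toNat) with ha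
    refine ⟨a, fun v hv hxv => ?_⟩
    by_cases h0 : NN v y
    · exact nn_mul (nn_pow (nn_of_pos (pos_inv_of_not_nn hxv)) _) h0
    · have h1 : v.ord u < 0 := by
        by_contra h2
        exact h0 ((nn_unit (v := v) (u := u)).2 (by omega))
      have hmem : v ∈ hS.toFinset := by
        rw [Set.Finite.mem_toFinset]
        refine ⟨hv, ?_⟩
        rw [v.ord_inv]
        omega
      have h2 := Finset.le_sup (f := fun v : DVal K => (v.ord u⁻¹).toNat) hmem
      rw [← ha] at h2
      simp only [v.ord_inv] at h2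
      have h3 : v.ord (Units.mk0 x hx0) < 0 := by
        by_contra h4
        exact hxv ((nn_unit (v := v) (u := Units.mk0 x hx0)).2 (by omega))
      have e : x⁻¹ ^ a * y = (((Units.mk0 x hx0) ^ (-(a : ℤ)) * u : Kˣ) : K) := by
        rw [Units.val_mul, Units.val_zpow_eq_zpow_val, Units.val_mk0, hu, Units.val_mk0, zpow_neg,
          zpow_natCast, inv_pow]
      rw [e, nn_unit, v.ord_mul, v.ord_zpow]
      have h5 : (a : ℤ) ≥ - v.ord u := by
        have := Int.self_le_toNat (-v.ord u)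
        omega
      nlinarith
  · refine ⟨0, fun v hv hxv => ?_⟩
    have h1 := hv u⁻¹ ⟨c, hc.symm⟩
    rw [v.ord_inv] at h1
    rw [pow_zero, one_mul]
    exact (nn_unit (v := v) (u := u)).2 (by omega)

/-- `e` generates the ring of functions without poles at the finite places. -/
structure Lat (k : Type) {K : Type} [Field k] [Field K] [Algebra k K] (x : K) (n : ℕ)
    (e : Fin n → K) : Prop where
  mem : ∀ i, RR k x (e i)
  gen : ∀ h, RR k x h → ∃ p : Fin n → k[X], h = ∑ i, aeval x (p i) * e i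

/-- an integral basis -/
theorem exists_lat (hINC : SpecINC) (hF : Fun1 k K) {x : K} (hx : Transcendental k x) :
    ∃ e : Fin (Module.finrank k⟮x⟯ K) → K, Lat k x _ e := by
  have hchar : CharZero K := charZero_of_injective_algebraMap (algebraMap k K).injective
  have hfin := fdx hF hx
  let A := Algebra.adjoin k ({x} : Set K)
  let e : Polynomial k ≃ₐ[k] A := Polynomial.algEquivOfTranscendental k x hx
  have hpid : IsPrincipalIdealRing A :=
    IsPrincipalIdealRing.of_surjective (e : Polynomial k →+* A) e.surjective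
  have hdedA : IsDedekindDomain A := inferInstance
  have hcharF : CharZero k⟮x⟯ := inferInstance
  have hsep : Algebra.IsSeparable k⟮x⟯ K := inferInstance
  have hfree : Module.Free A (integralClosure A K) :=
    IsIntegralClosure.module_free A k⟮x⟯ K (integralClosure A K)
  have hnoe : IsNoetherian A (integralClosure A K) :=
    IsIntegralClosure.isNoetherian A k⟮x⟯ K (integralClosure A K)
  have hrank : Module.finrank A (integralClosure A K) = Module.finrank k⟮x⟯ K :=
    IsIntegralClosure.rank A k⟮x⟯ K (integralClosure A K)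
  let b := Module.finBasisOfFinrankEq A (integralClosure A K) hrank
  refine ⟨fun i => ((b i : integralClosure A K) : K), ?_, ?_⟩
  · intro i v hv hxv
    exact nn_of_isIntegral (fun a => nn_adjoin hv hxv a) (b i).2
  · intro h hh
    have hint : IsIntegral A h := (hINC k K hF x hx).1 h hh
    have h1 := b.sum_repr ⟨h, hint⟩
    have h2 : ∀ a : A, ∃ p : k[X], aeval x p = (a : K) := by
      intro a
      have h3 : (a : K) ∈ Algebra.adjoin k ({x} : Set K) := a.2
      rw [Algebra.adjoin_singleton_eq_range_aeval] at h3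
      obtain ⟨p, hp⟩ := h3
      exact ⟨p, hp⟩
    choose p hp using h2
    refine ⟨fun i => p (b.repr ⟨h, hint⟩ i), ?_⟩
    have h3 : ((∑ i, (b.repr ⟨h, hint⟩) i • b i : integralClosure A K) : K) = h :=
      congrArg (fun y : integralClosure A K => (y : K)) h1
    rw [AddSubmonoidClass.coe_finsetSum] at h3
    refine h3.symm.trans (Finset.sum_congr rfl fun i _ => ?_)
    show _ = aeval x (p (b.repr ⟨h, hint⟩ i)) * ((b i : integralClosure A K) : K)
    rw [hp]
    rfl

omit [IsAlgClosed k] in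
/-- denominators -/
theorem denom (hF : Fun1 k K) {x : K} (hx : Transcendental k x) (y : K) :
    ∃ q : k[X], q ≠ 0 ∧ RR k x (aeval x q * y) := by
  have hfin := fdx hF hx
  let A := Algebra.adjoin k ({x} : Set K)
  have halg : Algebra.IsAlgebraic A K :=
    (IsFractionRing.comap_isAlgebraic_iff (A := A) (K := k⟮x⟯) (C := K)).2 inferInstance
  obtain ⟨a, ha, hay⟩ := (halg.isAlgebraic y).exists_integral_multiple
  have h3 : (a : K) ∈ Algebra.adjoin k ({x} : Set K) := a.2
  rw [Algebra.adjoin_singleton_eq_range_aeval] at h3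
  obtain ⟨q, hq⟩ := h3
  refine ⟨q, ?_, ?_⟩
  · rintro rfl
    apply ha
    apply Subtype.ext
    rw [← hq]
    exact map_zero _
  · intro v hv hxv
    have e : aeval x q * y = a • y := by
      have : (aeval x q : K) = a := hq
      rw [this]
      rfl
    rw [e]
    exact nn_of_isIntegral (fun a => nn_adjoin hv hxv a) hay

omit [IsAlgClosed k] [CharZero k] in
/-- the basis given by a lattice -/
theorem lat_basis {x : K} (hx : Transcendental k x)
    {e : Fin (Module.finrank k⟮x⟯ K) → K} (he : Lat k x _ e) (hINT : ∀ y : K,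
      ∃ q : k[X], q ≠ 0 ∧ RR k x (aeval x q * y)) :
    ∃ b : Module.Basis (Fin (Module.finrank k⟮x⟯ K)) k⟮x⟯ K, ∀ i, b i = e i := by
  have hspan : ⊤ ≤ Submodule.span k⟮x⟯ (Set.range e) := by
    intro y _
    obtain ⟨q, hq, hy⟩ := hINT y
    obtain ⟨p, hp⟩ := he.gen _ hy
    have hq0 : aeval x q ≠ 0 := fun h => hq (transcendental_iff.1 hx _ h)
    have e1 : y = ∑ i, (aeval x (p i) / aeval x q) * e i := by
      have : ∑ i, (aeval x (p i) / aeval x q) * e i = (∑ i, aeval x (p i) * e i) / aeval x q := by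
        rw [Finset.sum_div]
        refine Finset.sum_congr rfl fun i _ => ?_
        ring
      rw [this, ← hp]
      field_simp
    rw [e1]
    refine Submodule.sum_mem _ fun i _ => ?_
    have hmem : aeval x (p i) / aeval x q ∈ k⟮x⟯ := by
      rw [IntermediateField.mem_adjoin_simple_iff]
      exact ⟨_, _, rfl⟩
    have : (aeval x (p i) / aeval x q) * e i = (⟨_, hmem⟩ : k⟮x⟯) • e i := rfl
    rw [this]
    exact Submodule.smul_mem _ _ (Submodule.subset_span ⟨i, rfl⟩)
  have hcard : Fintype.card (Fin (Module.finrank k⟮x⟯ K)) = Module.finrank k⟮x⟯ K :=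
    Fintype.card_fin _
  refine ⟨basisOfTopLeSpanOfCardEqFinrank e hspan hcard, fun i => ?_⟩
  rw [coe_basisOfTopLeSpanOfCardEqFinrank]

omit [IsAlgClosed k] [CharZero k] in
/-- one step of the reduction -/
theorem lat_step {x : K} {n : ℕ} {e : Fin n → K} (he : Lat k x n e)
    (c : Fin n → k) (a : Fin n → ℕ) (j : Fin n) (hj : c j ≠ 0) :
    Lat k x n (Function.update e j (∑ i, algebraMap k K (c i) * x ^ (a j - a i) * e i)) := by
  classical
  set e' : K := ∑ i, algebraMap k K (c i) * x ^ (a j - a i) * e i with he'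
  have hcj : algebraMap k K (c j) ≠ 0 := by
    rwa [Ne, map_eq_zero]
  refine ⟨fun i => ?_, fun h hh => ?_⟩
  · by_cases hij : i = j
    · rw [hij, Function.update_self]
      intro v hv hxv
      rw [he']
      refine nn_sum _ _ fun i _ => ?_
      exact nn_mul (nn_mul (nn_const hv _) (nn_pow hxv _)) (he.mem i v hv hxv)
    · rw [Function.update_of_ne hij]
      exact he.mem i
  · obtain ⟨p, hp⟩ := he.gen h hh
    refine ⟨fun i => if i = j then C (c j)⁻¹ * p j else
      p i - C ((c j)⁻¹ * c i) * X ^ (a j - a i) * p j, ?_⟩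
    rw [← Finset.add_sum_erase _ _ (Finset.mem_univ j)]
    have h1 : ∀ i ∈ Finset.univ.erase j, aeval x ((fun i => if i = j then C (c j)⁻¹ * p j else
        p i - C ((c j)⁻¹ * c i) * X ^ (a j - a i) * p j) i) * Function.update e j e' i
        = aeval x (p i) * e i - (algebraMap k K (c j))⁻¹ * aeval x (p j) *
          (algebraMap k K (c i) * x ^ (a j - a i) * e i) := by
      intro i hi
      have hij : i ≠ j := (Finset.mem_erase.1 hi).1
      simp only [if_neg hij, Function.update_of_ne hij]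
      simp only [map_sub, map_mul, map_pow, aeval_X, aeval_C, map_inv₀]
      ring
    rw [Finset.sum_congr rfl h1, Finset.sum_sub_distrib, ← Finset.mul_sum]
    simp only [if_pos, Function.update_self]
    have h2 : e' = algebraMap k K (c j) * e j +
        ∑ i ∈ Finset.univ.erase j, algebraMap k K (c i) * x ^ (a j - a i) * e i := by
      rw [he', ← Finset.add_sum_erase _ _ (Finset.mem_univ j), Nat.sub_self, pow_zero, mul_one]
    have h3 : h = aeval x (p j) * e j + ∑ i ∈ Finset.univ.erase j, aeval x (p i) * e i := by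
      rw [hp, ← Finset.add_sum_erase _ _ (Finset.mem_univ j)]
    rw [h2, h3]
    simp only [map_mul, aeval_C, map_inv₀]
    field_simp
    ring

/-- the reduced basis as a family -/
theorem exists_red (hINC : SpecINC) (hF : Fun1 k K) {x : K} (hx : Transcendental k x) :
    ∃ (e : Fin (Module.finrank k⟮x⟯ K) → K) (a : Fin (Module.finrank k⟮x⟯ K) → ℕ),
      Lat k x _ e ∧ (∀ i, RI k x (x⁻¹ ^ a i * e i)) ∧
      ∀ c : Fin (Module.finrank k⟮x⟯ K) → k,
        RI k x (x * ∑ i, algebraMap k K (c i) * x⁻¹ ^ a i * e i) → ∀ i, c i = 0 := by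
  classical
  have hx0 : x ≠ 0 := by
    rintro rfl
    exact hx (isAlgebraic_zero)
  set n := Module.finrank k⟮x⟯ K with hn
  let Q : ℕ → Prop := fun s => ∃ (e : Fin n → K) (a : Fin n → ℕ),
      Lat k x n e ∧ (∀ i, RI k x (x⁻¹ ^ a i * e i)) ∧ ∑ i, a i = s
  have hQ : ∃ s, Q s := by
    obtain ⟨e, he⟩ := exists_lat hINC hF hx
    choose a ha using fun i => bound_poles hF hx (e i)
    exact ⟨_, e, a, he, ha, rfl⟩
  obtain ⟨e, a, he, ha, hsum⟩ := Nat.find_spec hQ
  refine ⟨e, a, he, ha, fun c hc => ?_⟩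
  by_contra hcon
  push Not at hcon
  obtain ⟨i0, hi0⟩ := hcon
  obtain ⟨j, hjJ, hjmax⟩ := Finset.exists_max_image (Finset.univ.filter fun i => c i ≠ 0) a
    ⟨i0, by simpa using hi0⟩
  have hj : c j ≠ 0 := by simpa using hjJ
  have hcj : algebraMap k K (c j) ≠ 0 := by
    rwa [Ne, map_eq_zero]
  set e' : K := ∑ i, algebraMap k K (c i) * x ^ (a j - a i) * e i with he'
  have hee : e' = x ^ a j * ∑ i, algebraMap k K (c i) * x⁻¹ ^ a i * e i := by
    rw [he', Finset.mul_sum]
    refine Finset.sum_congr rfl fun i _ => ?_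
    by_cases hi : c i = 0
    · rw [hi, map_zero]; ring
    · have hle : a i ≤ a j := hjmax i (by simpa using hi)
      have h1 : x ^ a j * x⁻¹ ^ a i = x ^ (a j - a i) := by
        rw [inv_pow, pow_sub₀ x hx0 hle]
      rw [← h1]
      ring
  obtain ⟨b, hb⟩ := lat_basis hx he (denom hF hx)
  have hne : e' ≠ 0 := by
    intro h0
    have h1 : ∀ i, ∃ f : k⟮x⟯, (f : K) = algebraMap k K (c i) * x ^ (a j - a i) := by
      intro i
      refine ⟨⟨_, ?_⟩, rfl⟩
      exact mul_mem (k⟮x⟯.algebraMap_mem _) (pow_mem (mem_adjoin_simple_self k x) _)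
    choose f hf using h1
    have h2 : ∑ i, f i • b i = 0 := by
      rw [← h0, he']
      refine Finset.sum_congr rfl fun i _ => ?_
      rw [← hf, hb]
      rfl
    have h3 := Fintype.linearIndependent_iff.1 b.linearIndependent f h2 j
    have h4 := hf j
    rw [h3, Nat.sub_self, pow_zero, mul_one] at h4
    exact hcj h4.symm
  have hlat := lat_step he c a j hj
  rw [← he'] at hlat
  rcases Nat.eq_zero_or_pos (a j) with haj | haj
  · -- degree zero
    apply hne
    refine eq_zero_of hF hx ?_ ?_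
    · have := hlat.mem j
      rwa [Function.update_self] at this
    · rw [hee, haj, pow_zero, one_mul]
      exact hc
  · have hlt : (∑ i, Function.update a j (a j - 1) i) < ∑ i, a i := by
      rw [← Finset.add_sum_erase _ _ (Finset.mem_univ j), Function.update_self]
      rw [← Finset.add_sum_erase _ (fun i => a i) (Finset.mem_univ j)]
      have : ∑ i ∈ Finset.univ.erase j, Function.update a j (a j - 1) i
          = ∑ i ∈ Finset.univ.erase j, a i := by
        refine Finset.sum_congr rfl fun i hi => ?_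
        rw [Function.update_of_ne (Finset.mem_erase.1 hi).1]
      rw [this]
      omega
    rw [hsum] at hlt
    refine Nat.find_min hQ hlt ⟨Function.update e j e', Function.update a j (a j - 1), hlat,
      fun i => ?_, rfl⟩
    by_cases hij : i = j
    · rw [hij, Function.update_self, Function.update_self]
      have e1 : x⁻¹ ^ (a j - 1) * e' = x * ∑ i, algebraMap k K (c i) * x⁻¹ ^ a i * e i := by
        rw [hee, ← mul_assoc]
        congr 1
        obtain ⟨m, hm⟩ : ∃ m, a j = m + 1 := ⟨a j - 1, by omega⟩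
        rw [hm, Nat.add_sub_cancel, pow_succ, ← mul_assoc, ← mul_pow, inv_mul_cancel₀ hx0, one_pow,
          one_mul]
      rw [e1]
      exact hc
    · rw [Function.update_of_ne hij, Function.update_of_ne hij]
      exact ha i

end main

end REDM

open REDM FNVM

/-- a reduced basis -/
theorem specRED (hINC : SpecINC) : SpecRED := by
  intro k K _ _ _ _ _ hF x hx
  have hx0 : x ≠ 0 := by
    rintro rfl
    exact hx (isAlgebraic_zero)
  obtain ⟨e, a, he, ha, hred⟩ := exists_red hINC hF hx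
  obtain ⟨b, hb⟩ := lat_basis hx he (denom hF hx)
  have hsum : ∀ h : K, h = ∑ i, algebraMap k⟮x⟯ K (b.repr h i) * e i := by
    intro h
    conv_lhs => rw [← b.sum_repr h]
    refine Finset.sum_congr rfl fun i _ => ?_
    rw [hb]
    rfl
  refine ⟨Module.finrank k⟮x⟯ K, b, fun i => (a i : ℤ), fun h => ⟨fun hh i => ?_, fun hh => ?_⟩, fun h =>
    ⟨fun hh => ?_, fun hh => ?_⟩⟩
  · obtain ⟨p, hp⟩ := he.gen h hh
    have hmem : ∀ i, aeval x (p i) ∈ k⟮x⟯ := fun i =>
      (IntermediateField.algebra_adjoin_le_adjoin k {x}) (aeval_mem_adjoin_singleton k x)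
    have h1 : h = ∑ i, (⟨aeval x (p i), hmem i⟩ : k⟮x⟯) • b i := by
      conv_lhs => rw [hp]
      refine Finset.sum_congr rfl fun i _ => ?_
      rw [hb]
      rfl
    refine ⟨p i, ?_⟩
    have h2 := congrFun (congrArg DFunLike.coe (congrArg b.repr h1)) i
    rw [b.repr_sum_self] at h2
    rw [h2]
    rfl
  · intro v hv hxv
    rw [hsum h]
    refine nn_sum _ _ fun i _ => ?_
    obtain ⟨p, hp⟩ := hh i
    rw [hp]
    exact nn_mul (nn_aeval hv hxv p) (he.mem i v hv hxv)
  · -- the descent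
    have key : ∀ μ : ℕ, (∀ i, DegX k x ((μ : ℤ) - a i) (algebraMap k⟮x⟯ K (b.repr h i))) →
        ∀ i, DegX k x (-(a i : ℤ)) (algebraMap k⟮x⟯ K (b.repr h i)) := by
      intro μ
      induction μ with
      | zero =>
        intro h1 i
        have := h1 i
        simpa using this
      | succ μ ih =>
        intro h1
        choose c hc using fun i => degX_lead hx (h1 i)
        have h2 : ∀ i, c i = 0 := by
          refine hred c fun v hv hxv => ?_
          have e1 : x * ∑ i, algebraMap k K (c i) * x⁻¹ ^ a i * e i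
              = x⁻¹ ^ μ * h - ∑ i, ((algebraMap k⟮x⟯ K (b.repr h i)
                - algebraMap k K (c i) * x ^ (((μ + 1 : ℕ) : ℤ) - a i)) *
                  x ^ (-(((μ + 1 : ℕ) : ℤ) - a i - 1))) * (x⁻¹ ^ a i * e i) := by
            have e2 : x⁻¹ ^ μ * h = ∑ i, x⁻¹ ^ μ * (algebraMap k⟮x⟯ K (b.repr h i) * e i) := by
              rw [← Finset.mul_sum, ← hsum h]
            rw [e2, ← Finset.sum_sub_distrib, Finset.mul_sum]
            refine Finset.sum_congr rfl fun i _ => ?_
            have e3 : x ^ (-(((μ + 1 : ℕ) : ℤ) - a i - 1)) * x⁻¹ ^ a i = x⁻¹ ^ μ := by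
              rw [inv_pow, inv_pow, ← zpow_natCast x (a i), ← zpow_natCast x μ, ← zpow_neg,
                ← zpow_neg, ← zpow_add₀ hx0]
              congr 1
              push_cast
              ring
            have e4 : x ^ (((μ + 1 : ℕ) : ℤ) - a i) * x⁻¹ ^ μ = x * x⁻¹ ^ a i := by
              rw [inv_pow, inv_pow, ← zpow_natCast x (a i), ← zpow_natCast x μ, ← zpow_neg,
                ← zpow_neg, ← zpow_add₀ hx0, ← zpow_one_add₀ hx0]
              congr 1
              push_cast
              ring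
            have e5 : ((algebraMap k⟮x⟯ K (b.repr h i)
                - algebraMap k K (c i) * x ^ (((μ + 1 : ℕ) : ℤ) - a i)) *
                  x ^ (-(((μ + 1 : ℕ) : ℤ) - a i - 1))) * (x⁻¹ ^ a i * e i)
                = (algebraMap k⟮x⟯ K (b.repr h i)
                - algebraMap k K (c i) * x ^ (((μ + 1 : ℕ) : ℤ) - a i)) *
                  (x ^ (-(((μ + 1 : ℕ) : ℤ) - a i - 1)) * x⁻¹ ^ a i) * e i := by
              ring
            rw [e5, e3]
            linear_combination (-algebraMap k K (c i) * e i) * e4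
          rw [e1]
          have hxu : ¬ NN v ((Units.mk0 x hx0 : Kˣ) : K) := hxv
          refine nn_sub (nn_mul (nn_pow (nn_of_pos (pos_inv_of_not_nn hxv)) _) (hh v hv hxv))
            (nn_sum _ _ fun i _ => nn_mul ?_ (ha i v hv hxv))
          exact nn_of_degX hv (Units.mk0 x hx0) hxu (hc i)
        refine ih fun i => ?_
        have h3 := hc i
        rw [h2 i, map_zero, zero_mul, sub_zero] at h3
        refine degX_mono ?_ h3
        push_cast
        omega
    choose m hm using fun i => degX_exists (k := k) (x := x) (b.repr h i)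
    refine key (∑ i, ((m i).natAbs + a i)) fun i => degX_mono ?_ (hm i)
    have h4 : (m i).natAbs + a i ≤ ∑ i, ((m i).natAbs + a i) :=
      Finset.single_le_sum (f := fun i => (m i).natAbs + a i) (fun _ _ => Nat.zero_le _)
        (Finset.mem_univ i)
    omega
  · intro v hv hxv
    rw [hsum h]
    refine nn_sum _ _ fun i _ => ?_
    have e1 : algebraMap k⟮x⟯ K (b.repr h i) * e i
        = (algebraMap k⟮x⟯ K (b.repr h i) * x ^ (-(-(a i : ℤ)))) * (x⁻¹ ^ a i * e i) := by
      have e2 : x ^ (-(-(a i : ℤ))) * x⁻¹ ^ a i = 1 := by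
        rw [neg_neg, zpow_natCast, inv_pow, mul_inv_cancel₀ (pow_ne_zero _ hx0)]
      linear_combination (-algebraMap k⟮x⟯ K (b.repr h i) * e i) * e2
    rw [e1]
    have hxu : ¬ NN v ((Units.mk0 x hx0 : Kˣ) : K) := hxv
    exact nn_mul (nn_of_degX hv (Units.mk0 x hx0) hxu (hh i)) (ha i v hv hxv)

end MP743d1e.BD
end

section
/-!
# RES: residues are constants
-/
set_option autoImplicit false

namespace MP743d1e.BD

open scoped BigOperators
open Polynomial IntermediateField MP743d1e.CY MP743d1e.GX MP743d1e.Integ Filter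

namespace RESM

variable {k K : Type} [Field k] [Field K] [Algebra k K] [IsAlgClosed k]

theorem ord_aeval {v : DVal K} (hg : GeoF k v) {u : K} (hu : NN v u)
    (hc : ∀ c : k, ¬ Pos v (u - algebraMap k K c)) :
    ∀ (n : ℕ) (p : k[X]), p.natDegree = n → p ≠ 0 →
      ∃ w : Kˣ, (w : K) = aeval u p ∧ v.ord w = 0 := by
  intro n
  induction n with
  | zero =>
    intro p hp h0
    obtain ⟨c, rfl⟩ := Polynomial.natDegree_eq_zero.1 hp
    have hc0 : c ≠ 0 := by
      rintro rfl
      exact h0 (map_zero _)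
    refine ⟨Units.mk0 (algebraMap k K c) (by rwa [Ne, map_eq_zero]), by simp, hg _ ⟨c, rfl⟩⟩
  | succ n ih =>
    intro p hp h0
    have hdeg : p.degree ≠ 0 := by
      intro h
      have h1 : p.natDegree = 0 := Polynomial.natDegree_eq_of_degree_eq_some h
      rw [hp] at h1
      exact Nat.succ_ne_zero n h1
    obtain ⟨c, hroot⟩ := IsAlgClosed.exists_root p hdeg
    obtain ⟨q, hq⟩ := dvd_iff_isRoot.2 hroot
    have hq0 : q ≠ 0 := by
      rintro rfl
      exact h0 (by rw [hq, mul_zero])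
    have hqd : q.natDegree = n := by
      have h1 : p.natDegree = (X - C c).natDegree + q.natDegree := by
        rw [hq]
        exact natDegree_mul (X_sub_C_ne_zero c) hq0
      rw [natDegree_X_sub_C] at h1
      omega
    obtain ⟨w, hw, hw0⟩ := ih q hqd hq0
    have hN : NN v (u - algebraMap k K c) := by
      rw [sub_eq_add_neg]
      exact nn_add hu (nn_neg (FNVM.nn_const hg c))
    obtain ⟨w', hw', hw0'⟩ := FNVM.ord_of_nn_not_pos hN (hc c)
    refine ⟨w' * w, ?_, ?_⟩
    · rw [Units.val_mul, hw, hw', hq, map_mul, map_sub, aeval_X, aeval_C]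
    · rw [v.ord_mul, hw0, hw0', add_zero]

end RESM

theorem specRES : SpecRES := by
  intro k K _ _ _ _ hF v hg u hu
  rcases con (k := k) u with ht | ⟨c, hc⟩
  · by_contra hno
    have hc : ∀ c : k, ¬ Pos v (u - algebraMap k K c) := fun c h => hno ⟨c, h⟩
    have hfin : FiniteDimensional k⟮u⟯ K := fdx hF ht
    have hord : ∀ p : k[X], p ≠ 0 → ∃ w : Kˣ, (w : K) = aeval u p ∧ v.ord w = 0 :=
      fun p hp => RESM.ord_aeval hg hu hc _ p rfl hp
    have hA : ∀ a : k⟮u⟯, NN v (algebraMap k⟮u⟯ K a) := by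
      intro a
      obtain ⟨r, s, hrs⟩ := (IntermediateField.mem_adjoin_simple_iff k (a : K)).1 a.2
      have ha : algebraMap k⟮u⟯ K a = aeval u r / aeval u s := hrs
      by_cases hr : r = 0
      · left
        rw [ha, hr, map_zero, zero_div]
      by_cases hs : s = 0
      · left
        rw [ha, hs, map_zero, div_zero]
      obtain ⟨w, hw, hw0⟩ := hord r hr
      obtain ⟨w', hw', hw0'⟩ := hord s hs
      refine Or.inr ⟨w * w'⁻¹, ?_, ?_⟩
      · rw [ha, Units.val_mul, Units.val_inv_eq_inv_val, hw, hw', div_eq_mul_inv]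
      · rw [v.ord_mul, v.ord_inv, hw0, hw0', neg_zero, add_zero]
    obtain ⟨π, hπ⟩ := v.surj (-1)
    have h1 : IsIntegral k⟮u⟯ (π : K) := Algebra.IsIntegral.isIntegral _
    have h2 : NN v (π : K) := FNVM.nn_of_isIntegral hA h1
    rw [nn_unit, hπ] at h2
    omega
  · exact ⟨c, Or.inl (by rw [hc, sub_self])⟩

end MP743d1e.BD
end

section
/-!
# Theorem BD, module RGD: differentials that are regular on the good arcs
-/
set_option autoImplicit false

namespace MP743d1e.BD

open scoped BigOperators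
open Polynomial IntermediateField MP743d1e.CY MP743d1e.GX MP743d1e.Integ Filter

namespace RGDM

/-- Coefficientwise constant extension. -/
noncomputable def mp {κ κ' : Type} [Field κ] [Field κ'] (φ : κ →+* κ') (a : LaurentSeries κ) :
    LaurentSeries κ' :=
  HahnSeries.map a φ

theorem mp_coeff {κ κ' : Type} [Field κ] [Field κ'] (φ : κ →+* κ') (a : LaurentSeries κ) (n : ℤ) :
    (mp φ a).coeff n = φ (a.coeff n) := rfl

theorem mp_mul {κ κ' : Type} [Field κ] [Field κ'] (φ : κ →+* κ') (a b : LaurentSeries κ) :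
    mp φ (a * b) = mp φ a * mp φ b :=
  HahnSeries.map_mul (φ : κ →ₙ+* κ')

theorem dS_coeff {κ : Type} [Field κ] (a : LaurentSeries κ) (n : ℤ) :
    (dS a).coeff n = ((n + 1 : ℤ) : κ) * a.coeff (n + 1) := by
  rw [dS, LaurentSeries.derivative_apply, LaurentSeries.hasseDeriv_coeff]
  simp

theorem dS_mp {κ κ' : Type} [Field κ] [Field κ'] (φ : κ →+* κ') (a : LaurentSeries κ) :
    dS (mp φ a) = mp φ (dS a) := by
  apply HahnSeries.ext
  funext n
  rw [dS_coeff, mp_coeff, mp_coeff, dS_coeff, map_mul, map_intCast]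

end RGDM

open RGDM in
theorem specRGD (hC3 : SpecC3) (hCES : SpecCES) (hCAR : SpecCAR) (hLSD : SpecLSD) : SpecRGD := by
  intro k₀ K₀ k₁ K₁ _ _ _ _ _ _ _ _ _ _ _ _ _ _ hext hfun z hz h hreg
  have hF := hLSD k₁
  have hmem : h ∈ Algebra.adjoin k₁ (Set.range (algebraMap K₀ K₁)) := by
    apply hC3 k₀ K₀ k₁ K₁ hext hfun z hz h
    intro ι c hι hιz
    have h1 : IsUnr ι := by
      refine ⟨algebraMap K₀ K₁ z - algebraMap k₁ K₁ c, ?_⟩
      rw [map_sub, hιz, hι c, Algebra.algebraMap_self_apply]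
      ring
    have h2 := hreg ι hι h1
    rw [hιz, hF.d_along.1, hF.d_C, hF.d_sv, zero_add, mul_one] at h2
    exact h2
  obtain ⟨n, r, c, hr, hc, hh⟩ := (hCES k₀ K₀ k₁ K₁ hext).2.1 h hmem
  refine ⟨n, r, c, hr, ?_, hh⟩
  intro i ι₀ hι₀ hu
  obtain ⟨ϖ, hϖ⟩ := hu
  obtain ⟨ι, hι, hco, hιϖ⟩ := hCAR k₀ K₀ k₁ K₁ hext hfun ι₀ ϖ hι₀ hϖ
  have hmap : ∀ y : K₀, ι (algebraMap K₀ K₁ y) = mp (algebraMap k₀ k₁) (ι₀ y) := by
    intro y
    apply HahnSeries.ext
    funext m
    rw [hco, mp_coeff]
  have h1 := hreg ι hι ⟨_, hιϖ⟩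
  have h2 : ι h * dS (ι (algebraMap K₀ K₁ z)) =
      ∑ j, HahnSeries.C (c j) * mp (algebraMap k₀ k₁) (ι₀ (r j) * dS (ι₀ z)) := by
    rw [hh, map_sum, Finset.sum_mul]
    refine Finset.sum_congr rfl fun j _ => ?_
    rw [map_mul, hmap, hmap, hι, Algebra.algebraMap_self_apply, dS_mp, mp_mul]
    ring
  intro m hm
  have h3 := h1 m hm
  rw [h2, HahnSeries.coeff_sum] at h3
  have h4 : ∑ j, ((ι₀ (r j) * dS (ι₀ z)).coeff m) • c j = 0 := by
    rw [← h3]
    refine Finset.sum_congr rfl fun j _ => ?_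
    rw [HahnSeries.C_apply, HahnSeries.coeff_single_zero_mul, mp_coeff, Algebra.smul_def, mul_comm]
  exact Fintype.linearIndependent_iff.1 hc _ h4 i

end MP743d1e.BD
end

section
/-!
# Theorem BD: module RGF (functions without poles on the good arcs are constant)
-/
set_option autoImplicit false

namespace MP743d1e.BD

open scoped BigOperators
open Polynomial IntermediateField MP743d1e.CY MP743d1e.GX MP743d1e.Integ Filter

theorem specRGF (hC3 : SpecC3) (hCES : SpecCES) (hCAR : SpecCAR) (hARC : SpecARC)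
    (hLSD : SpecLSD) : SpecRGF := by
  intro k₀ K₀ k₁ K₁ _ _ _ _ _ _ _ _ _ _ _ _ _ _ hCE hF h hgood
  obtain ⟨z, hz, hzf⟩ := id hF
  have hmem := hC3 k₀ K₀ k₁ K₁ hCE hF z hz h fun ι c hι hιz => hgood ι ⟨hι, z, c, hιz⟩
  obtain ⟨n, r, c, hr, hc, hh⟩ := (hCES k₀ K₀ k₁ K₁ hCE).2.1 h hmem
  have hconst : ∀ i, ∃ a : k₀, algebraMap k₀ K₀ a = r i := by
    intro i
    rcases con (k := k₀) (r i) with ht | hi
    · exfalso
      have hne : r i ≠ 0 := by
        intro h0
        rw [h0] at ht
        exact ht (isAlgebraic_zero)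
      have hti : Transcendental k₀ (((Units.mk0 (r i) hne)⁻¹ : K₀ˣ) : K₀) := by
        intro hal
        apply ht
        have h2 := hal.inv
        simpa using h2
      obtain ⟨-, v, hv, hpos⟩ := specFNV k₀ K₀ z hzf _ hti
      obtain ⟨ϖ, hϖ⟩ := v.surj 1
      obtain ⟨ι₀, hι₀, hι₀ϖ, hord⟩ := hARC k₀ K₀ hF v hv ϖ hϖ
      obtain ⟨ι, hι, hcoef, hιϖ⟩ := hCAR k₀ K₀ k₁ K₁ hCE hF ι₀ (ϖ : K₀) hι₀ hι₀ϖ
      have hO : IsO (ι h) := hgood ι ⟨hι, (ϖ : K₀), 0, by rw [hιϖ, map_zero, zero_add]⟩
      have hOi : IsO (ι₀ (r i)) := by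
        intro m hm
        have h1 := hO m hm
        rw [hh, map_sum, HahnSeries.coeff_sum] at h1
        have h2 : ∑ j, (ι₀ (r j)).coeff m • c j = 0 := by
          rw [← h1]
          refine Finset.sum_congr rfl fun j _ => ?_
          rw [map_mul, hι (c j), Algebra.algebraMap_self, RingHom.id_apply, mul_comm,
            HahnSeries.C_mul_eq_smul, HahnSeries.coeff_smul, hcoef, smul_eq_mul, mul_comm,
            Algebra.smul_def]
        exact Fintype.linearIndependent_iff.1 hc _ h2 i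
      have hne' : ι₀ (r i) ≠ 0 := by
        intro h0
        exact hne ((map_eq_zero ι₀).1 h0)
      have h3 := ((hLSD k₀).o_iff _ hne').1 hOi
      have h4 := hord (Units.mk0 (r i) hne)
      rw [Units.val_mk0] at h4
      rw [h4] at h3
      have h5 : v.ord ((Units.mk0 (r i) hne)⁻¹) + v.ord (Units.mk0 (r i) hne) = 0 := by
        rw [← v.ord_mul, inv_mul_cancel]
        have h6 := v.ord_mul 1 1
        rw [mul_one] at h6
        omega
      omega
    · exact hi
  choose a ha using hconst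
  refine ⟨∑ i, algebraMap k₀ k₁ (a i) * c i, ?_⟩
  rw [hh, map_sum]
  refine Finset.sum_congr rfl fun i _ => ?_
  rw [map_mul, ← ha i, ← IsScalarTower.algebraMap_apply, ← IsScalarTower.algebraMap_apply]

end MP743d1e.BD
end

section
/-!
# RRL: the mini Riemann-Roch theorem
-/
set_option autoImplicit false

namespace MP743d1e.BD

open scoped BigOperators
open Polynomial IntermediateField MP743d1e.CY MP743d1e.GX MP743d1e.Integ Filter

namespace RRLM

variable {k K : Type} [Field k] [Field K] [Algebra k K]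

theorem degX_mono {x : K} {m m' : ℤ} {φ : K} (h : DegX k x m φ) (hm : m ≤ m') :
    DegX k x m' φ := by
  obtain ⟨p, q, hq, h1, h2⟩ := h
  exact ⟨p, q, hq, h1, h2.trans hm⟩

theorem natDegree_comb {p q p' q' : k[X]} {m : ℤ} (a b : k) (hq : q ≠ 0) (hq' : q' ≠ 0)
    (h : (p.natDegree : ℤ) - q.natDegree ≤ m) (h' : (p'.natDegree : ℤ) - q'.natDegree ≤ m) :
    ((C a * (p * q') + C b * (p' * q)).natDegree : ℤ) - (q * q').natDegree ≤ m := by
  have h1 : (C a * (p * q')).natDegree ≤ p.natDegree + q'.natDegree :=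
    (natDegree_C_mul_le _ _).trans natDegree_mul_le
  have h2 : (C b * (p' * q)).natDegree ≤ p'.natDegree + q.natDegree :=
    (natDegree_C_mul_le _ _).trans natDegree_mul_le
  have h3 := natDegree_add_le (C a * (p * q')) (C b * (p' * q))
  rw [natDegree_mul hq hq']
  push_cast
  rcases le_max_iff.1 h3 with h4 | h4 <;> omega

theorem aeval_comb {x φ ψ : K} {p q p' q' : k[X]} (a b : k) (h : φ * aeval x q = aeval x p)
    (h' : ψ * aeval x q' = aeval x p') :
    (algebraMap k K a * φ + algebraMap k K b * ψ) * aeval x (q * q') =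
      aeval x (C a * (p * q') + C b * (p' * q)) := by
  rw [map_add, map_mul, map_mul, map_mul, map_mul, map_mul, aeval_C, aeval_C, ← h, ← h']
  ring

theorem degX_comb {x φ ψ : K} {m : ℤ} (a b : k) (h : DegX k x m φ) (h' : DegX k x m ψ) :
    DegX k x m (algebraMap k K a * φ + algebraMap k K b * ψ) := by
  obtain ⟨p, q, hq, h1, h2⟩ := h
  obtain ⟨p', q', hq', h1', h2'⟩ := h'
  exact ⟨_, _, mul_ne_zero hq hq', aeval_comb a b h1 h1', natDegree_comb a b hq hq' h2 h2'⟩

/-- A combination of degree at most `-2`. -/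
theorem exists_comb {x φ ψ : K} (hx : Transcendental k x) (h : DegX k x (-1) φ)
    (h' : DegX k x (-1) ψ) : ∃ a b : k, (a ≠ 0 ∨ b ≠ 0) ∧
      DegX k x (-2) (algebraMap k K a * φ + algebraMap k K b * ψ) := by
  obtain ⟨p, q, hq, h1, h2⟩ := h
  obtain ⟨p', q', hq', h1', h2'⟩ := h'
  set N := (q * q').natDegree with hN
  have hNe : N = q.natDegree + q'.natDegree := natDegree_mul hq hq'
  have hN1 : 1 ≤ N := by omega
  obtain ⟨a, b, hab, hc⟩ : ∃ a b : k, (a ≠ 0 ∨ b ≠ 0) ∧
      (C a * (p * q') + C b * (p' * q)).coeff (N - 1) = 0 := by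
    by_cases h0 : (p * q').coeff (N - 1) = 0
    · refine ⟨1, 0, Or.inl one_ne_zero, ?_⟩
      rw [coeff_add, coeff_C_mul, coeff_C_mul, h0]
      ring
    · refine ⟨(p' * q).coeff (N - 1), -(p * q').coeff (N - 1), Or.inr (neg_ne_zero.2 h0), ?_⟩
      rw [coeff_add, coeff_C_mul, coeff_C_mul]
      ring
  refine ⟨a, b, hab, ?_⟩
  have h3 := aeval_comb a b h1 h1'
  have h4 := natDegree_comb a b hq hq' h2 h2'
  rw [← hN] at h4
  set R := C a * (p * q') + C b * (p' * q) with hR
  by_cases hR0 : R = 0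
  · have h5 : algebraMap k K a * φ + algebraMap k K b * ψ = 0 := by
      rw [hR0, map_zero] at h3
      rcases mul_eq_zero.1 h3 with h6 | h6
      · exact h6
      · exact absurd h6 ((transcendental_iff.1 hx _).mt (mul_ne_zero hq hq'))
    rw [h5]
    refine ⟨0, X ^ 2, pow_ne_zero _ X_ne_zero, by rw [zero_mul, map_zero], ?_⟩
    rw [natDegree_zero, natDegree_X_pow]
    norm_num
  · refine ⟨R, q * q', mul_ne_zero hq hq', h3, ?_⟩
    rw [← hN]
    have h6 : R.natDegree ≠ N - 1 := by
      intro h7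
      rw [← h7] at hc
      exact hR0 (leadingCoeff_eq_zero.1 hc)
    omega

theorem transc [IsAlgClosed k] {v : DVal K} (hv : GeoF k v) {u : Kˣ} (hu : v.ord u ≠ 0) :
    Transcendental k (u : K) := by
  rcases con (k := k) (u : K) with h | ⟨c, hc⟩
  · exact h
  · exact absurd (hv u ⟨c, hc.symm⟩) hu

theorem not_alg [IsAlgClosed k] {x : K} (hx : Transcendental k x) (c : k) :
    algebraMap k K c ≠ x := by
  intro h
  apply hx
  rw [← h]
  exact isAlgebraic_algebraMap c

theorem transc_inv {x : K} (hx : Transcendental k x) : Transcendental k x⁻¹ := by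
  intro h
  exact hx (by simpa using h.inv)

theorem transc_sub {x : K} (hx : Transcendental k x) (c : k) :
    Transcendental k (x - algebraMap k K c) := by
  intro h
  apply hx
  have := h.add (isAlgebraic_algebraMap (A := K) c)
  simpa using this

/-- Change of the variable for regular differentials. -/
theorem change (hCHD : SpecCHD) (hDR0 : SpecDR0) [IsAlgClosed k] [CharZero k] (hK : Fun1 k K)
    {x z : K} (hx : Transcendental k x) (hz : Transcendental k z) :
    ∃ w : K, w ≠ 0 ∧ ∀ h : K, IsRegD k x h → IsRegD k z (h * w) := by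
  have := fdx hK hx
  obtain ⟨δ, h1, h2, h3⟩ := hDR0 k K x hx inferInstance
  have hδz : δ z ≠ 0 := by
    intro h0
    obtain ⟨c, hc⟩ := h3 z h0
    exact not_alg hz c hc
  refine ⟨(δ z)⁻¹, inv_ne_zero hδz, ?_⟩
  intro h hh
  have h4 := (hCHD k K hK x z (h * (δ z)⁻¹) δ hx h1 h2).2
  rw [h4, mul_assoc, inv_mul_cancel₀ hδz, mul_one]
  exact hh

theorem finrank_top [CharZero k] (hK : Fun1 k K) {τ : K} (hτ : Transcendental k τ)
    (h : Module.finrank k⟮τ⟯ K ≤ 1) : k⟮τ⟯ = ⊤ := by
  have := fdx hK hτ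
  have h1 : 0 < Module.finrank k⟮τ⟯ K := Module.finrank_pos
  exact IntermediateField.finrank_eq_one_iff_eq_top.1 (by omega)

/-- A variable without poles at two places. -/
theorem exists_var [IsAlgClosed k] {x : K} (hx : Transcendental k x) {A B : DVal K}
    (hA : GeoF k A) (hB : GeoF k B) : ∃ y : K, Transcendental k y ∧ NN A y ∧ NN B y := by
  classical
  have key : ∀ v : DVal K, GeoF k v → ∀ c c' : k, Pos v (x - algebraMap k K c) →
      Pos v (x - algebraMap k K c') → c = c' := by
    intro v hv c c' h h'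
    by_contra hne
    have h0 : algebraMap k K (c - c') ≠ 0 := by
      rw [Ne, map_eq_zero, sub_eq_zero]; exact hne
    have h1 : v.ord (Units.mk0 _ h0) = 0 := hv _ ⟨c - c', rfl⟩
    have hc1 : x - algebraMap k K c ≠ 0 := by
      rw [Ne, sub_eq_zero]; exact fun h => not_alg hx c h.symm
    have hc2 : x - algebraMap k K c' ≠ 0 := by
      rw [Ne, sub_eq_zero]; exact fun h => not_alg hx c' h.symm
    have h2 : 1 ≤ v.ord (Units.mk0 _ hc1) := (pos_unit (u := Units.mk0 _ hc1)).1 h
    have h3 : 1 ≤ v.ord (Units.mk0 _ hc2) := (pos_unit (u := Units.mk0 _ hc2)).1 h'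
    have h4 := v.ord_add (Units.mk0 _ hc2) (-(Units.mk0 _ hc1)) (Units.mk0 _ h0) (by
      rw [Units.val_neg, Units.val_mk0, Units.val_mk0, Units.val_mk0, map_sub]
      ring)
    rw [v.ord_neg, h1] at h4
    rcases min_le_iff.1 h4 with h5 | h5 <;> omega
  have hfin : ∀ v : DVal K, GeoF k v → {c : k | Pos v (x - algebraMap k K c)}.Finite := by
    intro v hv
    apply Set.Subsingleton.finite
    intro c hc c' hc'
    exact key v hv c c' hc hc'
  have hinf : Infinite k := IsAlgClosed.instInfinite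
  obtain ⟨c, hc⟩ := ((hfin A hA).union (hfin B hB)).exists_notMem
  rw [Set.mem_union, not_or] at hc
  have hc0 : x - algebraMap k K c ≠ 0 := by
    rw [Ne, sub_eq_zero]; exact fun h => not_alg hx c h.symm
  have hnn : ∀ v : DVal K, ¬ Pos v (x - algebraMap k K c) → NN v (x - algebraMap k K c)⁻¹ := by
    intro v hv
    refine Or.inr ⟨(Units.mk0 _ hc0)⁻¹, by simp, ?_⟩
    rw [v.ord_inv]
    have : ¬ 1 ≤ v.ord (Units.mk0 _ hc0) := fun h => hv ((pos_unit (u := Units.mk0 _ hc0)).2 h)
    omega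
  exact ⟨_, transc_inv (transc_sub hx c), hnn A hc.1, hnn B hc.2⟩

theorem nn_comb {v : DVal K} (hv : GeoF k v) {f g : K} (a b : k) (hf : NN v f) (hg : NN v g) :
    NN v (algebraMap k K a * f + algebraMap k K b * g) :=
  nn_add (nn_mul (FNVM.nn_const hv a) hf) (nn_mul (FNVM.nn_const hv b) hg)

/-- The order of a combination with a simple pole. -/
theorem ord_comb {v : DVal K} (hv : GeoF k v) {u : Kˣ} (hu : v.ord u = -1) {g : K}
    (hg : NN v g) {a : k} (ha : a ≠ 0) (b : k) :
    ∃ w : Kˣ, (w : K) = algebraMap k K a * u + algebraMap k K b * g ∧ v.ord w = -1 := by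
  have ha0 : algebraMap k K a ≠ 0 := by rwa [Ne, map_eq_zero]
  have h1 : v.ord (Units.mk0 _ ha0) = 0 := hv _ ⟨a, rfl⟩
  have h2 : v.ord (Units.mk0 _ ha0 * u) = -1 := by rw [v.ord_mul, h1, hu, zero_add]
  have h3 : NN v (algebraMap k K b * g) := nn_mul (FNVM.nn_const hv b) hg
  rcases h3 with h3 | ⟨w, hw, h3⟩
  · exact ⟨Units.mk0 _ ha0 * u, by rw [h3, add_zero]; rfl, h2⟩
  · have h4 : algebraMap k K a * u + algebraMap k K b * g ≠ 0 := by
      intro h0
      have h5 : Units.mk0 _ ha0 * u = -w := by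
        apply Units.ext
        push_cast
        rw [hw, Units.val_mk0]
        linear_combination h0
      rw [h5, v.ord_neg] at h2
      omega
    refine ⟨Units.mk0 _ h4, rfl, ?_⟩
    have h5 := v.ord_add (Units.mk0 _ ha0 * u) w (Units.mk0 _ h4) (by
      rw [hw]; rfl)
    have h6 := v.ord_add (Units.mk0 _ h4) (-w) (Units.mk0 _ ha0 * u) (by
      push_cast
      rw [hw, Units.val_mk0, Units.val_mk0]
      ring)
    rw [h2] at h5 h6
    rw [v.ord_neg] at h6
    have h7 : min (-1) (v.ord w) = -1 := min_eq_left (by omega)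
    rw [h7] at h5
    rcases min_le_iff.1 h6 with h8 | h8
    · omega
    · omega

end RRLM

open RRLM

theorem specRRL (hRES : SpecRES) (hRED : SpecRED) (hDIF : SpecDIF) (hRDP : SpecRDP)
    (hDGP : SpecDGP) (hCHD : SpecCHD) (hDR0 : SpecDR0) : SpecRRL := by
  classical
  have _ := hRES
  intro k K _ _ _ _ _ hK z hz
  refine ⟨?_, ?_⟩
  · intro hreg
    have := fdx hK hz
    have hz0 : z ≠ 0 := fun h => hz (by rw [h]; exact isAlgebraic_zero)
    obtain ⟨-, A, hA, hAz⟩ := specFNV k K z this (Units.mk0 z hz0) hz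
    have hAz' : NN A z := Or.inr ⟨_, rfl, hAz.le⟩
    have hregz : ∀ h : K, IsRegD k z h → h = 0 := hreg
    obtain ⟨n, b, a, hb1, hb2⟩ := hRED k K hK z hz
    obtain ⟨b', hb'⟩ := hDIF k K hK z hz n b a hb1 hb2
    have ha : ∀ i, a i ≤ 1 := by
      intro i
      by_contra hc
      have h1 := hb' i 0 (by push_cast; omega)
      have h2 := hreg _ h1
      rw [pow_zero, one_mul] at h2
      exact b'.ne_zero i h2
    obtain ⟨u, hu1, hu2, hu3⟩ := hRDP k K hK z hz n b hb1 A hA hAz'
    have hRI : RI k z (u : K) := by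
      rw [hb2]
      intro i
      exact degX_mono (hu3 i) (by have := ha i; omega)
    have hut : Transcendental k (u : K) := transc hA (by omega)
    refine ⟨u, hut, finrank_top hK hut ?_⟩
    refine (hDGP k K hK u A A hut hA hA ?_ (Or.inr ⟨u, rfl, by omega⟩)
      (Or.inr ⟨u, rfl, by omega⟩)).2 (Or.inl rfl)
    intro v hv hvA _
    by_cases hvz : NN v z
    · exact hu2 v hv hvz hvA
    · exact hRI v hv hvz
  · intro hprop A B hA hB hAB
    obtain ⟨x, hx, hAx, hBx⟩ := exists_var hz hA hB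
    obtain ⟨w, hw0, hw⟩ := change hCHD hDR0 hK hx hz
    have hpropx : ∀ h h' : K, IsRegD k x h → IsRegD k x h' →
        ∃ a b : k, (a ≠ 0 ∨ b ≠ 0) ∧ algebraMap k K a * h + algebraMap k K b * h' = 0 := by
      intro h h' hh hh'
      obtain ⟨a, b, hab, h1⟩ := hprop _ _ (hw h hh) (hw h' hh')
      refine ⟨a, b, hab, ?_⟩
      have : (algebraMap k K a * h + algebraMap k K b * h') * w = 0 := by
        rw [← h1]; ring
      exact (mul_eq_zero.1 this).resolve_right hw0
    obtain ⟨n, b, a, hb1, hb2⟩ := hRED k K hK x hx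
    obtain ⟨b', hb'⟩ := hDIF k K hK x hx n b a hb1 hb2
    have hx0 : x ≠ 0 := fun h => hx (by rw [h]; exact isAlgebraic_zero)
    have hconst : ∀ c : k, algebraMap k K c = 0 → c = 0 := fun c hc => (map_eq_zero _).1 hc
    -- at most one pair
    have hone : ∀ (i j : Fin n) (l m : ℕ), (l : ℤ) + 2 ≤ a i → (m : ℤ) + 2 ≤ a j →
        i = j ∧ l = m := by
      intro i j l m hi hj
      obtain ⟨α, β, hαβ, h1⟩ := hpropx _ _ (hb' i l hi) (hb' j m hj)
      by_cases hij : i = j
      · subst hij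
        refine ⟨rfl, ?_⟩
        by_contra hlm
        have h2 : (algebraMap k K α * x ^ l + algebraMap k K β * x ^ m) * b' i = 0 := by
          rw [← h1]; ring
        have h3 := (mul_eq_zero.1 h2).resolve_right (b'.ne_zero i)
        have h4 : aeval x (C α * X ^ l + C β * X ^ m : k[X]) = 0 := by
          rw [map_add, map_mul, map_mul, aeval_C, aeval_C, map_pow, map_pow, aeval_X]
          exact h3
        have h5 := transcendental_iff.1 hx _ h4
        have h6 : (C α * X ^ l + C β * X ^ m : k[X]).coeff l = α := by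
          rw [coeff_add, coeff_C_mul_X_pow, coeff_C_mul_X_pow, if_pos rfl, if_neg hlm, add_zero]
        have h7 : (C α * X ^ l + C β * X ^ m : k[X]).coeff m = β := by
          rw [coeff_add, coeff_C_mul_X_pow, coeff_C_mul_X_pow, if_pos rfl,
            if_neg (Ne.symm hlm), zero_add]
        rw [h5, coeff_zero] at h6 h7
        rcases hαβ with h8 | h8
        · exact h8 h6.symm
        · exact h8 h7.symm
      · exfalso
        have hx' : x ∈ k⟮x⟯ := IntermediateField.mem_adjoin_simple_self k x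
        let X' : k⟮x⟯ := ⟨x, hx'⟩
        have h2 : (algebraMap k k⟮x⟯ α * X' ^ l) • b' i +
            (algebraMap k k⟮x⟯ β * X' ^ m) • b' j = 0 := by
          rw [Algebra.smul_def, Algebra.smul_def, map_mul, map_mul, map_pow, map_pow]
          have e1 : algebraMap k⟮x⟯ K X' = x := rfl
          rw [e1, ← IsScalarTower.algebraMap_apply, ← IsScalarTower.algebraMap_apply, ← h1]
          ring
        have h3 := congrArg (fun y => b'.repr y i) h2
        have h4 := congrArg (fun y => b'.repr y j) h2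
        simp only [map_add, map_smul, Finsupp.add_apply, Finsupp.smul_apply, smul_eq_mul,
          Module.Basis.repr_self, map_zero, Finsupp.coe_zero, Pi.zero_apply] at h3 h4
        rw [Finsupp.single_eq_same, Finsupp.single_eq_of_ne hij, mul_one, mul_zero,
          add_zero] at h3
        rw [Finsupp.single_eq_same, Finsupp.single_eq_of_ne (Ne.symm hij), mul_one, mul_zero,
          zero_add] at h4
        have hX0 : X' ≠ 0 := fun h => hx0 (congrArg Subtype.val h)
        have h5 := (mul_eq_zero.1 h3).resolve_right (pow_ne_zero _ hX0)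
        have h6 := (mul_eq_zero.1 h4).resolve_right (pow_ne_zero _ hX0)
        rcases hαβ with h8 | h8
        · exact h8 ((map_eq_zero _).1 h5)
        · exact h8 ((map_eq_zero _).1 h6)
    have ha2 : ∀ i, a i ≤ 2 := by
      intro i
      by_contra hc
      have := (hone i i 0 1 (by push_cast; omega) (by push_cast; omega)).2
      omega
    obtain ⟨u, hu1, hu2, hu3⟩ := hRDP k K hK x hx n b hb1 A hA hAx
    obtain ⟨u', hu1', hu2', hu3'⟩ := hRDP k K hK x hx n b hb1 B hB hBx
    obtain ⟨α, β, hαβ, hi⟩ : ∃ α β : k, (α ≠ 0 ∨ β ≠ 0) ∧ ∀ i,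
        DegX k x (-(a i)) (algebraMap k⟮x⟯ K (b.repr
          (algebraMap k K α * (u : K) + algebraMap k K β * (u' : K)) i)) := by
      have hrep : ∀ (α β : k) (i : Fin n), algebraMap k⟮x⟯ K (b.repr
          (algebraMap k K α * (u : K) + algebraMap k K β * (u' : K)) i) =
          algebraMap k K α * algebraMap k⟮x⟯ K (b.repr (u : K) i) +
            algebraMap k K β * algebraMap k⟮x⟯ K (b.repr (u' : K) i) := by
        intro α β i
        have e : algebraMap k K α * (u : K) + algebraMap k K β * (u' : K) =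
            (algebraMap k k⟮x⟯ α) • (u : K) + (algebraMap k k⟮x⟯ β) • (u' : K) := by
          rw [Algebra.smul_def, Algebra.smul_def, ← IsScalarTower.algebraMap_apply,
            ← IsScalarTower.algebraMap_apply]
        rw [e]
        simp only [map_add, map_smul, Finsupp.add_apply, Finsupp.smul_apply, smul_eq_mul,
          map_mul, ← IsScalarTower.algebraMap_apply k k⟮x⟯ K]
      by_cases hcase : ∃ i₀, a i₀ = 2
      · obtain ⟨i₀, hi₀⟩ := hcase
        obtain ⟨α, β, hαβ, h1⟩ := exists_comb hx (hu3 i₀) (hu3' i₀)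
        refine ⟨α, β, hαβ, ?_⟩
        intro i
        rw [hrep]
        by_cases h2 : a i = 2
        · have h3 := (hone i i₀ 0 0 (by push_cast; omega) (by push_cast; omega)).1
          rw [h3, hi₀]
          exact h1
        · exact degX_mono (degX_comb α β (hu3 i) (hu3' i)) (by have := ha2 i; omega)
      · refine ⟨1, 0, Or.inl one_ne_zero, ?_⟩
        intro i
        rw [hrep]
        refine degX_mono (degX_comb 1 0 (hu3 i) (hu3' i)) ?_
        have h3 : a i ≠ 2 := fun h => hcase ⟨i, h⟩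
        have := ha2 i
        omega
    have hRI := (hb2 _).2 hi
    have hnA : NN A (u' : K) := hu2' A hA hAx hAB
    have hnB : NN B (u : K) := hu2 B hB hBx (Ne.symm hAB)
    refine ⟨algebraMap k K α * (u : K) + algebraMap k K β * (u' : K), ?_, ?_, ?_, ?_⟩
    · rcases hαβ with h8 | h8
      · obtain ⟨w, hw1, hw2⟩ := ord_comb hA hu1 hnA h8 β
        rw [← hw1]
        exact transc hA (by omega)
      · obtain ⟨w, hw1, hw2⟩ := ord_comb hB hu1' hnB h8 α
        rw [add_comm, ← hw1]
        exact transc hB (by omega)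
    · intro v hv hvA hvB
      by_cases hvx : NN v x
      · exact nn_comb hv α β (hu2 v hv hvx hvA) (hu2' v hv hvx hvB)
      · exact hRI v hv hvx
    · by_cases h8 : α = 0
      · rcases nn_comb hA α β (f := 0) nn_zero hnA with h9 | ⟨w, hw1, hw2⟩
        · left; rw [← h9, h8, map_zero]; ring
        · right; exact ⟨w, by rw [hw1, h8, map_zero]; ring, by omega⟩
      · obtain ⟨w, hw1, hw2⟩ := ord_comb hA hu1 hnA h8 β
        exact Or.inr ⟨w, hw1, by omega⟩
    · by_cases h8 : β = 0
      · rcases nn_comb hB α β (g := 0) hnB nn_zero with h9 | ⟨w, hw1, hw2⟩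
        · left; rw [← h9, h8, map_zero]; ring
        · right; exact ⟨w, by rw [hw1, h8, map_zero]; ring, by omega⟩
      · obtain ⟨w, hw1, hw2⟩ := ord_comb hB hu1' hnB h8 α
        exact Or.inr ⟨w, by rw [hw1]; ring, by omega⟩

end MP743d1e.BD
end

section
/-!
# SUB: the field generated by `f` and `g`
-/
set_option autoImplicit false

namespace MP743d1e.BD

open scoped BigOperators
open Polynomial IntermediateField MP743d1e.CY MP743d1e.GX MP743d1e.Integ Filter

namespace SUBM

theorem alg_of_not_ind {k K : Type} [Field k] [Field K] [Algebra k K] {x y : K}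
    (hx : Transcendental k x) (h : ¬ AlgebraicIndependent k ![x, y]) : IsAlgebraic k⟮x⟯ y := by
  by_contra h1
  apply h
  have h2 : AlgebraicIndependent k (fun _ : Unit => x) :=
    algebraicIndependent_unique_type_iff.mpr hx
  have h3 : Transcendental (Algebra.adjoin k (Set.range fun _ : Unit => x)) y := by
    rw [Set.range_const]
    intro h4
    exact h1 (IntermediateField.isAlgebraic_adjoin_iff.2 h4)
  have h4 := (h2.option_iff_transcendental y).2 h3
  have h5 := h4.comp ![some (), none] (by decide)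
  convert h5 using 1
  funext i
  fin_cases i <;> rfl

theorem fin_of_gen {k K : Type} [Field k] [Field K] [Algebra k K] {x y : K}
    (hg : IntermediateField.adjoin k ({x, y} : Set K) = ⊤) (hx : Transcendental k x)
    (h : ¬ AlgebraicIndependent k ![x, y]) : FiniteDimensional k⟮x⟯ K := by
  have h1 := alg_of_not_ind hx h
  have h2 : IntermediateField.adjoin k⟮x⟯ ({y} : Set K) = ⊤ := by
    apply IntermediateField.restrictScalars_injective k
    rw [IntermediateField.adjoin_simple_adjoin_simple, hg]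
    rfl
  have h3 : FiniteDimensional k⟮x⟯ (IntermediateField.adjoin k⟮x⟯ ({y} : Set K)) :=
    IntermediateField.adjoin.finiteDimensional h1.isIntegral
  rw [h2] at h3
  exact (IntermediateField.topEquiv (F := k⟮x⟯) (E := K)).toLinearEquiv.finiteDimensional

theorem fin_right {k₁ K₁ E₁ : Type} [Field k₁] [Field K₁] [Field E₁] [Algebra k₁ K₁]
    [Algebra k₁ E₁] [Algebra E₁ K₁] [IsScalarTower k₁ E₁ K₁] (F₁ : E₁)
    (h : FiniteDimensional k₁⟮algebraMap E₁ K₁ F₁⟯ K₁) : FiniteDimensional E₁ K₁ := by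
  have hle : k₁⟮algebraMap E₁ K₁ F₁⟯ ≤ (IsScalarTower.toAlgHom k₁ E₁ K₁).fieldRange :=
    IntermediateField.adjoin_simple_le_iff.2 ⟨F₁, rfl⟩
  let e : E₁ ≃ₐ[k₁] (IsScalarTower.toAlgHom k₁ E₁ K₁).fieldRange :=
    AlgEquiv.ofInjectiveField (IsScalarTower.toAlgHom k₁ E₁ K₁)
  let j : k₁⟮algebraMap E₁ K₁ F₁⟯ →+* E₁ :=
    (e.symm : _ →+* E₁).comp (IntermediateField.inclusion hle).toRingHom
  have hj : ∀ c, algebraMap E₁ K₁ (j c) = c := by
    intro c
    have h1 : e (j c) = IntermediateField.inclusion hle c := e.apply_symm_apply _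
    have h2 := congrArg Subtype.val h1
    exact h2
  let _ : Algebra k₁⟮algebraMap E₁ K₁ F₁⟯ E₁ := j.toAlgebra
  have : IsScalarTower k₁⟮algebraMap E₁ K₁ F₁⟯ E₁ K₁ :=
    IsScalarTower.of_algebraMap_eq fun c => (hj c).symm
  exact FiniteDimensional.right k₁⟮algebraMap E₁ K₁ F₁⟯ E₁ K₁

theorem core (hLDG : SpecLDG) (hCEB : SpecCEB) {k₀ k₁ K₁ E₀ E₁ : Type} [Field k₀] [Field k₁]
    [Field K₁] [Field E₀] [Field E₁] [Algebra k₀ k₁] [Algebra k₀ K₁] [Algebra k₁ K₁]
    [IsScalarTower k₀ k₁ K₁] [IsAlgClosed k₀] [Algebra k₀ E₀] [Algebra k₀ E₁]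
    [Algebra E₀ E₁] [Algebra k₁ E₁] [Algebra E₁ K₁] [IsScalarTower k₀ E₀ E₁]
    [IsScalarTower k₀ k₁ E₁] [IsScalarTower k₁ E₁ K₁] (hK : Fun1 k₁ K₁) (F G : E₀)
    (hf : Transcendental k₁ (algebraMap E₁ K₁ (algebraMap E₀ E₁ F)))
    (hfg : ¬ AlgebraicIndependent k₀ ![algebraMap E₁ K₁ (algebraMap E₀ E₁ F),
      algebraMap E₁ K₁ (algebraMap E₀ E₁ G)])
    (h0 : IntermediateField.adjoin k₀ ({F, G} : Set E₀) = ⊤)
    (h1 : IntermediateField.adjoin k₁ ({algebraMap E₀ E₁ F, algebraMap E₀ E₁ G} : Set E₁) = ⊤) :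
    CExt k₀ E₀ k₁ E₁ ∧ Fun1 k₀ E₀ ∧ Fun1 k₁ E₁ ∧ FiniteDimensional E₁ K₁ ∧
      Transcendental k₀ F := by
  have hF1 : Transcendental k₁ (algebraMap E₀ E₁ F) := fun h => hf (h.algebraMap (A := K₁))
  have hF : Transcendental k₀ F := by
    intro h
    exact hF1 ((h.algebraMap (A := E₁)).tower_top k₁)
  have hni : ¬ AlgebraicIndependent k₀ ![F, G] := by
    intro h
    apply hfg
    have : IsScalarTower k₀ E₁ K₁ := IsScalarTower.of_algebraMap_eq fun c => by
      rw [IsScalarTower.algebraMap_apply k₀ k₁ E₁, ← IsScalarTower.algebraMap_apply k₁ E₁ K₁,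
        ← IsScalarTower.algebraMap_apply k₀ k₁ K₁]
    have h2 := h.map' (f := (IsScalarTower.toAlgHom k₀ E₁ K₁).comp
      (IsScalarTower.toAlgHom k₀ E₀ E₁)) (RingHom.injective _)
    convert h2 using 1
    funext i
    fin_cases i <;> rfl
  have hfin := fin_of_gen h0 hF hni
  have hC : CExt k₀ E₀ k₁ E₁ := by
    refine ⟨hLDG k₀ E₀ k₁ E₁ F (Algebra.IsAlgebraic.of_finite _ _) hF1, fun x => ?_⟩
    have hx : x ∈ IntermediateField.adjoin k₁
        ({algebraMap E₀ E₁ F, algebraMap E₀ E₁ G} : Set E₁) := by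
      rw [h1]
      exact IntermediateField.mem_top
    obtain ⟨r, hr, s, hs, hx⟩ := IntermediateField.mem_adjoin_iff_div.1 hx
    have hle : Algebra.adjoin k₁ ({algebraMap E₀ E₁ F, algebraMap E₀ E₁ G} : Set E₁) ≤
        Algebra.adjoin k₁ (Set.range (algebraMap E₀ E₁)) := by
      apply Algebra.adjoin_mono
      rintro y (rfl | rfl)
      · exact ⟨F, rfl⟩
      · exact ⟨G, rfl⟩
    by_cases h2 : s = 0
    · refine ⟨0, Subalgebra.zero_mem _, 1, Subalgebra.one_mem _, one_ne_zero, ?_⟩
      rw [mul_one, hx, h2, div_zero]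
    · exact ⟨r, hle hr, s, hle hs, h2, by rw [hx, div_mul_cancel₀ _ h2]⟩
  have hFun : Fun1 k₀ E₀ := ⟨F, hF, hfin⟩
  exact ⟨hC, hFun, (hCEB k₀ E₀ k₁ E₁ hC hFun).2.2.1, fin_right _ (fdx hK hf), hF⟩

section

variable {k₀ k₁ K₁ : Type} [Field k₀] [Field k₁] [Field K₁] [Algebra k₀ k₁] [Algebra k₀ K₁]
  [Algebra k₁ K₁] [IsScalarTower k₀ k₁ K₁]

/-- The inclusion of `E₀` in `E₁`. -/
def incl {E₀ : IntermediateField k₀ K₁} {E₁ : IntermediateField k₁ K₁}
    (hle : ∀ x, x ∈ E₀ → x ∈ E₁) : E₀ →+* E₁ where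
  toFun x := ⟨x.1, hle _ x.2⟩
  map_one' := rfl
  map_mul' _ _ := rfl
  map_zero' := rfl
  map_add' _ _ := rfl

theorem gen_top (E₀ : IntermediateField k₀ K₁) {f g : K₁} (hf : f ∈ E₀) (hg : g ∈ E₀)
    (h : IntermediateField.adjoin k₀ ({f, g} : Set K₁) = E₀) :
    IntermediateField.adjoin k₀ ({⟨f, hf⟩, ⟨g, hg⟩} : Set E₀) = ⊤ := by
  apply IntermediateField.map_injective E₀.val
  rw [IntermediateField.adjoin_map, Set.image_pair, ← AlgHom.fieldRange_eq_map,
    IntermediateField.fieldRange_val]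
  exact h

theorem inst (hLDG : SpecLDG) (hCEB : SpecCEB) [IsAlgClosed k₀] (hK : Fun1 k₁ K₁) (f g : K₁ˣ)
    (E₀ : IntermediateField k₀ K₁) (E₁ : IntermediateField k₁ K₁)
    (hle : ∀ x, x ∈ E₀ → x ∈ E₁) (hf : (f : K₁) ∈ E₀) (hg : (g : K₁) ∈ E₀)
    (h0 : IntermediateField.adjoin k₀ ({(f : K₁), (g : K₁)} : Set K₁) = E₀)
    (h1 : IntermediateField.adjoin k₁ ({(f : K₁), (g : K₁)} : Set K₁) = E₁)
    (hft : Transcendental k₁ (f : K₁))
    (hfg : ¬ AlgebraicIndependent k₀ ![(f : K₁), (g : K₁)]) :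
    ∃ (E₀ E₁ : Type) (_ : Field E₀) (_ : Field E₁) (_ : Algebra k₀ E₀) (_ : Algebra k₀ E₁)
      (_ : Algebra E₀ E₁) (_ : Algebra k₁ E₁) (_ : Algebra E₁ K₁) (_ : IsScalarTower k₀ E₀ E₁)
      (_ : IsScalarTower k₀ k₁ E₁) (_ : IsScalarTower k₁ E₁ K₁) (F G : E₀ˣ),
      CExt k₀ E₀ k₁ E₁ ∧ Fun1 k₀ E₀ ∧ Fun1 k₁ E₁ ∧ FiniteDimensional E₁ K₁ ∧
      Transcendental k₀ (F : E₀) ∧
      IntermediateField.adjoin k₀ ({(F : E₀), (G : E₀)} : Set E₀) = ⊤ ∧
      um E₁ K₁ (um E₀ E₁ F) = f ∧ um E₁ K₁ (um E₀ E₁ G) = g := by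
  let algE : Algebra E₀ E₁ := (incl hle).toAlgebra
  have hT1 : IsScalarTower k₀ E₀ E₁ := IsScalarTower.of_algebraMap_eq fun c => Subtype.ext rfl
  have hT2 : IsScalarTower k₀ k₁ E₁ :=
    IsScalarTower.of_algebraMap_eq fun c => Subtype.ext (IsScalarTower.algebraMap_apply k₀ k₁ K₁ c)
  have hF0 : (⟨(f : K₁), hf⟩ : E₀) ≠ 0 := fun h => f.ne_zero (congrArg Subtype.val h)
  have hG0 : (⟨(g : K₁), hg⟩ : E₀) ≠ 0 := fun h => g.ne_zero (congrArg Subtype.val h)
  have hc := core hLDG hCEB (k₀ := k₀) (k₁ := k₁) (K₁ := K₁) (E₀ := E₀) (E₁ := E₁) hK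
    ⟨(f : K₁), hf⟩ ⟨(g : K₁), hg⟩ hft hfg (gen_top E₀ hf hg h0)
    (gen_top E₁ (hle _ hf) (hle _ hg) h1)
  exact ⟨E₀, E₁, inferInstance, inferInstance, inferInstance, inferInstance, algE, inferInstance,
    inferInstance, hT1, hT2, inferInstance, Units.mk0 _ hF0, Units.mk0 _ hG0, hc.1, hc.2.1,
    hc.2.2.1, hc.2.2.2.1, hc.2.2.2.2, gen_top E₀ hf hg h0, Units.ext rfl, Units.ext rfl⟩

end

end SUBM

open SUBM

theorem specSUB (hLDG : SpecLDG) (hCEB : SpecCEB) : SpecSUB := by
  intro k₀ k₁ K₁ _ _ _ _ _ _ _ _ _ hK f g hf hfg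
  refine inst hLDG hCEB hK f g _ _ (fun x hx => ?_) ?_ ?_ rfl rfl hf hfg
  · have h : IntermediateField.adjoin k₀ ({(f : K₁), (g : K₁)} : Set K₁) ≤
        (IntermediateField.adjoin k₁ ({(f : K₁), (g : K₁)} : Set K₁)).restrictScalars k₀ := by
      rw [IntermediateField.adjoin_le_iff]
      intro y hy
      exact IntermediateField.subset_adjoin k₁ _ hy
    exact h hx
  · exact IntermediateField.subset_adjoin k₀ _ (by simp)
  · exact IntermediateField.subset_adjoin k₀ _ (by simp)

end MP743d1e.BD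
end

section
/-!
# TA: Theorem A
-/
set_option autoImplicit false

namespace MP743d1e.BD

open scoped BigOperators
open Polynomial IntermediateField MP743d1e.CY MP743d1e.GX MP743d1e.Integ Filter

namespace TAM

theorem equivK_symm {k K : Type} [Field k] [Field K] [Algebra k K] {α β : K2 K}
    (h : EquivK k α β) : EquivK k β α := by
  obtain ⟨m, hm, γ, hγ⟩ := h
  refine ⟨m, hm, -γ, ?_⟩
  rw [map_neg, ← hγ, ← neg_sub α β]
  exact neg_nsmul _ _

theorem equivK_trans {k K : Type} [Field k] [Field K] [Algebra k K] {α β δ : K2 K}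
    (h : EquivK k α β) (h' : EquivK k β δ) : EquivK k α δ := by
  obtain ⟨m, hm, γ, hγ⟩ := h
  obtain ⟨m', hm', γ', hγ'⟩ := h'
  refine ⟨m * m', Nat.mul_pos hm hm', m' • γ + m • γ', ?_⟩
  rw [map_add, map_nsmul, map_nsmul, ← hγ, ← hγ', smul_smul, smul_smul, mul_comm m' m,
    ← sub_add_sub_cancel α β δ]
  exact nsmul_add _ _ _

end TAM

open TAM

theorem specTA (hULP : SpecULP) (hCORE : SpecCORE) : SpecTA := by
  intro k K _ _ _ _ _ hFun d N hN f g hf hg hT
  obtain ⟨k₁, K₁, _, _, _, _, _, _, _, _, _, F, G, hC, hFG, hlim⟩ :=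
    hULP k K hFun d N hN f g hf hg hT
  obtain ⟨f', g', -, h⟩ := hCORE k K k₁ K₁ hC hFun F G hFG
  obtain ⟨n, -, h1⟩ := hlim f' g' h 0
  obtain ⟨m, hm, h2⟩ := hlim f' g' h (n + 1)
  exact ⟨n, m, by omega, equivK_trans h1 (equivK_symm h2)⟩

end MP743d1e.BD
end

section
/-! # TAY: the Taylor expansion -/
set_option autoImplicit false

namespace MP743d1e.BD

open Finset

namespace TAYAux

theorem iter_mul {K : Type} [CommRing K] (D : Derivation ℤ K K) (n : ℕ) (a b : K) :
    D^[n] (a * b) = ∑ ij ∈ antidiagonal n, (n.choose ij.1) • (D^[ij.1] a * D^[ij.2] b) := by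
  induction n with
  | zero => simp
  | succ n ih =>
    rw [sum_antidiagonal_choose_succ_nsmul (M := K) (fun i j => D^[i] a * D^[j] b) n]
    have h : ∀ c : K, D^[n+1] c = D (D^[n] c) := fun c => Function.iterate_succ_apply' D n c
    rw [h, ih, map_sum]
    rw [← Finset.sum_add_distrib]
    apply Finset.sum_congr rfl
    intro ij hij
    rw [n.choose_symm_of_eq_add (mem_antidiagonal.1 hij).symm, map_nsmul, Derivation.leibniz,
      Function.iterate_succ_apply', Function.iterate_succ_apply', smul_add, smul_eq_mul,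
      smul_eq_mul, mul_comm (D^[ij.2] b)]

theorem iter_one {K : Type} [CommRing K] (D : Derivation ℤ K K) (n : ℕ) :
    D^[n + 1] (1 : K) = 0 := by
  rw [Function.iterate_succ_apply, Derivation.map_one_eq_zero]
  exact iterate_map_zero D n

/-- the Taylor expansion as a power series -/
noncomputable def T (K₀ k₁ : Type) [Field K₀] [Field k₁] [CharZero k₁] (E₀ : Derivation ℤ K₀ K₀)
    (ρ : K₀ →+* k₁) : K₀ →+* PowerSeries k₁ where
  toFun y := PowerSeries.mk fun n => ρ (E₀^[n] y) / (n.factorial : k₁)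
  map_one' := by
    ext n
    rw [PowerSeries.coeff_mk, PowerSeries.coeff_one]
    cases n with
    | zero => simp
    | succ n => rw [iter_one]; simp
  map_zero' := by
    ext n
    rw [PowerSeries.coeff_mk, iterate_map_zero E₀ n]
    simp
  map_add' a b := by
    ext n
    rw [map_add, PowerSeries.coeff_mk, PowerSeries.coeff_mk, PowerSeries.coeff_mk,
      iterate_map_add E₀ n, map_add, add_div]
  map_mul' a b := by
    ext n
    rw [PowerSeries.coeff_mk, PowerSeries.coeff_mul, iter_mul, map_sum, Finset.sum_div]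
    apply Finset.sum_congr rfl
    intro ij hij
    have hn : ij.1 + ij.2 = n := mem_antidiagonal.1 hij
    have h1 : (n.choose ij.1 : k₁) * (ij.1.factorial * ij.2.factorial) = (n.factorial : k₁) := by
      have := Nat.add_choose_mul_factorial_mul_factorial ij.1 ij.2
      rw [hn, ← n.choose_symm_of_eq_add hn.symm, mul_assoc] at this
      exact_mod_cast this
    have h2 : (n.factorial : k₁) ≠ 0 := Nat.cast_ne_zero.2 (Nat.factorial_ne_zero _)
    have h3 : (ij.1.factorial : k₁) ≠ 0 := Nat.cast_ne_zero.2 (Nat.factorial_ne_zero _)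
    have h4 : (ij.2.factorial : k₁) ≠ 0 := Nat.cast_ne_zero.2 (Nat.factorial_ne_zero _)
    rw [PowerSeries.coeff_mk, PowerSeries.coeff_mk, map_nsmul, map_mul, nsmul_eq_mul,
      div_mul_div_comm, div_eq_div_iff h2 (mul_ne_zero h3 h4), ← h1]
    ring

end TAYAux

theorem specTAY : SpecTAY := by
  intro K₀ k₁ _ _ _ E₀ ρ
  refine ⟨(HahnSeries.ofPowerSeries ℤ k₁).comp (TAYAux.T K₀ k₁ E₀ ρ), ?_, ?_⟩
  · intro y n hn
    rw [RingHom.comp_apply]
    have h := PowerSeries.coeff_coe (TAYAux.T K₀ k₁ E₀ ρ y) n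
    rw [if_pos hn] at h
    exact h
  · intro y n
    rw [RingHom.comp_apply, HahnSeries.ofPowerSeries_apply_coeff]
    show PowerSeries.coeff n (PowerSeries.mk fun n => ρ (E₀^[n] y) / (n.factorial : k₁)) = _
    rw [PowerSeries.coeff_mk]

end MP743d1e.BD
end

section
/-!
# TB: Theorem B
-/
set_option autoImplicit false

namespace MP743d1e.BD

open scoped BigOperators
open Polynomial IntermediateField MP743d1e.CY MP743d1e.GX MP743d1e.Integ Filter

namespace TBM

open TAM

theorem torTame_of_tameN {k K : Type} [Field k] [Field K] [Algebra k K] {N : ℕ} (hN : 0 < N)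
    {f g : Kˣ} (h : TameN k N f g) : TorTameF k (sym f g) :=
  fun v hv => ⟨N, hN, h v hv⟩

/-- One of two inequivalent pairs has a first entry that is not constant. -/
theorem one_nonconst (hCST : SpecCST) {k K : Type} [Field k] [Field K] [Algebra k K]
    [IsAlgClosed k] [CharZero k] (hFun : Fun1 k K) {N : ℕ} (hN : 0 < N) {f g f' g' : Kˣ}
    (h : TameN k N f g) (h' : TameN k N f' g') (hne : ¬ EquivK k (sym f g) (sym f' g')) :
    Transcendental k (f : K) ∨ Transcendental k (f' : K) := by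
  by_contra hc
  rw [not_or] at hc
  have h1 := (con (k := k) (f : K)).resolve_left hc.1
  have h2 := (con (k := k) (f' : K)).resolve_left hc.2
  exact hne (equivK_trans (hCST k K hFun f g (torTame_of_tameN hN h) h1)
    (equivK_symm (hCST k K hFun f' g' (torTame_of_tameN hN h') h2)))

end TBM

open TAM TBM

theorem specTB (hTA : SpecTA) (hULB : SpecULB) (hCST : SpecCST) : SpecTB := by
  classical
  intro d N hN
  by_contra hcon
  have hcon' : ∀ n : ℕ, ∃ (k K : Type) (_ : Field k) (_ : Field K) (_ : Algebra k K)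
      (_ : IsAlgClosed k) (_ : CharZero k), Fun1 k K ∧ ∃ f g : Fin (n + 2) → Kˣ,
        (∀ i, DegLE k d (f i : K)) ∧ (∀ i, DegLE k d (g i : K)) ∧
        (∀ i, TameN k N (f i) (g i)) ∧
        ∀ i j, i ≠ j → ¬ EquivK k (sym (f i) (g i)) (sym (f j) (g j)) := by
    intro n
    by_contra hn
    apply hcon
    refine ⟨n + 1, ?_⟩
    intro k K i1 i2 i3 i4 i5 hFun f g hf hg hT
    by_contra hno
    apply hn
    refine ⟨k, K, i1, i2, i3, i4, i5, hFun, f, g, hf, hg, hT, ?_⟩
    intro i j hij he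
    exact hno ⟨i, j, hij, he⟩
  choose k K i1 i2 i3 i4 i5 hFun f g hf hg hT hne using hcon'
  have hσ : ∀ n, ∃ σ : Equiv.Perm (Fin (n + 2)), Transcendental (k n) (f n (σ 0) : K n) := by
    intro n
    have h01 : (0 : Fin (n + 2)) ≠ 1 := by
      intro h
      have := congrArg Fin.val h
      simp at this
    rcases one_nonconst hCST (hFun n) hN (hT n 0) (hT n 1) (hne n 0 1 h01) with h | h
    · exact ⟨1, h⟩
    · refine ⟨Equiv.swap 0 1, ?_⟩
      rw [Equiv.swap_apply_left]
      exact h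
  choose σ hσ using hσ
  let e : ∀ n, ℕ → Fin (n + 2) := fun n i => if h : i < n + 2 then σ n ⟨i, h⟩ else σ n 0
  have he0 : ∀ n, e n 0 = σ n 0 := by
    intro n
    show (if h : 0 < n + 2 then σ n ⟨0, h⟩ else σ n 0) = σ n 0
    rw [dif_pos (by omega)]
    rfl
  have hene : ∀ n i j, i < n + 2 → j < n + 2 → i ≠ j → e n i ≠ e n j := by
    intro n i j hi hj hij h
    have h1 : e n i = σ n ⟨i, hi⟩ := dif_pos hi
    have h2 : e n j = σ n ⟨j, hj⟩ := dif_pos hj
    rw [h1, h2] at h
    have h3 := (σ n).injective h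
    exact hij (congrArg Fin.val h3)
  obtain ⟨k', K', _, _, _, _, _, F, G, hFun', hF, hG, hT', hlim⟩ :=
    hULB k K hFun d N (fun n i => f n (e n i)) (fun n i => g n (e n i)) (fun n i => hf n _)
      (fun n i => hg n _) (fun n i => hT n _) (fun n => by
        show Transcendental (k n) (f n (e n 0) : K n)
        rw [he0]
        exact hσ n)
  obtain ⟨i, j, hij, hE⟩ := hTA k' K' hFun' d (2 * N * d.factorial)
    (Nat.mul_pos (Nat.mul_pos (by norm_num) hN) (Nat.factorial_pos d)) F G hF hG hT'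
  obtain ⟨n, hn, h1⟩ := hlim i j hE (max i j)
  have hi : i < n + 2 := lt_of_le_of_lt (le_trans (le_max_left i j) hn) (by omega)
  have hj : j < n + 2 := lt_of_le_of_lt (le_trans (le_max_right i j) hn) (by omega)
  exact hne n _ _ (hene n i j hi hj hij) h1

end MP743d1e.BD
end

section
/-!
# Theorem BD: module TPD

The tensor product of two fields over an algebraically closed field is a domain.
-/
set_option autoImplicit false

namespace MP743d1e.BD.TPDM

open scoped TensorProduct

/-- A nontrivial finitely generated algebra over an algebraically closed field has a character. -/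
theorem exists_char {k R : Type} [Field k] [IsAlgClosed k] [CommRing R] [Algebra k R]
    [Nontrivial R] [Algebra.FiniteType k R] : Nonempty (R →ₐ[k] k) := by
  obtain ⟨m, hm⟩ := Ideal.exists_maximal R
  let _ := Ideal.Quotient.field m
  have := finite_of_finite_type_of_isJacobsonRing k (R ⧸ m)
  have hb := IsAlgClosed.algebraMap_bijective_of_isIntegral (k := k) (K := R ⧸ m)
  exact ⟨((AlgEquiv.ofBijective (Algebra.ofId k (R ⧸ m)) hb).symm : (R ⧸ m) →ₐ[k] k).comp
    (Ideal.Quotient.mkₐ k m)⟩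

variable {k A B : Type} [Field k] [Field A] [Field B] [Algebra k A] [Algebra k B]

/-- The image of `∑ e_i ⊗ c_i` under `id ⊗ χ`. -/
theorem eval_ne_zero {ι : Type} (e : Module.Basis ι k A) (R : Subalgebra k B) (χ : R →ₐ[k] k)
    (c : ι →₀ R) (i : ι) (hi : χ (c i) ≠ 0) :
    Algebra.TensorProduct.lift (AlgHom.id k A) ((Algebra.ofId k A).comp χ)
      (fun _ _ => Commute.all _ _) (c.sum fun i n => e i ⊗ₜ[k] n) ≠ 0 := by
  classical
  intro h
  rw [Finsupp.sum, map_sum] at h
  simp only [Algebra.TensorProduct.lift_tmul, AlgHom.coe_id, id_eq, AlgHom.comp_apply,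
    Algebra.ofId_apply] at h
  have h1 : ∑ j ∈ c.support, (χ (c j)) • e j = 0 := by
    rw [← h]
    refine Finset.sum_congr rfl fun j _ => ?_
    rw [Algebra.smul_def, mul_comm]
  have h2 := linearIndependent_iff'.1 e.linearIndependent c.support (fun j => χ (c j)) h1
  have h3 : i ∈ c.support := by
    rw [Finsupp.mem_support_iff]
    intro h4
    exact hi (by rw [h4, map_zero])
  exact hi (h2 i h3)

/-- Coefficients in a subalgebra. -/
theorem exists_coeff {ι : Type} (e : Module.Basis ι k A) (R : Subalgebra k B) (c : ι →₀ B)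
    (h : ∀ l, c l ∈ R) : ∃ c' : ι →₀ R, (∀ l, (c' l : B) = c l) ∧
      Algebra.TensorProduct.map (AlgHom.id k A) R.val (c'.sum fun l n => e l ⊗ₜ[k] n) =
        c.sum fun l n => e l ⊗ₜ[k] n := by
  classical
  let c' : ι →₀ R := Finsupp.onFinset c.support (fun l => (⟨c l, h l⟩ : R)) (by
    intro l hl
    rw [Finsupp.mem_support_iff]
    intro h
    exact hl (Subtype.ext h))
  have hs : c'.support = c.support := by
    ext l
    simp only [c', Finsupp.mem_support_iff, Finsupp.onFinset_apply, ne_eq, Subtype.ext_iff,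
      ZeroMemClass.coe_zero]
  refine ⟨c', fun l => rfl, ?_⟩
  rw [Finsupp.sum, Finsupp.sum, hs, map_sum]
  refine Finset.sum_congr rfl fun l _ => ?_
  rw [Algebra.TensorProduct.map_tmul]
  rfl

end MP743d1e.BD.TPDM

namespace MP743d1e.BD

open scoped TensorProduct
open TPDM

theorem specTPD : SpecTPD := by
  intro k A B _ _ _ _ _ _
  classical
  have : NoZeroDivisors (A ⊗[k] B) := by
    constructor
    intro x y hxy
    by_contra hcon
    rw [not_or] at hcon
    obtain ⟨hx, hy⟩ := hcon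
    let e := Module.Basis.ofVectorSpace k A
    obtain ⟨c, hc⟩ := TensorProduct.eq_repr_basis_left e x
    obtain ⟨d, hd⟩ := TensorProduct.eq_repr_basis_left e y
    have hc0 : ∃ i, c i ≠ 0 := by
      by_contra h
      push Not at h
      apply hx
      rw [← hc, show c = 0 from Finsupp.ext h, Finsupp.sum_zero_index]
    have hd0 : ∃ i, d i ≠ 0 := by
      by_contra h
      push Not at h
      apply hy
      rw [← hd, show d = 0 from Finsupp.ext h, Finsupp.sum_zero_index]
    obtain ⟨i, hi⟩ := hc0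
    obtain ⟨j, hj⟩ := hd0
    let S : Finset B := c.support.image c ∪ d.support.image d ∪ {(c i)⁻¹, (d j)⁻¹}
    let R : Subalgebra k B := Algebra.adjoin k (S : Set B)
    have : Algebra.FiniteType k R :=
      (Subalgebra.fg_iff_finiteType R).1 (Subalgebra.fg_adjoin_finset S)
    obtain ⟨χ⟩ := exists_char (k := k) (R := R)
    have hS : ∀ b ∈ S, b ∈ R := fun b hb => Algebra.subset_adjoin hb
    have hcm : ∀ l, c l ∈ R := by
      intro l
      by_cases h : c l = 0
      · rw [h]; exact R.zero_mem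
      · apply hS
        simp only [S, Finset.mem_union, Finset.mem_image, Finsupp.mem_support_iff]
        exact Or.inl (Or.inl ⟨l, h, rfl⟩)
    have hdm : ∀ l, d l ∈ R := by
      intro l
      by_cases h : d l = 0
      · rw [h]; exact R.zero_mem
      · apply hS
        simp only [S, Finset.mem_union, Finset.mem_image, Finsupp.mem_support_iff]
        exact Or.inl (Or.inr ⟨l, h, rfl⟩)
    have hci : (c i)⁻¹ ∈ R := hS _ (by simp [S])
    have hdj : (d j)⁻¹ ∈ R := hS _ (by simp [S])
    obtain ⟨c', hc1, hc2⟩ := exists_coeff e R c hcm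
    obtain ⟨d', hd1, hd2⟩ := exists_coeff e R d hdm
    have hJ : Function.Injective (Algebra.TensorProduct.map (AlgHom.id k A) R.val) :=
      Module.Flat.lTensor_preserves_injective_linearMap (M := A) R.val.toLinearMap
        Subtype.val_injective
    have hz : (c'.sum fun l n => e l ⊗ₜ[k] n) * (d'.sum fun l n => e l ⊗ₜ[k] n) = 0 := by
      apply hJ
      rw [map_mul, hc2, hd2, hc, hd, hxy, map_zero]
    let ψ := Algebra.TensorProduct.lift (AlgHom.id k A) ((Algebra.ofId k A).comp χ)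
      (fun _ _ => Commute.all _ _)
    have h1 : ψ (c'.sum fun l n => e l ⊗ₜ[k] n) ≠ 0 := by
      apply eval_ne_zero e R χ c' i
      intro h
      have h2 : c' i * ⟨(c i)⁻¹, hci⟩ = 1 := Subtype.ext (by
        show (c' i : B) * (c i)⁻¹ = 1
        rw [hc1, mul_inv_cancel₀ hi])
      have h3 := congrArg χ h2
      rw [map_mul, map_one, h, zero_mul] at h3
      exact zero_ne_one h3
    have h2 : ψ (d'.sum fun l n => e l ⊗ₜ[k] n) ≠ 0 := by
      apply eval_ne_zero e R χ d' j
      intro h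
      have h2 : d' j * ⟨(d j)⁻¹, hdj⟩ = 1 := Subtype.ext (by
        show (d' j : B) * (d j)⁻¹ = 1
        rw [hd1, mul_inv_cancel₀ hj])
      have h3 := congrArg χ h2
      rw [map_mul, map_one, h, zero_mul] at h3
      exact zero_ne_one h3
    have h3 := congrArg ψ hz
    rw [map_mul, map_zero] at h3
    exact (mul_ne_zero h1 h2) h3
  exact { }

end MP743d1e.BD
end

section
/-!
# Theorem BD, module TRD: exchange
-/
set_option autoImplicit false

namespace MP743d1e.BD

theorem specTRD : SpecTRD := by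
  intro k M _ _ _ x y f g hxy hfg
  have h1 : Algebra.IsAlgebraic (Algebra.adjoin k ({x, y} : Set M)) M :=
    IntermediateField.isAlgebraic_adjoin_iff_top.1 hxy
  have h2 : Algebra.trdeg k M ≤ Cardinal.mk ({x, y} : Set M) :=
    Algebra.IsAlgebraic.trdeg_le_cardinalMk k _
  have h3 : Cardinal.mk ({x, y} : Set M) ≤ 2 := by
    have := Cardinal.mk_insert_le (α := M) (s := {y}) (a := x)
    rw [Cardinal.mk_singleton] at this
    exact this.trans (by norm_num)
  have h4 : IsTranscendenceBasis k ![f, g] :=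
    hfg.isTranscendenceBasis_of_trdeg_le_of_finite (by
      rw [Cardinal.mk_fin]
      exact_mod_cast h2.trans h3)
  have h5 := h4.isAlgebraic_field
  have h6 : Set.range ![f, g] = {f, g} := by
    rw [Matrix.range_cons, Matrix.range_cons, Matrix.range_empty, Set.union_empty]
    rfl
  rwa [h6] at h5

end MP743d1e.BD
end

section
/-!
# Theorem BD, module TRG: trace criterion for regularity
-/
set_option autoImplicit false

namespace MP743d1e.BD

open scoped BigOperators
open Polynomial IntermediateField MP743d1e.CY MP743d1e.GX MP743d1e.Integ Filter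

namespace TRGM

theorem gen_aeval {k K : Type} [Field k] [Field K] [Algebra k K] (x : K) (q : k[X]) :
    ∃ a : k⟮x⟯, algebraMap k⟮x⟯ K a = aeval x q := by
  refine ⟨aeval (AdjoinSimple.gen k x) q, ?_⟩
  have h := aeval_algebraMap_apply K (AdjoinSimple.gen k x) q
  rw [AdjoinSimple.algebraMap_gen] at h
  exact h.symm

/-- elements of the form `q(x)` go through the trace -/
theorem trace_mul {k K : Type} [Field k] [Field K] [Algebra k K] (x : K) (a : k⟮x⟯) (y : K) :
    algebraMap k⟮x⟯ K (Algebra.trace k⟮x⟯ K (algebraMap k⟮x⟯ K a * y)) =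
      algebraMap k⟮x⟯ K a * algebraMap k⟮x⟯ K (Algebra.trace k⟮x⟯ K y) := by
  rw [← Algebra.smul_def, map_smul, smul_eq_mul, map_mul]

theorem trace_congr {k K : Type} [Field k] [Field K] [Algebra k K] {E E' : IntermediateField k K}
    (h : E = E') (y : K) : algebraMap E K (Algebra.trace E K y) =
      algebraMap E' K (Algebra.trace E' K y) := by
  subst h
  rfl

theorem adjoin_inv {k K : Type} [Field k] [Field K] [Algebra k K] (x : K) : k⟮x⁻¹⟯ = k⟮x⟯ := by
  apply le_antisymm
  · rw [adjoin_simple_le_iff]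
    exact inv_mem (mem_adjoin_simple_self k x)
  · rw [adjoin_simple_le_iff]
    have := inv_mem (mem_adjoin_simple_self k x⁻¹)
    rwa [inv_inv] at this

theorem rev_eval {k K : Type} [Field k] [Field K] [Algebra k K] {x : K} (hx : x ≠ 0) (f : k[X]) :
    aeval x⁻¹ f.reverse * x ^ f.natDegree = aeval x f := by
  let _ : Invertible x := invertibleOfNonzero hx
  have h := eval₂_reverse_mul_pow (algebraMap k K) x f
  rw [invOf_eq_inv] at h
  exact h

end TRGM

open FNVM TRGM in
theorem specTRG (hRES : SpecRES) (hAV : SpecAV) (hINC : SpecINC) (hLOC : SpecLOC)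
    (hLSD : SpecLSD) : SpecTRG := by
  intro k K _ _ _ _ _ hF x h hx hR hI ι hov hun
  have L := hLSD k
  obtain ⟨ϖ, hϖ⟩ := hun
  have hx0 : x ≠ 0 := by
    rintro rfl
    exact hx isAlgebraic_zero
  have hsv : sv k ≠ 0 := HahnSeries.single_ne_zero one_ne_zero
  have hϖ0 : ϖ ≠ 0 := by
    rintro rfl
    rw [map_zero] at hϖ
    exact hsv hϖ.symm
  have hord : (ι ((Units.mk0 ϖ hϖ0 : Kˣ) : K)).order = 1 := by
    show (ι ϖ).order = 1
    rw [hϖ]
    exact HahnSeries.order_single one_ne_zero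
  obtain ⟨v, hg, hv⟩ : ∃ v : DVal K, GeoF k v ∧ ∀ u : Kˣ, (ι (u : K)).order = v.ord u := by
    rcases hAV.1 k K k ι hov with h0 | ⟨v, e, he, hg, hv⟩
    · rw [h0] at hord
      exact absurd hord (by norm_num)
    · have h1 := hv (Units.mk0 ϖ hϖ0)
      rw [hord] at h1
      have h2 : e = 1 := Int.eq_one_of_dvd_one he.le ⟨_, h1⟩
      refine ⟨v, hg, fun u => ?_⟩
      rw [hv u, h2, one_mul]
  have hιm : ∀ y : K, y ≠ 0 → Pos v y → IsM (ι y) := by
    intro y hy hp
    have hy' : ι y ≠ 0 := by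
      rwa [Ne, map_eq_zero]
    rw [L.m_iff _ hy']
    have h1 := hv (Units.mk0 y hy)
    rw [Units.val_mk0] at h1
    rw [h1]
    have h2 : Pos v ((Units.mk0 y hy : Kˣ) : K) := hp
    rw [pos_unit] at h2
    omega
  by_cases hnx : NN v x
  · obtain ⟨c, hc⟩ := hRES k K hF v hg x hnx
    refine hLOC k K hF x c h hx ?_ ι hov ⟨ϖ, hϖ⟩ (hιm _ ?_ hc)
    · intro r hr
      obtain ⟨q, hq1, hq2, -⟩ := (hINC k K hF x hx).2 r c hr
      obtain ⟨p, hp⟩ := hR _ hq2
      obtain ⟨a, ha⟩ := gen_aeval x q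
      refine ⟨p, q, hq1, ?_⟩
      have h1 : h * (aeval x q * r) = algebraMap k⟮x⟯ K a * (h * r) := by
        rw [ha]; ring
      rw [h1, trace_mul, ha] at hp
      rw [mul_comm]
      exact hp
    · intro h0
      rw [sub_eq_zero] at h0
      apply hx
      rw [h0]
      exact isAlgebraic_algebraMap c
  · -- poles of `x`
    have hxi : Transcendental k x⁻¹ := by
      intro h0
      apply hx
      have := h0.inv
      rwa [inv_inv] at this
    have hpos : ∀ w : DVal K, ¬ NN w x → Pos w x⁻¹ := by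
      intro w hw
      have h1 : ¬ NN w ((Units.mk0 x hx0 : Kˣ) : K) := hw
      rw [nn_unit] at h1
      have h2 : Pos w (((Units.mk0 x hx0)⁻¹ : Kˣ) : K) := by
        rw [pos_unit, w.ord_inv]
        omega
      exact h2
    have hx2 : ι x ≠ 0 := by
      rwa [Ne, map_eq_zero]
    -- the derivative of the inverse
    have hd : dS (ι x⁻¹) = - (dS (ι x) / (ι x) ^ 2) := by
      have h1 := L.d_along.2 (ι x) (ι x⁻¹)
      have h2 : ι x * ι x⁻¹ = 1 := by
        rw [← map_mul, mul_inv_cancel₀ hx0, map_one]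
      have h3 : dS (1 : LaurentSeries k) = 0 := by
        have := L.d_C 1
        rwa [map_one] at this
      rw [h2, h3, RingHom.id_apply, RingHom.id_apply] at h1
      have h4 : ι x⁻¹ = (ι x)⁻¹ := map_inv₀ ι x
      rw [h4] at h1 ⊢
      field_simp at h1 ⊢
      linear_combination -h1
    have hmain : IsO (ι (-(h * x ^ 2)) * dS (ι x⁻¹)) := by
      refine hLOC k K hF x⁻¹ 0 (-(h * x ^ 2)) hxi ?_ ι hov ⟨ϖ, hϖ⟩ ?_
      · intro r hr
        have hri : RI k x r := by
          intro w hgw hw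
          refine hr w hgw ?_
          rw [map_zero, sub_zero]
          exact hpos w hw
        obtain ⟨p, q, hq0, hpq, hdeg⟩ := hI r hri
        obtain ⟨a, ha⟩ := gen_aeval (k := k) x (X ^ 2)
        rw [map_pow, aeval_X] at ha
        have h1 : -(h * x ^ 2) * r = algebraMap k⟮x⟯ K (-a) * (h * r) := by
          rw [map_neg, ha]; ring
        rw [trace_congr (adjoin_inv x), h1, trace_mul, map_neg, ha]
        obtain ⟨φ, hφ⟩ : ∃ φ, φ = algebraMap k⟮x⟯ K (Algebra.trace k⟮x⟯ K (h * r)) := ⟨_, rfl⟩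
        rw [← hφ] at hpq ⊢
        have hle : p.natDegree + 2 ≤ q.natDegree := by omega
        obtain ⟨n, hn⟩ := Nat.exists_eq_add_of_le hle
        refine ⟨-(X ^ n * p.reverse), q.reverse, ?_, ?_⟩
        · rw [← coeff_zero_eq_eval_zero, coeff_zero_reverse]
          exact leadingCoeff_ne_zero.2 hq0
        · rw [map_neg, map_mul, map_pow, aeval_X]
          have e1 := rev_eval hx0 p
          have e2 := rev_eval hx0 q
          have e3 : x ^ q.natDegree = x ^ p.natDegree * x ^ 2 * x ^ n := by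
            rw [hn, pow_add, pow_add]
          rw [← e1, ← e2, e3] at hpq
          have e4 : x ^ p.natDegree ≠ 0 := pow_ne_zero _ hx0
          have e5 : φ * (aeval x⁻¹ q.reverse * (x ^ 2 * x ^ n)) = aeval x⁻¹ p.reverse := by
            apply mul_right_cancel₀ e4
            rw [← hpq]
            ring
          rw [← e5, inv_pow]
          have e6 : x ^ n ≠ 0 := pow_ne_zero _ hx0
          field_simp
      · rw [map_zero, sub_zero]
        exact hιm _ (inv_ne_zero hx0) (hpos v hnx)
    have hfin : ι (-(h * x ^ 2)) * dS (ι x⁻¹) = ι h * dS (ι x) := by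
      rw [hd, map_neg, map_mul, map_pow]
      field_simp
    rwa [hfin] at hmain

end MP743d1e.BD
end

section
/-!
# Module UAC: the ultraproduct of algebraically closed fields of characteristic zero
-/
set_option autoImplicit false

namespace MP743d1e.BD

open scoped BigOperators
open Polynomial Filter

theorem specUAC : SpecUAC := by
  intro U k _ _ _
  constructor
  · refine IsAlgClosed.of_exists_root _ fun p hp hirr => ?_
    choose c hc using fun i : ℕ => UP.mk_surj U (X := k) (p.coeff i)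
    have hr : p.natDegree ≠ 0 := hirr.natDegree_pos.ne'
    have hz : ∀ n, ∃ z : k n, z ^ p.natDegree +
        ∑ i ∈ Finset.range p.natDegree, c i n * z ^ i = 0 := by
      intro n
      obtain ⟨q, hq⟩ : ∃ q : (k n)[X], q = X ^ p.natDegree +
          ∑ i ∈ Finset.range p.natDegree, C (c i n) * X ^ i := ⟨_, rfl⟩
      have hdeg : (∑ i ∈ Finset.range p.natDegree, C (c i n) * X ^ i : (k n)[X]).degree
          < ((p.natDegree : ℕ) : WithBot ℕ) := by
        refine (Polynomial.degree_sum_le _ _).trans_lt ?_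
        rw [Finset.sup_lt_iff (WithBot.bot_lt_coe _)]
        intro i hi
        refine (Polynomial.degree_C_mul_X_pow_le _ _).trans_lt ?_
        exact_mod_cast Finset.mem_range.1 hi
      have hqd : q.degree = ((p.natDegree : ℕ) : WithBot ℕ) := by
        rw [hq, Polynomial.degree_add_eq_left_of_degree_lt (by
          rw [Polynomial.degree_X_pow]; exact hdeg), Polynomial.degree_X_pow]
      obtain ⟨z, hz⟩ := IsAlgClosed.exists_root q (by
        rw [hqd]
        exact_mod_cast hr)
      refine ⟨z, ?_⟩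
      have h1 : q.eval z = 0 := hz
      rw [hq] at h1
      simpa [Polynomial.eval_finsetSum] using h1
    choose z hz using hz
    refine ⟨UP.mk U z, ?_⟩
    have h1 := congrArg (Polynomial.eval (UP.mk U z)) hp.as_sum
    have h2 : UP.mk U (fun n => z n ^ p.natDegree +
        ∑ i ∈ Finset.range p.natDegree, c i n * z n ^ i) = 0 := by
      rw [UP.mk_eq_zero]
      exact Filter.Eventually.of_forall hz
    have h3 : (fun n => z n ^ p.natDegree +
        ∑ i ∈ Finset.range p.natDegree, c i n * z n ^ i) = z ^ p.natDegree +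
        ∑ i ∈ Finset.range p.natDegree, c i * z ^ i := by
      funext n
      simp [Finset.sum_apply]
    rw [h3, map_add, map_pow, map_sum] at h2
    rw [h1, ← h2]
    simp only [Polynomial.eval_add, Polynomial.eval_pow, Polynomial.eval_X,
      Polynomial.eval_finsetSum, Polynomial.eval_mul, Polynomial.eval_C, map_mul, map_pow, hc]
  · refine charZero_of_inj_zero fun m hm => ?_
    have h1 : UP.mk U (fun n => ((m : ℕ) : k n)) = 0 := by
      rw [← hm]
      exact map_natCast (UP.mk U (X := k)) m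
    rw [UP.mk_eq_zero] at h1
    obtain ⟨n, hn⟩ := h1.exists
    exact_mod_cast hn

end MP743d1e.BD
end

section
/-!
# Theorem BD, module UAL: functions of bounded degree are algebraic over each other
-/
set_option autoImplicit false

namespace MP743d1e.BD

open scoped BigOperators
open Polynomial IntermediateField MP743d1e.CY MP743d1e.GX MP743d1e.Integ Filter

namespace UALM

/-- A nontrivial polynomial relation between `x` and a transcendental `z` makes `x` algebraic over
`k⟮z⟯`. -/
theorem alg_of_rel {k L : Type} [Field k] [Field L] [Algebra k L] {x z : L}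
    (hz : Transcendental k z) {P : k[X][X]} (hP : P ≠ 0) (h0 : evF x z P = 0) :
    IsAlgebraic k⟮z⟯ x := by
  classical
  let zF : k⟮z⟯ := AdjoinSimple.gen k z
  have hzF : algebraMap k⟮z⟯ L zF = z := AdjoinSimple.algebraMap_gen k z
  let R : k⟮z⟯[X] := ∑ i ∈ Finset.range (P.natDegree + 1),
    (P.coeff i).map (algebraMap k k⟮z⟯) * C (zF ^ i)
  have hRx : aeval x R = 0 := by
    rw [← h0]
    unfold evF
    rw [eval₂_eq_sum_range, map_sum]
    refine Finset.sum_congr rfl fun i _ => ?_
    rw [map_mul, aeval_C, map_pow, hzF, aeval_map_algebraMap]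
    rfl
  refine ⟨R, ?_, hRx⟩
  intro hR
  apply hP
  have hc : ∀ j, ∑ i ∈ Finset.range (P.natDegree + 1), C ((P.coeff i).coeff j) * X ^ i
      = (0 : k[X]) := by
    intro j
    have h1 : R.coeff j = 0 := by rw [hR, coeff_zero]
    have h2 : aeval z (∑ i ∈ Finset.range (P.natDegree + 1), C ((P.coeff i).coeff j) * X ^ i) = 0 := by
      have h3 : algebraMap k⟮z⟯ L (R.coeff j) = 0 := by rw [h1, map_zero]
      rw [← h3]
      rw [map_sum, finsetSum_coeff, map_sum]
      refine Finset.sum_congr rfl fun i _ => ?_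
      rw [coeff_mul_C, coeff_map, map_mul, map_mul, map_pow, map_pow, hzF, aeval_C, aeval_X,
        ← IsScalarTower.algebraMap_apply k k⟮z⟯ L]
    exact (transcendental_iff.1 hz) _ h2
  ext i j
  rw [coeff_zero, coeff_zero]
  by_cases hi : i ∈ Finset.range (P.natDegree + 1)
  · have h1 := congrArg (fun p : k[X] => p.coeff i) (hc j)
    simp only [finsetSum_coeff, coeff_C_mul, coeff_X_pow, coeff_zero, mul_ite, mul_one,
      mul_zero] at h1
    rw [Finset.sum_ite_eq, if_pos hi] at h1
    exact h1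
  · rw [Finset.mem_range, not_lt] at hi
    rw [coeff_eq_zero_of_natDegree_lt (by omega : P.natDegree < i), coeff_zero]

theorem eq_zero_of_coeffs {k : Type} [Field k] {d : ℕ} {P : k[X][X]} (hP : BiDeg d d P)
    (h : ∀ i ∈ Finset.range (d + 1), ∀ j ∈ Finset.range (d + 1), (P.coeff i).coeff j = 0) :
    P = 0 := by
  ext i j
  rw [coeff_zero, coeff_zero]
  by_cases hi : i < d + 1
  · by_cases hj : j < d + 1
    · exact h i (Finset.mem_range.2 hi) j (Finset.mem_range.2 hj)
    · have := hP.2 i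
      exact coeff_eq_zero_of_natDegree_lt (by omega)
  · have := hP.1
    rw [coeff_eq_zero_of_natDegree_lt (by omega : P.natDegree < i), coeff_zero]

end UALM

open UALM in
/-- module UAL -/
theorem specUAL (hBID : SpecBID) (hUPO : SpecUPO) (hUTR : SpecUTR) : SpecUAL := by
  classical
  intro U k K _ _ _ _ hF d x z hz hdz hdx
  by_cases hx : ∀ᶠ n in (U : Filter ℕ), ¬ Transcendental (k n) (x n)
  · have hc : ∀ n, ∃ c : k n, (¬ Transcendental (k n) (x n)) → algebraMap (k n) (K n) c = x n := by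
      intro n
      by_cases h : Transcendental (k n) (x n)
      · exact ⟨0, fun h' => absurd h h'⟩
      · rcases con (k := k n) (x n) with h1 | ⟨c, h1⟩
        · exact absurd h1 h
        · exact ⟨c, fun _ => h1⟩
    choose c hc using hc
    have h1 : UP.mk U x = algebraMap (UP U k) (UP U K) (UP.mk U c) := by
      rw [UP.algebraMap_mk, UP.mk_eq]
      filter_upwards [hx] with n hn
      exact (hc n hn).symm
    rw [h1, IsScalarTower.algebraMap_apply (UP U k) (UP U k)⟮UP.mk U z⟯ (UP U K)]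
    exact isAlgebraic_algebraMap _
  have hx' : ∀ᶠ n in (U : Filter ℕ), Transcendental (k n) (x n) := by
    have h1 := Ultrafilter.eventually_not.2 hx
    filter_upwards [h1] with n hn
    exact not_not.1 hn
  have hP : ∀ n, ∃ P : (k n)[X][X], Transcendental (k n) (x n) → Transcendental (k n) (z n) →
      P ≠ 0 ∧ evF (x n) (z n) P = 0 ∧ BiDeg d d P := by
    intro n
    by_cases h : Transcendental (k n) (x n) ∧ Transcendental (k n) (z n)
    · obtain ⟨P, h1⟩ := hBID (k n) (K n) (hF n) d (x n) (z n) h.1 h.2 (hdx n) (hdz n)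
      exact ⟨P, fun _ _ => h1⟩
    · exact ⟨0, fun h1 h2 => absurd ⟨h1, h2⟩ h⟩
  choose P hP using hP
  have hb : ∀ᶠ n in (U : Filter ℕ), BiDeg d d (P n) := by
    filter_upwards [hx', hz] with n h1 h2
    exact (hP n h1 h2).2.2
  obtain ⟨P', -, hcoef, hev⟩ := (hUPO U k K).1 d d P hb
  have h0 : evF (UP.mk U x) (UP.mk U z) P' = 0 := by
    rw [hev, UP.mk_eq_zero]
    filter_upwards [hx', hz] with n h1 h2
    exact (hP n h1 h2).2.1
  refine alg_of_rel (hUTR U k K z hz) (P := P') ?_ h0
  intro hP0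
  have h1 : ∀ i j, ∀ᶠ n in (U : Filter ℕ), ((P n).coeff i).coeff j = 0 := by
    intro i j
    rw [← UP.mk_eq_zero, ← hcoef, hP0, coeff_zero, coeff_zero]
  have h2 : ∀ᶠ n in (U : Filter ℕ), ∀ i ∈ Finset.range (d + 1), ∀ j ∈ Finset.range (d + 1),
      ((P n).coeff i).coeff j = 0 := by
    rw [Filter.eventually_all_finset]
    intro i _
    rw [Filter.eventually_all_finset]
    intro j _
    exact h1 i j
  have h3 : ∀ᶠ n in (U : Filter ℕ), False := by
    filter_upwards [h2, hx', hz, hb] with n g1 g2 g3 g4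
    exact (hP n g2 g3).1 (eq_zero_of_coeffs g4 g1)
  exact (Filter.eventually_false_iff_eq_bot.1 h3 ▸ U.neBot).ne rfl

end MP743d1e.BD
end

section
/-!
# Module UKB: `Kb U k z` is a function field and degrees do not increase
-/
set_option autoImplicit false

namespace MP743d1e.BD

open scoped BigOperators
open Polynomial IntermediateField MP743d1e.CY MP743d1e.GX MP743d1e.Integ Filter

namespace UKBM

theorem bridge {κ Ω : Type} [Field κ] [Field Ω] [Algebra κ Ω] (L : IntermediateField κ Ω)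
    (w : Ω) (w' α : L) (hw : (w' : Ω) = w) (h : IsAlgebraic κ⟮w⟯ (α : Ω)) :
    IsAlgebraic κ⟮w'⟯ α ∧
      (minpoly κ⟮w'⟯ α).natDegree ≤ (minpoly κ⟮w⟯ (α : Ω)).natDegree := by
  subst hw
  have hmem : ∀ a : κ⟮(w' : Ω)⟯, ∃ b : κ⟮w'⟯, ((b : L) : Ω) = a := by
    intro a
    have h1 : (a : Ω) ∈ IntermediateField.lift κ⟮w'⟯ := by
      rw [IntermediateField.lift_adjoin_simple]
      exact a.2
    obtain ⟨b, hb, hba⟩ := h1
    exact ⟨⟨b, hb⟩, hba⟩
  choose g hg using hmem
  have ginj : ∀ a b : κ⟮w'⟯, ((a : L) : Ω) = ((b : L) : Ω) → a = b := fun a b h =>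
    Subtype.ext (Subtype.ext h)
  let G : κ⟮(w' : Ω)⟯ →+* κ⟮w'⟯ :=
    { toFun := g
      map_one' := ginj _ _ (by rw [hg]; rfl)
      map_mul' := fun a b => ginj _ _ (by
        rw [hg]
        push_cast
        rw [hg, hg])
      map_zero' := ginj _ _ (by rw [hg]; rfl)
      map_add' := fun a b => ginj _ _ (by
        rw [hg]
        push_cast
        rw [hg, hg]) }
  have hint : IsIntegral κ⟮(w' : Ω)⟯ (α : Ω) := h.isIntegral
  have hmon := minpoly.monic hint
  have h0 := minpoly.aeval κ⟮(w' : Ω)⟯ (α : Ω)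
  have h1 : aeval α ((minpoly κ⟮(w' : Ω)⟯ (α : Ω)).map G) = 0 := by
    apply Subtype.val_injective
    have h2 : L.val (aeval α ((minpoly κ⟮(w' : Ω)⟯ (α : Ω)).map G)) =
        aeval (α : Ω) (minpoly κ⟮(w' : Ω)⟯ (α : Ω)) := by
      rw [aeval_def, eval₂_map, aeval_def]
      show L.val.toRingHom _ = _
      rw [hom_eval₂]
      congr 1
      ext a
      exact hg a
    rw [h0] at h2
    exact h2
  have hmon' := hmon.map G
  have hint' : IsIntegral κ⟮w'⟯ α := ⟨_, hmon', h1⟩
  refine ⟨hint'.isAlgebraic, ?_⟩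
  have h3 := minpoly.min κ⟮w'⟯ α hmon' h1
  have h4 := natDegree_le_natDegree h3
  rwa [hmon.natDegree_map] at h4

theorem trans {κ Ω : Type} [Field κ] [Field Ω] [Algebra κ Ω] (x z α : Ω)
    (hz : IsAlgebraic κ⟮x⟯ z) (hα : IsAlgebraic κ⟮z⟯ α) : IsAlgebraic κ⟮x⟯ α := by
  have h1 : Algebra.IsAlgebraic κ⟮x⟯ (κ⟮x⟯⟮z⟯) := by
    have := adjoin.finiteDimensional (K := κ⟮x⟯) hz.isIntegral
    infer_instance
  have h2 : κ⟮z⟯ ≤ (κ⟮x⟯⟮z⟯).restrictScalars κ := by
    rw [adjoin_simple_le_iff]
    exact mem_adjoin_simple_self _ z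
  have h3 : IsIntegral (κ⟮x⟯⟮z⟯) α :=
    IsIntegral.map_of_comp_eq (R := κ⟮z⟯) (S := Ω) (T := κ⟮x⟯⟮z⟯) (U := Ω)
      (inclusion h2).toRingHom (RingHom.id Ω) (by ext; rfl) hα.isIntegral
  exact (isIntegral_trans α h3).isAlgebraic

end UKBM

open UKBM in
/-- **Module UKB.** -/
theorem specUKB (hUAC : SpecUAC) (hUTR : SpecUTR) (hUAL : SpecUAL) (hUMP : SpecUMP)
    (hBDF : SpecBDF) : SpecUKB := by
  intro U k K _ _ _ _ _ hF d z hz hzd
  obtain ⟨hac, hcz⟩ := hUAC U k
  have htr := hUTR U k K z hz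
  have hcz2 : ∀ w : Kb U k z, CharZero (UP U k)⟮w⟯ := fun w =>
    charZero_of_injective_algebraMap (algebraMap (UP U k) (UP U k)⟮w⟯).injective
  have halg : ∀ α : Kb U k z, IsAlgebraic (UP U k)⟮UP.mk U z⟯ (α : UP U K) := fun α =>
    mem_algebraicClosure_iff.1 α.2
  have hmem : ∀ x : UP U K, IsAlgebraic (UP U k)⟮UP.mk U z⟯ x → x ∈ Kb U k z := fun x hx =>
    mem_algebraicClosure_iff.2 hx
  -- the main step
  have hmain : ∀ (x : ∀ n, K n) (x' : Kb U k z), (x' : UP U K) = UP.mk U x →
      (∀ᶠ n in (U : Filter ℕ), Transcendental (k n) (x n)) → (∀ n, DegLE (k n) d (x n)) →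
      FiniteDimensional (UP U k)⟮x'⟯ (Kb U k z) ∧
        Module.finrank (UP U k)⟮x'⟯ (Kb U k z) ≤ d := by
    intro x x' hx' hxt hxd
    have hzx : IsAlgebraic (UP U k)⟮UP.mk U x⟯ (UP.mk U z) := hUAL U k K hF d z x hxt hxd hzd
    have := hcz2 x'
    refine hBDF _ _ d fun α => ?_
    have h1 : IsAlgebraic (UP U k)⟮UP.mk U x⟯ (α : UP U K) := trans _ _ _ hzx (halg α)
    obtain ⟨h, hh⟩ := UP.mk_surj U K (α : UP U K)
    have h2 := bridge (Kb U k z) (UP.mk U x) x' α hx' h1
    refine ⟨h2.1, h2.2.trans ?_⟩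
    rw [← hh] at h1 ⊢
    exact hUMP U k K hF d x h hxt hxd h1
  have hzmem : UP.mk U z ∈ Kb U k z := hmem _ (by
    have h1 : algebraMap (UP U k)⟮UP.mk U z⟯ (UP U K) ⟨UP.mk U z, mem_adjoin_simple_self _ _⟩ =
      UP.mk U z := rfl
    rw [← h1]
    exact isAlgebraic_algebraMap _)
  have hz't : Transcendental (UP U k) (⟨UP.mk U z, hzmem⟩ : Kb U k z) := by
    intro h
    apply htr
    exact h.algebraMap
  refine ⟨⟨⟨UP.mk U z, hzmem⟩, hz't, (hmain z _ rfl hz hzd).1⟩, fun x hxd => ?_⟩
  refine ⟨⟨UP.mk U x, hmem _ (hUAL U k K hF d x z hz hzd hxd)⟩, rfl, ?_⟩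
  by_cases hxt : ∀ᶠ n in (U : Filter ℕ), Transcendental (k n) (x n)
  · exact (hmain x _ rfl hxt hxd).2
  · have hxc : ∀ᶠ n in (U : Filter ℕ), ¬ Transcendental (k n) (x n) :=
      Ultrafilter.eventually_not.2 hxt
    have h1 : ∀ n, ∃ c : k n, ¬ Transcendental (k n) (x n) → algebraMap (k n) (K n) c = x n := by
      intro n
      rcases con (k := k n) (x n) with h | ⟨c, hc⟩
      · exact ⟨0, fun h' => absurd h h'⟩
      · exact ⟨c, fun _ => hc⟩
    choose c hc using h1
    have h2 : algebraMap (UP U k) (UP U K) (UP.mk U c) = UP.mk U x := by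
      rw [UP.algebraMap_mk, UP.mk_eq]
      filter_upwards [hxc] with n hn
      exact hc n hn
    show Module.finrank _ _ ≤ d
    rw [Module.finrank_of_not_finite]
    · exact Nat.zero_le d
    · intro hfin
      apply hz't
      have h3 : IsAlgebraic (UP U k)⟮(⟨UP.mk U x, hmem _ (hUAL U k K hF d x z hz hzd hxd)⟩ :
          Kb U k z)⟯ (⟨UP.mk U z, hzmem⟩ : Kb U k z) := Algebra.IsAlgebraic.isAlgebraic _
      have h4 : (⟨UP.mk U x, hmem _ (hUAL U k K hF d x z hz hzd hxd)⟩ : Kb U k z) =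
          algebraMap (UP U k) (Kb U k z) (UP.mk U c) := Subtype.ext h2.symm
      rw [h4] at h3
      have h5 : Algebra.IsAlgebraic (UP U k)
          (UP U k)⟮algebraMap (UP U k) (Kb U k z) (UP.mk U c)⟯ := by
        have := adjoin.finiteDimensional (K := UP U k)
          (isIntegral_algebraMap (R := UP U k) (A := Kb U k z) (x := UP.mk U c))
        infer_instance
      exact (isIntegral_trans _ h3.isIntegral).isAlgebraic

end MP743d1e.BD
end

section
/-!
# Theorem BD, module ULB: the limit of a sequence of curves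
-/
set_option autoImplicit false

namespace MP743d1e.BD

open scoped BigOperators
open Polynomial IntermediateField MP743d1e.CY MP743d1e.GX MP743d1e.Integ Filter

namespace ULBM

theorem mapK_comp {A B C : Type} [Field A] [Field B] [Field C] (φ : A →+* B) (ψ : B →+* C)
    (γ : K2 A) : ConstM.mapK ψ (ConstM.mapK φ γ) = ConstM.mapK (ψ.comp φ) γ := by
  have h : (ConstM.mapK ψ).comp (ConstM.mapK φ) = ConstM.mapK (ψ.comp φ) := by
    apply K2.hom_ext
    intro f g
    rw [AddMonoidHom.comp_apply, ConstM.mapK_sym, ConstM.mapK_sym, ConstM.mapK_sym]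
    rfl
  exact DFunLike.congr_fun h γ

/-- Almost all `n` for the hyperfilter are at least `n₀`. -/
theorem ev_ge (n₀ : ℕ) : ∀ᶠ n in ((hyperfilter ℕ : Ultrafilter ℕ) : Filter ℕ), n₀ ≤ n := by
  have h : ∀ᶠ n in (cofinite : Filter ℕ), n₀ ≤ n := by
    rw [Nat.cofinite_eq_atTop]
    exact eventually_ge_atTop n₀
  exact hyperfilter_le_cofinite h

end ULBM

open ULBM

theorem specULB (hUAC : SpecUAC) (hUTR : SpecUTR) (hUKB : SpecUKB) (hUTM : SpecUTM)
    (hUK2 : SpecUK2) : SpecULB := by
  intro k K _ _ _ _ _ hF d N f g hf hg ht h0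
  let U : Ultrafilter ℕ := hyperfilter ℕ
  let z : ∀ n, K n := fun n => (f n 0 : K n)
  have hz : ∀ᶠ n in (U : Filter ℕ), Transcendental (k n) (z n) := Filter.Eventually.of_forall h0
  have hzd : ∀ n, DegLE (k n) d (z n) := fun n => hf n 0
  obtain ⟨hac, hcz⟩ := hUAC U k
  obtain ⟨hfun, hdeg⟩ := hUKB U k K hF d z hz hzd
  have hex : ∀ u : ∀ n, (K n)ˣ, (∀ n, DegLE (k n) d (u n : K n)) → ∃ F : (Kb U k z)ˣ,
      ((F : Kb U k z) : UP U K) = UP.mk U (fun n => (u n : K n)) ∧
        DegLE (UP U k) d (F : Kb U k z) := by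
    intro u hu
    obtain ⟨x', hx1, hx2⟩ := hdeg (fun n => (u n : K n)) hu
    have hne : x' ≠ 0 := by
      intro h
      rw [h] at hx1
      have h1 : UP.mk U (fun n => (u n : K n)) = 0 := by
        rw [← hx1]; rfl
      rw [UP.mk_eq_zero] at h1
      obtain ⟨n, hn⟩ := h1.exists
      exact (u n).ne_zero hn
    exact ⟨Units.mk0 x' hne, hx1, hx2⟩
  have hFe : ∀ i : ℕ, ∃ F : (Kb U k z)ˣ,
      ((F : Kb U k z) : UP U K) = UP.mk U (fun n => (f n i : K n)) ∧
        DegLE (UP U k) d (F : Kb U k z) := fun i => hex (fun n => f n i) fun n => hf n i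
  have hGe : ∀ i : ℕ, ∃ F : (Kb U k z)ˣ,
      ((F : Kb U k z) : UP U K) = UP.mk U (fun n => (g n i : K n)) ∧
        DegLE (UP U k) d (F : Kb U k z) := fun i => hex (fun n => g n i) fun n => hg n i
  choose F hF1 hF2 using hFe
  choose G hG1 hG2 using hGe
  refine ⟨UP U k, Kb U k z, inferInstance, inferInstance, inferInstance, hac, hcz, F, G, hfun,
    hF2, hG2, ?_, ?_⟩
  · intro i
    exact hUTM U k K hF d N z hz hzd (fun n => f n i) (fun n => g n i) (fun n => hf n i)
      (fun n => hg n i) (fun n => ht n i) (F i) (G i) (hF1 i) (hG1 i)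
  · rintro i j ⟨m, hm, γ, hγ⟩ n₀
    have key := hUK2 U k K m (fun n => f n i) (fun n => g n i) (fun n => f n j) (fun n => g n j)
      (um (Kb U k z) (UP U K) (F i)) (um (Kb U k z) (UP U K) (G i))
      (um (Kb U k z) (UP U K) (F j)) (um (Kb U k z) (UP U K) (G j))
      (hF1 i) (hG1 i) (hF1 j) (hG1 j) ⟨γ, by
        have h1 := congrArg (ConstM.mapK (algebraMap (Kb U k z) (UP U K))) hγ
        rw [map_nsmul, map_sub, ConstM.mapK_sym, ConstM.mapK_sym, mapK_comp] at h1
        exact h1⟩
    obtain ⟨n, hn⟩ := (key.and (ev_ge n₀)).exists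
    exact ⟨n, hn.2, m, hm, hn.1⟩

end MP743d1e.BD
end

section
/-!
# BD/UMP: the degree over `z*` is bounded
-/
set_option autoImplicit false

namespace MP743d1e.BD

open scoped BigOperators
open Polynomial IntermediateField MP743d1e.CY MP743d1e.GX MP743d1e.Integ Filter

namespace UMPM

/-- A polynomial in two variables with bounded degrees is zero if finitely many coefficients
are. -/
theorem eq_zero_of_coeff {R : Type} [CommRing R] {A B : ℕ} {P : R[X][X]} (h : BiDeg A B P)
    (h0 : ∀ i ∈ Finset.range (B + 1), ∀ j ∈ Finset.range (A + 1), (P.coeff i).coeff j = 0) :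
    P = 0 := by
  ext i j
  rw [coeff_zero, coeff_zero]
  by_cases hi : i ≤ B
  · by_cases hj : j ≤ A
    · exact h0 i (Finset.mem_range.2 (by omega)) j (Finset.mem_range.2 (by omega))
    · exact coeff_eq_zero_of_natDegree_lt (lt_of_le_of_lt (h.2 i) (not_le.1 hj))
  · rw [coeff_eq_zero_of_natDegree_lt (lt_of_le_of_lt h.1 (not_le.1 hi)), coeff_zero]

/-- The ultraproduct of nonzero polynomials of bounded degrees is not zero. -/
theorem ne_zero {U : Ultrafilter ℕ} {k : ℕ → Type} [∀ n, Field (k n)] {A B : ℕ}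
    {P : ∀ n, (k n)[X][X]} (hd : ∀ᶠ n in (U : Filter ℕ), BiDeg A B (P n))
    (hP : ∀ᶠ n in (U : Filter ℕ), P n ≠ 0) {P' : (UP U k)[X][X]}
    (hc : ∀ i j, (P'.coeff i).coeff j = UP.mk U fun n => ((P n).coeff i).coeff j) : P' ≠ 0 := by
  intro h0
  have h1 : ∀ i ∈ Finset.range (B + 1), ∀ᶠ n in (U : Filter ℕ),
      ∀ j ∈ Finset.range (A + 1), ((P n).coeff i).coeff j = 0 := by
    intro i _
    rw [Filter.eventually_all_finset]
    intro j _
    have h2 := hc i j
    rw [h0, coeff_zero, coeff_zero] at h2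
    exact (UP.mk_eq_zero U).1 h2.symm
  have h2 : ∀ᶠ n in (U : Filter ℕ), ∀ i ∈ Finset.range (B + 1),
      ∀ j ∈ Finset.range (A + 1), ((P n).coeff i).coeff j = 0 := by
    rw [Filter.eventually_all_finset]
    exact h1
  have h3 : ∀ᶠ n in (U : Filter ℕ), False := by
    filter_upwards [hd, hP, h2] with n a b c
    exact b (eq_zero_of_coeff a c)
  exact (Filter.eventually_false_iff_eq_bot.1 h3 ▸ U.neBot).ne rfl

end UMPM

theorem specUMP (hMPB : SpecMPB) (hBDV : SpecBDV) (hUPO : SpecUPO) (hUTR : SpecUTR) :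
    SpecUMP := by
  classical
  intro U k K _ _ _ hF r z h hz hr hh
  have hzt : Transcendental (UP U k) (UP.mk U z) := hUTR U k K z hz
  obtain ⟨P₀, hP₀, hev₀, hdeg₀, hdiv₀⟩ := hMPB (UP U k) (UP U K) (UP.mk U z) (UP.mk U h) hzt hh
  obtain ⟨A, B, Q, hQd, hQc, hQe⟩ := (hUPO U k K).2 P₀
  have hQev : ∀ᶠ n in (U : Filter ℕ), evF (z n) (h n) (Q n) = 0 := by
    have h1 := hQe z h
    rw [hev₀] at h1
    exact (UP.mk_eq_zero U).1 h1.symm
  have hQ0 : ∀ᶠ n in (U : Filter ℕ), Q n ≠ 0 := by
    rw [Ultrafilter.eventually_not]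
    intro h1
    apply hP₀
    ext i j
    rw [hQc i j, coeff_zero, coeff_zero, UP.mk_eq_zero]
    filter_upwards [h1] with n hn
    rw [hn, coeff_zero, coeff_zero]
  have hex : ∀ᶠ n in (U : Filter ℕ), ∃ P : (k n)[X][X], P ≠ 0 ∧ evF (z n) (h n) P = 0 ∧
      BiDeg A r P := by
    filter_upwards [hQev, hQ0, hz] with n h1 h2 h3
    have : FiniteDimensional (k n)⟮z n⟯ (K n) := fdx (hF n) h3
    obtain ⟨P, hP, hev, hdeg, hdiv⟩ := hMPB (k n) (K n) (z n) (h n) h3
      (Algebra.IsAlgebraic.isAlgebraic _)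
    refine ⟨P, hP, hev, ?_, (hBDV (k n) A B P (Q n) h2 (hdiv _ h1) (hQd n)).2⟩
    rw [hdeg]
    exact (minpoly.natDegree_le (h n)).trans (hr n)
  let P : ∀ n, (k n)[X][X] := fun n =>
    if hn : ∃ P : (k n)[X][X], P ≠ 0 ∧ evF (z n) (h n) P = 0 ∧ BiDeg A r P then hn.choose else 0
  have hP : ∀ᶠ n in (U : Filter ℕ), P n ≠ 0 ∧ evF (z n) (h n) (P n) = 0 ∧ BiDeg A r (P n) := by
    filter_upwards [hex] with n hn
    have h1 : P n = hn.choose := dif_pos hn
    rw [h1]
    exact hn.choose_spec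
  obtain ⟨P', hP'd, hP'c, hP'e⟩ := (hUPO U k K).1 A r P (hP.mono fun n hn => hn.2.2)
  have hP'0 : P' ≠ 0 :=
    UMPM.ne_zero (hP.mono fun n hn => hn.2.2) (hP.mono fun n hn => hn.1) hP'c
  have hev' : evF (UP.mk U z) (UP.mk U h) P' = 0 := by
    rw [hP'e z h, UP.mk_eq_zero]
    exact hP.mono fun n hn => hn.2.1
  rw [← hdeg₀]
  exact (natDegree_le_of_dvd (hdiv₀ P' hev') hP'0).trans hP'd.1

end MP743d1e.BD
end
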