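import Pool.Agent.Lib.MP_743d1e_nt.BD.SpecC

/-!
# BD, module UTM: transfer of the tame symbols to ultraproducts
-/

set_option autoImplicit false

namespace MP743d1e.BD

open scoped BigOperators
open Polynomial IntermediateField MP743d1e.CY MP743d1e.GX MP743d1e.Integ Filter

namespace UTMM

theorem smul_tame_iff {F : Type} [Field F] (v : DVal F) (f g : Fˣ) (N : ℕ) :
    N • tame v (sym f g) = 0 ↔ (v.tameUnit f g) ^ N ∈ v.U1 := by
  rw [tame_sym, ← QuotientGroup.eq_one_iff, QuotientGroup.mk_pow]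
  rfl

theorem const_U1 {k K : Type} [Field k] [Field K] [Algebra k K] {v : DVal K} (hv : GeoF k v)
    (c : kˣ) (h : Units.map (algebraMap k K : k →* K) c ∈ v.U1) : c = 1 := by
  rcases h with h | ⟨u, hu, h1⟩
  · apply Units.ext
    have h2 := congrArg Units.val h
    simp only [Units.coe_map, MonoidHom.coe_coe, Units.val_one] at h2
    apply (algebraMap k K).injective
    rw [h2, Units.val_one, map_one]
  · exfalso
    have h2 : v.ord u = 0 := by
      refine hv u ⟨(c : k) - 1, ?_⟩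
      rw [← hu, map_sub, map_one]
      rfl
    omega

theorem pos_sub_U1 {K : Type} [Field K] {v : DVal K} {u C : Kˣ} (hC : v.ord C = 0)
    (h : Pos v ((u : K) - (C : K))) : u * C⁻¹ ∈ v.U1 := by
  apply isOne_of_pos
  have e : ((u * C⁻¹ : Kˣ) : K) - 1 = ((u : K) - (C : K)) * ((C⁻¹ : Kˣ) : K) := by
    push_cast
    have hC0 : (C : K) ≠ 0 := C.ne_zero
    field_simp
  rw [e]
  refine pos_mul_nn h ?_
  rw [nn_unit, v.ord_inv, hC]
  simp

theorem ord_zero_of_U1 {K : Type} [Field K] {v : DVal K} {u C : Kˣ} (hC : v.ord C = 0)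
    (h : u * C⁻¹ ∈ v.U1) : v.ord u = 0 := by
  have h1 := v.ord_eq_zero_of_isOne h
  rw [v.ord_mul, v.ord_inv, hC] at h1
  omega

theorem tu {K : Type} [Field K] (v : DVal K) (f g : Kˣ) (p q e : ℤ) (hf : v.ord f = e * p)
    (hg : v.ord g = e * q) (M : ℕ) :
    (v.tameUnit f g) ^ (2 * M) = ((f ^ q * g ^ (-p)) ^ e) ^ (2 * M) := by
  have h1 : v.tameUnit f g = (-1) ^ (v.ord f * v.ord g) * (f ^ q * g ^ (-p)) ^ e := by
    unfold DVal.tameUnit
    rw [mul_assoc]
    congr 1
    rw [hf, hg, mul_zpow, ← zpow_mul, ← zpow_mul]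
    congr 2 <;> ring
  rw [h1, mul_pow]
  have h2 : (((-1 : Kˣ)) ^ (v.ord f * v.ord g)) ^ (2 * M) = 1 := by
    rw [pow_mul]
    have h3 : (((-1 : Kˣ)) ^ (v.ord f * v.ord g)) ^ 2 = 1 := by
      rw [← zpow_natCast, ← zpow_mul, mul_comm, zpow_mul]
      simp
    rw [h3, one_pow]
  rw [h2, one_mul]

theorem cop {a b : ℤ} (h : a ≠ 0 ∨ b ≠ 0) : ∃ m a' b' s t : ℤ, m ≠ 0 ∧ a = m * a' ∧ b = m * b' ∧
    a' * s + b' * t = 1 := by
  have hm : (Int.gcd a b : ℤ) ≠ 0 := by
    intro h0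
    have h1 : Int.gcd a b = 0 := by exact_mod_cast h0
    rw [Int.gcd_eq_zero_iff] at h1
    rcases h with h | h
    · exact h h1.1
    · exact h h1.2
  obtain ⟨a', ha⟩ := Int.gcd_dvd_left a b
  obtain ⟨b', hb⟩ := Int.gcd_dvd_right a b
  refine ⟨Int.gcd a b, a', b', Int.gcdA a b, Int.gcdB a b, hm, ha, hb, ?_⟩
  have h1 := Int.gcd_eq_gcd_ab a b
  have h2 : (Int.gcd a b : ℤ) * (a' * Int.gcdA a b + b' * Int.gcdB a b) = (Int.gcd a b : ℤ) * 1 := by
    calc (Int.gcd a b : ℤ) * (a' * Int.gcdA a b + b' * Int.gcdB a b)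
        = ((Int.gcd a b : ℤ) * a') * Int.gcdA a b + ((Int.gcd a b : ℤ) * b') * Int.gcdB a b := by
          ring
      _ = a * Int.gcdA a b + b * Int.gcdB a b := by rw [← ha, ← hb]
      _ = (Int.gcd a b : ℤ) * 1 := by rw [mul_one, ← h1]
  exact mul_left_cancel₀ hm h2

theorem prop {a' b' s t p q : ℤ} (h : a' * s + b' * t = 1) (hpq : b' * p = a' * q) :
    ∃ e : ℤ, p = e * a' ∧ q = e * b' := by
  refine ⟨s * p + t * q, ?_, ?_⟩
  · linear_combination (-p) * h + t * hpq
  · linear_combination (-q) * h - s * hpq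

theorem cancel {G : Type} [CommGroup G] (h C : G) (e : ℤ) (M : ℕ) :
    ((h ^ e) ^ M) * (((h * C⁻¹) ^ e) ^ M)⁻¹ = (C ^ e) ^ M := by
  rw [mul_zpow, mul_pow, inv_zpow, inv_pow, mul_inv, inv_inv, ← mul_assoc, mul_inv_cancel,
    one_mul]

theorem finrank_congr {k K : Type} [Field k] [Field K] [Algebra k K] (E E' : IntermediateField k K)
    (h : E = E') : Module.finrank E K = Module.finrank E' K := by
  subst h
  rfl

theorem degLE_inv {k K : Type} [Field k] [Field K] [Algebra k K] {d : ℕ} {f : Kˣ}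
    (h : DegLE k d (f : K)) : DegLE k d ((f⁻¹ : Kˣ) : K) := by
  unfold DegLE at h ⊢
  rw [finrank_congr k⟮((f⁻¹ : Kˣ) : K)⟯ k⟮(f : K)⟯]
  · exact h
  · apply le_antisymm
    · rw [adjoin_simple_le_iff, Units.val_inv_eq_inv_val]
      exact inv_mem (mem_adjoin_simple_self k (f : K))
    · rw [adjoin_simple_le_iff]
      have h1 := inv_mem (mem_adjoin_simple_self k ((f⁻¹ : Kˣ) : K))
      have e : (((f⁻¹ : Kˣ) : K))⁻¹ = (f : K) := by simp
      rwa [e] at h1

/-- units of the ultraproduct -/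
noncomputable def pu (U : Ultrafilter ℕ) {K : ℕ → Type} [∀ n, Field (K n)] :
    (∀ n, (K n)ˣ) →* (UP U K)ˣ :=
  (Units.map ((UP.mk U : (∀ n, K n) →+* UP U K) : (∀ n, K n) →* UP U K)).comp
    (MulEquiv.piUnits (M := K)).symm.toMonoidHom

theorem pu_val (U : Ultrafilter ℕ) {K : ℕ → Type} [∀ n, Field (K n)] (f : ∀ n, (K n)ˣ) :
    (pu U f : UP U K) = UP.mk U fun n => (f n : K n) := rfl

/-- the pointwise statement -/
theorem point {k K : Type} [Field k] [Field K] [Algebra k K] (hVDG : SpecVDG) (hF : Fun1 k K)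
    (d N : ℕ) (f g : Kˣ) (hf : DegLE k d (f : K)) (hg : DegLE k d (g : K)) (ht : TameN k N f g)
    {a' b' s t : ℤ} (hst : a' * s + b' * t = 1) (c : k) (hc : c ≠ 0) (w : DVal K)
    (hw : GeoF k w) (hne : w.ord f ≠ 0 ∨ w.ord g ≠ 0)
    (hp : Pos w (((f ^ b' * g ^ (-a') : Kˣ) : K) - algebraMap k K c)) :
    c ^ (2 * N * d.factorial) = 1 := by
  set h : Kˣ := f ^ b' * g ^ (-a') with hh
  set cu : kˣ := Units.mk0 c hc with hcu
  set C : Kˣ := Units.map (algebraMap k K : k →* K) cu with hC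
  have hCv : (C : K) = algebraMap k K c := rfl
  have hC0 : w.ord C = 0 := hw C ⟨c, hCv⟩
  rw [← hCv] at hp
  have h1 := pos_sub_U1 hC0 hp
  have h2 := ord_zero_of_U1 hC0 h1
  rw [hh, w.ord_mul, w.ord_zpow, w.ord_zpow] at h2
  obtain ⟨e, he1, he2⟩ := prop (p := w.ord f) (q := w.ord g) hst (by linarith)
  have he : e ≠ 0 := by
    rintro rfl
    rw [zero_mul] at he1 he2
    rcases hne with h | h
    · exact h he1
    · exact h he2
  have hed : e.natAbs ≤ d := by
    have g1 : |w.ord f| ≤ (d : ℤ) := (hVDG k K hF w hw f).trans (by exact_mod_cast hf)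
    have g2 : |w.ord g| ≤ (d : ℤ) := (hVDG k K hF w hw g).trans (by exact_mod_cast hg)
    have g3 : a' ≠ 0 ∨ b' ≠ 0 := by
      by_contra hcon
      push Not at hcon
      rw [hcon.1, hcon.2] at hst
      simp at hst
    have g4 : |e| ≤ (d : ℤ) := by
      rcases g3 with g3 | g3
      · refine le_trans ?_ g1
        rw [he1, abs_mul]
        exact le_mul_of_one_le_right (abs_nonneg e) (Int.one_le_abs g3)
      · refine le_trans ?_ g2
        rw [he2, abs_mul]
        exact le_mul_of_one_le_right (abs_nonneg e) (Int.one_le_abs g3)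
    rw [Int.abs_eq_natAbs] at g4
    exact_mod_cast g4
  have h3 := (smul_tame_iff w f g N).1 (ht w hw)
  have h4 : (w.tameUnit f g) ^ (2 * N) ∈ w.U1 := by
    rw [mul_comm, pow_mul]
    exact Subgroup.pow_mem _ h3 2
  rw [tu w f g a' b' e he1 he2 N, ← hh] at h4
  have h5 : ((h * C⁻¹) ^ e) ^ (2 * N) ∈ w.U1 :=
    Subgroup.pow_mem _ (Subgroup.zpow_mem _ h1 e) _
  have h6 : (C ^ e) ^ (2 * N) ∈ w.U1 := by
    have h7 := Subgroup.mul_mem _ h4 (Subgroup.inv_mem _ h5)
    rwa [cancel] at h7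
  have h7 : (cu ^ e) ^ (2 * N) = 1 := by
    apply const_U1 hw
    rw [map_pow, map_zpow]
    exact h6
  have h8 : (cu ^ (2 * N)) ^ e.natAbs = 1 := by
    rw [pow_natAbs_eq_one]
    rw [← zpow_natCast, ← zpow_mul, mul_comm, zpow_mul, zpow_natCast]
    exact h7
  have h9 : cu ^ (2 * N * d.factorial) = 1 := by
    obtain ⟨r, hr⟩ := Nat.dvd_factorial (Int.natAbs_pos.2 he) hed
    rw [hr, pow_mul, pow_mul, h8, one_pow]
  have h10 := congrArg Units.val h9
  rw [Units.val_pow_eq_pow_val, Units.val_one] at h10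
  exact h10

end UTMM

open UTMM

theorem specUTM (hUPL : SpecUPL) (hUKB : SpecUKB) (hUAC : SpecUAC) (hVDG : SpecVDG)
    (hRES : SpecRES) : SpecUTM := by
  intro U k K _ _ _ _ _ hF d N z hz hzd f g hf hg ht F G hFf hGg v hv
  classical
  have := (hUAC U k).1
  have hFun := (hUKB U k K hF d z hz hzd).1
  rw [smul_tame_iff]
  by_cases hab : v.ord F = 0 ∧ v.ord G = 0
  · have e : v.tameUnit F G = 1 := by
      unfold DVal.tameUnit
      rw [hab.1, hab.2]
      simp
    rw [e, one_pow]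
    exact one_mem _
  obtain ⟨m, a', b', s, t, hm, ha, hb, hst⟩ := cop (a := v.ord F) (b := v.ord G) (by
    by_contra hcon
    push Not at hcon
    exact hab hcon)
  set H : (Kb U k z)ˣ := F ^ b' * G ^ (-a') with hH
  have hH0 : v.ord H = 0 := by
    rw [hH, v.ord_mul, v.ord_zpow, v.ord_zpow, ha, hb]
    ring
  -- the coercions
  set ι : (Kb U k z) →* UP U K := MonoidHomClass.toMonoidHom (Kb U k z).val with hι
  have hFu : Units.map ι F = pu U f := Units.ext hFf
  have hGu : Units.map ι G = pu U g := Units.ext hGg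
  have hHu : ((H : Kb U k z) : UP U K) =
      UP.mk U fun n => ((f n ^ b' * g n ^ (-a') : (K n)ˣ) : K n) := by
    have h1 : Units.map ι H = pu U (f ^ b' * g ^ (-a')) := by
      rw [hH, map_mul, map_mul, map_zpow, map_zpow, map_zpow, map_zpow, hFu, hGu]
    exact congrArg Units.val h1
  -- the residue
  obtain ⟨cs, hcs⟩ := hRES (UP U k) (Kb U k z) hFun v hv (H : Kb U k z) (nn_unit.2 hH0.ge)
  obtain ⟨c, rfl⟩ := UP.mk_surj U k cs
  have hc0 : UP.mk U c ≠ 0 := by
    intro h0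
    rw [h0, map_zero, sub_zero, pos_unit] at hcs
    omega
  have hcn : ∀ᶠ n in (U : Filter ℕ), c n ≠ 0 := by
    apply Ultrafilter.eventually_not.2
    intro h
    exact hc0 ((UP.mk_eq_zero U).2 h)
  -- a function with a zero at `v`
  obtain ⟨X, x, hXx, hxd, hXv, hxw⟩ : ∃ (X : (Kb U k z)ˣ) (x : ∀ n, (K n)ˣ),
      ((X : Kb U k z) : UP U K) = UP.mk U (fun n => (x n : K n)) ∧
      (∀ n, DegLE (k n) d (x n : K n)) ∧ 1 ≤ v.ord X ∧
      ∀ n (w : DVal (K n)), w.ord (x n) ≠ 0 → w.ord (f n) ≠ 0 ∨ w.ord (g n) ≠ 0 := by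
    rcases lt_trichotomy (v.ord F) 0 with h | h | h
    · refine ⟨F⁻¹, f⁻¹, ?_, fun n => degLE_inv (hf n), ?_, fun n w hw => Or.inl ?_⟩
      · have h1 : Units.map ι F⁻¹ = pu U f⁻¹ := by rw [map_inv, map_inv, hFu]
        exact congrArg Units.val h1
      · rw [v.ord_inv]
        omega
      · rw [Pi.inv_apply, w.ord_inv] at hw
        exact fun h0 => hw (by rw [h0, neg_zero])
    · rcases lt_trichotomy (v.ord G) 0 with h' | h' | h'
      · refine ⟨G⁻¹, g⁻¹, ?_, fun n => degLE_inv (hg n), ?_, fun n w hw => Or.inr ?_⟩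
        · have h1 : Units.map ι G⁻¹ = pu U g⁻¹ := by rw [map_inv, map_inv, hGu]
          exact congrArg Units.val h1
        · rw [v.ord_inv]
          omega
        · rw [Pi.inv_apply, w.ord_inv] at hw
          exact fun h0 => hw (by rw [h0, neg_zero])
      · exact absurd ⟨h, h'⟩ hab
      · exact ⟨G, g, hGg, hg, h', fun n w hw => Or.inr hw⟩
    · exact ⟨F, f, hFf, hf, h, fun n w hw => Or.inl hw⟩
  have hxt : ∀ᶠ n in (U : Filter ℕ), Transcendental (k n) (x n : K n) := by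
    by_contra hcon
    have h1 : ∀ᶠ n in (U : Filter ℕ), ¬ Transcendental (k n) (x n : K n) :=
      Ultrafilter.eventually_not.2 hcon
    have h2 : ∀ n, ∃ c' : k n, ¬ Transcendental (k n) (x n : K n) →
        algebraMap (k n) (K n) c' = (x n : K n) := by
      intro n
      rcases con (k := k n) (x n : K n) with h | ⟨c', h⟩
      · exact ⟨0, fun h' => absurd h h'⟩
      · exact ⟨c', fun _ => h⟩
    choose c' hc' using h2
    have h3 : (X : Kb U k z) = algebraMap (UP U k) (Kb U k z) (UP.mk U c') := by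
      apply Subtype.ext
      rw [hXx]
      change _ = algebraMap (UP U k) (UP U K) (UP.mk U c')
      rw [UP.algebraMap_mk, UP.mk_eq]
      filter_upwards [h1] with n hn
      exact (hc' n hn).symm
    have h4 := hv X ⟨_, h3⟩
    omega
  have key : ∀ᶠ n in (U : Filter ℕ), c n ^ (2 * N * d.factorial) = 1 := by
    have h1 := hUPL U k K hF d z (fun n => (x n : K n))
      (fun n => ((f n ^ b' * g n ^ (-a') : (K n)ˣ) : K n)) c hz hzd hxt hxd X H hXx hHu v hv
      (pos_unit.2 hXv) hcs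
    filter_upwards [h1, hcn] with n hn hn0
    obtain ⟨w, hw, hwx, hwh⟩ := hn
    have hwx' : w.ord (x n) ≠ 0 := by
      rw [pos_unit] at hwx
      omega
    exact point hVDG (hF n) d N (f n) (g n) (hf n) (hg n) (ht n) hst (c n) hn0 w hw
      (hxw n w hwx') hwh
  have key' : (UP.mk U c) ^ (2 * N * d.factorial) = 1 := by
    rw [← map_pow, ← map_one (UP.mk U), UP.mk_eq]
    filter_upwards [key] with n hn
    exact hn
  -- conclusion
  set cu : (UP U k)ˣ := Units.mk0 _ hc0 with hcu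
  set C : (Kb U k z)ˣ := Units.map (algebraMap (UP U k) (Kb U k z) : UP U k →* Kb U k z) cu with hC
  have hC0 : v.ord C = 0 := hv C ⟨UP.mk U c, rfl⟩
  have h1 : H * C⁻¹ ∈ v.U1 := pos_sub_U1 hC0 hcs
  have hcu1 : cu ^ (2 * N * d.factorial) = 1 := by
    apply Units.ext
    rw [Units.val_pow_eq_pow_val, Units.val_one]
    exact key'
  have hC1 : C ^ (2 * N * d.factorial) = 1 := by
    rw [hC, ← map_pow, hcu1, map_one]
  have h2 : H ^ (2 * N * d.factorial) ∈ v.U1 := by
    have h3 := Subgroup.pow_mem _ h1 (2 * N * d.factorial)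
    rwa [mul_pow, inv_pow, hC1, inv_one, mul_one] at h3
  rw [mul_assoc, tu v F G a' b' m ha hb, ← hH, ← mul_assoc, ← zpow_natCast, ← zpow_mul, mul_comm,
    zpow_mul, zpow_natCast]
  exact Subgroup.zpow_mem _ h2 m

end MP743d1e.BD
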