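import Pool.Agent.Lib.MP_743d1e_nt.BD.SpecC
import Pool.Agent.Lib.MP_743d1e_nt.CY.PUK
import Pool.Agent.Lib.MP_743d1e_nt.BD.SpecA

section
/-!
# UPA: a function with a simple pole at `A`
-/
set_option autoImplicit false

namespace MP743d1e.BD

open scoped BigOperators
open Polynomial IntermediateField MP743d1e.CY MP743d1e.GX MP743d1e.Integ Filter

namespace UPAM

theorem ord_prod {F : Type} [Field F] (v : DVal F) {ι : Type} (s : Finset ι) (f : ι → Fˣ) :
    v.ord (∏ i ∈ s, f i) = ∑ i ∈ s, v.ord (f i) := by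
  classical
  induction s using Finset.induction_on with
  | empty => simp [v.ord_one]
  | insert a s ha ih => rw [Finset.prod_insert ha, Finset.sum_insert ha, v.ord_mul, ih]

/-- If `a - b` has positive order and `b` is a unit at `v` then `a` has order zero. -/
theorem ord_zero_add {K : Type} [Field K] {v : DVal K} {a b : Kˣ} (h : Pos v ((a : K) - b))
    (hb : v.ord b = 0) : v.ord a = 0 := by
  rcases h with h | ⟨w, hw, h⟩
  · have : a = b := Units.ext (sub_eq_zero.1 h)
    rw [this, hb]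
  · have h1 := v.ord_add w b a (by rw [hw]; ring)
    have h2 := v.ord_add a (-w) b (by rw [Units.val_neg, hw]; ring)
    rw [v.ord_neg] at h2
    rw [hb] at h1 h2
    rw [min_def] at h1 h2
    split_ifs at h1 h2 <;> omega

end UPAM

open UPAM

theorem specUPA (hRES : SpecRES) (hCRT : SpecCRT) : SpecUPA := by
  classical
  intro k K _ _ _ _ _ hK x A hx hA hAx
  obtain ⟨x₀, hx₀, hfin₀⟩ := hK
  have hK : Fun1 k K := ⟨x₀, hx₀, hfin₀⟩
  -- the residues of `x`
  have hres : ∀ v : DVal K, ∃ c : k, GeoF k v → NN v x → Pos v (x - algebraMap k K c) := by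
    intro v
    by_cases h : GeoF k v ∧ NN v x
    · obtain ⟨c, hc⟩ := hRES k K hK v h.1 x h.2
      exact ⟨c, fun _ _ => hc⟩
    · exact ⟨0, fun h1 h2 => absurd ⟨h1, h2⟩ h⟩
  choose c hc using hres
  have hne : ∀ a : k, x - algebraMap k K a ≠ 0 := by
    intro a h
    apply hx
    rw [sub_eq_zero.1 h]
    exact isAlgebraic_algebraMap a
  have htr : ∀ a : k, Transcendental k ((Units.mk0 _ (hne a) : Kˣ) : K) := by
    intro a h
    apply hx
    have h1 : x = ((Units.mk0 _ (hne a) : Kˣ) : K) + algebraMap k K a := by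
      rw [Units.val_mk0]; ring
    rw [h1]
    exact h.add (isAlgebraic_algebraMap a)
  obtain ⟨X, hXdef⟩ : ∃ X : k → Kˣ, ∀ a, X a = Units.mk0 _ (hne a) := ⟨_, fun _ => rfl⟩
  have hXv : ∀ a, (X a : K) = x - algebraMap k K a := fun a => by rw [hXdef, Units.val_mk0]
  have hXnn : ∀ (a : k) (v : DVal K), GeoF k v → NN v x → 0 ≤ v.ord (X a) := by
    intro a v hv hvx
    rw [← nn_unit, hXv]
    exact nn_sub hvx (FNVM.nn_const hv a)
  have hXpos : ∀ v : DVal K, GeoF k v → NN v x → 1 ≤ v.ord (X (c v)) := by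
    intro v hv hvx
    rw [← pos_unit, hXv]
    exact hc v hv hvx
  have hXzero : ∀ (a b : k) (v : DVal K), GeoF k v → a ≠ b → 1 ≤ v.ord (X a) →
      v.ord (X b) = 0 := by
    intro a b v hv hab h1
    have hab0 : algebraMap k K a - algebraMap k K b ≠ 0 := by
      intro h
      exact hab ((algebraMap k K).injective (sub_eq_zero.1 h))
    apply ord_zero_add (b := Units.mk0 _ hab0)
    · have : (X b : K) - ((Units.mk0 _ hab0 : Kˣ) : K) = X a := by
        rw [hXv, hXv, Units.val_mk0]; ring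
      rw [this]
      exact pos_unit.2 h1
    · exact hv _ ⟨a - b, by rw [Units.val_mk0, map_sub]⟩
  -- the zeros of `x - c`
  have hZ : Set.Finite {v : DVal K | GeoF k v ∧ 0 < v.ord (X (c A))} := by
    have h1 := (specFNV k K x₀ hfin₀ (X (c A)) (by rw [hXdef]; exact htr (c A))).1
    exact h1
  set S : Finset (DVal K) := hZ.toFinset.erase A with hS
  obtain ⟨ϖ, hϖ⟩ := A.surj 1
  obtain ⟨u, hu1, hu2⟩ := hCRT K A S (∑ v ∈ S, |v.ord ϖ| + 1) (Finset.notMem_erase A _)
  have hN0 : 0 ≤ ∑ v ∈ S, |v.ord ϖ| := Finset.sum_nonneg fun v _ => abs_nonneg _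
  have hpos1 : Pos A (u - 1) := by
    rcases hu1 with h | ⟨w, hw, h⟩
    · exact Or.inl h
    · exact Or.inr ⟨w, hw, by omega⟩
  have hu0 : u ≠ 0 := by
    rintro rfl
    have h1 : ((-1 : Kˣ) : K) = 0 - 1 := by simp
    rw [← h1, pos_unit, A.ord_neg_one] at hpos1
    omega
  obtain ⟨U, hU⟩ : ∃ U : Kˣ, (U : K) = u := ⟨Units.mk0 u hu0, rfl⟩
  have hAU : A.ord U = 0 := by
    apply ord_zero_add (b := 1)
    · rw [hU, Units.val_one]; exact hpos1
    · exact A.ord_one
  set w : Kˣ := U * ϖ⁻¹ with hw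
  have hAw : A.ord w = -1 := by rw [hw, A.ord_mul, A.ord_inv, hAU, hϖ]; rfl
  have hSw : ∀ v ∈ S, 0 ≤ v.ord w := by
    intro v hv
    rw [hw, v.ord_mul, v.ord_inv]
    have h1 : |v.ord ϖ| ≤ ∑ v ∈ S, |v.ord ϖ| :=
      Finset.single_le_sum (f := fun v : DVal K => |v.ord ϖ|) (fun v _ => abs_nonneg _) hv
    have h2 : ∑ v ∈ S, |v.ord ϖ| + 1 ≤ v.ord U := by
      rcases hu2 v hv with h | ⟨w', hw', h⟩
      · exact absurd h hu0
      · have : w' = U := Units.ext (by rw [hw', hU])
        rwa [← this]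
    have h3 := le_abs_self (v.ord ϖ)
    omega
  -- the poles of `w`
  have hwt : Transcendental k ((w⁻¹ : Kˣ) : K) := by
    rcases con (k := k) ((w⁻¹ : Kˣ) : K) with h | ⟨a, ha⟩
    · exact h
    · exfalso
      have h1 := hA w⁻¹ ⟨a, ha.symm⟩
      rw [A.ord_inv, hAw] at h1
      omega
  have hP : Set.Finite {v : DVal K | GeoF k v ∧ 0 < v.ord w⁻¹} :=
    (specFNV k K x₀ hfin₀ w⁻¹ hwt).1
  set P : Finset (DVal K) := hP.toFinset.filter fun v => NN v x ∧ c v ≠ c A with hPd
  refine ⟨w * ∏ v ∈ P, X (c v) ^ (v.ord w).natAbs, ?_, fun v hv hvx hvA => ?_⟩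
  · rw [A.ord_mul, hAw, ord_prod, Finset.sum_eq_zero, add_zero]
    intro v hv
    have h1 := (Finset.mem_filter.1 hv).2.2
    rw [A.ord_pow, hXzero (c A) (c v) A hA (Ne.symm h1) (hXpos A hA hAx), mul_zero]
  · rw [nn_unit, v.ord_mul, ord_prod]
    have hnn : ∀ v' ∈ P, 0 ≤ v.ord (X (c v') ^ (v'.ord w).natAbs) := by
      intro v' _
      rw [v.ord_pow]
      exact mul_nonneg (Int.natCast_nonneg _) (hXnn _ v hv hvx)
    have hsum := Finset.sum_nonneg hnn
    by_cases h0 : 0 ≤ v.ord w
    · omega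
    · have hvP : v ∈ P := by
        rw [hPd, Finset.mem_filter, Set.Finite.mem_toFinset]
        refine ⟨⟨hv, ?_⟩, hvx, ?_⟩
        · rw [v.ord_inv]; omega
        · intro hcc
          apply h0
          apply hSw
          rw [hS, Finset.mem_erase, Set.Finite.mem_toFinset]
          refine ⟨hvA, hv, ?_⟩
          have := hXpos v hv hvx
          rw [hcc] at this
          omega
      have h1 : v.ord (X (c v) ^ (v.ord w).natAbs) ≤
          ∑ v' ∈ P, v.ord (X (c v') ^ (v'.ord w).natAbs) :=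
        Finset.single_le_sum (f := fun v' : DVal K => v.ord (X (c v') ^ (v'.ord w).natAbs)) hnn hvP
      rw [v.ord_pow] at h1
      have h2 := hXpos v hv hvx
      have h3 : ((v.ord w).natAbs : ℤ) ≤ ((v.ord w).natAbs : ℤ) * v.ord (X (c v)) := by
        nlinarith [Int.natCast_nonneg (v.ord w).natAbs]
      omega

end MP743d1e.BD
end

section
/-!
# MP_743d1e_nt, theorem BD, module UPL: places of `Kb U k z` come from places of the `K n`
-/
set_option autoImplicit false

namespace MP743d1e.BD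

open scoped BigOperators
open Polynomial IntermediateField MP743d1e.CY MP743d1e.GX MP743d1e.Integ Filter

namespace UPLM

section

variable {K : Type} [Field K] {v : DVal K}

theorem pos_zero : Pos v (0 : K) := Or.inl rfl

theorem pos_add {a b : K} (ha : Pos v a) (hb : Pos v b) : Pos v (a + b) := by
  rcases ha with ha | ⟨u, hu, h1⟩
  · rw [ha, zero_add]; exact hb
  rcases hb with hb | ⟨w, hw, h2⟩
  · rw [hb, add_zero]; exact Or.inr ⟨u, hu, h1⟩
  by_cases h0 : a + b = 0
  · left; exact h0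
  · refine Or.inr ⟨Units.mk0 _ h0, rfl, ?_⟩
    have := v.ord_add u w (Units.mk0 _ h0) (by rw [hu, hw]; rfl)
    have h3 : 1 ≤ min (v.ord u) (v.ord w) := le_min h1 h2
    omega

theorem pos_neg {a : K} (ha : Pos v a) : Pos v (-a) := by
  rw [show -a = a * (-1) by ring]
  exact pos_mul_nn ha (nn_neg nn_one)

theorem pos_sum {ι : Type} (s : Finset ι) (f : ι → K) (h : ∀ i ∈ s, Pos v (f i)) :
    Pos v (∑ i ∈ s, f i) := by
  classical
  induction s using Finset.induction_on with
  | empty => simpa using pos_zero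
  | insert a s ha ih =>
    rw [Finset.sum_insert ha]
    exact pos_add (h a (Finset.mem_insert_self a s)) (ih fun i hi => h i (Finset.mem_insert_of_mem hi))

theorem nn_of_pos {a : K} (ha : Pos v a) : NN v a := by
  rcases ha with ha | ⟨u, hu, h⟩
  · exact Or.inl ha
  · exact Or.inr ⟨u, hu, by omega⟩

theorem nn_pow {a : K} (ha : NN v a) (n : ℕ) : NN v (a ^ n) := by
  induction n with
  | zero => rw [pow_zero]; exact nn_one
  | succ n ih => rw [pow_succ]; exact nn_mul ih ha

theorem not_pos_one : ¬ Pos v (1 : K) := by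
  have : ¬ Pos v ((1 : Kˣ) : K) := by
    rw [pos_unit, v.ord_one]
    norm_num
  simpa using this

/-- the inverse of an element that is not in the maximal ideal -/
theorem nn_inv {a : K} (ha : ¬ Pos v a) : NN v a⁻¹ := by
  have h0 : a ≠ 0 := fun h => ha (Or.inl h)
  have h1 : ¬ Pos v ((Units.mk0 a h0 : Kˣ) : K) := ha
  rw [pos_unit] at h1
  have h2 : NN v (((Units.mk0 a h0)⁻¹ : Kˣ) : K) := by
    rw [nn_unit, v.ord_inv]
    omega
  simpa using h2

theorem nn_aeval {F : Type} [Field F] [Algebra F K] (hg : GeoF F v) {x : K} (hx : NN v x) (p : F[X]) :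
    NN v (aeval x p) := by
  induction p using Polynomial.induction_on' with
  | add p q hp hq => rw [map_add]; exact nn_add hp hq
  | monomial n a =>
    rw [aeval_monomial]
    exact nn_mul (FNVM.nn_const hg a) (nn_pow hx n)

/-- `p(x)` is the constant coefficient plus an element of positive order -/
theorem aeval_sub {F : Type} [Field F] [Algebra F K] (hg : GeoF F v) {x : K} (hx : Pos v x)
    (p : F[X]) : Pos v (aeval x p - algebraMap F K (p.coeff 0)) := by
  have h1 : aeval x p - algebraMap F K (p.coeff 0) = x * aeval x (divX p) := by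
    conv_lhs => rw [← divX_mul_X_add p]
    simp
    ring
  rw [h1]
  exact pos_mul_nn hx (nn_aeval hg (nn_of_pos hx) _)

/-- the contradiction: an equation whose leading coefficient is a unit at `v` -/
theorem contra {F : Type} [Field F] [Algebra F K] (hg : GeoF F v) {x y : K} (hx : Pos v x)
    (hy : Pos v y) (r : ℕ) (a : ℕ → F[X]) (ha : (a r).coeff 0 = 1)
    (h : ∑ i ∈ Finset.range (r + 1), aeval x (a i) * y ^ (r - i) = 0) : False := by
  rw [Finset.sum_range_succ, Nat.sub_self, pow_zero, mul_one] at h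
  have h1 : Pos v (∑ i ∈ Finset.range r, aeval x (a i) * y ^ (r - i)) := by
    apply pos_sum
    intro i hi
    have hi' := Finset.mem_range.1 hi
    obtain ⟨m, hm⟩ : ∃ m, r - i = m + 1 := ⟨r - i - 1, by omega⟩
    have e : aeval x (a i) * y ^ (m + 1) = y * (y ^ m * aeval x (a i)) := by ring
    rw [hm, e]
    exact pos_mul_nn hy (nn_mul (nn_pow (nn_of_pos hy) _) (nn_aeval hg (nn_of_pos hx) _))
  have h2 : Pos v (aeval x (a r)) := by
    have : aeval x (a r) = - ∑ i ∈ Finset.range r, aeval x (a i) * y ^ (r - i) := by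
      linear_combination h
    rw [this]
    exact pos_neg h1
  have h3 := aeval_sub hg hx (a r)
  rw [ha, map_one] at h3
  apply not_pos_one (v := v)
  have : (1 : K) = aeval x (a r) + -(aeval x (a r) - 1) := by ring
  rw [this]
  exact pos_add h2 (pos_neg h3)

end

/-- an algebraic element satisfies a polynomial equation in two variables -/
theorem exists_Q {F L : Type} [Field F] [Field L] [Algebra F L] (x w : L)
    (h : IsAlgebraic (Algebra.adjoin F {x}) w) : ∃ Q : F[X][X], Q ≠ 0 ∧ evF x w Q = 0 := by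
  obtain ⟨q, hq0, hq⟩ := h
  let ρ : F[X] →+* Algebra.adjoin F {x} :=
    ((aeval x : F[X] →ₐ[F] L).codRestrict (Algebra.adjoin F {x}) (fun p =>
      aeval_mem_adjoin_singleton F x)).toRingHom
  have hρ : Function.Surjective ρ := by
    rintro ⟨y, hy⟩
    obtain ⟨p, hp⟩ := Algebra.adjoin_mem_exists_aeval F x hy
    exact ⟨p, Subtype.ext hp⟩
  obtain ⟨Q, rfl⟩ := map_surjective ρ hρ q
  refine ⟨Q, fun h0 => hq0 (by rw [h0, Polynomial.map_zero]), ?_⟩
  rw [aeval_def, eval₂_map] at hq
  exact hq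

open scoped IntermediateField.algebraAdjoinAdjoin in
theorem alg_adj {F L : Type} [Field F] [Field L] [Algebra F L] (x w : L) (h : IsAlgebraic F⟮x⟯ w) :
    IsAlgebraic (Algebra.adjoin F {x}) w :=
  (IsFractionRing.isAlgebraic_iff (Algebra.adjoin F {x}) F⟮x⟯ L).2 h

/-- transitivity -/
theorem alg_trans {F L : Type} [Field F] [Field L] [Algebra F L] (x z w : L)
    (h1 : IsAlgebraic F⟮x⟯ z) (h2 : IsAlgebraic F⟮z⟯ w) : IsAlgebraic F⟮x⟯ w := by
  have hz : IsIntegral F⟮x⟯ z := h1.isIntegral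
  have h3 : Algebra.IsAlgebraic F⟮x⟯ F⟮x⟯⟮z⟯ := isAlgebraic_adjoin_simple hz
  have hle : F⟮z⟯ ≤ (F⟮x⟯⟮z⟯).restrictScalars F := by
    rw [adjoin_simple_le_iff]
    exact mem_adjoin_simple_self F⟮x⟯ z
  let τ : F⟮z⟯ →+* F⟮x⟯⟮z⟯ := (inclusion hle).toRingHom
  have h4 : IsAlgebraic F⟮x⟯⟮z⟯ w :=
    h2.ringHom_of_comp_eq τ (RingHom.id L) τ.injective rfl
  exact h4.restrictScalars F⟮x⟯

theorem evF_eq {F L : Type} [Field F] [Field L] [Algebra F L] (x w : L) (P : F[X][X]) (r : ℕ)
    (h : P.natDegree ≤ r) : evF x w P = ∑ i ∈ Finset.range (r + 1), aeval x (P.coeff i) * w ^ i := by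
  unfold evF
  rw [eval₂_eq_sum_range' _ (Nat.lt_succ_of_le h)]
  rfl

end UPLM

/-- UPL -/
theorem specUPL (hING : SpecING) (hUPO : SpecUPO) (_ : SpecUTR) (hUAL : SpecUAL) (_ : SpecUAC) :
    SpecUPL := by
  intro U k K _ _ _ _ _ hF d z x h c hz hzd hx hxd x' h' hx' hh' v hv hvx hvh
  by_contra hcon
  have hcon' : ∀ᶠ n in (U : Filter ℕ), ¬ ∃ w : DVal (K n), GeoF (k n) w ∧ Pos w (x n) ∧
      Pos w (h n - algebraMap (k n) (K n) (c n)) := Ultrafilter.eventually_not.2 hcon
  -- `h n` is not the constant `c n`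
  have hne : ∀ᶠ n in (U : Filter ℕ), h n - algebraMap (k n) (K n) (c n) ≠ 0 := by
    apply Ultrafilter.eventually_not.2
    intro h0
    obtain ⟨n, h1, h2, h3⟩ := (h0.and (hcon'.and hx)).exists
    apply h2
    obtain ⟨y, hy, hfin⟩ := hF n
    have hxn : x n ≠ 0 := by
      intro h4
      rw [h4] at h3
      exact h3 isAlgebraic_zero
    obtain ⟨-, w, hw, hwx⟩ := specFNV (k n) (K n) y hfin (Units.mk0 (x n) hxn) h3
    exact ⟨w, hw, Or.inr ⟨_, rfl, hwx⟩, Or.inl h1⟩
  obtain ⟨w, hw⟩ : ∃ w : ∀ n, K n, w = fun n => (h n - algebraMap (k n) (K n) (c n))⁻¹ := ⟨_, rfl⟩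
  have hRC : ∀ᶠ n in (U : Filter ℕ), RC (k n) (x n) 0 (w n) := by
    filter_upwards [hcon'] with n hn u hu hux
    rw [hw]
    apply UPLM.nn_inv
    intro hp
    apply hn
    refine ⟨u, hu, ?_, hp⟩
    rwa [map_zero, sub_zero] at hux
  -- the element `y = h' - c*`
  obtain ⟨y, hy⟩ : ∃ y, y = h' - algebraMap (UP U k) (Kb U k z) (UP.mk U c) := ⟨_, rfl⟩
  have hyc : (y : UP U K) = UP.mk U (fun n => h n - algebraMap (k n) (K n) (c n)) := by
    have e1 : (y : UP U K) = (h' : UP U K) - algebraMap (UP U k) (UP U K) (UP.mk U c) := by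
      rw [hy]; rfl
    rw [e1, hh', UP.algebraMap_mk, ← map_sub]
    rfl
  have hyw : (y : UP U K) * UP.mk U w = 1 := by
    rw [hyc, ← map_mul, ← map_one (UP.mk U), UP.mk_eq]
    filter_upwards [hne] with n hn
    rw [hw]
    exact mul_inv_cancel₀ hn
  have hwK : IsAlgebraic (UP U k)⟮UP.mk U z⟯ (UP.mk U w) := by
    have e1 : UP.mk U w = (y : UP U K)⁻¹ := eq_inv_of_mul_eq_one_right hyw
    rw [e1]
    have e2 : (y : UP U K) ∈ algebraicClosure (UP U k)⟮UP.mk U z⟯ (UP U K) := y.2
    have e3 : (y : UP U K)⁻¹ ∈ algebraicClosure (UP U k)⟮UP.mk U z⟯ (UP U K) := inv_mem e2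
    exact mem_algebraicClosure_iff.1 e3
  have hxz : IsAlgebraic (UP U k)⟮UP.mk U x⟯ (UP.mk U z) := hUAL U k K hF d z x hx hxd hzd
  obtain ⟨Q', hQ0, hQ⟩ := UPLM.exists_Q _ _ (UPLM.alg_adj _ _ (UPLM.alg_trans _ _ _ hxz hwK))
  obtain ⟨A, B, Q, hQdeg, hQc, hQe⟩ := (hUPO U k K).2 Q'
  rw [hQe, UP.mk_eq_zero] at hQ
  have hQn0 : ∀ᶠ n in (U : Filter ℕ), Q n ≠ 0 := by
    obtain ⟨i, hi⟩ : ∃ i, Q'.coeff i ≠ 0 := by
      by_contra hc
      push Not at hc
      exact hQ0 (Polynomial.ext (by simpa using hc))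
    obtain ⟨j, hj⟩ : ∃ j, (Q'.coeff i).coeff j ≠ 0 := by
      by_contra hc
      push Not at hc
      exact hi (Polynomial.ext (by simpa using hc))
    rw [hQc, Ne, UP.mk_eq_zero] at hj
    filter_upwards [Ultrafilter.eventually_not.2 hj] with n hn h0
    apply hn
    rw [h0]
    simp
  -- equations with bounded degrees
  have hP : ∀ᶠ n in (U : Filter ℕ), ∃ P : (k n)[X][X], evF (x n) (w n) P = 0 ∧ BiDeg A B P ∧
      P.leadingCoeff.coeff 0 = 1 := by
    filter_upwards [hQ, hQn0, hRC, hx] with n h1 h2 h3 h4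
    exact hING (k n) (K n) (hF n) (x n) (w n) A B (Q n) h4 h3 h2 h1 (hQdeg n)
  classical
  obtain ⟨P, hPspec⟩ : ∃ P : ∀ n, (k n)[X][X], ∀ᶠ n in (U : Filter ℕ), evF (x n) (w n) (P n) = 0 ∧
      BiDeg A B (P n) ∧ (P n).leadingCoeff.coeff 0 = 1 := by
    refine ⟨fun n => if hn : ∃ P : (k n)[X][X], evF (x n) (w n) P = 0 ∧ BiDeg A B P ∧
      P.leadingCoeff.coeff 0 = 1 then hn.choose else 0, ?_⟩
    filter_upwards [hP] with n hn
    rw [dif_pos hn]
    exact hn.choose_spec
  obtain ⟨r, hr⟩ : ∃ r, ∀ᶠ n in (U : Filter ℕ), (P n).natDegree = r := by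
    by_contra hc
    have h1 : ∀ r ∈ Finset.range (B + 1), ∀ᶠ n in (U : Filter ℕ), ¬ (P n).natDegree = r :=
      fun r _ => Ultrafilter.eventually_not.2 (not_exists.1 hc r)
    have h2 := (Filter.eventually_all_finset (Finset.range (B + 1))).2 h1
    obtain ⟨n, h3, h4⟩ := (h2.and hPspec).exists
    exact h3 _ (Finset.mem_range.2 (Nat.lt_succ_of_le h4.2.1.1)) rfl
  obtain ⟨P', hP'deg, hP'c, hP'e⟩ := (hUPO U k K).1 A B P (hPspec.mono fun n hn => hn.2.1)
  have hP'0 : evF (UP.mk U x) (UP.mk U w) P' = 0 := by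
    rw [hP'e, UP.mk_eq_zero]
    exact hPspec.mono fun n hn => hn.1
  have hlead : (P'.coeff r).coeff 0 = 1 := by
    rw [hP'c, ← map_one (UP.mk U), UP.mk_eq]
    filter_upwards [hPspec, hr] with n hn hrn
    rw [← hrn]
    exact hn.2.2
  have hdeg : P'.natDegree ≤ r := by
    rw [natDegree_le_iff_coeff_eq_zero]
    intro i hi
    ext j
    rw [hP'c, coeff_zero, UP.mk_eq_zero]
    filter_upwards [hr] with n hrn
    have h0 : (P n).coeff i = 0 := coeff_eq_zero_of_natDegree_lt (by omega)
    rw [h0, coeff_zero]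
  -- the contradiction
  have hvy : Pos v y := by rw [hy]; exact hvh
  apply UPLM.contra hv hvx hvy r (fun i => P'.coeff i) hlead
  apply (algebraMap (Kb U k z) (UP U K)).injective
  rw [map_zero, map_sum]
  rw [UPLM.evF_eq _ _ _ r hdeg] at hP'0
  have hy' : algebraMap (Kb U k z) (UP U K) y = (y : UP U K) := rfl
  have hx'' : algebraMap (Kb U k z) (UP U K) x' = UP.mk U x := hx'
  have h1 : ∀ i ∈ Finset.range (r + 1),
      algebraMap (Kb U k z) (UP U K) (aeval x' (P'.coeff i) * y ^ (r - i)) =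
      (y : UP U K) ^ r * (aeval (UP.mk U x) (P'.coeff i) * (UP.mk U w) ^ i) := by
    intro i hi
    have hi' : i ≤ r := Nat.lt_succ_iff.1 (Finset.mem_range.1 hi)
    rw [map_mul, map_pow, ← aeval_algebraMap_apply, hx'', hy']
    have e1 : (y : UP U K) ^ r = (y : UP U K) ^ (r - i) * (y : UP U K) ^ i := by
      rw [← pow_add]; congr 1; omega
    have e2 : (y : UP U K) ^ i * (UP.mk U w) ^ i = 1 := by rw [← mul_pow, hyw, one_pow]
    calc aeval (UP.mk U x) (P'.coeff i) * (y : UP U K) ^ (r - i)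
        = aeval (UP.mk U x) (P'.coeff i) * (y : UP U K) ^ (r - i) *
          ((y : UP U K) ^ i * (UP.mk U w) ^ i) := by rw [e2, mul_one]
      _ = _ := by rw [e1]; ring
  rw [Finset.sum_congr rfl h1]
  refine (Finset.mul_sum (Finset.range (r + 1))
    (fun i => aeval (UP.mk U x) (P'.coeff i) * (UP.mk U w) ^ i) ((y : UP U K) ^ r)).symm.trans ?_
  exact (congrArg (fun t => (y : UP U K) ^ r * t) hP'0).trans (mul_zero _)

end MP743d1e.BD
end

section
/-!
# Module UPO: ultraproducts of polynomials in two variables of bounded degrees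
-/
set_option autoImplicit false

namespace MP743d1e.BD

open scoped BigOperators
open Polynomial IntermediateField MP743d1e.CY MP743d1e.GX MP743d1e.Integ Filter

namespace UPOM

/-- The polynomial in two variables with given coefficients. -/
noncomputable def mkP {R : Type} [CommRing R] (A B : ℕ) (c : ℕ → ℕ → R) : R[X][X] :=
  ∑ i ∈ Finset.range (B + 1), monomial i (∑ j ∈ Finset.range (A + 1), monomial j (c i j))

theorem coeff_mkP {R : Type} [CommRing R] (A B : ℕ) (c : ℕ → ℕ → R) (i j : ℕ) :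
    ((mkP A B c).coeff i).coeff j = if i < B + 1 ∧ j < A + 1 then c i j else 0 := by
  classical
  rw [mkP, finsetSum_coeff]
  simp only [coeff_monomial]
  rw [Finset.sum_ite_eq' (Finset.range (B + 1)) i]
  by_cases hi : i < B + 1
  · rw [if_pos (Finset.mem_range.2 hi), finsetSum_coeff]
    simp only [coeff_monomial]
    rw [Finset.sum_ite_eq' (Finset.range (A + 1)) j]
    by_cases hj : j < A + 1
    · rw [if_pos (Finset.mem_range.2 hj), if_pos ⟨hi, hj⟩]
    · rw [if_neg (fun h => hj (Finset.mem_range.1 h)), if_neg (fun h => hj h.2)]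
  · rw [if_neg (fun h => hi (Finset.mem_range.1 h)), if_neg (fun h => hi h.1), coeff_zero]

theorem biDeg_of {R : Type} [CommRing R] (A B : ℕ) (P : R[X][X])
    (h : ∀ i j, ¬ (i < B + 1 ∧ j < A + 1) → (P.coeff i).coeff j = 0) : BiDeg A B P := by
  constructor
  · rw [natDegree_le_iff_coeff_eq_zero]
    intro i hi
    ext j
    rw [coeff_zero]
    exact h i j (fun h1 => by omega)
  · intro i
    rw [natDegree_le_iff_coeff_eq_zero]
    intro j hj
    exact h i j (fun h1 => by omega)

theorem biDeg_coeff {R : Type} [CommRing R] {A B : ℕ} {P : R[X][X]} (h : BiDeg A B P) (i j : ℕ)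
    (hij : ¬ (i < B + 1 ∧ j < A + 1)) : (P.coeff i).coeff j = 0 := by
  by_cases hi : i < B + 1
  · have hj : ¬ j < A + 1 := fun hj => hij ⟨hi, hj⟩
    exact coeff_eq_zero_of_natDegree_lt (lt_of_le_of_lt (h.2 i) (by omega))
  · have h1 : P.coeff i = 0 := coeff_eq_zero_of_natDegree_lt (lt_of_le_of_lt h.1 (by omega))
    rw [h1, coeff_zero]

theorem evF_eq {F L : Type} [Field F] [Field L] [Algebra F L] (x y : L) {A B : ℕ} {P : F[X][X]}
    (h : BiDeg A B P) : evF x y P = ∑ i ∈ Finset.range (B + 1), ∑ j ∈ Finset.range (A + 1),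
      algebraMap F L ((P.coeff i).coeff j) * x ^ j * y ^ i := by
  unfold evF
  rw [eval₂_eq_sum_range' _ (Nat.lt_succ_of_le h.1)]
  refine Finset.sum_congr rfl fun i _ => ?_
  have h1 : (aeval x : F[X] →ₐ[F] L).toRingHom (P.coeff i) = aeval x (P.coeff i) := rfl
  rw [h1, aeval_eq_sum_range' (Nat.lt_succ_of_le (h.2 i)), Finset.sum_mul]
  refine Finset.sum_congr rfl fun j _ => ?_
  rw [Algebra.smul_def]

theorem evF_mk (U : Ultrafilter ℕ) (k K : ℕ → Type) [∀ n, Field (k n)] [∀ n, Field (K n)]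
    [∀ n, Algebra (k n) (K n)] {A B : ℕ} {P' : (UP U k)[X][X]} {P : ∀ n, (k n)[X][X]}
    (h' : BiDeg A B P') (h : ∀ᶠ n in (U : Filter ℕ), BiDeg A B (P n))
    (hc : ∀ i j, (P'.coeff i).coeff j = UP.mk U fun n => ((P n).coeff i).coeff j)
    (x y : ∀ n, K n) :
    evF (UP.mk U x) (UP.mk U y) P' = UP.mk U fun n => evF (x n) (y n) (P n) := by
  have h1 : (UP.mk U fun n => evF (x n) (y n) (P n)) =
      UP.mk U (∑ i ∈ Finset.range (B + 1), ∑ j ∈ Finset.range (A + 1),
        (fun n => algebraMap (k n) (K n) (((P n).coeff i).coeff j)) * x ^ j * y ^ i) := by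
    rw [UP.mk_eq]
    filter_upwards [h] with n hn
    rw [evF_eq (x n) (y n) hn]
    simp only [Finset.sum_apply, Pi.mul_apply, Pi.pow_apply]
  rw [h1, evF_eq _ _ h', map_sum]
  refine Finset.sum_congr rfl fun i _ => ?_
  rw [map_sum]
  refine Finset.sum_congr rfl fun j _ => ?_
  rw [map_mul, map_mul, map_pow, map_pow, hc i j, UP.algebraMap_mk]

end UPOM

open UPOM in
theorem specUPO : SpecUPO := by
  intro U k K _ _ _
  constructor
  · intro A B P hP
    have hc : ∀ i j, ((mkP A B fun i j => UP.mk U fun n => ((P n).coeff i).coeff j).coeff i).coeff j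
        = UP.mk U fun n => ((P n).coeff i).coeff j := by
      intro i j
      rw [coeff_mkP]
      by_cases hij : i < B + 1 ∧ j < A + 1
      · rw [if_pos hij]
      · rw [if_neg hij, eq_comm, UP.mk_eq_zero]
        filter_upwards [hP] with n hn
        exact biDeg_coeff hn i j hij
    have hb : BiDeg A B (mkP A B fun i j => UP.mk U fun n => ((P n).coeff i).coeff j) := by
      apply biDeg_of
      intro i j hij
      rw [coeff_mkP, if_neg hij]
    exact ⟨_, hb, hc, fun x y => evF_mk U k K hb hP hc x y⟩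
  · intro P'
    obtain ⟨A, hA⟩ : ∃ A : ℕ, ∀ i, (P'.coeff i).natDegree ≤ A := by
      refine ⟨(Finset.range (P'.natDegree + 1)).sup fun i => (P'.coeff i).natDegree, fun i => ?_⟩
      by_cases hi : i < P'.natDegree + 1
      · exact Finset.le_sup (f := fun i => (P'.coeff i).natDegree) (Finset.mem_range.2 hi)
      · rw [coeff_eq_zero_of_natDegree_lt (by omega : P'.natDegree < i), natDegree_zero]
        exact Nat.zero_le _
    have hb : BiDeg A P'.natDegree P' := ⟨le_rfl, hA⟩
    have h1 : ∀ i j, ∃ c : ∀ n, k n, UP.mk U c = (P'.coeff i).coeff j :=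
      fun i j => UP.mk_surj U k _
    choose c hc1 using h1
    have hbn : ∀ n, BiDeg A P'.natDegree (mkP A P'.natDegree fun i j => c i j n) := by
      intro n
      apply biDeg_of
      intro i j hij
      rw [coeff_mkP, if_neg hij]
    have hc : ∀ i j, (P'.coeff i).coeff j =
        UP.mk U fun n => ((mkP A P'.natDegree fun i j => c i j n).coeff i).coeff j := by
      intro i j
      by_cases hij : i < P'.natDegree + 1 ∧ j < A + 1
      · rw [← hc1 i j, UP.mk_eq]
        refine Filter.Eventually.of_forall fun n => ?_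
        rw [coeff_mkP, if_pos hij]
      · rw [biDeg_coeff hb i j hij, eq_comm, UP.mk_eq_zero]
        refine Filter.Eventually.of_forall fun n => ?_
        rw [coeff_mkP, if_neg hij]
    exact ⟨A, P'.natDegree, _, hbn, hc,
      fun x y => evF_mk U k K hb (Filter.Eventually.of_forall hbn) hc x y⟩

end MP743d1e.BD
end

section
/-!
# Module UTR: the class of transcendental elements is transcendental
-/
set_option autoImplicit false

namespace MP743d1e.BD

open scoped BigOperators
open Polynomial IntermediateField MP743d1e.CY MP743d1e.GX MP743d1e.Integ Filter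

theorem specUTR : SpecUTR := by
  classical
  intro U k K _ _ _ z hz
  rw [transcendental_iff]
  intro p hp
  have h1 : ∀ j, ∃ c : ∀ n, k n, UP.mk U c = p.coeff j := fun j => UP.mk_surj U k _
  choose c hc using h1
  have h2 : ∀ᶠ n in (U : Filter ℕ),
      ∑ j ∈ Finset.range (p.natDegree + 1), algebraMap (k n) (K n) (c j n) * z n ^ j = 0 := by
    have h3 : UP.mk U (∑ j ∈ Finset.range (p.natDegree + 1),
        (fun n => algebraMap (k n) (K n) (c j n)) * z ^ j) = 0 := by
      rw [← hp, aeval_eq_sum_range, map_sum]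
      refine Finset.sum_congr rfl fun j _ => ?_
      rw [map_mul, map_pow, Algebra.smul_def, ← hc j, UP.algebraMap_mk]
    rw [UP.mk_eq_zero] at h3
    filter_upwards [h3] with n hn
    simpa only [Finset.sum_apply, Pi.mul_apply, Pi.pow_apply] using hn
  ext j
  rw [coeff_zero]
  by_cases hj : j < p.natDegree + 1
  · rw [← hc j, UP.mk_eq_zero]
    filter_upwards [hz, h2] with n hn1 hn2
    rw [transcendental_iff] at hn1
    have h4 : aeval (z n) (∑ i ∈ Finset.range (p.natDegree + 1), monomial i (c i n) : (k n)[X])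
        = 0 := by
      rw [map_sum, ← hn2]
      refine Finset.sum_congr rfl fun i _ => ?_
      rw [aeval_monomial]
    have h5 := congrArg (fun q : (k n)[X] => q.coeff j) (hn1 _ h4)
    simp only [finsetSum_coeff, coeff_monomial, coeff_zero] at h5
    rwa [Finset.sum_ite_eq' (Finset.range (p.natDegree + 1)) j,
      if_pos (Finset.mem_range.2 hj)] at h5
  · exact coeff_eq_zero_of_natDegree_lt (by omega)

end MP743d1e.BD
end

section
/-!
# Theorem BD, module V1: the key estimate
-/
set_option autoImplicit false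

namespace MP743d1e.BD

open scoped BigOperators
open Polynomial IntermediateField MP743d1e.CY MP743d1e.GX MP743d1e.Integ Filter

namespace V1M

/-- The coefficientwise extension of a ring homomorphism to Laurent series. -/
noncomputable def mp {A B : Type} [Field A] [Field B] (f : A →+* B) :
    LaurentSeries A →+* LaurentSeries B where
  toFun a := a.map f
  map_one' := by
    ext n
    show f ((1 : LaurentSeries A).coeff n) = _
    rw [HahnSeries.coeff_one, HahnSeries.coeff_one]
    split_ifs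
    · exact map_one f
    · exact map_zero f
  map_mul' a b := by
    exact HahnSeries.map_mul (f : A →ₙ+* B) (x := a) (y := b)
  map_zero' := by
    ext n
    show f ((0 : LaurentSeries A).coeff n) = _
    rw [HahnSeries.coeff_zero, HahnSeries.coeff_zero, map_zero]
  map_add' a b := by
    ext n
    show f ((a + b).coeff n) = (HahnSeries.map a f + HahnSeries.map b f : LaurentSeries B).coeff n
    rw [HahnSeries.coeff_add, HahnSeries.coeff_add, map_add]
    rfl

theorem mp_coeff {A B : Type} [Field A] [Field B] (f : A →+* B) (a : LaurentSeries A) (n : ℤ) :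
    (mp f a).coeff n = f (a.coeff n) := rfl

theorem coC {κ : Type} [Field κ] (c : κ) (n : ℤ) :
    (HahnSeries.C c : LaurentSeries κ).coeff n = if n = 0 then c else 0 := by
  rw [HahnSeries.C_apply, HahnSeries.coeff_single]
  congr

theorem co_sv {κ : Type} [Field κ] (n : ℤ) : (sv κ).coeff n = if n = 1 then 1 else 0 := by
  unfold sv
  rw [HahnSeries.coeff_single]
  congr

theorem mp_C {A B : Type} [Field A] [Field B] (f : A →+* B) (c : A) :
    mp f (HahnSeries.C c) = HahnSeries.C (f c) := by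
  ext n
  rw [mp_coeff, coC, coC]
  split_ifs
  · rfl
  · exact map_zero f

theorem mp_sv {A B : Type} [Field A] [Field B] (f : A →+* B) : mp f (sv A) = sv B := by
  ext n
  rw [mp_coeff, co_sv, co_sv]
  split_ifs
  · exact map_one f
  · exact map_zero f

theorem co_dS {κ : Type} [Field κ] (a : LaurentSeries κ) (n : ℤ) :
    (dS a).coeff n = ((n + 1 : ℤ) : κ) * a.coeff (n + 1) := by
  unfold dS
  rw [LaurentSeries.derivative_apply, LaurentSeries.hasseDeriv_coeff]
  simp

theorem mp_dS {A B : Type} [Field A] [Field B] (f : A →+* B) (a : LaurentSeries A) :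
    mp f (dS a) = dS (mp f a) := by
  ext n
  rw [mp_coeff, co_dS, co_dS, mp_coeff, map_mul, map_intCast]

theorem sv_ne {κ : Type} [Field κ] : (sv κ) ≠ 0 := by
  intro h
  have h1 := congrArg (fun a : LaurentSeries κ => a.coeff 1) h
  simp only [co_sv, HahnSeries.coeff_zero] at h1
  simp at h1

/-- `p(s) ≠ 0`. -/
theorem eval_ne {A : Type} [Field A] (p : A[X]) (hp : p ≠ 0) :
    p.eval₂ (HahnSeries.C : A →+* LaurentSeries A) (sv A) ≠ 0 := by
  intro h
  have h1 := congrArg (fun a : LaurentSeries A => a.coeff (p.natDegree : ℤ)) h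
  simp only [HahnSeries.coeff_zero] at h1
  rw [Polynomial.eval₂_eq_sum_range] at h1
  have h2 : ∀ i : ℕ, (HahnSeries.C (p.coeff i) : LaurentSeries A) * sv A ^ i
      = HahnSeries.single (i : ℤ) (p.coeff i) := by
    intro i
    unfold sv
    rw [HahnSeries.single_pow, one_pow, HahnSeries.C_apply, HahnSeries.single_mul_single, mul_one,
      zero_add]
    congr 1
    simp
  simp only [h2] at h1
  have h3 : (∑ i ∈ Finset.range (p.natDegree + 1),
      (HahnSeries.single (i : ℤ) (p.coeff i) : LaurentSeries A)).coeff (p.natDegree : ℤ)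
      = ∑ i ∈ Finset.range (p.natDegree + 1),
        (HahnSeries.single (i : ℤ) (p.coeff i) : LaurentSeries A).coeff (p.natDegree : ℤ) := by
    induction (Finset.range (p.natDegree + 1)) using Finset.induction_on with
    | empty => simp
    | insert a s ha ih => rw [Finset.sum_insert ha, Finset.sum_insert ha, HahnSeries.coeff_add, ih]
  rw [h3, Finset.sum_eq_single p.natDegree] at h1
  · rw [HahnSeries.coeff_single_same] at h1
    exact hp (Polynomial.leadingCoeff_eq_zero.1 h1)
  · intro i _ hi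
    rw [HahnSeries.coeff_single_of_ne]
    intro h
    exact hi (by exact_mod_cast h.symm)
  · intro hn
    exact absurd (Finset.mem_range.2 (Nat.lt_succ_self _)) hn

/-- A subfield containing `K₀` and `k₁` is everything. -/
theorem sub_top {k₀ K₀ k₁ K₁ : Type} [Field k₀] [Field K₀] [Field k₁] [Field K₁]
    [Algebra k₀ K₀] [Algebra k₀ k₁] [Algebra k₀ K₁] [Algebra K₀ K₁] [Algebra k₁ K₁]
    [IsScalarTower k₀ K₀ K₁] [IsScalarTower k₀ k₁ K₁] (h : CExt k₀ K₀ k₁ K₁) (F : Subfield K₁)
    (h0 : ∀ y : K₀, algebraMap K₀ K₁ y ∈ F) (h1 : ∀ c : k₁, algebraMap k₁ K₁ c ∈ F) (x : K₁) :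
    x ∈ F := by
  have hR : ∀ a ∈ Algebra.adjoin k₁ (Set.range (algebraMap K₀ K₁)), a ∈ F := by
    intro a ha
    induction ha using Algebra.adjoin_induction with
    | mem a ha =>
      obtain ⟨y, rfl⟩ := ha
      exact h0 y
    | algebraMap r => exact h1 r
    | add a b _ _ ha hb => exact F.add_mem ha hb
    | mul a b _ _ ha hb => exact F.mul_mem ha hb
  obtain ⟨a, ha, b, hb, hb0, hx⟩ := h.gen x
  have e : x = a / b := by rw [eq_div_iff hb0, hx]
  rw [e]
  exact F.div_mem (hR a ha) (hR b hb)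

/-- A derivation followed by a ring homomorphism. -/
theorem along_comp {K V : Type} [Field K] [Field V] (j : K →+* V) (D : Derivation ℤ K K) (w : V) :
    AlongD j fun x => w * j (D x) := by
  refine ⟨fun a b => ?_, fun a b => ?_⟩
  · show w * j (D (a + b)) = _
    rw [map_add, map_add, mul_add]
  · show w * j (D (a * b)) = j a * (w * j (D b)) + j b * (w * j (D a))
    rw [D.leibniz]
    simp only [smul_eq_mul, map_add, map_mul]
    ring

/-- A ring homomorphism followed by a derivation. -/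
theorem along_post {K V : Type} [Field K] [Field V] (j : K →+* V) (A : V → V)
    (hA : AlongD (RingHom.id V) A) (w : V) : AlongD j fun x => w * A (j x) := by
  refine ⟨fun a b => ?_, fun a b => ?_⟩
  · show w * A (j (a + b)) = _
    rw [map_add, hA.1, mul_add]
  · show w * A (j (a * b)) = j a * (w * A (j b)) + j b * (w * A (j a))
    rw [map_mul, hA.2]
    simp only [RingHom.id_apply]
    ring

theorem log_zpow {K : Type} [Field K] (E : Derivation ℤ K K) (u : K) (hu : u ≠ 0) (n : ℤ) :
    E (u ^ n) / u ^ n = n * (E u / u) := by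
  rw [Derivation.leibniz_zpow]
  simp only [smul_eq_mul, zsmul_eq_mul]
  rw [zpow_sub_one₀ hu]
  have h : u ^ n ≠ 0 := zpow_ne_zero n hu
  field_simp

theorem log_mul {K : Type} [Field K] (E : Derivation ℤ K K) (u v : K) (hu : u ≠ 0) (hv : v ≠ 0) :
    E (u * v) / (u * v) = E u / u + E v / v := by
  rw [E.leibniz]
  simp only [smul_eq_mul]
  field_simp
  ring

end V1M

open V1M

theorem specV1 (hEXT : SpecEXT) (hCES : SpecCES) (hARC : SpecARC) (hDUQ : SpecDUQ)
    (hDR0 : SpecDR0) (hLSD : SpecLSD) (hL3 : SpecL3) : SpecV1 := by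
  intro k₀ K₀ L M _ _ _ _ _ _ _ _ _ _ _ _ _ hC hK hL z hz t D D₀ E E₀ ht hD hE f g n h lam
    hind hreg hG b hb π hπ i
  have hF0 := hLSD k₀
  have hF := hLSD K₀
  haveI : CharZero L := charZero_of_injective_algebraMap (algebraMap k₀ L).injective
  -- `π` is transcendental
  have hπc : ∀ c : k₀, algebraMap k₀ L c ≠ (π : L) := by
    intro c hc
    have := hb π ⟨c, hc.symm⟩
    rw [hπ] at this
    exact one_ne_zero this
  have hπt : Transcendental k₀ (π : L) := by
    rcases con (k := k₀) (π : L) with h1 | ⟨c, hc⟩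
    · exact h1
    · exact absurd hc (hπc c)
  have halgπ : Algebra.IsAlgebraic k₀⟮(π : L)⟯ L := by
    haveI := fdx hL hπt
    infer_instance
  have halgt : Algebra.IsAlgebraic k₀⟮t⟯ L := by
    haveI := fdx hL ht
    infer_instance
  -- `D₀ π ≠ 0`
  have hP0 : D₀ (π : L) ≠ 0 := by
    obtain ⟨D', h1, h2, h3⟩ := hDR0 k₀ L t ht halgt
    have h4 : ∀ x, D₀ x = D' x := by
      have a1 := along_comp (RingHom.id L) D₀ 1
      have a2 := along_comp (RingHom.id L) D' 1
      intro x
      have := hDUQ.2.2 k₀ L L (RingHom.id L) _ _ a1 a2 (by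
        intro c
        show 1 * RingHom.id L (D₀ _) = 1 * RingHom.id L (D' _)
        rw [hD.on0, h1]) t halgt (by
        show 1 * RingHom.id L (D₀ t) = 1 * RingHom.id L (D' t)
        rw [hD.one, h2]) x
      simpa using this
    intro h5
    rw [h4] at h5
    obtain ⟨c, hc⟩ := h3 _ h5
    exact hπc c hc
  obtain ⟨ιb, hιo, hιπ, hιord⟩ := hARC k₀ L hL b hb π hπ
  -- on `L`
  have hLd : ∀ y : L, ιb ((π : L) / D₀ π * D₀ y) = sv k₀ * dS (ιb y) := by
    intro y
    have a1 := along_comp ιb D₀ (ιb ((π : L) / D₀ π))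
    have a2 := along_post ιb dS hF0.d_along (sv k₀)
    have h1 := hDUQ.2.2 k₀ L (LaurentSeries k₀) ιb _ _ a1 a2 (by
      intro c
      show ιb ((π : L) / D₀ π) * ιb (D₀ (algebraMap k₀ L c)) = sv k₀ * dS (ιb (algebraMap k₀ L c))
      rw [hD.on0, map_zero, mul_zero, hιo c, hF0.d_C, mul_zero]) (π : L) halgπ (by
      show ιb ((π : L) / D₀ π) * ιb (D₀ (π : L)) = sv k₀ * dS (ιb (π : L))
      rw [← map_mul, div_mul_cancel₀ _ hP0, hιπ, hF0.d_sv, mul_one]) y
    rw [map_mul]
    exact h1
  -- the homomorphism `J`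
  let φ : L →+* LaurentSeries K₀ := (mp (algebraMap k₀ K₀)).comp ιb
  have hφπ : φ (π : L) = sv K₀ := by
    show mp (algebraMap k₀ K₀) (ιb (π : L)) = _
    rw [hιπ, mp_sv]
  obtain ⟨J, hJK, hJL⟩ := hEXT k₀ L K₀ M (LaurentSeries K₀) (hCES k₀ K₀ L M hC).1 (π : L) halgπ
    (HahnSeries.C : K₀ →+* LaurentSeries K₀) φ (by
      intro c
      show _ = mp (algebraMap k₀ K₀) (ιb (algebraMap k₀ L c))
      have h1 := hιo c
      rw [h1]
      show _ = mp (algebraMap k₀ K₀) (HahnSeries.C c)
      rw [mp_C]) (by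
      intro p hp
      rw [hφπ]
      exact eval_ne p hp)
  have hEk : ∀ c : k₀, E₀ (algebraMap k₀ K₀ c) = 0 := by
    intro c
    have h1 := hE.onK (algebraMap k₀ K₀ c)
    rw [← IsScalarTower.algebraMap_apply k₀ K₀ M, IsScalarTower.algebraMap_apply k₀ L M, hE.onk]
      at h1
    exact ((map_eq_zero (algebraMap K₀ M)).1 h1.symm)
  -- `J (E x) = cS E₀ (J x)`
  have hJE : ∀ x : M, J (E x) = cS E₀ (J x) := by
    have a1 := along_comp J E 1
    have a2 := along_post J (cS E₀) (hF.c_along E₀) 1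
    obtain ⟨F, hFx⟩ := hDUQ.1 M (LaurentSeries K₀) J _ _ a1 a2
    intro x
    have h1 : x ∈ F := by
      refine sub_top hC F (fun y => ?_) (fun c => ?_) x
      · rw [hFx]
        show 1 * J (E (algebraMap K₀ M y)) = 1 * cS E₀ (J (algebraMap K₀ M y))
        rw [hE.onK, hJK, hJK, hF.c_C]
      · rw [hFx]
        show 1 * J (E (algebraMap L M c)) = 1 * cS E₀ (J (algebraMap L M c))
        rw [hE.onk, map_zero, hJL]
        congr 1
        ext m
        show (0 : LaurentSeries K₀).coeff m = E₀ ((mp (algebraMap k₀ K₀) (ιb c)).coeff m)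
        rw [HahnSeries.coeff_zero, mp_coeff, hEk]
    have h2 := (hFx x).1 h1
    simpa using h2
  -- `J ((π / D₀ π) D x) = s dS (J x)`
  have hJD : ∀ x : M, J (algebraMap L M ((π : L) / D₀ π)) * J (D x) = sv K₀ * dS (J x) := by
    have a1 := along_comp J D (J (algebraMap L M ((π : L) / D₀ π)))
    have a2 := along_post J dS hF.d_along (sv K₀)
    obtain ⟨F, hFx⟩ := hDUQ.1 M (LaurentSeries K₀) J _ _ a1 a2
    intro x
    have h1 : x ∈ F := by
      refine sub_top hC F (fun y => ?_) (fun c => ?_) x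
      · rw [hFx]
        show J (algebraMap L M ((π : L) / D₀ π)) * J (D (algebraMap K₀ M y)) =
          sv K₀ * dS (J (algebraMap K₀ M y))
        rw [hD.onK, map_zero, mul_zero, hJK, hF.d_C, mul_zero]
      · rw [hFx]
        show J (algebraMap L M ((π : L) / D₀ π)) * J (D (algebraMap L M c)) =
          sv K₀ * dS (J (algebraMap L M c))
        rw [hD.onk, ← map_mul, ← map_mul, hJL, hJL]
        show mp (algebraMap k₀ K₀) (ιb ((π : L) / D₀ π * D₀ c)) =
          sv K₀ * dS (mp (algebraMap k₀ K₀) (ιb c))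
        rw [hLd, map_mul, mp_sv, mp_dS]
    exact (hFx x).1 h1
  -- the two series
  obtain ⟨Fs, hFs⟩ : ∃ Fs, Fs = J (f : M) := ⟨_, rfl⟩
  obtain ⟨Hs, hHs⟩ : ∃ Hs, Hs = J (g : M) := ⟨_, rfl⟩
  have hFs0 : Fs ≠ 0 := by rw [hFs]; exact (map_ne_zero J).2 f.ne_zero
  have hHs0 : Hs ≠ 0 := by rw [hHs]; exact (map_ne_zero J).2 g.ne_zero
  obtain ⟨f0, hf0⟩ : ∃ f0, f0 = Fs.coeff Fs.order := ⟨_, rfl⟩
  obtain ⟨g0, hg0⟩ : ∃ g0, g0 = Hs.coeff Hs.order := ⟨_, rfl⟩
  have hf00 : f0 ≠ 0 := by
    rw [hf0]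
    exact fun h => hFs0 (HahnSeries.coeff_order_eq_zero.1 h)
  have hg00 : g0 ≠ 0 := by
    rw [hg0]
    exact fun h => hHs0 (HahnSeries.coeff_order_eq_zero.1 h)
  obtain ⟨Q, hQ⟩ : ∃ Q, Q = J (algebraMap L M ((π : L) / D₀ π) * gD D E (f : M) (g : M)) :=
    ⟨_, rfl⟩
  have hQ1 : Q = (cS E₀ Fs / Fs) * (sv K₀ * (dS Hs / Hs)) -
      (sv K₀ * (dS Fs / Fs)) * (cS E₀ Hs / Hs) := by
    have e1 := hJE (f : M)
    have e2 := hJE (g : M)
    have e3 := hJD (f : M)
    have e4 := hJD (g : M)
    rw [← hFs] at e1 e3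
    rw [← hHs] at e2 e4
    rw [hQ]
    unfold gD
    simp only [map_mul, map_sub, map_div₀] at e3 e4 ⊢
    rw [← hFs, ← hHs, e1, e2]
    have e5 : sv K₀ * (dS Hs / Hs) = (sv K₀ * dS Hs) / Hs := by rw [mul_div_assoc]
    have e6 : sv K₀ * (dS Fs / Fs) = (sv K₀ * dS Fs) / Fs := by rw [mul_div_assoc]
    rw [e5, e6, ← e3, ← e4]
    ring
  have o1 := (hF.c_log E₀ Fs hFs0)
  have o2 := (hF.c_log E₀ Hs hHs0)
  have o3 := (hF.d_log Fs hFs0)
  have o4 := (hF.d_log Hs hHs0)
  have hneg : ∀ a : LaurentSeries K₀, IsO a → IsO (-a) := by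
    intro a ha m hm
    rw [HahnSeries.coeff_neg, ha m hm, neg_zero]
  have hQO : IsO Q := by
    rw [hQ1, sub_eq_add_neg]
    exact hF.o_add _ _ (hF.o_mul _ _ o1.1 o4.1) (hneg _ (hF.o_mul _ _ o3.1 o2.1))
  have hQ0 : Q.coeff 0 = (Hs.order : K₀) * (E₀ f0 / f0) - (Fs.order : K₀) * (E₀ g0 / g0) := by
    rw [hQ1, HahnSeries.coeff_sub, hF.coeff_mul _ _ o1.1 o4.1, hF.coeff_mul _ _ o3.1 o2.1,
      o1.2, o2.2, o3.2, o4.2, ← hf0, ← hg0]
    ring
  obtain ⟨P, hP⟩ : ∃ P : K₀, P = f0 ^ Hs.order * g0 ^ (-Fs.order) := ⟨_, rfl⟩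
  have hPne : P ≠ 0 := by
    rw [hP]
    exact mul_ne_zero (zpow_ne_zero _ hf00) (zpow_ne_zero _ hg00)
  have hQP : Q.coeff 0 = E₀ P / P := by
    rw [hQ0, hP, log_mul E₀ _ _ (zpow_ne_zero _ hf00) (zpow_ne_zero _ hg00),
      log_zpow E₀ f0 hf00, log_zpow E₀ g0 hg00]
    push_cast
    ring
  -- the other side
  obtain ⟨μ, hμ⟩ : ∃ μ : Fin n → L, μ = fun i => lam i * (π : L) / D₀ π := ⟨_, rfl⟩
  have hQ2 : Q = ∑ i, HahnSeries.C (h i) * mp (algebraMap k₀ K₀) (ιb (μ i)) := by
    rw [hQ, hG, Finset.mul_sum, map_sum]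
    refine Finset.sum_congr rfl fun i _ => ?_
    have e1 : algebraMap L M ((π : L) / D₀ π) * (algebraMap K₀ M (h i) * algebraMap L M (lam i))
        = algebraMap K₀ M (h i) * algebraMap L M (μ i) := by
      rw [hμ]
      simp only [map_div₀, map_mul]
      ring
    rw [e1, map_mul, hJK, hJL]
    rfl
  have hco : ∀ m : ℤ, Q.coeff m = ∑ i, algebraMap k₀ K₀ ((ιb (μ i)).coeff m) * h i := by
    intro m
    have hs : ∀ (s : Finset (Fin n)) (a : Fin n → LaurentSeries K₀),
        (∑ i ∈ s, a i).coeff m = ∑ i ∈ s, (a i).coeff m := by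
      classical
      intro s a
      induction s using Finset.induction_on with
      | empty => simp
      | insert x s hx ih => rw [Finset.sum_insert hx, Finset.sum_insert hx, HahnSeries.coeff_add, ih]
    rw [hQ2, hs]
    refine Finset.sum_congr rfl fun i _ => ?_
    rw [HahnSeries.C_mul_eq_smul, HahnSeries.coeff_smul, mp_coeff, smul_eq_mul, mul_comm]
  have hli : ∀ m : ℤ, Q.coeff m = 0 → ∀ i, (ιb (μ i)).coeff m = 0 := by
    intro m hm i
    rw [hco] at hm
    have h1 : ∑ i, (ιb (μ i)).coeff m • h i = 0 := by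
      rw [← hm]
      refine Finset.sum_congr rfl fun i _ => ?_
      rw [Algebra.smul_def]
    exact (Fintype.linearIndependent_iff.1 hind) _ h1 i
  have hμO : ∀ i, IsO (ιb (μ i)) := fun i m hm => hli m (hQO m hm) i
  have hμ0 : Q.coeff 0 = 0 := by
    have hregP : IsRegD k₀ z (E₀ ((Units.mk0 P hPne : K₀ˣ) : K₀) / ((Units.mk0 P hPne : K₀ˣ) : K₀)) := by
      intro ι hι hu
      rw [Units.val_mk0, ← hQP, hco, map_sum, Finset.sum_mul]
      have hsum : ∀ (s : Finset (Fin n)) (a : Fin n → LaurentSeries k₀), (∀ i ∈ s, IsO (a i)) →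
          IsO (∑ i ∈ s, a i) := by
        classical
        intro s a
        induction s using Finset.induction_on with
        | empty =>
          intro _ m _
          simp
        | insert x s hx ih =>
          intro ha
          rw [Finset.sum_insert hx]
          exact hF0.o_add _ _ (ha x (by simp)) (ih fun i hi => ha i (by simp [hi]))
      refine hsum _ _ fun i _ => ?_
      rw [map_mul, hι]
      have e1 : (HahnSeries.C (algebraMap k₀ k₀ ((ιb (μ i)).coeff 0)) : LaurentSeries k₀) * ι (h i)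
          * dS (ι z) = HahnSeries.C (algebraMap k₀ k₀ ((ιb (μ i)).coeff 0)) *
            (ι (h i) * dS (ι z)) := by ring
      rw [e1]
      exact hF0.o_mul _ _ (hF0.o_C _) (hreg i ι hι hu)
    obtain ⟨c, hc⟩ := hL3 k₀ K₀ hK z E₀ hz hEk hE.one (Units.mk0 P hPne) hregP
    rw [Units.val_mk0] at hc
    rw [hQP, ← hc, hEk, zero_div]
  have hμM : IsM (ιb (μ i)) := by
    intro m hm
    rcases hm.lt_or_eq with h1 | h1
    · exact hμO i m h1
    · rw [h1]
      exact hli 0 hμ0 i
  have hgoal : lam i * (π : L) / D₀ π = μ i := by rw [hμ]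
  rw [hgoal]
  by_cases h0 : μ i = 0
  · exact Or.inl h0
  · right
    refine ⟨Units.mk0 (μ i) h0, rfl, ?_⟩
    have h1 := hιord (Units.mk0 (μ i) h0)
    rw [Units.val_mk0] at h1
    have h2 := (hF0.m_iff _ ((map_ne_zero ιb).2 h0)).1 hμM
    omega

end MP743d1e.BD
end

section
/-!
# VDG: the order of a function is at most its degree
-/
set_option autoImplicit false

namespace MP743d1e.BD

open scoped BigOperators
open Polynomial IntermediateField MP743d1e.CY MP743d1e.GX MP743d1e.Integ Filter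

namespace VDGM

open MP743d1e.CY.FNVM

/-- The sum of two elements of different orders. -/
theorem add_of_ne {K : Type} [Field K] (v : DVal K) (f g : Kˣ) (h : v.ord f ≠ v.ord g) :
    ∃ w : Kˣ, (w : K) = f + g ∧ (v.ord w = v.ord f ∨ v.ord w = v.ord g) := by
  have h0 : (f : K) + g ≠ 0 := by
    intro h1
    apply h
    have h2 : f = -g := by
      apply Units.ext
      rw [Units.val_neg]
      exact eq_neg_of_add_eq_zero_left h1
    rw [h2, v.ord_neg]
  set w : Kˣ := Units.mk0 _ h0 with hw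
  have hwv : (w : K) = f + g := rfl
  refine ⟨w, hwv, ?_⟩
  have h1 := v.ord_add f g w hwv.symm
  have h2 := v.ord_add w (-g) f (by rw [hwv, Units.val_neg]; ring)
  have h3 := v.ord_add w (-f) g (by rw [hwv, Units.val_neg]; ring)
  rw [v.ord_neg] at h2 h3
  rcases lt_or_gt_of_ne h with h4 | h4
  · left; omega
  · right; omega

/-- A sum of elements of different orders is not zero. -/
theorem sum_of_ne {K ι : Type} [Field K] [DecidableEq ι] (v : DVal K) (s : Finset ι) (u : ι → Kˣ)
    (hs : s.Nonempty) (h : ∀ i ∈ s, ∀ j ∈ s, i ≠ j → v.ord (u i) ≠ v.ord (u j)) :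
    ∃ w : Kˣ, (w : K) = ∑ i ∈ s, (u i : K) ∧ ∃ j ∈ s, v.ord w = v.ord (u j) := by
  induction s using Finset.induction_on with
  | empty => exact absurd hs Finset.not_nonempty_empty
  | insert a s ha ih =>
    rcases s.eq_empty_or_nonempty with rfl | hs'
    · exact ⟨u a, by simp, a, by simp, rfl⟩
    · obtain ⟨w, hw, j, hj, hwj⟩ := ih hs' fun i hi j hj => h i (Finset.mem_insert_of_mem hi) j
        (Finset.mem_insert_of_mem hj)
      have hne : v.ord (u a) ≠ v.ord w := by
        rw [hwj]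
        exact h a (Finset.mem_insert_self a s) j (Finset.mem_insert_of_mem hj)
          (fun h' => ha (h' ▸ hj))
      obtain ⟨w', hw', h'⟩ := add_of_ne v (u a) w hne
      refine ⟨w', by rw [hw', hw, Finset.sum_insert ha], ?_⟩
      rcases h' with h' | h'
      · exact ⟨a, Finset.mem_insert_self a s, h'⟩
      · exact ⟨j, Finset.mem_insert_of_mem hj, by rw [h', hwj]⟩

section

variable {k K : Type} [Field k] [Field K] [Algebra k K] {v : DVal K}

theorem nn_aeval (hg : GeoF k v) {f : K} (hf : NN v f) (p : k[X]) : NN v (aeval f p) := by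
  induction p using Polynomial.induction_on' with
  | add p q hp hq => rw [map_add]; exact nn_add hp hq
  | monomial n a =>
    rw [aeval_monomial]
    refine nn_mul (nn_const hg a) ?_
    induction n with
    | zero => rw [pow_zero]; exact nn_one
    | succ n ih => rw [pow_succ]; exact nn_mul ih hf

/-- The order of a polynomial in `f`, where `f` has a zero. -/
theorem ord_aeval (hg : GeoF k v) (f : Kˣ) (hf : 0 < v.ord f) (p : k[X]) (hp : p ≠ 0) :
    ∃ w : Kˣ, (w : K) = aeval (f : K) p ∧ v.ord f ∣ v.ord w := by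
  induction hn : p.natDegree using Nat.strong_induction_on generalizing p with
  | _ n ih =>
    by_cases h0 : p.coeff 0 = 0
    · obtain ⟨q, rfl⟩ := X_dvd_iff.2 h0
      have hq : q ≠ 0 := right_ne_zero_of_mul hp
      have hd : q.natDegree < n := by
        rw [← hn, natDegree_X_mul hq]
        exact Nat.lt_succ_self _
      obtain ⟨w, hw, hdvd⟩ := ih _ hd q hq rfl
      refine ⟨f * w, by rw [Units.val_mul, map_mul, aeval_X, hw], ?_⟩
      rw [v.ord_mul]
      exact dvd_add dvd_rfl hdvd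
    · have hc0 : algebraMap k K (p.coeff 0) ≠ 0 := by rwa [Ne, map_eq_zero]
      set c : Kˣ := Units.mk0 _ hc0 with hc
      have hvc : v.ord c = 0 := hg c ⟨p.coeff 0, rfl⟩
      by_cases h1 : aeval (f : K) (divX p) = 0
      · refine ⟨c, ?_, by rw [hvc]; exact dvd_zero _⟩
        conv_rhs => rw [← divX_mul_X_add p]
        rw [map_add, map_mul, h1, zero_mul, zero_add, aeval_C]
        rfl
      · set d : Kˣ := Units.mk0 _ h1 with hd
        have hvd : 0 ≤ v.ord d := nn_unit.1 (nn_aeval hg (nn_unit.2 hf.le) (divX p))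
        obtain ⟨w, hw, hor⟩ := add_of_ne v (d * f) c (by rw [v.ord_mul, hvc]; omega)
        have h2 := v.ord_add (d * f) c w hw.symm
        have h3 := v.ord_add w (-(d * f)) c (by rw [hw, Units.val_neg]; ring)
        rw [v.ord_neg] at h3
        rw [v.ord_mul, hvc] at h2 h3 hor
        refine ⟨w, ?_, ?_⟩
        · rw [hw]
          conv_rhs => rw [← divX_mul_X_add p]
          rw [map_add, map_mul, aeval_C, aeval_X, Units.val_mul]
          rfl
        · have : v.ord w = 0 := by omega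
          rw [this]; exact dvd_zero _

/-- The orders of the elements of `k⟮f⟯`. -/
theorem ord_adjoin (hg : GeoF k v) (f : Kˣ) (hf : 0 < v.ord f) (a : Kˣ)
    (ha : (a : K) ∈ k⟮(f : K)⟯) : v.ord f ∣ v.ord a := by
  rw [mem_adjoin_simple_iff] at ha
  obtain ⟨r, s, hrs⟩ := ha
  have hr : r ≠ 0 := by
    rintro rfl
    rw [map_zero, zero_div] at hrs
    exact a.ne_zero hrs
  have hs : s ≠ 0 := by
    rintro rfl
    rw [map_zero, div_zero] at hrs
    exact a.ne_zero hrs
  obtain ⟨w, hw, h1⟩ := ord_aeval hg f hf r hr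
  obtain ⟨w', hw', h2⟩ := ord_aeval hg f hf s hs
  have h3 : a = w * w'⁻¹ := by
    apply Units.ext
    rw [hrs, ← hw, ← hw', Units.val_mul, Units.val_inv_eq_inv_val, div_eq_mul_inv]
  rw [h3, v.ord_mul, v.ord_inv]
  exact dvd_add h1 ((dvd_neg).2 h2)

theorem pos_case (hg : GeoF k v) (f : Kˣ) (hf : 0 < v.ord f) (hfin : FiniteDimensional k⟮(f : K)⟯ K) :
    v.ord f ≤ (Module.finrank k⟮(f : K)⟯ K : ℤ) := by
  classical
  obtain ⟨ϖ, hϖ⟩ := v.surj 1
  have hli : LinearIndependent k⟮(f : K)⟯ (fun i : Fin (v.ord f).toNat => (ϖ : K) ^ (i : ℕ)) := by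
    rw [Fintype.linearIndependent_iff]
    intro a ha
    by_contra hne
    rw [not_forall] at hne
    obtain ⟨i₀, hi₀⟩ := hne
    let s : Finset (Fin (v.ord f).toNat) := Finset.univ.filter fun i => a i ≠ 0
    have hs : s.Nonempty := ⟨i₀, by simp [s, hi₀]⟩
    have hmem : ∀ i ∈ s, (a i : K) ≠ 0 := by
      intro i hi
      have : a i ≠ 0 := (Finset.mem_filter.1 hi).2
      simpa using this
    let u : Fin (v.ord f).toNat → Kˣ := fun i =>
      if h : (a i : K) ≠ 0 then Units.mk0 _ h * ϖ ^ (i : ℕ) else 1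
    have hu : ∀ i ∈ s, (u i : K) = a i • (ϖ : K) ^ (i : ℕ) ∧
        ∃ c : ℤ, v.ord (u i) = v.ord f * c + (i : ℕ) := by
      intro i hi
      have h1 := hmem i hi
      have h2 : u i = Units.mk0 _ h1 * ϖ ^ (i : ℕ) := dif_pos h1
      rw [h2]
      refine ⟨?_, ?_⟩
      · rw [Units.val_mul, Units.val_pow_eq_pow_val, Units.val_mk0]
        rfl
      · obtain ⟨c, hc⟩ := ord_adjoin hg f hf (Units.mk0 _ h1) (a i).2
        refine ⟨c, ?_⟩
        rw [v.ord_mul, v.ord_pow, hϖ, hc, mul_one]
    obtain ⟨w, hw, -⟩ := sum_of_ne v s u hs (by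
      intro i hi j hj hij h
      obtain ⟨-, c, hc⟩ := hu i hi
      obtain ⟨-, d, hd⟩ := hu j hj
      rw [hc, hd] at h
      apply hij
      apply Fin.ext
      have hi1 : ((i : ℕ) : ℤ) < v.ord f := by have := i.2; omega
      have hj1 : ((j : ℕ) : ℤ) < v.ord f := by have := j.2; omega
      have h1 : ((i : ℕ) : ℤ) = (v.ord f * c + (i : ℕ)) % v.ord f := by
        rw [Int.mul_add_emod_self_left, Int.emod_eq_of_lt (by omega) hi1]
      have h2 : ((j : ℕ) : ℤ) = (v.ord f * d + (j : ℕ)) % v.ord f := by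
        rw [Int.mul_add_emod_self_left, Int.emod_eq_of_lt (by omega) hj1]
      have h3 : ((i : ℕ) : ℤ) = (j : ℕ) := by rw [h1, h2, h]
      exact_mod_cast h3)
    apply w.ne_zero
    rw [hw, ← ha]
    rw [Finset.sum_congr rfl fun i hi => (hu i hi).1]
    apply Finset.sum_subset (Finset.subset_univ s)
    intro i _ hi
    have : a i = 0 := by
      by_contra h
      exact hi (by simp [s, h])
    rw [this, zero_smul]
  have h1 := hli.fintype_card_le_finrank
  rw [Fintype.card_fin] at h1
  omega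

end

end VDGM

theorem specVDG : SpecVDG := by
  intro k K _ _ _ hK v hg f
  by_cases hf : Transcendental k (f : K)
  · have hfin := fdx hK hf
    rcases lt_trichotomy (v.ord f) 0 with h | h | h
    · have hkk : k⟮(f : K)⟯ = k⟮((f⁻¹ : Kˣ) : K)⟯ := by
        rw [Units.val_inv_eq_inv_val]
        apply le_antisymm
        · rw [adjoin_simple_le_iff]
          have : ((f : K)⁻¹)⁻¹ ∈ k⟮(f : K)⁻¹⟯ := inv_mem (mem_adjoin_simple_self k _)
          rwa [inv_inv] at this
        · rw [adjoin_simple_le_iff]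
          exact inv_mem (mem_adjoin_simple_self k _)
      have hfin' : FiniteDimensional k⟮((f⁻¹ : Kˣ) : K)⟯ K := hkk ▸ hfin
      have h1 := VDGM.pos_case hg f⁻¹ (by rw [v.ord_inv]; omega) hfin'
      rw [← hkk, v.ord_inv] at h1
      rw [abs_of_neg h]
      exact h1
    · rw [h, abs_zero]
      positivity
    · rw [abs_of_pos h]
      exact VDGM.pos_case hg f h hfin
  · have halg : IsAlgebraic k (f : K) := not_not.1 hf
    have h1 : ∀ u : Kˣ, IsAlgebraic k (u : K) → 0 ≤ v.ord u := fun u hu =>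
      nn_unit.1 (CY.FNVM.nn_of_isIntegral (fun c => CY.FNVM.nn_const hg c) hu.isIntegral)
    have h2 := h1 f halg
    have h3 := h1 f⁻¹ (by rw [Units.val_inv_eq_inv_val]; exact halg.inv)
    rw [v.ord_inv] at h3
    have h4 : v.ord f = 0 := by omega
    rw [h4, abs_zero]
    positivity

end MP743d1e.BD
end

section
/-!
# Theorem BD, module VDM: the Vandermonde argument over the ring of power series
-/
set_option autoImplicit false

namespace MP743d1e.BD

open scoped BigOperators

namespace VDMM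

variable {κ : Type} [Field κ]

/-- the ring of power series inside the Laurent series -/
private def OO (L : LSF κ) : Subring (LaurentSeries κ) where
  carrier := {a | IsO a}
  zero_mem' := fun n _ => by simp
  one_mem' := by
    have h := L.o_C 1
    rwa [map_one] at h
  add_mem' := fun {a b} ha hb => L.o_add a b ha hb
  mul_mem' := fun {a b} ha hb => L.o_mul a b ha hb
  neg_mem' := fun {a} ha n hn => by
    have h := ha n hn
    simp [h]

/-- the constant coefficient -/
private def c0 (L : LSF κ) : OO L →+* κ where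
  toFun a := (a : LaurentSeries κ).coeff 0
  map_zero' := by simp
  map_one' := by
    show ((1 : LaurentSeries κ)).coeff 0 = 1
    simp
  map_add' a b := by
    show ((a : LaurentSeries κ) + (b : LaurentSeries κ)).coeff 0 = _
    simp
  map_mul' a b := L.coeff_mul _ _ a.2 b.2

private theorem inv_mem (L : LSF κ) (x : OO L) (hx : c0 L x ≠ 0) :
    ((x : LaurentSeries κ))⁻¹ ∈ OO L := by
  have hx' : (x : LaurentSeries κ).coeff 0 ≠ 0 := hx
  have h0 : (x : LaurentSeries κ) ≠ 0 := by
    intro h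
    rw [h] at hx'
    exact hx' (by simp)
  have h1 : (x : LaurentSeries κ).order ≤ 0 := HahnSeries.order_le_of_coeff_ne_zero hx'
  have h3 := HahnSeries.order_mul h0 (inv_ne_zero h0)
  rw [mul_inv_cancel₀ h0, HahnSeries.order_one] at h3
  exact (L.o_iff _ (inv_ne_zero h0)).2 (by omega)

end VDMM

open VDMM in
theorem specVDM (hLSD : SpecLSD) : SpecVDM := by
  intro κ _ r a F ha hne hG j
  have L : LSF κ := hLSD κ
  let b : Fin r → OO L := fun i => ⟨a i, ha i⟩
  let V : Matrix (Fin r) (Fin r) (OO L) := Matrix.vandermonde b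
  let G : Fin r → OO L := fun i => ⟨∑ j, F j * a i ^ (j : ℕ), hG i⟩
  have hdet : c0 L V.det ≠ 0 := by
    rw [Matrix.det_vandermonde, map_prod]
    refine Finset.prod_ne_zero_iff.2 fun i _ => ?_
    rw [map_prod]
    refine Finset.prod_ne_zero_iff.2 fun k hk => ?_
    rw [map_sub, sub_ne_zero]
    exact hne k i (Finset.mem_Ioi.1 hk).ne'
  have hinv := inv_mem L V.det hdet
  -- the adjugate
  have key : ((V.det : OO L) : LaurentSeries κ) * F j =
      ((V.adjugate.mulVec G j : OO L) : LaurentSeries κ) := by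
    have e1 : (V.map (OO L).subtype).mulVec F = fun i => ((G i : OO L) : LaurentSeries κ) := by
      funext i
      refine (Finset.sum_congr rfl fun k _ => ?_ :
        ∑ k, (V.map (OO L).subtype) i k * F k = ∑ k, F k * a i ^ (k : ℕ))
      show ((b i ^ (k : ℕ) : OO L) : LaurentSeries κ) * F k = F k * a i ^ (k : ℕ)
      rw [mul_comm]
      rfl
    have e2 : (V.map (OO L).subtype).adjugate = V.adjugate.map (OO L).subtype :=
      ((OO L).subtype.map_adjugate V).symm
    have e3 : (V.map (OO L).subtype).adjugate.mulVec ((V.map (OO L).subtype).mulVec F) =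
        (V.map (OO L).subtype).det • F := by
      rw [Matrix.mulVec_mulVec, Matrix.adjugate_mul, Matrix.smul_mulVec, Matrix.one_mulVec]
    have e4 : (V.map (OO L).subtype).det = ((V.det : OO L) : LaurentSeries κ) :=
      ((OO L).subtype.map_det V).symm
    rw [e1, e2, e4] at e3
    have e5 := congrFun e3 j
    rw [Pi.smul_apply, smul_eq_mul] at e5
    rw [← e5, show V.adjugate.mulVec G j = ∑ k, V.adjugate j k * G k from rfl,
      AddSubmonoidClass.coe_finsetSum]
    rfl
  have h0 : ((V.det : OO L) : LaurentSeries κ) ≠ 0 := by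
    intro h
    apply hdet
    show ((V.det : OO L) : LaurentSeries κ).coeff 0 = 0
    rw [h]
    simp
  have h1 : F j = ((V.det : OO L) : LaurentSeries κ)⁻¹ *
      ((V.adjugate.mulVec G j : OO L) : LaurentSeries κ) := by
    rw [← key, inv_mul_cancel_left₀ h0]
  rw [h1]
  exact (OO L).mul_mem hinv (V.adjugate.mulVec G j).2

end MP743d1e.BD
end
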