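import Pool.Agent.Lib.MP_743d1e_nt.BD.SpecB
import Pool.Agent.Lib.MP_743d1e_nt.CY.MIL
import Pool.Agent.Lib.MP_743d1e_nt.GX.MTK
import Pool.Agent.Lib.MP_743d1e_nt.BD.UMP
import Pool.Agent.Lib.MP_743d1e_nt.BD.VDM
import Pool.Agent.Lib.MP_743d1e_nt.BD.ULP
import Pool.Agent.Lib.MP_743d1e_nt.BD.DER
import Pool.Agent.Lib.MP_743d1e_nt.BD.L3
import Pool.Agent.Lib.MP_743d1e_nt.BD.UTM
import Pool.Agent.Lib.MP_743d1e_nt.BD.UK2
import Pool.Agent.Lib.MP_743d1e_nt.BD.JEX
import Pool.Agent.Lib.MP_743d1e_nt.BD.C3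
import Pool.Agent.Lib.MP_743d1e_nt.BD.T1
import Pool.Agent.Lib.MP_743d1e_nt.BD.INV
import Pool.Agent.Lib.MP_743d1e_nt.BD.TMD
import Pool.Agent.Lib.MP_743d1e_nt.BD.FLP

section
/-!
# Theorem BD: module CORE1 (one parameter)
-/
set_option autoImplicit false

namespace MP743d1e.BD

open scoped BigOperators TensorProduct
open Polynomial IntermediateField MP743d1e.CY MP743d1e.GX MP743d1e.Integ Filter

namespace CORE1M

theorem um_um (A B C : Type) [Field A] [Field B] [Field C] [Algebra A B] [Algebra B C]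
    [Algebra A C] [IsScalarTower A B C] (u : Aˣ) : um B C (um A B u) = um A C u := by
  apply Units.ext
  exact (IsScalarTower.algebraMap_apply A B C (u : A)).symm

theorem mk2_sym (A B : Type) [Field A] [Field B] [Algebra A B] (f g : Aˣ) :
    mk2 A B (sym f g) = sym (um A B f) (um A B g) := ConstM.mapK_sym _ f g

theorem mk2_mk2 (A B C : Type) [Field A] [Field B] [Field C] [Algebra A B] [Algebra B C]
    [Algebra A C] [IsScalarTower A B C] (β : K2 A) :
    mk2 B C (mk2 A B β) = mk2 A C β := by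
  have : (mk2 B C).comp (mk2 A B) = mk2 A C := by
    apply K2.hom_ext
    intro f g
    show mk2 B C (mk2 A B (sym f g)) = mk2 A C (sym f g)
    rw [mk2_sym, mk2_sym, mk2_sym, um_um, um_um]
  exact DFunLike.congr_fun this β

/-- The tame symbols of the constants are zero. -/
theorem tame_mk2 {k K : Type} [Field k] [Field K] [Algebra k K] (v : DVal K) (hv : GeoF k v)
    (β : K2 k) : mk2 k K β ∈ (tame v).ker := by
  have key : ∀ f g : kˣ, (tame v).comp (mk2 k K) (sym f g) = (0 : K2 k →+ Additive (Kˣ ⧸ v.U1)) (sym f g) := by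
    intro f g
    show tame v (mk2 k K (sym f g)) = 0
    rw [mk2_sym, tame_sym]
    have h1 : v.ord (um k K f) = 0 := hv _ ⟨f, rfl⟩
    have h2 : v.ord (um k K g) = 0 := hv _ ⟨g, rfl⟩
    have h3 : v.tameUnit (um k K f) (um k K g) = 1 := by
      unfold DVal.tameUnit
      rw [h1, h2]
      simp
    rw [h3]
    rfl
  exact DFunLike.congr_fun (K2.hom_ext (A := Additive (Kˣ ⧸ v.U1)) key) β

theorem grp1 {M : Type} [AddCommGroup M] (m : ℕ) (a : M) : m • (-a) = -(m • a) := by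
  rw [smul_neg]

theorem grp2 {M : Type} [AddCommGroup M] (m N : ℕ) (a b c : M) (h : m • (a - b) = c) :
    (N * m) • b = m • (N • a) - N • c := by
  rw [← h, smul_sub, smul_sub, mul_smul, smul_comm m N a]
  abel

theorem grp3 {M : Type} [AddCommGroup M] (m : ℕ) (a b : M) :
    m • (-a - -b) = -(m • (a - b)) := by
  rw [← smul_neg]
  congr 1
  abel

theorem tor_iff {k K : Type} [Field k] [Field K] [Algebra k K] {β : K2 K} :
    TorTameF k β ↔ ∀ v : DVal K, GeoF k v → ∃ N : ℕ, 0 < N ∧ N • β ∈ (tame v).ker := by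
  refine forall_congr' fun v => forall_congr' fun _ => exists_congr fun N =>
    and_congr_right fun _ => ?_
  rw [AddMonoidHom.mem_ker, map_nsmul]

theorem tor_neg {k K : Type} [Field k] [Field K] [Algebra k K] {β : K2 K} (h : TorTameF k β) :
    TorTameF k (-β) := by
  rw [tor_iff] at h ⊢
  intro v hv
  obtain ⟨N, hN, h0⟩ := h v hv
  exact ⟨N, hN, by rw [grp1]; exact (tame v).ker.neg_mem h0⟩

theorem tor_of_equiv {k K : Type} [Field k] [Field K] [Algebra k K] {α β : K2 K}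
    (h : TorTameF k α) (he : EquivK k α β) : TorTameF k β := by
  rw [tor_iff] at h ⊢
  intro v hv
  obtain ⟨m, hm, γ, hγ⟩ := he
  obtain ⟨N, hN, h0⟩ := h v hv
  refine ⟨N * m, Nat.mul_pos hN hm, ?_⟩
  have h1 : (N * m) • β = m • (N • α) - N • mk2 k K γ := grp2 m N α β _ hγ
  rw [h1]
  exact (tame v).ker.sub_mem ((tame v).ker.nsmul_mem h0 m)
    ((tame v).ker.nsmul_mem (tame_mk2 v hv γ) N)

theorem equiv_neg {k K : Type} [Field k] [Field K] [Algebra k K] {α β : K2 K}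
    (he : EquivK k α β) : EquivK k (-α) (-β) := by
  obtain ⟨m, hm, γ, hγ⟩ := he
  refine ⟨m, hm, -γ, ?_⟩
  rw [map_neg, ← hγ]
  exact grp3 m α β

end CORE1M

open CORE1M in
theorem specCORE1 (hIND : SpecIND) (hSUB : SpecSUB) (hFLX : SpecFLX) (hC6 : SpecC6)
    (hDER : SpecDER) (hTMD : SpecTMD) (hCEB : SpecCEB) (hCST : SpecCST) : SpecCORE1 := by
  intro k₀ K₀ k₁ K₁ _ _ _ _ _ _ _ _ _ _ _ _ _ _ h hF t ht hta f g hT
  have hF1 : Fun1 k₁ K₁ := (hCEB k₀ K₀ k₁ K₁ h hF).2.2.1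
  have hc1 : CharZero k₁ := charZero_of_injective_algebraMap (algebraMap k₀ k₁).injective
  have hcK : CharZero K₁ := charZero_of_injective_algebraMap (algebraMap k₁ K₁).injective
  have triv : EquivK k₁ (sym f g) 0 → ∃ f' g' : K₀ˣ, TorTameF k₀ (sym f' g') ∧
      EquivK k₁ (sym f g) (sym (um K₀ K₁ f') (um K₀ K₁ g')) := by
    intro he
    refine ⟨1, 1, ?_, ?_⟩
    · intro v hv
      exact ⟨1, one_pos, by rw [ConstM.sym_one_left, map_zero]; exact one_nsmul _⟩
    · rw [map_one, ConstM.sym_one_left]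
      exact he
  rcases con (k := k₁) (f : K₁) with hf | hf
  swap
  · exact triv (hCST k₁ K₁ hF1 f g hT hf)
  rcases con (k := k₁) (g : K₁) with hg | hg
  swap
  · apply triv
    have h1 := hCST k₁ K₁ hF1 g f (by
      rw [MTKM.sym_neg g f]
      exact tor_neg hT) hg
    rw [MTKM.sym_neg f g, ← neg_zero]
    exact equiv_neg h1
  have hdep := hIND k₀ K₀ k₁ K₁ h hF t ht hta f g hT
  obtain ⟨E₀, E₁, _, _, _, _, _, _, _, _, _, _, F, G, hE, hE0, hE1, hfd, hFt, -, hFf, hGg⟩ :=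
    hSUB k₀ k₁ K₁ hF1 f g hf hdep
  have hcE : CharZero E₁ := charZero_of_injective_algebraMap (algebraMap k₁ E₁).injective
  have hT1 : TorTameF k₁ (sym (um E₀ E₁ F) (um E₀ E₁ G)) := by
    apply hTMD k₁ E₁ K₁ hfd
    rw [mk2_sym, hFf, hGg]
    exact hT
  by_cases hrat : ∃ τ : E₁, Transcendental k₁ τ ∧ k₁⟮τ⟯ = ⊤
  · obtain ⟨τ, hτ, hτ'⟩ := hrat
    obtain ⟨N, hN, β, hβ⟩ := mil k₁ E₁ τ ⟨hτ, hτ'⟩ _ hT1
    apply triv
    refine ⟨N, hN, β, ?_⟩
    rw [sub_zero, ← mk2_mk2 k₁ E₁ K₁ β, hβ, map_nsmul, mk2_sym, hFf, hGg]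
  · have hnr : ∀ τ : E₁, Transcendental k₁ τ → k₁⟮τ⟯ ≠ ⊤ := fun τ hτ hτ' => hrat ⟨τ, hτ, hτ'⟩
    obtain ⟨D, D₀, hD, hker, -⟩ := hDER k₀ K₀ k₁ K₁ h t ht hta
    have hlift : ∀ u : K₁ˣ, D (u : K₁) = 0 → ∃ u' : K₀ˣ, um K₀ K₁ u' = u := by
      intro u hu
      obtain ⟨y, hy⟩ := hker u hu
      have hy0 : y ≠ 0 := by
        rintro rfl
        rw [map_zero] at hy
        exact u.ne_zero hy.symm
      exact ⟨Units.mk0 y hy0, Units.ext hy⟩
    by_cases h0 : D (f : K₁) = 0 ∧ D (g : K₁) = 0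
    · obtain ⟨f', hf'⟩ := hlift f h0.1
      obtain ⟨g', hg'⟩ := hlift g h0.2
      refine ⟨f', g', ?_, ?_⟩
      · apply hC6 k₀ K₀ k₁ K₁ h hF
        rw [hf', hg']
        exact hT
      · rw [hf', hg']
        exact ⟨1, one_pos, 0, by rw [sub_self, smul_zero, map_zero]⟩
    · have hξ : ∃ ξ : E₀, D (algebraMap E₁ K₁ (algebraMap E₀ E₁ ξ)) ≠ 0 := by
        by_cases h1 : D (f : K₁) = 0
        · refine ⟨G, fun h2 => h0 ⟨h1, ?_⟩⟩
          rw [← hGg]
          exact h2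
        · refine ⟨F, fun h2 => h1 ?_⟩
          rw [← hFf]
          exact h2
      obtain ⟨ξ, hξ⟩ := hξ
      have hξt : Transcendental k₀ ξ := by
        rcases con (k := k₀) ξ with h1 | ⟨c, rfl⟩
        · exact h1
        · exfalso
          apply hξ
          rw [← IsScalarTower.algebraMap_apply k₀ E₀ E₁, IsScalarTower.algebraMap_apply k₀ k₁ E₁,
            ← IsScalarTower.algebraMap_apply k₁ E₁ K₁, ← IsScalarTower.algebraMap_apply k₀ k₁ K₁,
            IsScalarTower.algebraMap_apply k₀ K₀ K₁]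
          exact hD.onK _
      obtain ⟨ε, -, hε, hεs⟩ := hFLX k₀ K₀ k₁ K₁ E₀ E₁ h hF hE hE0 hE1 hfd hnr t D D₀ hD ξ hξt hξ
      obtain ⟨f₂, hf₂⟩ := hlift (um E₁ K₁ (Units.map (ε : E₁ →* E₁) (um E₀ E₁ F))) (hε F)
      obtain ⟨g₂, hg₂⟩ := hlift (um E₁ K₁ (Units.map (ε : E₁ →* E₁) (um E₀ E₁ G))) (hε G)
      obtain ⟨m, hm, γ, hγ⟩ := hεs _ _ hT1
      have heq : EquivK k₁ (sym f g) (sym (um K₀ K₁ f₂⁻¹) (um K₀ K₁ g₂)) := by
        refine ⟨m, hm, γ, ?_⟩
        rw [map_inv, ConstM.sym_inv_left, sub_neg_eq_add, hf₂, hg₂, ← mk2_mk2 k₁ E₁ K₁ γ, ← hγ,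
          map_nsmul, map_add, mk2_sym, mk2_sym, hFf, hGg]
      refine ⟨f₂⁻¹, g₂, ?_, heq⟩
      exact hC6 k₀ K₀ k₁ K₁ h hF _ _ (tor_of_equiv hT heq)

end MP743d1e.BD
end

section
/-!
# The modules put together
-/
set_option autoImplicit false

namespace MP743d1e.BD.ALL

open MP743d1e.BD

theorem aUAC : SpecUAC := specUAC

theorem aUTR : SpecUTR := specUTR

theorem aMPB : SpecMPB := specMPB

theorem aBDV : SpecBDV := specBDV

theorem aBID : SpecBID := specBID aMPB aBDV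

theorem aUPO : SpecUPO := specUPO

theorem aUAL : SpecUAL := specUAL aBID aUPO aUTR

theorem aUMP : SpecUMP := specUMP aMPB aBDV aUPO aUTR

theorem aBDF : SpecBDF := specBDF

theorem aUKB : SpecUKB := specUKB aUAC aUTR aUAL aUMP aBDF

theorem aUCE : SpecUCE := specUCE aUKB aUTR aUAC

theorem aRES : SpecRES := specRES

theorem aINC : SpecINC := specINC aRES

theorem aING : SpecING := specING aINC aMPB aBDV

theorem aUPL : SpecUPL := specUPL aING aUPO aUTR aUAL aUAC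

theorem aVDG : SpecVDG := specVDG

theorem aUTM : SpecUTM := specUTM aUPL aUKB aUAC aVDG aRES

theorem aUK2 : SpecUK2 := specUK2

theorem aULP : SpecULP := specULP aUAC aUCE aUKB aUTM aUK2

theorem aCES : SpecCES := specCES

theorem aEXT : SpecEXT := specEXT aCES

theorem aARC : SpecARC := specARC aRES

theorem aDUQ : SpecDUQ := specDUQ

theorem aDR0 : SpecDR0 := specDR0

theorem aLSD : SpecLSD := specLSD

theorem aCHD : SpecCHD := specCHD aDUQ aLSD

theorem aL3 : SpecL3 := specL3 aARC aCHD aLSD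

theorem aV1 : SpecV1 := specV1 aEXT aCES aARC aDUQ aDR0 aLSD aL3

theorem aJEX : SpecJEX := specJEX aARC

theorem aTRD : SpecTRD := specTRD

theorem aLSX : SpecLSX := specLSX aLSD

theorem aAV : SpecAV := specAV

theorem aJRG : SpecJRG := specJRG aARC aAV aDR0 aDUQ aLSD

theorem aIND0 : SpecIND0 := specIND0 aV1 aJEX aTRD aLSX aJRG aDUQ aAV aDR0 aLSD

theorem aMSU : SpecMSU := specMSU

theorem aCEB : SpecCEB := specCEB aCES

theorem aARD : SpecARD := specARD aDUQ aLSD aCEB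

theorem aGRG : SpecGRG := specGRG aARD aCHD aAV aCEB aLSD

theorem aTAY : SpecTAY := specTAY

theorem aDER : SpecDER := specDER aDR0 aCES

theorem aDZ : SpecDZ := specDZ aDER aCES

theorem aMAR : SpecMAR := specMAR aTAY aEXT aDZ aCEB

theorem aVDM : SpecVDM := specVDM aLSD

theorem aC3 : SpecC3 := specC3 aCEB aMAR aVDM aLSD

theorem aCAR : SpecCAR := specCAR aEXT aCEB

theorem aRGD : SpecRGD := specRGD aC3 aCES aCAR aLSD

theorem aIND : SpecIND := specIND aIND0 aMSU aGRG aRGD aDER aDZ aDUQ aCEB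

theorem aTPD : SpecTPD := specTPD

theorem aLDG : SpecLDG := specLDG aTPD

theorem aSUB : SpecSUB := specSUB aLDG aCEB

theorem aRGF : SpecRGF := specRGF aC3 aCES aCAR aARC aLSD

theorem aT1 : SpecT1 := specT1 aJRG aRGF aARD aLSD aCEB

theorem aRED : SpecRED := specRED aINC

theorem aAPX : SpecAPX := specAPX

theorem aCRT : SpecCRT := specCRT aAPX

theorem aIDT : SpecIDT := specIDT aINC

theorem aLOC : SpecLOC := specLOC aARC aAV aCRT aIDT aLSD

theorem aTRG : SpecTRG := specTRG aRES aAV aINC aLOC aLSD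

theorem aDIF : SpecDIF := specDIF aTRG

theorem aUPA : SpecUPA := specUPA aRES aCRT

theorem aRDP : SpecRDP := specRDP aUPA

theorem aDGP : SpecDGP := specDGP aRES aINC

theorem aRRL : SpecRRL := specRRL aRES aRED aDIF aRDP aDGP aCHD aDR0

theorem aINV : SpecINV := specINV

theorem aPEX : SpecPEX := specPEX

theorem aTMD : SpecTMD := specTMD aPEX

theorem aFLP : SpecFLP := specFLP aAPX aINV aTMD

theorem aFLX : SpecFLX := specFLX aT1 aRGD aRRL aDGP aFLP aARC aAV aCAR aCEB aDUQ aLSD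

theorem aC6 : SpecC6 := specC6 aARC aAV aCAR

theorem aCST : SpecCST := specCST

theorem aCORE1 : SpecCORE1 := specCORE1 aIND aSUB aFLX aC6 aDER aTMD aCEB aCST

theorem aCCH : SpecCCH := specCCH aLDG aCEB aCES

theorem aCORE : SpecCORE := specCORE aCORE1 aCCH aC6 aCEB

theorem aTA : SpecTA := specTA aULP aCORE

theorem aULB : SpecULB := specULB aUAC aUTR aUKB aUTM aUK2

theorem aTB : SpecTB := specTB aTA aULB aCST

theorem aNFD : SpecNFD := specNFD

theorem aPHB : SpecPHB := specPHB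

theorem aNFM : SpecNFM := specNFM aPHB

theorem aNFT : SpecNFT := specNFT aNFM

theorem aLDK : SpecLDK := specLDK

theorem aLPX : SpecLPX := specLPX aEXT

theorem aRCO : SpecRCO := specRCO

end MP743d1e.BD.ALL
end
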