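import Pool.Agent.Lib.MP_743d1e_nt.BD.SpecC

/-!
# C3: functions without poles on the moving arcs
-/

set_option autoImplicit false

namespace MP743d1e.BD

open scoped BigOperators
open Polynomial IntermediateField MP743d1e.CY MP743d1e.GX MP743d1e.Integ Filter

namespace C3M

/-- the expansion of a polynomial at `ζ` -/
noncomputable def ev {κ : Type} [Field κ] (ζ : κ) : κ[X] →+* LaurentSeries κ :=
  eval₂RingHom (HahnSeries.C : κ →+* LaurentSeries κ) (HahnSeries.C ζ + sv κ)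

theorem ev_C {κ : Type} [Field κ] (ζ c : κ) : ev ζ (C c) = HahnSeries.C c := by
  rw [ev, coe_eval₂RingHom, eval₂_C]

theorem ev_X {κ : Type} [Field κ] (ζ : κ) : ev ζ (X : κ[X]) = HahnSeries.C ζ + sv κ := by
  rw [ev, coe_eval₂RingHom, eval₂_X]

theorem coeff_C {κ : Type} [Field κ] (c : κ) :
    (HahnSeries.C c : LaurentSeries κ).coeff 0 = c := by
  rw [HahnSeries.C_apply, HahnSeries.coeff_single_same]

theorem ev_coeff {κ : Type} [Field κ] (hL : LSF κ) (ζ : κ) (p : κ[X]) :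
    IsO (ev ζ p) ∧ (ev ζ p).coeff 0 = p.eval ζ := by
  have hX : IsO (ev ζ (X : κ[X])) ∧ (ev ζ (X : κ[X])).coeff 0 = ζ := by
    rw [ev_X]
    refine ⟨hL.o_add _ _ (hL.o_C ζ) (hL.m_o _ hL.m_sv), ?_⟩
    rw [HahnSeries.coeff_add, coeff_C, hL.m_sv 0 le_rfl, add_zero]
  have hC : ∀ c : κ, IsO (ev ζ (C c)) ∧ (ev ζ (C c)).coeff 0 = c := by
    intro c
    rw [ev_C]
    exact ⟨hL.o_C c, coeff_C c⟩
  have hXn : ∀ n : ℕ, IsO (ev ζ (X ^ n : κ[X])) ∧ (ev ζ (X ^ n : κ[X])).coeff 0 = ζ ^ n := by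
    intro n
    induction n with
    | zero =>
      rw [pow_zero, pow_zero]
      have := hC 1
      rwa [C_1] at this
    | succ n ih =>
      rw [pow_succ, pow_succ, map_mul]
      refine ⟨hL.o_mul _ _ ih.1 hX.1, ?_⟩
      rw [hL.coeff_mul _ _ ih.1 hX.1, ih.2, hX.2]
  induction p using Polynomial.induction_on' with
  | add p q hp hq =>
    rw [map_add, eval_add]
    refine ⟨hL.o_add _ _ hp.1 hq.1, ?_⟩
    rw [HahnSeries.coeff_add, hp.2, hq.2]
  | monomial n a =>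
    rw [← C_mul_X_pow_eq_monomial, map_mul, eval_mul, eval_C, eval_pow, eval_X]
    refine ⟨hL.o_mul _ _ (hC a).1 (hXn n).1, ?_⟩
    rw [hL.coeff_mul _ _ (hC a).1 (hXn n).1, (hC a).2, (hXn n).2]

theorem map_aeval {κ K : Type} [Field κ] [Field K] [Algebra κ K] (ι : K →+* LaurentSeries κ)
    (hι : IsOver κ ι) (z : K) (ζ : κ) (hz : ι z = HahnSeries.C ζ + sv κ) (p : κ[X]) :
    ι (aeval z p) = ev ζ p := by
  rw [aeval_def, hom_eval₂, hz, ev, coe_eval₂RingHom]
  congr 1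
  ext1 c
  have := hι c
  simpa using this

open scoped IntermediateField.algebraAdjoinAdjoin in
/-- the embeddings over `z ↦ ζ` -/
theorem embeddings {k₀ K₀ k₁ : Type} [Field k₀] [Field K₀] [Field k₁] [Algebra k₀ K₀]
    [Algebra k₀ k₁] [CharZero k₀] [IsAlgClosed k₁] (z : K₀) (hz : Transcendental k₀ z)
    (hfin : FiniteDimensional k₀⟮z⟯ K₀) (pb : PowerBasis k₀⟮z⟯ K₀) (ζ : k₁)
    (hζ : Transcendental k₀ ζ) :
    ∃ ρ : Fin pb.dim → (K₀ →+* k₁), (∀ i (c : k₀), ρ i (algebraMap k₀ K₀ c) = algebraMap k₀ k₁ c) ∧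
      (∀ i, ρ i z = ζ) ∧ ∀ i j, i ≠ j → ρ i pb.gen ≠ ρ j pb.gen := by
  classical
  have hchar : CharZero K₀ := charZero_of_injective_algebraMap (algebraMap k₀ K₀).injective
  have hcharF : CharZero k₀⟮z⟯ := inferInstance
  let e : Polynomial k₀ ≃ₐ[k₀] Algebra.adjoin k₀ ({z} : Set K₀) :=
    Polynomial.algEquivOfTranscendental k₀ z hz
  let g : Algebra.adjoin k₀ ({z} : Set K₀) →ₐ[k₀] k₁ := (aeval ζ).comp e.symm.toAlgHom
  have hg : Function.Injective g := by
    have h1 : Function.Injective (aeval ζ : k₀[X] →ₐ[k₀] k₁) := transcendental_iff_injective.1 hζ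
    exact h1.comp e.symm.injective
  let σ : k₀⟮z⟯ →+* k₁ := IsFractionRing.lift (A := Algebra.adjoin k₀ ({z} : Set K₀))
    (K := k₀⟮z⟯) (g := (g : Algebra.adjoin k₀ ({z} : Set K₀) →+* k₁)) hg
  have hσ : ∀ a : Algebra.adjoin k₀ ({z} : Set K₀), σ (algebraMap _ _ a) = g a := fun a =>
    IsFractionRing.lift_algebraMap hg a
  let _ : Algebra k₀⟮z⟯ k₁ := σ.toAlgebra
  have hcard := AlgHom.card k₀⟮z⟯ K₀ k₁
  rw [pb.finrank] at hcard
  let eqv := (Fintype.equivFinOfCardEq hcard).symm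
  refine ⟨fun i => (eqv i : K₀ →+* k₁), fun i c => ?_, fun i => ?_, fun i j hij h => ?_⟩
  · have h1 : algebraMap k₀ K₀ c = algebraMap k₀⟮z⟯ K₀ (algebraMap _ _
        (algebraMap k₀ (Algebra.adjoin k₀ ({z} : Set K₀)) c)) := rfl
    show eqv i (algebraMap k₀ K₀ c) = _
    rw [h1, AlgHom.commutes]
    show σ _ = _
    rw [hσ]
    exact g.commutes c
  · show eqv i (algebraMap k₀⟮z⟯ K₀ (algebraMap _ _
        (⟨z, Algebra.self_mem_adjoin_singleton k₀ z⟩ : Algebra.adjoin k₀ ({z} : Set K₀)))) = _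
    rw [AlgHom.commutes]
    show σ _ = _
    rw [hσ]
    have h2 : e X = ⟨z, Algebra.self_mem_adjoin_singleton k₀ z⟩ :=
      Polynomial.algEquivOfTranscendental_apply_X k₀ z hz
    rw [← h2]
    show aeval ζ (e.symm (e X)) = ζ
    rw [e.symm_apply_apply, aeval_X]
  · apply hij
    apply eqv.injective
    exact pb.algHom_ext h

/-- a product of linear factors with roots in `k₀` -/
theorem prod_roots {k₀ K₀ k₁ K₁ : Type} [Field k₀] [Field K₀] [Field k₁] [Field K₁]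
    [Algebra k₀ K₀] [Algebra k₀ k₁] [Algebra k₀ K₁] [Algebra K₀ K₁] [Algebra k₁ K₁]
    [IsScalarTower k₀ K₀ K₁] [IsScalarTower k₀ k₁ K₁] (z : K₀) (s : Multiset k₁)
    (hs : ∀ a ∈ s, ∃ c : k₀, algebraMap k₀ k₁ c = a) :
    ∃ w : K₀, aeval (algebraMap K₀ K₁ z) (s.map (fun a => (X - C a : k₁[X]))).prod
      = algebraMap K₀ K₁ w := by
  induction s using Multiset.induction_on with
  | empty =>
    refine ⟨1, ?_⟩
    rw [Multiset.map_zero, Multiset.prod_zero, map_one, map_one]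
  | cons a s ih =>
    obtain ⟨w, hw⟩ := ih fun b hb => hs b (Multiset.mem_cons_of_mem hb)
    obtain ⟨c, hc⟩ := hs a (Multiset.mem_cons_self a s)
    refine ⟨(z - algebraMap k₀ K₀ c) * w, ?_⟩
    rw [Multiset.map_cons, Multiset.prod_cons, map_mul, hw, map_mul, map_sub, map_sub, aeval_X,
      aeval_C, ← hc, ← IsScalarTower.algebraMap_apply, ← IsScalarTower.algebraMap_apply]

end C3M

open C3M

/-- functions without poles on the moving arcs -/
theorem specC3 (hCEB : SpecCEB) (hMAR : SpecMAR) (hVDM : SpecVDM) (hLSD : SpecLSD) : SpecC3 := by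
  classical
  intro k₀ K₀ k₁ K₁ _ _ _ _ _ _ _ _ _ _ _ _ _ _ hCE hF z hz h hh
  have hL : LSF k₁ := hLSD k₁
  have hfin : FiniteDimensional k₀⟮z⟯ K₀ := fdx hF hz
  have hchar : CharZero K₀ := charZero_of_injective_algebraMap (algebraMap k₀ K₀).injective
  have hcharF : CharZero k₀⟮z⟯ := inferInstance
  let pb : PowerBasis k₀⟮z⟯ K₀ := Field.powerBasisOfFiniteOfSeparable k₀⟮z⟯ K₀
  obtain ⟨htr, hbas, -, -⟩ := hCEB k₀ K₀ k₁ K₁ hCE hF
  have hz1 := htr z hz
  set z1 : K₁ := algebraMap K₀ K₁ z with hz1d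
  obtain ⟨e', he'⟩ : ∃ e' : Module.Basis (Fin pb.dim) k₁⟮z1⟯ K₁,
      ∀ i, e' i = algebraMap K₀ K₁ (pb.basis i) := hbas z hz pb.dim pb.basis
  -- the coordinates as fractions
  have hfrac : ∀ f : k₁⟮z1⟯, ∃ A B : k₁[X], B ≠ 0 ∧ IsCoprime A B ∧
      (f : K₁) * aeval z1 B = aeval z1 A := by
    intro f
    have hf := f.2
    rw [IntermediateField.mem_adjoin_simple_iff] at hf
    obtain ⟨r, s, hrs⟩ := hf
    by_cases hs : s = 0
    · refine ⟨0, 1, one_ne_zero, isCoprime_one_right, ?_⟩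
      rw [hrs, hs, map_zero, div_zero, zero_mul]
    · have hs0 : aeval z1 s ≠ 0 := fun h0 => hs (transcendental_iff.1 hz1 _ h0)
      obtain ⟨r', hr'⟩ := EuclideanDomain.gcd_dvd_left r s
      obtain ⟨s', hs'⟩ := EuclideanDomain.gcd_dvd_right r s
      set g := EuclideanDomain.gcd r s with hg
      have hg0 : g ≠ 0 := by
        intro h0
        rw [h0, zero_mul] at hs'
        exact hs hs'
      have hs'0 : s' ≠ 0 := by
        rintro rfl
        rw [mul_zero] at hs'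
        exact hs hs'
      refine ⟨r', s', hs'0, ?_, ?_⟩
      · have h1 := EuclideanDomain.gcd_eq_gcd_ab r s
        rw [← hg] at h1
        refine ⟨EuclideanDomain.gcdA r s, EuclideanDomain.gcdB r s, ?_⟩
        apply mul_left_cancel₀ hg0
        calc g * (EuclideanDomain.gcdA r s * r' + EuclideanDomain.gcdB r s * s')
            = (g * r') * EuclideanDomain.gcdA r s + (g * s') * EuclideanDomain.gcdB r s := by ring
          _ = g * 1 := by rw [← hr', ← hs', mul_one]; exact h1.symm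
      · have hg1 : aeval z1 g ≠ 0 := fun h0 => hg0 (transcendental_iff.1 hz1 _ h0)
        apply mul_left_cancel₀ hg1
        rw [hrs]
        have e1 : aeval z1 g * (aeval z1 r / aeval z1 s * aeval z1 s') =
            aeval z1 r / aeval z1 s * aeval z1 (g * s') := by
          rw [map_mul]; ring
        rw [e1, ← hs', div_mul_cancel₀ _ hs0, ← map_mul, ← hr']
  choose A B hB hcop hAB using fun i => hfrac (e'.repr h i)
  have hsum : h = ∑ i, ((e'.repr h i : k₁⟮z1⟯) : K₁) * (algebraMap K₀ K₁ pb.gen) ^ (i : ℕ) := by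
    conv_lhs => rw [← e'.sum_repr h]
    refine Finset.sum_congr rfl fun i _ => ?_
    rw [he', pb.basis_eq_pow, map_pow]
    rfl
  -- the denominators have no roots outside of `k₀`
  have hroot : ∀ j, ∀ ζ : k₁, (B j).eval ζ = 0 → ∃ c : k₀, algebraMap k₀ k₁ c = ζ := by
    intro j ζ hζ0
    refine (con (k := k₀) ζ).resolve_left fun hζ => ?_
    obtain ⟨ρ, hρ0, hρz, hρ⟩ := embeddings z hz hfin pb ζ hζ
    choose ι hι1 hι2 hι3 using fun i => hMAR k₀ K₀ k₁ K₁ hCE hF z hz (ρ i) (hρ0 i)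
    have hιz : ∀ i, ι i z1 = HahnSeries.C ζ + sv k₁ := by
      intro i
      rw [hι2 i, hρz i]
    have hF : ∀ i j, ι i ((e'.repr h j : k₁⟮z1⟯) : K₁) = ev ζ (A j) / ev ζ (B j) := by
      intro i j
      have h1 := congrArg (ι i) (hAB j)
      rw [map_mul, map_aeval (ι i) (hι1 i) z1 ζ (hιz i), map_aeval (ι i) (hι1 i) z1 ζ (hιz i)] at h1
      have h2 : ev ζ (B j) ≠ 0 := by
        rw [← map_aeval (ι i) (hι1 i) z1 ζ (hιz i)]
        intro h0
        rw [map_eq_zero] at h0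
        exact hB j (transcendental_iff.1 hz1 _ h0)
      rw [eq_div_iff h2]
      exact h1
    have hV := hVDM k₁ pb.dim (fun i => ι i (algebraMap K₀ K₁ pb.gen))
      (fun j => ev ζ (A j) / ev ζ (B j)) (fun i => (hι3 i pb.gen).1) (fun i j hij => by
        rw [(hι3 i pb.gen).2, (hι3 j pb.gen).2]
        exact hρ i j hij) (fun i => by
        have h1 := hh (ι i) ζ (hι1 i) (hιz i)
        have h2 : ι i h = ∑ j, ev ζ (A j) / ev ζ (B j) *
            (ι i (algebraMap K₀ K₁ pb.gen)) ^ (j : ℕ) := by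
          conv_lhs => rw [hsum]
          rw [map_sum]
          refine Finset.sum_congr rfl fun j _ => ?_
          rw [map_mul, map_pow, hF i j]
        rw [h2] at h1
        exact h1) j
    have h2 : ev ζ (B j) ≠ 0 := by
      intro h0
      have hpos : 0 < pb.dim := pb.dim_pos
      have h3 := map_aeval (ι ⟨0, hpos⟩) (hι1 _) z1 ζ (hιz _) (B j)
      rw [h0, map_eq_zero] at h3
      exact hB j (transcendental_iff.1 hz1 _ h3)
    have h3 := hL.coeff_mul _ _ hV (ev_coeff hL ζ (B j)).1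
    rw [(ev_coeff hL ζ (B j)).2, hζ0, mul_zero] at h3
    have h4 : ev ζ (A j) / ev ζ (B j) * ev ζ (B j) = ev ζ (A j) := div_mul_cancel₀ _ h2
    have h5 : (A j).eval ζ = 0 := by
      rw [← (ev_coeff hL ζ (A j)).2, ← h4]
      exact h3
    obtain ⟨a, b, hab⟩ := hcop j
    have h6 := congrArg (eval ζ) hab
    rw [eval_add, eval_mul, eval_mul, h5, hζ0, mul_zero, mul_zero, add_zero, eval_one] at h6
    exact zero_ne_one h6
  -- the end
  have hadj : ∀ p : k₁[X], aeval z1 p ∈ Algebra.adjoin k₁ (Set.range (algebraMap K₀ K₁)) := by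
    intro p
    exact Algebra.adjoin_mono (by
      rw [Set.singleton_subset_iff]
      exact ⟨z, rfl⟩) (aeval_mem_adjoin_singleton k₁ z1 (p := p))
  have hK0 : ∀ y : K₀, algebraMap K₀ K₁ y ∈ Algebra.adjoin k₁ (Set.range (algebraMap K₀ K₁)) :=
    fun y => Algebra.subset_adjoin ⟨y, rfl⟩
  rw [hsum]
  refine Subalgebra.sum_mem _ fun j _ => ?_
  refine Subalgebra.mul_mem _ ?_ (Subalgebra.pow_mem _ (hK0 _) _)
  have hB1 : aeval z1 (B j) ≠ 0 := fun h0 => hB j (transcendental_iff.1 hz1 _ h0)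
  obtain ⟨w, hw⟩ := prod_roots (K₁ := K₁) z (B j).roots (fun a ha =>
    hroot j a ((mem_roots (hB j)).1 ha))
  have h1 : (B j) = C (B j).leadingCoeff * ((B j).roots.map (fun a => X - C a)).prod :=
    (IsAlgClosed.splits (B j)).eq_prod_roots
  have h2 : aeval z1 (B j) = algebraMap k₁ K₁ (B j).leadingCoeff * algebraMap K₀ K₁ w := by
    conv_lhs => rw [h1]
    rw [map_mul, aeval_C, ← hw]
  have h3 : ((e'.repr h j : k₁⟮z1⟯) : K₁) = aeval z1 (A j) *
      algebraMap k₁ K₁ ((B j).leadingCoeff)⁻¹ * algebraMap K₀ K₁ w⁻¹ := by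
    have h4 := hAB j
    rw [map_inv₀, map_inv₀, mul_assoc, ← mul_inv, ← h2, ← h4, mul_assoc, mul_inv_cancel₀ hB1,
      mul_one]
  rw [h3]
  exact Subalgebra.mul_mem _ (Subalgebra.mul_mem _ (hadj _) (Subalgebra.algebraMap_mem _ _)) (hK0 _)

end MP743d1e.BD
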