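import Pool.Agent.Lib.MP_743d1e_nt.CY.Spec
import Pool.Agent.Lib.MP_743d1e_nt.GX.Defs
import Pool.Agent.Lib.MP_743d1e_nt.PlaceQ

/-!
# Unramified symbols of functions of bounded degree: definitions

Paper proof: team store, `MP_743d1e_nt_BD_h66.md`.
-/

set_option autoImplicit false

namespace MP743d1e.BD

open scoped BigOperators
open Polynomial IntermediateField MP743d1e.CY MP743d1e.GX MP743d1e.Integ Filter

/-! ## Function fields -/

/-- `K` is a function field of one variable over `k`. -/
def Fun1 (k K : Type) [Field k] [Field K] [Algebra k K] : Prop :=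
  ∃ x : K, Transcendental k x ∧ FiniteDimensional k⟮x⟯ K

theorem fdx {k K : Type} [Field k] [Field K] [Algebra k K] (h : Fun1 k K) {y : K}
    (hy : Transcendental k y) : FiniteDimensional k⟮y⟯ K := by
  obtain ⟨x, -, hx⟩ := h
  exact PlaceQ.finite_adjoin x hx y hy

theorem con {k K : Type} [Field k] [Field K] [Algebra k K] [IsAlgClosed k] (y : K) :
    Transcendental k y ∨ ∃ c : k, algebraMap k K c = y := by
  by_cases h : Transcendental k y
  · exact Or.inl h
  · right
    have h1 : IsIntegral k y := (not_not.1 h).isIntegral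
    exact minpoly.mem_range_of_degree_eq_one k y
      (IsAlgClosed.degree_eq_one_of_irreducible k (minpoly.irreducible h1))

/-- `f` has degree at most `d`: `[K : k(f)] ≤ d` (the degree of a constant is `0`). -/
def DegLE (k : Type) {K : Type} [Field k] [Field K] [Algebra k K] (d : ℕ) (f : K) : Prop :=
  Module.finrank k⟮f⟯ K ≤ d

/-- The tame symbols of `{f, g}` at all places of `K / k` are killed by `N`. -/
def TameN (k : Type) {K : Type} [Field k] [Field K] [Algebra k K] (N : ℕ) (f g : Kˣ) : Prop :=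
  ∀ v : DVal K, GeoF k v → N • tame v (sym f g) = 0

/-- `α` and `β` agree modulo torsion and the image of `K2 k`. -/
def EquivK (k : Type) {K : Type} [Field k] [Field K] [Algebra k K] (α β : K2 K) : Prop :=
  ∃ m : ℕ, 0 < m ∧ ∃ γ : K2 k, m • (α - β) = mk2 k K γ

/-- The order of `u` at `v` is at least `n`. -/
def GE {K : Type} [Field K] (v : DVal K) (n : ℤ) (u : K) : Prop :=
  u = 0 ∨ ∃ w : Kˣ, (w : K) = u ∧ n ≤ v.ord w

/-- Bounds for the degrees: at most `A` in the first variable, at most `B` in `Y`. -/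
def BiDeg {R : Type} [CommRing R] (A B : ℕ) (P : R[X][X]) : Prop :=
  P.natDegree ≤ B ∧ ∀ i, (P.coeff i).natDegree ≤ A

/-- `φ` is a rational function of `x` of degree at most `m` (order at least `-m` at infinity). -/
def DegX (k : Type) {K : Type} [Field k] [Field K] [Algebra k K] (x : K) (m : ℤ) (φ : K) : Prop :=
  ∃ p q : k[X], q ≠ 0 ∧ φ * aeval x q = aeval x p ∧ (p.natDegree : ℤ) - q.natDegree ≤ m

/-- `φ` is a rational function of `x` without pole at `x = c`. -/
def RegX (k : Type) {K : Type} [Field k] [Field K] [Algebra k K] (x : K) (c : k) (φ : K) : Prop :=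
  ∃ p q : k[X], q.eval c ≠ 0 ∧ φ * aeval x q = aeval x p

/-- `h` has no poles at the places where `x` has no pole. -/
def RR (k : Type) {K : Type} [Field k] [Field K] [Algebra k K] (x h : K) : Prop :=
  ∀ v : DVal K, GeoF k v → NN v x → NN v h

/-- `h` has no poles at the poles of `x`. -/
def RI (k : Type) {K : Type} [Field k] [Field K] [Algebra k K] (x h : K) : Prop :=
  ∀ v : DVal K, GeoF k v → ¬ NN v x → NN v h

/-- `h` has no poles at the places where `x` has the value `c`. -/
def RC (k : Type) {K : Type} [Field k] [Field K] [Algebra k K] (x : K) (c : k) (h : K) : Prop :=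
  ∀ v : DVal K, GeoF k v → Pos v (x - algebraMap k K c) → NN v h

/-! ## Laurent series -/

section LS

variable {κ : Type} [Field κ]

/-- The variable of the field of Laurent series. -/
noncomputable def sv (κ : Type) [Field κ] : LaurentSeries κ := HahnSeries.single (1 : ℤ) (1 : κ)

/-- `a` is a power series. -/
def IsO (a : LaurentSeries κ) : Prop := ∀ n : ℤ, n < 0 → a.coeff n = 0

/-- `a` is a power series without constant term. -/
def IsM (a : LaurentSeries κ) : Prop := ∀ n : ℤ, n ≤ 0 → a.coeff n = 0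

/-- The derivative of a Laurent series. -/
noncomputable def dS (a : LaurentSeries κ) : LaurentSeries κ := LaurentSeries.derivative κ a

/-- A derivation of `κ` applied to the coefficients. -/
noncomputable def cS (δ : Derivation ℤ κ κ) (a : LaurentSeries κ) : LaurentSeries κ := a.map δ

end LS

/-- The ring homomorphism `j` to the Laurent series is the identity on the constants. -/
def IsOver (k : Type) {K κ : Type} [Field k] [Field K] [Field κ] [Algebra k K] [Algebra k κ]
    (j : K →+* LaurentSeries κ) : Prop :=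
  ∀ c : k, j (algebraMap k K c) = HahnSeries.C (algebraMap k κ c)

/-- `j` has a uniformizer: some element of `K` is mapped to the variable. -/
def IsUnr {K κ : Type} [Field K] [Field κ] (j : K →+* LaurentSeries κ) : Prop :=
  ∃ ϖ : K, j ϖ = sv κ

/-- `h dz` is a regular differential of the function field `K / k`, `k` algebraically closed. -/
def IsRegD (k : Type) {K : Type} [Field k] [Field K] [Algebra k K] (z h : K) : Prop :=
  ∀ ι : K →+* LaurentSeries k, IsOver k ι → IsUnr ι → IsO (ι h * dS (ι z))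

/-! ## Constant extensions -/

/-- `K₁ = K₀ k₁` and `K₀`, `k₁` are linearly disjoint over `k₀`. -/
structure CExt (k₀ K₀ k₁ K₁ : Type) [Field k₀] [Field K₀] [Field k₁] [Field K₁] [Algebra k₀ K₀]
    [Algebra k₀ k₁] [Algebra k₀ K₁] [Algebra K₀ K₁] [Algebra k₁ K₁] [IsScalarTower k₀ K₀ K₁]
    [IsScalarTower k₀ k₁ K₁] : Prop where
  ld : ∀ (n : ℕ) (r : Fin n → K₀) (c : Fin n → k₁), LinearIndependent k₀ c →
    ∑ i, algebraMap K₀ K₁ (r i) * algebraMap k₁ K₁ (c i) = 0 → ∀ i, r i = 0
  gen : ∀ x : K₁, ∃ a ∈ Algebra.adjoin k₁ (Set.range (algebraMap K₀ K₁)),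
    ∃ b ∈ Algebra.adjoin k₁ (Set.range (algebraMap K₀ K₁)), b ≠ 0 ∧ x * b = a

/-- A good arc of `K₁ / k₁`: some function of `K₀` is mapped to a constant plus the variable. -/
def IsGood (K₀ k₁ : Type) {K₁ : Type} [Field K₀] [Field k₁] [Field K₁] [Algebra K₀ K₁]
    [Algebra k₁ K₁] (ι : K₁ →+* LaurentSeries k₁) : Prop :=
  IsOver k₁ ι ∧ ∃ (y : K₀) (c : k₁), ι (algebraMap K₀ K₁ y) = HahnSeries.C c + sv k₁

/-- The derivation `D` of `K₁` in the direction of the parameter `t`. -/
structure IsDt (k₀ K₀ k₁ : Type) {K₁ : Type} [Field k₀] [Field K₀] [Field k₁] [Field K₁]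
    [Algebra k₀ k₁] [Algebra K₀ K₁] [Algebra k₁ K₁] (t : k₁) (D : Derivation ℤ K₁ K₁)
    (D₀ : Derivation ℤ k₁ k₁) : Prop where
  onK : ∀ y : K₀, D (algebraMap K₀ K₁ y) = 0
  onk : ∀ c : k₁, D (algebraMap k₁ K₁ c) = algebraMap k₁ K₁ (D₀ c)
  on0 : ∀ c : k₀, D₀ (algebraMap k₀ k₁ c) = 0
  one : D₀ t = 1

/-- The derivation `E = d / dz` of `K₁ / k₁`, `z` in `K₀`. -/
structure IsDz (K₀ k₁ : Type) {K₁ : Type} [Field K₀] [Field k₁] [Field K₁] [Algebra K₀ K₁]
    [Algebra k₁ K₁] (z : K₀) (E : Derivation ℤ K₁ K₁) (E₀ : Derivation ℤ K₀ K₀) : Prop where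
  onk : ∀ c : k₁, E (algebraMap k₁ K₁ c) = 0
  onK : ∀ y : K₀, E (algebraMap K₀ K₁ y) = algebraMap K₀ K₁ (E₀ y)
  one : E₀ z = 1

/-- `(Ef/f)(Dg/g) - (Df/f)(Eg/g)`. -/
def gD {K : Type} [Field K] (D E : Derivation ℤ K K) (f g : K) : K :=
  E f / f * (D g / g) - D f / f * (E g / g)

/-- `A` is a derivation along the ring homomorphism `j`. -/
def AlongD {K V : Type} [Field K] [Field V] (j : K →+* V) (A : K → V) : Prop :=
  (∀ a b, A (a + b) = A a + A b) ∧ ∀ a b, A (a * b) = j a * A b + j b * A a

/-! ## Ultraproducts of fields -/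

section UP

variable (U : Ultrafilter ℕ) (X : ℕ → Type) [∀ n, Field (X n)]

/-- The sequences that are almost everywhere zero. -/
def UId : Ideal (∀ n, X n) where
  carrier := {x | ∀ᶠ n in (U : Filter ℕ), x n = 0}
  add_mem' := by
    intro a b ha hb
    filter_upwards [ha, hb] with n h1 h2
    rw [Pi.add_apply, h1, h2, add_zero]
  zero_mem' := Filter.Eventually.of_forall fun n => rfl
  smul_mem' := by
    intro c x hx
    filter_upwards [hx] with n h1
    rw [smul_eq_mul, Pi.mul_apply, h1, mul_zero]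

instance UId_isMaximal : (UId U X).IsMaximal := by
  classical
  rw [Ideal.isMaximal_iff]
  constructor
  · intro h
    have h1 : ∀ᶠ n in (U : Filter ℕ), (1 : ∀ n, X n) n = 0 := h
    have h2 : ∀ᶠ n in (U : Filter ℕ), False := by
      filter_upwards [h1] with n hn
      exact one_ne_zero hn
    exact (Filter.eventually_false_iff_eq_bot.1 h2 ▸ U.neBot).ne rfl
  · intro J x hJ hx hxJ
    have h1 : ∀ᶠ n in (U : Filter ℕ), x n ≠ 0 := Ultrafilter.eventually_not.2 hx
    have h2 : (fun n => if x n = 0 then (1 : X n) else 0) ∈ J := by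
      apply hJ
      show ∀ᶠ n in (U : Filter ℕ), (if x n = 0 then (1 : X n) else 0) = 0
      filter_upwards [h1] with n hn
      rw [if_neg hn]
    have h3 : (1 : ∀ n, X n) = (fun n => (x n)⁻¹) * x +
        fun n => if x n = 0 then (1 : X n) else 0 := by
      funext n
      simp only [Pi.one_apply, Pi.add_apply, Pi.mul_apply]
      by_cases h : x n = 0
      · rw [if_pos h, h, mul_zero, zero_add]
      · rw [if_neg h, inv_mul_cancel₀ h, add_zero]
    rw [h3]
    exact J.add_mem (J.mul_mem_left _ hxJ) h2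

/-- The ultraproduct. -/
def UP : Type := (∀ n, X n) ⧸ UId U X

noncomputable instance : Field (UP U X) := Ideal.Quotient.field (UId U X)

variable {X} in
/-- The class of a sequence. -/
def UP.mk : (∀ n, X n) →+* UP U X := Ideal.Quotient.mk (UId U X)

theorem UP.mk_surj : Function.Surjective (UP.mk U (X := X)) := Ideal.Quotient.mk_surjective

variable {X} in
theorem UP.mk_eq_zero {x : ∀ n, X n} : UP.mk U x = 0 ↔ ∀ᶠ n in (U : Filter ℕ), x n = 0 :=
  Ideal.Quotient.eq_zero_iff_mem

variable {X} in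
theorem UP.mk_eq {x y : ∀ n, X n} : UP.mk U x = UP.mk U y ↔ ∀ᶠ n in (U : Filter ℕ), x n = y n := by
  rw [← sub_eq_zero, ← map_sub, UP.mk_eq_zero]
  simp only [Pi.sub_apply, sub_eq_zero]

variable {X} {Y : ℕ → Type} [∀ n, Field (Y n)]

/-- The ultraproduct of a sequence of ring homomorphisms. -/
noncomputable def UP.map (φ : ∀ n, X n →+* Y n) : UP U X →+* UP U Y :=
  Ideal.Quotient.lift (UId U X)
    ((UP.mk U).comp (RingHom.pi fun n => (φ n).comp (Pi.evalRingHom X n))) (by
      intro a ha
      rw [RingHom.comp_apply, UP.mk_eq_zero]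
      have h1 : ∀ᶠ n in (U : Filter ℕ), a n = 0 := ha
      filter_upwards [h1] with n hn
      show (φ n) (a n) = 0
      rw [hn, map_zero])

theorem UP.map_mk (φ : ∀ n, X n →+* Y n) (x : ∀ n, X n) :
    UP.map U φ (UP.mk U x) = UP.mk U fun n => φ n (x n) := rfl

noncomputable instance [∀ n, Algebra (X n) (Y n)] : Algebra (UP U X) (UP U Y) :=
  (UP.map U fun n => algebraMap (X n) (Y n)).toAlgebra

theorem UP.algebraMap_mk [∀ n, Algebra (X n) (Y n)] (x : ∀ n, X n) :
    algebraMap (UP U X) (UP U Y) (UP.mk U x) = UP.mk U fun n => algebraMap (X n) (Y n) (x n) := rfl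

end UP

/-- The elements of the ultraproduct `UP U Y` that are algebraic over the field generated by `z` over the
ultraproduct `UP U X` of the fields of constants. -/
noncomputable def Kb (U : Ultrafilter ℕ) (X : ℕ → Type) [∀ n, Field (X n)] {Y : ℕ → Type}
    [∀ n, Field (Y n)] [∀ n, Algebra (X n) (Y n)] (z : ∀ n, Y n) :
    IntermediateField (UP U X) (UP U Y) :=
  (algebraicClosure (UP U X)⟮UP.mk U z⟯ (UP U Y)).restrictScalars (UP U X)

end MP743d1e.BD
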